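import Mathlib

set_option autoImplicit false

namespace H85

open Set Filter

variable {Ω : Type} [LinearOrder Ω]

/-- The basic set of the point `x`. -/
def K (r : Ω → Ω × ℕ → ℕ) (x : Ω × ℕ) : Set (Ω × ℕ) := {y | y.1 ≤ x.1 ∧ r x.1 y = x.2}

/-- Finite symmetric differences of basic sets of levels in `I`. -/
inductive Cp (r : Ω → Ω × ℕ → ℕ) (I : Set Ω) : Set (Ω × ℕ) → Prop
  | empty : Cp r I ∅
  | sdK {b : Set (Ω × ℕ)} {x : Ω × ℕ} (hx : x.1 ∈ I) (hb : Cp r I b) :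
      Cp r I (symmDiff b (K r x))

variable {r : Ω → Ω × ℕ → ℕ} {I : Set Ω}

theorem Cp.of_K {x : Ω × ℕ} (hx : x.1 ∈ I) : Cp r I (K r x) := by
  have := Cp.sdK (r := r) hx Cp.empty
  rwa [← Set.bot_eq_empty, bot_symmDiff] at this

theorem Cp.mono {J : Set Ω} (h : I ⊆ J) {b : Set (Ω × ℕ)} (hb : Cp r I b) : Cp r J b := by
  induction hb with
  | empty => exact .empty
  | sdK hx _ ih => exact .sdK (h hx) ih

theorem Cp.sd {b c : Set (Ω × ℕ)} (hb : Cp r I b) (hc : Cp r I c) : Cp r I (symmDiff b c) := by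
  induction hc with
  | empty => rwa [← Set.bot_eq_empty, symmDiff_bot]
  | sdK hx _ ih =>
    rw [← symmDiff_assoc]
    exact .sdK hx ih

theorem Cp.congr {r' : Ω → Ω × ℕ → ℕ} (h : ∀ δ ∈ I, r δ = r' δ) {b : Set (Ω × ℕ)}
    (hb : Cp r I b) : Cp r' I b := by
  induction hb with
  | empty => exact .empty
  | @sdK b x hx _ ih =>
    have : K r x = K r' x := by
      unfold K; rw [h _ hx]
    rw [this]
    exact .sdK hx ih

/-- The set represented by a finite set of points. -/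
def Sr (r : Ω → Ω × ℕ → ℕ) (F : Finset (Ω × ℕ)) : Set (Ω × ℕ) :=
  open Classical in {y | Odd (F.filter (fun x => y ∈ K r x)).card}

theorem Sr_empty : Sr r ∅ = ∅ := by
  ext y; simp [Sr]

theorem Sr_insert [DecidableEq (Ω × ℕ)] {F : Finset (Ω × ℕ)} {x : Ω × ℕ} (hx : x ∉ F) :
    Sr r (insert x F) = symmDiff (Sr r F) (K r x) := by
  classical
  ext y
  simp only [Sr, mem_setOf_eq, Set.mem_symmDiff]
  by_cases hy : y ∈ K r x
  · have : (insert x F).filter (fun x => y ∈ K r x) =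
        insert x (F.filter (fun x => y ∈ K r x)) := by
      ext z; simp only [Finset.mem_filter, Finset.mem_insert]
      constructor
      · rintro ⟨h1 | h1, h2⟩
        · exact Or.inl h1
        · exact Or.inr ⟨h1, h2⟩
      · rintro (h1 | ⟨h1, h2⟩)
        · exact ⟨Or.inl h1, by rw [h1]; exact hy⟩
        · exact ⟨Or.inr h1, h2⟩
    rw [this, Finset.card_insert_of_notMem (fun h => hx (Finset.mem_filter.1 h).1)]
    simp only [hy, Nat.odd_add_one, not_true_eq_false, and_false, true_and, false_or]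
  · have : (insert x F).filter (fun x => y ∈ K r x) = (F.filter (fun x => y ∈ K r x)) := by
      ext z; simp only [Finset.mem_filter, Finset.mem_insert]
      constructor
      · rintro ⟨h1 | h1, h2⟩
        · exact absurd (h1 ▸ h2) hy
        · exact ⟨h1, h2⟩
      · rintro ⟨h1, h2⟩
        exact ⟨Or.inr h1, h2⟩
    rw [this]
    simp only [hy, not_false_eq_true, and_true, false_and, or_false]

theorem Cp.exists_rep {b : Set (Ω × ℕ)} (hb : Cp r I b) :
    ∃ F : Finset (Ω × ℕ), (∀ x ∈ F, x.1 ∈ I) ∧ b = Sr r F := by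
  classical
  induction hb with
  | empty => exact ⟨∅, by simp, Sr_empty.symm⟩
  | @sdK b x hx _ ih =>
    obtain ⟨F, hF, rfl⟩ := ih
    by_cases hxF : x ∈ F
    · refine ⟨F.erase x, fun y hy => hF y (Finset.mem_of_mem_erase hy), ?_⟩
      have h1 : F = insert x (F.erase x) := (Finset.insert_erase hxF).symm
      have h2 : Sr r F = symmDiff (Sr r (F.erase x)) (K r x) := by
        conv_lhs => rw [h1]
        exact Sr_insert (Finset.notMem_erase x F)
      rw [h2, symmDiff_symmDiff_cancel_right]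
    · refine ⟨insert x F, ?_, (Sr_insert hxF).symm⟩
      intro y hy
      rcases Finset.mem_insert.1 hy with rfl | hy
      · exact hx
      · exact hF y hy

theorem Cp.of_Sr {F : Finset (Ω × ℕ)} (hF : ∀ x ∈ F, x.1 ∈ I) : Cp r I (Sr r F) := by
  classical
  induction F using Finset.induction_on with
  | empty => rw [Sr_empty]; exact .empty
  | insert x F hx ih =>
    rw [Sr_insert hx]
    exact .sdK (hF x (Finset.mem_insert_self x F))
      (ih fun y hy => hF y (Finset.mem_insert_of_mem hy))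

/-- Normalisation. -/
def Nrm (r : Ω → Ω × ℕ → ℕ) : Prop := ∀ γ n, r γ (γ, n) = n

theorem Nrm.mem_K (h : Nrm r) (x : Ω × ℕ) : x ∈ K r x := ⟨le_rfl, h x.1 x.2⟩

theorem Nrm.eq_of_mem (h : Nrm r) {x y : Ω × ℕ} (hy : y ∈ K r x) (hxy : y.1 = x.1) : y = x := by
  obtain ⟨y1, y2⟩ := y
  obtain ⟨x1, x2⟩ := x
  simp only at hxy
  subst hxy
  have := hy.2
  simp only [h y1 y2] at this
  rw [this]

theorem Nrm.mem_Sr_of_max (h : Nrm r) {F : Finset (Ω × ℕ)} {y : Ω × ℕ}
    (hF : ∀ x ∈ F, x.1 ≤ y.1) : y ∈ Sr r F ↔ y ∈ F := by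
  classical
  have : F.filter (fun x => y ∈ K r x) = if y ∈ F then {y} else ∅ := by
    ext z
    rw [Finset.mem_filter]
    constructor
    · rintro ⟨h1, h2⟩
      have h3 := hF z h1
      have h4 : y = z := h.eq_of_mem h2 (le_antisymm h2.1 h3)
      subst h4
      simp [h1]
    · intro hz
      split_ifs at hz with hy
      · rw [Finset.mem_singleton] at hz
        subst hz
        exact ⟨hy, h.mem_K z⟩
      · simp at hz
  simp only [Sr, mem_setOf_eq]
  rw [this]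
  split_ifs with hy <;> simp [hy]

theorem exists_le_of_mem_Sr {F : Finset (Ω × ℕ)} {y : Ω × ℕ} (hy : y ∈ Sr r F) :
    ∃ x ∈ F, y ∈ K r x := by
  classical
  by_contra hcon
  push Not at hcon
  have : F.filter (fun x => y ∈ K r x) = ∅ := Finset.filter_eq_empty_iff.2 (fun x hx => hcon x hx)
  simp [Sr, this] at hy

/-- Top level of a compact set. -/
theorem Cp.top (h : Nrm r) {b : Set (Ω × ℕ)} (hb : Cp r I b) (hne : b.Nonempty) :
    ∃ δ ∈ I, (∀ y ∈ b, y.1 ≤ δ) ∧ (∃ m, (δ, m) ∈ b) ∧ {m | (δ, m) ∈ b}.Finite := by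
  classical
  obtain ⟨F, hF, rfl⟩ := hb.exists_rep
  have hFne : F.Nonempty := by
    obtain ⟨y, hy⟩ := hne
    obtain ⟨x, hx, _⟩ := exists_le_of_mem_Sr hy
    exact ⟨x, hx⟩
  obtain ⟨x0, hx0, hmax⟩ := F.exists_max_image Prod.fst hFne
  refine ⟨x0.1, hF x0 hx0, ?_, ⟨x0.2, ?_⟩, ?_⟩
  · intro y hy
    obtain ⟨x, hx, h1⟩ := exists_le_of_mem_Sr hy
    exact h1.1.trans (hmax x hx)
  · exact (h.mem_Sr_of_max hmax).2 hx0
  · have : {m | (x0.1, m) ∈ Sr r F} ⊆ F.image Prod.snd := by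
      intro m hm
      have hm' : (x0.1, m) ∈ Sr r F := hm
      rw [h.mem_Sr_of_max (y := (x0.1, m)) hmax] at hm'
      exact Finset.mem_coe.2 (Finset.mem_image.2 ⟨_, hm', rfl⟩)
    exact (Finset.finite_toSet _).subset this

theorem Cp.lower (h : Nrm r) {J : Set Ω} (hJ : IsLowerSet J) {b : Set (Ω × ℕ)} (hb : Cp r I b)
    (hbJ : ∀ y ∈ b, y.1 ∈ J) : Cp r (I ∩ J) b := by
  classical
  obtain ⟨F, hF, rfl⟩ := hb.exists_rep
  apply Cp.of_Sr
  intro x hx
  refine ⟨hF x hx, ?_⟩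
  obtain ⟨x0, hx0, hmax⟩ := F.exists_max_image Prod.fst ⟨x, hx⟩
  have := hbJ x0 ((h.mem_Sr_of_max hmax).2 hx0)
  exact hJ (hmax x hx) this

theorem countable_Cp (hI : I.Countable) : {b | Cp r I b}.Countable := by
  classical
  have h1 : {F : Finset (Ω × ℕ) | ∀ x ∈ F, x.1 ∈ I}.Countable := by
    have h2 : (I ×ˢ (univ : Set ℕ)).Countable := hI.prod countable_univ
    have h3 := Set.countable_setOf_finite_subset h2
    have h4 : MapsTo (fun F : Finset (Ω × ℕ) => (F : Set (Ω × ℕ)))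
        {F : Finset (Ω × ℕ) | ∀ x ∈ F, x.1 ∈ I} {t | t.Finite ∧ t ⊆ I ×ˢ (univ : Set ℕ)} := by
      intro F hF
      exact ⟨F.finite_toSet, fun x hx => ⟨hF x hx, mem_univ _⟩⟩
    exact h4.countable_of_injOn (Finset.coe_injective.injOn) h3
  refine (h1.image (Sr r)).mono ?_
  intro b hb
  obtain ⟨F, hF, rfl⟩ := Cp.exists_rep hb
  exact ⟨F, hF, rfl⟩

/-- Conditions on the level `α`. -/
structure Lev (r : Ω → Ω × ℕ → ℕ) (α : Ω) (f : Ω × ℕ → ℕ) : Prop where
  fin : ∀ x : Ω × ℕ, x.1 < α → (f '' K r x).Finite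
  cut : ∀ x : Ω × ℕ, x.1 < α → ∀ n, Cp r (Iio α) (K r x ∩ f ⁻¹' {n})
  const : ∀ δ < α, ∀ᶠ m in atTop, ∀ y ∈ K r (δ, m), f y = f (δ, m)
  even : ∀ δ < α, ∀ᶠ m in atTop, Even m → Even (f (δ, m))
  evfin : ∀ δ < α, ∀ k, ∀ᶠ m in atTop, Even m → f (δ, m) ≠ k
  odd : ∀ δ < α, ∀ n, ∃ᶠ m in atTop, Odd m ∧ f (δ, m) = n

/-- A good system on the lower set `I`. -/
structure Sys (r : Ω → Ω × ℕ → ℕ) (I : Set Ω) : Prop where
  nrm : Nrm r
  low : IsLowerSet I
  lev : ∀ α ∈ I, Lev r α (r α)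

theorem Sys.Iio (S : Sys r I) {α : Ω} (hα : α ∈ I) : Sys r (Iio α) :=
  ⟨S.nrm, isLowerSet_Iio α, fun β hβ => S.lev β (S.low hβ.le hα)⟩

theorem Sys.mono (S : Sys r I) {J : Set Ω} (hJ : J ⊆ I) (hJ' : IsLowerSet J) : Sys r J :=
  ⟨S.nrm, hJ', fun β hβ => S.lev β (hJ hβ)⟩

theorem Sys.K_inter_lt (S : Sys r I) {x y : Ω × ℕ} (hy : y.1 ∈ I) (hxy : x.1 < y.1) :
    Cp r I (K r x ∩ K r y) := by
  have h1 := (S.lev y.1 hy).cut x hxy y.2
  have h2 : K r x ∩ K r y = K r x ∩ (r y.1) ⁻¹' {y.2} := by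
    ext z
    constructor
    · rintro ⟨h3, h4⟩; exact ⟨h3, h4.2⟩
    · rintro ⟨h3, h4⟩; exact ⟨h3, h3.1.trans hxy.le, h4⟩
  rw [h2]
  exact h1.mono (fun z hz => S.low (le_of_lt hz) hy)

theorem Sys.K_inter (S : Sys r I) {x y : Ω × ℕ} (hx : x.1 ∈ I) (hy : y.1 ∈ I) :
    Cp r I (K r x ∩ K r y) := by
  rcases lt_trichotomy x.1 y.1 with h | h | h
  · exact S.K_inter_lt hy h
  · by_cases h2 : x.2 = y.2
    · have : x = y := Prod.ext h h2
      subst this
      rw [inter_self]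
      exact Cp.of_K hx
    · have : K r x ∩ K r y = ∅ := by
        rw [Set.eq_empty_iff_forall_notMem]
        rintro z ⟨h3, h4⟩
        apply h2
        rw [← h3.2, ← h4.2, h]
      rw [this]; exact .empty
  · rw [inter_comm]
    exact S.K_inter_lt hx h

theorem Sys.inter (S : Sys r I) {b c : Set (Ω × ℕ)} (hb : Cp r I b) (hc : Cp r I c) :
    Cp r I (b ∩ c) := by
  have h1 : ∀ x : Ω × ℕ, x.1 ∈ I → ∀ c, Cp r I c → Cp r I (K r x ∩ c) := by
    intro x hx c hc
    induction hc with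
    | empty => rw [inter_empty]; exact .empty
    | @sdK c y hy _ ih =>
      have : K r x ∩ symmDiff c (K r y) = symmDiff (K r x ∩ c) (K r x ∩ K r y) :=
        inf_symmDiff_distrib_left _ _ _
      rw [this]
      exact ih.sd (S.K_inter hx hy)
  induction hb with
  | empty => rw [empty_inter]; exact .empty
  | @sdK b y hy _ ih =>
    have : symmDiff b (K r y) ∩ c = symmDiff (b ∩ c) (K r y ∩ c) :=
        inf_symmDiff_distrib_right _ _ _
    rw [this]
    exact ih.sd (h1 y hy c hc)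

theorem Sys.union (S : Sys r I) {b c : Set (Ω × ℕ)} (hb : Cp r I b) (hc : Cp r I c) :
    Cp r I (b ∪ c) := by
  have : b ∪ c = symmDiff (symmDiff b c) (b ∩ c) := by
    ext z; simp only [Set.mem_symmDiff, mem_union, mem_inter_iff]; tauto
  rw [this]
  exact (hb.sd hc).sd (S.inter hb hc)

theorem Sys.diff (S : Sys r I) {b c : Set (Ω × ℕ)} (hb : Cp r I b) (hc : Cp r I c) :
    Cp r I (b \ c) := by
  have : b \ c = symmDiff b (b ∩ c) := by
    ext z; simp only [Set.mem_symmDiff, mem_diff, mem_inter_iff]; tauto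
  rw [this]
  exact hb.sd (S.inter hb hc)

theorem Sys.biUnion (S : Sys r I) {ι : Type*} {s : Set ι} (hs : s.Finite)
    {f : ι → Set (Ω × ℕ)} (hf : ∀ i ∈ s, Cp r I (f i)) : Cp r I (⋃ i ∈ s, f i) := by
  induction s, hs using Set.Finite.induction_on with
  | empty => rw [biUnion_empty]; exact .empty
  | @insert a s _ _ ih =>
    rw [biUnion_insert]
    exact S.union (hf a (mem_insert a s)) (ih fun i hi => hf i (mem_insert_of_mem a hi))

/-- A compact set respects almost all the pieces of each level. -/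
theorem Sys.resp (S : Sys r I) {b : Set (Ω × ℕ)} (hb : Cp r I b) {δ : Ω} (hδ : δ ∈ I) :
    ∀ᶠ m in atTop, ∀ y ∈ K r (δ, m), (y ∈ b ↔ (δ, m) ∈ b) := by
  induction hb with
  | empty => simp
  | @sdK b x hx _ ih =>
    have key : ∀ᶠ m in atTop, ∀ y ∈ K r (δ, m), (y ∈ K r x ↔ (δ, m) ∈ K r x) := by
      rcases lt_trichotomy x.1 δ with h | h | h
      · have h1 := (S.lev δ hδ).fin x h
        have h2 : ∀ᶠ m in atTop, m ∉ r δ '' K r x := by
          rw [← Nat.cofinite_eq_atTop]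
          exact h1.eventually_cofinite_notMem
        filter_upwards [h2] with m hm y hy
        constructor
        · intro hyx
          exact absurd ⟨y, hyx, hy.2⟩ hm
        · intro hm'
          exact absurd hm'.1 (not_le.2 h)
      · refine Eventually.of_forall fun m y hy => ?_
        have h1 : r x.1 y = m := by rw [h]; exact hy.2
        have h2 : r x.1 (δ, m) = m := by rw [h]; exact S.nrm δ m
        constructor
        · intro h3
          exact ⟨h.ge, by rw [h2, ← h3.2, h1]⟩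
        · intro h3
          exact ⟨hy.1.trans h.ge, by rw [h1, ← h3.2, h2]⟩
      · have h1 := (S.lev x.1 hx).const δ h
        filter_upwards [h1] with m hm y hy
        constructor
        · intro h3
          exact ⟨h.le, by rw [← hm y hy, h3.2]⟩
        · intro h3
          exact ⟨hy.1.trans h.le, by rw [hm y hy, h3.2]⟩
    filter_upwards [ih, key] with m h1 h2 y hy
    rw [Set.mem_symmDiff, Set.mem_symmDiff, h1 y hy, h2 y hy]

theorem Sys.evn (S : Sys r I) {b : Set (Ω × ℕ)} (hb : Cp r I b) {δ : Ω} (hδ : δ ∈ I) :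
    ∀ᶠ m in atTop, Even m → (δ, m) ∉ b := by
  induction hb with
  | empty => simp
  | @sdK b x hx _ ih =>
    have key : ∀ᶠ m in atTop, Even m → (δ, m) ∉ K r x := by
      rcases lt_trichotomy x.1 δ with h | h | h
      · exact Eventually.of_forall fun m _ h1 => absurd h1.1 (not_le.2 h)
      · filter_upwards [eventually_gt_atTop x.2] with m hm _ h1
        have h2 := h1.2
        rw [h, S.nrm δ m] at h2
        omega
      · filter_upwards [(S.lev x.1 hx).evfin δ h x.2] with m hm he h1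
        exact hm he h1.2
    filter_upwards [ih, key] with m h1 h2 he
    rw [Set.mem_symmDiff]
    rintro (⟨h3, _⟩ | ⟨h3, _⟩)
    · exact h1 he h3
    · exact h2 he h3

/-- The even part at level `γ`. -/
def Z (r : Ω → Ω × ℕ → ℕ) (γ : Ω) : Set (Ω × ℕ) := {y | y.1 ≤ γ ∧ Even (r γ y)}

theorem finite_of_eventually {p : ℕ → Prop} (h : ∀ᶠ m in atTop, ¬ p m) : {m | p m}.Finite := by
  rw [← Nat.cofinite_eq_atTop] at h
  rw [Filter.eventually_cofinite] at h
  simpa using h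

theorem Sys.cutZ (S : Sys r I) {b : Set (Ω × ℕ)} (hb : Cp r I b) {γ : Ω} (hγ : γ ∈ I) :
    Cp r I (b ∩ Z r γ) := by
  have h1 : {m | Even m ∧ ∃ y ∈ K r (γ, m), y ∈ b}.Finite := by
    apply finite_of_eventually
    filter_upwards [S.resp hb hγ, S.evn hb hγ] with m h1 h2
    rintro ⟨h3, y, hy, hyb⟩
    exact h2 h3 ((h1 y hy).1 hyb)
  have h2 : b ∩ Z r γ = ⋃ m ∈ {m | Even m ∧ ∃ y ∈ K r (γ, m), y ∈ b}, (b ∩ K r (γ, m)) := by
    ext y
    simp only [mem_inter_iff, mem_iUnion, exists_prop, mem_setOf_eq, Z]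
    constructor
    · rintro ⟨h3, h4, h5⟩
      exact ⟨r γ y, ⟨h5, y, ⟨h4, rfl⟩, h3⟩, h3, h4, rfl⟩
    · rintro ⟨m, ⟨h3, _⟩, h4, h5⟩
      exact ⟨h4, h5.1, by rw [h5.2]; exact h3⟩
  rw [h2]
  apply S.biUnion h1
  intro m _
  exact S.inter hb (Cp.of_K hγ)

theorem frequently_odd : ∃ᶠ m : ℕ in atTop, Odd m := by
  rw [frequently_atTop]
  intro a
  exact ⟨2 * a + 1, by omega, ⟨a, by ring⟩⟩

variable [WellFoundedLT Ω]

/-- Fullness of a level. -/
theorem Sys.full_lev (S : Sys r I) : ∀ α ∈ I, ∀ n, ∀ c, Cp r (Set.Iio α) c → ∀ δ < α,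
    ∃ᶠ m in atTop, Odd m ∧ r α (δ, m) = n ∧ (δ, m) ∉ c := by
  intro α
  induction α using WellFoundedLT.induction with
  | ind α ih =>
    intro hα n c hc δ hδ
    by_cases hfin : {m | (δ, m) ∈ c}.Finite
    · have h1 : ∀ᶠ m in atTop, m ∉ {m | (δ, m) ∈ c} := by
        rw [← Nat.cofinite_eq_atTop]
        exact hfin.eventually_cofinite_notMem
      refine (((S.lev α hα).odd δ hδ n).and_eventually h1).mono ?_
      rintro m ⟨⟨h2, h3⟩, h4⟩
      exact ⟨h2, h3, h4⟩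
    · have hinf : {m | (δ, m) ∈ c}.Infinite := hfin
      obtain ⟨m0, hm0⟩ := hinf.nonempty
      obtain ⟨ε, hε, htop, _, hεf⟩ := hc.top S.nrm ⟨_, hm0⟩
      have hδε : δ < ε := lt_of_le_of_ne (htop _ hm0) (fun h => hfin (h ▸ hεf))
      have hε' : ε < α := hε
      have hεI : ε ∈ I := S.low hε'.le hα
      have h1 : ∀ᶠ m in atTop, m ∉ {m | (ε, m) ∈ c} := by
        rw [← Nat.cofinite_eq_atTop]
        exact hεf.eventually_cofinite_notMem
      have h2 := ((((S.lev α hα).odd ε hε' n).and_eventually h1).and_eventually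
        ((S.lev α hα).const ε hε')).and_eventually
        ((S.Iio hα).resp hc (show ε ∈ Set.Iio α from hε'))
      obtain ⟨m, ⟨⟨⟨h3, h4⟩, h5⟩, h6⟩, h7⟩ := h2.exists
      refine (ih ε hε' hεI m ∅ .empty δ hδε).mono ?_
      rintro m' ⟨h8, h9, _⟩
      have h10 : (δ, m') ∈ K r (ε, m) := ⟨hδε.le, h9⟩
      refine ⟨h8, ?_, ?_⟩
      · rw [h6 _ h10, h4]
      · rw [h7 _ h10]; exact h5

theorem Cp.fst_mem (h : Nrm r) (hI : IsLowerSet I) {b : Set (Ω × ℕ)} (hb : Cp r I b)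
    {x : Ω × ℕ} (hx : x ∈ b) : x.1 ∈ I := by
  obtain ⟨δ, hδ, h1, _⟩ := hb.top h ⟨x, hx⟩
  exact hI (h1 x hx) hδ

theorem Sys.diffK (S : Sys r I) {b : Set (Ω × ℕ)} (hb : Cp r I b) {x : Ω × ℕ} (hx : x ∈ b) :
    Cp r (Set.Iio x.1) (K r x \ b) := by
  have hxI := hb.fst_mem S.nrm S.low hx
  have h1 : Cp r I (K r x \ b) := S.diff (Cp.of_K hxI) hb
  refine (h1.lower S.nrm (isLowerSet_Iio x.1) ?_).mono inter_subset_right
  intro y hy
  refine lt_of_le_of_ne hy.1.1 fun h => hy.2 ?_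
  rwa [S.nrm.eq_of_mem hy.1 h]

theorem Sys.interK (S : Sys r I) {b : Set (Ω × ℕ)} (hb : Cp r I b) {x : Ω × ℕ} (hxI : x.1 ∈ I)
    (hx : x ∉ b) : Cp r (Set.Iio x.1) (K r x ∩ b) := by
  have h1 : Cp r I (K r x ∩ b) := S.inter (Cp.of_K hxI) hb
  refine (h1.lower S.nrm (isLowerSet_Iio x.1) ?_).mono inter_subset_right
  intro y hy
  refine lt_of_le_of_ne hy.1.1 fun h => hx ?_
  rw [← S.nrm.eq_of_mem hy.1 h]
  exact hy.2

theorem Sys.full (S : Sys r I) {b : Set (Ω × ℕ)} (hb : Cp r I b) {x : Ω × ℕ} (hx : x ∈ b)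
    {δ : Ω} (hδ : δ < x.1) : ∃ᶠ m in atTop, Odd m ∧ (δ, m) ∈ b := by
  have hxI := hb.fst_mem S.nrm S.low hx
  refine (S.full_lev x.1 hxI x.2 _ (S.diffK hb hx) δ hδ).mono ?_
  rintro m ⟨h1, h2, h3⟩
  refine ⟨h1, ?_⟩
  by_contra h4
  exact h3 ⟨⟨hδ.le, h2⟩, h4⟩

theorem Sys.full' (S : Sys r I) {b : Set (Ω × ℕ)} (hb : Cp r I b) {δ : Ω} (hδ : δ ∈ I) :
    ∃ᶠ m in atTop, Odd m ∧ (δ, m) ∉ b := by
  by_cases hfin : {m | (δ, m) ∈ b}.Finite
  · have h1 : ∀ᶠ m in atTop, m ∉ {m | (δ, m) ∈ b} := by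
      rw [← Nat.cofinite_eq_atTop]
      exact hfin.eventually_cofinite_notMem
    exact frequently_odd.and_eventually h1
  · have hinf : {m | (δ, m) ∈ b}.Infinite := hfin
    obtain ⟨m0, hm0⟩ := hinf.nonempty
    obtain ⟨ε, hε, htop, _, hεf⟩ := hb.top S.nrm ⟨_, hm0⟩
    have hδε : δ < ε := lt_of_le_of_ne (htop _ hm0) (fun h => hfin (h ▸ hεf))
    have h1 : ∀ᶠ m in atTop, m ∉ {m | (ε, m) ∈ b} := by
      rw [← Nat.cofinite_eq_atTop]
      exact hεf.eventually_cofinite_notMem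
    obtain ⟨m, h2, h3⟩ := (h1.and (S.resp hb hε)).exists
    refine (S.full (Cp.of_K (x := (ε, m)) hε) (S.nrm.mem_K _) hδε).mono ?_
    rintro m' ⟨h4, h5⟩
    refine ⟨h4, ?_⟩
    rw [h3 _ h5]
    exact h2

/-- Compactness, as an induction principle. -/
theorem Sys.compact (S : Sys r I) {P : Set (Ω × ℕ) → Prop} (h0 : P ∅)
    (hU : ∀ b c, P b → P c → P (b ∪ c)) (hmono : ∀ b c, b ⊆ c → P c → P b)
    {b : Set (Ω × ℕ)} (hb : Cp r I b) (hc : ∀ y ∈ b, ∃ c, Cp r I c ∧ y ∈ c ∧ P c) : P b := by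
  have key : ∀ δ : Ω, ∀ b, Cp r I b → (∀ y ∈ b, y.1 ≤ δ) →
      (∀ y ∈ b, ∃ c, Cp r I c ∧ y ∈ c ∧ P c) → P b := by
    intro δ
    induction δ using WellFoundedLT.induction with
    | ind δ ih =>
      intro b hb hle hc
      rcases b.eq_empty_or_nonempty with rfl | hne
      · exact h0
      obtain ⟨ε, hε, htop, _, hεf⟩ := hb.top S.nrm hne
      have hc' : ∀ m : ℕ, ∃ c, Cp r I c ∧ P c ∧ ((ε, m) ∈ b → (ε, m) ∈ c) := by
        intro m
        by_cases hm : (ε, m) ∈ b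
        · obtain ⟨c, h1, h2, h3⟩ := hc _ hm
          exact ⟨c, h1, h3, fun _ => h2⟩
        · exact ⟨∅, .empty, h0, fun h => absurd h hm⟩
      choose g hg1 hg2 hg3 using hc'
      have hPU : P (⋃ m ∈ {m | (ε, m) ∈ b}, g m) := by
        have : ∀ s : Set ℕ, s.Finite → P (⋃ m ∈ s, g m) := by
          intro s hs
          induction s, hs using Set.Finite.induction_on with
          | empty => rw [biUnion_empty]; exact h0
          | @insert a s _ _ ih => rw [biUnion_insert]; exact hU _ _ (hg2 a) ih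
        exact this _ hεf
      have hCU : Cp r I (⋃ m ∈ {m | (ε, m) ∈ b}, g m) := S.biUnion hεf fun m _ => hg1 m
      have hdiff : P (b \ ⋃ m ∈ {m | (ε, m) ∈ b}, g m) := by
        rcases (b \ ⋃ m ∈ {m | (ε, m) ∈ b}, g m).eq_empty_or_nonempty with he | hne'
        · rw [he]; exact h0
        have hCd := S.diff hb hCU
        obtain ⟨η, _, htop', ⟨m, hm⟩, _⟩ := hCd.top S.nrm hne'
        have hlt : η < ε := by
          refine lt_of_le_of_ne (htop _ hm.1) ?_
          rintro rfl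
          apply hm.2
          simp only [mem_iUnion, mem_setOf_eq, exists_prop]
          exact ⟨m, hm.1, hg3 m hm.1⟩
        refine ih η (lt_of_lt_of_le hlt ?_) _ hCd htop' (fun y hy => hc y hy.1)
        obtain ⟨δ', hδ'⟩ : ∃ m, (ε, m) ∈ b := by assumption
        exact hle _ hδ'
      refine hmono _ _ ?_ (hU _ _ hdiff hPU)
      intro y hy
      by_cases h : y ∈ ⋃ m ∈ {m | (ε, m) ∈ b}, g m
      · exact Or.inr h
      · exact Or.inl ⟨hy, h⟩
  rcases b.eq_empty_or_nonempty with rfl | hne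
  · exact h0
  obtain ⟨ε, _, htop, _, _⟩ := hb.top S.nrm hne
  exact key ε b hb htop hc

end H85
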