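import Mathlib
import Pool.Agent.H85.Space

set_option autoImplicit false

namespace H85

open Set Filter

variable {Ω : Type} [LinearOrder Ω] [WellFoundedLT Ω]
variable {r : Ω → Ω × ℕ → ℕ} {α : Ω}

/-- unbounded guess -/
def Unb (α : Ω) (G : Set ((Ω × ℕ) × Option (Ω × ℕ))) : Prop :=
  ∀ γ < α, ∃ p ∈ G, p.2 ≠ some p.1 ∧ γ < p.1.1

/-- the guess lives below `α` -/
def Low (α : Ω) (G : Set ((Ω × ℕ) × Option (Ω × ℕ))) : Prop :=
  ∀ p ∈ G, p.1.1 < α ∧ ∀ z ∈ p.2, z.1 < α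

structure Cells (r : Ω → Ω × ℕ → ℕ) (α : Ω) (G : Set ((Ω × ℕ) × Option (Ω × ℕ)))
    (cell : Ω × ℕ → ℕ × ℕ) : Prop where
  fin : ∀ b, Cp r (Iio α) b → (cell '' b).Finite
  cut : ∀ b, Cp r (Iio α) b → ∀ c, Cp r (Iio α) (b ∩ cell ⁻¹' {c})
  const : ∀ δ < α, ∀ᶠ m in atTop, ∀ y ∈ K r (δ, m), cell y = cell (δ, m)
  even : ∀ δ < α, ∀ᶠ m in atTop, Even m → (cell (δ, m)).2 = 0
  evfin : ∀ δ < α, ∀ i, ∀ᶠ m in atTop, Even m → (cell (δ, m)).1 ≠ i
  odd : ∀ δ < α, ∀ s : Finset (ℕ × ℕ), ∃ m, Odd m ∧ cell (δ, m) ∉ s ∧ (cell (δ, m)).2 ≠ 0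
  gs : Unb α G → ∀ s : Finset (ℕ × ℕ), ∃ p ∈ G, cell p.1 ∉ s ∧ (cell p.1).2 ≠ 0 ∧
    ∀ z ∈ p.2, cell z ≠ cell p.1
  cov : ∀ i, ∃ b, Cp r (Iio α) b ∧ ∀ x : Ω × ℕ, x.1 < α → (cell x).1 ≤ i → x ∈ b

theorem mem_K_iff_of {γ : Ω} {m m' : ℕ} {y : Ω × ℕ} (hy : y ∈ K r (γ, m)) :
    y ∈ K r (γ, m') ↔ m = m' := by
  constructor
  · intro h; exact hy.2.symm.trans h.2
  · rintro rfl; exact hy

/-- One step of the construction of the exhausting sequence. -/
theorem hstep (S : Sys r (Iio α)) {H b : Set (Ω × ℕ)} (hH : Cp r (Iio α) H)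
    (hb : Cp r (Iio α) b) {γ γ' : Ω} (hγ : γ < α) (hγ' : γ' < α) (D : Finset Ω)
    (hD : ∀ δ ∈ D, δ < α) {G : Set ((Ω × ℕ) × Option (Ω × ℕ))} (hG : Low α G) :
    ∃ H' W, Cp r (Iio α) H' ∧ Cp r (Iio α) W ∧ H ⊆ H' ∧ b ⊆ H' ∧ W ⊆ H' ∧
      (∀ y ∈ W, y ∉ H) ∧ (∀ y ∈ W, y ∉ Z r γ) ∧
      (∀ m, ∀ y ∈ K r (γ, m), (y ∈ W ↔ (γ, m) ∈ W)) ∧
      (∀ m, ∀ y ∈ K r (γ, m), (y ∈ H' ↔ (γ, m) ∈ H')) ∧
      (∀ δ ∈ D, δ < γ' → ∀ m, ((∃ y ∈ K r (δ, m), r γ' y ≠ r γ' (δ, m)) ∨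
        (Even m ∧ ¬ Even (r γ' (δ, m)))) → K r (δ, m) ⊆ H') ∧
      (∃ k, Odd k ∧ K r (γ, k) ⊆ H' ∧ ∀ y ∈ K r (γ, k), y ∉ H) ∧
      (Unb α G → ∃ p ∈ G, p.1 ∈ W ∧ ∀ z ∈ p.2, z ∉ W) := by
  classical
  -- the set W
  have hW : ∃ W, Cp r (Iio α) W ∧ (∀ y ∈ W, y ∉ H) ∧ (∀ y ∈ W, y ∉ Z r γ) ∧
      (∀ m, ∀ y ∈ K r (γ, m), (y ∈ W ↔ (γ, m) ∈ W)) ∧
      (Unb α G → ∃ p ∈ G, p.1 ∈ W ∧ ∀ z ∈ p.2, z ∉ W) := by
    by_cases hu : Unb α G
    swap
    · exact ⟨∅, .empty, by simp, by simp, by simp, fun h => absurd h hu⟩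
    obtain ⟨γ0, hγ0, hγγ0, hHγ0⟩ : ∃ γ0 < α, γ ≤ γ0 ∧ ∀ y ∈ H, y.1 ≤ γ0 := by
      rcases H.eq_empty_or_nonempty with rfl | hne
      · exact ⟨γ, hγ, le_rfl, by simp⟩
      · obtain ⟨ε, hε, htop, _⟩ := hH.top S.nrm hne
        exact ⟨max γ ε, max_lt hγ hε, le_max_left _ _, fun y hy => (htop y hy).trans (le_max_right _ _)⟩
    obtain ⟨⟨x, w⟩, hp, hpne, hpγ⟩ := hu γ0 hγ0
    have hlow := hG _ hp
    simp only at hpne hpγ hlow
    have hxH : x ∉ H := fun h => absurd (hHγ0 x h) (not_le.2 hpγ)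
    have hxγ : γ < x.1 := lt_of_le_of_lt hγγ0 hpγ
    obtain ⟨V, hV, hxV, hzV⟩ : ∃ V, Cp r (Iio α) V ∧ x ∈ V ∧ ∀ z ∈ w, z ∉ V := by
      cases w with
      | none => exact ⟨K r x, Cp.of_K hlow.1, S.nrm.mem_K x, by simp⟩
      | some z =>
        have hz : z.1 < α := hlow.2 z rfl
        by_cases hzx : z.1 < x.1
        · refine ⟨K r x \ K r z, S.diff (Cp.of_K hlow.1) (Cp.of_K hz),
            ⟨S.nrm.mem_K x, fun h => absurd h.1 (not_le.2 hzx)⟩, ?_⟩
          intro z' hz' h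
          have : z = z' := by simpa using hz'
          subst this
          exact h.2 (S.nrm.mem_K z)
        · refine ⟨K r x, Cp.of_K hlow.1, S.nrm.mem_K x, ?_⟩
          intro z' hz' h
          have : z = z' := by simpa using hz'
          subst this
          have h1 := S.nrm.eq_of_mem h (le_antisymm h.1 (not_lt.1 hzx))
          exact hpne (by rw [h1])
    have hV1 : Cp r (Iio α) (V \ H) := S.diff hV hH
    have hE : {m | ¬ ∀ y ∈ K r (γ, m), (y ∈ V \ H ↔ (γ, m) ∈ V \ H)}.Finite := by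
      apply finite_of_eventually
      filter_upwards [S.resp hV1 hγ] with m hm
      exact not_not.2 hm
    set E := {m | ¬ ∀ y ∈ K r (γ, m), (y ∈ V \ H ↔ (γ, m) ∈ V \ H)} with hEdef
    have hCE : Cp r (Iio α) (⋃ m ∈ E, K r (γ, m)) := S.biUnion hE fun m _ => Cp.of_K hγ
    refine ⟨((V \ H) \ ((V \ H) ∩ Z r γ)) \ ⋃ m ∈ E, K r (γ, m),
      S.diff (S.diff hV1 (S.cutZ hV1 hγ)) hCE, fun y hy => hy.1.1.2,
      fun y hy h => hy.1.2 ⟨hy.1.1, h⟩, ?_, fun _ => ⟨(x, w), hp, ?_, ?_⟩⟩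
    · intro m y hy
      have hZ : y ∈ Z r γ ↔ (γ, m) ∈ Z r γ := by
        have h1 := hy.2
        have h2 : r γ (γ, m) = m := S.nrm γ m
        simp only at h1
        constructor
        · rintro ⟨_, h⟩; exact ⟨le_rfl, by rw [h2, ← h1]; exact h⟩
        · rintro ⟨_, h⟩; exact ⟨hy.1, by rw [h1, ← h2]; exact h⟩
      have hU : ∀ y' ∈ K r (γ, m), (y' ∈ ⋃ m ∈ E, K r (γ, m)) ↔ m ∈ E := by
        intro y' hy'
        simp only [mem_iUnion, exists_prop]
        constructor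
        · rintro ⟨m', hm', h⟩
          rwa [(mem_K_iff_of hy').1 h]
        · intro h; exact ⟨m, h, hy'⟩
      by_cases hm : m ∈ E
      · constructor
        · intro h; exact absurd ((hU y hy).2 hm) h.2
        · intro h; exact absurd ((hU _ (S.nrm.mem_K (γ, m))).2 hm) h.2
      · have hm' : ∀ y ∈ K r (γ, m), (y ∈ V \ H ↔ (γ, m) ∈ V \ H) := by
          by_contra h; exact hm h
        have h1 := hm' y hy
        have h2 := hU y hy
        have h3 := hU _ (S.nrm.mem_K (γ, m))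
        constructor
        · rintro ⟨⟨h4, h5⟩, h6⟩
          exact ⟨⟨h1.1 h4, fun h => h5 ⟨h4, hZ.2 h.2⟩⟩, fun h => hm (h3.1 h)⟩
        · rintro ⟨⟨h4, h5⟩, h6⟩
          exact ⟨⟨h1.2 h4, fun h => h5 ⟨h4, hZ.1 h.2⟩⟩, fun h => hm (h2.1 h)⟩
    · refine ⟨⟨⟨hxV, hxH⟩, fun h => absurd h.2.1 (not_le.2 hxγ)⟩, ?_⟩
      simp only [mem_iUnion, exists_prop, not_exists, not_and]
      intro m _ h
      exact absurd h.1 (not_le.2 hxγ)
    · intro z hz h
      exact hzV z hz h.1.1.1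
  obtain ⟨W, hWC, hWH, hWZ, hWr, hWG⟩ := hW
  obtain ⟨k, ⟨hk1, hk2⟩, hk3⟩ := ((S.full' hH hγ).and_eventually (S.resp hH hγ)).exists
  -- the exceptional pieces
  let F : Ω → Set ℕ := fun δ => {m | δ < γ' ∧ ((∃ y ∈ K r (δ, m), r γ' y ≠ r γ' (δ, m)) ∨
        (Even m ∧ ¬ Even (r γ' (δ, m))))}
  have hF : ∀ δ, (F δ).Finite := by
    intro δ
    by_cases hδ : δ < γ'
    · apply finite_of_eventually
      filter_upwards [(S.lev γ' hγ').const δ hδ, (S.lev γ' hγ').even δ hδ] with m h1 h2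
      rintro ⟨_, ⟨y, hy, h3⟩ | ⟨h3, h4⟩⟩
      · exact h3 (h1 y hy)
      · exact h4 (h2 h3)
    · have : F δ = ∅ := by
        rw [Set.eq_empty_iff_forall_notMem]
        rintro m ⟨h, _⟩
        exact hδ h
      rw [this]; exact finite_empty
  have hCF : Cp r (Iio α) (⋃ δ ∈ (D : Set Ω), ⋃ m ∈ F δ, K r (δ, m)) :=
    S.biUnion D.finite_toSet fun δ hδ => S.biUnion (hF δ) fun m _ => Cp.of_K (hD δ hδ)
  let H0 := ((H ∪ b) ∪ (W ∪ K r (γ, k))) ∪ ⋃ δ ∈ (D : Set Ω), ⋃ m ∈ F δ, K r (δ, m)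
  have hH0 : Cp r (Iio α) H0 :=
    S.union (S.union (S.union hH hb) (S.union hWC (Cp.of_K hγ))) hCF
  have hE : {m | ¬ ∀ y ∈ K r (γ, m), (y ∈ H0 ↔ (γ, m) ∈ H0)}.Finite := by
    apply finite_of_eventually
    filter_upwards [S.resp hH0 hγ] with m hm
    exact not_not.2 hm
  set E := {m | ¬ ∀ y ∈ K r (γ, m), (y ∈ H0 ↔ (γ, m) ∈ H0)} with hEdef
  have hCE : Cp r (Iio α) (⋃ m ∈ E, K r (γ, m)) := S.biUnion hE fun m _ => Cp.of_K hγ
  refine ⟨H0 ∪ ⋃ m ∈ E, K r (γ, m), W, S.union hH0 hCE, hWC, ?_, ?_, ?_, hWH, hWZ, hWr, ?_, ?_,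
    ⟨k, hk1, ?_, ?_⟩, hWG⟩
  · intro y hy; exact Or.inl (Or.inl (Or.inl (Or.inl hy)))
  · intro y hy; exact Or.inl (Or.inl (Or.inl (Or.inr hy)))
  · intro y hy; exact Or.inl (Or.inl (Or.inr (Or.inl hy)))
  · intro m y hy
    have hU : ∀ y' ∈ K r (γ, m), (y' ∈ ⋃ m ∈ E, K r (γ, m)) ↔ m ∈ E := by
      intro y' hy'
      simp only [mem_iUnion, exists_prop]
      constructor
      · rintro ⟨m', hm', h⟩
        rwa [(mem_K_iff_of hy').1 h]
      · intro h; exact ⟨m, h, hy'⟩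
    by_cases hm : m ∈ E
    · exact ⟨fun _ => Or.inr ((hU _ (S.nrm.mem_K (γ, m))).2 hm), fun _ => Or.inr ((hU y hy).2 hm)⟩
    · have hm' : ∀ y ∈ K r (γ, m), (y ∈ H0 ↔ (γ, m) ∈ H0) := by
        by_contra h; exact hm h
      constructor
      · rintro (h | h)
        · exact Or.inl ((hm' y hy).1 h)
        · exact absurd ((hU y hy).1 h) hm
      · rintro (h | h)
        · exact Or.inl ((hm' y hy).2 h)
        · exact absurd ((hU _ (S.nrm.mem_K (γ, m))).1 h) hm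
  · intro δ hδ hδγ m hm y hy
    left; right
    simp only [mem_iUnion, exists_prop]
    exact ⟨δ, hδ, m, ⟨hδγ, hm⟩, hy⟩
  · intro y hy; exact Or.inl (Or.inl (Or.inr (Or.inr hy)))
  · intro y hy h
    exact hk2 ((hk3 y hy).1 h)

structure HSeq (r : Ω → Ω × ℕ → ℕ) (α : Ω) (G : Set ((Ω × ℕ) × Option (Ω × ℕ)))
    (δ γ : ℕ → Ω) (H W : ℕ → Set (Ω × ℕ)) : Prop where
  H0 : H 0 = ∅
  HC : ∀ i, Cp r (Iio α) (H i)
  WC : ∀ i, Cp r (Iio α) (W i)
  mono : ∀ i, H i ⊆ H (i + 1)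
  cov : ∀ b, Cp r (Iio α) b → ∃ i, b ⊆ H i
  WH : ∀ i, W i ⊆ H (i + 1)
  WnH : ∀ i, ∀ y ∈ W i, y ∉ H i
  WnZ : ∀ i, ∀ y ∈ W i, y ∉ Z r (γ i)
  Wr : ∀ i m, ∀ y ∈ K r (γ i, m), (y ∈ W i ↔ (γ i, m) ∈ W i)
  Hr : ∀ i m, ∀ y ∈ K r (γ i, m), (y ∈ H (i + 1) ↔ (γ i, m) ∈ H (i + 1))
  nc : ∀ i, ∀ j ≤ i, δ j < γ (i + 1) → ∀ m,
    ((∃ y ∈ K r (δ j, m), r (γ (i + 1)) y ≠ r (γ (i + 1)) (δ j, m)) ∨
        (Even m ∧ ¬ Even (r (γ (i + 1)) (δ j, m)))) → K r (δ j, m) ⊆ H (i + 1)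
  fr : ∀ i, ∃ k, Odd k ∧ K r (γ i, k) ⊆ H (i + 1) ∧ ∀ y ∈ K r (γ i, k), y ∉ H i
  gs : Unb α G → ∀ i, ∃ p ∈ G, p.1 ∈ W i ∧ ∀ z ∈ p.2, z ∉ W i
  dg : ∀ i, ∀ j ≤ i, δ j ≤ γ i
  glt : ∀ i, γ i < α
  dr : ∀ ε < α, ∃ j, δ j = ε

theorem exists_HSeq (S : Sys r (Iio α)) (hc : (Iio α).Countable) (hne : (Iio α).Nonempty)
    {G : Set ((Ω × ℕ) × Option (Ω × ℕ))} (hG : Low α G) :
    ∃ δ γ H W, HSeq r α G δ γ H W := by
  classical
  obtain ⟨δ, hδ⟩ := hc.exists_eq_range hne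
  have hδα : ∀ j, δ j < α := fun j => by
    have : δ j ∈ Iio α := by rw [hδ]; exact mem_range_self j
    exact this
  obtain ⟨b, hb⟩ := (countable_Cp (r := r) hc).exists_eq_range ⟨∅, .empty⟩
  have hbC : ∀ i, Cp r (Iio α) (b i) := fun i => by
    have : b i ∈ {b | Cp r (Iio α) b} := by rw [hb]; exact mem_range_self i
    exact this
  let γ : ℕ → Ω := fun i => (Finset.range (i + 1)).sup' ⟨0, by simp⟩ δ
  have hdg : ∀ i, ∀ j ≤ i, δ j ≤ γ i := fun i j hj =>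
    Finset.le_sup' δ (Finset.mem_range.2 (by omega))
  have hglt : ∀ i, γ i < α := fun i => (Finset.sup'_lt_iff _).2 fun j _ => hδα j
  have step : ∀ (i : ℕ) (H : {H // Cp r (Iio α) H}), ∃ (H' : {H // Cp r (Iio α) H})
      (W : Set (Ω × ℕ)), Cp r (Iio α) W ∧ H.1 ⊆ H'.1 ∧ b i ⊆ H'.1 ∧ W ⊆ H'.1 ∧
      (∀ y ∈ W, y ∉ H.1) ∧ (∀ y ∈ W, y ∉ Z r (γ i)) ∧
      (∀ m, ∀ y ∈ K r (γ i, m), (y ∈ W ↔ (γ i, m) ∈ W)) ∧
      (∀ m, ∀ y ∈ K r (γ i, m), (y ∈ H'.1 ↔ (γ i, m) ∈ H'.1)) ∧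
      (∀ ε ∈ (Finset.range (i + 1)).image δ, ε < γ (i + 1) → ∀ m,
        ((∃ y ∈ K r (ε, m), r (γ (i + 1)) y ≠ r (γ (i + 1)) (ε, m)) ∨
        (Even m ∧ ¬ Even (r (γ (i + 1)) (ε, m)))) → K r (ε, m) ⊆ H'.1) ∧
      (∃ k, Odd k ∧ K r (γ i, k) ⊆ H'.1 ∧ ∀ y ∈ K r (γ i, k), y ∉ H.1) ∧
      (Unb α G → ∃ p ∈ G, p.1 ∈ W ∧ ∀ z ∈ p.2, z ∉ W) := by
    intro i H
    obtain ⟨H', W, h1, h2⟩ := hstep S H.2 (hbC i) (hglt i) (hglt (i + 1))
      ((Finset.range (i + 1)).image δ) (by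
        intro ε hε
        obtain ⟨j, _, rfl⟩ := Finset.mem_image.1 hε
        exact hδα j) hG
    exact ⟨⟨H', h1⟩, W, h2⟩
  choose nx Wf hs using step
  let Hs : ℕ → {H // Cp r (Iio α) H} := fun n => Nat.rec ⟨∅, .empty⟩ (fun i H => nx i H) n
  have hHs : ∀ i, Hs (i + 1) = nx i (Hs i) := fun i => rfl
  refine ⟨δ, γ, fun i => (Hs i).1, fun i => Wf i (Hs i), ?_⟩
  constructor
  · rfl
  · exact fun i => (Hs i).2
  · exact fun i => (hs i (Hs i)).1
  · exact fun i => (hs i (Hs i)).2.1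
  · intro c hc'
    have : c ∈ range b := by rw [← hb]; exact hc'
    obtain ⟨i, rfl⟩ := this
    exact ⟨i + 1, (hs i (Hs i)).2.2.1⟩
  · exact fun i => (hs i (Hs i)).2.2.2.1
  · exact fun i => (hs i (Hs i)).2.2.2.2.1
  · exact fun i => (hs i (Hs i)).2.2.2.2.2.1
  · exact fun i => (hs i (Hs i)).2.2.2.2.2.2.1
  · exact fun i => (hs i (Hs i)).2.2.2.2.2.2.2.1
  · intro i j hj
    exact (hs i (Hs i)).2.2.2.2.2.2.2.2.1 (δ j)
      (Finset.mem_image.2 ⟨j, Finset.mem_range.2 (by omega), rfl⟩)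
  · exact fun i => (hs i (Hs i)).2.2.2.2.2.2.2.2.2.1
  · exact fun h i => (hs i (Hs i)).2.2.2.2.2.2.2.2.2.2 h
  · exact hdg
  · exact hglt
  · intro ε hε
    have : ε ∈ range δ := by rw [← hδ]; exact hε
    exact this

section
variable {G : Set ((Ω × ℕ) × Option (Ω × ℕ))} {δ γ : ℕ → Ω} {H W : ℕ → Set (Ω × ℕ)}

theorem HSeq.mono_le (h : HSeq r α G δ γ H W) {i j : ℕ} (hij : i ≤ j) : H i ⊆ H j := by
  induction j, hij using Nat.le_induction with
  | base => exact subset_rfl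
  | succ j _ ih => exact ih.trans (h.mono j)

open Classical in
/-- rank of a point -/
noncomputable def rk (H : ℕ → Set (Ω × ℕ)) (x : Ω × ℕ) : ℕ :=
  if h : ∃ i, x ∈ H (i + 1) then Nat.find h else 0

open Classical in
/-- type of a point -/
noncomputable def tpf (r : Ω → Ω × ℕ → ℕ) (γ : ℕ → Ω) (W : ℕ → Set (Ω × ℕ)) (i : ℕ)
    (x : Ω × ℕ) : ℕ :=
  if x ∈ Z r (γ i) then 0 else if x ∈ W i then 1 else 2

theorem HSeq.rk_spec (h : HSeq r α G δ γ H W) {x : Ω × ℕ} (hx : x.1 < α) (hN : Nrm r) :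
    x ∈ H (rk H x + 1) ∧ x ∉ H (rk H x) := by
  classical
  have hex : ∃ i, x ∈ H (i + 1) := by
    obtain ⟨i, hi⟩ := h.cov (K r x) (Cp.of_K hx)
    exact ⟨i, h.mono i (hi (hN.mem_K x))⟩
  unfold rk
  rw [dif_pos hex]
  refine ⟨Nat.find_spec hex, ?_⟩
  rcases Nat.eq_zero_or_pos (Nat.find hex) with h0 | h0
  · rw [h0, h.H0]; simp
  · obtain ⟨n, hn⟩ : ∃ n, Nat.find hex = n + 1 := ⟨Nat.find hex - 1, by omega⟩
    rw [hn]
    exact Nat.find_min hex (by omega)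

theorem HSeq.rk_eq (h : HSeq r α G δ γ H W) {x : Ω × ℕ} {i : ℕ} (h1 : x ∈ H (i + 1))
    (h2 : x ∉ H i) : rk H x = i := by
  classical
  have hex : ∃ i, x ∈ H (i + 1) := ⟨i, h1⟩
  unfold rk
  rw [dif_pos hex]
  apply le_antisymm (Nat.find_min' hex h1)
  by_contra hlt
  push Not at hlt
  exact h2 (h.mono_le (show Nat.find hex + 1 ≤ i by omega) (Nat.find_spec hex))

/-- the cell function -/
noncomputable def cellf (r : Ω → Ω × ℕ → ℕ) (γ : ℕ → Ω) (H W : ℕ → Set (Ω × ℕ))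
    (x : Ω × ℕ) : ℕ × ℕ := (rk H x, tpf r γ W (rk H x) x)

theorem HSeq.k1 (h : HSeq r α G δ γ H W) (S : Sys r (Iio α)) :
    ∀ j, ∀ b, Cp r (Iio α) b → b ⊆ H j → (cellf r γ H W '' b).Finite ∧
      ∀ c, Cp r (Iio α) (b ∩ cellf r γ H W ⁻¹' {c}) := by
  classical
  intro j
  induction j with
  | zero =>
    intro b _ hbj
    rw [h.H0] at hbj
    have : b = ∅ := subset_empty_iff.1 hbj
    subst this
    refine ⟨by simp, fun c => ?_⟩
    rw [empty_inter]; exact .empty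
  | succ j ih =>
    intro b hb hbj
    have h1 : Cp r (Iio α) (b ∩ H j) := S.inter hb (h.HC j)
    have h2 : Cp r (Iio α) (b \ H j) := S.diff hb (h.HC j)
    obtain ⟨ih1, ih2⟩ := ih (b ∩ H j) h1 inter_subset_right
    have hrk : ∀ x ∈ b \ H j, cellf r γ H W x = (j, tpf r γ W j x) := by
      intro x hx
      have := h.rk_eq (hbj hx.1) hx.2
      unfold cellf
      rw [this]
    have hun : b = (b ∩ H j) ∪ (b \ H j) := (inter_union_diff b (H j)).symm
    constructor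
    · rw [hun, image_union]
      refine ih1.union ((Set.toFinite {(j, 0), (j, 1), (j, 2)}).subset ?_)
      rintro _ ⟨x, hx, rfl⟩
      rw [hrk x hx]
      unfold tpf
      split_ifs <;> simp
    · intro c
      have hc2 : Cp r (Iio α) ((b \ H j) ∩ cellf r γ H W ⁻¹' {c}) := by
        have hZ := S.cutZ h2 (h.glt j)
        by_cases hc0 : c = (j, 0)
        · have : (b \ H j) ∩ cellf r γ H W ⁻¹' {c} = (b \ H j) ∩ Z r (γ j) := by
            ext x
            simp only [mem_inter_iff, mem_preimage, mem_singleton_iff]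
            constructor
            · rintro ⟨hx, hx2⟩
              refine ⟨hx, ?_⟩
              rw [hrk x hx, hc0] at hx2
              by_contra hcon
              unfold tpf at hx2
              rw [if_neg hcon] at hx2
              split_ifs at hx2 <;> simp at hx2
            · rintro ⟨hx, hx2⟩
              refine ⟨hx, ?_⟩
              rw [hrk x hx, hc0]
              unfold tpf
              rw [if_pos hx2]
          rw [this]; exact hZ
        by_cases hc1 : c = (j, 1)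
        · have : (b \ H j) ∩ cellf r γ H W ⁻¹' {c} = (b \ H j) ∩ W j := by
            ext x
            simp only [mem_inter_iff, mem_preimage, mem_singleton_iff]
            constructor
            · rintro ⟨hx, hx2⟩
              refine ⟨hx, ?_⟩
              rw [hrk x hx, hc1] at hx2
              by_contra hcon
              unfold tpf at hx2
              rw [if_neg hcon] at hx2
              split_ifs at hx2 <;> simp at hx2
            · rintro ⟨hx, hx2⟩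
              refine ⟨hx, ?_⟩
              rw [hrk x hx, hc1]
              unfold tpf
              rw [if_neg (h.WnZ j x hx2), if_pos hx2]
          rw [this]; exact S.inter h2 (h.WC j)
        by_cases hc2 : c = (j, 2)
        · have : (b \ H j) ∩ cellf r γ H W ⁻¹' {c} =
              ((b \ H j) \ ((b \ H j) ∩ Z r (γ j))) \ W j := by
            ext x
            simp only [mem_inter_iff, mem_preimage, mem_singleton_iff]
            constructor
            · rintro ⟨hx, hx2⟩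
              rw [hrk x hx, hc2] at hx2
              unfold tpf at hx2
              split_ifs at hx2 with h3 h4
              · simp at hx2
              · simp at hx2
              · exact ⟨⟨hx, fun h => h3 h.2⟩, h4⟩
            · rintro ⟨⟨hx, hx1⟩, hx2⟩
              refine ⟨hx, ?_⟩
              rw [hrk x hx, hc2]
              unfold tpf
              rw [if_neg (fun h => hx1 ⟨hx, h⟩), if_neg hx2]
          rw [this]; exact S.diff (S.diff h2 hZ) (h.WC j)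
        · have : (b \ H j) ∩ cellf r γ H W ⁻¹' {c} = ∅ := by
            rw [Set.eq_empty_iff_forall_notMem]
            rintro x ⟨hx, hx2⟩
            simp only [mem_preimage, mem_singleton_iff] at hx2
            rw [hrk x hx] at hx2
            unfold tpf at hx2
            split_ifs at hx2
            · exact hc0 hx2.symm
            · exact hc1 hx2.symm
            · exact hc2 hx2.symm
          rw [this]; exact .empty
      have : b ∩ cellf r γ H W ⁻¹' {c} = ((b ∩ H j) ∩ cellf r γ H W ⁻¹' {c}) ∪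
          ((b \ H j) ∩ cellf r γ H W ⁻¹' {c}) := by
        rw [← union_inter_distrib_right, ← hun]
      rw [this]
      exact S.union (ih2 c) hc2

theorem HSeq.cells (h : HSeq r α G δ γ H W) (S : Sys r (Iio α)) :
    Cells r α G (cellf r γ H W) := by
  classical
  have hN := S.nrm
  -- constancy of `r (γ i)` on the pieces
  have rconst : ∀ j m, (∀ y ∈ K r (δ j, m), y ∉ H j) →
      (∀ y ∈ K r (δ j, m), r (γ j) y = r (γ j) (δ j, m)) →
      ∀ i, j ≤ i → (δ j, m) ∉ H i →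
        ∀ y ∈ K r (δ j, m), y ∉ H i ∧ r (γ i) y = r (γ i) (δ j, m) := by
    intro j m hb1 hb2 i hij
    induction i, hij using Nat.le_induction with
    | base => intro _ y hy; exact ⟨hb1 y hy, hb2 y hy⟩
    | succ i hij ih =>
      intro hni
      have hni' : (δ j, m) ∉ H i := fun h' => hni (h.mono i h')
      have ih' := ih hni'
      have hsub : ∀ y ∈ K r (δ j, m), y ∈ K r (γ i, r (γ i) (δ j, m)) := by
        intro y hy
        exact ⟨hy.1.trans (h.dg i j hij), (ih' y hy).2⟩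
      have hmem := hsub _ (hN.mem_K (δ j, m))
      intro y hy
      constructor
      · intro hy2
        apply hni
        rw [h.Hr i _ _ hmem]
        rw [h.Hr i _ _ (hsub y hy)] at hy2
        exact hy2
      · by_contra hcon
        rcases lt_or_eq_of_le (h.dg (i + 1) j (by omega)) with hlt | heq
        · exact hni (h.nc i j hij hlt m (Or.inl ⟨y, hy, hcon⟩) (hN.mem_K _))
        · apply hcon
          rw [← heq, hy.2, hN (δ j) m]
  have ev1 : ∀ j, ∀ᶠ m in atTop, ∀ y ∈ K r (δ j, m), r (γ j) y = r (γ j) (δ j, m) := by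
    intro j
    rcases lt_or_eq_of_le (h.dg j j le_rfl) with hlt | heq
    · exact (S.lev (γ j) (h.glt j)).const (δ j) hlt
    · refine Eventually.of_forall fun m y hy => ?_
      rw [← heq, hy.2, hN (δ j) m]
  constructor
  · intro b hb
    obtain ⟨i, hi⟩ := h.cov b hb
    exact (h.k1 S i b hb hi).1
  · intro b hb
    obtain ⟨i, hi⟩ := h.cov b hb
    exact (h.k1 S i b hb hi).2
  · intro ε hε
    obtain ⟨j, rfl⟩ := h.dr ε hε
    obtain ⟨hf1, hf2⟩ := h.k1 S j (H j) (h.HC j) subset_rfl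
    have e1 : ∀ᶠ m in atTop, ∀ c ∈ cellf r γ H W '' H j, ∀ y ∈ K r (δ j, m),
        (y ∈ H j ∩ cellf r γ H W ⁻¹' {c} ↔ (δ j, m) ∈ H j ∩ cellf r γ H W ⁻¹' {c}) := by
      rw [Filter.eventually_all_finite hf1]
      intro c _
      exact S.resp (hf2 c) hε
    filter_upwards [e1, S.resp (h.HC j) hε, ev1 j] with m h1 h2 h3 y hy
    by_cases hm : (δ j, m) ∈ H j
    · have := (h1 _ ⟨_, hm, rfl⟩ y hy).2 ⟨hm, rfl⟩
      exact this.2
    · have hspec := h.rk_spec (x := (δ j, m)) hε hN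
      set i := rk H (δ j, m) with hi
      have hji : j ≤ i := by
        by_contra hcon
        push Not at hcon
        exact hm (h.mono_le (show i + 1 ≤ j by omega) hspec.1)
      have hnot : ∀ y ∈ K r (δ j, m), y ∉ H j := fun y hy h' => hm ((h2 y hy).1 h')
      have hQ := rconst j m hnot h3 i hji hspec.2
      have hsub : ∀ y ∈ K r (δ j, m), y ∈ K r (γ i, r (γ i) (δ j, m)) := by
        intro y hy
        exact ⟨hy.1.trans (h.dg i j hji), (hQ y hy).2⟩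
      have hmem := hsub _ (hN.mem_K (δ j, m))
      have hyH : y ∈ H (i + 1) := by
        rw [h.Hr i _ _ (hsub y hy), ← h.Hr i _ _ hmem]
        exact hspec.1
      have hrky : rk H y = i := h.rk_eq hyH (hQ y hy).1
      have hZ : y ∈ Z r (γ i) ↔ (δ j, m) ∈ Z r (γ i) := by
        unfold Z
        simp only [mem_setOf_eq]
        rw [(hQ y hy).2]
        constructor
        · rintro ⟨_, h4⟩; exact ⟨h.dg i j hji, h4⟩
        · rintro ⟨_, h4⟩; exact ⟨hy.1.trans (h.dg i j hji), h4⟩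
      have hW : y ∈ W i ↔ (δ j, m) ∈ W i := by
        rw [h.Wr i _ _ (hsub y hy), ← h.Wr i _ _ hmem]
      unfold cellf
      rw [hrky, ← hi]
      unfold tpf
      simp only [hZ, hW]
  · intro ε hε
    obtain ⟨j, rfl⟩ := h.dr ε hε
    have ev2 : ∀ᶠ m in atTop, Even m → Even (r (γ j) (δ j, m)) := by
      rcases lt_or_eq_of_le (h.dg j j le_rfl) with hlt | heq
      · exact (S.lev (γ j) (h.glt j)).even (δ j) hlt
      · refine Eventually.of_forall fun m hm => ?_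
        rw [← heq, hN (δ j) m]; exact hm
    filter_upwards [S.evn (h.HC j) hε, ev2] with m h1 h2 hm
    have hspec := h.rk_spec (x := (δ j, m)) hε hN
    unfold cellf
    set i := rk H (δ j, m) with hi
    have hji : j ≤ i := by
      by_contra hcon
      push Not at hcon
      exact h1 hm (h.mono_le (show i + 1 ≤ j by omega) hspec.1)
    have hev : Even (r (γ i) (δ j, m)) := by
      rcases Nat.eq_or_lt_of_le hji with heq | hlt
      · rw [← heq]; exact h2 hm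
      · obtain ⟨i', hi'⟩ : ∃ i', i = i' + 1 := ⟨i - 1, by omega⟩
        rw [hi'] at hspec ⊢
        rcases lt_or_eq_of_le (h.dg (i' + 1) j (by omega)) with hlt' | heq'
        · by_contra hcon
          exact hspec.2 (h.nc i' j (by omega) hlt' m (Or.inr ⟨hm, hcon⟩) (hN.mem_K _))
        · rw [← heq', hN (δ j) m]; exact hm
    show tpf r γ W i (δ j, m) = 0
    unfold tpf
    rw [if_pos]
    exact ⟨h.dg i j hji, hev⟩
  · intro ε hε i
    filter_upwards [S.evn (h.HC (i + 1)) hε] with m hm he heq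
    apply hm he
    rw [← heq]
    exact (h.rk_spec (x := (ε, m)) hε hN).1
  · intro ε hε s
    obtain ⟨j, rfl⟩ := h.dr ε hε
    let i := max j (s.sup Prod.fst + 1)
    have hji : j ≤ i := le_max_left _ _
    have his : s.sup Prod.fst + 1 ≤ i := le_max_right _ _
    obtain ⟨k, hk1, hk2, hk3⟩ := h.fr i
    obtain ⟨m, hm1, hm2⟩ : ∃ m, Odd m ∧ (δ j, m) ∈ K r (γ i, k) := by
      rcases lt_or_eq_of_le (h.dg i j hji) with hlt | heq
      · exact (S.full (Cp.of_K (x := (γ i, k)) (h.glt i)) (hN.mem_K _) hlt).exists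
      · refine ⟨k, hk1, ?_⟩
        rw [heq]; exact hN.mem_K _
    have hrk : rk H (δ j, m) = i := h.rk_eq (hk2 hm2) (hk3 _ hm2)
    refine ⟨m, hm1, ?_, ?_⟩
    · intro hin
      have : (cellf r γ H W (δ j, m)).1 ≤ s.sup Prod.fst := Finset.le_sup (f := Prod.fst) hin
      unfold cellf at this
      simp only [hrk] at this
      omega
    · unfold cellf
      rw [hrk]
      show tpf r γ W i (δ j, m) ≠ 0
      unfold tpf
      rw [if_neg]
      · split_ifs <;> simp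
      · rintro ⟨_, h5⟩
        have h6 : r (γ i) (δ j, m) = k := hm2.2
        rw [h6] at h5
        exact (Nat.not_even_iff_odd.2 hk1) h5
  · intro hu s
    let i := s.sup Prod.fst + 1
    obtain ⟨p, hp, hp1, hp2⟩ := h.gs hu i
    have hrk : rk H p.1 = i := h.rk_eq (h.WH i hp1) (h.WnH i _ hp1)
    have hcell : cellf r γ H W p.1 = (i, 1) := by
      unfold cellf
      rw [hrk]
      unfold tpf
      rw [if_neg (h.WnZ i _ hp1), if_pos hp1]
    refine ⟨p, hp, ?_, ?_, ?_⟩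
    · intro hin
      have : (cellf r γ H W p.1).1 ≤ s.sup Prod.fst := Finset.le_sup (f := Prod.fst) hin
      rw [hcell] at this
      simp only [i] at this
      omega
    · rw [hcell]; simp
    · intro z hz heq
      rw [hcell] at heq
      apply hp2 z hz
      unfold cellf at heq
      rw [Prod.mk.injEq] at heq
      obtain ⟨h1, h2⟩ := heq
      rw [h1] at h2
      unfold tpf at h2
      split_ifs at h2 with h3 h4
      · exact h4
      · exact absurd h2 (by norm_num)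
  · intro i
    refine ⟨H (i + 1), h.HC (i + 1), fun x hx hle => ?_⟩
    have hspec := h.rk_spec hx hN
    exact h.mono_le (show rk H x + 1 ≤ i + 1 by
      have : rk H x ≤ i := hle
      omega) hspec.1

end

theorem exists_cells (S : Sys r (Iio α)) (hc : (Iio α).Countable) (hne : (Iio α).Nonempty)
    {G : Set ((Ω × ℕ) × Option (Ω × ℕ))} (hG : Low α G) :
    ∃ cell, Cells r α G cell := by
  obtain ⟨δ, γ, H, W, h⟩ := exists_HSeq S hc hne hG
  exact ⟨_, h.cells S⟩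

end H85
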