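import Mathlib
import Pool.Agent.H85.Cells

set_option autoImplicit false

namespace H85

open Set Filter

/-! ### Generic functions -/

theorem gen_residual {P : (ℕ × ℕ → ℕ) → Prop}
    (hP : ∀ (s : Finset (ℕ × ℕ)) (a : ℕ × ℕ → ℕ), ∃ a' : ℕ × ℕ → ℕ, (∀ c ∈ s, a' c = a c) ∧
      ∃ t : Finset (ℕ × ℕ), ∀ a'' : ℕ × ℕ → ℕ, (∀ c ∈ t, a'' c = a' c) → P a'') :
    ∀ᶠ a in residual (ℕ × ℕ → ℕ), P a := by
  have hopen : IsOpen {a : ℕ × ℕ → ℕ | ∃ t : Finset (ℕ × ℕ), ∀ a'' : ℕ × ℕ → ℕ,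
      (∀ c ∈ t, a'' c = a c) → P a''} := by
    rw [isOpen_pi_iff]
    rintro a ⟨t, ht⟩
    refine ⟨t, fun c => {a c}, fun c _ => ⟨isOpen_discrete _, rfl⟩, ?_⟩
    intro b hb
    refine ⟨t, fun a'' ha'' => ht a'' fun c hc => ?_⟩
    have h1 : b c ∈ ({a c} : Set ℕ) := hb c hc
    rw [ha'' c hc]; exact h1
  have hdense : Dense {a : ℕ × ℕ → ℕ | ∃ t : Finset (ℕ × ℕ), ∀ a'' : ℕ × ℕ → ℕ,
      (∀ c ∈ t, a'' c = a c) → P a''} := by
    rw [dense_iff_inter_open]
    rintro U hU ⟨a, ha⟩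
    obtain ⟨s, u, hu, hsub⟩ := isOpen_pi_iff.1 hU a ha
    obtain ⟨a', ha', t, ht⟩ := hP s a
    refine ⟨a', hsub ?_, t, ht⟩
    intro c hc
    rw [ha' c hc]
    exact (hu c hc).2
  filter_upwards [residual_of_dense_open hopen hdense] with a ha
  obtain ⟨t, ht⟩ := ha
  exact ht a fun c _ => rfl

variable {Ω : Type} [LinearOrder Ω] [WellFoundedLT Ω]
variable {r : Ω → Ω × ℕ → ℕ} {α : Ω}

/-- the value attached to a cell -/
def gv (a : ℕ × ℕ → ℕ) (c : ℕ × ℕ) : ℕ := if c.2 = 0 then 2 * c.1 else a c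

theorem gv_zero {a : ℕ × ℕ → ℕ} {c : ℕ × ℕ} (h : c.2 = 0) : gv a c = 2 * c.1 := if_pos h

theorem gv_free {a : ℕ × ℕ → ℕ} {c : ℕ × ℕ} (h : c.2 ≠ 0) : gv a c = a c := if_neg h

abbrev Gs (Ω : Type) := Set ((Ω × ℕ) × Option (Ω × ℕ))

def A1 (r : Ω → Ω × ℕ → ℕ) (α : Ω) (f : Ω × ℕ → ℕ) (G : Gs Ω) : Prop :=
  ∀ n : ℕ, ∀ b, Cp r (Iio α) b → ∃ p ∈ G, ∃ y, p.2 = some y ∧ p.1 ∉ b ∧ y ∉ b ∧ f p.1 = n ∧ f y = 0

def A2n (r : Ω → Ω × ℕ → ℕ) (α : Ω) (f : Ω × ℕ → ℕ) (G : Gs Ω) : Prop :=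
  ∀ n : ℕ, ∀ b, Cp r (Iio α) b → ∃ p ∈ G, p.1 ∉ b ∧ f p.1 = n ∧ p.2 = none

def A2s (r : Ω → Ω × ℕ → ℕ) (α : Ω) (f : Ω × ℕ → ℕ) (G : Gs Ω) : Prop :=
  ∃ z : Ω × ℕ, z.1 < α ∧ ∀ n : ℕ, ∀ b, Cp r (Iio α) b → ∀ c, Cp r (Iio α) c → z ∈ c →
    ∃ p ∈ G, p.1 ∉ b ∧ f p.1 = n ∧ ∃ y ∈ c, p.2 = some y

def A3 (r : Ω → Ω × ℕ → ℕ) (α : Ω) (f : Ω × ℕ → ℕ) (G : Gs Ω) : Prop :=
  ∀ n M : ℕ, ∀ b, Cp r (Iio α) b → ∃ p ∈ G, ∃ y, p.2 = some y ∧ p.1 ∉ b ∧ f p.1 = n ∧
    Even (f y) ∧ M ≤ f y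

def Kill (r : Ω → Ω × ℕ → ℕ) (α : Ω) (f : Ω × ℕ → ℕ) (G : Gs Ω) : Prop :=
  A1 r α f G ∨ A2n r α f G ∨ A2s r α f G ∨ A3 r α f G

def Bc (f : Ω × ℕ → ℕ) (G : Gs Ω) : Prop :=
  ∀ᶠ n in atTop, Odd n → ∀ p ∈ G, f p.1 = n → ∃ y ∈ p.2, f y = n

def Spl (cell : Ω × ℕ → ℕ × ℕ) (p : (Ω × ℕ) × Option (Ω × ℕ)) : Prop :=
  (cell p.1).2 ≠ 0 ∧ ∀ z ∈ p.2, cell z ≠ cell p.1

def Bad (r : Ω → Ω × ℕ → ℕ) (α : Ω) (cell : Ω × ℕ → ℕ × ℕ) (G : Gs Ω) : Prop :=
  ∀ b, Cp r (Iio α) b → ∃ p ∈ G, p.1 ∉ b ∧ Spl cell p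

section
variable {G : Gs Ω} {cell : Ω × ℕ → ℕ × ℕ}

theorem Cells.cov_finset (h : Cells r α G cell) (s : Finset (ℕ × ℕ)) :
    ∃ b, Cp r (Iio α) b ∧ ∀ x : Ω × ℕ, x.1 < α → cell x ∈ s → x ∈ b := by
  obtain ⟨b, hb, h1⟩ := h.cov (s.sup Prod.fst)
  exact ⟨b, hb, fun x hx hs => h1 x hx (Finset.le_sup (f := Prod.fst) hs)⟩

theorem Cells.lev (h : Cells r α G cell) (S : Sys r (Iio α)) {a : ℕ × ℕ → ℕ}
    (ha : ∀ δ < α, ∀ n, ∃ᶠ m in atTop, Odd m ∧ gv a (cell (δ, m)) = n) :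
    Lev r α (fun y => gv a (cell y)) := by
  constructor
  · intro x hx
    have h1 := (h.fin _ (Cp.of_K hx)).image (gv a)
    rwa [image_image] at h1
  · intro x hx n
    have h1 := h.fin _ (Cp.of_K (r := r) hx)
    have h2 : K r x ∩ (fun y => gv a (cell y)) ⁻¹' {n} =
        ⋃ c ∈ {c | c ∈ cell '' K r x ∧ gv a c = n}, (K r x ∩ cell ⁻¹' {c}) := by
      ext y
      simp only [mem_inter_iff, mem_preimage, mem_singleton_iff, mem_iUnion, exists_prop,
        mem_setOf_eq]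
      constructor
      · rintro ⟨h3, h4⟩
        exact ⟨cell y, ⟨⟨y, h3, rfl⟩, h4⟩, h3, rfl⟩
      · rintro ⟨c, ⟨_, h4⟩, h5, h6⟩
        exact ⟨h5, by rw [h6]; exact h4⟩
    rw [h2]
    apply S.biUnion (h1.subset fun c hc => hc.1)
    intro c _
    exact h.cut _ (Cp.of_K hx) c
  · intro δ hδ
    filter_upwards [h.const δ hδ] with m hm y hy
    show gv a (cell y) = gv a (cell (δ, m))
    rw [hm y hy]
  · intro δ hδ
    filter_upwards [h.even δ hδ] with m hm he
    show Even (gv a (cell (δ, m)))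
    rw [gv_zero (hm he)]
    exact even_two_mul _
  · intro δ hδ k
    filter_upwards [h.even δ hδ, h.evfin δ hδ (k / 2)] with m hm hm2 he
    show gv a (cell (δ, m)) ≠ k
    rw [gv_zero (hm he)]
    intro h3
    apply hm2 he
    omega
  · exact ha

theorem Cells.ev_odd (h : Cells r α G cell) {δ : Ω} (hδ : δ < α) (n : ℕ) :
    ∀ᶠ a in residual (ℕ × ℕ → ℕ), ∃ᶠ m in atTop, Odd m ∧ gv a (cell (δ, m)) = n := by
  classical
  have : ∀ M : ℕ, ∀ᶠ a in residual (ℕ × ℕ → ℕ), ∃ m ≥ M, Odd m ∧ gv a (cell (δ, m)) = n := by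
    intro M
    apply gen_residual
    intro s a
    obtain ⟨m, h1, h2, h3⟩ := h.odd δ hδ (s ∪ (Finset.range M).image fun m => cell (δ, m))
    rw [Finset.mem_union, not_or] at h2
    refine ⟨Function.update a (cell (δ, m)) n, ?_, {cell (δ, m)}, ?_⟩
    · intro c hc
      rw [Function.update_of_ne]
      rintro rfl
      exact h2.1 hc
    · intro a'' ha''
      refine ⟨m, ?_, h1, ?_⟩
      · by_contra hcon
        apply h2.2
        exact Finset.mem_image.2 ⟨m, Finset.mem_range.2 (by omega), rfl⟩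
      · rw [gv_free h3, ha'' _ (by simp), Function.update_self]
  filter_upwards [eventually_countable_forall.2 this] with a ha
  rw [frequently_atTop]
  exact ha

theorem Cells.bc (h : Cells r α G cell) {G' : Gs Ω} (hb : ¬ Bad r α cell G') (a : ℕ × ℕ → ℕ) :
    Bc (fun y => gv a (cell y)) G' := by
  unfold Bad at hb
  push Not at hb
  obtain ⟨b, hb, h1⟩ := hb
  have h2 := (h.fin b hb).image (gv a)
  have h3 : ∀ᶠ n in atTop, n ∉ gv a '' (cell '' b) := by
    rw [← Nat.cofinite_eq_atTop]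
    exact h2.eventually_cofinite_notMem
  filter_upwards [h3] with n hn hodd p hp hpn
  have hpn' : gv a (cell p.1) = n := hpn
  have h4 : (cell p.1).2 ≠ 0 := by
    intro h5
    rw [gv_zero h5] at hpn'
    rw [← hpn'] at hodd
    exact (Nat.not_even_iff_odd.2 hodd) (even_two_mul _)
  have h5 : p.1 ∉ b := fun h5 => hn ⟨_, ⟨_, h5, rfl⟩, hpn'⟩
  have h6 := h1 p hp h5
  unfold Spl at h6
  push Not at h6
  obtain ⟨z, hz, hz2⟩ := h6 h4
  refine ⟨z, hz, ?_⟩
  show gv a (cell z) = n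
  rw [hz2]; exact hpn'

theorem Cells.bad_of_unb (h : Cells r α G cell) (hu : Unb α G) : Bad r α cell G := by
  intro b hb
  obtain ⟨p, hp, h1, h2, h3⟩ := h.gs hu (h.fin b hb).toFinset
  refine ⟨p, hp, fun h4 => h1 ?_, h2, h3⟩
  rw [Set.Finite.mem_toFinset]
  exact ⟨_, h4, rfl⟩

theorem Cells.kill (h : Cells r α G cell) (S : Sys r (Iio α)) (hc : (Iio α).Countable)
    {G' : Gs Ω} (hlow : Low α G') (hbad : Bad r α cell G') :
    ∀ᶠ a in residual (ℕ × ℕ → ℕ), Kill r α (fun y => gv a (cell y)) G' := by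
  classical
  have hcb := countable_Cp (r := r) hc
  by_cases c1 : ∀ b, Cp r (Iio α) b → ∃ p ∈ G', ∃ y, p.2 = some y ∧ p.1 ∉ b ∧ y ∉ b ∧
      Spl cell p ∧ (cell y).2 ≠ 0
  · have : ∀ᶠ a in residual (ℕ × ℕ → ℕ), A1 r α (fun y => gv a (cell y)) G' := by
      refine eventually_countable_forall.2 fun n => ?_
      refine (eventually_countable_ball hcb (p := fun a b _ =>
        ∃ p ∈ G', ∃ y, p.2 = some y ∧ p.1 ∉ b ∧ y ∉ b ∧ gv a (cell p.1) = n ∧
          gv a (cell y) = 0)).2 fun b hb => ?_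
      apply gen_residual
      intro s a
      obtain ⟨e, he, hes⟩ := h.cov_finset s
      obtain ⟨p, hp, y, hy, h1, h2, h3, h4⟩ := c1 (b ∪ e) (S.union hb he)
      rw [mem_union, not_or] at h1 h2
      have hpl := hlow p hp
      have hs1 : cell p.1 ∉ s := fun h' => h1.2 (hes _ hpl.1 h')
      have hs2 : cell y ∉ s := fun h' => h2.2 (hes _ (hpl.2 y hy) h')
      have hne : cell y ≠ cell p.1 := h3.2 y hy
      refine ⟨Function.update (Function.update a (cell p.1) n) (cell y) 0, ?_,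
        {cell p.1, cell y}, ?_⟩
      · intro c hc
        rw [Function.update_of_ne, Function.update_of_ne]
        · rintro rfl; exact hs1 hc
        · rintro rfl; exact hs2 hc
      · intro a'' ha''
        refine ⟨p, hp, y, hy, h1.1, h2.1, ?_, ?_⟩
        · rw [gv_free h3.1, ha'' _ (by simp), Function.update_of_ne hne.symm,
            Function.update_self]
        · rw [gv_free h4, ha'' _ (by simp), Function.update_self]
    exact this.mono fun a ha => Or.inl ha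
  by_cases c2 : ∀ b, Cp r (Iio α) b → ∃ p ∈ G', p.2 = none ∧ p.1 ∉ b ∧ Spl cell p
  · have : ∀ᶠ a in residual (ℕ × ℕ → ℕ), A2n r α (fun y => gv a (cell y)) G' := by
      refine eventually_countable_forall.2 fun n => ?_
      refine (eventually_countable_ball hcb (p := fun a b _ =>
        ∃ p ∈ G', p.1 ∉ b ∧ gv a (cell p.1) = n ∧ p.2 = none)).2 fun b hb => ?_
      apply gen_residual
      intro s a
      obtain ⟨e, he, hes⟩ := h.cov_finset s
      obtain ⟨p, hp, hy, h1, h3⟩ := c2 (b ∪ e) (S.union hb he)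
      rw [mem_union, not_or] at h1
      have hpl := hlow p hp
      have hs1 : cell p.1 ∉ s := fun h' => h1.2 (hes _ hpl.1 h')
      refine ⟨Function.update a (cell p.1) n, ?_, {cell p.1}, ?_⟩
      · intro c hc
        rw [Function.update_of_ne]
        rintro rfl; exact hs1 hc
      · intro a'' ha''
        refine ⟨p, hp, h1.1, ?_, hy⟩
        rw [gv_free h3.1, ha'' _ (by simp), Function.update_self]
    exact this.mono fun a ha => Or.inr (Or.inl ha)
  by_cases c3 : ∀ b, Cp r (Iio α) b → ∃ p ∈ G', ∃ y, p.2 = some y ∧ p.1 ∉ b ∧ y ∉ b ∧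
      Spl cell p ∧ (cell y).2 = 0
  · have : ∀ᶠ a in residual (ℕ × ℕ → ℕ), A3 r α (fun y => gv a (cell y)) G' := by
      refine eventually_countable_forall.2 fun n => ?_
      refine eventually_countable_forall.2 fun M => ?_
      refine (eventually_countable_ball hcb (p := fun a b _ =>
        ∃ p ∈ G', ∃ y, p.2 = some y ∧ p.1 ∉ b ∧ gv a (cell p.1) = n ∧
          Even (gv a (cell y)) ∧ M ≤ gv a (cell y))).2 fun b hb => ?_
      apply gen_residual
      intro s a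
      obtain ⟨e, he, hes⟩ := h.cov_finset s
      obtain ⟨e', he', hes'⟩ := h.cov M
      obtain ⟨p, hp, y, hy, h1, h2, h3, h4⟩ := c3 ((b ∪ e) ∪ e') (S.union (S.union hb he) he')
      rw [mem_union, not_or, mem_union, not_or] at h1 h2
      have hpl := hlow p hp
      have hs1 : cell p.1 ∉ s := fun h' => h1.1.2 (hes _ hpl.1 h')
      have hs2 : M < (cell y).1 := by
        by_contra hcon
        exact h2.2 (hes' y (hpl.2 y hy) (not_lt.1 hcon))
      refine ⟨Function.update a (cell p.1) n, ?_, {cell p.1}, ?_⟩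
      · intro c hc
        rw [Function.update_of_ne]
        rintro rfl; exact hs1 hc
      · intro a'' ha''
        refine ⟨p, hp, y, hy, h1.1.1, ?_, ?_, ?_⟩
        · rw [gv_free h3.1, ha'' _ (by simp), Function.update_self]
        · rw [gv_zero h4]; exact even_two_mul _
        · rw [gv_zero h4]; omega
    exact this.mono fun a ha => Or.inr (Or.inr (Or.inr ha))
  push Not at c1 c2 c3
  obtain ⟨b1, hb1, c1⟩ := c1
  obtain ⟨b2, hb2, c2⟩ := c2
  obtain ⟨b3, hb3, c3⟩ := c3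
  have hloc : ∀ p ∈ G', Spl cell p → p.1 ∉ (b1 ∪ b2) ∪ b3 → ∃ y ∈ b1 ∪ b3, p.2 = some y := by
    intro p hp hs hpb
    rw [mem_union, not_or, mem_union, not_or] at hpb
    rcases hp2 : p.2 with _ | y
    · exact absurd hs (c2 p hp hp2 hpb.1.2)
    · refine ⟨y, ?_, rfl⟩
      by_contra hcon
      rw [mem_union, not_or] at hcon
      by_cases hy : (cell y).2 = 0
      · exact c3 p hp y hp2 hpb.2 hcon.2 hs hy
      · exact hy (c1 p hp y hp2 hpb.1.1 hcon.1 hs)
  have hz : ∃ z : Ω × ℕ, z.1 < α ∧ ∀ b, Cp r (Iio α) b → ∀ c, Cp r (Iio α) c → z ∈ c →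
      ∃ p ∈ G', Spl cell p ∧ p.1 ∉ b ∧ ∃ y ∈ c, p.2 = some y := by
    by_contra hcon
    push Not at hcon
    have hC13 := S.union hb1 hb3
    have hP : ∃ b, Cp r (Iio α) b ∧ ∀ p ∈ G', Spl cell p → p.1 ∉ b →
        ∀ y ∈ b1 ∪ b3, p.2 ≠ some y := by
      refine S.compact (P := fun e => ∃ b, Cp r (Iio α) b ∧ ∀ p ∈ G', Spl cell p → p.1 ∉ b →
        ∀ y ∈ e, p.2 ≠ some y) ?_ ?_ ?_ hC13 ?_
      · exact ⟨∅, .empty, fun p _ _ _ y hy => absurd hy (notMem_empty y)⟩
      · rintro e e' ⟨b, hb, h1⟩ ⟨b', hb', h2⟩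
        refine ⟨b ∪ b', S.union hb hb', ?_⟩
        intro p hp hs hpb y hy
        rw [mem_union, not_or] at hpb
        rcases hy with hy | hy
        · exact h1 p hp hs hpb.1 y hy
        · exact h2 p hp hs hpb.2 y hy
      · rintro e e' hee ⟨b, hb, h1⟩
        exact ⟨b, hb, fun p hp hs hpb y hy => h1 p hp hs hpb y (hee hy)⟩
      · intro z hz
        have hzα : z.1 < α := hC13.fst_mem S.nrm S.low hz
        obtain ⟨b, hb, c, hc', hzc, h1⟩ := hcon z hzα
        exact ⟨c, hc', hzc, b, hb, h1⟩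
    obtain ⟨b, hb, h1⟩ := hP
    obtain ⟨p, hp, h2, h3⟩ := hbad (b ∪ ((b1 ∪ b2) ∪ b3))
      (S.union hb (S.union (S.union hb1 hb2) hb3))
    rw [mem_union, not_or] at h2
    obtain ⟨y, hy, hpy⟩ := hloc p hp h3 h2.2
    exact h1 p hp h3 h2.1 y hy hpy
  obtain ⟨z, hzα, hz⟩ := hz
  have : ∀ᶠ a in residual (ℕ × ℕ → ℕ), A2s r α (fun y => gv a (cell y)) G' := by
    have : ∀ᶠ a in residual (ℕ × ℕ → ℕ), ∀ n : ℕ, ∀ b ∈ {b | Cp r (Iio α) b},
        ∀ c ∈ {b | Cp r (Iio α) b}, z ∈ c →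
        ∃ p ∈ G', p.1 ∉ b ∧ gv a (cell p.1) = n ∧ ∃ y ∈ c, p.2 = some y := by
      refine eventually_countable_forall.2 fun n => ?_
      refine (eventually_countable_ball hcb).2 fun b hb => ?_
      refine (eventually_countable_ball hcb).2 fun c hc' => ?_
      by_cases hzc : z ∈ c
      swap
      · exact Eventually.of_forall fun a h' => absurd h' hzc
      apply gen_residual
      intro s a
      obtain ⟨e, he, hes⟩ := h.cov_finset s
      obtain ⟨p, hp, h3, h1, hy⟩ := hz (b ∪ e) (S.union hb he) c hc' hzc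
      rw [mem_union, not_or] at h1
      have hpl := hlow p hp
      have hs1 : cell p.1 ∉ s := fun h' => h1.2 (hes _ hpl.1 h')
      refine ⟨Function.update a (cell p.1) n, ?_, {cell p.1}, ?_⟩
      · intro c hc
        rw [Function.update_of_ne]
        rintro rfl; exact hs1 hc
      · intro a'' ha'' _
        refine ⟨p, hp, h1.1, ?_, hy⟩
        rw [gv_free h3.1, ha'' _ (by simp), Function.update_self]
    exact this.mono fun a ha => ⟨z, hzα, ha⟩
  exact this.mono fun a ha => Or.inr (Or.inr (Or.inl ha))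

end

/-! ### Changing the values outside the levels below `α` -/

theorem Lev.congr {f f' : Ω × ℕ → ℕ} (h : Lev r α f) (hf : ∀ y : Ω × ℕ, y.1 < α → f y = f' y) :
    Lev r α f' := by
  constructor
  · intro x hx
    have : f' '' K r x = f '' K r x := image_congr fun y hy => (hf y (hy.1.trans_lt hx)).symm
    rw [this]; exact h.fin x hx
  · intro x hx n
    have : K r x ∩ f' ⁻¹' {n} = K r x ∩ f ⁻¹' {n} := by
      ext y
      constructor
      · rintro ⟨h1, h2⟩
        exact ⟨h1, by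
          have h3 : f' y = n := h2
          show f y = n
          rw [hf y (h1.1.trans_lt hx)]; exact h3⟩
      · rintro ⟨h1, h2⟩
        exact ⟨h1, by
          have h3 : f y = n := h2
          show f' y = n
          rw [← hf y (h1.1.trans_lt hx)]; exact h3⟩
    rw [this]; exact h.cut x hx n
  · intro δ hδ
    filter_upwards [h.const δ hδ] with m hm y hy
    rw [← hf y (hy.1.trans_lt hδ), ← hf _ hδ]
    exact hm y hy
  · intro δ hδ
    filter_upwards [h.even δ hδ] with m hm he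
    rw [← hf _ hδ]; exact hm he
  · intro δ hδ k
    filter_upwards [h.evfin δ hδ k] with m hm he
    rw [← hf _ hδ]; exact hm he
  · intro δ hδ n
    refine (h.odd δ hδ n).mono ?_
    rintro m ⟨h1, h2⟩
    rw [← hf _ hδ]; exact ⟨h1, h2⟩

theorem Kill.congr {f f' : Ω × ℕ → ℕ} {G : Gs Ω} (hG : Low α G) (h : Kill r α f G)
    (hf : ∀ y : Ω × ℕ, y.1 < α → f y = f' y) : Kill r α f' G := by
  rcases h with h | h | h | h
  · left
    intro n b hb
    obtain ⟨p, hp, y, hy, h1, h2, h3, h4⟩ := h n b hb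
    have hl := hG p hp
    exact ⟨p, hp, y, hy, h1, h2, by rw [← hf _ hl.1]; exact h3,
      by rw [← hf _ (hl.2 y hy)]; exact h4⟩
  · right; left
    intro n b hb
    obtain ⟨p, hp, h1, h3, h4⟩ := h n b hb
    exact ⟨p, hp, h1, by rw [← hf _ (hG p hp).1]; exact h3, h4⟩
  · right; right; left
    obtain ⟨z, hz, h⟩ := h
    refine ⟨z, hz, ?_⟩
    intro n b hb c hc hzc
    obtain ⟨p, hp, h1, h3, h4⟩ := h n b hb c hc hzc
    exact ⟨p, hp, h1, by rw [← hf _ (hG p hp).1]; exact h3, h4⟩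
  · right; right; right
    intro n M b hb
    obtain ⟨p, hp, y, hy, h1, h3, h4, h5⟩ := h n M b hb
    have hl := hG p hp
    exact ⟨p, hp, y, hy, h1, by rw [← hf _ hl.1]; exact h3,
      by rw [← hf _ (hl.2 y hy)]; exact h4, by rw [← hf _ (hl.2 y hy)]; exact h5⟩

theorem Bc.congr {f f' : Ω × ℕ → ℕ} {G : Gs Ω} (hG : Low α G) (h : Bc f G)
    (hf : ∀ y : Ω × ℕ, y.1 < α → f y = f' y) : Bc f' G := by
  unfold Bc at *
  filter_upwards [h] with n hn hodd p hp hpn
  have hl := hG p hp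
  rw [← hf _ hl.1] at hpn
  obtain ⟨y, hy, h1⟩ := hn hodd p hp hpn
  exact ⟨y, hy, by rw [← hf _ (hl.2 y hy)]; exact h1⟩

theorem Low.mono {β : Ω} {G : Gs Ω} (h : Low β G) (hβ : β ≤ α) : Low α G :=
  fun p hp => ⟨(h p hp).1.trans_le hβ, fun z hz => ((h p hp).2 z hz).trans_le hβ⟩

/-- The requirements on the level `α`. -/
def Req (G : Ω → Gs Ω) (α : Ω) (r : Ω → Ω × ℕ → ℕ) (f : Ω × ℕ → ℕ) : Prop :=
  (∀ n, f (α, n) = n) ∧ Lev r α f ∧ (∀ β ≤ α, Kill r α f (G β) ∨ Bc f (G β)) ∧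
    ((Iio α).Nonempty → Unb α (G α) → Kill r α f (G α))

theorem exists_step {G : Ω → Gs Ω} (hG : ∀ β, Low β (G β)) (S : Sys r (Iio α))
    (hc : (Iic α).Countable) : ∃ f, Req G α r f := by
  classical
  have hc' : (Iio α).Countable := hc.mono Iio_subset_Iic_self
  rcases (Iio α).eq_empty_or_nonempty with he | hne
  · have hno : ∀ δ, ¬ δ < α := fun δ hδ => by
      have : δ ∈ Iio α := hδ
      rw [he] at this
      exact this
    refine ⟨fun y => y.2, fun n => rfl, ?_, ?_, ?_⟩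
    · constructor
      · exact fun x hx => absurd hx (hno _)
      · exact fun x hx => absurd hx (hno _)
      · exact fun x hx => absurd hx (hno _)
      · exact fun x hx => absurd hx (hno _)
      · exact fun x hx => absurd hx (hno _)
      · exact fun x hx => absurd hx (hno _)
    · intro β hβ
      right
      refine Eventually.of_forall fun n _ p hp => ?_
      exact absurd ((hG β p hp).1.trans_le hβ) (hno _)
    · intro h
      rw [he] at h
      exact absurd h not_nonempty_empty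
  obtain ⟨cell, h⟩ := exists_cells S hc' hne (hG α)
  have e1 : ∀ᶠ a in residual (ℕ × ℕ → ℕ), ∀ δ ∈ Iio α, ∀ n, ∃ᶠ m in atTop,
      Odd m ∧ gv a (cell (δ, m)) = n := by
    refine (eventually_countable_ball hc').2 fun δ hδ => ?_
    refine eventually_countable_forall.2 fun n => ?_
    exact h.ev_odd hδ n
  have e2 : ∀ᶠ a in residual (ℕ × ℕ → ℕ), ∀ β ∈ Iic α,
      Kill r α (fun y => gv a (cell y)) (G β) ∨ Bc (fun y => gv a (cell y)) (G β) := by
    refine (eventually_countable_ball hc).2 fun β hβ => ?_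
    by_cases hb : Bad r α cell (G β)
    · exact (h.kill S hc' ((hG β).mono hβ) hb).mono fun a ha => Or.inl ha
    · exact Eventually.of_forall fun a => Or.inr (h.bc hb a)
  have e3 : ∀ᶠ a in residual (ℕ × ℕ → ℕ), Unb α (G α) →
      Kill r α (fun y => gv a (cell y)) (G α) := by
    by_cases hu : Unb α (G α)
    · exact (h.kill S hc' (hG α) (h.bad_of_unb hu)).mono fun a ha _ => ha
    · exact Eventually.of_forall fun a h' => absurd h' hu
  have e4 := (e1.and e2).and e3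
  obtain ⟨a, ⟨h1, h2⟩, h3⟩ := (dense_of_mem_residual e4).nonempty
  have hf : ∀ y : Ω × ℕ, y.1 < α → (fun y => gv a (cell y)) y =
      (fun y : Ω × ℕ => if y.1 = α then y.2 else gv a (cell y)) y := by
    intro y hy
    simp only
    rw [if_neg (ne_of_lt hy)]
  refine ⟨fun y => if y.1 = α then y.2 else gv a (cell y), fun n => if_pos rfl,
    (h.lev S h1).congr hf, ?_, ?_⟩
  · intro β hβ
    rcases h2 β hβ with h4 | h4
    · exact Or.inl (h4.congr ((hG β).mono hβ) hf)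
    · exact Or.inr (h4.congr ((hG β).mono hβ) hf)
  · intro _ hu
    exact (h3 hu).congr (hG α) hf

/-! ### Locality and the recursion -/

theorem K_congr {r' : Ω → Ω × ℕ → ℕ} {x : Ω × ℕ} (h : r x.1 = r' x.1) : K r x = K r' x := by
  unfold K; rw [h]

theorem Cp_congr_iff {r' : Ω → Ω × ℕ → ℕ} {I : Set Ω} (h : ∀ δ ∈ I, r δ = r' δ)
    (b : Set (Ω × ℕ)) : Cp r I b ↔ Cp r' I b :=
  ⟨Cp.congr h, Cp.congr fun δ hδ => (h δ hδ).symm⟩

theorem Req.local {G : Ω → Gs Ω} {r' : Ω → Ω × ℕ → ℕ} {f : Ω × ℕ → ℕ}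
    (h : ∀ δ < α, r δ = r' δ) (hr : Req G α r f) : Req G α r' f := by
  have hCp : ∀ b, Cp r' (Iio α) b ↔ Cp r (Iio α) b := fun b => (Cp_congr_iff h b).symm
  have hK : ∀ x : Ω × ℕ, x.1 < α → K r' x = K r x := fun x hx => (K_congr (h _ hx)).symm
  have hKill : ∀ G', Kill r α f G' → Kill r' α f G' := by
    intro G' hk
    rcases hk with hk | hk | hk | hk
    · exact Or.inl fun n b hb => hk n b ((hCp b).1 hb)
    · exact Or.inr (Or.inl fun n b hb => hk n b ((hCp b).1 hb))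
    · obtain ⟨z, hz, hk⟩ := hk
      exact Or.inr (Or.inr (Or.inl ⟨z, hz, fun n b hb c hc => hk n b ((hCp b).1 hb) c
        ((hCp c).1 hc)⟩))
    · exact Or.inr (Or.inr (Or.inr fun n M b hb => hk n M b ((hCp b).1 hb)))
  obtain ⟨h1, h2, h3, h4⟩ := hr
  refine ⟨h1, ?_, ?_, ?_⟩
  · constructor
    · intro x hx; rw [hK x hx]; exact h2.fin x hx
    · intro x hx n; rw [hK x hx, hCp]; exact h2.cut x hx n
    · intro δ hδ
      filter_upwards [h2.const δ hδ] with m hm y hy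
      rw [hK (δ, m) hδ] at hy
      exact hm y hy
    · exact h2.even
    · exact h2.evfin
    · exact h2.odd
  · intro β hβ
    rcases h3 β hβ with h5 | h5
    · exact Or.inl (hKill _ h5)
    · exact Or.inr h5
  · intro hne hu
    exact hKill _ (h4 hne hu)

theorem exists_rec {Y : Type} [Inhabited Y] (P : (α : Ω) → (Ω → Y) → Y → Prop)
    (hloc : ∀ α r r' f, (∀ δ < α, r δ = r' δ) → P α r f → P α r' f)
    (hstep : ∀ α r, (∀ δ < α, P δ r (r δ)) → ∃ f, P α r f) : ∃ r : Ω → Y, ∀ α, P α r (r α) := by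
  classical
  let F : (α : Ω) → ((δ : Ω) → δ < α → Y) → Y := fun α rec =>
    if h : ∃ f, P α (fun δ => if hδ : δ < α then rec δ hδ else default) f then h.choose
    else default
  let r : Ω → Y := (wellFounded_lt (α := Ω)).fix F
  have hr : ∀ α, r α = F α (fun δ _ => r δ) := fun α => (wellFounded_lt (α := Ω)).fix_eq F α
  refine ⟨r, ?_⟩
  intro α
  induction α using WellFoundedLT.induction with
  | ind α ih =>
    have hagree : ∀ δ < α, r δ = (fun δ => if _hδ : δ < α then r δ else default) δ := by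
      intro δ hδ
      simp only
      rw [dif_pos hδ]
    obtain ⟨f, hf⟩ := hstep α r ih
    have hex : ∃ f, P α (fun δ => if _hδ : δ < α then r δ else default) f :=
      ⟨f, hloc α _ _ _ hagree hf⟩
    have h1 : r α = hex.choose := by
      rw [hr α]
      exact dif_pos hex
    have h2 := hex.choose_spec
    rw [← h1] at h2
    exact hloc α _ _ _ (fun δ hδ => (hagree δ hδ).symm) h2

/-- Existence of the system. -/
theorem exists_system (hc : ∀ α : Ω, (Iic α).Countable) {G : Ω → Gs Ω}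
    (hG : ∀ β, Low β (G β)) : ∃ r : Ω → Ω × ℕ → ℕ, ∀ α, Req G α r (r α) := by
  refine exists_rec (Y := Ω × ℕ → ℕ) (Req G) (fun α r r' f h hr => hr.local h) ?_
  intro α r hr
  -- fix the normalisation outside
  classical
  let r' : Ω → Ω × ℕ → ℕ := fun δ => if δ < α then r δ else fun y => y.2
  have hagree : ∀ δ < α, r δ = r' δ := fun δ hδ => (if_pos hδ).symm
  have S : Sys r' (Iio α) := by
    refine ⟨?_, isLowerSet_Iio α, ?_⟩
    · intro γ n
      by_cases hγ : γ < α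
      · rw [← hagree γ hγ]; exact (hr γ hγ).1 n
      · show (if γ < α then r γ else fun y => y.2) (γ, n) = n
        rw [if_neg hγ]
    · intro β hβ
      have hβ' : β < α := hβ
      have := ((hr β hβ').local (r' := r') (fun δ hδ => hagree δ (hδ.trans hβ'))).2.1
      rwa [hagree β hβ'] at this
  obtain ⟨f, hf⟩ := exists_step hG S (hc α)
  exact ⟨f, hf.local fun δ hδ => (hagree δ hδ).symm⟩

end H85
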