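import Mathlib
import Pool.Agent.H85.Step

set_option autoImplicit false

namespace H85

open Set Filter

variable {Ω : Type} [LinearOrder Ω] [WellFoundedLT Ω]
variable {r : Ω → Ω × ℕ → ℕ}

/-- basic hypotheses on the index set -/
structure Big (Ω : Type) [LinearOrder Ω] : Prop where
  cIic : ∀ α : Ω, (Iic α).Countable
  unc : Uncountable Ω

omit [WellFoundedLT Ω] in
theorem Big.bdd (hb : Big Ω) {s : Set Ω} (hs : s.Countable) : ∃ a, ∀ x ∈ s, x < a := by
  by_contra hcon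
  push Not at hcon
  have h1 : (univ : Set Ω) ⊆ ⋃ x ∈ s, Iic x := by
    intro a _
    obtain ⟨x, hx, hax⟩ := hcon a
    exact mem_biUnion hx hax
  have h2 : (⋃ x ∈ s, Iic x).Countable := hs.biUnion fun x _ => hb.cIic x
  have h3 := hb.unc
  exact Set.not_countable_univ (h2.mono h1)

omit [WellFoundedLT Ω] in
theorem Big.exists_gt (hb : Big Ω) (a : Ω) : ∃ b, a < b := by
  obtain ⟨b, hb⟩ := hb.bdd (countable_singleton a)
  exact ⟨b, hb a rfl⟩

omit [WellFoundedLT Ω] in
theorem Big.nonempty (hb : Big Ω) : Nonempty Ω := by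
  have := hb.unc
  infer_instance

theorem not_both (hb : Big Ω) (S : Sys r univ) {b : Set (Ω × ℕ)} (h1 : Cp r univ b)
    (h2 : Cp r univ bᶜ) : False := by
  have h3 := S.union h1 h2
  rw [union_compl_self] at h3
  obtain ⟨a⟩ := hb.nonempty
  obtain ⟨δ, _, h4, _⟩ := h3.top S.nrm ⟨(a, 0), mem_univ _⟩
  obtain ⟨ε, hε⟩ := hb.exists_gt δ
  exact absurd (h4 (ε, 0) (mem_univ _)) (not_le.2 hε)

/-- The Boolean algebra of compact and co-compact sets. -/
def Bal {I : Set Ω} (S : Sys r I) : BooleanSubalgebra (Set (Ω × ℕ)) where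
  carrier := {b | Cp r I b ∨ Cp r I bᶜ}
  supClosed' := by
    rintro b (hb | hb) c (hc | hc)
    · exact Or.inl (S.union hb hc)
    · right
      have : (b ⊔ c)ᶜ = cᶜ \ b := by
        ext x
        simp only [sup_eq_union, mem_compl_iff, mem_union, mem_diff]
        tauto
      rw [this]; exact S.diff hc hb
    · right
      have : (b ⊔ c)ᶜ = bᶜ \ c := by
        ext x
        simp only [sup_eq_union, mem_compl_iff, mem_union, mem_diff]
        tauto
      rw [this]; exact S.diff hb hc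
    · right
      have : (b ⊔ c)ᶜ = bᶜ ∩ cᶜ := by
        ext x
        simp only [sup_eq_union, mem_compl_iff, mem_union, mem_inter_iff]
        tauto
      rw [this]; exact S.inter hb hc
  infClosed' := by
    rintro b (hb | hb) c (hc | hc)
    · exact Or.inl (S.inter hb hc)
    · left
      have : b ⊓ c = b \ cᶜ := by
        ext x
        simp only [inf_eq_inter, mem_compl_iff, mem_inter_iff, mem_diff]
        tauto
      rw [this]; exact S.diff hb hc
    · left
      have : b ⊓ c = c \ bᶜ := by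
        ext x
        simp only [inf_eq_inter, mem_compl_iff, mem_inter_iff, mem_diff]
        tauto
      rw [this]; exact S.diff hc hb
    · right
      have : (b ⊓ c)ᶜ = bᶜ ∪ cᶜ := by
        ext x
        simp only [inf_eq_inter, mem_compl_iff, mem_inter_iff, mem_union]
        tauto
      rw [this]; exact S.union hb hc
  compl_mem' := by
    rintro b (hb | hb)
    · right; rw [compl_compl]; exact hb
    · exact Or.inl hb
  bot_mem' := Or.inl Cp.empty

theorem mem_Bal {I : Set Ω} {S : Sys r I} {b : Set (Ω × ℕ)} :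
    b ∈ Bal S ↔ Cp r I b ∨ Cp r I bᶜ := Iff.rfl

theorem Sys.inter_Bal {I : Set Ω} (S : Sys r I) {b c : Set (Ω × ℕ)} (hb : Cp r I b)
    (hc : c ∈ Bal S) : Cp r I (b ∩ c) := by
  rcases hc with hc | hc
  · exact S.inter hb hc
  · have : b ∩ c = b \ cᶜ := by
      ext x
      simp only [mem_compl_iff, mem_inter_iff, mem_diff]
      tauto
    rw [this]; exact S.diff hb hc

theorem Sys.diff_Bal {I : Set Ω} (S : Sys r I) {b c : Set (Ω × ℕ)} (hb : Cp r I b)
    (hc : c ∈ Bal S) : Cp r I (b \ c) := by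
  rw [diff_eq]
  exact S.inter_Bal hb (BooleanSubalgebra.compl_mem hc)

theorem Sys.cp_of_subset {I : Set Ω} (S : Sys r I) {b c : Set (Ω × ℕ)} (hb : Cp r I b)
    (hc : c ∈ Bal S) (hcb : c ⊆ b) : Cp r I c := by
  have := S.inter_Bal hb hc
  rwa [inter_eq_self_of_subset_right hcb] at this

/-- membership in the one point compactification -/
def mo (r : Ω → Ω × ℕ → ℕ) (c : Set (Ω × ℕ)) : Option (Ω × ℕ) → Prop
  | none => Cp r univ cᶜ
  | some y => y ∈ c

/-- the pairs which are not separated -/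
def Rel (r : Ω → Ω × ℕ → ℕ) (C : BooleanSubalgebra (Set (Ω × ℕ))) : Gs Ω :=
  {p | ∀ c ∈ C, (p.1 ∈ c ↔ mo r c p.2)}

theorem Rel.symm {C : BooleanSubalgebra (Set (Ω × ℕ))} {x y : Ω × ℕ}
    (h : (x, some y) ∈ Rel r C) : (y, some x) ∈ Rel r C := fun c hc => (h c hc).symm

/-- a point which is separated from infinity has a compact neighbourhood in `C` -/
theorem exists_cp_of_not_rel (hb : Big Ω) (S : Sys r univ) {C : BooleanSubalgebra (Set (Ω × ℕ))}
    (hC : C ≤ Bal S) {x : Ω × ℕ} (hx : (x, none) ∉ Rel r C) :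
    ∃ c ∈ C, Cp r univ c ∧ x ∈ c := by
  have hx' : ¬ ∀ c ∈ C, (x ∈ c ↔ Cp r univ cᶜ) := hx
  push Not at hx'
  obtain ⟨c, hc, h⟩ := hx'
  rcases hC hc with h1 | h1
  · rcases h with h | h
    · exact ⟨c, hc, h1, h.1⟩
    · exact absurd h.2 (fun h2 => not_both hb S h1 h2)
  · rcases h with h | h
    · exact absurd h1 h.2
    · exact ⟨cᶜ, BooleanSubalgebra.compl_mem hc, h1, h.1⟩

theorem exists_sep_of_not_rel {C : BooleanSubalgebra (Set (Ω × ℕ))}
    {x y : Ω × ℕ} (hx : (x, some y) ∉ Rel r C) : ∃ c ∈ C, x ∈ c ∧ y ∉ c := by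
  have hx' : ¬ ∀ c ∈ C, (x ∈ c ↔ y ∈ c) := hx
  push Not at hx'
  obtain ⟨c, hc, h⟩ := hx'
  rcases h with h | h
  · exact ⟨c, hc, h⟩
  · exact ⟨cᶜ, BooleanSubalgebra.compl_mem hc, h.1, fun h' => h' h.2⟩

/-- a compact saturated set belongs to the subalgebra -/
theorem sat_mem (hb : Big Ω) (S : Sys r univ) {C : BooleanSubalgebra (Set (Ω × ℕ))}
    (hC : C ≤ Bal S) {b : Set (Ω × ℕ)} (hbC : Cp r univ b)
    (hsat : ∀ x ∈ b, ∀ w, (x, w) ∈ Rel r C → ∃ y ∈ b, w = some y) : b ∈ C := by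
  have h1 : ∀ x ∈ b, ∃ c ∈ C, Cp r univ c ∧ x ∈ c ∧ c ⊆ b := by
    intro x hx
    have hx1 : (x, none) ∉ Rel r C := by
      intro h
      obtain ⟨y, _, h2⟩ := hsat x hx none h
      exact absurd h2 (by simp)
    obtain ⟨c, hc, hcp, hxc⟩ := exists_cp_of_not_rel hb S hC hx1
    have h2 : ∃ c' ∈ C, x ∈ c' ∧ ∀ y ∈ c \ b, y ∉ c' := by
      refine S.compact (P := fun e => ∃ c' ∈ C, x ∈ c' ∧ ∀ y ∈ e, y ∉ c') ?_ ?_ ?_
        (S.diff hcp hbC) ?_
      · exact ⟨c, hc, hxc, by simp⟩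
      · rintro e e' ⟨c1, hc1, h1, h2⟩ ⟨c2, hc2, h3, h4⟩
        refine ⟨c1 ⊓ c2, BooleanSubalgebra.inf_mem hc1 hc2, ⟨h1, h3⟩, ?_⟩
        rintro y (hy | hy) hy2
        · exact h2 y hy hy2.1
        · exact h4 y hy hy2.2
      · rintro e e' hee ⟨c1, hc1, h1, h2⟩
        exact ⟨c1, hc1, h1, fun y hy => h2 y (hee hy)⟩
      · intro y hy
        have hxy : (x, some y) ∉ Rel r C := by
          intro h
          obtain ⟨y', hy', h2⟩ := hsat x hx _ h
          have : y = y' := by simpa using h2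
          rw [this] at hy
          exact hy.2 hy'
        obtain ⟨c', hc', h3, h4⟩ := exists_sep_of_not_rel hxy
        exact ⟨c \ c', S.diff_Bal hcp (hC hc'), ⟨hy.1, h4⟩, c', hc', h3, fun z hz => hz.2⟩
    obtain ⟨c', hc', hxc', h3⟩ := h2
    refine ⟨c ⊓ c', BooleanSubalgebra.inf_mem hc hc', S.inter_Bal hcp (hC hc'), ⟨hxc, hxc'⟩, ?_⟩
    intro y hy
    by_contra hyb
    exact h3 y ⟨hy.1, hyb⟩ hy.2
  have h2 : ∃ c ∈ C, b ⊆ c ∧ c ⊆ b := by
    refine S.compact (P := fun e => ∃ c ∈ C, e ⊆ c ∧ c ⊆ b) ?_ ?_ ?_ hbC ?_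
    · exact ⟨⊥, BooleanSubalgebra.bot_mem, subset_rfl, empty_subset _⟩
    · rintro e e' ⟨c1, hc1, h1, h2⟩ ⟨c2, hc2, h3, h4⟩
      exact ⟨c1 ⊔ c2, BooleanSubalgebra.sup_mem hc1 hc2, union_subset_union h1 h3,
        union_subset h2 h4⟩
    · rintro e e' hee ⟨c1, hc1, h1, h2⟩
      exact ⟨c1, hc1, hee.trans h1, h2⟩
    · intro x hx
      obtain ⟨c, hc, h3, h4, h5⟩ := h1 x hx
      exact ⟨c, h3, h4, c, hc, subset_rfl, h5⟩
  obtain ⟨c, hc, h3, h4⟩ := h2
  rwa [subset_antisymm h3 h4]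

/-- almost all pieces are respected by the elements of the algebra -/
theorem Sys.resp_Bal (S : Sys r univ) {c : Set (Ω × ℕ)} (hc : c ∈ Bal S) (δ : Ω) :
    ∀ᶠ m in atTop, ∀ y ∈ K r (δ, m), (y ∈ c ↔ (δ, m) ∈ c) := by
  rcases hc with hc | hc
  · exact S.resp hc (mem_univ δ)
  · filter_upwards [S.resp hc (mem_univ δ)] with m hm y hy
    have := hm y hy
    simp only [mem_compl_iff] at this
    exact not_iff_not.1 this

/-- almost all even pieces behave like infinity -/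
theorem Sys.even_Bal (hb : Big Ω) (S : Sys r univ) {c : Set (Ω × ℕ)} (hc : c ∈ Bal S) (δ : Ω) :
    ∀ᶠ m in atTop, Even m → ∀ y ∈ K r (δ, m), (y ∈ c ↔ mo r c none) := by
  rcases hc with hc | hc
  · filter_upwards [S.resp hc (mem_univ δ), S.evn hc (mem_univ δ)] with m h1 h2 he y hy
    rw [h1 y hy]
    constructor
    · intro h; exact absurd h (h2 he)
    · intro h; exact absurd h (fun h => not_both hb S hc h)
  · filter_upwards [S.resp hc (mem_univ δ), S.evn hc (mem_univ δ)] with m h1 h2 he y hy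
    constructor
    · intro _; exact hc
    · intro _
      by_contra h
      exact h2 he ((h1 y hy).1 h)

theorem Cp.lt_lower (S : Sys r univ) {b : Set (Ω × ℕ)} (hb : Cp r univ b) {α : Ω}
    (h : ∀ y ∈ b, y.1 < α) : Cp r (Iio α) b :=
  (hb.lower S.nrm (isLowerSet_Iio α) h).mono inter_subset_right

theorem Cp.le_lower (S : Sys r univ) {b : Set (Ω × ℕ)} (hb : Cp r univ b) {α : Ω}
    (h : ∀ y ∈ b, y.1 ≤ α) : Cp r (Iic α) b :=
  (hb.lower S.nrm (isLowerSet_Iic α) h).mono inter_subset_right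

theorem exists_local (S : Sys r univ) {c : Set (Ω × ℕ)} (hc : c ∈ Bal S) (α : Ω) (n : ℕ) :
    ∃ b, Cp r (Iio α) b ∧ ∀ x : Ω × ℕ, x.1 < α → r α x = n → x ∉ b →
      (x ∈ c ↔ (α, n) ∈ c) := by
  have key : ∀ c, Cp r univ c → ∃ b, Cp r (Iio α) b ∧ ∀ x : Ω × ℕ, x.1 < α → r α x = n →
      x ∉ b → (x ∈ c ↔ (α, n) ∈ c) := by
    intro c hc
    by_cases h : (α, n) ∈ c
    · refine ⟨K r (α, n) \ c, S.diffK hc h, ?_⟩
      intro x hx hxn hxb
      refine ⟨fun _ => h, fun _ => ?_⟩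
      by_contra hcon
      exact hxb ⟨⟨hx.le, hxn⟩, hcon⟩
    · refine ⟨K r (α, n) ∩ c, S.interK hc (x := (α, n)) (mem_univ _) h, ?_⟩
      intro x hx hxn hxb
      refine ⟨fun h' => absurd ⟨⟨hx.le, hxn⟩, h'⟩ hxb, fun h' => absurd h' h⟩
  rcases hc with hc | hc
  · exact key c hc
  · obtain ⟨b, hb, h⟩ := key _ hc
    refine ⟨b, hb, fun x h1 h2 h3 => ?_⟩
    have := h x h1 h2 h3
    simp only [mem_compl_iff] at this
    exact not_iff_not.1 this

/-- a killed level makes the subalgebra countable -/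
theorem countable_of_kill (hb : Big Ω) (S : Sys r univ) {C : BooleanSubalgebra (Set (Ω × ℕ))}
    (hC : C ≤ Bal S) {α : Ω} {G' : Gs Ω} (hG : G' ⊆ Rel r C) (hlow : Low α G')
    (hk : Kill r α (r α) G') : (C : Set (Set (Ω × ℕ))).Countable := by
  have key : ∀ c ∈ C, ∀ n, ((α, n) ∈ c ↔ (α, 0) ∈ c) := by
    intro c hc
    have hcB := hC hc
    rcases hk with hk | hk | hk | hk
    · intro n
      obtain ⟨b0, hb0, h0⟩ := exists_local S hcB α 0
      obtain ⟨bn, hbn, hn⟩ := exists_local S hcB α n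
      obtain ⟨p, hp, y, hy, h1, h2, h3, h4⟩ :=
        hk n (b0 ∪ bn) ((S.mono (subset_univ _) (isLowerSet_Iio α)).union hb0 hbn)
      rw [mem_union, not_or] at h1 h2
      have hl := hlow p hp
      have hR := hG hp c hc
      rw [hy] at hR
      rw [← hn p.1 hl.1 h3 h1.2, ← h0 y (hl.2 y hy) h4 h2.1]
      exact hR
    · have : ∀ n, ((α, n) ∈ c ↔ mo r c none) := by
        intro n
        obtain ⟨bn, hbn, hn⟩ := exists_local S hcB α n
        obtain ⟨p, hp, h1, h3, hy⟩ := hk n bn hbn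
        have hl := hlow p hp
        have hR := hG hp c hc
        rw [hy] at hR
        rw [← hn p.1 hl.1 h3 h1]
        exact hR
      intro n
      rw [this n, this 0]
    · obtain ⟨z, hz, hk⟩ := hk
      obtain ⟨c', hc', hzc', h5⟩ : ∃ c', Cp r (Iio α) c' ∧ z ∈ c' ∧
          ∀ y ∈ c', (y ∈ c ↔ z ∈ c) := by
        have hlt : ∀ y ∈ K r z, y.1 < α := fun y hy => lt_of_le_of_lt hy.1 hz
        by_cases hzc : z ∈ c
        · refine ⟨K r z ∩ c, (S.inter_Bal (Cp.of_K (mem_univ _)) hcB).lt_lower S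
            (fun y hy => hlt y hy.1), ⟨S.nrm.mem_K z, hzc⟩, fun y hy => ⟨fun _ => hzc,
              fun _ => hy.2⟩⟩
        · refine ⟨K r z \ c, (S.diff_Bal (Cp.of_K (mem_univ _)) hcB).lt_lower S
            (fun y hy => hlt y hy.1), ⟨S.nrm.mem_K z, hzc⟩, fun y hy => ⟨fun h => absurd h hy.2,
              fun h => absurd h hzc⟩⟩
      have : ∀ n, ((α, n) ∈ c ↔ z ∈ c) := by
        intro n
        obtain ⟨bn, hbn, hn⟩ := exists_local S hcB α n
        obtain ⟨p, hp, h1, h3, y, hyc, hy⟩ := hk n bn hbn c' hc' hzc'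
        have hl := hlow p hp
        have hR := hG hp c hc
        rw [hy] at hR
        rw [← hn p.1 hl.1 h3 h1, ← h5 y hyc]
        exact hR
      intro n
      rw [this n, this 0]
    · obtain ⟨M, hM⟩ := eventually_atTop.1 (S.even_Bal hb hcB α)
      have : ∀ n, ((α, n) ∈ c ↔ mo r c none) := by
        intro n
        obtain ⟨bn, hbn, hn⟩ := exists_local S hcB α n
        obtain ⟨p, hp, y, hy, h1, h3, h4, h5⟩ := hk n M bn hbn
        have hl := hlow p hp
        have hR := hG hp c hc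
        rw [hy] at hR
        have h6 := hM _ h5 h4 y ⟨(hl.2 y hy).le, rfl⟩
        rw [← hn p.1 hl.1 h3 h1, ← h6]
        exact hR
      intro n
      rw [this n, this 0]
  have h2 : ∀ c ∈ C, Cp r univ c → Cp r (Iio α) c := by
    intro c hc hcp
    have h3 : ∀ n, (α, n) ∉ c := by
      intro n hn
      have h0 := (key c hc n).1 hn
      obtain ⟨m, _, hm⟩ := (S.full' hcp (mem_univ α)).exists
      exact hm ((key c hc m).2 h0)
    apply hcp.lt_lower S
    intro y hy
    by_contra hcon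
    rcases lt_or_eq_of_le (not_lt.1 hcon) with h | h
    · obtain ⟨m, _, hm⟩ := (S.full hcp hy h).exists
      exact h3 m hm
    · apply h3 y.2
      rw [h]; exact hy
  have h3 := countable_Cp (r := r) ((hb.cIic α).mono Iio_subset_Iic_self)
  refine (h3.union (h3.image compl)).mono ?_
  intro c hc
  rcases hC hc with h4 | h4
  · exact Or.inl (h2 c hc h4)
  · exact Or.inr ⟨cᶜ, h2 _ (BooleanSubalgebra.compl_mem hc) h4, compl_compl c⟩

end H85
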