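import Mathlib
import Pool.Agent.H85.Alg

set_option autoImplicit false

namespace H85

open Set Filter

variable {Ω : Type} [LinearOrder Ω] [WellFoundedLT Ω]
variable {r : Ω → Ω × ℕ → ℕ}

theorem exists_isLUB_of_bdd {s : Set Ω} (h : (upperBounds s).Nonempty) : ∃ b, IsLUB s b := by
  obtain ⟨b, hb, hmin⟩ := (wellFounded_lt (α := Ω)).has_min (upperBounds s) h
  exact ⟨b, hb, fun c hc => not_lt.1 (hmin c hc)⟩

theorem club_closure (hb : Big Ω) (f : Ω → Ω) :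
    IsClub {α : Ω | (∃ γ, γ < α) ∧ ∀ γ < α, f γ ≤ α} := by
  constructor
  · intro d hd hne _ a ha
    constructor
    · obtain ⟨e, he⟩ := hne
      obtain ⟨γ, hγ⟩ := (hd he).1
      exact ⟨γ, hγ.trans_le (ha.1 he)⟩
    · intro γ hγ
      obtain ⟨e, he, h1⟩ := (lt_isLUB_iff ha).1 hγ
      exact ((hd he).2 γ h1).trans (ha.1 he)
  · intro a
    have hstep : ∀ x : Ω, ∃ y, x < y ∧ ∀ γ ≤ x, f γ < y := by
      intro x
      obtain ⟨y, hy⟩ := hb.bdd (((hb.cIic x).image f).insert x)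
      exact ⟨y, hy x (mem_insert _ _), fun γ hγ => hy _ (mem_insert_of_mem _ ⟨γ, hγ, rfl⟩)⟩
    choose nx h1 h2 using hstep
    let g : ℕ → Ω := fun n => Nat.rec a (fun _ x => nx x) n
    have hg : ∀ n, g (n + 1) = nx (g n) := fun n => rfl
    have hbd : (upperBounds (range g)).Nonempty := by
      obtain ⟨y, hy⟩ := hb.bdd (countable_range g)
      exact ⟨y, fun x hx => (hy x hx).le⟩
    obtain ⟨b, hbl⟩ := exists_isLUB_of_bdd hbd
    have hle : ∀ n, g n ≤ b := fun n => hbl.1 (mem_range_self n)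
    refine ⟨b, ⟨⟨a, ?_⟩, ?_⟩, hle 0⟩
    · calc a < nx (g 0) := h1 a
        _ = g 1 := (hg 0).symm
        _ ≤ b := hle 1
    · intro γ hγ
      obtain ⟨_, ⟨n, rfl⟩, h3⟩ := (lt_isLUB_iff hbl).1 hγ
      have h4 := h2 (g n) γ h3.le
      rw [← hg n] at h4
      exact h4.le.trans (hle (n + 1))

theorem cof_ne (hb : Big Ω) : Order.cof Ω ≠ Cardinal.aleph0 := by
  intro h
  obtain ⟨s, hs, hc⟩ := Order.exists_cof_eq (α := Ω)
  rw [h] at hc
  have hsc : s.Countable := by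
    rw [← Cardinal.le_aleph0_iff_set_countable]
    exact hc.le
  obtain ⟨a, ha⟩ := hb.bdd hsc
  obtain ⟨y, hy, h1⟩ := hs a
  exact absurd (ha y hy) (not_lt.2 h1)

/-- restriction of a set of pairs -/
def restr (β : Ω) (R : Gs Ω) : Gs Ω := {p | p ∈ R ∧ p.1.1 < β ∧ ∀ z ∈ p.2, z.1 < β}

theorem exists_coding (hb : Big Ω) :
    ∃ c : (Ω × ℕ) × Option (Ω × ℕ) → Ω, Function.Injective c := by
  have := hb.unc
  have hinf : Cardinal.aleph0 ≤ Cardinal.mk Ω := Cardinal.aleph0_le_mk Ω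
  have h1 : Cardinal.mk (Ω × ℕ) = Cardinal.mk Ω := by
    rw [Cardinal.mk_prod]
    simp [Cardinal.mul_aleph0_eq hinf]
  have h2 : Cardinal.mk (Option (Ω × ℕ)) = Cardinal.mk Ω := by
    rw [Cardinal.mk_option, h1, Cardinal.add_one_eq hinf]
  have h3 : Cardinal.mk ((Ω × ℕ) × Option (Ω × ℕ)) = Cardinal.mk Ω := by
    rw [Cardinal.mk_prod, h1, h2]
    simp [Cardinal.mul_eq_self hinf]
  obtain ⟨e⟩ := Cardinal.eq.1 h3
  exact ⟨e, e.injective⟩

theorem exists_guess (hb : Big Ω) {A : Ω → Set Ω}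
    (hA : ∀ S : Set Ω, IsStationary {α | S ∩ Iio α = A α}) :
    ∃ G : Ω → Gs Ω, (∀ β, Low β (G β)) ∧ ∀ R : Gs Ω, IsStationary {β | restr β R = G β} := by
  obtain ⟨c, hc⟩ := exists_coding hb
  refine ⟨fun β => {p | (p.1.1 < β ∧ ∀ z ∈ p.2, z.1 < β) ∧ c p ∈ A β}, fun β p hp => hp.1, ?_⟩
  intro R t ht
  have hbd : ∀ γ : Ω, ∃ b : Ω, ∀ p : (Ω × ℕ) × Option (Ω × ℕ), p.1.1 ≤ γ → (∀ z ∈ p.2, z.1 ≤ γ) →
      c p < b := by
    intro γ
    have hcX : {x : Ω × ℕ | x.1 ≤ γ}.Countable := by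
      have : {x : Ω × ℕ | x.1 ≤ γ} = Iic γ ×ˢ univ := by
        ext x; simp
      rw [this]
      exact (hb.cIic γ).prod countable_univ
    have hcO : {w : Option (Ω × ℕ) | ∀ z ∈ w, z.1 ≤ γ}.Countable := by
      have : {w : Option (Ω × ℕ) | ∀ z ∈ w, z.1 ≤ γ} ⊆
          insert none (some '' {x : Ω × ℕ | x.1 ≤ γ}) := by
        intro w hw
        cases w with
        | none => exact mem_insert _ _
        | some z => exact mem_insert_of_mem _ ⟨z, hw z rfl, rfl⟩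
      exact ((hcX.image some).insert none).mono this
    obtain ⟨b, hb'⟩ := hb.bdd ((hcX.prod hcO).image c)
    exact ⟨b, fun p h1 h2 => hb' _ ⟨p, ⟨h1, h2⟩, rfl⟩⟩
  choose f hf using hbd
  have hclub := (club_closure hb f).inter (cof_ne hb) ht
  obtain ⟨β, h1, h2, h3⟩ := hA (c '' R) hclub
  refine ⟨β, ?_, h3⟩
  have h1' : c '' R ∩ Iio β = A β := h1
  show restr β R = _
  ext p
  constructor
  · rintro ⟨hp1, hp2⟩
    refine ⟨hp2, ?_⟩
    rw [← h1']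
    refine ⟨⟨p, hp1, rfl⟩, ?_⟩
    -- a common bound
    obtain ⟨γ, hγ, h4, h5⟩ : ∃ γ < β, p.1.1 ≤ γ ∧ ∀ z ∈ p.2, z.1 ≤ γ := by
      rcases hpp : p.2 with _ | z
      · exact ⟨p.1.1, hp2.1, le_rfl, by simp⟩
      · refine ⟨max p.1.1 z.1, max_lt hp2.1 (hp2.2 z hpp), le_max_left _ _, ?_⟩
        intro z' hz'
        have : z = z' := by simpa using hz'
        rw [← this]
        exact le_max_right _ _
    exact (hf γ p h4 h5).trans_le (h2.2 γ hγ)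
  · rintro ⟨hp1, hp2⟩
    rw [← h1'] at hp2
    obtain ⟨⟨q, hq, hqp⟩, _⟩ := hp2
    rw [← hc hqp]
    exact ⟨hq, by rw [hc hqp]; exact hp1⟩

section
variable {G : Ω → Gs Ω}

theorem exists_sep_level (hb : Big Ω) (S : Sys r univ) (hreq : ∀ α, Req G α r (r α))
    (hG : ∀ β, Low β (G β)) (hst : ∀ R : Gs Ω, IsStationary {β | restr β R = G β})
    {C : BooleanSubalgebra (Set (Ω × ℕ))} (hC : C ≤ Bal S)
    (hCu : ¬ (C : Set (Set (Ω × ℕ))).Countable) :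
    ∃ γ : Ω, ∀ x : Ω × ℕ, γ ≤ x.1 → ∀ w, (x, w) ∈ Rel r C → w = some x := by
  by_contra hcon
  push Not at hcon
  have h1 : ∀ γ : Ω, ∃ p ∈ Rel r C, p.2 ≠ some p.1 ∧ γ < p.1.1 := by
    intro γ
    obtain ⟨γ', hγ'⟩ := hb.exists_gt γ
    obtain ⟨x, hx, w, hw, hne⟩ := hcon γ'
    exact ⟨(x, w), hw, hne, hγ'.trans_le hx⟩
  have h2 : ∀ γ : Ω, ∃ b : Ω, ∃ p ∈ Rel r C, p.2 ≠ some p.1 ∧ γ < p.1.1 ∧ p.1.1 < b ∧
      ∀ z ∈ p.2, z.1 < b := by
    intro γ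
    obtain ⟨p, hp, h3, h4⟩ := h1 γ
    rcases hpp : p.2 with _ | z
    · obtain ⟨b, hb'⟩ := hb.exists_gt p.1.1
      exact ⟨b, p, hp, h3, h4, hb', by rw [hpp]; simp⟩
    · obtain ⟨b, hb'⟩ := hb.exists_gt (max p.1.1 z.1)
      refine ⟨b, p, hp, h3, h4, (le_max_left _ _).trans_lt hb', ?_⟩
      intro z' hz'
      rw [hpp] at hz'
      have : z = z' := by simpa using hz'
      rw [← this]
      exact (le_max_right _ _).trans_lt hb'
  choose f hf using h2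
  obtain ⟨α, h3, ⟨γ0, hγ0⟩, h5⟩ := hst (Rel r C) (club_closure hb f)
  have h3' : restr α (Rel r C) = G α := h3
  have hsub : G α ⊆ Rel r C := by
    rw [← h3']
    exact fun p hp => hp.1
  have hunb : Unb α (G α) := by
    intro γ hγ
    obtain ⟨p, hp, h6, h7, h8, h9⟩ := hf γ
    refine ⟨p, ?_, h6, h7⟩
    rw [← h3']
    exact ⟨hp, h8.trans_le (h5 γ hγ), fun z hz => (h9 z hz).trans_le (h5 γ hγ)⟩
  have hk := (hreq α).2.2.2 ⟨γ0, hγ0⟩ hunb
  exact hCu (countable_of_kill hb S hC hsub (hG α) hk)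

theorem exists_odd_level (hb : Big Ω) (S : Sys r univ) (hreq : ∀ α, Req G α r (r α))
    (hG : ∀ β, Low β (G β)) (hst : ∀ R : Gs Ω, IsStationary {β | restr β R = G β})
    {C : BooleanSubalgebra (Set (Ω × ℕ))} (hC : C ≤ Bal S)
    (hCu : ¬ (C : Set (Set (Ω × ℕ))).Countable) :
    ∃ β : Ω, ∀ α, β ≤ α → ∀ᶠ n in atTop, Odd n → K r (α, n) ∈ C := by
  obtain ⟨γ, hγ⟩ := exists_sep_level hb S hreq hG hst hC hCu
  obtain ⟨β, h3, ⟨γ0, hγ0⟩, h5⟩ := hst (Rel r C) (club_closure hb (fun _ => γ))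
  have hγβ : γ ≤ β := h5 γ0 hγ0
  have h3' : restr β (Rel r C) = G β := h3
  refine ⟨β, fun α hα => ?_⟩
  have hsub : G β ⊆ Rel r C := by
    rw [← h3']
    exact fun p hp => hp.1
  have hbc : Bc (r α) (G β) := by
    rcases (hreq α).2.2.1 β hα with hk | hk
    · exact absurd (countable_of_kill hb S hC hsub ((hG β).mono hα) hk) hCu
    · exact hk
  unfold Bc at hbc
  filter_upwards [hbc] with n hn hodd
  apply sat_mem hb S hC (Cp.of_K (mem_univ _))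
  intro x hx w hw
  by_cases hwx : w = some x
  · exact ⟨x, hx, hwx⟩
  have hxγ : x.1 < γ := by
    by_contra hcon
    exact hwx (hγ x (not_lt.1 hcon) w hw)
  have hlow : ∀ z ∈ w, z.1 < β := by
    intro z hz
    by_contra hcon
    have hz' : w = some z := hz
    rw [hz'] at hw hwx
    have := hγ z (hγβ.trans (not_lt.1 hcon)) _ (Rel.symm hw)
    exact hwx this.symm
  have hmem : (x, w) ∈ G β := by
    rw [← h3']
    exact ⟨hw, hxγ.trans_le hγβ, hlow⟩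
  obtain ⟨y, hy, h6⟩ := hn hodd _ hmem hx.2
  exact ⟨y, ⟨((hlow y hy).trans_le hα).le, h6⟩, hy⟩

end

end H85
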