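import Mathlib

set_option autoImplicit false

namespace H85

open Set

universe u v

/-! ### Ideals, and the Cantor-Bendixson filtration of a Boolean algebra relative to an ideal -/

section Rank
variable {A : Type v} [GeneralizedBooleanAlgebra A]

/-- `I` is an ideal (as a set). -/
structure IsIdl (I : Set A) : Prop where
  bot_mem : ⊥ ∈ I
  lower : ∀ {a b : A}, a ≤ b → b ∈ I → a ∈ I
  sup_mem : ∀ {a b : A}, a ∈ I → b ∈ I → a ⊔ b ∈ I

/-- at most `n` pairwise disjoint elements outside `I` below `a`. -/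
def Few (I : Set A) (n : ℕ) (a : A) : Prop :=
  ∀ s : Finset A, (∀ x ∈ s, x ≤ a ∧ x ∉ I) → (s : Set A).PairwiseDisjoint id → s.card ≤ n

theorem Few.mono_n {I : Set A} {n m : ℕ} {a : A} (h : Few I n a) (hnm : n ≤ m) : Few I m a :=
  fun s hs hd => (h s hs hd).trans hnm

theorem Few.mono_a {I : Set A} {n : ℕ} {a b : A} (h : Few I n b) (hab : a ≤ b) : Few I n a :=
  fun s hs hd => h s (fun x hx => ⟨(hs x hx).1.trans hab, (hs x hx).2⟩) hd

theorem Few.mono_I {I I' : Set A} {n : ℕ} {a : A} (h : Few I n a) (hI : I ⊆ I') : Few I' n a :=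
  fun s hs hd => h s (fun x hx => ⟨(hs x hx).1, fun h' => (hs x hx).2 (hI h')⟩) hd

theorem few_zero {I : Set A} (hI : IsIdl I) {a : A} : Few I 0 a ↔ a ∈ I := by
  constructor
  · intro h
    by_contra ha
    have := h {a} (by simpa using ha) (by simp)
    simp at this
  · intro ha s hs _
    rw [Nat.le_zero, Finset.card_eq_zero, Finset.eq_empty_iff_forall_notMem]
    intro x hx
    exact (hs x hx).2 (hI.lower (hs x hx).1 ha)

theorem Few.sup {I : Set A} (hI : IsIdl I) {n m : ℕ} {a b : A} (ha : Few I n a) (hb : Few I m b) :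
    Few I (n + m) (a ⊔ b) := by
  classical
  intro s hs hd
  have key : ∀ (c : A) (k : ℕ), Few I k c → (s.filter (fun x => x ⊓ c ∉ I)).card ≤ k := by
    intro c k hc
    have hinj : Set.InjOn (fun x => x ⊓ c) ((s.filter (fun x => x ⊓ c ∉ I) : Finset A) : Set A) := by
      intro x hx y hy hxy
      by_contra hne
      have hx' := Finset.mem_filter.1 (Finset.mem_coe.1 hx)
      have hy' := Finset.mem_filter.1 (Finset.mem_coe.1 hy)
      have hdis : Disjoint x y := hd hx'.1 hy'.1 hne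
      apply hx'.2
      have : x ⊓ c ≤ x ⊓ y := le_inf inf_le_left (by
        have : x ⊓ c = y ⊓ c := hxy
        rw [this]; exact inf_le_left)
      rw [hdis.eq_bot] at this
      exact hI.lower this hI.bot_mem
    rw [← Finset.card_image_of_injOn hinj]
    apply hc
    · intro z hz
      obtain ⟨x, hx, rfl⟩ := Finset.mem_image.1 hz
      exact ⟨inf_le_right, (Finset.mem_filter.1 hx).2⟩
    · intro z hz w hw hzw
      obtain ⟨x, hx, rfl⟩ := Finset.mem_image.1 (Finset.mem_coe.1 hz)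
      obtain ⟨y, hy, rfl⟩ := Finset.mem_image.1 (Finset.mem_coe.1 hw)
      have hne : x ≠ y := fun h => hzw (by rw [h])
      have hdis : Disjoint x y := hd (Finset.mem_filter.1 hx).1 (Finset.mem_filter.1 hy).1 hne
      exact hdis.mono inf_le_left inf_le_left
  have hsub : s ⊆ s.filter (fun x => x ⊓ a ∉ I) ∪ s.filter (fun x => x ⊓ b ∉ I) := by
    intro x hx
    rw [Finset.mem_union, Finset.mem_filter, Finset.mem_filter]
    by_contra hcon
    push Not at hcon
    have h1 := hcon.1 hx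
    have h2 := hcon.2 hx
    apply (hs x hx).2
    have : x ≤ (x ⊓ a) ⊔ (x ⊓ b) := by
      rw [← inf_sup_left]; exact le_inf le_rfl (hs x hx).1
    exact hI.lower this (hI.sup_mem h1 h2)
  calc s.card ≤ _ := Finset.card_le_card hsub
    _ ≤ _ := Finset.card_union_le _ _
    _ ≤ n + m := add_le_add (key a n ha) (key b m hb)

/-- The Cantor-Bendixson filtration above `J`. -/
def cb (J : Set A) (ξ : Ordinal.{u}) : Set A :=
  {a | a ∈ J ∨ ∃ η, ∃ _ : η < ξ, ∃ n, Few (cb J η) n a}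
termination_by ξ

theorem mem_cb {J : Set A} {ξ : Ordinal.{u}} {a : A} :
    a ∈ cb J ξ ↔ a ∈ J ∨ ∃ η < ξ, ∃ n, Few (cb J η) n a := by
  rw [cb]; simp

theorem cb_mono {J : Set A} {ξ η : Ordinal.{u}} (h : ξ ≤ η) : cb J ξ ⊆ cb J η := by
  intro a ha
  rw [mem_cb] at ha ⊢
  rcases ha with ha | ⟨ζ, hζ, n, hn⟩
  · exact Or.inl ha
  · exact Or.inr ⟨ζ, hζ.trans_le h, n, hn⟩

theorem subset_cb {J : Set A} {ξ : Ordinal.{u}} : J ⊆ cb J ξ := fun _ ha => mem_cb.2 (Or.inl ha)

theorem Few.mem_cb {J : Set A} {ξ η : Ordinal.{u}} {n : ℕ} {a : A} (h : Few (cb J η) n a)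
    (hη : η < ξ) : a ∈ cb J ξ := H85.mem_cb.2 (Or.inr ⟨η, hη, n, h⟩)

theorem isIdl_cb {J : Set A} (hJ : IsIdl J) (ξ : Ordinal.{u}) : IsIdl (cb J ξ) := by
  induction ξ using WellFoundedLT.induction with
  | ind ξ ih =>
    refine ⟨subset_cb hJ.bot_mem, ?_, ?_⟩
    · intro a b hab hb
      rw [mem_cb] at hb ⊢
      rcases hb with hb | ⟨η, hη, n, hn⟩
      · exact Or.inl (hJ.lower hab hb)
      · exact Or.inr ⟨η, hη, n, hn.mono_a hab⟩
    · intro a b ha hb
      rw [mem_cb] at ha hb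
      rcases ha with ha | ⟨η, hη, n, hn⟩
      · rcases hb with hb | ⟨ζ, hζ, m, hm⟩
        · exact subset_cb (hJ.sup_mem ha hb)
        · have : Few (cb J ζ) 0 a := (few_zero (ih ζ hζ)).2 (subset_cb ha)
          exact (this.sup (ih ζ hζ) hm).mem_cb hζ
      · rcases hb with hb | ⟨ζ, hζ, m, hm⟩
        · have : Few (cb J η) 0 b := (few_zero (ih η hη)).2 (subset_cb hb)
          exact (hn.sup (ih η hη) this).mem_cb hη
        · rcases le_total η ζ with h | h
          · have hn' : Few (cb J ζ) n a := hn.mono_I (cb_mono h)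
            exact (hn'.sup (ih ζ hζ) hm).mem_cb hζ
          · have hm' : Few (cb J η) m b := hm.mono_I (cb_mono h)
            exact (hn.sup (ih η hη) hm').mem_cb hη

/-- `a` has exactly `n` disjoint pieces outside `cb J ξ`. -/
def Typ (J : Set A) (ξ : Ordinal.{u}) (n : ℕ) (a : A) : Prop :=
  Few (cb J ξ) n a ∧ ∀ m < n, ¬ Few (cb J ξ) m a

theorem Typ.unique {J : Set A} {ξ : Ordinal.{u}} {n m : ℕ} {a : A} (h : Typ J ξ n a)
    (h' : Typ J ξ m a) : n = m := by
  rcases lt_trichotomy n m with hl | he | hl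
  · exact absurd h.1 (h'.2 n hl)
  · exact he
  · exact absurd h'.1 (h.2 m hl)

theorem exists_typ {J : Set A} {ξ : Ordinal.{u}} {n : ℕ} {a : A} (h : Few (cb J ξ) n a) :
    ∃ m ≤ n, Typ J ξ m a := by
  classical
  have hex : ∃ m, Few (cb J ξ) m a := ⟨n, h⟩
  exact ⟨Nat.find hex, Nat.find_min' hex h, Nat.find_spec hex, fun m hm => Nat.find_min hex hm⟩

theorem typ_zero {J : Set A} (hJ : IsIdl J) {ξ : Ordinal.{u}} {a : A} :
    Typ J ξ 0 a ↔ a ∈ cb J ξ :=
  ⟨fun h => (few_zero (isIdl_cb hJ ξ)).1 h.1,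
   fun h => ⟨(few_zero (isIdl_cb hJ ξ)).2 h, fun m hm => absurd hm (Nat.not_lt_zero m)⟩⟩

theorem Typ.not_mem {J : Set A} (hJ : IsIdl J) {ξ : Ordinal.{u}} {n : ℕ} {a : A}
    (h : Typ J ξ n a) (hn : 1 ≤ n) : a ∉ cb J ξ := fun ha => by
  have := h.unique ((typ_zero hJ).2 ha)
  omega

theorem Typ.mem_succ {J : Set A} {ξ η : Ordinal.{u}} {n : ℕ} {a : A}
    (h : Typ J ξ n a) (hη : ξ < η) : a ∈ cb J η := h.1.mem_cb hη

theorem Typ.exists_finset {J : Set A} {ξ : Ordinal.{u}} {n : ℕ} {a : A}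
    (h : Typ J ξ n a) : ∃ s : Finset A, s.card = n ∧ (∀ x ∈ s, x ≤ a ∧ x ∉ cb J ξ) ∧
      (s : Set A).PairwiseDisjoint id := by
  rcases Nat.eq_zero_or_pos n with rfl | hn
  · exact ⟨∅, rfl, by simp, by simp⟩
  · have h1 := h.2 (n - 1) (by omega)
    unfold Few at h1
    push Not at h1
    obtain ⟨s, hs, hd, hc⟩ := h1
    obtain ⟨t, hts, htc⟩ := Finset.exists_subset_card_eq (show n ≤ s.card by omega)
    exact ⟨t, htc, fun x hx => hs x (hts hx), hd.subset (Finset.coe_subset.2 hts)⟩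

theorem card_le_of_typ {J : Set A} {ξ : Ordinal.{u}} {n : ℕ} {a : A}
    (h : Typ J ξ n a) {s : Finset A} (hs : ∀ x ∈ s, x ≤ a ∧ x ∉ cb J ξ)
    (hd : (s : Set A).PairwiseDisjoint id) : s.card ≤ n := h.1 s hs hd

theorem Typ.sup {J : Set A} (hJ : IsIdl J) {ξ : Ordinal.{u}} {n m : ℕ} {a b : A}
    (ha : Typ J ξ n a) (hb : Typ J ξ m b) (hab : Disjoint a b) : Typ J ξ (n + m) (a ⊔ b) := by
  classical
  refine ⟨ha.1.sup (isIdl_cb hJ ξ) hb.1, ?_⟩
  intro k hk hf
  obtain ⟨s, hsc, hs, hsd⟩ := ha.exists_finset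
  obtain ⟨t, htc, ht, htd⟩ := hb.exists_finset
  have hdis : Disjoint s t := by
    rw [Finset.disjoint_left]
    intro x hx hx'
    apply (hs x hx).2
    have : x ≤ ⊥ := hab (hs x hx).1 (ht x hx').1
    exact (isIdl_cb hJ ξ).lower this (isIdl_cb hJ ξ).bot_mem
  have hcard := hf (s ∪ t) (by
    intro x hx
    rcases Finset.mem_union.1 hx with h | h
    · exact ⟨(hs x h).1.trans le_sup_left, (hs x h).2⟩
    · exact ⟨(ht x h).1.trans le_sup_right, (ht x h).2⟩) (by
    intro x hx y hy hxy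
    rw [Finset.coe_union] at hx hy
    rcases hx with hx | hx <;> rcases hy with hy | hy
    · exact hsd hx hy hxy
    · exact hab.mono (hs x hx).1 (ht y hy).1
    · exact (hab.mono (hs y hy).1 (ht x hx).1).symm
    · exact htd hx hy hxy)
  rw [Finset.card_union_of_disjoint hdis] at hcard
  omega

theorem Typ.split_of_le {J : Set A} (hJ : IsIdl J) {ξ : Ordinal.{u}} {N : ℕ} {a b : A}
    (ha : Typ J ξ N a) (hb : b ≤ a) : ∃ n m, Typ J ξ n b ∧ Typ J ξ m (a \ b) ∧ n + m = N := by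
  obtain ⟨n, _, hn⟩ := exists_typ (ha.1.mono_a hb)
  obtain ⟨m, _, hm⟩ := exists_typ (ha.1.mono_a (sdiff_le : a \ b ≤ a))
  refine ⟨n, m, hn, hm, ?_⟩
  have := hn.sup hJ hm disjoint_sdiff_self_right
  rw [sup_sdiff_cancel_right hb] at this
  exact this.unique ha

theorem Typ.exists_split {J : Set A} (hJ : IsIdl J) {ξ : Ordinal.{u}} {n m : ℕ} {a : A}
    (ha : Typ J ξ (n + m) a) : ∃ b ≤ a, Typ J ξ n b ∧ Typ J ξ m (a \ b) := by
  classical
  obtain ⟨s, hsc, hs, hsd⟩ := ha.exists_finset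
  obtain ⟨t, hts, htc⟩ := Finset.exists_subset_card_eq (show n ≤ s.card by omega)
  have hba : t.sup id ≤ a := Finset.sup_le fun x hx => (hs x (hts hx)).1
  refine ⟨t.sup id, hba, ?_⟩
  obtain ⟨n', m', hn', hm', he⟩ := ha.split_of_le hJ hba
  have h1 : n ≤ n' := by
    rw [← htc]
    exact card_le_of_typ hn' (fun x hx => ⟨Finset.le_sup (f := id) hx, (hs x (hts hx)).2⟩)
      (hsd.subset (Finset.coe_subset.2 hts))
  have h2 : m ≤ m' := by
    have hc : (s \ t).card = m := by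
      rw [Finset.card_sdiff_of_subset hts]; omega
    rw [← hc]
    refine card_le_of_typ hm' (fun x hx => ⟨?_, (hs x (Finset.mem_sdiff.1 hx).1).2⟩)
      (hsd.subset (Finset.coe_subset.2 Finset.sdiff_subset))
    have hx' := Finset.mem_sdiff.1 hx
    apply le_sdiff.2
    refine ⟨(hs x hx'.1).1, ?_⟩
    rw [Finset.disjoint_sup_right]
    intro y hy
    exact hsd (Finset.mem_coe.2 hx'.1) (Finset.mem_coe.2 (hts hy)) (fun h => hx'.2 (h ▸ hy))
  have e1 : n = n' := by omega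
  have e2 : m = m' := by omega
  subst e1; subst e2
  exact ⟨hn', hm'⟩

/-- If `c` is ranked and is not in `cb J η`, it has an element of type `(η,1)` below it. -/
theorem exists_typ_one {J : Set A} (hJ : IsIdl J) {η : Ordinal.{u}} :
    ∀ ζ : Ordinal.{u}, ∀ c : A, c ∈ cb J ζ → c ∉ cb J η → ∃ t ≤ c, Typ J η 1 t := by
  intro ζ
  induction ζ using WellFoundedLT.induction with
  | ind ζ ih =>
    intro c hc hcη
    by_cases hf : ∃ n, Few (cb J η) n c
    · obtain ⟨n, hn⟩ := hf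
      obtain ⟨m, _, hm⟩ := exists_typ hn
      have hm1 : 1 ≤ m := by
        rcases Nat.eq_zero_or_pos m with rfl | h
        · exact absurd ((typ_zero hJ).1 hm) hcη
        · exact h
      obtain ⟨k, rfl⟩ : ∃ k, m = 1 + k := ⟨m - 1, by omega⟩
      obtain ⟨b, hb, hb1, _⟩ := hm.exists_split hJ
      exact ⟨b, hb, hb1⟩
    · rw [mem_cb] at hc
      rcases hc with hc | ⟨ζ', hζ', N, hN⟩
      · exact absurd (subset_cb hc) hcη
      · push Not at hf
        have h1 := hf N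
        unfold Few at h1
        push Not at h1
        obtain ⟨s, hs, hd, hcard⟩ := h1
        have : ∃ x ∈ s, x ∈ cb J ζ' := by
          by_contra hcon
          push Not at hcon
          have := hN s (fun x hx => ⟨(hs x hx).1, hcon x hx⟩) hd
          omega
        obtain ⟨x, hx, hxζ⟩ := this
        obtain ⟨t, ht, ht1⟩ := ih ζ' hζ' x hxζ (hs x hx).2
        exact ⟨t, ht.trans (hs x hx).1, ht1⟩

theorem exists_typ_of_finset {J : Set A} (hJ : IsIdl J) {η ζ : Ordinal.{u}} {a : A}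
    (ha : a ∈ cb J ζ) (s : Finset A) (hs : ∀ x ∈ s, x ≤ a ∧ x ∉ cb J η)
    (hd : (s : Set A).PairwiseDisjoint id) : ∃ b ≤ s.sup id, Typ J η s.card b := by
  classical
  induction s using Finset.induction_on with
  | empty => exact ⟨⊥, bot_le, (typ_zero hJ).2 (isIdl_cb hJ η).bot_mem⟩
  | insert x s hx ih =>
    obtain ⟨b, hb, hbt⟩ := ih (fun y hy => hs y (Finset.mem_insert_of_mem hy))
      (hd.subset (by simp))
    have hx' := hs x (Finset.mem_insert_self x s)
    obtain ⟨t, ht, ht1⟩ := exists_typ_one hJ ζ x ((isIdl_cb hJ ζ).lower hx'.1 ha) hx'.2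
    refine ⟨t ⊔ b, ?_, ?_⟩
    · rw [Finset.sup_insert]
      exact sup_le_sup ht hb
    · rw [Finset.card_insert_of_notMem hx, add_comm]
      apply ht1.sup hJ hbt
      have : Disjoint x (s.sup id) := by
        rw [Finset.disjoint_sup_right]
        intro y hy
        exact hd (by simp) (by simp [hy]) (fun h => hx (h ▸ hy))
      exact this.mono ht hb

theorem exists_typ_lower {J : Set A} (hJ : IsIdl J) {η ζ : Ordinal.{u}} {a : A}
    (ha : a ∈ cb J ζ) (hna : ∀ n, ¬ Few (cb J η) n a) (k : ℕ) : ∃ b ≤ a, Typ J η k b := by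
  have h1 := hna k
  unfold Few at h1
  push Not at h1
  obtain ⟨s, hs, hd, hc⟩ := h1
  obtain ⟨t, hts, htc⟩ := Finset.exists_subset_card_eq hc.le
  obtain ⟨b, hb, hbt⟩ := exists_typ_of_finset hJ ha t (fun x hx => hs x (hts hx))
    (hd.subset (Finset.coe_subset.2 hts))
  rw [htc] at hbt
  exact ⟨b, hb.trans (Finset.sup_le fun x hx => (hs x (hts hx)).1), hbt⟩

theorem not_few_of_lt {J : Set A} (hJ : IsIdl J) {η ξ : Ordinal.{u}} {n : ℕ} {a : A}
    (ha : Typ J ξ n a) (hn : 1 ≤ n) (h : η < ξ) (k : ℕ) : ¬ Few (cb J η) k a := fun hf =>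
  ha.not_mem hJ hn (hf.mem_cb h)

/-- Every ranked element outside `J` has a type. -/
theorem exists_type {J : Set A} (hJ : IsIdl J) {ζ : Ordinal.{u}} {a : A}
    (ha : a ∈ cb J ζ) (haJ : a ∉ J) : ∃ ξ < ζ, ∃ n, 1 ≤ n ∧ Typ J ξ n a := by
  rw [mem_cb] at ha
  rcases ha with ha | hex
  · exact absurd ha haJ
  · have hex' : ∃ η : Ordinal.{u}, ∃ n, Few (cb J η) n a := by
      obtain ⟨η, _, n, hn⟩ := hex; exact ⟨η, n, hn⟩
    obtain ⟨η, ⟨n, hn⟩, hmin⟩ := WellFounded.has_min (r := (· < ·)) Ordinal.lt_wf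
      {η : Ordinal.{u} | ∃ n, Few (cb J η) n a} hex'
    obtain ⟨m, _, hm⟩ := exists_typ hn
    refine ⟨η, ?_, m, ?_, hm⟩
    · obtain ⟨η', hη', n', hn'⟩ := hex
      exact lt_of_le_of_lt (not_lt.1 (hmin η' ⟨n', hn'⟩)) hη'
    · rcases Nat.eq_zero_or_pos m with rfl | h
      · exfalso
        have := (typ_zero hJ).1 hm
        rw [mem_cb] at this
        rcases this with h | ⟨θ, hθ, k, hk⟩
        · exact haJ h
        · exact hmin θ ⟨k, hk⟩ hθ
      · exact h

theorem typ_rank_unique {J : Set A} (hJ : IsIdl J) {ξ η : Ordinal.{u}} {n m : ℕ} {a : A}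
    (h : Typ J ξ n a) (hn : 1 ≤ n) (h' : Typ J η m a) (hm : 1 ≤ m) : ξ = η ∧ n = m := by
  rcases lt_trichotomy ξ η with hl | he | hl
  · exact absurd h.1 (not_few_of_lt hJ h' hm hl n)
  · subst he; exact ⟨rfl, h.unique h'⟩
  · exact absurd h'.1 (not_few_of_lt hJ h hn hl m)

end Rank

end H85
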