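import Mathlib
import Pool.Agent.H85.Rank

set_option autoImplicit false

namespace H85

open Set

universe u v w

section Same
variable {A : Type v} {A' : Type w} [GeneralizedBooleanAlgebra A] [GeneralizedBooleanAlgebra A']

/-- same Cantor-Bendixson type relative to the ideals. -/
def SameTyp (J : Set A) (J' : Set A') (a : A) (a' : A') : Prop :=
  (a ∈ J ∧ a' ∈ J') ∨ ∃ ξ : Ordinal.{u}, ∃ n, 1 ≤ n ∧ Typ J ξ n a ∧ Typ J' ξ n a'

theorem SameTyp.symm {J : Set A} {J' : Set A'} {a : A} {a' : A'}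
    (h : SameTyp.{u} J J' a a') : SameTyp.{u} J' J a' a := by
  rcases h with ⟨h1, h2⟩ | ⟨ξ, n, hn, h1, h2⟩
  · exact Or.inl ⟨h2, h1⟩
  · exact Or.inr ⟨ξ, n, hn, h2, h1⟩

theorem SameTyp.mem_iff {J : Set A} {J' : Set A'} (hJ : IsIdl J) (hJ' : IsIdl J') {a : A} {a' : A'}
    (h : SameTyp.{u} J J' a a') : a ∈ J ↔ a' ∈ J' := by
  rcases h with ⟨h1, h2⟩ | ⟨ξ, n, hn, h1, h2⟩
  · exact ⟨fun _ => h2, fun _ => h1⟩
  · exact ⟨fun h => absurd (subset_cb h) (h1.not_mem hJ hn),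
      fun h => absurd (subset_cb h) (h2.not_mem hJ' hn)⟩

theorem small_piece {J : Set A} {J' : Set A'} (hJ : IsIdl J) (hJ' : IsIdl J') {ζ' ξ : Ordinal.{u}}
    {n : ℕ} (hn : 1 ≤ n) {a' : A'} (ha' : a' ∈ cb J' ζ') (h' : Typ J' ξ n a') {c : A}
    (hc : c ∈ cb J ξ) : ∃ c' ≤ a', SameTyp.{u} J J' c c' ∧ Typ J' ξ n (a' \ c') := by
  by_cases hcJ : c ∈ J
  · exact ⟨⊥, bot_le, Or.inl ⟨hcJ, hJ'.bot_mem⟩, by simpa using h'⟩
  · obtain ⟨η, hη, k, hk, hck⟩ := exists_type hJ hc hcJ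
    obtain ⟨c', hc', hck'⟩ := exists_typ_lower hJ' (η := η) ha' (not_few_of_lt hJ' h' hn hη) k
    refine ⟨c', hc', Or.inr ⟨η, k, hk, hck, hck'⟩, ?_⟩
    obtain ⟨n1, n2, h1, h2, he⟩ := h'.split_of_le hJ' hc'
    have : n1 = 0 := h1.unique ((typ_zero hJ').2 (hck'.mem_succ hη))
    subst this
    rw [zero_add] at he
    subst he
    exact h2

theorem SameTyp.split {J : Set A} {J' : Set A'} (hJ : IsIdl J) (hJ' : IsIdl J') {ζ' : Ordinal.{u}}
    {a : A} {a' : A'} (ha' : a' ∈ cb J' ζ')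
    (h : SameTyp.{u} J J' a a') {b : A} (hb : b ≤ a) :
    ∃ b' ≤ a', SameTyp.{u} J J' b b' ∧ SameTyp.{u} J J' (a \ b) (a' \ b') := by
  rcases h with ⟨h1, h2⟩ | ⟨ξ, n, hn, h1, h2⟩
  · refine ⟨a', le_rfl, Or.inl ⟨hJ.lower hb h1, h2⟩, Or.inl ⟨hJ.lower sdiff_le h1, ?_⟩⟩
    rw [_root_.sdiff_self]; exact hJ'.bot_mem
  · obtain ⟨n1, n2, h3, h4, he⟩ := h1.split_of_le hJ hb
    rcases Nat.eq_zero_or_pos n1 with rfl | hn1
    · obtain ⟨b', hb', hs, ht⟩ := small_piece (J := J) hJ hJ' hn ha' h2 ((typ_zero hJ).1 h3)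
      rw [zero_add] at he
      subst he
      exact ⟨b', hb', hs, Or.inr ⟨ξ, n2, hn, h4, ht⟩⟩
    · rcases Nat.eq_zero_or_pos n2 with rfl | hn2
      · obtain ⟨c', hc', hs, ht⟩ := small_piece (J := J) hJ hJ' hn ha' h2 ((typ_zero hJ).1 h4)
        rw [add_zero] at he
        subst he
        refine ⟨a' \ c', sdiff_le, Or.inr ⟨ξ, n1, hn, h3, ht⟩, ?_⟩
        rw [_root_.sdiff_sdiff_right_self, inf_eq_right.2 hc']
        exact hs
      · subst he
        obtain ⟨b', hb', h5, h6⟩ := h2.exists_split hJ'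
        exact ⟨b', hb', Or.inr ⟨ξ, n1, hn1, h3, h5⟩, Or.inr ⟨ξ, n2, hn2, h4, h6⟩⟩

end Same

/-! ### Back and forth -/
section BF
variable {A : Type v} {A' : Type w} [GeneralizedBooleanAlgebra A] [GeneralizedBooleanAlgebra A']

/-- Finite partial isomorphism: matching finite partitions of `a` and `a'`. -/
structure PI (T : A → A' → Prop) (a : A) (a' : A') (l : Finset (A × A')) : Prop where
  typ : ∀ p ∈ l, T p.1 p.2
  pw : (l : Set (A × A')).Pairwise (fun p q => Disjoint p.1 q.1 ∧ Disjoint p.2 q.2)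
  sup_fst : l.sup Prod.fst = a
  sup_snd : l.sup Prod.snd = a'

def Ref (l l' : Finset (A × A')) : Prop := ∀ p ∈ l', ∃ q ∈ l, p.1 ≤ q.1 ∧ p.2 ≤ q.2

theorem Ref.trans {l l' l'' : Finset (A × A')} (h : Ref l l') (h' : Ref l' l'') : Ref l l'' := by
  intro p hp
  obtain ⟨q, hq, h1, h2⟩ := h' p hp
  obtain ⟨r, hr, h3, h4⟩ := h q hq
  exact ⟨r, hr, h1.trans h3, h2.trans h4⟩

theorem Ref.rfl {l : Finset (A × A')} : Ref l l := fun p hp => ⟨p, hp, le_rfl, le_rfl⟩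

theorem refine_left {T : A → A' → Prop}
    (hs : ∀ u u', T u u' → ∀ b ≤ u, ∃ b' ≤ u', T b b' ∧ T (u \ b) (u' \ b')) (b : A) :
    ∀ (l : Finset (A × A')) (a : A) (a' : A'), PI T a a' l →
      ∃ l', PI T a a' l' ∧ Ref l l' ∧ ∀ p ∈ l', p.1 ≤ b ∨ Disjoint p.1 b := by
  classical
  intro l
  induction l using Finset.induction_on with
  | empty =>
    intro a a' h
    exact ⟨∅, h, Ref.rfl, by simp⟩
  | insert p l hp ih =>
    intro a a' h
    have hl : PI T (l.sup Prod.fst) (l.sup Prod.snd) l :=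
      ⟨fun q hq => h.typ q (Finset.mem_insert_of_mem hq), h.pw.mono (by simp), _root_.rfl, _root_.rfl⟩
    obtain ⟨l', hl', href, hdec⟩ := ih _ _ hl
    obtain ⟨w, hw, h1, h2⟩ := hs p.1 p.2 (h.typ p (Finset.mem_insert_self p l)) (p.1 ⊓ b) inf_le_left
    have hdis : ∀ q ∈ l', Disjoint p.1 q.1 ∧ Disjoint p.2 q.2 := by
      intro q hq
      obtain ⟨r, hr, h3, h4⟩ := href q hq
      have := h.pw (show p ∈ ((insert p l : Finset _) : Set (A × A')) by simp)
        (show r ∈ ((insert p l : Finset _) : Set (A × A')) by simp [hr]) (fun h => hp (h ▸ hr))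
      exact ⟨this.1.mono_right h3, this.2.mono_right h4⟩
    refine ⟨insert (p.1 ⊓ b, w) (insert (p.1 \ (p.1 ⊓ b), p.2 \ w) l'), ⟨?_, ?_, ?_, ?_⟩, ?_, ?_⟩
    · intro q hq
      rw [Finset.mem_insert, Finset.mem_insert] at hq
      rcases hq with rfl | rfl | hq
      · exact h1
      · exact h2
      · exact hl'.typ q hq
    · haveI hsymm : Std.Symm (fun p q : A × A' => Disjoint p.1 q.1 ∧ Disjoint p.2 q.2) :=
        ⟨fun p q h => ⟨h.1.symm, h.2.symm⟩⟩
      rw [Finset.coe_insert, Finset.coe_insert, Set.pairwise_insert_of_symm,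
        Set.pairwise_insert_of_symm]
      refine ⟨⟨hl'.pw, ?_⟩, ?_⟩
      · intro q hq _
        have := hdis q hq
        exact ⟨this.1.mono_left sdiff_le, this.2.mono_left sdiff_le⟩
      · intro q hq _
        rcases hq with rfl | hq
        · exact ⟨disjoint_sdiff_self_right, disjoint_sdiff_self_right⟩
        · have := hdis q hq
          exact ⟨this.1.mono_left inf_le_left, this.2.mono_left hw⟩
    · rw [Finset.sup_insert, Finset.sup_insert, hl'.sup_fst, ← sup_assoc,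
        sup_sdiff_cancel_right inf_le_left, ← h.sup_fst, Finset.sup_insert]
    · rw [Finset.sup_insert, Finset.sup_insert, hl'.sup_snd, ← sup_assoc,
        sup_sdiff_cancel_right hw, ← h.sup_snd, Finset.sup_insert]
    · intro q hq
      rw [Finset.mem_insert, Finset.mem_insert] at hq
      rcases hq with rfl | rfl | hq
      · exact ⟨p, Finset.mem_insert_self p l, inf_le_left, hw⟩
      · exact ⟨p, Finset.mem_insert_self p l, sdiff_le, sdiff_le⟩
      · obtain ⟨r, hr, h3⟩ := href q hq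
        exact ⟨r, Finset.mem_insert_of_mem hr, h3⟩
    · intro q hq
      rw [Finset.mem_insert, Finset.mem_insert] at hq
      rcases hq with rfl | rfl | hq
      · exact Or.inl inf_le_right
      · right
        show Disjoint (p.1 \ (p.1 ⊓ b)) b
        rw [sdiff_inf_self_left]
        exact disjoint_sdiff_self_left
      · exact hdec q hq

theorem PI.swap {T : A → A' → Prop} {a : A} {a' : A'} [DecidableEq (A × A')] [DecidableEq (A' × A)]
    {l : Finset (A × A')} (h : PI T a a' l) :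
    PI (fun x y => T y x) a' a (l.image Prod.swap) := by
  refine ⟨?_, ?_, ?_, ?_⟩
  · intro p hp
    obtain ⟨q, hq, rfl⟩ := Finset.mem_image.1 hp
    exact h.typ q hq
  · intro p hp q hq hpq
    obtain ⟨p', hp', rfl⟩ := Finset.mem_image.1 (Finset.mem_coe.1 hp)
    obtain ⟨q', hq', rfl⟩ := Finset.mem_image.1 (Finset.mem_coe.1 hq)
    have := h.pw (Finset.mem_coe.2 hp') (Finset.mem_coe.2 hq') (fun h => hpq (by rw [h]))
    exact ⟨this.2, this.1⟩
  · rw [Finset.sup_image]; exact h.sup_snd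
  · rw [Finset.sup_image]; exact h.sup_fst

theorem refine_right {T : A → A' → Prop}
    (hs : ∀ u u', T u u' → ∀ b' ≤ u', ∃ b ≤ u, T b b' ∧ T (u \ b) (u' \ b')) (b' : A') 
    (l : Finset (A × A')) (a : A) (a' : A') (h : PI T a a' l) :
      ∃ l', PI T a a' l' ∧ Ref l l' ∧ ∀ p ∈ l', p.2 ≤ b' ∨ Disjoint p.2 b' := by
  classical
  obtain ⟨l', hl', href, hdec⟩ := refine_left (T := fun x y => T y x)
    (fun u u' hu b hb => by
      obtain ⟨c, hc, h1, h2⟩ := hs u' u hu b hb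
      exact ⟨c, hc, h1, h2⟩) b' (l.image Prod.swap) a' a h.swap
  refine ⟨l'.image Prod.swap, hl'.swap, ?_, ?_⟩
  · intro p hp
    obtain ⟨q, hq, rfl⟩ := Finset.mem_image.1 hp
    obtain ⟨r, hr, h1, h2⟩ := href q hq
    obtain ⟨s, hs, rfl⟩ := Finset.mem_image.1 hr
    exact ⟨s, hs, h2, h1⟩
  · intro p hp
    obtain ⟨q, hq, rfl⟩ := Finset.mem_image.1 hp
    exact hdec q hq

theorem IsIdl.finset_sup {J : Set A} (hJ : IsIdl J) {ι : Type*} (s : Finset ι) (f : ι → A)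
    (h : ∀ i ∈ s, f i ∈ J) : s.sup f ∈ J := by
  classical
  induction s using Finset.induction_on with
  | empty => simpa using hJ.bot_mem
  | insert i s _ ih =>
    rw [Finset.sup_insert]
    exact hJ.sup_mem (h i (Finset.mem_insert_self i s))
      (ih fun j hj => h j (Finset.mem_insert_of_mem hj))

/-- Deciding a pair. -/
def DecPair (l : Finset (A × A')) (b : A) (b' : A') : Prop :=
  ∀ p ∈ l, (p.1 ≤ b ∧ p.2 ≤ b') ∨ (Disjoint p.1 b ∧ Disjoint p.2 b')

theorem DecPair.ref {l l' : Finset (A × A')} {b : A} {b' : A'} (h : DecPair l b b')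
    (hr : Ref l l') : DecPair l' b b' := by
  intro p hp
  obtain ⟨q, hq, h1, h2⟩ := hr p hp
  rcases h q hq with h3 | h3
  · exact Or.inl ⟨h1.trans h3.1, h2.trans h3.2⟩
  · exact Or.inr ⟨h3.1.mono_left h1, h3.2.mono_left h2⟩

theorem decPair_sdiff {T : A → A' → Prop} {a : A} {a' : A'} {l : Finset (A × A')}
    (hl : PI T a a' l) {J : Set A} {J' : Set A'} (hJ : IsIdl J) (hJ' : IsIdl J')
    (hT : ∀ u u', T u u' → u ∈ J → u' ∈ J') {b c : A} {b' c' : A'} (hb' : b' ≤ a')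
    (h1 : DecPair l b b') (h2 : DecPair l c c') (h : b \ c ∈ J) : b' \ c' ∈ J' := by
  have he : b' \ c' = l.sup (fun p => (b' \ c') ⊓ p.2) := by
    rw [← Finset.sup_inf_distrib_left]
    symm
    rw [inf_eq_left]
    have : l.sup Prod.snd = a' := hl.sup_snd
    calc b' \ c' ≤ b' := sdiff_le
      _ ≤ a' := hb'
      _ = l.sup (fun p => p.2) := this.symm
  rw [he]
  apply hJ'.finset_sup
  intro p hp
  rcases h1 p hp with h3 | h3
  · rcases h2 p hp with h4 | h4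
    · have : (b' \ c') ⊓ p.2 = ⊥ := by
        apply Disjoint.eq_bot
        exact (disjoint_sdiff_self_left).mono_right h4.2
      rw [this]; exact hJ'.bot_mem
    · have : p.1 ∈ J := hJ.lower (le_sdiff.2 ⟨h3.1, h4.1⟩) h
      exact hJ'.lower inf_le_right (hT _ _ (hl.typ p hp) this)
  · have : (b' \ c') ⊓ p.2 = ⊥ := by
      apply Disjoint.eq_bot
      exact (h3.2.symm).mono_left sdiff_le
    rw [this]; exact hJ'.bot_mem

theorem exists_decPair {T : A → A' → Prop} {a : A} {a' : A'} {l : Finset (A × A')}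
    (hl : PI T a a' l) {b : A} (hb : ∀ p ∈ l, p.1 ≤ b ∨ Disjoint p.1 b) :
    ∃ b' ≤ a', DecPair l b b' := by
  classical
  refine ⟨(l.filter (fun p => p.1 ≤ b)).sup Prod.snd, ?_, ?_⟩
  · rw [← hl.sup_snd]
    exact Finset.sup_mono (Finset.filter_subset _ _)
  · intro p hp
    by_cases hpb : p.1 ≤ b
    · exact Or.inl ⟨hpb, Finset.le_sup (f := Prod.snd) (Finset.mem_filter.2 ⟨hp, hpb⟩)⟩
    · right
      refine ⟨(hb p hp).resolve_left hpb, ?_⟩
      rw [Finset.disjoint_sup_right]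
      intro q hq
      have hq' := Finset.mem_filter.1 hq
      exact (hl.pw (Finset.mem_coe.2 hp) (Finset.mem_coe.2 hq'.1)
        (fun h => hpb (h ▸ hq'.2))).2

theorem exists_decPair' {T : A → A' → Prop} {a : A} {a' : A'} {l : Finset (A × A')}
    (hl : PI T a a' l) {b' : A'} (hb : ∀ p ∈ l, p.2 ≤ b' ∨ Disjoint p.2 b') :
    ∃ b ≤ a, DecPair l b b' := by
  classical
  refine ⟨(l.filter (fun p => p.2 ≤ b')).sup Prod.fst, ?_, ?_⟩
  · rw [← hl.sup_fst]
    exact Finset.sup_mono (Finset.filter_subset _ _)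
  · intro p hp
    by_cases hpb : p.2 ≤ b'
    · exact Or.inl ⟨Finset.le_sup (f := Prod.fst) (Finset.mem_filter.2 ⟨hp, hpb⟩), hpb⟩
    · right
      refine ⟨?_, (hb p hp).resolve_left hpb⟩
      rw [Finset.disjoint_sup_right]
      intro q hq
      have hq' := Finset.mem_filter.1 hq
      exact (hl.pw (Finset.mem_coe.2 hp) (Finset.mem_coe.2 hq'.1)
        (fun h => hpb (h ▸ hq'.2))).1

/-- Vaught's theorem, in relational form. -/
theorem vaught {T : A → A' → Prop} {J : Set A} {J' : Set A'} (hJ : IsIdl J) (hJ' : IsIdl J')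
    (hs : ∀ u u', T u u' → ∀ b ≤ u, ∃ b' ≤ u', T b b' ∧ T (u \ b) (u' \ b'))
    (hs' : ∀ u u', T u u' → ∀ b' ≤ u', ∃ b ≤ u, T b b' ∧ T (u \ b) (u' \ b'))
    (hT : ∀ u u', T u u' → (u ∈ J ↔ u' ∈ J')) {a : A} {a' : A'} (haa : T a a')
    (hc : {b | b ≤ a}.Countable) (hc' : {b' | b' ≤ a'}.Countable) :
    ∃ E : A → A' → Prop, (∀ b b', E b b' → b ≤ a ∧ b' ≤ a') ∧
      (∀ b ≤ a, ∃ b', E b b') ∧ (∀ b' ≤ a', ∃ b, E b b') ∧
      (∀ b b' c c', E b b' → E c c' → (b \ c ∈ J ↔ b' \ c' ∈ J')) := by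
  obtain ⟨f, hf⟩ := hc.exists_eq_range ⟨a, le_rfl⟩
  obtain ⟨g, hg⟩ := hc'.exists_eq_range ⟨a', le_rfl⟩
  have step : ∀ (n : ℕ) (l : Finset (A × A')), PI T a a' l → ∃ l', PI T a a' l' ∧ Ref l l' ∧
      (∀ p ∈ l', p.1 ≤ f n ∨ Disjoint p.1 (f n)) ∧ (∀ p ∈ l', p.2 ≤ g n ∨ Disjoint p.2 (g n)) := by
    intro n l hl
    obtain ⟨l1, h1, hr1, hd1⟩ := refine_left hs (f n) l a a' hl
    obtain ⟨l2, h2, hr2, hd2⟩ := refine_right hs' (g n) l1 a a' h1
    refine ⟨l2, h2, hr1.trans hr2, ?_, hd2⟩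
    intro p hp
    obtain ⟨q, hq, h3, _⟩ := hr2 p hp
    rcases hd1 q hq with h5 | h5
    · exact Or.inl (h3.trans h5)
    · exact Or.inr (h5.mono_left h3)
  choose! F hF1 hF2 hF3 hF4 using step
  let L : ℕ → Finset (A × A') := fun n => Nat.rec {(a, a')} (fun n l => F n l) n
  have hL0 : PI T a a' (L 0) := by
    refine ⟨?_, ?_, ?_, ?_⟩
    · intro p hp
      have : p = (a, a') := by simpa [L] using hp
      rw [this]; exact haa
    · simp [L]
    · simp [L]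
    · simp [L]
  have hL : ∀ n, PI T a a' (L n) := by
    intro n
    induction n with
    | zero => exact hL0
    | succ n ih => exact hF1 n (L n) ih
  have hLr : ∀ n, Ref (L n) (L (n + 1)) := fun n => hF2 n (L n) (hL n)
  have hLmono : ∀ n m, n ≤ m → Ref (L n) (L m) := by
    intro n m hnm
    induction m, hnm using Nat.le_induction with
    | base => exact Ref.rfl
    | succ m _ ih => exact ih.trans (hLr m)
  refine ⟨fun b b' => b ≤ a ∧ b' ≤ a' ∧ ∃ n, DecPair (L n) b b', ?_, ?_, ?_, ?_⟩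
  · rintro b b' ⟨h1, h2, _⟩; exact ⟨h1, h2⟩
  · intro b hb
    have hb' : b ∈ range f := by rw [← hf]; exact hb
    obtain ⟨n, rfl⟩ := hb'
    obtain ⟨b', hb', hd⟩ := exists_decPair (hL (n + 1)) (b := f n) (hF3 n (L n) (hL n))
    exact ⟨b', hb, hb', n + 1, hd⟩
  · intro b' hb
    have hb' : b' ∈ range g := by rw [← hg]; exact hb
    obtain ⟨n, rfl⟩ := hb'
    obtain ⟨b, hb', hd⟩ := exists_decPair' (hL (n + 1)) (b' := g n) (hF4 n (L n) (hL n))
    exact ⟨b, hb', hb, n + 1, hd⟩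
  · rintro b b' c c' ⟨h1, h2, n, hn⟩ ⟨h3, h4, m, hm⟩
    have d1 := hn.ref (hLmono n (max n m) (le_max_left _ _))
    have d2 := hm.ref (hLmono m (max n m) (le_max_right _ _))
    constructor
    · exact decPair_sdiff (hL _) hJ hJ' (fun u u' h => (hT u u' h).1) h2 d1 d2
    · intro h
      classical
      have hsw := (hL (max n m)).swap
      refine decPair_sdiff (T := fun x y => T y x) hsw hJ' hJ (fun u u' h => (hT u' u h).2) h1
        (c := c') ?_ ?_ h
      · intro p hp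
        obtain ⟨q, hq, rfl⟩ := Finset.mem_image.1 hp
        rcases d1 q hq with h5 | h5
        · exact Or.inl ⟨h5.2, h5.1⟩
        · exact Or.inr ⟨h5.2, h5.1⟩
      · intro p hp
        obtain ⟨q, hq, rfl⟩ := Finset.mem_image.1 hp
        rcases d2 q hq with h5 | h5
        · exact Or.inl ⟨h5.2, h5.1⟩
        · exact Or.inr ⟨h5.2, h5.1⟩

/-- Classification of countable superatomic algebras, in relational form. -/
theorem classify {J : Set A} {J' : Set A'} (hJ : IsIdl J) (hJ' : IsIdl J') {ζ ζ' : Ordinal.{u}}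
    {a : A} {a' : A'} (ha : a ∈ cb J ζ) (ha' : a' ∈ cb J' ζ') (h : SameTyp.{u} J J' a a')
    (hc : {b | b ≤ a}.Countable) (hc' : {b' | b' ≤ a'}.Countable) :
    ∃ E : A → A' → Prop, (∀ b b', E b b' → b ≤ a ∧ b' ≤ a') ∧
      (∀ b ≤ a, ∃ b', E b b') ∧ (∀ b' ≤ a', ∃ b, E b b') ∧
      (∀ b b' c c', E b b' → E c c' → (b \ c ∈ J ↔ b' \ c' ∈ J')) := by
  refine vaught (T := fun u u' => u ∈ cb J ζ ∧ u' ∈ cb J' ζ' ∧ SameTyp.{u} J J' u u') hJ hJ'
    ?_ ?_ ?_ ⟨ha, ha', h⟩ hc hc'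
  · rintro u u' ⟨h1, h2, h3⟩ b hb
    obtain ⟨b', hb', h4, h5⟩ := h3.split hJ hJ' h2 hb
    exact ⟨b', hb', ⟨(isIdl_cb hJ ζ).lower hb h1, (isIdl_cb hJ' ζ').lower hb' h2, h4⟩,
      ⟨(isIdl_cb hJ ζ).lower sdiff_le h1, (isIdl_cb hJ' ζ').lower sdiff_le h2, h5⟩⟩
  · rintro u u' ⟨h1, h2, h3⟩ b' hb'
    obtain ⟨b, hb, h4, h5⟩ := h3.symm.split hJ' hJ h1 hb'
    exact ⟨b, hb, ⟨(isIdl_cb hJ ζ).lower hb h1, (isIdl_cb hJ' ζ').lower hb' h2, h4.symm⟩,
      ⟨(isIdl_cb hJ ζ).lower sdiff_le h1, (isIdl_cb hJ' ζ').lower sdiff_le h2, h5.symm⟩⟩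
  · rintro u u' ⟨_, _, h3⟩
    exact h3.mem_iff hJ hJ'

end BF

end H85
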