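import Mathlib
import Pool.Agent.H85.Guess
import Pool.Agent.H85.Vaught

set_option autoImplicit false

namespace H85

open Set Filter

variable {Ω : Type} [LinearOrder Ω] [WellFoundedLT Ω]
variable {r : Ω → Ω × ℕ → ℕ}

/-- the ordinal of an index -/
noncomputable def od (x : Ω) : Ordinal.{0} := Ordinal.typein (α := Ω) (· < ·) x

theorem od_lt {x y : Ω} : od x < od y ↔ x < y := Ordinal.typein_lt_typein (α := Ω) (· < ·)

theorem od_le {x y : Ω} : od x ≤ od y ↔ x ≤ y := by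
  rw [← not_lt, ← not_lt, od_lt]

theorem od_surj {x : Ω} {ξ : Ordinal.{0}} (h : ξ < od x) : ∃ y < x, od y = ξ := by
  obtain ⟨y, hy⟩ := Ordinal.typein_surj (α := Ω) (· < ·) (h.trans (Ordinal.typein_lt_type _ x))
  refine ⟨y, ?_, hy⟩
  rw [← od_lt]
  have : od y = ξ := hy
  rw [this]; exact h

theorem exists_od (hb : Big Ω) {ξ : Ordinal.{0}} (h : ξ.card ≤ Cardinal.aleph0) :
    ∃ y : Ω, od y = ξ := by
  have h1 : ξ < Ordinal.type (α := Ω) (· < ·) := by
    by_contra hcon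
    have h2 := Ordinal.card_le_card (not_lt.1 hcon)
    rw [Ordinal.card_type] at h2
    have h3 := hb.unc
    exact absurd (h2.trans h) (not_le.2 (Cardinal.aleph0_lt_mk_iff.2 h3))
  obtain ⟨y, hy⟩ := Ordinal.typein_surj (α := Ω) (· < ·) h1
  exact ⟨y, hy⟩

theorem card_od_le (hb : Big Ω) (x : Ω) : (od x).card ≤ Cardinal.aleph0 := by
  unfold od
  rw [Ordinal.card_typein]
  have : (Iio x).Countable := (hb.cIic x).mono Iio_subset_Iic_self
  exact Cardinal.le_aleph0_iff_set_countable.2 this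

theorem exists_absorbing (hb : Big Ω) (γ β : Ω) :
    ∃ α, β ≤ α ∧ γ ≤ α ∧ od γ + od α ≤ od α := by
  have h1 : (od (max γ β) * Ordinal.omega0).card ≤ Cardinal.aleph0 := by
    rw [Ordinal.card_mul, Ordinal.card_omega0]
    exact (mul_le_mul' (card_od_le hb _) le_rfl).trans (by simp)
  obtain ⟨α, hα⟩ := exists_od hb h1
  have h2 : od (max γ β) ≤ od α := by
    rw [hα]
    exact Ordinal.le_mul_left _ Ordinal.omega0_pos
  refine ⟨α, (le_max_right γ β).trans (od_le.1 h2), (le_max_left γ β).trans (od_le.1 h2), ?_⟩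
  calc od γ + od α ≤ od (max γ β) + od α := by
        gcongr
        exact od_le.2 (le_max_left _ _)
    _ = od α := by
        rw [hα]
        conv_lhs =>
          rw [← mul_one (od (max γ β)), mul_assoc, one_mul, ← mul_add, Ordinal.one_add_omega0]

section
variable {C : BooleanSubalgebra (Set (Ω × ℕ))}

theorem coe_disj {x y : ↥C} (h : Disjoint x y) {z : Ω × ℕ} (hx : z ∈ (x : Set (Ω × ℕ)))
    (hy : z ∈ (y : Set (Ω × ℕ))) : False := by
  have h1 := h.eq_bot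
  have h2 : ((x ⊓ y : ↥C) : Set (Ω × ℕ)) = ((⊥ : ↥C) : Set (Ω × ℕ)) := by rw [h1]
  rw [BooleanSubalgebra.val_inf, BooleanSubalgebra.val_bot] at h2
  have h3 : z ∈ (x : Set (Ω × ℕ)) ⊓ (y : Set (Ω × ℕ)) := ⟨hx, hy⟩
  rw [h2] at h3
  exact h3

theorem disj_of {x y : ↥C} (h : ∀ z, z ∈ (x : Set (Ω × ℕ)) → z ∈ (y : Set (Ω × ℕ)) → False) :
    Disjoint x y := by
  rw [disjoint_iff]
  apply Subtype.ext
  rw [BooleanSubalgebra.val_inf, BooleanSubalgebra.val_bot]
  rw [Set.bot_eq_empty, Set.eq_empty_iff_forall_notMem]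
  rintro z ⟨h1, h2⟩
  exact h z h1 h2

theorem few_of_level (S : Sys r univ) (hC : C ≤ Bal S) {J : Set ↥C} (hJ : IsIdl J) :
    ∀ δ : Ω, ∀ c : ↥C, Cp r univ (c : Set (Ω × ℕ)) → (∀ y ∈ (c : Set (Ω × ℕ)), y.1 ≤ δ) →
      ∀ t : Finset ℕ, (∀ m, (δ, m) ∈ (c : Set (Ω × ℕ)) → m ∈ t) →
      Few (cb J (od δ)) t.card c := by
  intro δ
  induction δ using WellFoundedLT.induction with
  | ind δ ih =>
    have hlt : ∀ c : ↥C, Cp r univ (c : Set (Ω × ℕ)) → (∀ y ∈ (c : Set (Ω × ℕ)), y.1 < δ) →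
        c ∈ cb J (od δ) := by
      intro c hc h
      rcases (c : Set (Ω × ℕ)).eq_empty_or_nonempty with he | hne
      · have : c = ⊥ := Subtype.ext he
        rw [this]
        exact subset_cb hJ.bot_mem
      · obtain ⟨ε, _, htop, ⟨m, hm⟩, hfin⟩ := hc.top S.nrm hne
        have hε : ε < δ := h _ hm
        have := ih ε hε c hc htop hfin.toFinset (by simp)
        exact this.mem_cb (od_lt.2 hε)
    intro c hc hle t ht s hs hd
    have h1 : ∀ x ∈ s, ∃ m ∈ t, (δ, m) ∈ (x : Set (Ω × ℕ)) := by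
      intro x hx
      by_contra hcon
      push Not at hcon
      have hxc : (x : Set (Ω × ℕ)) ⊆ (c : Set (Ω × ℕ)) := (hs x hx).1
      apply (hs x hx).2
      apply hlt x (S.cp_of_subset hc (hC x.2) hxc)
      intro y hy
      refine lt_of_le_of_ne (hle y (hxc hy)) ?_
      rintro rfl
      exact hcon y.2 (ht y.2 (hxc hy)) hy
    choose! g hg1 hg2 using h1
    apply Finset.card_le_card_of_injOn g hg1
    intro x hx y hy hxy
    by_contra hne
    have h2 := hg2 x hx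
    rw [hxy] at h2
    exact coe_disj (hd hx hy hne) h2 (hg2 y hy)

theorem mem_cb_of_level (S : Sys r univ) (hC : C ≤ Bal S) {J : Set ↥C} (hJ : IsIdl J)
    {δ : Ω} {c : ↥C} (hc : Cp r univ (c : Set (Ω × ℕ)))
    (h : ∀ y ∈ (c : Set (Ω × ℕ)), y.1 < δ) : c ∈ cb J (od δ) := by
  rcases (c : Set (Ω × ℕ)).eq_empty_or_nonempty with he | hne
  · have : c = ⊥ := Subtype.ext he
    rw [this]
    exact subset_cb hJ.bot_mem
  · obtain ⟨ε, _, htop, ⟨m, hm⟩, hfin⟩ := hc.top S.nrm hne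
    have hε : ε < δ := h _ hm
    have := few_of_level S hC hJ ε c hc htop hfin.toFinset (by simp)
    exact this.mem_cb (od_lt.2 hε)

theorem mem_finset_inf {ι : Type} {s : Finset ι} {f : ι → ↥C} {z : Ω × ℕ}
    (h : ∀ i ∈ s, z ∈ (f i : Set (Ω × ℕ))) : z ∈ ((s.inf f : ↥C) : Set (Ω × ℕ)) := by
  classical
  induction s using Finset.induction_on with
  | empty => simp
  | insert i s _ ih =>
    rw [Finset.inf_insert, BooleanSubalgebra.val_inf]
    exact ⟨h i (Finset.mem_insert_self i s), ih fun j hj => h j (Finset.mem_insert_of_mem hj)⟩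

theorem exists_pieces {δ : Ω} (hsep : ∀ m : ℕ, ∀ w, ((δ, m), w) ∈ Rel r C → w = some (δ, m))
    (c : ↥C) (t : Finset ℕ) (ht : ∀ m ∈ t, (δ, m) ∈ (c : Set (Ω × ℕ))) :
    ∃ u : ℕ → ↥C, (∀ m ∈ t, u m ≤ c ∧ (δ, m) ∈ (u m : Set (Ω × ℕ))) ∧
      (∀ m ∈ t, ∀ m' ∈ t, m ≠ m' → Disjoint (u m) (u m')) := by
  have h1 : ∀ m m' : ℕ, ∃ e : ↥C, m ≠ m' → (δ, m) ∈ (e : Set (Ω × ℕ)) ∧
      (δ, m') ∉ (e : Set (Ω × ℕ)) := by
    intro m m'
    by_cases hmm : m = m'
    · exact ⟨⊥, fun h => absurd hmm h⟩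
    · have h2 : ((δ, m), some (δ, m')) ∉ Rel r C := by
        intro h
        have := hsep m _ h
        apply hmm
        have h3 : (δ, m') = (δ, m) := by simpa using this
        exact (congrArg Prod.snd h3).symm
      obtain ⟨e, he, h3⟩ := exists_sep_of_not_rel h2
      exact ⟨⟨e, he⟩, fun _ => h3⟩
  choose e he using h1
  refine ⟨fun m => c ⊓ (t.erase m).inf fun m' => e m m' \ e m' m, ?_, ?_⟩
  · intro m hm
    refine ⟨inf_le_left, ht m hm, mem_finset_inf ?_⟩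
    intro m' hm'
    have hne : m' ≠ m := (Finset.mem_erase.1 hm').1
    exact ⟨(he m m' hne.symm).1, (he m' m hne).2⟩
  · intro m hm m' hm' hne
    apply disj_of
    intro z hz hz'
    have h2 : (t.erase m).inf (fun m' => e m m' \ e m' m) ≤ e m m' \ e m' m :=
      Finset.inf_le (Finset.mem_erase.2 ⟨hne.symm, hm'⟩)
    have h3 : (t.erase m').inf (fun k => e m' k \ e k m') ≤ e m' m \ e m m' :=
      Finset.inf_le (Finset.mem_erase.2 ⟨hne, hm⟩)
    have h4 : z ∈ ((e m m' \ e m' m : ↥C) : Set (Ω × ℕ)) := h2 hz.2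
    have h5 : z ∈ ((e m' m \ e m m' : ↥C) : Set (Ω × ℕ)) := h3 hz'.2
    exact h4.2 h5.1

theorem image_pieces {δ : Ω} {t : Finset ℕ} {u : ℕ → ↥C} {c : ↥C}
    (hu1 : ∀ m ∈ t, u m ≤ c ∧ (δ, m) ∈ (u m : Set (Ω × ℕ)))
    (hu2 : ∀ m ∈ t, ∀ m' ∈ t, m ≠ m' → Disjoint (u m) (u m')) {J : Set ↥C} {n : ℕ}
    (hnot : ∀ m ∈ t, u m ∉ J) (hf : Few J n c) : t.card ≤ n := by
  classical
  have hinj : Set.InjOn u (t : Set ℕ) := by
    intro m hm m' hm' h
    by_contra hne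
    have h1 := hu2 m hm m' hm' hne
    rw [← h] at h1
    exact coe_disj h1 (hu1 m hm).2 (hu1 m hm).2
  rw [← Finset.card_image_of_injOn hinj]
  apply hf
  · intro x hx
    obtain ⟨m, hm, rfl⟩ := Finset.mem_image.1 hx
    exact ⟨(hu1 m hm).1, hnot m hm⟩
  · intro x hx y hy hxy
    obtain ⟨m, hm, rfl⟩ := Finset.mem_image.1 (Finset.mem_coe.1 hx)
    obtain ⟨m', hm', rfl⟩ := Finset.mem_image.1 (Finset.mem_coe.1 hy)
    exact hu2 m hm m' hm' (fun h => hxy (by rw [h]))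

theorem not_mem_cb_of_level (S : Sys r univ) (hC : C ≤ Bal S) {J : Set ↥C}
    {a : Ordinal.{0}} (hsep : ∀ x : Ω × ℕ, a ≤ od x.1 → ∀ w, (x, w) ∈ Rel r C → w = some x)
    (hJa : ∀ c ∈ J, ∀ y ∈ (c : Set (Ω × ℕ)), od y.1 < a) :
    ∀ ξ : Ordinal.{0}, ∀ c : ↥C, ∀ x ∈ (c : Set (Ω × ℕ)), a + ξ ≤ od x.1 → c ∉ cb J ξ := by
  intro ξ
  induction ξ using WellFoundedLT.induction with
  | ind ξ ih =>
    intro c x hx hle hmem
    rw [mem_cb] at hmem
    rcases hmem with hJc | ⟨η, hη, n, hfew⟩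
    · exact absurd (hJa c hJc x hx) (not_lt.2 (le_self_add.trans hle))
    · have h1 : a + η < od x.1 := by
        refine lt_of_lt_of_le ?_ hle
        gcongr
      obtain ⟨δ, hδ, hoδ⟩ := od_surj h1
      have hfreq : ∃ᶠ m in atTop, (δ, m) ∈ (c : Set (Ω × ℕ)) := by
        rcases hC c.2 with hc | hc
        · exact (S.full hc hx hδ).mono fun m hm => hm.2
        · exact (S.full' hc (mem_univ δ)).mono fun m hm => by
            by_contra hcon
            exact hm.2 hcon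
      have hinf : {m | (δ, m) ∈ (c : Set (Ω × ℕ))}.Infinite :=
        Nat.frequently_atTop_iff_infinite.1 hfreq
      obtain ⟨t, ht, htc⟩ := hinf.exists_subset_card_eq (n + 1)
      have hsepδ : ∀ m : ℕ, ∀ w, ((δ, m), w) ∈ Rel r C → w = some (δ, m) := by
        intro m w hw
        apply hsep (δ, m) _ w hw
        show a ≤ od δ
        rw [hoδ]; exact le_self_add
      obtain ⟨u, hu1, hu2⟩ := exists_pieces hsepδ c t (fun m hm => ht hm)
      have hle2 := image_pieces hu1 hu2 (J := cb J η) (fun m hm =>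
        ih η hη (u m) (δ, m) (hu1 m hm).2 (by rw [hoδ])) hfew
      omega

theorem typ_of_level (S : Sys r univ) (hC : C ≤ Bal S) {J : Set ↥C} (hJ : IsIdl J)
    {a : Ordinal.{0}} (hsep : ∀ x : Ω × ℕ, a ≤ od x.1 → ∀ w, (x, w) ∈ Rel r C → w = some x)
    (hJa : ∀ c ∈ J, ∀ y ∈ (c : Set (Ω × ℕ)), od y.1 < a) {δ : Ω} (hδ : a + od δ ≤ od δ)
    {c : ↥C} (hc : Cp r univ (c : Set (Ω × ℕ))) (hle : ∀ y ∈ (c : Set (Ω × ℕ)), y.1 ≤ δ)
    {t : Finset ℕ} (ht : ∀ m, (δ, m) ∈ (c : Set (Ω × ℕ)) ↔ m ∈ t) :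
    Typ J (od δ) t.card c := by
  refine ⟨few_of_level S hC hJ δ c hc hle t (fun m hm => (ht m).1 hm), ?_⟩
  intro m hm hfew
  have hsepδ : ∀ m : ℕ, ∀ w, ((δ, m), w) ∈ Rel r C → w = some (δ, m) := by
    intro m w hw
    apply hsep (δ, m) _ w hw
    exact le_self_add.trans hδ
  obtain ⟨u, hu1, hu2⟩ := exists_pieces hsepδ c t (fun m hm => (ht m).2 hm)
  have hle2 := image_pieces hu1 hu2 (J := cb J (od δ)) (fun m hm =>
    not_mem_cb_of_level S hC hsep hJa (od δ) (u m) (δ, m) (hu1 m hm).2 hδ) hfew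
  omega

end

/-! ### separation in the whole algebra -/

/-- a compact set separating `x` from `y` -/
theorem exists_V (S : Sys r univ) {x y : Ω × ℕ} (hxy : x ≠ y) {I : Set Ω} (hI : IsLowerSet I)
    (hx : x.1 ∈ I) : ∃ V, Cp r I V ∧ x ∈ V ∧ y ∉ V := by
  have S' : Sys r I := S.mono (subset_univ _) hI
  by_cases h : y.1 < x.1
  · refine ⟨K r x \ K r y, S'.diff (Cp.of_K hx) (Cp.of_K (hI h.le hx)), ⟨S.nrm.mem_K x, ?_⟩, ?_⟩
    · intro h'; exact absurd h'.1 (not_le.2 h)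
    · intro h'; exact h'.2 (S.nrm.mem_K y)
  · refine ⟨K r x, Cp.of_K hx, S.nrm.mem_K x, ?_⟩
    intro h'
    exact hxy (S.nrm.eq_of_mem h' (le_antisymm h'.1 (not_lt.1 h))).symm

theorem sep_Bal (hb : Big Ω) (S : Sys r univ) (x : Ω × ℕ) (w : Option (Ω × ℕ))
    (h : (x, w) ∈ Rel r (Bal S)) : w = some x := by
  cases w with
  | none =>
    have := (h (K r x) (Or.inl (Cp.of_K (mem_univ _)))).1 (S.nrm.mem_K x)
    exact absurd this (fun h' => not_both hb S (Cp.of_K (mem_univ _)) h')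
  | some y =>
    by_contra hne
    have hxy : x ≠ y := fun h' => hne (by rw [h'])
    obtain ⟨V, hV, h1, h2⟩ := exists_V S hxy isLowerSet_univ (mem_univ x.1)
    exact h2 ((h V (Or.inl hV)).1 h1)

theorem isIdl_bot {C : BooleanSubalgebra (Set (Ω × ℕ))} : IsIdl ({⊥} : Set ↥C) := by
  refine ⟨rfl, ?_, ?_⟩
  · intro a b hab hb
    have hb' : b = ⊥ := hb
    rw [hb'] at hab
    exact le_bot_iff.1 hab
  · intro a b ha hb
    have ha' : a = ⊥ := ha
    have hb' : b = ⊥ := hb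
    rw [ha', hb']
    exact sup_idem _

end H85
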