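import Mathlib
import Pool.Agent.H85.Types

set_option autoImplicit false

namespace H85

open Set Filter

variable {Ω : Type} [LinearOrder Ω] [WellFoundedLT Ω]
variable {r : Ω → Ω × ℕ → ℕ}

/-- relational classification for a piece -/
theorem piece_rel (hb : Big Ω) (S : Sys r univ) {C : BooleanSubalgebra (Set (Ω × ℕ))}
    (hC : C ≤ Bal S) {D : Set (Ω × ℕ)} {a : Ordinal.{0}}
    (hsep : ∀ x : Ω × ℕ, a ≤ od x.1 → ∀ w, (x, w) ∈ Rel r C → w = some x)
    (hD : ∀ y ∈ D, od y.1 < a) {α : Ω} (hα : a + od α ≤ od α) {p : Set (Ω × ℕ)} (hpC : p ∈ C)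
    (hp : Cp r univ p) (hple : ∀ y ∈ p, y.1 ≤ α) {n : ℕ} (hpn : ∀ k, (α, k) ∈ p ↔ k = n) :
    ∃ Φ : Set (Ω × ℕ) → Set (Ω × ℕ) → Prop,
      (∀ u v, Φ u v → u ∈ C ∧ v ∈ Bal S ∧ u ⊆ p ∧ v ⊆ K r (α, n)) ∧
      (∀ u ∈ C, u ⊆ p → ∃ v, Φ u v) ∧ (∀ v ∈ Bal S, v ⊆ K r (α, n) → ∃ u, Φ u v) ∧
      (∀ u v u' v', Φ u v → Φ u' v' → (u \ u' ⊆ D ↔ v ⊆ v')) := by
  let J : Set ↥C := {c | (c : Set (Ω × ℕ)) ⊆ D}
  have hJ : IsIdl J := by
    refine ⟨?_, ?_, ?_⟩
    · show ((⊥ : ↥C) : Set (Ω × ℕ)) ⊆ D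
      exact empty_subset _
    · intro x y hxy hy
      exact subset_trans (show (x : Set (Ω × ℕ)) ⊆ y from hxy) hy
    · intro x y hx hy
      show ((x ⊔ y : ↥C) : Set (Ω × ℕ)) ⊆ D
      exact union_subset hx hy
  have hT : Typ J (od α) 1 (⟨p, hpC⟩ : ↥C) := by
    have := typ_of_level S hC hJ hsep (fun c hc y hy => hD y (hc hy)) hα (c := ⟨p, hpC⟩) hp hple
      (t := {n}) (fun m => by rw [Finset.mem_singleton]; exact hpn m)
    rwa [Finset.card_singleton] at this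
  have hKB : K r (α, n) ∈ Bal S := Or.inl (Cp.of_K (mem_univ _))
  have hT' : Typ ({⊥} : Set ↥(Bal S)) (od α) 1 (⟨K r (α, n), hKB⟩ : ↥(Bal S)) := by
    have := typ_of_level S (le_refl (Bal S)) isIdl_bot (a := 0) (fun x _ w hw => sep_Bal hb S x w hw)
      (fun c hc y hy => by
        have hc' : c = ⊥ := hc
        rw [hc'] at hy
        exact absurd hy (notMem_empty y)) (δ := α) (by rw [zero_add])
      (c := ⟨K r (α, n), hKB⟩) (Cp.of_K (mem_univ _)) (fun y hy => hy.1)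
      (t := {n}) (fun m => by
        rw [Finset.mem_singleton]
        constructor
        · intro h
          have := S.nrm.eq_of_mem (x := (α, n)) h rfl
          exact congrArg Prod.snd this
        · rintro rfl
          exact S.nrm.mem_K _)
    rwa [Finset.card_singleton] at this
  have hcount : ∀ (C' : BooleanSubalgebra (Set (Ω × ℕ))), C' ≤ Bal S → ∀ a : ↥C',
      Cp r univ (a : Set (Ω × ℕ)) → (∀ y ∈ (a : Set (Ω × ℕ)), y.1 ≤ α) →
      {b : ↥C' | b ≤ a}.Countable := by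
    intro C' hC' a ha hal
    have h1 := countable_Cp (r := r) (hb.cIic α)
    refine MapsTo.countable_of_injOn (f := fun b : ↥C' => (b : Set (Ω × ℕ))) (t := {b | Cp r (Iic α) b})
      ?_ Subtype.val_injective.injOn h1
    intro b hba
    have hba' : (b : Set (Ω × ℕ)) ⊆ (a : Set (Ω × ℕ)) := hba
    exact (S.cp_of_subset ha (hC' b.2) hba').le_lower S (fun y hy => hal y (hba' hy))
  obtain ⟨E, h1, h2, h3, h4⟩ := classify.{0} hJ isIdl_bot (ζ := od α + 1) (ζ' := od α + 1)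
    (hT.mem_succ (Order.lt_add_one_iff.2 le_rfl)) (hT'.mem_succ (Order.lt_add_one_iff.2 le_rfl))
    (Or.inr ⟨od α, 1, le_rfl, hT, hT'⟩)
    (hcount C hC _ hp hple) (hcount _ le_rfl _ (Cp.of_K (mem_univ _)) (fun y hy => hy.1))
  refine ⟨fun u v => ∃ hu : u ∈ C, ∃ hv : v ∈ Bal S, E ⟨u, hu⟩ ⟨v, hv⟩, ?_, ?_, ?_, ?_⟩
  · rintro u v ⟨hu, hv, h⟩
    exact ⟨hu, hv, (h1 _ _ h).1, (h1 _ _ h).2⟩
  · intro u hu hup
    obtain ⟨v, hv⟩ := h2 ⟨u, hu⟩ hup
    exact ⟨v, hu, v.2, hv⟩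
  · intro v hv hvp
    obtain ⟨u, hu⟩ := h3 ⟨v, hv⟩ hvp
    exact ⟨u, u.2, hv, hu⟩
  · rintro u v u' v' ⟨hu, hv, h⟩ ⟨hu', hv', h'⟩
    have h5 := h4 _ _ _ _ h h'
    have h6 : ((⟨u, hu⟩ : ↥C) \ ⟨u', hu'⟩) ∈ J ↔ u \ u' ⊆ D := Iff.rfl
    have h7 : ((⟨v, hv⟩ : ↥(Bal S)) \ ⟨v', hv'⟩) ∈ ({⊥} : Set ↥(Bal S)) ↔ v ⊆ v' := by
      rw [mem_singleton_iff, Subtype.ext_iff]
      show v \ v' = ∅ ↔ _
      exact diff_eq_empty
    rw [← h6, ← h7]
    exact h5

theorem mem_biUnion_C {C : BooleanSubalgebra (Set (Ω × ℕ))} {ι : Type} {s : Set ι} (hs : s.Finite)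
    {f : ι → Set (Ω × ℕ)} (hf : ∀ i ∈ s, f i ∈ C) : (⋃ i ∈ s, f i) ∈ C := by
  induction s, hs using Set.Finite.induction_on with
  | empty => rw [biUnion_empty]; exact BooleanSubalgebra.bot_mem
  | @insert a s _ _ ih =>
    rw [biUnion_insert]
    exact BooleanSubalgebra.sup_mem (hf a (mem_insert a s)) (ih fun i hi => hf i (mem_insert_of_mem a hi))

/-- the special part below `α` -/
def Ysp (r : Ω → Ω × ℕ → ℕ) (α : Ω) (m0 : ℕ) : Set (Ω × ℕ) :=
  {y | y.1 ≤ α ∧ (Even (r α y) ∨ r α y < m0)}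

theorem Cp.inter_Y (S : Sys r univ) {b : Set (Ω × ℕ)} (hbC : Cp r univ b) (α : Ω) (m0 : ℕ) :
    Cp r univ (b ∩ Ysp r α m0) := by
  have : b ∩ Ysp r α m0 = (b ∩ Z r α) ∪ ⋃ n ∈ {n | n < m0}, (b ∩ K r (α, n)) := by
    ext y
    simp only [Ysp, Z, mem_inter_iff, mem_setOf_eq, mem_union, mem_iUnion, exists_prop]
    constructor
    · rintro ⟨h1, h2, h3 | h3⟩
      · exact Or.inl ⟨h1, h2, h3⟩
      · exact Or.inr ⟨r α y, h3, h1, h2, rfl⟩
    · rintro (⟨h1, h2, h3⟩ | ⟨n, hn, h1, h2, h3⟩)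
      · exact ⟨h1, h2, Or.inl h3⟩
      · exact ⟨h1, h2, Or.inr (by rw [h3]; exact hn)⟩
  rw [this]
  exact S.union (S.cutZ hbC (mem_univ α)) (S.biUnion (finite_lt_nat m0)
    fun n _ => S.inter hbC (Cp.of_K (mem_univ _)))

theorem inter_Y_mem (hb : Big Ω) (S : Sys r univ) {C : BooleanSubalgebra (Set (Ω × ℕ))}
    (hC : C ≤ Bal S) {γ α : Ω} (hγα : γ ≤ α)
    (hsep : ∀ x : Ω × ℕ, γ ≤ x.1 → ∀ w, (x, w) ∈ Rel r C → w = some x) {m0 : ℕ}
    (hodd : ∀ n, m0 ≤ n → Odd n → K r (α, n) ∈ C) {c : Set (Ω × ℕ)} (hc : c ∈ C)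
    (hcp : Cp r univ c) : c ∩ Ysp r α m0 ∈ C := by
  apply sat_mem hb S hC (hcp.inter_Y S α m0)
  rintro x ⟨hx, hxY⟩ w hw
  have h1 := hw c hc
  cases w with
  | none => exact absurd (h1.1 hx) (fun h' => not_both hb S hcp h')
  | some y =>
    have hy : y ∈ c := h1.1 hx
    refine ⟨y, ⟨hy, ?_⟩, rfl⟩
    by_contra hcon
    by_cases hyα : y.1 ≤ α
    · have h2 : ¬ (Even (r α y) ∨ r α y < m0) := fun h => hcon ⟨hyα, h⟩
      rw [not_or, not_lt, Nat.not_even_iff_odd] at h2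
      have h3 := hw _ (hodd _ h2.2 h2.1)
      have h4 : y ∈ K r (α, r α y) := ⟨hyα, rfl⟩
      have h5 : x ∈ K r (α, r α y) := h3.2 h4
      have h6 : r α x = r α y := h5.2
      have h7 := hxY.2
      rw [h6] at h7
      rcases h7 with h7 | h7
      · exact (Nat.not_even_iff_odd.2 h2.1) h7
      · exact absurd h7 (not_lt.2 h2.2)
    · have h2 := hsep y (hγα.trans (not_le.1 hyα).le) _ (Rel.symm hw)
      have h3 : x = y := by simpa using h2
      rw [← h3] at hyα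
      exact hyα hxY.1

theorem Cp.fin_level (S : Sys r univ) {b : Set (Ω × ℕ)} (hbC : Cp r univ b) {α : Ω}
    (hle : ∀ y ∈ b, y.1 ≤ α) : {k | (α, k) ∈ b}.Finite := by
  rcases b.eq_empty_or_nonempty with rfl | hne
  · simp
  obtain ⟨ε, _, htop, ⟨m, hm⟩, hfin⟩ := hbC.top S.nrm hne
  rcases lt_or_eq_of_le (hle _ hm) with h | h
  · have : {k | (α, k) ∈ b} = ∅ := by
      rw [Set.eq_empty_iff_forall_notMem]
      intro k hk
      exact absurd (htop _ hk) (not_le.2 h)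
    rw [this]; exact finite_empty
  · have h' : ε = α := h
    rw [← h']; exact hfin

theorem exists_pcs (hb : Big Ω) (S : Sys r univ) {C : BooleanSubalgebra (Set (Ω × ℕ))}
    (hC : C ≤ Bal S) {γ α : Ω} (hγα : γ ≤ α)
    (hsep : ∀ x : Ω × ℕ, γ ≤ x.1 → ∀ w, (x, w) ∈ Rel r C → w = some x) {m0 : ℕ}
    (hodd : ∀ n, m0 ≤ n → Odd n → K r (α, n) ∈ C) :
    ∃ p : ℕ → Set (Ω × ℕ), (∀ n, p n ∈ C) ∧ (∀ n, Cp r univ (p n)) ∧
      (∀ n, ∀ y ∈ p n, y.1 ≤ α) ∧ (∀ n k, (α, k) ∈ p n ↔ k = n) ∧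
      (∀ n k, n ≠ k → ∀ y ∈ p n, y ∉ p k) ∧ (∀ n, m0 ≤ n → Odd n → p n = K r (α, n)) ∧
      (∀ n, (Even n ∨ n < m0) → p n ⊆ Ysp r α m0) ∧
      (∀ c ∈ C, Cp r univ c → c ⊆ Ysp r α m0 → ∃ N, ∀ y ∈ c, ∃ n < N, y ∈ p n) := by
  classical
  have hN := S.nrm
  -- neighbourhoods of the special points
  have he : ∀ n : ℕ, ∃ e ∈ C, (Even n ∨ n < m0) → Cp r univ e ∧ e ⊆ Ysp r α m0 ∧
      ∀ k, (α, k) ∈ e ↔ k = n := by
    intro n
    by_cases hn : Even n ∨ n < m0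
    swap
    · exact ⟨⊥, BooleanSubalgebra.bot_mem, fun h => absurd h hn⟩
    have h1 : ((α, n), none) ∉ Rel r C := by
      intro h
      have := hsep (α, n) hγα _ h
      simp at this
    obtain ⟨c, hc, hcp, hxc⟩ := exists_cp_of_not_rel hb S hC h1
    have h2 := inter_Y_mem hb S hC hγα hsep hodd hc hcp
    have h3 := hcp.inter_Y S α m0
    have h4 : {k | (α, k) ∈ c ∩ Ysp r α m0}.Finite := h3.fin_level S fun y hy => hy.2.1
    obtain ⟨u, hu1, hu2⟩ := exists_pieces (C := C) (δ := α) (fun m w hw => hsep (α, m) hγα w hw)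
      ⟨c ∩ Ysp r α m0, h2⟩ h4.toFinset (by simp)
    have hnT : n ∈ h4.toFinset := by
      rw [Set.Finite.mem_toFinset]
      refine ⟨hxc, le_rfl, ?_⟩
      rw [hN α n]; exact hn
    have hsub : (u n : Set (Ω × ℕ)) ⊆ c ∩ Ysp r α m0 := (hu1 n hnT).1
    refine ⟨u n, (u n).2, fun _ => ⟨S.cp_of_subset h3 (hC (u n).2) hsub,
      fun y hy => (hsub hy).2, ?_⟩⟩
    intro k
    constructor
    · intro hk
      by_contra hne
      have hkT : k ∈ h4.toFinset := by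
        rw [Set.Finite.mem_toFinset]
        exact hsub hk
      exact coe_disj (hu2 k hkT n hnT hne) (hu1 k hkT).2 hk
    · rintro rfl
      exact (hu1 k hnT).2
  choose e heC he using he
  -- enumeration of the compact elements below the special part
  have hcnt : {c | c ∈ C ∧ Cp r univ c ∧ c ⊆ Ysp r α m0}.Countable := by
    refine (countable_Cp (r := r) (hb.cIic α)).mono ?_
    rintro c ⟨_, h1, h2⟩
    exact h1.le_lower S fun y hy => (h2 hy).1
  obtain ⟨d, hd⟩ := hcnt.exists_eq_range ⟨∅, BooleanSubalgebra.bot_mem, .empty, empty_subset _⟩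
  have hd' : ∀ i, d i ∈ C ∧ Cp r univ (d i) ∧ d i ⊆ Ysp r α m0 := fun i => by
    have : d i ∈ {c | c ∈ C ∧ Cp r univ c ∧ c ⊆ Ysp r α m0} := by rw [hd]; exact mem_range_self i
    exact this
  let g : ℕ → Set (Ω × ℕ) := fun n => d (n / 2)
  have hg : ∀ n, g n ∈ C ∧ Cp r univ (g n) ∧ g n ⊆ Ysp r α m0 := fun n => hd' _
  have hTfin : ∀ n, {k | (α, k) ∈ g n}.Finite := fun n =>
    (hg n).2.1.fin_level S fun y hy => ((hg n).2.2 hy).1
  have hTsp : ∀ n k, (α, k) ∈ g n → (Even k ∨ k < m0) := by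
    intro n k hk
    have := ((hg n).2.2 hk).2
    rwa [hN α k] at this
  let f : ℕ → Set (Ω × ℕ) := fun n => if (Even n ∨ n < m0) then
    e n ∪ (g n \ ⋃ k ∈ {k | (α, k) ∈ g n}, e k) else K r (α, n)
  have fsp : ∀ n, (Even n ∨ n < m0) → f n = e n ∪ (g n \ ⋃ k ∈ {k | (α, k) ∈ g n}, e k) :=
    fun n hn => if_pos hn
  have fnsp : ∀ n, ¬ (Even n ∨ n < m0) → f n = K r (α, n) := fun n hn => if_neg hn
  have fC : ∀ n, f n ∈ C := by
    intro n
    by_cases hn : Even n ∨ n < m0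
    · rw [fsp n hn]
      exact BooleanSubalgebra.sup_mem (heC n) (BooleanSubalgebra.sdiff_mem (hg n).1
        (mem_biUnion_C (hTfin n) fun k _ => heC k))
    · rw [fnsp n hn]
      rw [not_or, not_lt, Nat.not_even_iff_odd] at hn
      exact hodd n hn.2 hn.1
  have fCp : ∀ n, Cp r univ (f n) := by
    intro n
    by_cases hn : Even n ∨ n < m0
    · rw [fsp n hn]
      exact S.union (he n hn).1 (S.diff (hg n).2.1
        (S.biUnion (hTfin n) fun k hk => (he k (hTsp n k hk)).1))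
    · rw [fnsp n hn]
      exact Cp.of_K (mem_univ _)
  have fY : ∀ n, (Even n ∨ n < m0) → f n ⊆ Ysp r α m0 := by
    intro n hn
    rw [fsp n hn]
    exact union_subset (he n hn).2.1 (fun y hy => (hg n).2.2 hy.1)
  have fle : ∀ n, ∀ y ∈ f n, y.1 ≤ α := by
    intro n y hy
    by_cases hn : Even n ∨ n < m0
    · exact (fY n hn hy).1
    · rw [fnsp n hn] at hy
      exact hy.1
  have fk : ∀ n k, (α, k) ∈ f n ↔ k = n := by
    intro n k
    by_cases hn : Even n ∨ n < m0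
    · rw [fsp n hn]
      constructor
      · rintro (h | h)
        · exact ((he n hn).2.2 k).1 h
        · exfalso
          apply h.2
          simp only [mem_iUnion, exists_prop]
          exact ⟨k, h.1, ((he k (hTsp n k h.1)).2.2 k).2 rfl⟩
      · rintro rfl
        exact Or.inl (((he k hn).2.2 k).2 rfl)
    · rw [fnsp n hn]
      constructor
      · intro h
        have := hN.eq_of_mem (x := (α, n)) h rfl
        exact congrArg Prod.snd this
      · rintro rfl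
        exact hN.mem_K _
  let p : ℕ → Set (Ω × ℕ) := fun n => f n \ ⋃ j ∈ {j | j < n}, f j
  have hpf : ∀ n, p n ⊆ f n := fun n => diff_subset
  have hpnot : ∀ n j, j < n → ∀ y ∈ p n, y ∉ f j := by
    intro n j hj y hy h
    apply hy.2
    simp only [mem_iUnion, exists_prop]
    exact ⟨j, hj, h⟩
  have hpmem : ∀ n, ∀ y ∈ f n, (∀ j < n, y ∉ f j) → y ∈ p n := by
    intro n y hy h
    refine ⟨hy, ?_⟩
    simp only [mem_iUnion, exists_prop, not_exists, not_and]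
    exact h
  refine ⟨p, ?_, ?_, ?_, ?_, ?_, ?_, ?_, ?_⟩
  · intro n
    exact BooleanSubalgebra.sdiff_mem (fC n) (mem_biUnion_C (finite_lt_nat n) fun j _ => fC j)
  · intro n
    exact S.diff (fCp n) (S.biUnion (finite_lt_nat n) fun j _ => fCp j)
  · intro n y hy
    exact fle n y (hpf n hy)
  · intro n k
    constructor
    · intro h
      exact (fk n k).1 (hpf n h)
    · rintro rfl
      apply hpmem k _ ((fk k k).2 rfl)
      intro j hj h
      have := (fk j k).1 h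
      omega
  · intro n k hnk y hy hy'
    rcases Nat.lt_or_gt_of_ne hnk with h | h
    · exact hpnot k n h y hy' (hpf n hy)
    · exact hpnot n k h y hy (hpf k hy')
  · intro n hn1 hn2
    have hn : ¬ (Even n ∨ n < m0) := by
      rw [not_or, not_lt, Nat.not_even_iff_odd]
      exact ⟨hn2, hn1⟩
    apply subset_antisymm
    · rw [← fnsp n hn]; exact hpf n
    · intro y hy
      apply hpmem n y (by rw [fnsp n hn]; exact hy)
      intro j hj hyj
      have hyn : r α y = n := hy.2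
      by_cases hjs : Even j ∨ j < m0
      · have := (fY j hjs hyj).2
        rw [hyn] at this
        exact hn this
      · rw [fnsp j hjs] at hyj
        have : r α y = j := hyj.2
        omega
  · intro n hn
    exact (hpf n).trans (fY n hn)
  · intro c hc hcp hcY
    have : c ∈ range d := by
      rw [← hd]; exact ⟨hc, hcp, hcY⟩
    obtain ⟨i, rfl⟩ := this
    have hgi : g (2 * i) = d i := by
      show d (2 * i / 2) = d i
      congr 1
      omega
    have hsp : Even (2 * i) ∨ 2 * i < m0 := Or.inl (even_two_mul i)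
    obtain ⟨M, hM⟩ := (hTfin (2 * i)).bddAbove
    refine ⟨max M (2 * i) + 1, ?_⟩
    intro y hy
    have hex : ∃ k < max M (2 * i) + 1, y ∈ f k := by
      by_cases hyU : y ∈ ⋃ k ∈ {k | (α, k) ∈ g (2 * i)}, e k
      · simp only [mem_iUnion, exists_prop] at hyU
        obtain ⟨k, hk, hyk⟩ := hyU
        have hkM : k ≤ M := hM hk
        refine ⟨k, by omega, ?_⟩
        rw [fsp k (hTsp _ k hk)]
        exact Or.inl hyk
      · refine ⟨2 * i, by omega, ?_⟩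
        rw [fsp _ hsp]
        right
        rw [hgi] at hyU ⊢
        exact ⟨hy, hyU⟩
    have hex2 : ∃ k, y ∈ f k := by
      obtain ⟨k, _, hk⟩ := hex
      exact ⟨k, hk⟩
    obtain ⟨k, hk1, hk2⟩ := hex
    refine ⟨Nat.find hex2, lt_of_le_of_lt (Nat.find_min' hex2 hk2) hk1, ?_⟩
    exact hpmem _ y (Nat.find_spec hex2) fun j hj => Nat.find_min hex2 hj

end H85
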