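import Mathlib
import Pool.Agent.H85.Glue

set_option autoImplicit false

namespace H85

open Set Filter

variable {Ω : Type} [LinearOrder Ω] [WellFoundedLT Ω]
variable {r : Ω → Ω × ℕ → ℕ}

theorem rel_ends {C C' : BooleanSubalgebra (Set (Ω × ℕ))} {D p q : Set (Ω × ℕ)} (hp : p ∈ C)
    (hq : q ∈ C') {Φ : Set (Ω × ℕ) → Set (Ω × ℕ) → Prop}
    (h0 : ∀ u v, Φ u v → u ∈ C ∧ v ∈ C' ∧ u ⊆ p ∧ v ⊆ q)
    (h1 : ∀ u ∈ C, u ⊆ p → ∃ v, Φ u v) (h2 : ∀ v ∈ C', v ⊆ q → ∃ u, Φ u v)
    (h3 : ∀ u v u' v', Φ u v → Φ u' v' → (u \ u' ⊆ D ↔ v ⊆ v')) : Φ ∅ ∅ ∧ Φ p q := by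
  constructor
  · obtain ⟨v, hv⟩ := h1 ∅ BooleanSubalgebra.bot_mem (empty_subset _)
    obtain ⟨u, hu⟩ := h2 ∅ BooleanSubalgebra.bot_mem (empty_subset _)
    have : v ⊆ ∅ := (h3 _ _ _ _ hv hu).1 (by rw [empty_diff]; exact empty_subset _)
    rwa [subset_empty_iff.1 this] at hv
  · obtain ⟨v, hv⟩ := h1 p hp subset_rfl
    obtain ⟨u, hu⟩ := h2 q hq subset_rfl
    have h4 : q ⊆ v := (h3 _ _ _ _ hu hv).1 (by
      rw [diff_eq_empty.2 (h0 _ _ hu).2.2.1]; exact empty_subset _)
    have h5 : v = q := subset_antisymm (h0 _ _ hv).2.2.2 h4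
    rwa [h5] at hv

theorem main_cpt (hb : Big Ω) (S : Sys r univ) {C : BooleanSubalgebra (Set (Ω × ℕ))}
    (hC : C ≤ Bal S) {γ : Ω}
    (hsep : ∀ x : Ω × ℕ, γ ≤ x.1 → ∀ w, (x, w) ∈ Rel r C → w = some x) {β : Ω}
    (hodd : ∀ α, β ≤ α → ∀ᶠ n in atTop, Odd n → K r (α, n) ∈ C) {D : Set (Ω × ℕ)}
    (hD : ∀ y ∈ D, y.1 < γ) :
    ∃ E : Set (Ω × ℕ) → Set (Ω × ℕ) → Prop,
      (∀ c b, E c b → c ∈ C ∧ Cp r univ c ∧ Cp r univ b) ∧
      (∀ c ∈ C, Cp r univ c → ∃ b, E c b) ∧ (∀ b, Cp r univ b → ∃ c, E c b) ∧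
      (∀ c b c' b', E c b → E c' b' → (c \ c' ⊆ D ↔ b ⊆ b')) := by
  classical
  have hN := S.nrm
  obtain ⟨α, hβα, hγα, hαα⟩ := exists_absorbing hb γ β
  obtain ⟨m0, hm0⟩ := eventually_atTop.1 (hodd α hβα)
  obtain ⟨p, pC, pCp, ple, pk, pdis, podd, psp, pcov⟩ :=
    exists_pcs hb S hC hγα hsep (m0 := m0) (fun n h1 h2 => hm0 n h1 h2)
  have hsep' : ∀ x : Ω × ℕ, od γ ≤ od x.1 → ∀ w, (x, w) ∈ Rel r C → w = some x :=
    fun x hx => hsep x (od_le.1 hx)
  have hD' : ∀ y ∈ D, od y.1 < od γ := fun y hy => od_lt.2 (hD y hy)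
  have hΦ := fun n => piece_rel hb S hC hsep' hD' hαα (pC n) (pCp n) (ple n) (n := n) (pk n)
  choose Φ q0 q1 q2 q3 using hΦ
  have hKB : ∀ n, K r (α, n) ∈ Bal S := fun n => Or.inl (Cp.of_K (mem_univ _))
  have hends := fun n => rel_ends (pC n) (hKB n) (q0 n) (q1 n) (q2 n) (q3 n)
  -- facts on the pieces `K r (α, n)`
  have Kdis : ∀ n k, n ≠ k → ∀ y ∈ K r (α, n), y ∉ K r (α, k) := by
    intro n k hnk y hy hy'
    exact hnk ((mem_K_iff_of hy).1 hy')
  have notspec : ∀ n, ¬ (Even n ∨ n < m0) → m0 ≤ n ∧ Odd n := by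
    intro n hn
    rw [not_or, not_lt, Nat.not_even_iff_odd] at hn
    exact ⟨hn.2, hn.1⟩
  have pcover : ∀ c ∈ C, Cp r univ c → ∀ y ∈ c, y.1 ≤ α → ∃ n, y ∈ p n := by
    intro c hc hcp y hy hyα
    by_cases hsp : Even (r α y) ∨ r α y < m0
    · obtain ⟨N, hN'⟩ := pcov _ (inter_Y_mem hb S hC hγα hsep (fun n h1 h2 => hm0 n h1 h2) hc hcp)
        (hcp.inter_Y S α m0) inter_subset_right
      obtain ⟨n, _, hn⟩ := hN' y ⟨hy, hyα, hsp⟩
      exact ⟨n, hn⟩
    · obtain ⟨h1, h2⟩ := notspec _ hsp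
      refine ⟨r α y, ?_⟩
      rw [podd _ h1 h2]
      exact ⟨hyα, rfl⟩
  refine ⟨fun c b => c ∈ C ∧ Cp r univ c ∧ Cp r univ b ∧
    (∀ y : Ω × ℕ, α < y.1 → (y ∈ c ↔ y ∈ b)) ∧ ∀ n, Φ n (c ∩ p n) (b ∩ K r (α, n)),
    ?_, ?_, ?_, ?_⟩
  · rintro c b ⟨h1, h2, h3, _⟩
    exact ⟨h1, h2, h3⟩
  · -- totality
    intro c hc hcp
    obtain ⟨N1, hN1⟩ := pcov _
      (inter_Y_mem hb S hC hγα hsep (fun n h1 h2 => hm0 n h1 h2) hc hcp)
      (hcp.inter_Y S α m0) inter_subset_right
    obtain ⟨N2, hN2⟩ := eventually_atTop.1 ((S.resp hcp (mem_univ α)).and (S.evn hcp (mem_univ α)))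
    let N := max (max N1 N2) m0
    have hNN1 : N1 ≤ N := (le_max_left _ _).trans (le_max_left _ _)
    have hNN2 : N2 ≤ N := (le_max_right _ _).trans (le_max_left _ _)
    have hNm : m0 ≤ N := le_max_right _ _
    have hv := fun n => q1 n (c ∩ p n) (BooleanSubalgebra.inf_mem hc (pC n)) inter_subset_right
    choose v hv using hv
    have hvK : ∀ n, v n ⊆ K r (α, n) := fun n => (q0 n _ _ (hv n)).2.2.2
    have hvCp : ∀ n, Cp r univ (v n) := fun n =>
      S.cp_of_subset (Cp.of_K (mem_univ _)) (q0 n _ _ (hv n)).2.1 (hvK n)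
    refine ⟨(c \ ⋃ n ∈ {n | n < N}, K r (α, n)) ∪ ⋃ n ∈ {n | n < N}, v n, hc, hcp, ?_, ?_, ?_⟩
    · exact S.union (S.diff hcp (S.biUnion (finite_lt_nat N) fun n _ => Cp.of_K (mem_univ _)))
        (S.biUnion (finite_lt_nat N) fun n _ => hvCp n)
    · intro y hy
      have h1 : ∀ n, y ∉ K r (α, n) := fun n h => absurd h.1 (not_le.2 hy)
      have h2 : ∀ n, y ∉ v n := fun n h => h1 n (hvK n h)
      simp only [mem_union, mem_diff, mem_iUnion, exists_prop]
      constructor
      · intro h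
        exact Or.inl ⟨h, fun ⟨n, _, h'⟩ => h1 n h'⟩
      · rintro (⟨h, _⟩ | ⟨n, _, h⟩)
        · exact h
        · exact absurd h (h2 n)
    · intro n
      by_cases hn : n < N
      · have : ((c \ ⋃ n ∈ {n | n < N}, K r (α, n)) ∪ ⋃ n ∈ {n | n < N}, v n) ∩ K r (α, n) = v n := by
          ext y
          simp only [mem_union, mem_diff, mem_iUnion, exists_prop, mem_inter_iff]
          constructor
          · rintro ⟨⟨_, h1⟩ | ⟨k, _, h1⟩, h2⟩
            · exact absurd ⟨n, hn, h2⟩ h1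
            · by_cases hkn : k = n
              · rw [← hkn]; exact h1
              · exact absurd h2 (Kdis k n hkn y (hvK k h1))
          · intro h
            exact ⟨Or.inr ⟨n, hn, h⟩, hvK n h⟩
        rw [this]
        exact hv n
      · have hn' : N ≤ n := not_lt.1 hn
        have hbK : ((c \ ⋃ n ∈ {n | n < N}, K r (α, n)) ∪ ⋃ n ∈ {n | n < N}, v n) ∩ K r (α, n) =
            c ∩ K r (α, n) := by
          ext y
          simp only [mem_union, mem_diff, mem_iUnion, exists_prop, mem_inter_iff]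
          constructor
          · rintro ⟨⟨h1, _⟩ | ⟨k, hk, h1⟩, h2⟩
            · exact ⟨h1, h2⟩
            · have hkn : k ≠ n := by
                have hk' : k < N := hk
                omega
              exact absurd h2 (Kdis k n hkn y (hvK k h1))
          · rintro ⟨h1, h2⟩
            refine ⟨Or.inl ⟨h1, ?_⟩, h2⟩
            rintro ⟨k, hk, h3⟩
            have hkn : k ≠ n := by
              have hk' : k < N := hk
              omega
            exact Kdis k n hkn y h3 h2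
        rw [hbK]
        obtain ⟨h1, h2⟩ := hN2 n (hNN2.trans hn')
        by_cases he : Even n
        · have h3 : c ∩ K r (α, n) = ∅ := by
            rw [Set.eq_empty_iff_forall_notMem]
            rintro y ⟨hy1, hy2⟩
            exact h2 he ((h1 y hy2).1 hy1)
          have h4 : c ∩ p n = ∅ := by
            rw [Set.eq_empty_iff_forall_notMem]
            rintro y ⟨hy1, hy2⟩
            obtain ⟨k, hk, hy3⟩ := hN1 y ⟨hy1, psp n (Or.inl he) hy2⟩
            have hkn : k ≠ n := by omega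
            exact pdis k n hkn y hy3 hy2
          rw [h3, h4]
          exact (hends n).1
        · have ho : Odd n := Nat.not_even_iff_odd.1 he
          rw [podd n (hNm.trans hn') ho]
          by_cases hm : (α, n) ∈ c
          · have : c ∩ K r (α, n) = K r (α, n) := by
              apply inter_eq_self_of_subset_right
              intro y hy
              exact (h1 y hy).2 hm
            rw [this]
            have h5 := (hends n).2
            rwa [podd n (hNm.trans hn') ho] at h5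
          · have : c ∩ K r (α, n) = ∅ := by
              rw [Set.eq_empty_iff_forall_notMem]
              rintro y ⟨hy1, hy2⟩
              exact hm ((h1 y hy2).1 hy1)
            rw [this]
            exact (hends n).1
  · -- surjectivity
    intro b hbp
    obtain ⟨N2, hN2⟩ := eventually_atTop.1 ((S.resp hbp (mem_univ α)).and (S.evn hbp (mem_univ α)))
    let N := max N2 m0
    have hNN2 : N2 ≤ N := le_max_left _ _
    have hNm : m0 ≤ N := le_max_right _ _
    have hu := fun n => q2 n (b ∩ K r (α, n)) (Or.inl (S.inter hbp (Cp.of_K (mem_univ _))))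
      inter_subset_right
    choose u hu using hu
    have hup : ∀ n, u n ⊆ p n := fun n => (q0 n _ _ (hu n)).2.2.1
    have huC : ∀ n, u n ∈ C := fun n => (q0 n _ _ (hu n)).1
    have huCp : ∀ n, Cp r univ (u n) := fun n => S.cp_of_subset (pCp n) (hC (huC n)) (hup n)
    set b1 := b \ ⋃ n ∈ {n | n < N}, K r (α, n) with hb1def
    have hb1not : ∀ y ∈ b1, ∀ n < N, y ∉ K r (α, n) := by
      intro y hy n hn h
      apply hy.2
      simp only [mem_iUnion, exists_prop]
      exact ⟨n, hn, h⟩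
    have hb1mem : ∀ y ∈ b, (∀ n < N, y ∉ K r (α, n)) → y ∈ b1 := by
      intro y hy h
      refine ⟨hy, ?_⟩
      simp only [mem_iUnion, exists_prop, not_exists, not_and]
      exact h
    have hb1Cp : Cp r univ b1 :=
      S.diff hbp (S.biUnion (finite_lt_nat N) fun n _ => Cp.of_K (mem_univ _))
    have hb1lev : ∀ y ∈ b1, y.1 ≤ α → N ≤ r α y ∧ Odd (r α y) ∧ K r (α, r α y) ⊆ b1 := by
      intro y hy hyα
      have h1 : y ∈ K r (α, r α y) := ⟨hyα, rfl⟩
      have h2 : N ≤ r α y := by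
        by_contra hcon
        exact hb1not y hy _ (not_le.1 hcon) h1
      obtain ⟨h3, h4⟩ := hN2 _ (hNN2.trans h2)
      have h5 : (α, r α y) ∈ b := (h3 y h1).1 hy.1
      refine ⟨h2, ?_, ?_⟩
      · rw [← Nat.not_even_iff_odd]
        exact fun he => h4 he h5
      · intro z hz
        apply hb1mem z ((h3 z hz).2 h5)
        intro n hn hzn
        have := (mem_K_iff_of hz).1 hzn
        omega
    have hb1C : b1 ∈ C := by
      apply sat_mem hb S hC hb1Cp
      intro x hx w hw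
      by_cases hxα : x.1 ≤ α
      · obtain ⟨h1, h2, h3⟩ := hb1lev x hx hxα
        have h4 : K r (α, r α x) ∈ C := hm0 _ (hNm.trans h1) h2
        have h5 := hw _ h4
        cases w with
        | none =>
          exact absurd (h5.1 ⟨hxα, rfl⟩) (fun h' => not_both hb S (Cp.of_K (mem_univ _)) h')
        | some y => exact ⟨y, h3 (h5.1 ⟨hxα, rfl⟩), rfl⟩
      · exact ⟨x, hx, hsep x (hγα.trans (not_le.1 hxα).le) w hw⟩
    have hb1Y : ∀ y ∈ b1, y ∉ Ysp r α m0 := by
      intro y hy hyY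
      obtain ⟨h1, h2, _⟩ := hb1lev y hy hyY.1
      rcases hyY.2 with h | h
      · exact (Nat.not_even_iff_odd.2 h2) h
      · omega
    have hpK : ∀ n, ¬ (Even n ∨ n < m0) → p n = K r (α, n) := fun n hn =>
      podd n (notspec n hn).1 (notspec n hn).2
    have hb1p : ∀ n < N, ∀ y ∈ b1, y ∉ p n := by
      intro n hn y hy hyp
      by_cases hsp : Even n ∨ n < m0
      · exact hb1Y y hy (psp n hsp hyp)
      · rw [hpK n hsp] at hyp
        exact hb1not y hy n hn hyp
    refine ⟨b1 ∪ ⋃ n ∈ {n | n < N}, u n, ?_, ?_, hbp, ?_, ?_⟩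
    · exact BooleanSubalgebra.sup_mem hb1C (mem_biUnion_C (finite_lt_nat N) fun n _ => huC n)
    · exact S.union hb1Cp (S.biUnion (finite_lt_nat N) fun n _ => huCp n)
    · intro y hy
      have h1 : ∀ n, y ∉ K r (α, n) := fun n h => absurd h.1 (not_le.2 hy)
      have h2 : ∀ n, y ∉ u n := fun n h => absurd (ple n y (hup n h)) (not_le.2 hy)
      simp only [mem_union, mem_iUnion, exists_prop]
      constructor
      · rintro (h | ⟨n, _, h⟩)
        · exact h.1
        · exact absurd h (h2 n)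
      · intro h
        exact Or.inl (hb1mem y h fun n _ => h1 n)
    · intro n
      by_cases hn : n < N
      · have : (b1 ∪ ⋃ n ∈ {n | n < N}, u n) ∩ p n = u n := by
          ext y
          simp only [mem_union, mem_iUnion, exists_prop, mem_inter_iff]
          constructor
          · rintro ⟨h1 | ⟨k, _, h1⟩, h2⟩
            · exact absurd h2 (hb1p n hn y h1)
            · by_cases hkn : k = n
              · rw [← hkn]; exact h1
              · exact absurd h2 (pdis k n hkn y (hup k h1))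
          · intro h
            exact ⟨Or.inr ⟨n, hn, h⟩, hup n h⟩
        rw [this]
        exact hu n
      · have hn' : N ≤ n := not_lt.1 hn
        have hcp : (b1 ∪ ⋃ n ∈ {n | n < N}, u n) ∩ p n = b1 ∩ p n := by
          ext y
          simp only [mem_union, mem_iUnion, exists_prop, mem_inter_iff]
          constructor
          · rintro ⟨h1 | ⟨k, hk, h1⟩, h2⟩
            · exact ⟨h1, h2⟩
            · have hkn : k ≠ n := by
                have hk' : k < N := hk
                omega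
              exact absurd h2 (pdis k n hkn y (hup k h1))
          · rintro ⟨h1, h2⟩
            exact ⟨Or.inl h1, h2⟩
        rw [hcp]
        obtain ⟨h1, h2⟩ := hN2 n (hNN2.trans hn')
        by_cases he : Even n
        · have h3 : b ∩ K r (α, n) = ∅ := by
            rw [Set.eq_empty_iff_forall_notMem]
            rintro y ⟨hy1, hy2⟩
            exact h2 he ((h1 y hy2).1 hy1)
          have h4 : b1 ∩ p n = ∅ := by
            rw [Set.eq_empty_iff_forall_notMem]
            rintro y ⟨hy1, hy2⟩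
            exact hb1Y y hy1 (psp n (Or.inl he) hy2)
          rw [h3, h4]
          exact (hends n).1
        · have ho : Odd n := Nat.not_even_iff_odd.1 he
          have hpn := podd n (hNm.trans hn') ho
          rw [hpn]
          by_cases hm : (α, n) ∈ b
          · have h5 : b ∩ K r (α, n) = K r (α, n) := by
              apply inter_eq_self_of_subset_right
              intro y hy
              exact (h1 y hy).2 hm
            have h6 : b1 ∩ K r (α, n) = K r (α, n) := by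
              apply inter_eq_self_of_subset_right
              intro y hy
              apply hb1mem y ((h1 y hy).2 hm)
              intro k hk hyk
              have := (mem_K_iff_of hy).1 hyk
              omega
            rw [h5, h6]
            have h7 := (hends n).2
            rwa [hpn] at h7
          · have h5 : b ∩ K r (α, n) = ∅ := by
              rw [Set.eq_empty_iff_forall_notMem]
              rintro y ⟨hy1, hy2⟩
              exact hm ((h1 y hy2).1 hy1)
            have h6 : b1 ∩ K r (α, n) = ∅ := by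
              rw [Set.eq_empty_iff_forall_notMem]
              rintro y ⟨hy1, hy2⟩
              exact hm ((h1 y hy2).1 hy1.1)
            rw [h5, h6]
            exact (hends n).1
  · -- order
    rintro c b c' b' ⟨hc, hcp, hbp, htop, hΦ1⟩ ⟨hc', hcp', hbp', htop', hΦ2⟩
    constructor
    · intro hsub y hy
      by_cases hyα : α < y.1
      · have h1 : y ∈ c := (htop y hyα).2 hy
        rw [← htop' y hyα]
        by_contra h2
        have h3 := hD y (hsub ⟨h1, h2⟩)
        exact absurd (h3.trans_le hγα) (not_lt.2 hyα.le)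
      · have h1 : y ∈ K r (α, r α y) := ⟨not_lt.1 hyα, rfl⟩
        have h2 := (q3 (r α y) _ _ _ _ (hΦ1 (r α y)) (hΦ2 (r α y))).1 (by
          rintro z ⟨⟨hz1, hz2⟩, hz3⟩
          exact hsub ⟨hz1, fun h => hz3 ⟨h, hz2⟩⟩)
        exact (h2 ⟨hy, h1⟩).1
    · rintro hsub y ⟨hy1, hy2⟩
      by_cases hyα : α < y.1
      · exact absurd ((htop' y hyα).2 (hsub ((htop y hyα).1 hy1))) hy2
      · obtain ⟨n, hn⟩ := pcover c hc hcp y hy1 (not_lt.1 hyα)
        have h2 := (q3 n _ _ _ _ (hΦ1 n) (hΦ2 n)).2 (inter_subset_inter_left _ hsub)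
        exact h2 ⟨⟨hy1, hn⟩, fun h => hy2 h.1⟩

/-- bounded sets are not co-compact -/
theorem not_cocompact_of_bdd (hb : Big Ω) (S : Sys r univ) {c : Set (Ω × ℕ)} {γ : Ω}
    (h : ∀ y ∈ c, y.1 < γ) (hc : Cp r univ cᶜ) : False := by
  obtain ⟨ε, hε⟩ := hb.exists_gt γ
  have hne : cᶜ.Nonempty := ⟨(γ, 0), fun h' => absurd (h _ h') (lt_irrefl _)⟩
  obtain ⟨δ, _, htop, _, _⟩ := hc.top S.nrm hne
  obtain ⟨ζ, hζ⟩ := hb.exists_gt (max γ δ)
  have h1 : (ζ, 0) ∈ cᶜ := fun h' => absurd (h _ h')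
    (not_lt.2 ((le_max_left _ _).trans hζ.le))
  exact absurd (htop _ h1) (not_le.2 ((le_max_right _ _).trans_lt hζ))

theorem main_iso (hb : Big Ω) (S : Sys r univ) {C : BooleanSubalgebra (Set (Ω × ℕ))}
    (hC : C ≤ Bal S) {γ : Ω}
    (hsep : ∀ x : Ω × ℕ, γ ≤ x.1 → ∀ w, (x, w) ∈ Rel r C → w = some x) {β : Ω}
    (hodd : ∀ α, β ≤ α → ∀ᶠ n in atTop, Odd n → K r (α, n) ∈ C) {D : Set (Ω × ℕ)}
    (hD : ∀ y ∈ D, y.1 < γ) :
    ∃ E : Set (Ω × ℕ) → Set (Ω × ℕ) → Prop,
      (∀ c b, E c b → c ∈ C ∧ b ∈ Bal S) ∧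
      (∀ c ∈ C, ∃ b, E c b) ∧ (∀ b ∈ Bal S, ∃ c, E c b) ∧
      (∀ c b c' b', E c b → E c' b' → (c \ c' ⊆ D ↔ b ⊆ b')) := by
  obtain ⟨E, e0, e1, e2, e3⟩ := main_cpt hb S hC hsep hodd hD
  -- the empty set
  have hE0 : E ∅ ∅ := by
    obtain ⟨v, hv⟩ := e1 ∅ BooleanSubalgebra.bot_mem .empty
    obtain ⟨u, hu⟩ := e2 ∅ .empty
    have : v ⊆ ∅ := (e3 _ _ _ _ hv hu).1 (by rw [empty_diff]; exact empty_subset _)
    rwa [subset_empty_iff.1 this] at hv
  have hdis : ∀ c b e f, E c b → E e f → (c ∩ e ⊆ D ↔ b ∩ f = ∅) := by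
    intro c b e f h1 h2
    constructor
    · intro hsub
      obtain ⟨u, hu⟩ := e2 (b ∩ f) (S.inter (e0 _ _ h1).2.2 (e0 _ _ h2).2.2)
      have h3 : u \ c ⊆ D := (e3 _ _ _ _ hu h1).2 inter_subset_left
      have h4 : u \ e ⊆ D := (e3 _ _ _ _ hu h2).2 inter_subset_right
      have h5 : u \ ∅ ⊆ D := by
        rintro y ⟨hy, _⟩
        by_cases hyc : y ∈ c
        · by_cases hye : y ∈ e
          · exact hsub ⟨hyc, hye⟩
          · exact h4 ⟨hy, hye⟩
        · exact h3 ⟨hy, hyc⟩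
      exact subset_empty_iff.1 ((e3 _ _ _ _ hu hE0).1 h5)
    · intro hbf
      obtain ⟨v, hv⟩ := e1 (c ∩ e) (BooleanSubalgebra.inf_mem (e0 _ _ h1).1 (e0 _ _ h2).1)
        (S.inter (e0 _ _ h1).2.1 (e0 _ _ h2).2.1)
      have h3 : v ⊆ b := (e3 _ _ _ _ hv h1).1 (by
        rw [diff_eq_empty.2 inter_subset_left]; exact empty_subset _)
      have h4 : v ⊆ f := (e3 _ _ _ _ hv h2).1 (by
        rw [diff_eq_empty.2 inter_subset_right]; exact empty_subset _)
      have h5 : v ⊆ ∅ := by rw [← hbf]; exact subset_inter h3 h4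
      have h6 := (e3 _ _ _ _ hv hE0).2 h5
      rwa [diff_empty] at h6
  refine ⟨fun c b => E c b ∨ E cᶜ bᶜ, ?_, ?_, ?_, ?_⟩
  · rintro c b (h | h)
    · exact ⟨(e0 _ _ h).1, Or.inl (e0 _ _ h).2.2⟩
    · refine ⟨?_, Or.inr (e0 _ _ h).2.2⟩
      have := BooleanSubalgebra.compl_mem (e0 _ _ h).1
      rwa [compl_compl] at this
  · intro c hc
    rcases hC hc with h | h
    · obtain ⟨b, hb'⟩ := e1 c hc h
      exact ⟨b, Or.inl hb'⟩
    · obtain ⟨b, hb'⟩ := e1 cᶜ (BooleanSubalgebra.compl_mem hc) h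
      exact ⟨bᶜ, Or.inr (by rwa [compl_compl])⟩
  · intro b hbB
    rcases hbB with h | h
    · obtain ⟨c, hc⟩ := e2 b h
      exact ⟨c, Or.inl hc⟩
    · obtain ⟨c, hc⟩ := e2 bᶜ h
      exact ⟨cᶜ, Or.inr (by rwa [compl_compl])⟩
  · rintro c b c' b' (h1 | h1) (h2 | h2)
    · exact e3 _ _ _ _ h1 h2
    · have h3 := hdis _ _ _ _ h1 h2
      have h4 : c \ c' = c ∩ c'ᶜ := diff_eq c c'
      rw [h4, h3, ← disjoint_iff_inter_eq_empty, disjoint_compl_right_iff_subset]
    · constructor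
      · intro h
        exfalso
        have h3 : Cp r univ (c \ c')ᶜ := by
          have : (c \ c')ᶜ = cᶜ ∪ c' := by
            ext y; simp only [mem_compl_iff, mem_diff, mem_union]; tauto
          rw [this]
          exact S.union (e0 _ _ h1).2.1 (e0 _ _ h2).2.1
        exact not_cocompact_of_bdd hb S (fun y hy => hD y (h hy)) h3
      · intro h
        exfalso
        have h3 : Cp r univ b := S.cp_of_subset (e0 _ _ h2).2.2 (Or.inr (e0 _ _ h1).2.2) h
        exact not_both hb S h3 (e0 _ _ h1).2.2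
    · have h3 := e3 _ _ _ _ h2 h1
      have h4 : c \ c' = c'ᶜ \ cᶜ := by
        ext y; simp only [mem_compl_iff, mem_diff]; tauto
      rw [h4, h3, compl_subset_compl]

end H85
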