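import Mathlib
import Pool.Agent.H85.MainIso

set_option autoImplicit false

namespace H85

open Set Filter

variable {Ω : Type} [LinearOrder Ω] [WellFoundedLT Ω]
variable {r : Ω → Ω × ℕ → ℕ}

/-- an ideal of the algebra -/
structure IdS (S : Sys r univ) (J : Set (Set (Ω × ℕ))) : Prop where
  sub : ∀ b ∈ J, b ∈ Bal S
  emp : ∅ ∈ J
  uni : ∀ b ∈ J, ∀ c ∈ J, b ∪ c ∈ J
  low : ∀ b ∈ J, ∀ c ∈ Bal S, c ⊆ b → c ∈ J

theorem Cp.exists_bdd (hb : Big Ω) (S : Sys r univ) {b : Set (Ω × ℕ)} (h : Cp r univ b) :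
    ∃ γ : Ω, ∀ y ∈ b, y.1 < γ := by
  rcases b.eq_empty_or_nonempty with rfl | hne
  · obtain ⟨a⟩ := hb.nonempty
    exact ⟨a, by simp⟩
  · obtain ⟨δ, _, htop, _, _⟩ := h.top S.nrm hne
    obtain ⟨γ, hγ⟩ := hb.exists_gt δ
    exact ⟨γ, fun y hy => (htop y hy).trans_lt hγ⟩

/-- the system below `γ` -/
theorem Sys.below (S : Sys r univ) (γ : Ω) : Sys r (Set.Iio γ) := S.Iio (mem_univ γ)

theorem below_le (S : Sys r univ) (γ : Ω) : Bal (S.below γ) ≤ Bal S := by
  rintro b (h | h)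
  · exact Or.inl (h.mono (subset_univ _))
  · exact Or.inr (h.mono (subset_univ _))

/-- the subalgebra generated by an ideal -/
def IdS.alg {S : Sys r univ} {J : Set (Set (Ω × ℕ))} (h : IdS S J) :
    BooleanSubalgebra (Set (Ω × ℕ)) where
  carrier := {b | b ∈ J ∨ bᶜ ∈ J}
  supClosed' := by
    rintro b (hb | hb) c (hc | hc)
    · exact Or.inl (h.uni b hb c hc)
    · right
      refine h.low _ hc _ ?_ ?_
      · exact BooleanSubalgebra.compl_mem (BooleanSubalgebra.sup_mem (h.sub b hb)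
          (by have := BooleanSubalgebra.compl_mem (h.sub _ hc); rwa [compl_compl] at this))
      · exact compl_subset_compl.2 subset_union_right
    · right
      refine h.low _ hb _ ?_ ?_
      · exact BooleanSubalgebra.compl_mem (BooleanSubalgebra.sup_mem
          (by have := BooleanSubalgebra.compl_mem (h.sub _ hb); rwa [compl_compl] at this)
          (h.sub c hc))
      · exact compl_subset_compl.2 subset_union_left
    · right
      refine h.low _ hb _ ?_ ?_
      · exact BooleanSubalgebra.compl_mem (BooleanSubalgebra.sup_mem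
          (by have := BooleanSubalgebra.compl_mem (h.sub _ hb); rwa [compl_compl] at this)
          (by have := BooleanSubalgebra.compl_mem (h.sub _ hc); rwa [compl_compl] at this))
      · exact compl_subset_compl.2 subset_union_left
  infClosed' := by
    rintro b (hb | hb) c (hc | hc)
    · exact Or.inl (h.low _ hb _ (BooleanSubalgebra.inf_mem (h.sub b hb) (h.sub c hc))
        inter_subset_left)
    · left
      refine h.low _ hb _ ?_ inter_subset_left
      exact BooleanSubalgebra.inf_mem (h.sub b hb)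
        (by have := BooleanSubalgebra.compl_mem (h.sub _ hc); rwa [compl_compl] at this)
    · left
      refine h.low _ hc _ ?_ inter_subset_right
      exact BooleanSubalgebra.inf_mem
        (by have := BooleanSubalgebra.compl_mem (h.sub _ hb); rwa [compl_compl] at this)
        (h.sub c hc)
    · right
      have : (b ⊓ c)ᶜ = bᶜ ∪ cᶜ := compl_inter b c
      rw [this]
      exact h.uni _ hb _ hc
  compl_mem' := by
    rintro b (hb | hb)
    · right; rw [compl_compl]; exact hb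
    · exact Or.inl hb
  bot_mem' := Or.inl h.emp

/-- the elements congruent to an element of `A` modulo `J` -/
def IdS.plus {S : Sys r univ} {J : Set (Set (Ω × ℕ))} (h : IdS S J)
    {A : BooleanSubalgebra (Set (Ω × ℕ))} (hA : A ≤ Bal S) :
    BooleanSubalgebra (Set (Ω × ℕ)) where
  carrier := {b | b ∈ Bal S ∧ ∃ a ∈ A, symmDiff a b ∈ J}
  supClosed' := by
    rintro b ⟨hb, a, ha, hab⟩ c ⟨hc, d, hd, hcd⟩
    refine ⟨BooleanSubalgebra.sup_mem hb hc, a ⊔ d, BooleanSubalgebra.sup_mem ha hd, ?_⟩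
    refine h.low _ (h.uni _ hab _ hcd) _ ?_ ?_
    · have h1 := BooleanSubalgebra.sup_mem (hA ha) (hA hd)
      have h2 := BooleanSubalgebra.sup_mem hb hc
      exact BooleanSubalgebra.sup_mem (BooleanSubalgebra.sdiff_mem h1 h2)
        (BooleanSubalgebra.sdiff_mem h2 h1)
    · intro y
      simp only [Set.mem_symmDiff, sup_eq_union, mem_union]
      tauto
  infClosed' := by
    rintro b ⟨hb, a, ha, hab⟩ c ⟨hc, d, hd, hcd⟩
    refine ⟨BooleanSubalgebra.inf_mem hb hc, a ⊓ d, BooleanSubalgebra.inf_mem ha hd, ?_⟩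
    refine h.low _ (h.uni _ hab _ hcd) _ ?_ ?_
    · have h1 := BooleanSubalgebra.inf_mem (hA ha) (hA hd)
      have h2 := BooleanSubalgebra.inf_mem hb hc
      exact BooleanSubalgebra.sup_mem (BooleanSubalgebra.sdiff_mem h1 h2)
        (BooleanSubalgebra.sdiff_mem h2 h1)
    · intro y
      simp only [Set.mem_symmDiff, inf_eq_inter, mem_union, mem_inter_iff]
      tauto
  compl_mem' := by
    rintro b ⟨hb, a, ha, hab⟩
    refine ⟨BooleanSubalgebra.compl_mem hb, aᶜ, BooleanSubalgebra.compl_mem ha, ?_⟩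
    have : symmDiff aᶜ bᶜ = symmDiff a b := compl_symmDiff_compl _ _
    rw [this]; exact hab
  bot_mem' := ⟨BooleanSubalgebra.bot_mem, ⊥, BooleanSubalgebra.bot_mem, by
    rw [symmDiff_self]; exact h.emp⟩

section
variable {G : Ω → Gs Ω}

theorem quot_cases (hb : Big Ω) (S : Sys r univ) (hreq : ∀ α, Req G α r (r α))
    (hG : ∀ β, Low β (G β)) (hst : ∀ R : Gs Ω, IsStationary {β | restr β R = G β})
    {J : Set (Set (Ω × ℕ))} (h : IdS S J) :
    (∃ γ, ∀ b ∈ Bal S, ∃ a ∈ Bal (S.below γ), symmDiff a b ∈ J) ∨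
    (∃ E : Set (Ω × ℕ) → Set (Ω × ℕ) → Prop,
      (∀ c b, E c b → c ∈ Bal S ∧ b ∈ Bal S) ∧
      (∀ c ∈ Bal S, ∃ b, E c b) ∧ (∀ b ∈ Bal S, ∃ c, E c b) ∧
      (∀ c b c' b', E c b → E c' b' → (c \ c' ∈ J ↔ b ⊆ b'))) := by
  classical
  by_cases hcomp : ∀ b ∈ J, Cp r univ b
  swap
  · left
    push Not at hcomp
    obtain ⟨b0, hb0, hn0⟩ := hcomp
    have hc0 : Cp r univ b0ᶜ := (h.sub b0 hb0).resolve_left hn0
    obtain ⟨γ, hγ⟩ := hc0.exists_bdd hb S
    refine ⟨γ, fun b hbB => ?_⟩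
    have h1 : Cp r univ (b0ᶜ ∩ b) := S.inter_Bal hc0 hbB
    refine ⟨b0ᶜ ∩ b, Or.inl (h1.lt_lower S fun y hy => hγ y hy.1), ?_⟩
    refine h.low b0 hb0 _ ?_ ?_
    · exact BooleanSubalgebra.sup_mem (BooleanSubalgebra.sdiff_mem (Or.inl h1) hbB)
        (BooleanSubalgebra.sdiff_mem hbB (Or.inl h1))
    · intro y
      simp only [Set.mem_symmDiff, mem_inter_iff, mem_compl_iff]
      tauto
  by_cases hJc : J.Countable
  · right
    have hbd : ∀ b : Set (Ω × ℕ), ∃ g : Ω, Cp r univ b → ∀ y ∈ b, y.1 < g := by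
      intro b
      by_cases hbp : Cp r univ b
      · obtain ⟨g, hg⟩ := hbp.exists_bdd hb S
        exact ⟨g, fun _ => hg⟩
      · obtain ⟨a⟩ := hb.nonempty
        exact ⟨a, fun h' => absurd h' hbp⟩
    choose f hf using hbd
    obtain ⟨γ, hγ⟩ := hb.bdd (hJc.image f)
    have hD : ∀ y ∈ ⋃₀ J, y.1 < γ := by
      rintro y ⟨j, hj, hy⟩
      exact (hf j (hcomp j hj) y hy).trans (hγ _ ⟨j, hj, rfl⟩)
    obtain ⟨E, e0, e1, e2, e3⟩ := main_iso hb S (le_refl (Bal S)) (γ := γ)
      (fun x _ w hw => sep_Bal hb S x w hw) (β := γ)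
      (fun α _ => Eventually.of_forall fun n _ => Or.inl (Cp.of_K (mem_univ _))) hD
    refine ⟨E, e0, e1, e2, ?_⟩
    intro c b c' b' h1 h2
    rw [← e3 _ _ _ _ h1 h2]
    constructor
    · intro h3
      exact subset_sUnion_of_mem h3
    · intro h3
      have hgB : c \ c' ∈ Bal S := BooleanSubalgebra.sdiff_mem (e0 _ _ h1).1 (e0 _ _ h2).1
      have hgc : Cp r univ (c \ c') := by
        rcases hgB with h4 | h4
        · exact h4
        · exact absurd h4 (fun h' => not_cocompact_of_bdd hb S (fun y hy => hD y (h3 hy)) h')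
      have h5 : ∃ j ∈ J, c \ c' ⊆ j := by
        refine S.compact (P := fun e => ∃ j ∈ J, e ⊆ j) ?_ ?_ ?_ hgc ?_
        · exact ⟨∅, h.emp, subset_rfl⟩
        · rintro e e' ⟨j, hj, h6⟩ ⟨j', hj', h7⟩
          exact ⟨j ∪ j', h.uni j hj j' hj', union_subset_union h6 h7⟩
        · rintro e e' hee ⟨j, hj, h6⟩
          exact ⟨j, hj, hee.trans h6⟩
        · intro y hy
          obtain ⟨j, hj, hyj⟩ := h3 hy
          exact ⟨j, hcomp j hj, hyj, j, hj, subset_rfl⟩
      obtain ⟨j, hj, h6⟩ := h5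
      exact h.low j hj _ hgB h6
  · left
    have hCle : h.alg ≤ Bal S := by
      rintro b (hb' | hb')
      · exact h.sub b hb'
      · have := BooleanSubalgebra.compl_mem (h.sub _ hb')
        rwa [compl_compl] at this
    have hCu : ¬ (h.alg : Set (Set (Ω × ℕ))).Countable := by
      intro hc
      apply hJc
      exact hc.mono fun b hb' => Or.inl hb'
    obtain ⟨γ, hγ⟩ := exists_sep_level hb S hreq hG hst hCle hCu
    refine ⟨γ, ?_⟩
    have hC'le : h.plus (below_le S γ) ≤ Bal S := fun b hb' => hb'.1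
    have hJC' : ∀ j ∈ J, j ∈ h.plus (below_le S γ) := by
      intro j hj
      refine ⟨h.sub j hj, ⊥, BooleanSubalgebra.bot_mem, ?_⟩
      rw [bot_symmDiff]; exact hj
    have hAC' : ∀ a ∈ Bal (S.below γ), a ∈ h.plus (below_le S γ) := by
      intro a ha
      refine ⟨below_le S γ ha, a, ha, ?_⟩
      rw [symmDiff_self]; exact h.emp
    have hsep : ∀ x w, (x, w) ∈ Rel r (h.plus (below_le S γ)) → w = some x := by
      intro x w hw
      by_contra hne
      by_cases hx : γ ≤ x.1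
      · have h1 : (x, none) ∉ Rel r h.alg := by
          intro h'
          have := hγ x hx _ h'
          simp at this
        obtain ⟨c, hc, hcp, hxc⟩ := exists_cp_of_not_rel hb S hCle h1
        have hcJ : c ∈ J := by
          rcases hc with hc | hc
          · exact hc
          · exact absurd (hcomp _ hc) (fun h' => not_both hb S hcp h')
        cases w with
        | none => exact not_both hb S hcp ((hw c (hJC' c hcJ)).1 hxc)
        | some y =>
          have hxy : x ≠ y := fun h' => hne (by rw [h'])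
          obtain ⟨V, hV, h2, h3⟩ := exists_V S hxy isLowerSet_univ (mem_univ x.1)
          have h4 : c ∩ V ∈ J := h.low c hcJ _ (Or.inl (S.inter hcp hV)) inter_subset_left
          exact h3 ((hw _ (hJC' _ h4)).1 ⟨hxc, h2⟩).2
      · have hx' : x.1 ∈ Iio γ := not_le.1 hx
        cases w with
        | none =>
          have h1 : K r x ∈ Bal (S.below γ) := Or.inl (Cp.of_K hx')
          exact not_both hb S (Cp.of_K (mem_univ _)) ((hw _ (hAC' _ h1)).1 (S.nrm.mem_K x))
        | some y =>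
          have hxy : x ≠ y := fun h' => hne (by rw [h'])
          obtain ⟨V, hV, h2, h3⟩ := exists_V S hxy (isLowerSet_Iio γ) hx'
          exact h3 ((hw _ (hAC' _ (Or.inl hV))).1 h2)
    have hcpt : ∀ b, Cp r univ b → b ∈ h.plus (below_le S γ) := by
      intro b hb'
      apply sat_mem hb S hC'le hb'
      intro x hx w hw
      exact ⟨x, hx, hsep x w hw⟩
    intro b hbB
    have : b ∈ h.plus (below_le S γ) := by
      rcases hbB with h1 | h1
      · exact hcpt b h1
      · have := BooleanSubalgebra.compl_mem (hcpt _ h1)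
        rwa [compl_compl] at this
    exact this.2

end

theorem quot_factor (hb : Big Ω) (S : Sys r univ) {J : Set (Set (Ω × ℕ))} (h : IdS S J) {γ : Ω}
    (hγ : ∀ b ∈ Bal S, ∃ a ∈ Bal (S.below γ), symmDiff a b ∈ J) :
    ∃ b ∈ Bal S, ∃ E : Set (Ω × ℕ) → Set (Ω × ℕ) → Prop,
      (∀ c b', E c b' → c ∈ Bal S ∧ b' ∈ Bal S ∧ b' ⊆ b) ∧
      (∀ c ∈ Bal S, ∃ b', E c b') ∧ (∀ b' ∈ Bal S, b' ⊆ b → ∃ c, E c b') ∧
      (∀ c b c' b', E c b → E c' b' → (c \ c' ∈ J ↔ b ⊆ b')) := by
  classical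
  by_cases hu : (univ : Set (Ω × ℕ)) ∈ J
  · refine ⟨∅, Or.inl .empty, fun c b' => c ∈ Bal S ∧ b' = ∅, ?_, ?_, ?_, ?_⟩
    · rintro c b' ⟨h1, h2⟩
      refine ⟨h1, ?_, ?_⟩
      · rw [h2]; exact Or.inl .empty
      · rw [h2]
    · intro c hc
      exact ⟨∅, hc, rfl⟩
    · intro b' _ h2
      exact ⟨∅, Or.inl .empty, subset_empty_iff.1 h2⟩
    · rintro c b c' b' ⟨h1, h2⟩ ⟨h3, h4⟩
      constructor
      · intro _
        rw [h2]; exact empty_subset _
      · intro _
        exact h.low _ hu _ (BooleanSubalgebra.sdiff_mem h1 h3) (subset_univ _)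
  let A := Bal (S.below γ)
  have hA : A ≤ Bal S := below_le S γ
  let J' : Set ↥A := {a | (a : Set (Ω × ℕ)) ∈ J}
  have hJ' : IsIdl J' := by
    refine ⟨h.emp, ?_, ?_⟩
    · intro x y hxy hy
      exact h.low _ hy _ (hA x.2) hxy
    · intro x y hx hy
      exact h.uni _ hx _ hy
  have htop : (⊤ : ↥A) ∉ J' := hu
  have hfew : Few (cb J' (od γ)) 1 (⊤ : ↥A) := by
    intro s hs hd
    by_contra hcon
    push Not at hcon
    obtain ⟨x, hx, y, hy, hxy⟩ := Finset.one_lt_card.1 hcon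
    have hco : ∀ x ∈ s, Cp r univ ((x : Set (Ω × ℕ))ᶜ) := by
      intro x hx
      rcases x.2 with h1 | h1
      · exfalso
        apply (hs x hx).2
        apply mem_cb_of_level S hA hJ' (h1.mono (subset_univ _))
        intro y hy
        exact h1.fst_mem S.nrm (isLowerSet_Iio γ) hy
      · exact h1.mono (subset_univ _)
    have h1 := S.union (hco x hx) (hco y hy)
    have h2 : (x : Set (Ω × ℕ))ᶜ ∪ (y : Set (Ω × ℕ))ᶜ = univ := by
      rw [Set.eq_univ_iff_forall]
      intro z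
      by_contra hz
      rw [mem_union, not_or, mem_compl_iff, mem_compl_iff, not_not, not_not] at hz
      exact coe_disj (hd hx hy hxy) hz.1 hz.2
    rw [h2] at h1
    exact not_both hb S h1 (by rw [compl_univ]; exact .empty)
  obtain ⟨ξ, hξ, n, hn, hT⟩ := exists_type hJ' (hfew.mem_cb (Order.lt_add_one_iff.2 le_rfl)) htop
  obtain ⟨δ, hδ⟩ : ∃ δ : Ω, od δ = ξ := by
    rcases lt_or_eq_of_le (Order.lt_add_one_iff.1 hξ) with h1 | h1
    · obtain ⟨δ, _, hδ⟩ := od_surj h1
      exact ⟨δ, hδ⟩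
    · exact ⟨γ, h1.symm⟩
  subst hδ
  have hbCp : Cp r univ (⋃ i ∈ {i | i < n}, K r (δ, i)) :=
    S.biUnion (finite_lt_nat n) fun i _ => Cp.of_K (mem_univ _)
  have hble : ∀ y ∈ (⋃ i ∈ {i | i < n}, K r (δ, i)), y.1 ≤ δ := by
    intro y hy
    simp only [mem_iUnion, exists_prop] at hy
    obtain ⟨i, _, hi⟩ := hy
    exact hi.1
  have hbB : (⋃ i ∈ {i | i < n}, K r (δ, i)) ∈ Bal S := Or.inl hbCp
  have hT' : Typ ({⊥} : Set ↥(Bal S)) (od δ) n (⟨_, hbB⟩ : ↥(Bal S)) := by
    have := typ_of_level S (le_refl (Bal S)) isIdl_bot (a := 0) (fun x _ w hw => sep_Bal hb S x w hw)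
      (fun c hc y hy => by
        have hc' : c = ⊥ := hc
        rw [hc'] at hy
        exact absurd hy (notMem_empty y)) (δ := δ) (by rw [zero_add])
      (c := ⟨_, hbB⟩) hbCp hble
      (t := Finset.range n) (fun m => by
        rw [Finset.mem_range]
        show (δ, m) ∈ (⋃ i ∈ {i | i < n}, K r (δ, i)) ↔ m < n
        simp only [mem_iUnion, exists_prop]
        constructor
        · rintro ⟨i, hi, h1⟩
          have := S.nrm.eq_of_mem (x := (δ, i)) h1 rfl
          have h2 : m = i := congrArg Prod.snd this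
          rw [h2]; exact hi
        · intro h1
          exact ⟨m, h1, S.nrm.mem_K _⟩)
    rwa [Finset.card_range] at this
  have hAc : {x : ↥A | x ≤ ⊤}.Countable := by
    have h1 := countable_Cp (r := r) ((hb.cIic γ).mono Iio_subset_Iic_self)
    have h2 : (A : Set (Set (Ω × ℕ))).Countable := by
      refine (h1.union (h1.image compl)).mono ?_
      rintro c (hc | hc)
      · exact Or.inl hc
      · exact Or.inr ⟨cᶜ, hc, compl_compl c⟩
    exact MapsTo.countable_of_injOn (f := fun b : ↥A => (b : Set (Ω × ℕ)))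
      (t := (A : Set (Set (Ω × ℕ)))) (fun x _ => x.2) Subtype.val_injective.injOn h2
  have hBc : {x : ↥(Bal S) | x ≤ ⟨_, hbB⟩}.Countable := by
    have h1 := countable_Cp (r := r) (hb.cIic δ)
    refine MapsTo.countable_of_injOn (f := fun b : ↥(Bal S) => (b : Set (Ω × ℕ)))
      (t := {b | Cp r (Iic δ) b}) ?_ Subtype.val_injective.injOn h1
    intro x hx
    have hx' : (x : Set (Ω × ℕ)) ⊆ _ := hx
    exact (S.cp_of_subset hbCp x.2 hx').le_lower S (fun y hy => hble y (hx' hy))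
  obtain ⟨E, h1, h2, h3, h4⟩ := classify.{0} hJ' isIdl_bot (ζ := od γ + 1) (ζ' := od δ + 1)
    (hfew.mem_cb (Order.lt_add_one_iff.2 le_rfl)) (hT'.mem_succ (Order.lt_add_one_iff.2 le_rfl))
    (Or.inr ⟨od δ, n, hn, hT, hT'⟩) hAc hBc
  refine ⟨_, hbB, fun c b' => c ∈ Bal S ∧ ∃ a : ↥A, symmDiff (a : Set (Ω × ℕ)) c ∈ J ∧
    ∃ hb' : b' ∈ Bal S, E a ⟨b', hb'⟩, ?_, ?_, ?_, ?_⟩
  · rintro c b' ⟨hc, a, _, hb', hE⟩
    exact ⟨hc, hb', (h1 _ _ hE).2⟩
  · intro c hc
    obtain ⟨a, ha, hac⟩ := hγ c hc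
    obtain ⟨b', hb'⟩ := h2 ⟨a, ha⟩ le_top
    exact ⟨b', hc, ⟨a, ha⟩, hac, b'.2, hb'⟩
  · intro b' hb' hsub
    obtain ⟨a, ha⟩ := h3 ⟨b', hb'⟩ hsub
    refine ⟨a, hA a.2, a, ?_, hb', ha⟩
    rw [symmDiff_self]; exact h.emp
  · rintro c b1 c' b1' ⟨hc, a, hac, hb1, hE⟩ ⟨hc', a', hac', hb1', hE'⟩
    have h5 := h4 _ _ _ _ hE hE'
    have h6 : (a \ a') ∈ J' ↔ (a : Set (Ω × ℕ)) \ (a' : Set (Ω × ℕ)) ∈ J := Iff.rfl
    have h7 : ((⟨b1, hb1⟩ : ↥(Bal S)) \ ⟨b1', hb1'⟩) ∈ ({⊥} : Set ↥(Bal S)) ↔ b1 ⊆ b1' := by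
      rw [mem_singleton_iff, Subtype.ext_iff]
      show b1 \ b1' = ∅ ↔ _
      exact diff_eq_empty
    rw [← h7, ← h5, h6]
    constructor
    · intro h8
      refine h.low _ (h.uni _ (h.uni _ h8 _ hac) _ hac') _
        (BooleanSubalgebra.sdiff_mem (hA a.2) (hA a'.2)) ?_
      intro y
      simp only [Set.mem_symmDiff, mem_union, mem_diff]
      tauto
    · intro h8
      refine h.low _ (h.uni _ (h.uni _ h8 _ hac) _ hac') _
        (BooleanSubalgebra.sdiff_mem hc hc') ?_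
      intro y
      simp only [Set.mem_symmDiff, mem_union, mem_diff]
      tauto

end H85
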