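import Mathlib
import Pool.Agent.H85.Quo

set_option autoImplicit false

namespace H85

open Set Filter

theorem exists_equiv_of_rel {P Q : Type} (lp : P → P → Prop) (lq : Q → Q → Prop)
    (hp0 : ∀ x, lp x x) (hp1 : ∀ x y, lp x y → lp y x → x = y) (hq0 : ∀ x, lq x x)
    (hq1 : ∀ x y, lq x y → lq y x → x = y) (R : P → Q → Prop) (tot : ∀ p, ∃ q, R p q)
    (surj : ∀ q, ∃ p, R p q) (h : ∀ p q p' q', R p q → R p' q' → (lp p p' ↔ lq q q')) :
    ∃ e : P ≃ Q, ∀ x y, lq (e x) (e y) ↔ lp x y := by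
  choose f hf using tot
  have hinj : Function.Injective f := by
    intro x y hxy
    apply hp1
    · rw [h _ _ _ _ (hf x) (hf y), hxy]; exact hq0 _
    · rw [h _ _ _ _ (hf y) (hf x), hxy]; exact hq0 _
  have hsurj : Function.Surjective f := by
    intro q
    obtain ⟨p, hp⟩ := surj q
    refine ⟨p, hq1 _ _ ?_ ?_⟩
    · rw [← h _ _ _ _ (hf p) hp]; exact hp0 _
    · rw [← h _ _ _ _ hp (hf p)]; exact hp0 _
  exact ⟨Equiv.ofBijective f ⟨hinj, hsurj⟩, fun x y => (h _ _ _ _ (hf x) (hf y)).symm⟩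

theorem ringEquiv_of {R : Type} [CommRing R] (hR : ∀ x : R, x * x = x) {B : Type}
    [BooleanAlgebra B] (e : R ≃ B) (he : ∀ x y, e x ≤ e y ↔ x * y = x) :
    Nonempty (R ≃+* AsBoolRing B) := by
  let inst : BooleanRing R := { (inferInstance : CommRing R) with isIdempotentElem := hR }
  let e' : AsBoolAlg R ≃o B :=
    { toEquiv := ofBoolAlg.trans e
      map_rel_iff' := by
        intro x y
        show e (ofBoolAlg x) ≤ e (ofBoolAlg y) ↔ x ≤ y
        rw [he]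
        exact ofBoolAlg_mul_ofBoolAlg_eq_left_iff }
  let f : AsBoolRing (AsBoolAlg R) →+* AsBoolRing B :=
    BoundedLatticeHom.asBoolRing (e' : BoundedLatticeHom (AsBoolAlg R) B)
  have hf : Function.Bijective f := e'.bijective
  exact ⟨(RingEquiv.asBoolRingAsBoolAlg R).symm.trans (RingEquiv.ofBijective f hf)⟩

theorem quot_le_iff {B : Type} [BooleanAlgebra B] (J : Ideal (AsBoolRing B)) (a b : B) :
    Ideal.Quotient.mk J (toBoolRing a) * Ideal.Quotient.mk J (toBoolRing b) =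
      Ideal.Quotient.mk J (toBoolRing a) ↔ toBoolRing (a \ b) ∈ J := by
  rw [← map_mul, Ideal.Quotient.eq]
  have : toBoolRing a * toBoolRing b - toBoolRing a = toBoolRing (a \ b) := by
    rw [← ofBoolRing_inj, ofBoolRing_sub, ofBoolRing_mul]
    simp only [ofBoolRing_toBoolRing]
    rw [symmDiff_def, sdiff_inf_self_left, sdiff_eq_bot_iff.2 inf_le_left, bot_sup_eq]
  rw [this]

theorem quot_idem {B : Type} [BooleanAlgebra B] (J : Ideal (AsBoolRing B))
    (x : AsBoolRing B ⧸ J) : x * x = x := by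
  obtain ⟨a, rfl⟩ := Ideal.Quotient.mk_surjective x
  rw [← map_mul, BooleanRing.mul_self]

/-- properties of the final algebra -/
theorem exists_algebra {Ω : Type} [LinearOrder Ω] [WellFoundedLT Ω] (hb : Big Ω) {A : Ω → Set Ω}
    (hA : ∀ S : Set Ω, IsStationary {α | S ∩ Iio α = A α}) :
    ∃ (B : Type) (_ : BooleanAlgebra B), Uncountable B ∧
      (∀ C : BooleanSubalgebra B, Uncountable C → Nonempty (C ≃o B)) ∧
      (∀ J : Ideal (AsBoolRing B), Uncountable (AsBoolRing B ⧸ J) →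
        Nonempty ((AsBoolRing B ⧸ J) ≃+* AsBoolRing B)) ∧
      (∀ J : Ideal (AsBoolRing B), Countable (AsBoolRing B ⧸ J) →
        ∃ (b : B) (e : (AsBoolRing B ⧸ J) ≃ Set.Iic b), ∀ x y, e x ≤ e y ↔ x * y = x) := by
  classical
  obtain ⟨G, hG, hst⟩ := exists_guess hb hA
  obtain ⟨r, hreq⟩ := exists_system hb.cIic hG
  have S : Sys r univ := ⟨fun γ n => (hreq γ).1 n, isLowerSet_univ, fun α _ => (hreq α).2.1⟩
  have hN := S.nrm
  have hunc : Uncountable ↥(Bal S) := by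
    have h1 := hb.unc
    let f : Ω → ↥(Bal S) := fun α => ⟨K r (α, 0), Or.inl (Cp.of_K (mem_univ _))⟩
    have hf : Function.Injective f := by
      intro α β hαβ
      have h2 : K r (α, 0) = K r (β, 0) := congrArg Subtype.val hαβ
      have h3 : (α, 0) ∈ K r (β, 0) := by rw [← h2]; exact hN.mem_K _
      have h4 : (β, 0) ∈ K r (α, 0) := by rw [h2]; exact hN.mem_K _
      exact le_antisymm h3.1 h4.1
    exact hf.uncountable
  refine ⟨↥(Bal S), inferInstance, hunc, ?_, ?_⟩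
  · -- ISAP
    intro C hC
    let C' : BooleanSubalgebra (Set (Ω × ℕ)) := C.map (Bal S).subtype
    have hC' : C' ≤ Bal S := by
      rintro _ ⟨c, _, rfl⟩
      exact c.2
    have hC'u : ¬ (C' : Set (Set (Ω × ℕ))).Countable := by
      intro hc
      have hg : MapsTo (fun c : ↥(Bal S) => (c : Set (Ω × ℕ))) (C : Set ↥(Bal S))
          (C' : Set (Set (Ω × ℕ))) := fun c hc => ⟨c, hc, rfl⟩
      have h1 := hg.countable_of_injOn Subtype.val_injective.injOn hc
      exact not_countable_univ_iff.2 hC (Set.countable_univ_iff.2 (Set.countable_coe_iff.2 h1))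
    obtain ⟨γ, hγ⟩ := exists_sep_level hb S hreq hG hst hC' hC'u
    obtain ⟨β, hβ⟩ := exists_odd_level hb S hreq hG hst hC' hC'u
    obtain ⟨E, e0, e1, e2, e3⟩ := main_iso hb S hC' hγ hβ (D := ∅) (by simp)
    obtain ⟨e, he⟩ := exists_equiv_of_rel (P := C) (Q := ↥(Bal S)) (· ≤ ·) (· ≤ ·)
      (fun x => le_refl x) (fun x y => le_antisymm) (fun x => le_refl x) (fun x y => le_antisymm)
      (fun c b => E ((c : ↥(Bal S)) : Set (Ω × ℕ)) (b : Set (Ω × ℕ)))
      (fun c => by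
        obtain ⟨b, hb'⟩ := e1 _ (show ((c : ↥(Bal S)) : Set (Ω × ℕ)) ∈ C' from ⟨c, c.2, rfl⟩)
        exact ⟨⟨b, (e0 _ _ hb').2⟩, hb'⟩)
      (fun b => by
        obtain ⟨c, hc⟩ := e2 b b.2
        obtain ⟨c', hc', rfl⟩ := (e0 _ _ hc).1
        exact ⟨⟨c', hc'⟩, hc⟩)
      (fun c b c' b' h1 h2 => by
        have := e3 _ _ _ _ h1 h2
        rw [subset_empty_iff, diff_eq_empty] at this
        exact this)
    exact ⟨⟨e, fun {x y} => he x y⟩⟩
  · -- quotients
    have hquot : ∀ J : Ideal (AsBoolRing ↥(Bal S)),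
        IdS S {b | ∃ h : b ∈ Bal S, toBoolRing (⟨b, h⟩ : ↥(Bal S)) ∈ J} := by
      intro J
      refine ⟨?_, ?_, ?_, ?_⟩
      · rintro b ⟨h, _⟩
        exact h
      · exact ⟨BooleanSubalgebra.bot_mem, J.zero_mem⟩
      · rintro b ⟨hb', h1⟩ c ⟨hc', h2⟩
        refine ⟨BooleanSubalgebra.sup_mem hb' hc', ?_⟩
        have h3 := J.add_mem (J.add_mem h1 h2) (J.mul_mem_left (toBoolRing ⟨b, hb'⟩) h2)
        convert h3 using 1
        rw [← toBoolRing_inf, ← toBoolRing_symmDiff, ← toBoolRing_symmDiff, symmDiff_symmDiff_inf]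
        rfl
      · rintro b ⟨hb', h1⟩ c hc' hcb
        refine ⟨hc', ?_⟩
        have h3 := J.mul_mem_left (toBoolRing ⟨c, hc'⟩) h1
        rw [← toBoolRing_inf] at h3
        have h4 : (⟨c, hc'⟩ : ↥(Bal S)) ⊓ ⟨b, hb'⟩ = ⟨c, hc'⟩ := inf_eq_left.2 hcb
        rwa [h4] at h3
    -- the relation gives the equivalence
    have hequiv : ∀ (J : Ideal (AsBoolRing ↥(Bal S))) (b0 : Set (Ω × ℕ)) (hb0 : b0 ∈ Bal S)
        (E : Set (Ω × ℕ) → Set (Ω × ℕ) → Prop),
        (∀ c b, E c b → c ∈ Bal S ∧ b ∈ Bal S ∧ b ⊆ b0) →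
        (∀ c ∈ Bal S, ∃ b, E c b) → (∀ b ∈ Bal S, b ⊆ b0 → ∃ c, E c b) →
        (∀ c b c' b', E c b → E c' b' →
          (c \ c' ∈ {b | ∃ h : b ∈ Bal S, toBoolRing (⟨b, h⟩ : ↥(Bal S)) ∈ J} ↔ b ⊆ b')) →
        ∃ e : (AsBoolRing ↥(Bal S) ⧸ J) ≃ Set.Iic (⟨b0, hb0⟩ : ↥(Bal S)),
          ∀ x y, e x ≤ e y ↔ x * y = x := by
      intro J b0 hb0 E e0 e1 e2 e3
      refine exists_equiv_of_rel (fun x y => x * y = x) (· ≤ ·) (quot_idem J) ?_
        (fun x => le_refl x) (fun x y => le_antisymm)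
        (fun q b => ∃ c : ↥(Bal S), Ideal.Quotient.mk J (toBoolRing c) = q ∧
          E (c : Set (Ω × ℕ)) ((b : ↥(Bal S)) : Set (Ω × ℕ))) ?_ ?_ ?_
      · intro x y h1 h2
        rw [← h1, mul_comm, h2]
      · intro q
        obtain ⟨c, rfl⟩ := Ideal.Quotient.mk_surjective q
        obtain ⟨b, hb'⟩ := e1 _ (ofBoolRing c).2
        exact ⟨⟨⟨b, (e0 _ _ hb').2.1⟩, (e0 _ _ hb').2.2⟩, ofBoolRing c, rfl, hb'⟩
      · rintro ⟨b, hb'⟩
        obtain ⟨c, hc⟩ := e2 b b.2 hb'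
        exact ⟨_, ⟨c, (e0 _ _ hc).1⟩, rfl, hc⟩
      · rintro _ b _ b' ⟨c, rfl, h1⟩ ⟨c', rfl, h2⟩
        rw [quot_le_iff]
        have h3 := e3 _ _ _ _ h1 h2
        constructor
        · intro h4
          exact h3.1 ⟨(c \ c').2, h4⟩
        · intro h4
          obtain ⟨_, h5⟩ := h3.2 h4
          exact h5
    have hcountable : ∀ J : Ideal (AsBoolRing ↥(Bal S)), ∀ γ : Ω,
        (∀ b ∈ Bal S, ∃ a ∈ Bal (S.below γ), symmDiff a b ∈
          {b | ∃ h : b ∈ Bal S, toBoolRing (⟨b, h⟩ : ↥(Bal S)) ∈ J}) →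
        Countable (AsBoolRing ↥(Bal S) ⧸ J) := by
      intro J γ h
      have h1 := countable_Cp (r := r) ((hb.cIic γ).mono Iio_subset_Iic_self)
      have h2 : (Bal (S.below γ) : Set (Set (Ω × ℕ))).Countable := by
        refine (h1.union (h1.image compl)).mono ?_
        rintro c (hc | hc)
        · exact Or.inl hc
        · exact Or.inr ⟨cᶜ, hc, compl_compl c⟩
      have h3 : Countable ↥(Bal (S.below γ)) := h2.to_subtype
      let g : ↥(Bal (S.below γ)) → (AsBoolRing ↥(Bal S) ⧸ J) := fun a =>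
        Ideal.Quotient.mk J (toBoolRing (⟨a, below_le S γ a.2⟩ : ↥(Bal S)))
      have hg : Function.Surjective g := by
        intro q
        obtain ⟨c, rfl⟩ := Ideal.Quotient.mk_surjective q
        obtain ⟨a, ha, h4, h5⟩ := h _ (ofBoolRing c).2
        refine ⟨⟨a, ha⟩, ?_⟩
        show Ideal.Quotient.mk J _ = Ideal.Quotient.mk J c
        rw [Ideal.Quotient.eq]
        exact h5
      exact hg.countable
    have hbotmem : ∀ J : Ideal (AsBoolRing ↥(Bal S)), ∀ E : Set (Ω × ℕ) → Set (Ω × ℕ) → Prop,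
        (∀ c b, E c b → c ∈ Bal S ∧ b ∈ Bal S) →
        (∀ c ∈ Bal S, ∃ b, E c b) → (∀ b ∈ Bal S, ∃ c, E c b) →
        (∀ c b c' b', E c b → E c' b' →
          (c \ c' ∈ {b | ∃ h : b ∈ Bal S, toBoolRing (⟨b, h⟩ : ↥(Bal S)) ∈ J} ↔ b ⊆ b')) →
        ∃ e : (AsBoolRing ↥(Bal S) ⧸ J) ≃ ↥(Bal S), ∀ x y, e x ≤ e y ↔ x * y = x := by
      intro J E e0 e1 e2 e3
      obtain ⟨e, he⟩ := hequiv J univ BooleanSubalgebra.top_mem E
        (fun c b h => ⟨(e0 c b h).1, (e0 c b h).2, subset_univ _⟩) e1 (fun b h1 _ => e2 b h1) e3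
      let f : Set.Iic (⟨univ, BooleanSubalgebra.top_mem⟩ : ↥(Bal S)) ≃ ↥(Bal S) :=
        { toFun := fun x => x.1
          invFun := fun x => ⟨x, fun _ _ => mem_univ _⟩
          left_inv := fun x => rfl
          right_inv := fun x => rfl }
      refine ⟨e.trans f, fun x y => ?_⟩
      rw [← he]
      rfl
    constructor
    · intro J hJ
      rcases quot_cases hb S hreq hG hst (hquot J) with ⟨γ, h⟩ | ⟨E, e0, e1, e2, e3⟩
      · have h1 := hcountable J γ h
        exact absurd h1 (not_countable_iff.2 hJ)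
      · obtain ⟨e, he⟩ := hbotmem J E e0 e1 e2 e3
        exact ringEquiv_of (quot_idem J) e he
    · intro J hJ
      rcases quot_cases hb S hreq hG hst (hquot J) with ⟨γ, h⟩ | ⟨E, e0, e1, e2, e3⟩
      · obtain ⟨b, hbB, E, e0, e1, e2, e3⟩ := quot_factor hb S (hquot J) h
        obtain ⟨e, he⟩ := hequiv J b hbB E e0 e1 e2 e3
        exact ⟨⟨b, hbB⟩, e, he⟩
      · obtain ⟨e, he⟩ := hbotmem J E e0 e1 e2 e3
        have h1 : Countable ↥(Bal S) := e.symm.injective.countable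
        exact absurd h1 (not_countable_iff.2 hunc)

end H85
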