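import Pool.Agent.H85.SpgDiag

/-!
# Explicit descriptions of the insertion of a crossing or marker
-/

set_option linter.unusedSectionVars false

open Function

namespace Spg

/-- After the insertion of a crossing next to the end `v`, the end `σ 3` of the new
crossing takes over the role of `v`: the outer end of `e` is `e` if `e ≠ v`, and the end `σ 3` of the
new crossing if `e = v`. -/
def outEnd {X R : Type} [DecidableEq X] [DecidableEq R] (v : X × Fin 4 ⊕ R)
    (σ : Equiv.Perm (Fin 4)) (e : X × Fin 4 ⊕ R) : Option X × Fin 4 ⊕ R :=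
  if e = v then Sum.inl (none, σ 3) else emb e

/-- The partner of the outer end of `e` after the insertion of a crossing. -/
def newEnd {X R : Type} [DecidableEq X] [DecidableEq R]
    (g : X × Fin 4 ⊕ R → X × Fin 4 ⊕ R) (a v : X × Fin 4 ⊕ R) (σ : Equiv.Perm (Fin 4))
    (e : X × Fin 4 ⊕ R) : Option X × Fin 4 ⊕ R :=
  if e = a then Sum.inl (none, σ 0) else if e = g a then Sum.inl (none, σ 1)
  else outEnd v σ (g e)

/-- The arcs after the insertion of a new crossing on two arcs (or twice on the same arc). First the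
arc at the end `v` is cut near `v`: the piece at `v` gets joined to the end `σ 2` of the
new crossing, and the end `σ 3` of the new crossing takes over the role of `v` (it is the outer end
of `v`). Then the arc at (the outer end of) `a` is cut: the piece at `a` gets joined to `σ 0`,
and the rest, which leads to (the outer end of) the old partner of `a`, gets joined to
`σ 1`. -/
def insGlue {X R : Type} [DecidableEq X] [DecidableEq R]
    (g : X × Fin 4 ⊕ R → X × Fin 4 ⊕ R) (a v : X × Fin 4 ⊕ R) (σ : Equiv.Perm (Fin 4)) :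
    Option X × Fin 4 ⊕ R → Option X × Fin 4 ⊕ R
  | Sum.inl (some x, i) => if Sum.inl (x, i) = v then Sum.inl (none, σ 2)
      else newEnd g a v σ (Sum.inl (x, i))
  | Sum.inr r => if Sum.inr r = v then Sum.inl (none, σ 2) else newEnd g a v σ (Sum.inr r)
  | Sum.inl (none, i) =>
      if i = σ 0 then outEnd v σ a else if i = σ 1 then outEnd v σ (g a)
      else if i = σ 2 then emb v else newEnd g a v σ v

section insGlue

variable {X R : Type} [DecidableEq X] [DecidableEq R]

variable (g : X × Fin 4 ⊕ R → X × Fin 4 ⊕ R) (a v : X × Fin 4 ⊕ R) (σ : Equiv.Perm (Fin 4))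

theorem outEnd_self : outEnd v σ v = Sum.inl (none, σ 3) := if_pos rfl

theorem outEnd_ne {v e : X × Fin 4 ⊕ R} (h : e ≠ v) : outEnd v σ e = emb e := if_neg h

theorem outEnd_injective : Injective (outEnd v σ) := by
  intro e e' h
  by_cases h1 : e = v
  · by_cases h2 : e' = v
    · rw [h1, h2]
    · rw [h1, outEnd_self, outEnd_ne σ h2] at h
      exact absurd h.symm (emb_ne_none _ _)
  · by_cases h2 : e' = v
    · rw [h2, outEnd_self, outEnd_ne σ h1] at h
      exact absurd h (emb_ne_none _ _)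
    · rw [outEnd_ne σ h1, outEnd_ne σ h2] at h
      exact emb_injective h

theorem outEnd_ne_none (e : X × Fin 4 ⊕ R) (i : Fin 4) (hi : i ≠ 3) :
    outEnd v σ e ≠ Sum.inl (none, σ i) := by
  intro h
  by_cases h1 : e = v
  · rw [h1, outEnd_self] at h
    have h2 : σ 3 = σ i := congrArg (fun z : Option X × Fin 4 ⊕ R => match z with
      | Sum.inl (_, k) => k
      | _ => 0) h
    exact hi (σ.injective h2).symm
  · rw [outEnd_ne σ h1] at h
    exact emb_ne_none _ _ h

theorem outEnd_ne_emb (e : X × Fin 4 ⊕ R) : outEnd v σ e ≠ emb v := by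
  intro h
  by_cases h1 : e = v
  · rw [h1, outEnd_self] at h
    exact emb_ne_none _ _ h.symm
  · rw [outEnd_ne σ h1] at h
    exact h1 (emb_injective h)

theorem insGlue_0 : insGlue g a v σ (Sum.inl (none, σ 0)) = outEnd v σ a := by
  show (if σ 0 = σ 0 then _ else _) = _
  rw [if_pos rfl]

theorem insGlue_1 : insGlue g a v σ (Sum.inl (none, σ 1)) = outEnd v σ (g a) := by
  show (if σ 1 = σ 0 then _ else if σ 1 = σ 1 then _ else _) = _
  rw [if_neg (fun h => absurd (σ.injective h) (by decide)), if_pos rfl]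

theorem insGlue_2 : insGlue g a v σ (Sum.inl (none, σ 2)) = emb v := by
  show (if σ 2 = σ 0 then _ else if σ 2 = σ 1 then _ else if σ 2 = σ 2 then _ else _) = _
  rw [if_neg (fun h => absurd (σ.injective h) (by decide)),
    if_neg (fun h => absurd (σ.injective h) (by decide)), if_pos rfl]

theorem insGlue_emb : insGlue g a v σ (emb v) = Sum.inl (none, σ 2) := by
  rcases v with ⟨x, i⟩ | r
  · show (if (Sum.inl (x, i) : X × Fin 4 ⊕ R) = Sum.inl (x, i) then _ else _) = _
    rw [if_pos rfl]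
  · show (if (Sum.inr r : X × Fin 4 ⊕ R) = Sum.inr r then _ else _) = _
    rw [if_pos rfl]

theorem insGlue_outEnd (e : X × Fin 4 ⊕ R) :
    insGlue g a v σ (outEnd v σ e) = newEnd g a v σ e := by
  by_cases h : e = v
  · rw [h, outEnd_self]
    show (if σ 3 = σ 0 then _ else if σ 3 = σ 1 then _ else if σ 3 = σ 2 then _ else _) = _
    rw [if_neg (fun h => absurd (σ.injective h) (by decide)),
      if_neg (fun h => absurd (σ.injective h) (by decide)),
      if_neg (fun h => absurd (σ.injective h) (by decide))]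
  · rw [outEnd_ne σ h]
    rcases e with ⟨x, i⟩ | r
    · show (if (Sum.inl (x, i) : X × Fin 4 ⊕ R) = v then _ else _) = _
      rw [if_neg h]; rfl
    · show (if (Sum.inr r : X × Fin 4 ⊕ R) = v then _ else _) = _
      rw [if_neg h]; rfl

theorem newEnd_a : newEnd g a v σ a = Sum.inl (none, σ 0) := if_pos rfl

theorem newEnd_glue_a (hg : ∀ e, g e ≠ e) : newEnd g a v σ (g a) = Sum.inl (none, σ 1) := by
  unfold newEnd
  rw [if_neg (hg a), if_pos rfl]

theorem newEnd_other {e : X × Fin 4 ⊕ R} (h : e ≠ a) (h' : e ≠ g a) :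
    newEnd g a v σ e = outEnd v σ (g e) := by
  unfold newEnd
  rw [if_neg h, if_neg h']

/-- Every end of the new tangle is an outer end, the end `emb v`, or one of three ends of
the new crossing. -/
theorem cases_end (e : Option X × Fin 4 ⊕ R) : (∃ e', e = outEnd v σ e') ∨ e = emb v ∨
    e = Sum.inl (none, σ 0) ∨ e = Sum.inl (none, σ 1) ∨ e = Sum.inl (none, σ 2) := by
  have key : ∀ e' : X × Fin 4 ⊕ R, (∃ e'', (emb e' : Option X × Fin 4 ⊕ R) = outEnd v σ e'') ∨
      (emb e' : Option X × Fin 4 ⊕ R) = emb v := by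
    intro e'
    by_cases h : e' = v
    · right; rw [h]
    · left; exact ⟨e', (outEnd_ne σ h).symm⟩
  rcases e with ⟨x, i⟩ | r
  · cases x with
    | some x =>
      rcases key (Sum.inl (x, i)) with h | h
      · exact Or.inl h
      · exact Or.inr (Or.inl h)
    | none =>
      obtain ⟨k, rfl⟩ := σ.surjective i
      have : k = 0 ∨ k = 1 ∨ k = 2 ∨ k = 3 := by revert k; decide
      rcases this with rfl | rfl | rfl | rfl
      · exact Or.inr (Or.inr (Or.inl rfl))
      · exact Or.inr (Or.inr (Or.inr (Or.inl rfl)))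
      · exact Or.inr (Or.inr (Or.inr (Or.inr rfl)))
      · exact Or.inl ⟨v, (outEnd_self v σ).symm⟩
  · rcases key (Sum.inr r) with h | h
    · exact Or.inl h
    · exact Or.inr (Or.inl h)

theorem insGlue_insGlue (hgg : ∀ e, g (g e) = e) (hg : ∀ e, g e ≠ e)
    (e : Option X × Fin 4 ⊕ R) : insGlue g a v σ (insGlue g a v σ e) = e := by
  rcases cases_end v σ e with ⟨e', rfl⟩ | rfl | rfl | rfl | rfl
  · rw [insGlue_outEnd]
    by_cases h : e' = a
    · rw [h, newEnd_a, insGlue_0]
    · by_cases h' : e' = g a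
      · rw [h', newEnd_glue_a g a v σ hg, insGlue_1]
      · rw [newEnd_other g a v σ h h', insGlue_outEnd, newEnd_other, hgg]
        · intro h2
          apply h'
          rw [← h2, hgg]
        · intro h2
          apply h
          rw [← hgg e', h2, hgg]
  · rw [insGlue_emb, insGlue_2]
  · rw [insGlue_0, insGlue_outEnd, newEnd_a]
  · rw [insGlue_1, insGlue_outEnd, newEnd_glue_a g a v σ hg]
  · rw [insGlue_2, insGlue_emb]

theorem insGlue_ne (hg : ∀ e, g e ≠ e) (e : Option X × Fin 4 ⊕ R) :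
    insGlue g a v σ e ≠ e := by
  rcases cases_end v σ e with ⟨e', rfl⟩ | rfl | rfl | rfl | rfl
  · rw [insGlue_outEnd]
    by_cases h : e' = a
    · rw [h, newEnd_a]
      exact (outEnd_ne_none v σ a 0 (by decide)).symm
    · by_cases h' : e' = g a
      · rw [h', newEnd_glue_a g a v σ hg]
        exact (outEnd_ne_none v σ _ 1 (by decide)).symm
      · rw [newEnd_other g a v σ h h']
        exact fun h2 => hg _ (outEnd_injective v σ h2)
  · rw [insGlue_emb]
    exact (emb_ne_none _ _).symm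
  · rw [insGlue_0]
    exact outEnd_ne_none v σ a 0 (by decide)
  · rw [insGlue_1]
    exact outEnd_ne_none v σ _ 1 (by decide)
  · rw [insGlue_2]
    exact emb_ne_none _ _

end insGlue


section bridge

variable {X R : Type} [DecidableEq X] [DecidableEq R] (g : X × Fin 4 ⊕ R → X × Fin 4 ⊕ R)
  (hgg : ∀ e, g (g e) = e) (hg : ∀ e, g e ≠ e) (a v : X × Fin 4 ⊕ R) (σ : Equiv.Perm (Fin 4))

/-- The first surgery. -/
def gl1 : Option X × Fin 4 ⊕ R → Option X × Fin 4 ⊕ R :=
  rejoin (addX g σ) (emb a) (Sum.inl (none, σ 0))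

theorem gl1_0 : gl1 g a σ (Sum.inl (none, σ 0)) = emb a := rejoin_q _ _ _

theorem k0_ne : (Sum.inl (none, σ 0) : Option X × Fin 4 ⊕ R) ≠ addX g σ (emb a) := by
  rw [addX_emb]; exact (emb_ne_none _ _).symm

theorem none_ne {i j : Fin 4} (h : i ≠ j) :
    (Sum.inl (none, σ i) : Option X × Fin 4 ⊕ R) ≠ Sum.inl (none, σ j) := by
  intro h3
  have h4 : σ i = σ j := by simpa using h3
  exact h (σ.injective h4)

include hgg hg in
theorem gl1_1 : gl1 g a σ (Sum.inl (none, σ 1)) = emb (g a) := by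
  have h1 : addX g σ (Sum.inl (none, σ 0)) = Sum.inl (none, σ 1) := addX_none g σ 0
  have h2 := rejoin_gq (addX_addX g σ hgg) (addX_ne g σ hg) (emb_ne_none a (σ 0)).symm
    (k0_ne g a σ)
  rw [h1, addX_emb] at h2
  exact h2

theorem gl1_23 {i : Fin 4} (h0 : i ≠ 0) (h1 : i ≠ 1) :
    gl1 g a σ (Sum.inl (none, σ i)) = Sum.inl (none, σ (![1, 0, 3, 2] i)) := by
  have e1 : addX g σ (Sum.inl (none, σ 0)) = Sum.inl (none, σ 1) := addX_none g σ 0
  unfold gl1
  rw [rejoin_other, addX_none]
  · exact (emb_ne_none _ _).symm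
  · exact none_ne σ h0
  · rw [addX_emb]; exact (emb_ne_none _ _).symm
  · rw [e1]; exact none_ne σ h1

theorem gl1_2 : gl1 g a σ (Sum.inl (none, σ 2)) = Sum.inl (none, σ 3) :=
  gl1_23 g a σ (by decide) (by decide)

theorem gl1_3 : gl1 g a σ (Sum.inl (none, σ 3)) = Sum.inl (none, σ 2) :=
  gl1_23 g a σ (by decide) (by decide)

theorem gl1_a : gl1 g a σ (emb a) = Sum.inl (none, σ 0) := rejoin_p _ _ _

include hg in
theorem gl1_ga : gl1 g a σ (emb (g a)) = Sum.inl (none, σ 1) := by
  have h2 := rejoin_gp (addX_ne g σ hg) (k0_ne g a σ)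
  rw [addX_emb] at h2
  exact h2.trans (addX_none g σ 0)

theorem gl1_other {e : X × Fin 4 ⊕ R} (h : e ≠ a) (h' : e ≠ g a) :
    gl1 g a σ (emb e) = emb (g e) := by
  have e1 : addX g σ (Sum.inl (none, σ 0)) = Sum.inl (none, σ 1) := addX_none g σ 0
  unfold gl1
  rw [rejoin_other, addX_emb]
  · exact fun h2 => h (emb_injective h2)
  · exact emb_ne_none _ _
  · rw [addX_emb]; exact fun h2 => h' (emb_injective h2)
  · rw [e1]; exact emb_ne_none _ _

include hgg hg in
theorem gl1_gl1 (e : Option X × Fin 4 ⊕ R) : gl1 g a σ (gl1 g a σ e) = e :=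
  rejoin_surg (addX_addX g σ hgg) (addX_ne g σ hg) (emb_ne_none a (σ 0)).symm (k0_ne g a σ) e

include hgg hg in
theorem gl1_ne (e : Option X × Fin 4 ⊕ R) : gl1 g a σ e ≠ e :=
  rejoin_ne (addX_addX g σ hgg) (addX_ne g σ hg) (emb_ne_none a (σ 0)).symm (k0_ne g a σ) e

include hgg hg in
/-- The two surgeries give `insGlue`. -/
theorem rejoin_eq (e : Option X × Fin 4 ⊕ R) :
    rejoin (gl1 g a σ) (emb v) (Sum.inl (none, σ 2)) e = insGlue g a v σ e := by
  have hne := s1_emb_ne g a v σ hg
  change (Sum.inl (none, σ 2) : Option X × Fin 4 ⊕ R) ≠ gl1 g a σ (emb v) at hne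
  have hne2 := (emb_ne_none (R := R) v (σ 2)).symm
  have h3 : rejoin (gl1 g a σ) (emb v) (Sum.inl (none, σ 2)) (Sum.inl (none, σ 3)) =
      gl1 g a σ (emb v) := by
    have := rejoin_gq (gl1_gl1 g hgg hg a σ) (gl1_ne g hgg hg a σ) hne2 hne
    rwa [gl1_2] at this
  -- the value at an end which is not affected by the second surgery
  have hoth : ∀ e : Option X × Fin 4 ⊕ R, e ≠ emb v → e ≠ Sum.inl (none, σ 2) →
      e ≠ gl1 g a σ (emb v) → e ≠ Sum.inl (none, σ 3) →
      rejoin (gl1 g a σ) (emb v) (Sum.inl (none, σ 2)) e = gl1 g a σ e := by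
    intro e h1 h2 h4 h5
    exact rejoin_other h1 h2 h4 (by rw [gl1_2]; exact h5)
  -- the value at the partner of `v`
  have hgv : rejoin (gl1 g a σ) (emb v) (Sum.inl (none, σ 2)) (gl1 g a σ (emb v)) =
      Sum.inl (none, σ 3) :=
    (rejoin_gp (gl1_ne g hgg hg a σ) hne).trans (gl1_2 g a σ)
  have hv : gl1 g a σ (emb v) = newEnd g a v σ v := by
    by_cases h1 : v = a
    · rw [← h1, gl1_a, newEnd_a]
    · by_cases h2 : v = g a
      · rw [h2, gl1_ga g hg, newEnd_glue_a g a _ σ hg]
      · rw [gl1_other g a σ h1 h2, newEnd_other g a v σ h1 h2, outEnd_ne σ (hg v)]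
  rcases cases_end v σ e with ⟨e', rfl⟩ | rfl | rfl | rfl | rfl
  · rw [insGlue_outEnd]
    by_cases h1 : e' = v
    · rw [h1, outEnd_self, h3, hv]
    · rw [outEnd_ne σ h1]
      by_cases h2 : e' = a
      · have hva : gl1 g a σ (emb v) ≠ emb e' := by
          rw [h2]
          intro h4
          have h5 : emb v = (Sum.inl (none, σ 0) : Option X × Fin 4 ⊕ R) := by
            rw [← gl1_gl1 g hgg hg a σ (emb v), h4, gl1_a]
          exact emb_ne_none _ _ h5
        rw [hoth _ (fun h4 => h1 (emb_injective h4)) (emb_ne_none _ _) hva.symm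
          (emb_ne_none _ _), h2, gl1_a, newEnd_a]
      · by_cases h2' : e' = g a
        · have hva : gl1 g a σ (emb v) ≠ emb e' := by
            rw [h2']
            intro h4
            have h5 : emb v = (Sum.inl (none, σ 1) : Option X × Fin 4 ⊕ R) := by
              rw [← gl1_gl1 g hgg hg a σ (emb v), h4, gl1_ga g hg]
            exact emb_ne_none _ _ h5
          rw [hoth _ (fun h4 => h1 (emb_injective h4)) (emb_ne_none _ _) hva.symm
            (emb_ne_none _ _), h2', gl1_ga g hg, newEnd_glue_a g a v σ hg]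
        · rw [newEnd_other g a v σ h2 h2']
          by_cases h5 : g e' = v
          · have h6 : gl1 g a σ (emb v) = emb e' := by
              have h7 := gl1_other g a σ h2 h2'
              rw [h5] at h7
              rw [← h7, gl1_gl1 g hgg hg]
            rw [← h6, hgv, h5, outEnd_self]
          · have hva : gl1 g a σ (emb v) ≠ emb e' := by
              intro h4
              have h7 : emb v = gl1 g a σ (emb e') := by
                rw [← h4, gl1_gl1 g hgg hg]
              rw [gl1_other g a σ h2 h2'] at h7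
              exact h5 (emb_injective h7).symm
            rw [hoth _ (fun h4 => h1 (emb_injective h4)) (emb_ne_none _ _) hva.symm
              (emb_ne_none _ _), gl1_other g a σ h2 h2', outEnd_ne σ h5]
  · rw [rejoin_p, insGlue_emb]
  · rw [insGlue_0]
    by_cases h1 : a = v
    · have h6 : gl1 g a σ (emb v) = Sum.inl (none, σ 0) := by rw [← h1, gl1_a]
      rw [← h6, hgv, h1, outEnd_self]
    · have hva : gl1 g a σ (emb v) ≠ Sum.inl (none, σ 0) := by
        intro h4
        have h5 : emb v = (emb a : Option X × Fin 4 ⊕ R) := by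
          rw [← gl1_gl1 g hgg hg a σ (emb v), h4, gl1_0]
        exact h1 (emb_injective h5).symm
      rw [hoth _ (emb_ne_none _ _).symm (none_ne σ (by decide)) hva.symm
        (none_ne σ (by decide)), gl1_0, outEnd_ne σ h1]
  · rw [insGlue_1]
    by_cases h1 : g a = v
    · have h6 : gl1 g a σ (emb v) = Sum.inl (none, σ 1) := by rw [← h1, gl1_ga g hg]
      rw [← h6, hgv, h1, outEnd_self]
    · have hva : gl1 g a σ (emb v) ≠ Sum.inl (none, σ 1) := by
        intro h4
        have h5 : emb v = (emb (g a) : Option X × Fin 4 ⊕ R) := by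
          rw [← gl1_gl1 g hgg hg a σ (emb v), h4, gl1_1 g hgg hg]
        exact h1 (emb_injective h5).symm
      rw [hoth _ (emb_ne_none _ _).symm (none_ne σ (by decide)) hva.symm
        (none_ne σ (by decide)), gl1_1 g hgg hg, outEnd_ne σ h1]
  · rw [rejoin_q, insGlue_2]

end bridge

theorem Tangle.ins_glue_eq {R : Type} [DecidableEq R] (t : Tangle R) (a v : t.End)
    (σ : Equiv.Perm (Fin 4)) : (t.ins a v σ).glue = insGlue t.glue a v σ :=
  funext (rejoin_eq t.glue t.glue_glue t.glue_ne a v σ)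

theorem embM_cov {X M V : Type} (e' : X × Fin 4 ⊕ Option M × Fin 2 ⊕ V) :
    (∃ e : X × Fin 4 ⊕ M × Fin 2 ⊕ V, e' = embM e) ∨ e' = Sum.inr (Sum.inl (none, 0)) ∨
      e' = Sum.inr (Sum.inl (none, 1)) := by
  rcases e' with p | ⟨m | m, i⟩ | v
  · exact Or.inl ⟨Sum.inl p, rfl⟩
  · fin_cases i
    · exact Or.inr (Or.inl rfl)
    · exact Or.inr (Or.inr rfl)
  · exact Or.inl ⟨Sum.inr (Sum.inl (m, i)), rfl⟩
  · exact Or.inl ⟨Sum.inr (Sum.inr v), rfl⟩

/-- The new partner of the old end `d` after the insertion of a marker in the arc joining `a` and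
`g a`. -/
def newM {X M V : Type} [DecidableEq X] [DecidableEq M] [DecidableEq V]
    (g : X × Fin 4 ⊕ M × Fin 2 ⊕ V → X × Fin 4 ⊕ M × Fin 2 ⊕ V) (a d : X × Fin 4 ⊕ M × Fin 2 ⊕ V) :
    X × Fin 4 ⊕ Option M × Fin 2 ⊕ V :=
  if d = a then Sum.inr (Sum.inl (none, 0)) else if d = g a then Sum.inr (Sum.inl (none, 1))
  else embM (g d)

/-- The arcs after the insertion of a marker `none` in the arc joining `a` and `g a`: the end
`(none, 0)` is joined to `a` and the end `(none, 1)` to the old partner of `a`. -/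
def insM {X M V : Type} [DecidableEq X] [DecidableEq M] [DecidableEq V]
    (g : X × Fin 4 ⊕ M × Fin 2 ⊕ V → X × Fin 4 ⊕ M × Fin 2 ⊕ V) (a : X × Fin 4 ⊕ M × Fin 2 ⊕ V) :
    X × Fin 4 ⊕ Option M × Fin 2 ⊕ V → X × Fin 4 ⊕ Option M × Fin 2 ⊕ V
  | Sum.inl p => newM g a (Sum.inl p)
  | Sum.inr (Sum.inl (some m, i)) => newM g a (Sum.inr (Sum.inl (m, i)))
  | Sum.inr (Sum.inl (none, i)) => if i = 0 then embM a else embM (g a)
  | Sum.inr (Sum.inr v) => newM g a (Sum.inr (Sum.inr v))


theorem insM_emb {X M V : Type} [DecidableEq X] [DecidableEq M] [DecidableEq V]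
    (g : X × Fin 4 ⊕ M × Fin 2 ⊕ V → X × Fin 4 ⊕ M × Fin 2 ⊕ V)
    (a d : X × Fin 4 ⊕ M × Fin 2 ⊕ V) : insM g a (embM d) = newM g a d := by
  rcases d with p | ⟨m, i⟩ | v <;> rfl

theorem rejoinM_eq {X M V : Type} [DecidableEq X] [DecidableEq M] [DecidableEq V]
    (g : X × Fin 4 ⊕ M × Fin 2 ⊕ V → X × Fin 4 ⊕ M × Fin 2 ⊕ V) (hgg : ∀ e, g (g e) = e)
    (hg : ∀ e, g e ≠ e) (a : X × Fin 4 ⊕ M × Fin 2 ⊕ V)
    (e : X × Fin 4 ⊕ Option M × Fin 2 ⊕ V) :
    rejoin (addM g) (embM a) (Sum.inr (Sum.inl (none, 0))) e = insM g a e := by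
  have k0 : (Sum.inr (Sum.inl (none, 0)) : X × Fin 4 ⊕ Option M × Fin 2 ⊕ V) ≠
      addM g (embM a) := by
    rw [addM_emb]; exact (embM_ne _ _).symm
  have k1 := (embM_ne (M := M) 0 a).symm
  rcases embM_cov e with ⟨d, rfl⟩ | rfl | rfl
  · rw [insM_emb]
    unfold newM
    by_cases h1 : d = a
    · rw [if_pos h1, h1, rejoin_p]
    · rw [if_neg h1]
      by_cases h2 : d = g a
      · rw [if_pos h2, h2, ← addM_emb, rejoin_gp (addM_ne g hg) k0]
        rfl
      · rw [if_neg h2, rejoin_other, addM_emb]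
        · exact fun h => h1 (embM_inj h)
        · exact embM_ne _ _
        · rw [addM_emb]; exact fun h => h2 (embM_inj h)
        · exact embM_ne 1 d
  · rw [rejoin_q]
    rfl
  · have h3 := rejoin_gq (addM_addM g hgg) (addM_ne g hg) k1 k0
    rw [addM_emb] at h3
    exact h3

theorem Diagram.insertMarker_glue (G : Diagram) (a : G.End) :
    (G.insertMarker a).glue = insM G.glue a :=
  funext (rejoinM_eq G.glue G.tan.glue_glue G.tan.glue_ne a)

namespace Diagram

@[simp] theorem rot_crossing (G : Diagram) (x : G.X) (i : Fin 4) :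
    G.rot (Sum.inl (x, i)) = Sum.inl (x, i + 1) := rfl

@[simp] theorem rot_marker (G : Diagram) (m : G.M) (i : Fin 2) :
    G.rot (Sum.inr (Sum.inl (m, i))) = Sum.inr (Sum.inl (m, i + 1)) := rfl

@[simp] theorem rot_vertex (G : Diagram) (v : G.V) :
    G.rot (Sum.inr (Sum.inr v)) = Sum.inr (Sum.inr (G.next v)) := rfl

end Diagram

end Spg
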