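import Pool.Agent.H85.SpgCS

/-!
# Operators on cochains: restrictions, lowerings, homotopy equivalences

Layer M3 (first part) of the proof of MP_5e61f3_gt.
-/

set_option linter.unusedSectionVars false

open Function

namespace Spg

section

variable {X U : Type} [DecidableEq X] [AddCommGroup U] [Module (ZMod 2) U]

/-- Restriction of a cochain to the states with `s x = b`. -/
def Rs (x : X) (b : Bool) : Co X U →ₗ[ZMod 2] Co X U where
  toFun Φ s := if s x = b then Φ s else 0
  map_add' Φ Ψ := by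
    funext s; simp only [Pi.add_apply]; split_ifs
    · rfl
    · rw [add_zero]
  map_smul' c Φ := by
    funext s; simp only [Pi.smul_apply, RingHom.id_apply]; split_ifs
    · rfl
    · rw [smul_zero]

theorem Rs_apply (x : X) (b : Bool) (Φ : Co X U) (s : X → Bool) :
    Rs x b Φ s = if s x = b then Φ s else 0 := rfl

/-- Lowering at the crossing `x` by a map `f`. -/
def Lo (x : X) (f : (U → ZMod 2) →ₗ[ZMod 2] (U → ZMod 2)) : Co X U →ₗ[ZMod 2] Co X U where
  toFun Φ s := if s x = false then f (Φ (update s x true)) else 0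
  map_add' Φ Ψ := by
    funext s; simp only [Pi.add_apply, map_add]; split_ifs
    · rfl
    · rw [add_zero]
  map_smul' c Φ := by
    funext s; simp only [Pi.smul_apply, RingHom.id_apply, map_smul]; split_ifs
    · rfl
    · rw [smul_zero]

theorem Lo_apply (x : X) (f : (U → ZMod 2) →ₗ[ZMod 2] (U → ZMod 2)) (Φ : Co X U)
    (s : X → Bool) : Lo x f Φ s = if s x = false then f (Φ (update s x true)) else 0 := rfl

theorem update_true_false (s : X → Bool) {x : X} (h : s x = true) :
    update (update s x false) x true = s := by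
  rw [update_idem, ← h, update_eq_self]

theorem update_false_true (s : X → Bool) {x : X} (h : s x = false) :
    update (update s x true) x false = s := by
  rw [update_idem, ← h, update_eq_self]

namespace CS

variable (S : CS X U)

theorem Rs_pd_comm {x y : X} (h : y ≠ x) (b : Bool) (Φ : Co X U) :
    Rs x b (S.pd y Φ) = S.pd y (Rs x b Φ) := by
  funext s
  rw [Rs_apply, pd_apply, pd_apply, Rs_apply, update_of_ne (Ne.symm h)]
  by_cases hy : s y = true
  · by_cases hx : s x = b
    · simp [hx]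
    · simp [hx]
  · simp [hy]

theorem Rs_false_pd (x : X) (Φ : Co X U) : Rs x false (S.pd x Φ) = 0 := by
  funext s
  rw [Rs_apply]
  by_cases hx : s x = false
  · rw [if_pos hx, S.pd_false x _ hx]; rfl
  · rw [if_neg hx]; rfl

theorem Rs_true_pd (x : X) (Φ : Co X U) : Rs x true (S.pd x Φ) = S.pd x Φ := by
  funext s
  rw [Rs_apply]
  by_cases hx : s x = true
  · rw [if_pos hx]
  · rw [if_neg hx, S.pd_false x _ (by simpa using hx)]

theorem pd_Rs_true (x : X) (Φ : Co X U) : S.pd x (Rs x true Φ) = 0 := by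
  funext s
  by_cases hx : s x = true
  · rw [S.pd_true x _ hx, Rs_apply]; simp
  · rw [S.pd_false x _ (by simpa using hx)]; rfl

theorem pd_Rs_false (x : X) (Φ : Co X U) : S.pd x (Rs x false Φ) = S.pd x Φ := by
  funext s
  by_cases hx : s x = true
  · rw [S.pd_true x _ hx, S.pd_true x _ hx, Rs_apply]; simp
  · rw [S.pd_false x _ (by simpa using hx), S.pd_false x _ (by simpa using hx)]

theorem IsInv.Rs {Φ : Co X U} (h : S.IsInv Φ) (x : X) (b : Bool) : S.IsInv (Rs x b Φ) := by
  intro s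
  rw [Rs_apply]
  split_ifs
  · exact h s
  · exact Submodule.zero_mem _

theorem IsC.Rs {A : Finset X} {c : X → Bool} {n : ℤ} {Φ : Co X U}
    (h : S.IsC A c n Φ) (x : X) (b : Bool) : S.IsC A c n (Rs x b Φ) := by
  refine ⟨IsInv.Rs S h.inv x b, fun s hs => ?_⟩
  rw [Rs_apply] at hs
  split_ifs at hs with h1
  · exact h.supp s hs
  · exact absurd rfl hs

end CS

theorem Rs_Rs_same (x : X) (b : Bool) (Φ : Co X U) : Rs x b (Rs x b Φ) = Rs x b Φ := by
  funext s; simp only [Rs_apply]; split_ifs <;> rfl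

theorem Rs_Rs_ne (x : X) {b b' : Bool} (h : b ≠ b') (Φ : Co X U) :
    Rs x b (Rs x b' Φ) = 0 := by
  funext s; simp only [Rs_apply]; split_ifs with h1 h2
  · exact absurd (h1.symm.trans h2) h
  · rfl
  · rfl

theorem Rs_comm (x y : X) (b b' : Bool) (Φ : Co X U) :
    Rs x b (Rs y b' Φ) = Rs y b' (Rs x b Φ) := by
  funext s; simp only [Rs_apply]; split_ifs <;> rfl

theorem Rs_add_Rs (x : X) (Φ : Co X U) : Rs x false Φ + Rs x true Φ = Φ := by
  funext s
  rw [Pi.add_apply, Rs_apply, Rs_apply]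
  cases h : s x
  · simp
  · simp

namespace CS

variable (S : CS X U)

/-- Splitting off a crossing from the differential. -/
theorem d_erase {A : Finset X} {x : X} (hx : x ∈ A) (Φ : Co X U) :
    S.d A Φ = S.pd x Φ + S.d (A.erase x) Φ := by
  simp only [d, LinearMap.sum_apply]
  rw [Finset.add_sum_erase A (fun y => S.pd y Φ) hx]

end CS

end

/-! ### Homotopy equivalences -/

section HE

variable {X U X' U' : Type} [DecidableEq X] [AddCommGroup U] [Module (ZMod 2) U]
  [DecidableEq X'] [AddCommGroup U'] [Module (ZMod 2) U']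

/-- A strong deformation retraction of the subcube `(A, c)` of `S` to the subcube `(A', c')` of
`S'`, with degree shift `k`. -/
structure SDR (S : CS X U) (A : Finset X) (c : X → Bool) (S' : CS X' U') (A' : Finset X')
    (c' : X' → Bool) (k : ℤ) (g : Co X' U' → Co X U) (r : Co X U → Co X' U')
    (h : Co X U → Co X U) : Prop where
  gC : ∀ n Φ, S'.IsC A' c' n Φ → S.IsC A c (n + k) (g Φ)
  gd : ∀ n Φ, S'.IsC A' c' n Φ → S.d A (g Φ) = g (S'.d A' Φ)
  rC : ∀ n Φ, S.IsC A c n Φ → S'.IsC A' c' (n - k) (r Φ)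
  rd : ∀ n Φ, S.IsC A c n Φ → S'.d A' (r Φ) = r (S.d A Φ)
  rg : ∀ n Φ, S'.IsC A' c' n Φ → r (g Φ) = Φ
  hC : ∀ n Φ, S.IsC A c n Φ → S.IsC A c (n - 1) (h Φ)
  hd : ∀ n Φ, S.IsC A c n Φ → Φ + g (r Φ) = S.d A (h Φ) + h (S.d A Φ)
  g0 : g 0 = 0
  r0 : r 0 = 0
  h0 : h 0 = 0

/-- A strong deformation retraction compares the vanishing predicates. -/
theorem SDR.E_iff {S : CS X U} {A : Finset X} {c : X → Bool} {S' : CS X' U'} {A' : Finset X'}
    {c' : X' → Bool} {k : ℤ} {g : Co X' U' → Co X U} {r : Co X U → Co X' U'}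
    {h : Co X U → Co X U} (H : SDR S A c S' A' c' k g r h) (n : ℤ) :
    S.E A c (n + k) ↔ S'.E A' c' n := by
  constructor
  · intro hE Φ hΦ hd
    obtain ⟨Ψ, hΨ, hdΨ⟩ := hE (g Φ) (H.gC n Φ hΦ) (by rw [H.gd n Φ hΦ, hd, H.g0])
    refine ⟨r Ψ, ?_, ?_⟩
    · have := H.rC _ Ψ hΨ
      have e : n + k - 1 - k = n - 1 := by ring
      rwa [e] at this
    · rw [H.rd _ Ψ hΨ, hdΨ, H.rg n Φ hΦ]
  · intro hE Φ hΦ hd
    have h1 := H.rC _ Φ hΦ
    have e : n + k - k = n := by ring
    rw [e] at h1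
    obtain ⟨Ψ, hΨ, hdΨ⟩ := hE (r Φ) h1 (by rw [H.rd _ Φ hΦ, hd, H.r0])
    have h2 := H.gC _ Ψ hΨ
    have e2 : n - 1 + k = n + k - 1 := by ring
    rw [e2] at h2
    refine ⟨g Ψ + h Φ, CS.IsC.add S h2 (H.hC _ Φ hΦ), ?_⟩
    rw [map_add, H.gd _ Ψ hΨ, hdΨ]
    have h3 := H.hd _ Φ hΦ
    rw [hd, H.h0, add_zero] at h3
    rw [← h3, add_comm Φ, ← add_assoc]
    have : g (r Φ) + g (r Φ) = 0 := add_self_F2 _
    rw [this, zero_add]

end HE

end Spg
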