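import Pool.Agent.H85.SpgR2

/-!
# The closed version of the first Reidemeister move

Layer M3 of the proof of MP_5e61f3_gt.
-/

set_option linter.unusedSectionVars false

open Function

namespace Spg

section

variable {X U : Type} [DecidableEq X] [AddCommGroup U] [Module (ZMod 2) U]

/-- Raising at the crossing `x` by a map `f`. -/
def Ra (x : X) (f : (U → ZMod 2) →ₗ[ZMod 2] (U → ZMod 2)) : Co X U →ₗ[ZMod 2] Co X U where
  toFun Φ s := if s x = true then f (Φ (update s x false)) else 0
  map_add' Φ Ψ := by
    funext s; simp only [Pi.add_apply, map_add]; split_ifs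
    · rfl
    · rw [add_zero]
  map_smul' c Φ := by
    funext s; simp only [Pi.smul_apply, RingHom.id_apply, map_smul]; split_ifs
    · rfl
    · rw [smul_zero]

theorem Ra_apply (x : X) (f : (U → ZMod 2) →ₗ[ZMod 2] (U → ZMod 2)) (Φ : Co X U)
    (s : X → Bool) : Ra x f Φ s = if s x = true then f (Φ (update s x false)) else 0 := rfl

theorem Ra_comm_at (S : CS X U) {x y : X} (hxy : y ≠ x)
    (f : (U → ZMod 2) →ₗ[ZMod 2] (U → ZMod 2)) (hf : ∀ φ, Tr (S.u y) (f φ) = f (Tr (S.u y) φ))
    (Φ : Co X U) (s : X → Bool) (hs : s x = true)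
    (h0 : s y = true → (S.u y ∈ S.L (update s y false) ↔
      S.u y ∈ S.L (update (update s x false) y false)))
    (h1 : s y = true → (S.u y ∈ S.L s ↔ S.u y ∈ S.L (update s x false))) :
    S.pd y (Ra x f Φ) s = Ra x f (S.pd y Φ) s := by
  by_cases hy : s y = true
  · rw [S.pd_true y _ hy, Ra_apply, Ra_apply, update_of_ne (Ne.symm hxy), if_pos hs, if_pos hs,
      S.pd_true y _ (by rw [update_of_ne hxy]; exact hy), update_comm hxy]
    exact tog_comm_lin f hf (h0 hy) (h1 hy) _
  · have hy' : s y = false := by simpa using hy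
    rw [S.pd_false y _ hy', Ra_apply, if_pos hs,
      S.pd_false y _ (by rw [update_of_ne hxy]; exact hy'), map_zero]

theorem CS.IsC.raise {S : CS X U} {A : Finset X} {c : X → Bool} {n : ℤ} {Φ Ψ : Co X U} {x : X}
    (hΦ : S.IsC A c n Φ) (hx : x ∈ A)
    (hΨ : ∀ s, Ψ s ≠ 0 → s x = true ∧ Φ (update s x false) ≠ 0)
    (hinv : ∀ s, InCube A c s → Ψ s ∈ Inv (S.L s)) : S.IsC A c (n + 1) Ψ := by
  have key : ∀ s, Ψ s ≠ 0 → InCube A c s ∧ deg A s = n + 1 := by
    intro s hs
    obtain ⟨h1, h2⟩ := hΨ s hs
    obtain ⟨h3, h4⟩ := hΦ.supp _ h2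
    refine ⟨InCube.of_update hx h3, ?_⟩
    rw [deg_update_false hx h1] at h4
    omega
  refine ⟨fun s => ?_, key⟩
  by_cases h : Ψ s = 0
  · rw [h]; exact Submodule.zero_mem _
  · exact hinv s (key s h).1

theorem tog_eq_zero_of_mem {L L' : Submodule (ZMod 2) U} {u : U} {φ : U → ZMod 2}
    (hu : u ∉ L) (hφ : Tr u φ = φ) : tog L L' u φ = 0 := by
  rw [tog_out hu, hφ]
  exact add_self_F2 φ

/-- The cochain vanishes outside the cube. -/
def OutZ (A : Finset X) (c : X → Bool) (Φ : Co X U) : Prop :=
  ∀ s, ¬ InCube A c s → Φ s = 0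

namespace OutZ

variable {A : Finset X} {c : X → Bool} {Φ Ψ : Co X U}

theorem of_isC {S : CS X U} {n : ℤ} (h : S.IsC A c n Φ) : OutZ A c Φ :=
  fun _ hs => h.eq_zero hs

theorem ext (h : OutZ A c Φ) (h' : OutZ A c Ψ) (he : ∀ s, InCube A c s → Φ s = Ψ s) :
    Φ = Ψ := by
  funext s
  by_cases hs : InCube A c s
  · exact he s hs
  · rw [h s hs, h' s hs]

theorem add (h : OutZ A c Φ) (h' : OutZ A c Ψ) : OutZ A c (Φ + Ψ) := by
  intro s hs
  rw [Pi.add_apply, h s hs, h' s hs, add_zero]

theorem zero : OutZ A c (0 : Co X U) := fun _ _ => rfl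

theorem pd (h : OutZ A c Φ) (S : CS X U) {y : X} (hy : y ∈ A) : OutZ A c (S.pd y Φ) := by
  intro s hs
  rw [CS.pd_apply, h _ (fun h => hs (InCube.of_update hy h)), map_zero, ite_self]

theorem d (h : OutZ A c Φ) (S : CS X U) {B : Finset X} (hB : B ⊆ A) : OutZ A c (S.d B Φ) := by
  intro s hs
  rw [S.d_apply]
  exact Finset.sum_eq_zero (fun y hy => h.pd S (hB hy) s hs)

theorem lo (h : OutZ A c Φ) {x : X} (hx : x ∈ A)
    (f : (U → ZMod 2) →ₗ[ZMod 2] (U → ZMod 2)) : OutZ A c (Lo x f Φ) := by
  intro s hs
  rw [Lo_apply, h _ (fun h => hs (InCube.of_update hx h)), map_zero, ite_self]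

theorem ra (h : OutZ A c Φ) {x : X} (hx : x ∈ A)
    (f : (U → ZMod 2) →ₗ[ZMod 2] (U → ZMod 2)) : OutZ A c (Ra x f Φ) := by
  intro s hs
  rw [Ra_apply, h _ (fun h => hs (InCube.of_update hx h)), map_zero, ite_self]

theorem rs (h : OutZ A c Φ) (x : X) (b : Bool) : OutZ A c (Rs x b Φ) := by
  intro s hs
  rw [Rs_apply, h s hs, ite_self]

end OutZ

section

variable {S : CS X U} {A : Finset X} {c : X → Bool} {x : X}

theorem InCube.erase_iff (hx : x ∈ A) (b : Bool) (s : X → Bool) :
    InCube (A.erase x) (Function.update c x b) s ↔ InCube A c s ∧ s x = b := by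
  constructor
  · intro h
    constructor
    · intro y hy
      have yx : y ≠ x := fun e => hy (e ▸ hx)
      have := h y (fun h1 => hy (Finset.mem_of_mem_erase h1))
      rwa [update_of_ne yx] at this
    · have := h x (Finset.notMem_erase x A)
      rwa [update_self] at this
  · rintro ⟨h1, h2⟩ y hy
    by_cases yx : y = x
    · rw [yx, update_self]; exact h2
    · rw [update_of_ne yx]
      exact h1 y (fun h3 => hy (Finset.mem_erase.mpr ⟨yx, h3⟩))

theorem deg_erase (hx : x ∈ A) (s : X → Bool) :
    deg A s = deg (A.erase x) s + (if s x = true then 1 else 0) := by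
  unfold deg
  by_cases h : s x = true
  · have e : A.filter (fun y => s y = true)
        = insert x ((A.erase x).filter (fun y => s y = true)) := by
      ext y
      simp only [Finset.mem_insert, Finset.mem_filter, Finset.mem_erase]
      by_cases yx : y = x
      · subst yx; simp [hx, h]
      · simp [yx]
    rw [e, Finset.card_insert_of_notMem (by simp), if_pos h]
    push_cast; ring
  · have e : A.filter (fun y => s y = true) = (A.erase x).filter (fun y => s y = true) := by
      ext y
      simp only [Finset.mem_filter, Finset.mem_erase]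
      by_cases yx : y = x
      · subst yx; simp [h]
      · simp [yx]
    rw [e, if_neg h, add_zero]

theorem CS.IsC.of_erase (hx : x ∈ A) {b : Bool} {n : ℤ} {Φ : Co X U}
    (h : S.IsC (A.erase x) (Function.update c x b) n Φ) :
    S.IsC A c (n + (if b = true then 1 else 0)) Φ := by
  refine ⟨h.inv, fun s hs => ?_⟩
  obtain ⟨h1, h2⟩ := h.supp s hs
  rw [InCube.erase_iff hx] at h1
  refine ⟨h1.1, ?_⟩
  rw [deg_erase hx s, h2, h1.2]

theorem CS.IsC.erase (hx : x ∈ A) {b : Bool} {n : ℤ} {Φ : Co X U}
    (h : S.IsC A c n Φ) (hb : ∀ s, Φ s ≠ 0 → s x = b) :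
    S.IsC (A.erase x) (Function.update c x b) (n - (if b = true then 1 else 0)) Φ := by
  refine ⟨h.inv, fun s hs => ?_⟩
  obtain ⟨h1, h2⟩ := h.supp s hs
  refine ⟨(InCube.erase_iff hx b s).mpr ⟨h1, hb s hs⟩, ?_⟩
  rw [deg_erase hx s, hb s hs] at h2
  omega

end

/-- The hypotheses of the closed version of the first Reidemeister move: in the states with
`s x = b` there is a circle which is merged at `x`. -/
structure R1H (S : CS X U) (A : Finset X) (c : X → Bool) (x : X) (b : Bool)
    (lam : U →ₗ[ZMod 2] ZMod 2) : Prop where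
  mx : x ∈ A
  lx : lam (S.u x) = 1
  ly : ∀ y ∈ A, y ≠ x → lam (S.u y) = 0
  lL : ∀ s, InCube A c s → s x = b → ∀ l ∈ S.L s, lam l = 0

namespace R1H

variable {S : CS X U} {A : Finset X} {c : X → Bool} {x : X} {lam : U →ₗ[ZMod 2] ZMod 2}

theorem circT (H : R1H S A c x true lam) {s : X → Bool} (hs : InCube A c s)
    (ha : s x = true) : Circ lam (S.L s) (S.L (update s x false)) (S.u x) :=
  ⟨(S.edge' s x ha).symm, H.lL s hs ha, H.lx⟩

theorem circF (H : R1H S A c x false lam) {s : X → Bool} (hs : InCube A c s)
    (ha : s x = false) : Circ lam (S.L s) (S.L (update s x true)) (S.u x) :=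
  ⟨S.edge s x ha, H.lL s hs ha, H.lx⟩

theorem ne_of_erase {y : X} (hy : y ∈ A.erase x) : y ≠ x := (Finset.mem_erase.mp hy).1

theorem mem_of_erase {y : X} (hy : y ∈ A.erase x) : y ∈ A := (Finset.mem_erase.mp hy).2

/-- The membership of `u y` does not depend on the state of `x`. -/
theorem mem_iff {b : Bool} (H : R1H S A c x b lam) {s : X → Bool} (hs : InCube A c s)
    {y : X} (hy : y ∈ A.erase x) (b' : Bool) : S.u y ∈ S.L (update s x b') ↔ S.u y ∈ S.L s := by
  have yx := ne_of_erase hy
  have yA := mem_of_erase hy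
  have key : S.u y ∈ S.L (update s x true) ↔ S.u y ∈ S.L (update s x false) := by
    cases b
    · have hc := H.circF (s := update s x false) (InCube.update hs H.mx false) (by simp)
      rw [update_idem] at hc
      exact hc.mem_iff (H.ly y yA yx)
    · have hc := H.circT (s := update s x true) (InCube.update hs H.mx true) (by simp)
      rw [update_idem] at hc
      exact (hc.mem_iff (H.ly y yA yx)).symm
  have e : S.u y ∈ S.L (update s x (s x)) ↔ S.u y ∈ S.L s := by rw [update_eq_self]
  cases b' <;> cases hx : s x <;> rw [hx] at e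
  · exact e
  · exact key.symm.trans e
  · exact key.trans e
  · exact e

theorem Lo_comm {b : Bool} (H : R1H S A c x b lam) (f : (U → ZMod 2) →ₗ[ZMod 2] (U → ZMod 2))
    (hf : ∀ u, lam u = 0 → ∀ φ, Tr u (f φ) = f (Tr u φ)) (Φ : Co X U) {s : X → Bool}
    (hs : InCube A c s) {y : X} (hy : y ∈ A.erase x) :
    S.pd y (Lo x f Φ) s = Lo x f (S.pd y Φ) s := by
  have yx := ne_of_erase hy
  have yA := mem_of_erase hy
  by_cases hx : s x = false
  · refine Lo_comm_at S yx f (hf _ (H.ly y yA yx)) Φ s hx ?_ ?_
    · intro _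
      have := H.mem_iff (s := update s y false) (InCube.update hs yA false) hy true
      rw [update_comm (β := fun _ => Bool) (Ne.symm yx) true false, this]
    · intro _
      rw [H.mem_iff hs hy true]
  · rw [Lo_apply, if_neg hx, CS.pd_apply]
    split_ifs
    · rw [Lo_apply, if_neg (by rw [update_of_ne (Ne.symm yx)]; exact hx), map_zero]
    · rfl

theorem Ra_comm {b : Bool} (H : R1H S A c x b lam) (f : (U → ZMod 2) →ₗ[ZMod 2] (U → ZMod 2))
    (hf : ∀ u, lam u = 0 → ∀ φ, Tr u (f φ) = f (Tr u φ)) (Φ : Co X U) {s : X → Bool}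
    (hs : InCube A c s) {y : X} (hy : y ∈ A.erase x) :
    S.pd y (Ra x f Φ) s = Ra x f (S.pd y Φ) s := by
  have yx := ne_of_erase hy
  have yA := mem_of_erase hy
  by_cases hx : s x = true
  · refine Ra_comm_at S yx f (hf _ (H.ly y yA yx)) Φ s hx ?_ ?_
    · intro _
      have := H.mem_iff (s := update s y false) (InCube.update hs yA false) hy false
      rw [update_comm (β := fun _ => Bool) (Ne.symm yx) false false, this]
    · intro _
      rw [H.mem_iff hs hy false]
  · rw [Ra_apply, if_neg hx, CS.pd_apply]
    split_ifs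
    · rw [Ra_apply, if_neg (by rw [update_of_ne (Ne.symm yx)]; exact hx), map_zero]
    · rfl

theorem d'_comm {F : Co X U →ₗ[ZMod 2] Co X U} {Φ : Co X U} {s : X → Bool}
    (hF : ∀ Ψ, ∀ y ∈ A.erase x, S.pd y (F Ψ) s = F (S.pd y Ψ) s) :
    S.d (A.erase x) (F Φ) s = F (S.d (A.erase x) Φ) s := by
  rw [S.d_apply, CS.d, LinearMap.sum_apply, map_sum, Finset.sum_apply]
  exact Finset.sum_congr rfl (fun y hy => hF Φ y hy)

theorem oneTr_comm (w u : U) (φ : U → ZMod 2) :
    Tr u ((LinearMap.id + Tr w : (U → ZMod 2) →ₗ[ZMod 2] (U → ZMod 2)) φ)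
    = (LinearMap.id + Tr w : (U → ZMod 2) →ₗ[ZMod 2] (U → ZMod 2)) (Tr u φ) := by
  funext v
  simp only [LinearMap.add_apply, LinearMap.id_apply, Tr_apply, Pi.add_apply]
  rw [show v + u + w = v + w + u by abel]

theorem small_zero {n : ℤ} {b : Bool} {Φ : Co X U} (hx : x ∈ A)
    (hΦ : S.IsC (A.erase x) (update c x b) n Φ) {s : X → Bool} (hs : s x ≠ b) : Φ s = 0 := by
  by_contra h
  exact hs ((InCube.erase_iff hx b s).mp (hΦ.supp s h).1).2

theorem erase_sub : A.erase x ⊆ A := Finset.erase_subset x A

/-- R1 with the circle in the state `false`. -/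
theorem sdrF (H : R1H S A c x false lam) :
    SDR S A c S (A.erase x) (update c x true) 0
      (Lo x LinearMap.id) (Ra x (psi lam (S.u x))) (Lo x (iot lam)) where
  gC := by
    intro n Φ hΦ
    have h1 := CS.IsC.of_erase H.mx hΦ
    rw [if_pos rfl] at h1
    rw [add_zero, show n = n + 1 - 1 by ring]
    refine CS.IsC.lower h1 H.mx ?_ ?_
    · intro s hs
      rw [Lo_apply] at hs
      split_ifs at hs with h2
      · exact ⟨h2, hs⟩
      · exact absurd rfl hs
    · intro s hs
      rw [Lo_apply]
      split_ifs with h2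
      · intro l hl v
        exact hΦ.inv (update s x true) l ((H.circF hs h2).le hl) v
      · exact Submodule.zero_mem _
  gd := by
    intro n Φ hΦ
    have h1 := OutZ.of_isC (CS.IsC.of_erase H.mx hΦ)
    refine OutZ.ext ((h1.lo H.mx _).d S subset_rfl) ((h1.d S erase_sub).lo H.mx _) ?_
    intro s hs
    rw [S.d_erase H.mx, Pi.add_apply]
    have e1 : S.pd x (Lo x LinearMap.id Φ) s = 0 := by
      by_cases hx : s x = true
      · rw [S.pd_true x _ hx, Lo_apply, if_pos (by simp), update_true_false s hx,
          LinearMap.id_apply]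
        have hc := H.circF (s := update s x false) (InCube.update hs H.mx false) (by simp)
        rw [update_true_false s hx] at hc
        exact tog_eq_zero_of_mem hc.notMem (Tr_mem_of_mem (hΦ.inv s) hc.mem)
      · exact S.pd_false x _ (by simpa using hx)
    rw [e1, zero_add]
    exact d'_comm (fun Ψ y hy => H.Lo_comm LinearMap.id (fun u _ _ => rfl) Ψ hs hy)
  rC := by
    intro n Φ hΦ
    have h1 : S.IsC A c (n + 1) (Ra x (psi lam (S.u x)) Φ) := by
      refine CS.IsC.raise hΦ H.mx ?_ ?_
      · intro s hs
        rw [Ra_apply] at hs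
        split_ifs at hs with h2
        · refine ⟨h2, fun h0 => hs ?_⟩
          rw [h0, map_zero]
        · exact absurd rfl hs
      · intro s hs
        rw [Ra_apply]
        split_ifs with h2
        · have hc := H.circF (s := update s x false) (InCube.update hs H.mx false) (by simp)
          rw [update_true_false s h2] at hc
          exact hc.psi_mem (hΦ.inv _)
        · exact Submodule.zero_mem _
    have h2 := CS.IsC.erase H.mx (b := true) h1 ?_
    · rw [if_pos rfl] at h2
      rw [show n - 0 = n + 1 - 1 by ring]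
      exact h2
    · intro s hs
      rw [Ra_apply] at hs
      split_ifs at hs with h2
      · exact h2
      · exact absurd rfl hs
  rd := by
    intro n Φ hΦ
    have h1 := OutZ.of_isC hΦ
    refine OutZ.ext ((h1.ra H.mx _).d S erase_sub) ((h1.d S subset_rfl).ra H.mx _) ?_
    intro s hs
    rw [S.d_erase H.mx Φ, map_add, Pi.add_apply]
    have e1 : Ra x (psi lam (S.u x)) (S.pd x Φ) s = 0 := by
      rw [Ra_apply]
      split_ifs with h2
      · rw [S.pd_false x _ (by simp), map_zero]
      · rfl
    rw [e1, zero_add]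
    exact d'_comm (fun Ψ y hy => H.Ra_comm _ (fun u hu => Tr_psi lam _ hu) Ψ hs hy)
  rg := by
    intro n Φ hΦ
    funext s
    rw [Ra_apply]
    split_ifs with h2
    · rw [Lo_apply, if_pos (by simp), update_true_false s h2, LinearMap.id_apply]
      by_cases h0 : Φ s = 0
      · rw [h0, map_zero]
      · have hs := ((InCube.erase_iff H.mx true s).mp (hΦ.supp s h0).1).1
        have hc := H.circF (s := update s x false) (InCube.update hs H.mx false) (by simp)
        rw [update_true_false s h2] at hc
        have := hc.psi_tog (hΦ.inv s)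
        rwa [hc.tog_split] at this
    · exact (small_zero H.mx hΦ h2).symm
  hC := by
    intro n Φ hΦ
    refine CS.IsC.lower hΦ H.mx ?_ ?_
    · intro s hs
      rw [Lo_apply] at hs
      split_ifs at hs with h2
      · refine ⟨h2, fun h0 => hs ?_⟩
        rw [h0, map_zero]
      · exact absurd rfl hs
    · intro s hs
      rw [Lo_apply]
      split_ifs with h2
      · exact (H.circF hs h2).iot_mem (hΦ.inv _)
      · exact Submodule.zero_mem _
  hd := by
    intro n Φ hΦ
    have h1 := OutZ.of_isC hΦ
    refine OutZ.ext (h1.add ((h1.ra H.mx _).lo H.mx _))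
      (((h1.lo H.mx _).d S subset_rfl).add ((h1.d S subset_rfl).lo H.mx _)) ?_
    intro s hs
    rw [S.d_erase H.mx, S.d_erase H.mx Φ, map_add (Lo x (iot lam))]
    simp only [Pi.add_apply]
    rw [d'_comm (F := Lo x (iot lam))
      (fun Ψ y hy => H.Lo_comm _ (fun u hu => Tr_iot lam hu) Ψ hs hy)]
    have e0 : ∀ a b c : U → ZMod 2, a + b + (c + b) = a + c := by
      intro a b c
      rw [show a + b + (c + b) = a + c + (b + b) by abel, add_self_F2, add_zero]
    rw [e0]
    by_cases hx : s x = false
    · have hc := H.circF hs hx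
      rw [S.pd_false x _ hx, Lo_apply, if_pos hx, Ra_apply, if_pos (by simp),
        update_false_true s hx, Lo_apply, if_pos hx, S.pd_true x _ (by simp),
        update_false_true s hx, hc.tog_merge, LinearMap.id_apply, ← Circ.add_psi, zero_add]
    · have hx' : s x = true := by simpa using hx
      rw [Lo_apply, if_neg hx, Lo_apply, if_neg hx, S.pd_true x _ hx', Lo_apply,
        if_pos (by simp), update_true_false s hx', add_zero, add_zero]
      have hc := H.circF (s := update s x false) (InCube.update hs H.mx false) (by simp)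
      rw [update_true_false s hx'] at hc
      exact (hc.tog_iot (hΦ.inv s)).symm
  g0 := map_zero _
  r0 := map_zero _
  h0 := map_zero _

/-- R1 with the circle in the state `true`. -/
theorem sdrT (H : R1H S A c x true lam) :
    SDR S A c S (A.erase x) (update c x false) 1
      (Ra x (iot lam)) (Lo x (LinearMap.id + Tr (S.u x))) (Lo x (psi lam (S.u x))) where
  gC := by
    intro n Φ hΦ
    have h1 := CS.IsC.of_erase H.mx hΦ
    rw [if_neg Bool.false_ne_true, add_zero] at h1
    refine CS.IsC.raise h1 H.mx ?_ ?_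
    · intro s hs
      rw [Ra_apply] at hs
      split_ifs at hs with h2
      · refine ⟨h2, fun h0 => hs ?_⟩
        rw [h0, map_zero]
      · exact absurd rfl hs
    · intro s hs
      rw [Ra_apply]
      split_ifs with h2
      · exact (H.circT hs h2).iot_mem (hΦ.inv _)
      · exact Submodule.zero_mem _
  gd := by
    intro n Φ hΦ
    have h1 := OutZ.of_isC (CS.IsC.of_erase H.mx hΦ)
    refine OutZ.ext ((h1.ra H.mx _).d S subset_rfl) ((h1.d S erase_sub).ra H.mx _) ?_
    intro s hs
    rw [S.d_erase H.mx, Pi.add_apply]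
    have e1 : S.pd x (Ra x (iot lam) Φ) s = 0 := by
      by_cases hx : s x = true
      · rw [S.pd_true x _ hx, Ra_apply, if_neg (by simp), map_zero]
      · exact S.pd_false x _ (by simpa using hx)
    rw [e1, zero_add]
    exact d'_comm (fun Ψ y hy => H.Ra_comm _ (fun u hu => Tr_iot lam hu) Ψ hs hy)
  rC := by
    intro n Φ hΦ
    have h1 : S.IsC A c (n - 1) (Lo x (LinearMap.id + Tr (S.u x)) Φ) := by
      refine CS.IsC.lower hΦ H.mx ?_ ?_
      · intro s hs
        rw [Lo_apply] at hs
        split_ifs at hs with h2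
        · refine ⟨h2, fun h0 => hs ?_⟩
          rw [h0, map_zero]
        · exact absurd rfl hs
      · intro s hs
        rw [Lo_apply]
        split_ifs with h2
        · have hc := H.circT (s := update s x true) (InCube.update hs H.mx true) (by simp)
          rw [update_false_true s h2] at hc
          have := hc.edge.tog_mem (hΦ.inv (update s x true))
          rw [hc.tog_merge] at this
          exact this
        · exact Submodule.zero_mem _
    have h2 := CS.IsC.erase H.mx (b := false) h1 ?_
    · rw [if_neg Bool.false_ne_true, sub_zero] at h2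
      exact h2
    · intro s hs
      rw [Lo_apply] at hs
      split_ifs at hs with h2
      · exact h2
      · exact absurd rfl hs
  rd := by
    intro n Φ hΦ
    have h1 := OutZ.of_isC hΦ
    refine OutZ.ext ((h1.lo H.mx _).d S erase_sub) ((h1.d S subset_rfl).lo H.mx _) ?_
    intro s hs
    rw [S.d_erase H.mx Φ, map_add, Pi.add_apply]
    have e1 : Lo x (LinearMap.id + Tr (S.u x)) (S.pd x Φ) s = 0 := by
      rw [Lo_apply]
      split_ifs with h2
      · have hc := H.circT (s := update s x true) (InCube.update hs H.mx true) (by simp)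
        rw [update_false_true s h2] at hc
        rw [S.pd_true x _ (by simp), update_false_true s h2, hc.tog_split]
        have := Tr_mem_of_mem (hΦ.inv s) hc.mem
        rw [LinearMap.add_apply, LinearMap.id_apply, this]
        exact add_self_F2 _
      · rfl
    rw [e1, zero_add]
    exact d'_comm (fun Ψ y hy => H.Lo_comm _ (fun u _ => oneTr_comm _ u) Ψ hs hy)
  rg := by
    intro n Φ hΦ
    funext s
    rw [Lo_apply]
    split_ifs with h2
    · rw [Ra_apply, if_pos (by simp), update_false_true s h2]
      by_cases h0 : Φ s = 0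
      · rw [h0, map_zero, map_zero]
      · have hs := ((InCube.erase_iff H.mx false s).mp (hΦ.supp s h0).1).1
        have hc := H.circT (s := update s x true) (InCube.update hs H.mx true) (by simp)
        rw [update_false_true s h2] at hc
        have := hc.tog_iot (hΦ.inv s)
        rwa [hc.tog_merge] at this
    · exact (small_zero H.mx hΦ h2).symm
  hC := by
    intro n Φ hΦ
    refine CS.IsC.lower hΦ H.mx ?_ ?_
    · intro s hs
      rw [Lo_apply] at hs
      split_ifs at hs with h2
      · refine ⟨h2, fun h0 => hs ?_⟩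
        rw [h0, map_zero]
      · exact absurd rfl hs
    · intro s hs
      rw [Lo_apply]
      split_ifs with h2
      · have hc := H.circT (s := update s x true) (InCube.update hs H.mx true) (by simp)
        rw [update_false_true s h2] at hc
        exact hc.psi_mem (hΦ.inv _)
      · exact Submodule.zero_mem _
  hd := by
    intro n Φ hΦ
    have h1 := OutZ.of_isC hΦ
    refine OutZ.ext (h1.add ((h1.lo H.mx _).ra H.mx _))
      (((h1.lo H.mx _).d S subset_rfl).add ((h1.d S subset_rfl).lo H.mx _)) ?_
    intro s hs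
    rw [S.d_erase H.mx, S.d_erase H.mx Φ, map_add (Lo x (psi lam (S.u x)))]
    simp only [Pi.add_apply]
    rw [d'_comm (F := Lo x (psi lam (S.u x)))
      (fun Ψ y hy => H.Lo_comm _ (fun u hu => Tr_psi lam _ hu) Ψ hs hy)]
    have e0 : ∀ a b c : U → ZMod 2, a + b + (c + b) = a + c := by
      intro a b c
      rw [show a + b + (c + b) = a + c + (b + b) by abel, add_self_F2, add_zero]
    rw [e0]
    by_cases hx : s x = false
    · have hc := H.circT (s := update s x true) (InCube.update hs H.mx true) (by simp)
      rw [update_false_true s hx] at hc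
      rw [S.pd_false x _ hx, Ra_apply, if_neg (by rw [hx]; exact Bool.false_ne_true),
        Lo_apply, if_pos hx, S.pd_true x _ (by simp), update_false_true s hx, add_zero, zero_add]
      exact (hc.psi_tog (hΦ.inv s)).symm
    · have hx' : s x = true := by simpa using hx
      have hc := H.circT hs hx'
      rw [Ra_apply, if_pos hx', Lo_apply, if_pos (by simp), update_true_false s hx',
        Lo_apply, if_neg hx, S.pd_true x _ hx', Lo_apply,
        if_pos (by simp), update_true_false s hx', add_zero, hc.tog_split]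
      rw [LinearMap.add_apply, LinearMap.id_apply, ← Circ.add_psi, ← add_assoc]
      have : Φ s + Φ s = 0 := add_self_F2 _
      rw [this, zero_add]
  g0 := map_zero _
  r0 := map_zero _
  h0 := map_zero _

end R1H

end

end Spg
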