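import Pool.Agent.H85.SpgOps

/-!
# Circles, and the closed versions of the first two Reidemeister moves

Layer M3 of the proof of MP_5e61f3_gt.
-/

set_option linter.unusedSectionVars false

open Function

namespace Spg

section

variable {U : Type} [AddCommGroup U] [Module (ZMod 2) U]

theorem Tr_mem_of_mem {L : Submodule (ZMod 2) U} {φ : U → ZMod 2} (hφ : φ ∈ Inv L) {u : U}
    (hu : u ∈ L) : Tr u φ = φ := by
  funext v; exact hφ u hu v

/-- Multiplication by the indicator of `lam = 0`. -/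
def iot (lam : U →ₗ[ZMod 2] ZMod 2) : (U → ZMod 2) →ₗ[ZMod 2] (U → ZMod 2) where
  toFun φ v := if lam v = 0 then φ v else 0
  map_add' φ ψ := by
    funext v; simp only [Pi.add_apply]; split_ifs
    · rfl
    · rw [add_zero]
  map_smul' c φ := by
    funext v; simp only [Pi.smul_apply, RingHom.id_apply]; split_ifs
    · rfl
    · rw [smul_zero]

theorem iot_apply (lam : U →ₗ[ZMod 2] ZMod 2) (φ : U → ZMod 2) (v : U) :
    iot lam φ v = if lam v = 0 then φ v else 0 := rfl

/-- The function which is invariant under `u` and agrees with `φ` on `lam = 1`. -/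
def psi (lam : U →ₗ[ZMod 2] ZMod 2) (u : U) : (U → ZMod 2) →ₗ[ZMod 2] (U → ZMod 2) where
  toFun φ v := if lam v = 0 then φ (v + u) else φ v
  map_add' φ ψ := by
    funext v; simp only [Pi.add_apply]; split_ifs <;> rfl
  map_smul' c φ := by
    funext v; simp only [Pi.smul_apply, RingHom.id_apply]; split_ifs <;> rfl

theorem psi_apply (lam : U →ₗ[ZMod 2] ZMod 2) (u : U) (φ : U → ZMod 2) (v : U) :
    psi lam u φ v = if lam v = 0 then φ (v + u) else φ v := rfl

theorem one_add_one_Z2 : (1 : ZMod 2) + 1 = 0 := by decide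

theorem ne_zero_Z2 {a : ZMod 2} (h : a ≠ 0) : a = 1 := (Z2_cases a).resolve_left h

theorem one_ne_zero_Z2 : (1 : ZMod 2) ≠ 0 := by decide

theorem psi_iot (lam : U →ₗ[ZMod 2] ZMod 2) {u : U} (hu : lam u = 1) (φ : U → ZMod 2) :
    psi lam u (iot lam φ) = 0 := by
  funext v
  rw [psi_apply, iot_apply, iot_apply, map_add, hu]
  by_cases h : lam v = 0
  · simp [h]
  · simp [h]

/-- The relation between the submodule `Lc` of a state with a circle and the submodule `L'` of
the neighbouring state in which the circle has been merged. -/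
structure Circ (lam : U →ₗ[ZMod 2] ZMod 2) (Lc L' : Submodule (ZMod 2) U) (u : U) : Prop where
  edge : Edge Lc L' u
  lam0 : ∀ l ∈ Lc, lam l = 0
  lam1 : lam u = 1

namespace Circ

variable {lam : U →ₗ[ZMod 2] ZMod 2} {Lc L' : Submodule (ZMod 2) U} {u : U}

theorem notMem (h : Circ lam Lc L' u) : u ∉ Lc := by
  intro hu
  have := h.lam0 u hu
  rw [h.lam1] at this
  exact one_ne_zero_Z2 this

theorem mem (h : Circ lam Lc L' u) : u ∈ L' := h.edge.not_mem_right h.notMem

theorem le (h : Circ lam Lc L' u) : Lc ≤ L' := h.edge.le_of_mem h.mem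

theorem mem_iff (h : Circ lam Lc L' u) {w : U} (hw : lam w = 0) : w ∈ L' ↔ w ∈ Lc := by
  constructor
  · intro h1
    rcases (h.edge.mem_iff h.mem).mp h1 with h2 | h2
    · exact h2
    · have := h.lam0 _ h2
      rw [map_add, hw, h.lam1, zero_add] at this
      exact absurd this one_ne_zero_Z2
  · intro h1; exact h.le h1

theorem iot_mem (h : Circ lam Lc L' u) {φ : U → ZMod 2} (hφ : φ ∈ Inv L') :
    iot lam φ ∈ Inv Lc := by
  intro l hl v
  rw [iot_apply, iot_apply, map_add, h.lam0 l hl, add_zero, hφ l (h.le hl) v]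

theorem psi_mem (h : Circ lam Lc L' u) {φ : U → ZMod 2} (hφ : φ ∈ Inv Lc) :
    psi lam u φ ∈ Inv L' := by
  intro l hl v
  rcases (h.edge.mem_iff h.mem).mp hl with h1 | h1
  · rw [psi_apply, psi_apply, map_add, h.lam0 l h1, add_zero]
    rw [show v + l + u = v + u + l by abel, hφ l h1, hφ l h1]
  · have hl1 : lam l = 1 := by
      have := h.lam0 _ h1
      rw [map_add, h.lam1] at this
      rcases Z2_cases (lam l) with h0 | h0
      · rw [h0, zero_add] at this
        exact absurd this one_ne_zero_Z2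
      · exact h0
    have e1 : ∀ w, φ (w + l) = φ (w + u) := by
      intro w
      have := hφ _ h1 (w + u)
      rw [show w + u + (l + u) = w + l + u + u by abel, add_add_cancel_F2] at this
      exact this
    rw [psi_apply, psi_apply, map_add, hl1]
    by_cases h0 : lam v = 0
    · rw [h0, zero_add, if_neg one_ne_zero_Z2, if_pos rfl, e1]
    · rw [ne_zero_Z2 h0, one_add_one_Z2, if_pos rfl, if_neg one_ne_zero_Z2]
      rw [show v + l + u = v + (l + u) by abel, hφ _ h1]

/-- Splitting off the circle, then merging it back by `psi`. -/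
theorem psi_tog (h : Circ lam Lc L' u) {φ : U → ZMod 2} (hφ : φ ∈ Inv L') :
    psi lam u (tog L' Lc u φ) = φ := by
  rw [tog_in_out h.mem h.notMem]
  funext v
  rw [psi_apply, hφ u h.mem v, ite_self]

/-- Merging the circle after `iot`. -/
theorem tog_iot (h : Circ lam Lc L' u) {φ : U → ZMod 2} (hφ : φ ∈ Inv L') :
    tog Lc L' u (iot lam φ) = φ := by
  rw [tog_out h.notMem]
  funext v
  rw [Pi.add_apply, Tr_apply, iot_apply, iot_apply, map_add, h.lam1, hφ u h.mem v]
  by_cases h0 : lam v = 0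
  · rw [h0, zero_add, if_pos rfl, if_neg one_ne_zero_Z2, add_zero]
  · rw [ne_zero_Z2 h0, one_add_one_Z2, if_pos rfl, if_neg one_ne_zero_Z2, zero_add]

/-- The splitting map is the inclusion. -/
theorem tog_split (h : Circ lam Lc L' u) (φ : U → ZMod 2) :
    tog L' Lc u φ = φ := tog_in_out h.mem h.notMem φ

theorem tog_merge (h : Circ lam Lc L' u) (φ : U → ZMod 2) :
    tog Lc L' u φ = φ + Tr u φ := tog_out h.notMem φ

/-- `φ + psi φ = iot (φ + Tr u φ)`. -/
theorem add_psi (lam : U →ₗ[ZMod 2] ZMod 2) (u : U) (φ : U → ZMod 2) :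
    φ + psi lam u φ = iot lam (φ + Tr u φ) := by
  funext v
  rw [Pi.add_apply, psi_apply, iot_apply, Pi.add_apply, Tr_apply]
  split_ifs
  · rfl
  · exact add_self_Z2 _

end Circ

/-- A linear map commuting with the translation by `u` commutes with toggles. -/
theorem tog_comm_lin {LA LA' LB LB' : Submodule (ZMod 2) U} {u : U}
    (f : (U → ZMod 2) →ₗ[ZMod 2] (U → ZMod 2)) (hf : ∀ φ, Tr u (f φ) = f (Tr u φ))
    (h0 : u ∈ LA ↔ u ∈ LB) (h1 : u ∈ LA' ↔ u ∈ LB') (φ : U → ZMod 2) :
    tog LA LA' u (f φ) = f (tog LB LB' u φ) := by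
  by_cases hu : u ∈ LB
  · by_cases hu' : u ∈ LB'
    · rw [tog_in_in (h0.mpr hu) (h1.mpr hu'), tog_in_in hu hu', map_zero]
    · rw [tog_in_out (h0.mpr hu) (fun h => hu' (h1.mp h)), tog_in_out hu hu']
  · rw [tog_out (fun h => hu (h0.mp h)), tog_out hu, map_add, hf]

theorem Tr_iot (lam : U →ₗ[ZMod 2] ZMod 2) {u : U} (hu : lam u = 0) (φ : U → ZMod 2) :
    Tr u (iot lam φ) = iot lam (Tr u φ) := by
  funext v
  rw [Tr_apply, iot_apply, iot_apply, map_add, hu, add_zero]; rfl

theorem Tr_psi (lam : U →ₗ[ZMod 2] ZMod 2) (w : U) {u : U} (hu : lam u = 0)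
    (φ : U → ZMod 2) : Tr u (psi lam w φ) = psi lam w (Tr u φ) := by
  funext v
  rw [Tr_apply, psi_apply, psi_apply, map_add, hu, add_zero]
  simp only [Tr_apply]
  rw [show v + u + w = v + w + u by abel]

end

section

variable {X U : Type} [DecidableEq X] [AddCommGroup U] [Module (ZMod 2) U]

theorem Lo_comm_at (S : CS X U) {x y : X} (hxy : y ≠ x)
    (f : (U → ZMod 2) →ₗ[ZMod 2] (U → ZMod 2)) (hf : ∀ φ, Tr (S.u y) (f φ) = f (Tr (S.u y) φ))
    (Φ : Co X U) (s : X → Bool) (hs : s x = false)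
    (h0 : s y = true → (S.u y ∈ S.L (update s y false) ↔
      S.u y ∈ S.L (update (update s x true) y false)))
    (h1 : s y = true → (S.u y ∈ S.L s ↔ S.u y ∈ S.L (update s x true))) :
    S.pd y (Lo x f Φ) s = Lo x f (S.pd y Φ) s := by
  by_cases hy : s y = true
  · rw [S.pd_true y _ hy, Lo_apply, Lo_apply, update_of_ne (Ne.symm hxy), if_pos hs, if_pos hs,
      S.pd_true y _ (by rw [update_of_ne hxy]; exact hy), update_comm hxy]
    exact tog_comm_lin f hf (h0 hy) (h1 hy) _
  · have hy' : s y = false := by simpa using hy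
    rw [S.pd_false y _ hy', Lo_apply, if_pos hs,
      S.pd_false y _ (by rw [update_of_ne hxy]; exact hy'), map_zero]


namespace CS

variable {S : CS X U}

theorem IsC.eq_zero {A : Finset X} {c : X → Bool} {n : ℤ} {Φ : Co X U}
    (h : S.IsC A c n Φ) {s : X → Bool} (hs : ¬ InCube A c s) : Φ s = 0 := by
  by_contra h0
  exact hs (h.supp s h0).1

theorem deg_update_true {A : Finset X} {s : X → Bool} {x : X} (hx : x ∈ A)
    (h : s x = false) : deg A (update s x true) = deg A s + 1 := by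
  have := deg_update_false (s := update s x true) hx (by simp)
  rw [update_false_true s h] at this
  omega

theorem InCube.update_iff {A : Finset X} {c s : X → Bool} {x : X} (hx : x ∈ A) (b : Bool) :
    InCube A c (Function.update s x b) ↔ InCube A c s :=
  ⟨InCube.of_update hx, fun h => InCube.update h hx b⟩

theorem IsC.lower {A : Finset X} {c : X → Bool} {n : ℤ} {Φ Ψ : Co X U} {x : X}
    (hΦ : S.IsC A c n Φ) (hx : x ∈ A)
    (hΨ : ∀ s, Ψ s ≠ 0 → s x = false ∧ Φ (update s x true) ≠ 0)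
    (hinv : ∀ s, InCube A c s → Ψ s ∈ Inv (S.L s)) : S.IsC A c (n - 1) Ψ := by
  have key : ∀ s, Ψ s ≠ 0 → InCube A c s ∧ deg A s = n - 1 := by
    intro s hs
    obtain ⟨h1, h2⟩ := hΨ s hs
    obtain ⟨h3, h4⟩ := hΦ.supp _ h2
    refine ⟨InCube.of_update hx h3, ?_⟩
    rw [deg_update_true hx h1] at h4
    omega
  refine ⟨fun s => ?_, key⟩
  by_cases h : Ψ s = 0
  · rw [h]; exact Submodule.zero_mem _
  · exact hinv s (key s h).1

/-- Two cochains of the cube agree if they agree on the states of the cube. -/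
theorem ext_cube {A : Finset X} {c : X → Bool} {n m : ℤ} {Φ Ψ : Co X U}
    (hΦ : S.IsC A c n Φ) (hΨ : S.IsC A c m Ψ) (h : ∀ s, InCube A c s → Φ s = Ψ s) : Φ = Ψ := by
  funext s
  by_cases hs : InCube A c s
  · exact h s hs
  · rw [hΦ.eq_zero hs, hΨ.eq_zero hs]

end CS

/-- The hypotheses of the closed version of the second Reidemeister move. -/
structure R2H (S : CS X U) (A : Finset X) (c : X → Bool) (xa xb : X)
    (lam : U →ₗ[ZMod 2] ZMod 2) : Prop where
  ma : xa ∈ A
  mb : xb ∈ A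
  ne : xa ≠ xb
  la : lam (S.u xa) = 1
  lb : lam (S.u xb) = 1
  ly : ∀ y ∈ A, y ≠ xa → y ≠ xb → lam (S.u y) = 0
  lL : ∀ s, InCube A c s → s xa = true → s xb = false → ∀ l ∈ S.L s, lam l = 0

namespace R2H

variable {S : CS X U} {A : Finset X} {c : X → Bool} {xa xb : X} {lam : U →ₗ[ZMod 2] ZMod 2}

/-- The smaller set of active crossings. -/
def A' (_ : R2H S A c xa xb lam) : Finset X := (A.erase xa).erase xb

/-- The new frozen values. -/
def c' (_ : R2H S A c xa xb lam) : X → Bool := update (update c xa false) xb true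

theorem circa (H : R2H S A c xa xb lam) {s : X → Bool} (hs : InCube A c s)
    (ha : s xa = true) (hb : s xb = false) :
    Circ lam (S.L s) (S.L (update s xa false)) (S.u xa) :=
  ⟨(S.edge' s xa ha).symm, H.lL s hs ha hb, H.la⟩

theorem circb (H : R2H S A c xa xb lam) {s : X → Bool} (hs : InCube A c s)
    (ha : s xa = true) (hb : s xb = false) :
    Circ lam (S.L s) (S.L (update s xb true)) (S.u xb) :=
  ⟨S.edge s xb hb, H.lL s hs ha hb, H.lb⟩

/-- The lowering from `D` to `B`. -/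
def HI (_ : R2H S A c xa xb lam) : Co X U →ₗ[ZMod 2] Co X U := Rs xa true ∘ₗ Lo xb (iot lam)

/-- The lowering from `B` to `A`. -/
def HP (_ : R2H S A c xa xb lam) : Co X U →ₗ[ZMod 2] Co X U :=
  Rs xb false ∘ₗ Lo xa (psi lam (S.u xa))

/-- The projection to the states `C`. -/
def PC (_ : R2H S A c xa xb lam) : Co X U →ₗ[ZMod 2] Co X U := Rs xa false ∘ₗ Rs xb true

/-- The inclusion of the small complex. -/
noncomputable def g (H : R2H S A c xa xb lam) : Co X U →ₗ[ZMod 2] Co X U :=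
  LinearMap.id + H.HI ∘ₗ S.pd xa

/-- The retraction. -/
noncomputable def r (H : R2H S A c xa xb lam) : Co X U →ₗ[ZMod 2] Co X U :=
  H.PC ∘ₗ (LinearMap.id + S.pd xb ∘ₗ H.HP)

/-- The homotopy. -/
def h (H : R2H S A c xa xb lam) : Co X U →ₗ[ZMod 2] Co X U := H.HP + H.HI

theorem HI_apply (H : R2H S A c xa xb lam) (Φ : Co X U) (s : X → Bool) :
    H.HI Φ s = if s xa = true then (if s xb = false then iot lam (Φ (update s xb true)) else 0)
      else 0 := rfl

theorem HP_apply (H : R2H S A c xa xb lam) (Φ : Co X U) (s : X → Bool) :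
    H.HP Φ s = if s xb = false then
      (if s xa = false then psi lam (S.u xa) (Φ (update s xa true)) else 0) else 0 := rfl

theorem PC_apply (H : R2H S A c xa xb lam) (Φ : Co X U) (s : X → Bool) :
    H.PC Φ s = if s xa = false then (if s xb = true then Φ s else 0) else 0 := rfl

theorem g_eq (H : R2H S A c xa xb lam) (Φ : Co X U) : H.g Φ = Φ + H.HI (S.pd xa Φ) := rfl

theorem r_eq (H : R2H S A c xa xb lam) (Φ : Co X U) : H.r Φ = H.PC (Φ + S.pd xb (H.HP Φ)) := rfl

theorem h_eq (H : R2H S A c xa xb lam) (Φ : Co X U) : H.h Φ = H.HP Φ + H.HI Φ := rfl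

theorem HI_C (H : R2H S A c xa xb lam) {n : ℤ} {Φ : Co X U} (hΦ : S.IsC A c n Φ) :
    S.IsC A c (n - 1) (H.HI Φ) := by
  refine CS.IsC.lower hΦ H.mb ?_ ?_
  · intro s hs
    rw [HI_apply] at hs
    split_ifs at hs with h1 h2
    · refine ⟨h2, fun h0 => hs ?_⟩
      rw [h0, map_zero]
    · exact absurd rfl hs
    · exact absurd rfl hs
  · intro s hs
    rw [HI_apply]
    split_ifs with h1 h2
    · exact (H.circb hs h1 h2).iot_mem (hΦ.inv _)
    · exact Submodule.zero_mem _
    · exact Submodule.zero_mem _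

theorem HP_C (H : R2H S A c xa xb lam) {n : ℤ} {Φ : Co X U} (hΦ : S.IsC A c n Φ) :
    S.IsC A c (n - 1) (H.HP Φ) := by
  refine CS.IsC.lower hΦ H.ma ?_ ?_
  · intro s hs
    rw [HP_apply] at hs
    split_ifs at hs with h1 h2
    · refine ⟨h2, fun h0 => hs ?_⟩
      rw [h0, map_zero]
    · exact absurd rfl hs
    · exact absurd rfl hs
  · intro s hs
    rw [HP_apply]
    split_ifs with h1 h2
    · have hc := H.circa (s := update s xa true) (InCube.update hs H.ma true) (by simp)
        (by rw [update_of_ne H.ne.symm]; exact h1)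
      rw [update_false_true s h2] at hc
      exact hc.psi_mem (hΦ.inv _)
    · exact Submodule.zero_mem _
    · exact Submodule.zero_mem _

theorem PC_C (H : R2H S A c xa xb lam) {n : ℤ} {Φ : Co X U} (hΦ : S.IsC A c n Φ) :
    S.IsC A c n (H.PC Φ) := CS.IsC.Rs S (CS.IsC.Rs S hΦ xb true) xa false

/-- (1) -/
theorem HI_comm (H : R2H S A c xa xb lam) {n : ℤ} {Φ : Co X U} (hΦ : S.IsC A c n Φ)
    {y : X} (hy : y ∈ A) (ya : y ≠ xa) (yb : y ≠ xb) :
    S.pd y (H.HI Φ) = H.HI (S.pd y Φ) := by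
  refine CS.ext_cube (CS.IsC.pd S (H.HI_C hΦ) hy) (H.HI_C (CS.IsC.pd S hΦ hy)) ?_
  intro s hs
  change S.pd y (Rs xa true (Lo xb (iot lam) Φ)) s = Rs xa true (Lo xb (iot lam) (S.pd y Φ)) s
  rw [← CS.Rs_pd_comm S ya, Rs_apply, Rs_apply]
  split_ifs with ha
  · by_cases hb : s xb = false
    · refine Lo_comm_at S yb _ (fun φ => Tr_iot lam (H.ly y hy ya yb) φ) Φ s hb ?_ ?_
      · intro _
        have hc := H.circb (s := update s y false) (InCube.update hs hy false)
          (by rw [update_of_ne (Ne.symm ya)]; exact ha) (by rw [update_of_ne (Ne.symm yb)]; exact hb)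
        rw [update_comm (β := fun _ => Bool) (Ne.symm yb) true false, hc.mem_iff (H.ly y hy ya yb)]
      · intro _
        rw [(H.circb hs ha hb).mem_iff (H.ly y hy ya yb)]
    · have hb' : s xb = true := by simpa using hb
      rw [Lo_apply, if_neg hb, CS.pd_apply]
      split_ifs
      · rw [Lo_apply, if_neg (by rw [update_of_ne (Ne.symm yb)]; exact hb), map_zero]
      · rfl
  · rfl

/-- (2) -/
theorem HP_comm (H : R2H S A c xa xb lam) {n : ℤ} {Φ : Co X U} (hΦ : S.IsC A c n Φ)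
    {y : X} (hy : y ∈ A) (ya : y ≠ xa) (yb : y ≠ xb) :
    S.pd y (H.HP Φ) = H.HP (S.pd y Φ) := by
  refine CS.ext_cube (CS.IsC.pd S (H.HP_C hΦ) hy) (H.HP_C (CS.IsC.pd S hΦ hy)) ?_
  intro s hs
  change S.pd y (Rs xb false (Lo xa (psi lam (S.u xa)) Φ)) s
    = Rs xb false (Lo xa (psi lam (S.u xa)) (S.pd y Φ)) s
  rw [← CS.Rs_pd_comm S yb, Rs_apply, Rs_apply]
  split_ifs with hb
  · by_cases ha : s xa = false
    · refine Lo_comm_at S ya _ (fun φ => Tr_psi lam (S.u xa) (H.ly y hy ya yb) φ) Φ s ha ?_ ?_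
      · intro _
        have hc := H.circa (s := update (update s y false) xa true)
          (InCube.update (InCube.update hs hy false) H.ma true)
          (by simp) (by rw [update_of_ne H.ne.symm, update_of_ne (Ne.symm yb)]; exact hb)
        rw [update_false_true _ (by rw [update_of_ne (Ne.symm ya)]; exact ha)] at hc
        rw [hc.mem_iff (H.ly y hy ya yb), update_comm (β := fun _ => Bool) (Ne.symm ya) true false]
      · intro _
        have hc := H.circa (s := update s xa true) (InCube.update hs H.ma true)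
          (by simp) (by rw [update_of_ne H.ne.symm]; exact hb)
        rw [update_false_true _ ha] at hc
        rw [hc.mem_iff (H.ly y hy ya yb)]
    · rw [Lo_apply, if_neg ha, CS.pd_apply]
      split_ifs
      · rw [Lo_apply, if_neg (by rw [update_of_ne (Ne.symm ya)]; exact ha), map_zero]
      · rfl
  · rfl


/-- (4) -/
theorem pda_HI (H : R2H S A c xa xb lam) (Φ : Co X U) : S.pd xa (H.HI Φ) = 0 :=
  CS.pd_Rs_true S xa _

/-- (7) -/
theorem HP_pdb (H : R2H S A c xa xb lam) (Φ : Co X U) : H.HP (S.pd xb Φ) = 0 := by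
  funext s
  rw [HP_apply]
  split_ifs with h1 h2
  · rw [S.pd_false xb _ (by rw [update_of_ne H.ne.symm]; exact h1), map_zero]; rfl
  · rfl
  · rfl

/-- (8) -/
theorem PC_pda (H : R2H S A c xa xb lam) (Φ : Co X U) : H.PC (S.pd xa Φ) = 0 := by
  change Rs xa false (Rs xb true (S.pd xa Φ)) = 0
  rw [CS.Rs_pd_comm S H.ne, CS.Rs_false_pd]

/-- (9) -/
theorem pdb_PC (H : R2H S A c xa xb lam) (Φ : Co X U) : S.pd xb (H.PC Φ) = 0 := by
  change S.pd xb (Rs xa false (Rs xb true Φ)) = 0
  rw [← CS.Rs_pd_comm S H.ne.symm, CS.pd_Rs_true, map_zero]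

/-- (3) -/
theorem PC_comm (H : R2H S A c xa xb lam) (Φ : Co X U) {y : X} (ya : y ≠ xa) (yb : y ≠ xb) :
    S.pd y (H.PC Φ) = H.PC (S.pd y Φ) := by
  change S.pd y (Rs xa false (Rs xb true Φ)) = Rs xa false (Rs xb true (S.pd y Φ))
  rw [CS.Rs_pd_comm S yb, CS.Rs_pd_comm S ya]

/-- (5) -/
theorem pdb_HI (H : R2H S A c xa xb lam) {n : ℤ} {Φ : Co X U} (hΦ : S.IsC A c n Φ) :
    S.pd xb (H.HI Φ) = Rs xa true (Rs xb true Φ) := by
  refine CS.ext_cube (CS.IsC.pd S (H.HI_C hΦ) H.mb)
    (CS.IsC.Rs S (CS.IsC.Rs S hΦ xb true) xa true) ?_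
  intro s hs
  rw [Rs_apply, Rs_apply]
  by_cases hb : s xb = true
  · rw [S.pd_true xb _ hb, HI_apply, update_of_ne H.ne, if_pos hb]
    by_cases ha : s xa = true
    · rw [if_pos ha, if_pos ha, if_pos (by simp), update_true_false s hb]
      have hc := H.circb (s := update s xb false) (InCube.update hs H.mb false)
        (by rw [update_of_ne H.ne]; exact ha) (by simp)
      rw [update_true_false s hb] at hc
      exact hc.tog_iot (hΦ.inv _)
    · rw [if_neg ha, if_neg ha, map_zero]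
  · rw [S.pd_false xb _ (by simpa using hb), if_neg hb, ite_self]

/-- (6) -/
theorem HP_pda (H : R2H S A c xa xb lam) {n : ℤ} {Φ : Co X U} (hΦ : S.IsC A c n Φ) :
    H.HP (S.pd xa Φ) = Rs xa false (Rs xb false Φ) := by
  refine CS.ext_cube (H.HP_C (CS.IsC.pd S hΦ H.ma))
    (CS.IsC.Rs S (CS.IsC.Rs S hΦ xb false) xa false) ?_
  intro s hs
  rw [HP_apply, Rs_apply, Rs_apply]
  by_cases hb : s xb = false
  · rw [if_pos hb, if_pos hb]
    by_cases ha : s xa = false
    · rw [if_pos ha, if_pos ha, S.pd_true xa _ (by simp), update_false_true s ha]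
      have hc := H.circa (s := update s xa true) (InCube.update hs H.ma true) (by simp)
        (by rw [update_of_ne H.ne.symm]; exact hb)
      rw [update_false_true s ha] at hc
      exact hc.psi_tog (hΦ.inv _)
    · rw [if_neg ha, if_neg ha]
  · rw [if_neg hb, if_neg hb, ite_self]

/-- (10) -/
theorem PC_pdb_HP (H : R2H S A c xa xb lam) (Φ : Co X U) :
    H.PC (S.pd xb (H.HP Φ)) = S.pd xb (H.HP Φ) := by
  funext s
  rw [PC_apply]
  by_cases hb : s xb = true
  · by_cases ha : s xa = false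
    · rw [if_pos ha, if_pos hb]
    · rw [if_neg ha, S.pd_true xb _ hb, HP_apply, update_of_ne H.ne, if_neg ha, ite_self,
        map_zero]
  · rw [S.pd_false xb _ (by simpa using hb), ite_self, ite_self]

/-- (11) -/
theorem HI_pda_PC (H : R2H S A c xa xb lam) (Φ : Co X U) :
    H.HI (S.pd xa (H.PC Φ)) = H.HI (S.pd xa Φ) := by
  change H.HI (S.pd xa (Rs xa false (Rs xb true Φ))) = H.HI (S.pd xa Φ)
  rw [CS.pd_Rs_false, ← CS.Rs_pd_comm S H.ne]
  funext s
  rw [HI_apply, HI_apply, Rs_apply, update_self, if_pos (rfl : true = true)]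

/-- (12) -/
theorem pdb_PA (H : R2H S A c xa xb lam) (Φ : Co X U) :
    S.pd xb (Rs xa false (Rs xb false Φ)) = H.PC (S.pd xb Φ) := by
  change _ = Rs xa false (Rs xb true (S.pd xb Φ))
  rw [CS.Rs_true_pd, ← CS.Rs_pd_comm S H.ne.symm, CS.pd_Rs_false]

/-- (14) -/
theorem HI_pdb (H : R2H S A c xa xb lam) (Φ : Co X U) :
    H.HI (S.pd xb (Rs xa true (Rs xb false Φ))) = H.HI (S.pd xb Φ) := by
  rw [← CS.Rs_pd_comm S H.ne.symm, CS.pd_Rs_false]
  funext s
  rw [HI_apply, HI_apply]
  by_cases ha : s xa = true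
  · have e : Rs xa true (S.pd xb Φ) (update s xb true) = S.pd xb Φ (update s xb true) := by
      rw [Rs_apply, if_pos (by rw [update_of_ne H.ne]; exact ha)]
    rw [e]
  · rw [if_neg ha, if_neg ha]

/-- (13) -/
theorem HI_pdb_chi (H : R2H S A c xa xb lam) {n : ℤ} {Φ : Co X U} (hΦ : S.IsC A c n Φ) :
    H.HI (S.pd xb (Rs xa true (Rs xb false Φ) + S.pd xa (H.HP Φ)))
      = Rs xa true (Rs xb false Φ) + S.pd xa (H.HP Φ) := by
  have h1 : S.IsC A c n (S.pd xa (H.HP Φ)) := by
    have := CS.IsC.pd S (H.HP_C hΦ) H.ma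
    rwa [sub_add_cancel] at this
  have h2 : S.IsC A c n (Rs xa true (Rs xb false Φ) + S.pd xa (H.HP Φ)) :=
    CS.IsC.add S (CS.IsC.Rs S (CS.IsC.Rs S hΦ xb false) xa true) h1
  refine CS.ext_cube (H.HI_C (CS.IsC.pd S h2 H.mb)) h2 ?_
  intro s hs
  rw [HI_apply]
  by_cases ha : s xa = true
  · rw [if_pos ha]
    by_cases hb : s xb = false
    · rw [if_pos hb, S.pd_true xb _ (by simp), update_false_true s hb]
      have hc := H.circa hs ha hb
      have hcb := H.circb hs ha hb
      have e : (Rs xa true (Rs xb false Φ) + S.pd xa (H.HP Φ)) s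
          = iot lam (Φ s + Tr (S.u xa) (Φ s)) := by
        rw [Pi.add_apply, Rs_apply, if_pos ha, Rs_apply, if_pos hb, S.pd_true xa _ ha,
          HP_apply, update_of_ne H.ne.symm, if_pos hb, if_pos (by simp),
          update_true_false s ha, ← Circ.add_psi]
        rw [tog_in_out hc.mem hc.notMem]
      have hinv : Φ s + Tr (S.u xa) (Φ s) ∈ Inv (S.L (update s xa false)) := by
        have := hc.edge.tog_mem (hΦ.inv s)
        rwa [tog_out hc.notMem] at this
      rw [e, tog_out hcb.notMem]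
      funext v
      rw [iot_apply, Pi.add_apply, Tr_apply, iot_apply, iot_apply, map_add, H.lb]
      by_cases h0 : lam v = 0
      · rw [h0, zero_add, if_pos rfl, if_pos rfl, if_neg one_ne_zero_Z2, add_zero]
      · rw [if_neg h0, if_neg h0]
    · rw [if_neg hb, Pi.add_apply, Rs_apply, if_pos ha, Rs_apply, if_neg hb, S.pd_true xa _ ha,
        HP_apply, update_of_ne H.ne.symm, if_neg hb, map_zero, add_zero]
  · rw [if_neg ha, Pi.add_apply, Rs_apply, if_neg ha, S.pd_false xa _ (by simpa using ha),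
      add_zero]

/-- (15) -/
theorem four (H : R2H S A c xa xb lam) (Φ : Co X U) :
    Φ = Rs xa false (Rs xb false Φ) + Rs xa true (Rs xb false Φ) + H.PC Φ
      + Rs xa true (Rs xb true Φ) := by
  funext s
  simp only [Pi.add_apply, Rs_apply, PC_apply]
  rcases Bool.eq_false_or_eq_true (s xa) with ha | ha <;>
  rcases Bool.eq_false_or_eq_true (s xb) with hb | hb <;>
  simp [ha, hb]

theorem d_split (H : R2H S A c xa xb lam) (Φ : Co X U) :
    S.d A Φ = S.pd xa Φ + S.pd xb Φ + S.d H.A' Φ := by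
  rw [S.d_erase H.ma, S.d_erase (A := A.erase xa) (x := xb)
    (Finset.mem_erase.mpr ⟨H.ne.symm, H.mb⟩), add_assoc]
  rfl

theorem mem_A' (H : R2H S A c xa xb lam) {y : X} : y ∈ H.A' ↔ y ∈ A ∧ y ≠ xa ∧ y ≠ xb := by
  unfold A'
  rw [Finset.mem_erase, Finset.mem_erase]
  tauto

theorem HI_d' (H : R2H S A c xa xb lam) {n : ℤ} {Φ : Co X U} (hΦ : S.IsC A c n Φ) :
    S.d H.A' (H.HI Φ) = H.HI (S.d H.A' Φ) := by
  rw [CS.d, LinearMap.sum_apply, LinearMap.sum_apply, map_sum]
  refine Finset.sum_congr rfl (fun y hy => ?_)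
  rw [H.mem_A'] at hy
  exact H.HI_comm hΦ hy.1 hy.2.1 hy.2.2

theorem HP_d' (H : R2H S A c xa xb lam) {n : ℤ} {Φ : Co X U} (hΦ : S.IsC A c n Φ) :
    S.d H.A' (H.HP Φ) = H.HP (S.d H.A' Φ) := by
  rw [CS.d, LinearMap.sum_apply, LinearMap.sum_apply, map_sum]
  refine Finset.sum_congr rfl (fun y hy => ?_)
  rw [H.mem_A'] at hy
  exact H.HP_comm hΦ hy.1 hy.2.1 hy.2.2

theorem PC_d' (H : R2H S A c xa xb lam) (Φ : Co X U) :
    S.d H.A' (H.PC Φ) = H.PC (S.d H.A' Φ) := by
  rw [CS.d, LinearMap.sum_apply, LinearMap.sum_apply, map_sum]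
  refine Finset.sum_congr rfl (fun y hy => ?_)
  rw [H.mem_A'] at hy
  exact H.PC_comm Φ hy.2.1 hy.2.2

theorem pd_d' (H : R2H S A c xa xb lam) {Φ : Co X U} (hΦ : S.IsInv Φ) (x : X) :
    S.d H.A' (S.pd x Φ) = S.pd x (S.d H.A' Φ) := by
  rw [CS.d, LinearMap.sum_apply, LinearMap.sum_apply, map_sum]
  refine Finset.sum_congr rfl (fun y _ => ?_)
  exact S.pd_comm hΦ y x

/-- Cochains of the small cube. -/
theorem small (H : R2H S A c xa xb lam) {n : ℤ} {Φ : Co X U} (hΦ : S.IsC H.A' H.c' n Φ)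
    {s : X → Bool} (hs : Φ s ≠ 0) : InCube A c s ∧ s xa = false ∧ s xb = true
      ∧ deg A s = n + 1 := by
  obtain ⟨h1, h2⟩ := hΦ.supp s hs
  have ha : s xa = false := by
    rw [h1 xa (by rw [H.mem_A']; tauto)]
    unfold c'
    rw [update_of_ne H.ne, update_self]
  have hb : s xb = true := by
    rw [h1 xb (by rw [H.mem_A']; tauto)]
    unfold c'
    rw [update_self]
  refine ⟨?_, ha, hb, ?_⟩
  · intro y hy
    have ya : y ≠ xa := fun e => hy (e ▸ H.ma)
    have yb : y ≠ xb := fun e => hy (e ▸ H.mb)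
    rw [h1 y (by rw [H.mem_A']; tauto)]
    unfold c'
    rw [update_of_ne yb, update_of_ne ya]
  · rw [← h2]
    have e : A.filter (fun y => s y = true) = insert xb (H.A'.filter (fun y => s y = true)) := by
      ext y
      rw [Finset.mem_insert, Finset.mem_filter, Finset.mem_filter, H.mem_A']
      constructor
      · rintro ⟨h3, h4⟩
        by_cases yb : y = xb
        · exact Or.inl yb
        · refine Or.inr ⟨⟨h3, fun e => ?_, yb⟩, h4⟩
          rw [e, ha] at h4
          exact Bool.false_ne_true h4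
      · rintro (rfl | ⟨⟨h3, _, _⟩, h4⟩)
        · exact ⟨H.mb, hb⟩
        · exact ⟨h3, h4⟩
    unfold deg
    rw [e, Finset.card_insert_of_notMem]
    · push_cast; ring
    · rw [Finset.mem_filter, H.mem_A']; tauto

theorem PC_small (H : R2H S A c xa xb lam) {n : ℤ} {Φ : Co X U} (hΦ : S.IsC H.A' H.c' n Φ) :
    H.PC Φ = Φ := by
  funext s
  rw [PC_apply]
  by_cases hs : Φ s = 0
  · rw [hs, ite_self, ite_self]
  · obtain ⟨_, h1, h2, _⟩ := H.small hΦ hs
    rw [if_pos h1, if_pos h2]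

theorem big_of_small (H : R2H S A c xa xb lam) {n : ℤ} {Φ : Co X U}
    (hΦ : S.IsC H.A' H.c' n Φ) : S.IsC A c (n + 1) Φ :=
  ⟨hΦ.inv, fun _ hs => ⟨(H.small hΦ hs).1, (H.small hΦ hs).2.2.2⟩⟩

/-- A cochain of the big cube supported on the states `C` is a cochain of the small cube. -/
theorem small_of_big (H : R2H S A c xa xb lam) {n : ℤ} {Φ : Co X U}
    (hΦ : S.IsC A c n Φ) : S.IsC H.A' H.c' (n - 1) (H.PC Φ) := by
  refine ⟨(H.PC_C hΦ).inv, fun s hs => ?_⟩
  rw [PC_apply] at hs
  split_ifs at hs with ha hb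
  · obtain ⟨h1, h2⟩ := hΦ.supp s hs
    constructor
    · intro y hy
      rw [H.mem_A'] at hy
      unfold c'
      by_cases yb : y = xb
      · rw [yb, update_self]; exact hb
      · rw [update_of_ne yb]
        by_cases ya : y = xa
        · rw [ya, update_self]; exact ha
        · rw [update_of_ne ya]
          exact h1 y (by tauto)
    · rw [← h2]
      have e : A.filter (fun y => s y = true)
          = insert xb (H.A'.filter (fun y => s y = true)) := by
        ext y
        rw [Finset.mem_insert, Finset.mem_filter, Finset.mem_filter, H.mem_A']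
        constructor
        · rintro ⟨h3, h4⟩
          by_cases yb : y = xb
          · exact Or.inl yb
          · refine Or.inr ⟨⟨h3, fun e => ?_, yb⟩, h4⟩
            rw [e, ha] at h4
            exact Bool.false_ne_true h4
        · rintro (rfl | ⟨⟨h3, _, _⟩, h4⟩)
          · exact ⟨H.mb, hb⟩
          · exact ⟨h3, h4⟩
      unfold deg
      rw [e, Finset.card_insert_of_notMem]
      · push_cast; ring
      · rw [Finset.mem_filter, H.mem_A']; tauto
  · exact absurd rfl hs
  · exact absurd rfl hs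

/-- The second Reidemeister move on the closed level. -/
theorem sdr (H : R2H S A c xa xb lam) : SDR S A c S H.A' H.c' 1 H.g H.r H.h where
  gC := by
    intro n Φ hΦ
    rw [g_eq]
    refine CS.IsC.add S (H.big_of_small hΦ) ?_
    have := H.HI_C (CS.IsC.pd S (H.big_of_small hΦ) H.ma)
    rwa [add_sub_cancel_right] at this
  gd := by
    intro n Φ hΦ
    have hB := H.big_of_small hΦ
    rw [g_eq, g_eq, map_add, H.d_split Φ, H.d_split (H.HI (S.pd xa Φ)), H.pda_HI,
      H.pdb_HI (CS.IsC.pd S hB H.ma), H.HI_d' (CS.IsC.pd S hB H.ma), H.pd_d' hB.inv,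
      ← H.PC_small hΦ, H.pdb_PC, H.PC_small hΦ]
    have e : Rs xa true (Rs xb true (S.pd xa Φ)) = S.pd xa Φ := by
      conv_rhs => rw [← H.PC_small hΦ]
      conv_lhs => rw [← H.PC_small hΦ]
      change Rs xa true (Rs xb true (S.pd xa (Rs xa false (Rs xb true Φ))))
        = S.pd xa (Rs xa false (Rs xb true Φ))
      rw [CS.pd_Rs_false, CS.Rs_pd_comm S H.ne, Rs_Rs_same, CS.Rs_true_pd]
    rw [e, zero_add, add_zero]
    have : S.pd xa Φ + S.pd xa Φ = 0 := add_self_F2 _
    rw [show S.pd xa Φ + S.d H.A' Φ + (S.pd xa Φ + H.HI (S.pd xa (S.d H.A' Φ)))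
      = (S.pd xa Φ + S.pd xa Φ) + (S.d H.A' Φ + H.HI (S.pd xa (S.d H.A' Φ))) by abel, this,
      zero_add]
  rC := by
    intro n Φ hΦ
    rw [r_eq]
    refine H.small_of_big (CS.IsC.add S hΦ ?_)
    have := CS.IsC.pd S (H.HP_C hΦ) H.mb
    rwa [sub_add_cancel] at this
  rd := by
    intro n Φ hΦ
    rw [r_eq, r_eq, PC_d', map_add (S.d H.A'), H.pd_d' (H.HP_C hΦ).inv, H.HP_d' hΦ]
    rw [H.d_split Φ, map_add H.HP, map_add H.HP, H.HP_pdb, H.HP_pda hΦ, add_zero,
      map_add (S.pd xb), H.pdb_PA]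
    simp only [map_add]
    rw [H.PC_pda]
    have e : H.PC (H.PC (S.pd xb Φ)) = H.PC (S.pd xb Φ) := by
      funext s
      simp only [PC_apply]
      split_ifs <;> rfl
    rw [e, zero_add]
    have : H.PC (S.pd xb Φ) + H.PC (S.pd xb Φ) = 0 := add_self_F2 _
    rw [show H.PC (S.pd xb Φ) + H.PC (S.d H.A' Φ) + (H.PC (S.pd xb Φ)
      + H.PC (S.pd xb (H.HP (S.d H.A' Φ)))) = (H.PC (S.pd xb Φ) + H.PC (S.pd xb Φ))
      + (H.PC (S.d H.A' Φ) + H.PC (S.pd xb (H.HP (S.d H.A' Φ)))) by abel, this, zero_add]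
  rg := by
    intro n Φ hΦ
    have hB := H.big_of_small hΦ
    rw [g_eq, r_eq]
    have e1 : H.HP Φ = 0 := by
      conv_lhs => rw [← H.PC_small hΦ]
      funext s
      rw [HP_apply]
      split_ifs with h1 h2
      · rw [PC_apply, if_neg (by simp), map_zero]; rfl
      · rfl
      · rfl
    have e2 : H.HP (H.HI (S.pd xa Φ)) = 0 := by
      funext s
      rw [HP_apply]
      split_ifs with h1 h2
      · rw [HI_apply, if_pos (by simp), if_pos (by rw [update_of_ne H.ne.symm]; exact h1),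
          psi_iot lam H.la]
        rfl
      · rfl
      · rfl
    have e3 : H.PC (H.HI (S.pd xa Φ)) = 0 := by
      funext s
      rw [PC_apply]
      split_ifs with h1 h2
      · rw [HI_apply, if_neg (by rw [h1]; exact Bool.false_ne_true)]; rfl
      · rfl
      · rfl
    rw [map_add H.HP, e1, e2, add_zero, map_zero, add_zero, map_add, e3, add_zero,
      H.PC_small hΦ]
  hC := by
    intro n Φ hΦ
    rw [h_eq]
    exact CS.IsC.add S (H.HP_C hΦ) (H.HI_C hΦ)
  hd := by
    intro n Φ hΦ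
    have hP := H.HP_C hΦ
    have e0 := H.HI_pdb_chi hΦ
    rw [map_add (S.pd xb), map_add H.HI, H.HI_pdb] at e0
    have e1 : H.HI (S.pd xa (H.r Φ)) = H.HI (S.pd xa Φ) + H.HI (S.pd xb (S.pd xa (H.HP Φ))) := by
      rw [r_eq, H.HI_pda_PC, map_add, map_add, S.pd_comm hP.inv xa xb]
    have e2 : H.r Φ = H.PC Φ + S.pd xb (H.HP Φ) := by
      rw [r_eq, map_add, H.PC_pdb_HP]
    rw [g_eq, e1, e2, h_eq, h_eq, map_add (S.d A), H.d_split (H.HP Φ), H.d_split (H.HI Φ),
      H.pda_HI, H.pdb_HI hΦ, H.HP_d' hΦ, H.HI_d' hΦ, H.d_split Φ]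
    simp only [map_add]
    rw [H.HP_pdb, H.HP_pda hΦ]
    have e3 := H.four Φ
    have z : ∀ Ψ : Co X U, Ψ + Ψ = 0 := fun Ψ => add_self_F2 Ψ
    have e4 : H.HI (S.pd xb (S.pd xa (H.HP Φ))) = Rs xa true (Rs xb false Φ)
        + S.pd xa (H.HP Φ) + H.HI (S.pd xb Φ) := by
      rw [← e0, add_comm (H.HI (S.pd xb Φ)), add_assoc, z, add_zero]
    rw [e4]
    linear_combination (exp := 1) e3 + z (H.PC Φ) + z (Rs xa true (Rs xb false Φ))
      - z (H.HP (S.d H.A' Φ)) - z (H.HI (S.d H.A' Φ))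
  g0 := map_zero _
  r0 := map_zero _
  h0 := map_zero _

end R2H

end

end Spg
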