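import Mathlib

/-!
# Closed systems over F_2: invariant functions, toggles and the commuting square

Layer M1 of the proof of MP_5e61f3_gt.
-/

set_option linter.unusedSectionVars false

open Function

namespace Spg

theorem Z2_cases (a : ZMod 2) : a = 0 ∨ a = 1 := by
  revert a; decide

section Alg

variable {U : Type} [AddCommGroup U] [Module (ZMod 2) U]

theorem add_self_F2 (v : U) : v + v = 0 := by
  have h : (2 : ZMod 2) = 0 := by decide
  have : (2 : ZMod 2) • v = v + v := two_smul _ v
  rw [← this, h, zero_smul]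

theorem neg_eq_F2 (v : U) : -v = v := by
  rw [neg_eq_iff_add_eq_zero]; exact add_self_F2 v

theorem add_add_cancel_F2 (v w : U) : v + w + w = v := by
  rw [add_assoc, add_self_F2, add_zero]

theorem add_self_Z2 (a : ZMod 2) : a + a = 0 := by
  revert a; decide

/-- Functions on `U` invariant under translation by the submodule `L`. -/
def Inv (L : Submodule (ZMod 2) U) : Submodule (ZMod 2) (U → ZMod 2) where
  carrier := {φ | ∀ l ∈ L, ∀ v, φ (v + l) = φ v}
  add_mem' := by
    intro a b ha hb l hl v
    simp only [Pi.add_apply, ha l hl v, hb l hl v]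
  zero_mem' := by intro l _ v; rfl
  smul_mem' := by
    intro c a ha l hl v
    simp only [Pi.smul_apply, ha l hl v]

theorem mem_Inv {L : Submodule (ZMod 2) U} {φ : U → ZMod 2} :
    φ ∈ Inv L ↔ ∀ l ∈ L, ∀ v, φ (v + l) = φ v := Iff.rfl

/-- Translation by `u`. -/
def Tr (u : U) : (U → ZMod 2) →ₗ[ZMod 2] (U → ZMod 2) where
  toFun φ v := φ (v + u)
  map_add' _ _ := rfl
  map_smul' _ _ := rfl

@[simp] theorem Tr_apply (u : U) (φ : U → ZMod 2) (v : U) : Tr u φ v = φ (v + u) := rfl

open Classical in
/-- The toggle from a state with submodule `L` to a neighbouring state with submodule `L'`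
along the vector `u`. -/
noncomputable def tog (L L' : Submodule (ZMod 2) U) (u : U) :
    (U → ZMod 2) →ₗ[ZMod 2] (U → ZMod 2) :=
  if u ∈ L then (if u ∈ L' then 0 else LinearMap.id) else LinearMap.id + Tr u

theorem tog_in_in {L L' : Submodule (ZMod 2) U} {u : U} (h : u ∈ L) (h' : u ∈ L')
    (φ : U → ZMod 2) : tog L L' u φ = 0 := by
  simp [tog, h, h']

theorem tog_in_out {L L' : Submodule (ZMod 2) U} {u : U} (h : u ∈ L) (h' : u ∉ L')
    (φ : U → ZMod 2) : tog L L' u φ = φ := by
  simp [tog, h, h']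

theorem tog_out {L L' : Submodule (ZMod 2) U} {u : U} (h : u ∉ L)
    (φ : U → ZMod 2) : tog L L' u φ = φ + Tr u φ := by
  simp [tog, h]

/-- Membership in `L ⊔ ⟨u⟩` over `F_2`. -/
theorem mem_sup_span {L : Submodule (ZMod 2) U} {u v : U} :
    v ∈ L ⊔ Submodule.span (ZMod 2) {u} ↔ v ∈ L ∨ v + u ∈ L := by
  rw [Submodule.mem_sup]
  constructor
  · rintro ⟨l, hl, w, hw, rfl⟩
    obtain ⟨a, rfl⟩ := Submodule.mem_span_singleton.mp hw
    rcases Z2_cases a with rfl | rfl
    · left; simpa using hl
    · right; rw [one_smul, add_add_cancel_F2]; exact hl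
  · rintro (h | h)
    · exact ⟨v, h, 0, Submodule.zero_mem _, add_zero v⟩
    · exact ⟨v + u, h, u, Submodule.mem_span_singleton_self u, add_add_cancel_F2 v u⟩

/-- The relation between the submodules of two neighbouring states. -/
structure Edge (L L' : Submodule (ZMod 2) U) (u : U) : Prop where
  swap : L ⊔ Submodule.span (ZMod 2) {u} = L' ⊔ Submodule.span (ZMod 2) {u}
  p2 : u ∈ L ∨ u ∈ L'

namespace Edge

variable {L L' : Submodule (ZMod 2) U} {u : U}

theorem symm (h : Edge L L' u) : Edge L' L u := ⟨h.swap.symm, h.p2.symm⟩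

theorem mem_right (h : Edge L L' u) {v : U} (hv : v ∈ L) : v ∈ L' ∨ v + u ∈ L' := by
  have : v ∈ L' ⊔ Submodule.span (ZMod 2) {u} := h.swap ▸ (Submodule.mem_sup_left hv)
  exact mem_sup_span.mp this

/-- If `u ∈ L'` then `L ≤ L'`. -/
theorem le_of_mem (h : Edge L L' u) (hu : u ∈ L') : L ≤ L' := by
  intro v hv
  rcases h.mem_right hv with h1 | h1
  · exact h1
  · have := L'.add_mem h1 hu
    rwa [add_add_cancel_F2] at this

/-- If `u ∈ L'` then `v ∈ L'` iff `v ∈ L` or `v + u ∈ L`. -/
theorem mem_iff (h : Edge L L' u) (hu : u ∈ L') {v : U} : v ∈ L' ↔ v ∈ L ∨ v + u ∈ L := by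
  constructor
  · intro hv; exact h.symm.mem_right hv
  · rintro (hv | hv)
    · exact h.le_of_mem hu hv
    · have := L'.add_mem (h.le_of_mem hu hv) hu
      rwa [add_add_cancel_F2] at this

/-- If `u` lies in both submodules, they coincide. -/
theorem eq_of_mem (h : Edge L L' u) (hu : u ∈ L) (hu' : u ∈ L') : L = L' :=
  le_antisymm (h.le_of_mem hu') (h.symm.le_of_mem hu)

theorem not_mem_left (h : Edge L L' u) (hu : u ∉ L') : u ∈ L := by
  rcases h.p2 with h | h
  · exact h
  · exact absurd h hu

theorem not_mem_right (h : Edge L L' u) (hu : u ∉ L) : u ∈ L' := by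
  rcases h.p2 with h | h
  · exact absurd h hu
  · exact h

/-- The toggle maps invariant functions to invariant functions. -/
theorem tog_mem (h : Edge L L' u) {φ : U → ZMod 2} (hφ : φ ∈ Inv L) : tog L L' u φ ∈ Inv L' := by
  by_cases hu : u ∈ L
  · by_cases hu' : u ∈ L'
    · rw [tog_in_in hu hu']; exact Submodule.zero_mem _
    · rw [tog_in_out hu hu']
      intro l hl v
      exact hφ l (h.symm.le_of_mem hu hl) v
  · rw [tog_out hu]
    have hu' := h.not_mem_right hu
    intro l hl v
    simp only [Pi.add_apply, Tr_apply]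
    rcases (h.mem_iff hu').mp hl with h1 | h1
    · rw [hφ l h1 v, show v + l + u = v + u + l by abel, hφ l h1 (v + u)]
    · have e1 : v + l = (v + u) + (l + u) := by
        rw [show (v + u) + (l + u) = v + l + u + u by abel, add_add_cancel_F2]
      have e2 : v + l + u = v + (l + u) := by abel
      rw [e2, hφ (l + u) h1 v, e1, hφ (l + u) h1 (v + u), add_comm]

end Edge

theorem tog_square_aux {L00 L10 L01 L11 : Submodule (ZMod 2) U} {ux uy : U}
    (hx0 : Edge L00 L10 ux) (hy0 : Edge L00 L01 uy) (hy1 : Edge L10 L11 uy)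
    {φ : U → ZMod 2} (ux0 : ux ∈ L00) (uy0 : uy ∉ L00) :
    tog L10 L11 uy (tog L00 L10 ux φ) = tog L01 L11 ux (tog L00 L01 uy φ) := by
  have uy1 : uy ∈ L01 := hy0.not_mem_right uy0
  have ux1 : ux ∈ L01 := hy0.le_of_mem uy1 ux0
  rw [tog_out uy0]
  by_cases c : ux ∈ L10
  · have e := hx0.eq_of_mem ux0 c
    have uyn : uy ∉ L10 := e ▸ uy0
    have h11 : uy ∈ L11 := hy1.not_mem_right uyn
    have hux : ux ∈ L11 := hy1.le_of_mem h11 c
    rw [tog_in_in ux0 c, map_zero, tog_in_in ux1 hux]
  · have le : L10 ≤ L00 := hx0.symm.le_of_mem ux0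
    have uyn : uy ∉ L10 := fun h => uy0 (le h)
    have h11 : uy ∈ L11 := hy1.not_mem_right uyn
    have hux : ux ∉ L11 := by
      intro h
      rcases (hy1.mem_iff h11).mp h with h | h
      · exact c h
      · have h2 := L00.add_mem (le h) ux0
        rw [show ux + uy + ux = uy + ux + ux by abel, add_add_cancel_F2] at h2
        exact uy0 h2
    rw [tog_in_out ux0 c, tog_out uyn, tog_in_out ux1 hux]

/-- The commuting square. -/
theorem tog_square {L00 L10 L01 L11 : Submodule (ZMod 2) U} {ux uy : U}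
    (hx0 : Edge L00 L10 ux) (hx1 : Edge L01 L11 ux)
    (hy0 : Edge L00 L01 uy) (hy1 : Edge L10 L11 uy)
    {φ : U → ZMod 2} (hφ : φ ∈ Inv L00) :
    tog L10 L11 uy (tog L00 L10 ux φ) = tog L01 L11 ux (tog L00 L01 uy φ) := by
  have tr : ∀ {u : U}, u ∈ L00 → Tr u φ = φ := fun {u} hu => by
    funext v; exact hφ u hu v
  by_cases ux0 : ux ∈ L00
  · by_cases uy0 : uy ∈ L00
    · -- both in
      have key : ∀ {K10 K01 : Submodule (ZMod 2) U} {a b : U},
          Edge L00 K10 a → Edge K01 L11 a → Edge L00 K01 b → Edge K10 L11 b →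
          a ∈ L00 → b ∈ L00 → a ∉ K10 → b ∈ K10 → b ∉ L11 →
          (b ∉ K01 ∧ a ∈ K01 ∧ a ∉ L11) := by
        intro K10 K01 a b h1 h2 h3 h4 ha hb ha1 hb1 hb2
        have haL : a ∉ L11 := fun h => ha1 (h4.symm.le_of_mem hb1 h)
        have haK : a ∈ K01 := h2.not_mem_left haL
        refine ⟨?_, haK, haL⟩
        intro hbK
        rcases h2.mem_right hbK with h | h
        · exact hb2 h
        · have : b + a ∈ K10 := h4.symm.le_of_mem hb1 h
          have := K10.add_mem this hb1
          rw [show b + a + b = a + b + b by abel, add_add_cancel_F2] at this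
          exact ha1 this
      by_cases c : ux ∉ L10 ∧ uy ∈ L10 ∧ uy ∉ L11
      · obtain ⟨c1, c2, c3⟩ := c
        obtain ⟨d1, d2, d3⟩ := key hx0 hx1 hy0 hy1 ux0 uy0 c1 c2 c3
        rw [tog_in_out ux0 c1, tog_in_out c2 c3, tog_in_out uy0 d1, tog_in_out d2 d3]
      · have d : ¬ (uy ∉ L01 ∧ ux ∈ L01 ∧ ux ∉ L11) := by
          rintro ⟨d1, d2, d3⟩
          exact c (key hy0 hy1 hx0 hx1 uy0 ux0 d1 d2 d3)
        have gen : ∀ {K : Submodule (ZMod 2) U} {a b : U}, a ∈ L00 → b ∈ L00 →
            ¬ (a ∉ K ∧ b ∈ K ∧ b ∉ L11) → tog K L11 b (tog L00 K a φ) = 0 := by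
          intro K a b ha hb hn
          by_cases h1 : a ∈ K
          · rw [tog_in_in ha h1, map_zero]
          · rw [tog_in_out ha h1]
            by_cases h2 : b ∈ K
            · by_cases h3 : b ∈ L11
              · rw [tog_in_in h2 h3]
              · exact absurd ⟨h1, h2, h3⟩ hn
            · rw [tog_out h2, tr hb]
              exact add_self_F2 φ
        rw [gen ux0 uy0 c, gen uy0 ux0 d]
    · -- ux in, uy out
      exact tog_square_aux hx0 hy0 hy1 ux0 uy0
  · by_cases uy0 : uy ∈ L00
    · exact (tog_square_aux hy0 hx0 hx1 uy0 ux0).symm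
    · have ux1 : ux ∈ L10 := hx0.not_mem_right ux0
      have uy1 : uy ∈ L01 := hy0.not_mem_right uy0
      rw [tog_out ux0, tog_out uy0]
      by_cases c : ux + uy ∈ L00
      · have uy2 : uy ∈ L10 := by
          have := L10.add_mem (hx0.le_of_mem ux1 c) ux1
          rwa [show ux + uy + ux = uy + ux + ux by abel, add_add_cancel_F2] at this
        have ux2 : ux ∈ L01 := by
          have := L01.add_mem (hy0.le_of_mem uy1 c) uy1
          rwa [add_add_cancel_F2] at this
        have etr : Tr ux φ = Tr uy φ := by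
          funext v
          have := hφ _ c (v + ux)
          rw [show v + ux + (ux + uy) = v + uy + ux + ux by abel, add_add_cancel_F2] at this
          simp only [Tr_apply, this]
        have key : ∀ {K10 K01 : Submodule (ZMod 2) U} {a b : U}, Edge K10 L11 b →
            Edge K01 L11 a → b ∈ K10 → b ∈ K01 → a ∈ L11 → b ∈ L11 := by
          intro K10 K01 a b h1 h2 hb hb' ha
          exact h2.le_of_mem ha hb'
        by_cases d : ux ∈ L11
        · have d' : uy ∈ L11 := key hy1 hx1 uy2 uy1 d
          rw [tog_in_in uy2 d', tog_in_in ux2 d]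
        · have d' : uy ∉ L11 := fun h => d (key hx1 hy1 ux2 ux1 h)
          rw [tog_in_out uy2 d', tog_in_out ux2 d, etr]
      · have uyn : uy ∉ L10 := by
          intro h
          rcases (hx0.mem_iff ux1).mp h with h | h
          · exact uy0 h
          · exact c (by rwa [add_comm] at h)
        have uxn : ux ∉ L01 := by
          intro h
          rcases (hy0.mem_iff uy1).mp h with h | h
          · exact ux0 h
          · exact c h
        rw [tog_out uyn, tog_out uxn]
        funext v
        simp only [map_add, Pi.add_apply, Tr_apply]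
        rw [show v + uy + ux = v + ux + uy by abel]
        ring

end Alg

end Spg
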