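import Pool.Agent.H85.SpgAlg

/-!
# Closed systems, their cubes and the vanishing predicate

Layer M2 of the proof of MP_5e61f3_gt.
-/

set_option linter.unusedSectionVars false

open Function

namespace Spg

/-- A closed system: for every state `s : X → Bool` a submodule `L s` of an `F_2`-space `U`,
and for every crossing `x` a vector `u x`. -/
structure CS (X U : Type) [DecidableEq X] [AddCommGroup U] [Module (ZMod 2) U] where
  L : (X → Bool) → Submodule (ZMod 2) U
  u : X → U
  edge : ∀ s x, s x = false → Edge (L s) (L (update s x true)) (u x)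

/-- Cochains: a function on `U` for every state. -/
abbrev Co (X U : Type) : Type := (X → Bool) → U → ZMod 2

section

variable {X U : Type} [DecidableEq X] [AddCommGroup U] [Module (ZMod 2) U]

namespace CS

variable (S : CS X U)

theorem edge' (s : X → Bool) (x : X) (h : s x = true) :
    Edge (S.L (update s x false)) (S.L s) (S.u x) := by
  have := S.edge (update s x false) x (by simp)
  rwa [update_idem, ← h, update_eq_self] at this

/-- The part of the differential that changes the crossing `x`. -/
noncomputable def pd (x : X) : Co X U →ₗ[ZMod 2] Co X U where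
  toFun Φ s := if s x = true then
    tog (S.L (update s x false)) (S.L s) (S.u x) (Φ (update s x false)) else 0
  map_add' Φ Ψ := by
    funext s
    simp only [Pi.add_apply]
    split_ifs
    · rw [map_add]
    · rw [add_zero]
  map_smul' c Φ := by
    funext s
    simp only [Pi.smul_apply, RingHom.id_apply]
    split_ifs
    · rw [map_smul]
    · rw [smul_zero]

theorem pd_apply (x : X) (Φ : Co X U) (s : X → Bool) :
    S.pd x Φ s = if s x = true then
      tog (S.L (update s x false)) (S.L s) (S.u x) (Φ (update s x false)) else 0 := rfl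

theorem pd_true (x : X) (Φ : Co X U) {s : X → Bool} (h : s x = true) :
    S.pd x Φ s = tog (S.L (update s x false)) (S.L s) (S.u x) (Φ (update s x false)) := by
  rw [pd_apply, if_pos h]

theorem pd_false (x : X) (Φ : Co X U) {s : X → Bool} (h : s x = false) :
    S.pd x Φ s = 0 := by
  rw [pd_apply, if_neg (by simp [h])]

/-- The differential of the subcube with active crossings `A`. -/
noncomputable def d (A : Finset X) : Co X U →ₗ[ZMod 2] Co X U := ∑ x ∈ A, S.pd x

theorem d_apply (A : Finset X) (Φ : Co X U) (s : X → Bool) :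
    S.d A Φ s = ∑ x ∈ A, S.pd x Φ s := by
  simp [d, LinearMap.sum_apply, Finset.sum_apply]

/-- Invariance of a cochain. -/
def IsInv (Φ : Co X U) : Prop := ∀ s, Φ s ∈ Inv (S.L s)

theorem IsInv.add {Φ Ψ : Co X U} (h : S.IsInv Φ) (h' : S.IsInv Ψ) : S.IsInv (Φ + Ψ) :=
  fun s => Submodule.add_mem _ (h s) (h' s)

theorem IsInv.zero : S.IsInv (0 : Co X U) := fun _ => Submodule.zero_mem _

theorem IsInv.pd {Φ : Co X U} (h : S.IsInv Φ) (x : X) : S.IsInv (S.pd x Φ) := by
  intro s
  by_cases hx : s x = true
  · rw [S.pd_true x Φ hx]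
    exact (S.edge' s x hx).tog_mem (h _)
  · rw [S.pd_false x Φ (by simpa using hx)]
    exact Submodule.zero_mem _

theorem IsInv.sum {ι : Type*} (t : Finset ι) {Φ : ι → Co X U} (h : ∀ i ∈ t, S.IsInv (Φ i)) :
    S.IsInv (∑ i ∈ t, Φ i) := by
  intro s
  rw [Finset.sum_apply]
  exact Submodule.sum_mem _ (fun i hi => h i hi s)

theorem IsInv.d {Φ : Co X U} (h : S.IsInv Φ) (A : Finset X) : S.IsInv (S.d A Φ) := by
  rw [CS.d, LinearMap.sum_apply]
  exact IsInv.sum S A (fun x _ => IsInv.pd S h x)

theorem pd_pd_self (x : X) (Φ : Co X U) : S.pd x (S.pd x Φ) = 0 := by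
  funext s
  by_cases hx : s x = true
  · rw [S.pd_true x _ hx, S.pd_false x Φ (by simp), map_zero]; rfl
  · rw [S.pd_false x _ (by simpa using hx)]; rfl

theorem pd_comm {Φ : Co X U} (h : S.IsInv Φ) (x y : X) :
    S.pd x (S.pd y Φ) = S.pd y (S.pd x Φ) := by
  by_cases hxy : x = y
  · rw [hxy]
  funext s
  by_cases hx : s x = true
  · by_cases hy : s y = true
    · rw [S.pd_true x _ hx, S.pd_true y _ hy,
        S.pd_true y _ (by rw [update_of_ne (Ne.symm hxy)]; exact hy),
        S.pd_true x _ (by rw [update_of_ne hxy]; exact hx)]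
      rw [update_comm hxy]
      refine tog_square ?_ ?_ ?_ ?_ (h _)
      · have := S.edge' (update s x false) y (by rw [update_of_ne (Ne.symm hxy)]; exact hy)
        rwa [update_comm hxy] at this
      · exact S.edge' s y hy
      · exact S.edge' (update s y false) x (by rw [update_of_ne hxy]; exact hx)
      · exact S.edge' s x hx
    · have hy' : s y = false := by simpa using hy
      rw [S.pd_false y _ hy', S.pd_true x _ hx,
        S.pd_false y _ (by rw [update_of_ne (Ne.symm hxy)]; exact hy'), map_zero]
  · have hx' : s x = false := by simpa using hx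
    rw [S.pd_false x _ hx']
    by_cases hy : s y = true
    · rw [S.pd_true y _ hy, S.pd_false x _ (by rw [update_of_ne hxy]; exact hx'), map_zero]
    · rw [S.pd_false y _ (by simpa using hy)]

theorem d_d {Φ : Co X U} (h : S.IsInv Φ) (A : Finset X) : S.d A (S.d A Φ) = 0 := by
  simp only [d, LinearMap.sum_apply, map_sum]
  rw [← Finset.sum_product' A A (fun x y => S.pd y (S.pd x Φ))]
  refine Finset.sum_involution (fun p _ => (p.2, p.1)) ?_ ?_ ?_ ?_
  · intro p _
    rw [S.pd_comm h p.2 p.1]
    exact add_self_F2 _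
  · intro p _ hp heq
    apply hp
    have : p.1 = p.2 := by
      have := congrArg Prod.fst heq
      exact this.symm
    rw [this]
    exact S.pd_pd_self _ Φ
  · intro p hp
    rw [Finset.mem_product] at hp ⊢
    exact ⟨hp.2, hp.1⟩
  · intro p _; rfl

end CS

/-- The degree of a state with respect to the active crossings `A`. -/
def deg (A : Finset X) (s : X → Bool) : ℤ := ((A.filter (fun x => s x = true)).card : ℤ)

/-- The state `s` belongs to the subcube with active crossings `A` and frozen values `c`. -/
def InCube (A : Finset X) (c : X → Bool) (s : X → Bool) : Prop := ∀ x, x ∉ A → s x = c x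

namespace CS

variable (S : CS X U)

/-- `Φ` is a cochain of degree `n` of the subcube with active crossings `A` and frozen
values `c`. -/
structure IsC (A : Finset X) (c : X → Bool) (n : ℤ) (Φ : Co X U) : Prop where
  inv : S.IsInv Φ
  supp : ∀ s, Φ s ≠ 0 → InCube A c s ∧ deg A s = n

/-- The vanishing predicate: every cocycle of degree `n` of the subcube is a coboundary. -/
def E (A : Finset X) (c : X → Bool) (n : ℤ) : Prop :=
  ∀ Φ, S.IsC A c n Φ → S.d A Φ = 0 → ∃ Ψ, S.IsC A c (n - 1) Ψ ∧ S.d A Ψ = Φ

end CS

theorem deg_update_false {A : Finset X} {s : X → Bool} {x : X} (hx : x ∈ A)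
    (h : s x = true) : deg A (update s x false) = deg A s - 1 := by
  have h1 : A.filter (fun y => update s x false y = true)
      = (A.filter (fun y => s y = true)).erase x := by
    ext y
    simp only [Finset.mem_filter, Finset.mem_erase]
    by_cases hy : y = x
    · subst hy; simp
    · rw [update_of_ne hy]; simp [hy]
  have h2 : x ∈ A.filter (fun y => s y = true) := by
    rw [Finset.mem_filter]; exact ⟨hx, h⟩
  have h3 : 1 ≤ (A.filter (fun y => s y = true)).card := Finset.card_pos.mpr ⟨x, h2⟩
  unfold deg
  rw [h1, Finset.card_erase_of_mem h2, Nat.cast_sub h3]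
  rfl

theorem InCube.update {A : Finset X} {c s : X → Bool} (h : InCube A c s) {x : X} (hx : x ∈ A)
    (b : Bool) : InCube A c (Function.update s x b) := by
  intro y hy
  have : y ≠ x := fun e => hy (e ▸ hx)
  rw [update_of_ne this]
  exact h y hy

theorem InCube.of_update {A : Finset X} {c s : X → Bool} {x : X} (hx : x ∈ A)
    {b : Bool} (h : InCube A c (Function.update s x b)) : InCube A c s := by
  intro y hy
  have : y ≠ x := fun e => hy (e ▸ hx)
  have := h y hy
  rwa [update_of_ne (by assumption)] at this

namespace CS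

variable (S : CS X U)

theorem IsC.zero (A : Finset X) (c : X → Bool) (n : ℤ) : S.IsC A c n 0 :=
  ⟨IsInv.zero S, fun _ h => absurd rfl h⟩

theorem IsC.add {A : Finset X} {c : X → Bool} {n : ℤ} {Φ Ψ : Co X U}
    (h : S.IsC A c n Φ) (h' : S.IsC A c n Ψ) : S.IsC A c n (Φ + Ψ) := by
  refine ⟨IsInv.add S h.inv h'.inv, fun s hs => ?_⟩
  by_cases h1 : Φ s = 0
  · by_cases h2 : Ψ s = 0
    · exact absurd (by rw [Pi.add_apply, h1, h2, add_zero]) hs
    · exact h'.supp s h2
  · exact h.supp s h1

theorem IsC.pd {A : Finset X} {c : X → Bool} {n : ℤ} {Φ : Co X U}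
    (h : S.IsC A c n Φ) {x : X} (hx : x ∈ A) : S.IsC A c (n + 1) (S.pd x Φ) := by
  refine ⟨IsInv.pd S h.inv x, fun s hs => ?_⟩
  by_cases h1 : s x = true
  · rw [S.pd_true x Φ h1] at hs
    have h2 : Φ (update s x false) ≠ 0 := by
      intro h0
      rw [h0, map_zero] at hs
      exact hs rfl
    obtain ⟨h3, h4⟩ := h.supp _ h2
    refine ⟨InCube.of_update hx h3, ?_⟩
    rw [deg_update_false hx h1] at h4
    omega
  · rw [S.pd_false x Φ (by simpa using h1)] at hs
    exact absurd rfl hs

theorem IsC.sum {ι : Type*} {A : Finset X} {c : X → Bool} {n : ℤ} (t : Finset ι)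
    {Φ : ι → Co X U} (h : ∀ i ∈ t, S.IsC A c n (Φ i)) : S.IsC A c n (∑ i ∈ t, Φ i) := by
  classical
  induction t using Finset.induction_on with
  | empty => rw [Finset.sum_empty]; exact IsC.zero S A c n
  | insert a t ha ih =>
    rw [Finset.sum_insert ha]
    exact IsC.add S (h a (Finset.mem_insert_self a t))
      (ih (fun i hi => h i (Finset.mem_insert_of_mem hi)))

theorem IsC.d {A : Finset X} {c : X → Bool} {n : ℤ} {Φ : Co X U}
    (h : S.IsC A c n Φ) : S.IsC A c (n + 1) (S.d A Φ) := by
  rw [CS.d, LinearMap.sum_apply]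
  exact IsC.sum S A (fun x hx => IsC.pd S h hx)

end CS

end

end Spg
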