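import Pool.Agent.H85.SpgIso
import Pool.Agent.H78.SpgEq

/-!
# Relabelling, disjoint union, partial gluing (layer M5b)
-/

set_option linter.unusedSectionVars false

open Function

namespace Spg

/-! ### Letters along a map of legs; plus and cap (M5b) -/

/-- Relabelling a letter along an injective map. -/
def Letter.map {Λ Λ' : Type} (ι : Λ → Λ') (hι : Injective ι) (l : Letter Λ) : Letter Λ' :=
  ⟨ι l.i, ι l.j, fun h => l.ne (hι h), l.m0, l.m1, l.mne, l.fr⟩

namespace PS

variable {Λ Γ : Type} [Fintype Λ] [Fintype Γ]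

/-- Relabelling the legs. -/
def relabel {Λ' : Type} [Fintype Λ'] (e : Λ ≃ Λ') (A : PS Λ) : PS Λ' where
  P := A.P
  X := A.X
  Con := A.Con
  ua := A.ua
  ub := A.ub
  leg l := A.leg (e.symm l)
  act := A.act
  val := A.val
  swap := A.swap
  star := fun s s' f f' hf hf' => by
    rw [← A.star s s' f f' hf hf']
    exact Equiv.sum_comp e.symm (fun l => f (A.leg l) * f' (A.leg l))

theorem EE_relabel {Λ' : Type} [Fintype Λ'] (e : Λ ≃ Λ') (A B : PS Λ) (n : ℤ) :
    EE (relabel e A) (relabel e B) n ↔ EE A B n := by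
  have h : Iso (pair (relabel e A) (relabel e B)) (pair A B) := by
    refine Iso.of_equiv (Equiv.refl _) (Equiv.refl _) ?_ (fun _ => rfl) (fun _ => rfl)
      (fun l => l.elim) (fun _ => Iff.rfl) (fun _ => rfl)
    intro s f
    constructor
    · rintro ⟨h1, h2, h3⟩
      refine ⟨h1, h2, fun l => ?_⟩
      have := h3 (e l)
      change f (Sum.inl (A.leg (e.symm (e l)))) = f (Sum.inr (B.leg (e.symm (e l)))) at this
      rw [e.symm_apply_apply] at this
      exact this
    · rintro ⟨h1, h2, h3⟩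
      exact ⟨h1, h2, fun l => h3 (e.symm l)⟩
  exact h.close n

theorem update_inl {X Y : Type} [DecidableEq X] [DecidableEq Y] (s : X ⊕ Y → Bool) (x : X)
    (b : Bool) : (fun y => update s (Sum.inl x) b (Sum.inl y)) = update (fun y => s (Sum.inl y)) x b ∧
      (fun y => update s (Sum.inl x) b (Sum.inr y)) = fun y => s (Sum.inr y) := by
  constructor
  · funext y
    by_cases h : y = x
    · rw [h, update_self, update_self]
    · rw [update_of_ne (fun h' => h (Sum.inl_injective h')), update_of_ne h]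
  · funext y
    rw [update_of_ne (by simp)]

theorem update_inr {X Y : Type} [DecidableEq X] [DecidableEq Y] (s : X ⊕ Y → Bool) (x : Y)
    (b : Bool) : (fun y => update s (Sum.inr x) b (Sum.inr y)) = update (fun y => s (Sum.inr y)) x b ∧
      (fun y => update s (Sum.inr x) b (Sum.inl y)) = fun y => s (Sum.inl y) := by
  constructor
  · funext y
    by_cases h : y = x
    · rw [h, update_self, update_self]
    · rw [update_of_ne (fun h' => h (Sum.inr_injective h')), update_of_ne h]
  · funext y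
    rw [update_of_ne (by simp)]

/-- Disjoint union. -/
def plus (A : PS Λ) (E : PS Γ) : PS (Λ ⊕ Γ) where
  P := A.P ⊕ E.P
  X := A.X ⊕ E.X
  Con s :=
    { carrier := {f | (fun p => f (Sum.inl p)) ∈ A.Con (fun x => s (Sum.inl x)) ∧
        (fun p => f (Sum.inr p)) ∈ E.Con (fun x => s (Sum.inr x))}
      add_mem' := by
        rintro f g ⟨h1, h2⟩ ⟨k1, k2⟩
        exact ⟨Submodule.add_mem _ h1 k1, Submodule.add_mem _ h2 k2⟩
      zero_mem' := ⟨Submodule.zero_mem _, Submodule.zero_mem _⟩
      smul_mem' := by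
        rintro c f ⟨h1, h2⟩
        exact ⟨Submodule.smul_mem _ c h1, Submodule.smul_mem _ c h2⟩ }
  ua := Sum.elim (fun x => Sum.inl (A.ua x)) (fun x => Sum.inr (E.ua x))
  ub := Sum.elim (fun x => Sum.inl (A.ub x)) (fun x => Sum.inr (E.ub x))
  leg := Sum.map A.leg E.leg
  act := A.act.disjSum E.act
  val := Sum.elim A.val E.val
  swap := by
    rintro s (x | x) b f ⟨h1, h2⟩ h
    · refine ⟨?_, ?_⟩
      · rw [(update_inl s x b).1]
        exact A.swap _ x b _ h1 h
      · rw [(update_inl s x b).2]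
        exact h2
    · refine ⟨?_, ?_⟩
      · rw [(update_inr s x b).2]
        exact h1
      · rw [(update_inr s x b).1]
        exact E.swap _ x b _ h2 h
  star := by
    rintro s s' f f' ⟨h1, h2⟩ ⟨h3, h4⟩
    rw [Fintype.sum_sum_type, Fintype.sum_sum_type]
    exact congrArg₂ (· + ·) (A.star _ _ _ _ h1 h3) (E.star _ _ _ _ h2 h4)

/-- Gluing `E` to some of the legs. -/
def cap (T : PS (Λ ⊕ Γ)) (E : PS Γ) : PS Λ where
  P := T.P ⊕ E.P
  X := T.X ⊕ E.X
  Con s :=
    { carrier := {f | (fun p => f (Sum.inl p)) ∈ T.Con (fun x => s (Sum.inl x)) ∧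
        (fun p => f (Sum.inr p)) ∈ E.Con (fun x => s (Sum.inr x)) ∧
        ∀ l, f (Sum.inl (T.leg (Sum.inr l))) = f (Sum.inr (E.leg l))}
      add_mem' := by
        rintro f g ⟨h1, h2, h3⟩ ⟨k1, k2, k3⟩
        refine ⟨Submodule.add_mem _ h1 k1, Submodule.add_mem _ h2 k2, fun l => ?_⟩
        simp only [Pi.add_apply, h3, k3]
      zero_mem' := ⟨Submodule.zero_mem _, Submodule.zero_mem _, fun _ => rfl⟩
      smul_mem' := by
        rintro c f ⟨h1, h2, h3⟩
        refine ⟨Submodule.smul_mem _ c h1, Submodule.smul_mem _ c h2, fun l => ?_⟩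
        simp only [Pi.smul_apply, h3] }
  ua := Sum.elim (fun x => Sum.inl (T.ua x)) (fun x => Sum.inr (E.ua x))
  ub := Sum.elim (fun x => Sum.inl (T.ub x)) (fun x => Sum.inr (E.ub x))
  leg l := Sum.inl (T.leg (Sum.inl l))
  act := T.act.disjSum E.act
  val := Sum.elim T.val E.val
  swap := by
    rintro s (x | x) b f ⟨h1, h2, h3⟩ h
    · refine ⟨?_, ?_, h3⟩
      · rw [(update_inl s x b).1]
        exact T.swap _ x b _ h1 h
      · rw [(update_inl s x b).2]
        exact h2
    · refine ⟨?_, ?_, h3⟩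
      · rw [(update_inr s x b).2]
        exact h1
      · rw [(update_inr s x b).1]
        exact E.swap _ x b _ h2 h
  star := by
    rintro s s' f f' ⟨h1, h2, h5⟩ ⟨h3, h4, h6⟩
    have e1 := T.star _ _ _ _ h1 h3
    have e2 := E.star _ _ _ _ h2 h4
    rw [Fintype.sum_sum_type] at e1 ⊢
    have e3 : ∑ l, f (Sum.inl (T.leg (Sum.inr l))) * f' (Sum.inl (T.leg (Sum.inr l))) =
        ∑ l, f (Sum.inr (E.leg l)) * f' (Sum.inr (E.leg l)) :=
      Finset.sum_congr rfl (fun l _ => by rw [h5, h6])
    rw [e3, e2] at e1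
    refine Eq.trans ?_ (congrArg (· + (∑ x, if s (Sum.inr x) = s' (Sum.inr x) then 0 else
      (f (Sum.inr (E.ua x)) + f (Sum.inr (E.ub x))) *
      (f' (Sum.inr (E.ua x)) + f' (Sum.inr (E.ub x))))) e1)
    rw [add_assoc, add_self_Z2, add_zero]

theorem mem_disj3 {X Y Z : Type} (a : Finset X) (b : Finset Y) (c : Finset Z)
    (y : (X ⊕ Z) ⊕ Y) : ((Equiv.sumAssoc X Z Y).trans (Equiv.sumCongr (Equiv.refl _)
      (Equiv.sumComm _ _))) y ∈ a.disjSum (b.disjSum c) ↔ y ∈ (a.disjSum c).disjSum b := by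
  rcases y with (y | y) | y <;> simp

theorem EE_plus (T : PS (Λ ⊕ Γ)) (B : PS Λ) (E : PS Γ) (n : ℤ) :
    EE T (plus B E) n ↔ EE (cap T E) B n := by
  have h : Iso (pair T (plus B E)) (pair (cap T E) B) := by
    refine Iso.of_equiv (A := pair T (plus B E)) (B := pair (cap T E) B)
      ((Equiv.sumAssoc T.P E.P B.P).trans (Equiv.sumCongr (Equiv.refl _) (Equiv.sumComm _ _)))
      ((Equiv.sumAssoc T.X E.X B.X).trans (Equiv.sumCongr (Equiv.refl _) (Equiv.sumComm _ _)))
      ?_ ?_ ?_ (fun l => l.elim) ?_ ?_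
    · intro s f
      constructor
      · rintro ⟨h1, ⟨h2, h3⟩, h4⟩
        exact ⟨⟨h1, h3, fun l => h4 (Sum.inr l)⟩, h2, fun l => h4 (Sum.inl l)⟩
      · rintro ⟨⟨h1, h3, h4⟩, h2, h5⟩
        refine ⟨h1, ⟨h2, h3⟩, ?_⟩
        rintro (l | l)
        · exact h5 l
        · exact h4 l
    · rintro ((y | y) | y) <;> rfl
    · rintro ((y | y) | y) <;> rfl
    · exact mem_disj3 T.act B.act E.act
    · rintro ((y | y) | y) <;> rfl
  exact h.close n

variable [DecidableEq Λ] [DecidableEq Γ]

theorem mem_none {X Y : Type} [DecidableEq X] [DecidableEq Y] (a : Finset X) (b : Finset Y)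
    (fr : Option Bool) (y : Option X ⊕ Y) :
    ((Sum.elim (fun o : Option X => o.elim (none : Option (X ⊕ Y)) (fun x => some (Sum.inl x)))
      (fun z => some (Sum.inr z)) y) ∈ (match fr with
        | none => insert none ((a.disjSum b).map Function.Embedding.some)
        | some _ => (a.disjSum b).map Function.Embedding.some)) ↔
    y ∈ (match fr with
        | none => insert none (a.map Function.Embedding.some)
        | some _ => a.map Function.Embedding.some).disjSum b := by
  cases fr <;> rcases y with (_ | y) | y <;> simp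

/-- `Option X ⊕ Y ≃ Option (X ⊕ Y)` -/
def optL (X Y : Type) : Option X ⊕ Y ≃ Option (X ⊕ Y) where
  toFun := Sum.elim (fun o => o.elim none (fun x => some (Sum.inl x))) (fun z => some (Sum.inr z))
  invFun o := o.elim (Sum.inl none) (Sum.elim (fun x => Sum.inl (some x)) Sum.inr)
  left_inv := by rintro ((_ | y) | y) <;> rfl
  right_inv := by rintro (_ | (y | y)) <;> rfl

/-- `(X ⊕ Z) ⊕ Y ≃ (X ⊕ Y) ⊕ Z` -/
def sumR (X Y Z : Type) : (X ⊕ Z) ⊕ Y ≃ (X ⊕ Y) ⊕ Z where
  toFun := Sum.elim (Sum.elim (fun x => Sum.inl (Sum.inl x)) Sum.inr) (fun y => Sum.inl (Sum.inr y))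
  invFun := Sum.elim (Sum.elim (fun x => Sum.inl (Sum.inl x)) Sum.inr) (fun y => Sum.inl (Sum.inr y))
  left_inv := by rintro ((y | y) | y) <;> rfl
  right_inv := by rintro ((y | y) | y) <;> rfl

theorem plus_attach_left (A : PS Λ) (E : PS Γ) (l : Letter Λ) :
    Iso (attach (plus A E) (l.map Sum.inl Sum.inl_injective)) (plus (attach A l) E) := by
  refine Iso.of_equiv (A := attach (plus A E) (l.map Sum.inl Sum.inl_injective))
    (B := plus (attach A l) E) (sumR A.P E.P Bool) (optL A.X E.X) ?_ ?_ ?_ ?_ ?_ ?_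
  · intro s f
    constructor
    · rintro ⟨⟨h1, h2⟩, h3⟩
      exact ⟨⟨h1, h3⟩, h2⟩
    · rintro ⟨⟨h1, h3⟩, h2⟩
      exact ⟨⟨h1, h2⟩, h3⟩
  · rintro ((_ | y) | y) <;> rfl
  · rintro ((_ | y) | y)
    · show Mt.pick l.m0 l.m1 (Sum.inl (Sum.inl (A.leg l.j))) (Sum.inr false) (Sum.inr true) =
        sumR A.P E.P Bool (Sum.inl (Mt.pick l.m0 l.m1 (Sum.inl (A.leg l.j)) (Sum.inr false)
          (Sum.inr true)))
      generalize l.m0 = m0
      generalize l.m1 = m1
      cases m0 <;> cases m1 <;> rfl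
    · rfl
    · rfl
  · rintro (k | k)
    · show (if (Sum.inl k : Λ ⊕ Γ) = Sum.inl l.i then Sum.inr false else
        if (Sum.inl k : Λ ⊕ Γ) = Sum.inl l.j then Sum.inr true else Sum.inl (Sum.inl (A.leg k))) =
        sumR A.P E.P Bool (Sum.inl (if k = l.i then Sum.inr false else
          if k = l.j then Sum.inr true else Sum.inl (A.leg k)))
      simp only [Sum.inl.injEq]
      split_ifs <;> rfl
    · show (if (Sum.inr k : Λ ⊕ Γ) = Sum.inl l.i then Sum.inr false else
        if (Sum.inr k : Λ ⊕ Γ) = Sum.inl l.j then Sum.inr true else Sum.inl (Sum.inr (E.leg k))) =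
        sumR A.P E.P Bool (Sum.inr (E.leg k))
      rw [if_neg (by simp), if_neg (by simp)]
      rfl
  · exact mem_none A.act E.act l.fr
  · rintro ((_ | y) | y) <;> rfl

theorem mem_noneR {X Y : Type} [DecidableEq X] [DecidableEq Y] (a : Finset X) (b : Finset Y)
    (fr : Option Bool) (y : X ⊕ Option Y) :
    ((Sum.elim (fun z => (some (Sum.inl z) : Option (X ⊕ Y)))
      (fun o : Option Y => o.elim none (fun x => some (Sum.inr x))) y) ∈ (match fr with
        | none => insert none ((a.disjSum b).map Function.Embedding.some)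
        | some _ => (a.disjSum b).map Function.Embedding.some)) ↔
    y ∈ a.disjSum (match fr with
        | none => insert none (b.map Function.Embedding.some)
        | some _ => b.map Function.Embedding.some) := by
  cases fr <;> rcases y with y | (_ | y) <;> simp

/-- `X ⊕ Option Y ≃ Option (X ⊕ Y)` -/
def optR (X Y : Type) : X ⊕ Option Y ≃ Option (X ⊕ Y) where
  toFun := Sum.elim (fun z => some (Sum.inl z)) (fun o => o.elim none (fun x => some (Sum.inr x)))
  invFun o := o.elim (Sum.inr none) (Sum.elim Sum.inl (fun x => Sum.inr (some x)))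
  left_inv := by rintro (y | (_ | y)) <;> rfl
  right_inv := by rintro (_ | (y | y)) <;> rfl

theorem plus_attach_right (A : PS Λ) (E : PS Γ) (l : Letter Γ) :
    Iso (attach (plus A E) (l.map Sum.inr Sum.inr_injective)) (plus A (attach E l)) := by
  refine Iso.of_equiv (A := attach (plus A E) (l.map Sum.inr Sum.inr_injective))
    (B := plus A (attach E l)) (Equiv.sumAssoc A.P E.P Bool).symm (optR A.X E.X) ?_ ?_ ?_ ?_ ?_ ?_
  · intro s f
    constructor
    · rintro ⟨⟨h1, h2⟩, h3⟩
      exact ⟨h1, h2, h3⟩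
    · rintro ⟨h1, h2, h3⟩
      exact ⟨⟨h1, h2⟩, h3⟩
  · rintro (y | (_ | y)) <;> rfl
  · rintro (y | (_ | y))
    · rfl
    · show Mt.pick l.m0 l.m1 (Sum.inl (Sum.inr (E.leg l.j))) (Sum.inr false) (Sum.inr true) =
        (Equiv.sumAssoc A.P E.P Bool).symm (Sum.inr (Mt.pick l.m0 l.m1 (Sum.inl (E.leg l.j))
          (Sum.inr false) (Sum.inr true)))
      generalize l.m0 = m0
      generalize l.m1 = m1
      cases m0 <;> cases m1 <;> rfl
    · rfl
  · rintro (k | k)
    · show (if (Sum.inl k : Λ ⊕ Γ) = Sum.inr l.i then Sum.inr false else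
        if (Sum.inl k : Λ ⊕ Γ) = Sum.inr l.j then Sum.inr true else Sum.inl (Sum.inl (A.leg k))) =
        (Equiv.sumAssoc A.P E.P Bool).symm (Sum.inl (A.leg k))
      rw [if_neg (by simp), if_neg (by simp)]
      rfl
    · show (if (Sum.inr k : Λ ⊕ Γ) = Sum.inr l.i then Sum.inr false else
        if (Sum.inr k : Λ ⊕ Γ) = Sum.inr l.j then Sum.inr true else Sum.inl (Sum.inr (E.leg k))) =
        (Equiv.sumAssoc A.P E.P Bool).symm (Sum.inr (if k = l.i then Sum.inr false else
          if k = l.j then Sum.inr true else Sum.inl (E.leg k)))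
      simp only [Sum.inr.injEq]
      split_ifs <;> rfl
  · exact mem_noneR A.act E.act l.fr
  · rintro (y | (_ | y)) <;> rfl

theorem cap_attach (T : PS (Λ ⊕ Γ)) (E : PS Γ) (l : Letter Λ) :
    Iso (cap (attach T (l.map Sum.inl Sum.inl_injective)) E) (attach (cap T E) l) := by
  have hleg : ∀ k : Γ, (attach T (l.map Sum.inl Sum.inl_injective)).leg (Sum.inr k) =
      (Sum.inl (T.leg (Sum.inr k)) : T.P ⊕ Bool) := fun k => by
    have k1 : (Sum.inr k : Λ ⊕ Γ) ≠ (l.map Sum.inl Sum.inl_injective).i := fun h => by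
      change (Sum.inr k : Λ ⊕ Γ) = Sum.inl l.i at h
      simp at h
    have k2 : (Sum.inr k : Λ ⊕ Γ) ≠ (l.map Sum.inl Sum.inl_injective).j := fun h => by
      change (Sum.inr k : Λ ⊕ Γ) = Sum.inl l.j at h
      simp at h
    exact attach_leg_o T _ k1 k2
  refine Iso.of_equiv (A := cap (attach T (l.map Sum.inl Sum.inl_injective)) E)
    (B := attach (cap T E) l) (sumR T.P Bool E.P) (optL T.X E.X).symm ?_ ?_ ?_ ?_ ?_ ?_
  · intro s f
    constructor
    · rintro ⟨⟨h1, h2⟩, h3, h4⟩
      exact ⟨⟨h1, h3, fun k => (congrArg (fun q => f (Sum.inl q)) (hleg k)).symm.trans (h4 k)⟩, h2⟩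
    · rintro ⟨⟨h1, h3, h4⟩, h2⟩
      exact ⟨⟨h1, h2⟩, h3, fun k => (congrArg (fun q => f (Sum.inl q)) (hleg k)).trans (h4 k)⟩
  · rintro (_ | (y | y)) <;> rfl
  · rintro (_ | (y | y))
    · show Sum.inl (Mt.pick l.m0 l.m1 (Sum.inl (T.leg (Sum.inl l.j))) (Sum.inr false)
          (Sum.inr true)) = sumR T.P Bool E.P (Mt.pick l.m0 l.m1
          (Sum.inl (Sum.inl (T.leg (Sum.inl l.j)))) (Sum.inr false) (Sum.inr true))
      generalize l.m0 = m0
      generalize l.m1 = m1
      cases m0 <;> cases m1 <;> rfl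
    · rfl
    · rfl
  · intro k
    show Sum.inl (if (Sum.inl k : Λ ⊕ Γ) = Sum.inl l.i then Sum.inr false else
        if (Sum.inl k : Λ ⊕ Γ) = Sum.inl l.j then Sum.inr true else
        Sum.inl (T.leg (Sum.inl k))) = sumR T.P Bool E.P (if k = l.i then Sum.inr false else
          if k = l.j then Sum.inr true else Sum.inl (Sum.inl (T.leg (Sum.inl k))))
    simp only [Sum.inl.injEq]
    split_ifs <;> rfl
  · rintro (_ | (y | y))
    · exact (mem_none T.act E.act l.fr (Sum.inl none)).symm
    · exact (mem_none T.act E.act l.fr (Sum.inl (some y))).symm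
    · exact (mem_none T.act E.act l.fr (Sum.inr y)).symm
  · rintro (_ | (y | y)) <;> rfl

theorem Iso.cap_left {T T' : PS (Λ ⊕ Γ)} (h : Iso T T') (E : PS Γ) :
    Iso (cap T E) (cap T' E) := by
  obtain ⟨j, e, h⟩ := h
  refine ⟨(Sum.map j id : T'.P ⊕ E.P → T.P ⊕ E.P), (Sum.map e id : T'.X ⊕ E.X → T.X ⊕ E.X), ?_⟩
  have cube : ∀ s, InCube (cap T E).act (cap T E).val s →
      InCube T.act T.val (fun x => s (Sum.inl x)) := fun s hs x hx =>
    hs (Sum.inl x) (fun h' => hx (Finset.inl_mem_disjSum.1 h'))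
  exact {
    inj := h.inj.sumMap injective_id
    act := by
      rintro (x | x)
      · refine Finset.inl_mem_disjSum.trans ((h.act x).trans ?_)
        constructor
        · rintro ⟨y, hy, rfl⟩
          exact ⟨Sum.inl y, Finset.inl_mem_disjSum.2 hy, rfl⟩
        · rintro ⟨y | y, hy, hxy⟩
          · exact ⟨y, Finset.inl_mem_disjSum.1 hy, Sum.inl_injective hxy⟩
          · cases hxy
      · refine Finset.inr_mem_disjSum.trans ?_
        constructor
        · intro hx
          exact ⟨Sum.inr x, Finset.inr_mem_disjSum.2 hx, rfl⟩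
        · rintro ⟨y | y, hy, hxy⟩
          · cases hxy
          · have : y = x := Sum.inr_injective hxy
            rw [← this]
            exact Finset.inr_mem_disjSum.1 hy
    val := by
      rintro (y | y) hy
      · exact h.val y (fun h' => hy (Finset.inl_mem_disjSum.2 h'))
      · rfl
    con := by
      rintro s hs f ⟨h1, h2, h3⟩
      refine ⟨h.con _ (cube s hs) _ h1, h2, fun l => ?_⟩
      exact (h.leg _ (cube s hs) _ h1 (Sum.inr l)).symm.trans (h3 l)
    det := by
      rintro s hs f ⟨h1, h2, h3⟩ h0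
      have h4 := h.det _ (cube s hs) _ h1 (fun p => h0 (Sum.inl p))
      funext z
      cases z with
      | inl p => exact congrFun h4 p
      | inr p => exact h0 (Sum.inr p)
    ext := by
      rintro s hs g ⟨h1, h2, h3⟩
      obtain ⟨f, hf, hfg⟩ := h.ext _ (cube s hs) _ h1
      refine ⟨Sum.elim f (fun p => g (Sum.inr p)), ⟨hf, h2, fun l => ?_⟩, ?_⟩
      · exact ((h.leg _ (cube s hs) _ hf (Sum.inr l)).trans (hfg _)).trans (h3 l)
      · rintro (p | p)
        · exact hfg p
        · rfl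
    u := by
      rintro s hs (y | y) hy f ⟨h1, h2, h3⟩
      · exact h.u _ (cube s hs) y (Finset.inl_mem_disjSum.1 hy) _ h1
      · rfl
    leg := by
      rintro s hs f ⟨h1, h2, h3⟩ l
      exact h.leg _ (cube s hs) _ h1 (Sum.inl l) }

theorem Iso.cap_right {E E' : PS Γ} (T : PS (Λ ⊕ Γ)) (h : Iso E E') :
    Iso (cap T E) (cap T E') := by
  obtain ⟨j, e, h⟩ := h
  refine ⟨(Sum.map id j : T.P ⊕ E'.P → T.P ⊕ E.P), (Sum.map id e : T.X ⊕ E'.X → T.X ⊕ E.X), ?_⟩
  have cube : ∀ s, InCube (cap T E).act (cap T E).val s →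
      InCube E.act E.val (fun x => s (Sum.inr x)) := fun s hs x hx =>
    hs (Sum.inr x) (fun h' => hx (Finset.inr_mem_disjSum.1 h'))
  exact {
    inj := injective_id.sumMap h.inj
    act := by
      rintro (x | x)
      · refine Finset.inl_mem_disjSum.trans ?_
        constructor
        · intro hx
          exact ⟨Sum.inl x, Finset.inl_mem_disjSum.2 hx, rfl⟩
        · rintro ⟨y | y, hy, hxy⟩
          · have : y = x := Sum.inl_injective hxy
            rw [← this]
            exact Finset.inl_mem_disjSum.1 hy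
          · cases hxy
      · refine Finset.inr_mem_disjSum.trans ((h.act x).trans ?_)
        constructor
        · rintro ⟨y, hy, rfl⟩
          exact ⟨Sum.inr y, Finset.inr_mem_disjSum.2 hy, rfl⟩
        · rintro ⟨y | y, hy, hxy⟩
          · cases hxy
          · exact ⟨y, Finset.inr_mem_disjSum.1 hy, Sum.inr_injective hxy⟩
    val := by
      rintro (y | y) hy
      · rfl
      · exact h.val y (fun h' => hy (Finset.inr_mem_disjSum.2 h'))
    con := by
      rintro s hs f ⟨h1, h2, h3⟩
      refine ⟨h1, h.con _ (cube s hs) _ h2, fun l => ?_⟩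
      exact (h3 l).trans (h.leg _ (cube s hs) _ h2 l)
    det := by
      rintro s hs f ⟨h1, h2, h3⟩ h0
      have h4 := h.det _ (cube s hs) _ h2 (fun p => h0 (Sum.inr p))
      funext z
      cases z with
      | inl p => exact h0 (Sum.inl p)
      | inr p => exact congrFun h4 p
    ext := by
      rintro s hs g ⟨h1, h2, h3⟩
      obtain ⟨f, hf, hfg⟩ := h.ext _ (cube s hs) _ h2
      refine ⟨Sum.elim (fun p => g (Sum.inl p)) f, ⟨h1, hf, fun l => ?_⟩, ?_⟩
      · exact (h3 l).trans ((h.leg _ (cube s hs) _ hf l).trans (hfg _)).symm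
      · rintro (p | p)
        · rfl
        · exact hfg p
    u := by
      rintro s hs (y | y) hy f ⟨h1, h2, h3⟩
      · rfl
      · exact h.u _ (cube s hs) y (Finset.inr_mem_disjSum.1 hy) _ h2
    leg := fun _ _ _ _ _ => rfl }

theorem Iso.plus_left {B B' : PS Λ} (h : Iso B B') (E : PS Γ) :
    Iso (plus B E) (plus B' E) := by
  obtain ⟨j, e, h⟩ := h
  refine ⟨(Sum.map j id : B'.P ⊕ E.P → B.P ⊕ E.P), (Sum.map e id : B'.X ⊕ E.X → B.X ⊕ E.X), ?_⟩
  have cube : ∀ s, InCube (plus B E).act (plus B E).val s →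
      InCube B.act B.val (fun x => s (Sum.inl x)) := fun s hs x hx =>
    hs (Sum.inl x) (fun h' => hx (Finset.inl_mem_disjSum.1 h'))
  exact {
    inj := h.inj.sumMap injective_id
    act := by
      rintro (x | x)
      · refine Finset.inl_mem_disjSum.trans ((h.act x).trans ?_)
        constructor
        · rintro ⟨y, hy, rfl⟩
          exact ⟨Sum.inl y, Finset.inl_mem_disjSum.2 hy, rfl⟩
        · rintro ⟨y | y, hy, hxy⟩
          · exact ⟨y, Finset.inl_mem_disjSum.1 hy, Sum.inl_injective hxy⟩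
          · cases hxy
      · refine Finset.inr_mem_disjSum.trans ?_
        constructor
        · intro hx
          exact ⟨Sum.inr x, Finset.inr_mem_disjSum.2 hx, rfl⟩
        · rintro ⟨y | y, hy, hxy⟩
          · cases hxy
          · have : y = x := Sum.inr_injective hxy
            rw [← this]
            exact Finset.inr_mem_disjSum.1 hy
    val := by
      rintro (y | y) hy
      · exact h.val y (fun h' => hy (Finset.inl_mem_disjSum.2 h'))
      · rfl
    con := by
      rintro s hs f ⟨h1, h2⟩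
      exact ⟨h.con _ (cube s hs) _ h1, h2⟩
    det := by
      rintro s hs f ⟨h1, h2⟩ h0
      have h4 := h.det _ (cube s hs) _ h1 (fun p => h0 (Sum.inl p))
      funext z
      cases z with
      | inl p => exact congrFun h4 p
      | inr p => exact h0 (Sum.inr p)
    ext := by
      rintro s hs g ⟨h1, h2⟩
      obtain ⟨f, hf, hfg⟩ := h.ext _ (cube s hs) _ h1
      refine ⟨Sum.elim f (fun p => g (Sum.inr p)), ⟨hf, h2⟩, ?_⟩
      rintro (p | p)
      · exact hfg p
      · rfl
    u := by
      rintro s hs (y | y) hy f ⟨h1, h2⟩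
      · exact h.u _ (cube s hs) y (Finset.inl_mem_disjSum.1 hy) _ h1
      · rfl
    leg := by
      rintro s hs f ⟨h1, h2⟩ (l | l)
      · exact h.leg _ (cube s hs) _ h1 l
      · rfl }

theorem attach_relabel {Λ' : Type} [Fintype Λ'] [DecidableEq Λ'] (e : Λ ≃ Λ') (A : PS Λ)
    (l : Letter Λ) :
    Iso (relabel e (attach A l)) (attach (relabel e A) (l.map e e.injective)) := by
  refine Iso.of_equiv (A := relabel e (attach A l))
    (B := attach (relabel e A) (l.map e e.injective)) (Equiv.refl _) (Equiv.refl _)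
    ?_ ?_ ?_ ?_ (fun _ => Iff.rfl) (fun _ => rfl)
  · intro s f
    have e1 : e.symm (e l.i) = l.i := e.symm_apply_apply _
    have e2 : e.symm (e l.j) = l.j := e.symm_apply_apply _
    constructor
    · rintro ⟨h1, h2⟩
      refine ⟨h1, ?_⟩
      show (l.mt (s none)).ok (f (Sum.inl (A.leg (e.symm (e l.i)))))
        (f (Sum.inl (A.leg (e.symm (e l.j))))) (f (Sum.inr false)) (f (Sum.inr true))
      rw [e1, e2]
      exact h2
    · rintro ⟨h1, h2⟩
      refine ⟨h1, ?_⟩
      change (l.mt (s none)).ok (f (Sum.inl (A.leg (e.symm (e l.i)))))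
        (f (Sum.inl (A.leg (e.symm (e l.j))))) (f (Sum.inr false)) (f (Sum.inr true)) at h2
      rw [e1, e2] at h2
      exact h2
  · rintro (_ | y)
    · show Sum.inl (A.leg l.i) = Sum.inl (A.leg (e.symm (e l.i)))
      rw [e.symm_apply_apply]
    · rfl
  · rintro (_ | y)
    · show Mt.pick l.m0 l.m1 (Sum.inl (A.leg l.j)) (Sum.inr false) (Sum.inr true) =
        Mt.pick l.m0 l.m1 (Sum.inl (A.leg (e.symm (e l.j)))) (Sum.inr false) (Sum.inr true)
      rw [e.symm_apply_apply]
    · rfl
  · intro k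
    show (if e.symm k = l.i then Sum.inr false else
        if e.symm k = l.j then Sum.inr true else Sum.inl (A.leg (e.symm k))) =
        (if k = e l.i then Sum.inr false else
        if k = e l.j then Sum.inr true else Sum.inl (A.leg (e.symm k)))
    simp only [Equiv.symm_apply_eq]

end PS

end Spg
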