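import Pool.Agent.H85.SpgMove

/-!
# The pass moves: an arc is moved from one side of a node to the other side
-/

set_option linter.unusedSectionVars false

open Function

namespace Spg

section

variable {N : Type} [Fintype N] [DecidableEq N]

/-- The strand `q = inr true` crosses `v`, `next v`, ..., `k` legs. -/
def fingq (next : Equiv.Perm N) (b : Bool) (v : N) : ℕ → List (Letter (N ⊕ Bool))
  | 0 => []
  | k + 1 => PS.XL (Sum.inr true) (Sum.inl ((next^[k]) v)) (by simp) b :: fingq next b v k

/-- The exchange of the two extra legs. -/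
def swapE (N : Type) : N ⊕ Bool ≃ N ⊕ Bool := Equiv.sumCongr (Equiv.refl N) Equiv.boolNot

theorem relabel_attachW {Λ Λ' : Type} [Fintype Λ] [DecidableEq Λ] [Fintype Λ'] [DecidableEq Λ']
    (e : Λ ≃ Λ') (A : PS Λ) (w : List (Letter Λ)) :
    PS.Iso (PS.relabel e (PS.attachW A w))
      (PS.attachW (PS.relabel e A) (w.map (fun l => l.map e e.injective))) := by
  induction w with
  | nil => exact PS.Iso.refl _
  | cons l w ih => exact (PS.attach_relabel e (PS.attachW A w) l).trans (ih.attach _)

variable {next : Equiv.Perm N} {c : N → Bool} (hc : ∀ v, c (next v) = !c v)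

theorem fingq_map (b : Bool) (v : N) (k : ℕ) :
    (fingq next b v k).map (fun l => l.map (swapE N) (swapE N).injective) = fing next b v k := by
  induction k with
  | zero => rfl
  | succ k ih => exact congrArg₂ List.cons rfl ih

theorem base_swap :
    PS.Iso (PS.relabel (swapE N) (PS.base (Sum.map (mu next c) (!·)) (muP_muP hc) (muP_ne hc)))
      (PS.base (Sum.map (mu next c) (!·)) (muP_muP hc) (muP_ne hc)) := by
  have hcomm : ∀ l : N ⊕ Bool, (swapE N).symm (Sum.map (mu next c) (!·) l) =
      Sum.map (mu next c) (!·) ((swapE N).symm l) := by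
    rintro (l | b)
    · rfl
    · cases b <;> rfl
  have hcomm' : ∀ l : N ⊕ Bool, swapE N (Sum.map (mu next c) (!·) l) =
      Sum.map (mu next c) (!·) (swapE N l) := by
    rintro (l | b)
    · rfl
    · cases b <;> rfl
  refine ⟨(swapE N).symm, Empty.elim, ?_⟩
  constructor
  · exact fun x => Empty.elim x
  · exact fun x => Empty.elim x
  · exact fun y => Empty.elim y
  · intro s _ f hf l
    exact (congrArg f (hcomm l)).trans (hf _)
  · intro s _ f _ hz
    funext p
    exact (congrArg f ((swapE N).symm_apply_apply p)).symm.trans (hz (swapE N p))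
  · intro s _ g hg
    refine ⟨fun p => g (swapE N p), fun l => ?_, fun p =>
      congrArg g ((swapE N).apply_symm_apply p)⟩
    exact (congrArg g (hcomm' l)).trans (hg _)
  · exact fun _ _ y => Empty.elim y
  · intro s _ f _ l
    rfl

theorem EE_KP_swap (T : PS (N ⊕ Bool)) (W : List (AL N)) (n : ℤ) :
    PS.EE (PS.relabel (swapE N) T) (KP hc W) n ↔ PS.EE T (KP hc W) n := by
  have h1 := relabel_attachW (swapE N) (PS.base (Sum.map (mu next c) (!·)) (muP_muP hc) (muP_ne hc))
    (W.map (fun a => (AL.toL hc a).map Sum.inl Sum.inl_injective))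
  have h2 := (base_swap hc).attachW
    ((W.map (fun a => (AL.toL hc a).map Sum.inl Sum.inl_injective)).map
      (fun l => l.map (swapE N) (swapE N).injective))
  have h3 : (W.map (fun a => (AL.toL hc a).map Sum.inl Sum.inl_injective)).map
      (fun l => l.map (swapE N) (swapE N).injective) =
      W.map (fun a => (AL.toL hc a).map Sum.inl Sum.inl_injective) := by
    rw [List.map_map]
    rfl
  rw [← PS.EE_relabel (swapE N) T (KP hc W), PS.EE_symm, PS.EE_symm (PS.relabel (swapE N) T)]
  have h4 := (h1.trans h2).EE (PS.relabel (swapE N) T) n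
  rw [h3] at h4
  exact h4.symm

theorem EE_fing_swap (T : PS (N ⊕ Bool)) (W : List (AL N)) (v : N) (b : Bool) (k : ℕ) (n : ℤ) :
    PS.EE (PS.attachW (PS.relabel (swapE N) T) (fing next b v k)) (KP hc W) n ↔
      PS.EE (PS.attachW T (fingq next b v k)) (KP hc W) n := by
  rw [← fingq_map, ← (relabel_attachW (swapE N) T (fingq next b v k)).EE, EE_KP_swap]

theorem pass_cancel (T : PS (N ⊕ Bool)) (W : List (AL N)) (v : N) (b : Bool) (j r : ℕ)
    (h : j + r ≤ minimalPeriod next v) (n : ℤ) :
    PS.EE (PS.attachW (PS.attachW T (fingq next b ((next^[j]) v) r)) (fing next b v (j + r)))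
      (KP hc W) (n + r) ↔ PS.EE (PS.attachW T (fing next b v j)) (KP hc W) n := by
  induction r with
  | zero => simp [fingq]
  | succ r ih =>
    rw [← ih (by omega)]
    obtain ⟨g, hg⟩ := freeArc_KP hc W
    have hp : (Sum.inr false : N ⊕ Bool) ≠ Sum.inl ((next^[j + r]) v) := by simp
    have hq : (Sum.inr true : N ⊕ Bool) ≠ Sum.inl ((next^[j + r]) v) := by simp
    have hpq : (Sum.inr false : N ⊕ Bool) ≠ Sum.inr true := by simp
    have e1 : fing next b v (j + (r + 1)) =
      PS.XL (Sum.inr false) (Sum.inl ((next^[j + r]) v)) hp b :: fing next b v (j + r) := rfl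
    have e2 : fingq next b ((next^[j]) v) (r + 1) =
      PS.XL (Sum.inr true) (Sum.inl ((next^[j + r]) v)) hq b ::
        fingq next b ((next^[j]) v) r := by
      show PS.XL (Sum.inr true) (Sum.inl ((next^[r]) ((next^[j]) v))) _ b :: _ = _
      have : (next^[r]) ((next^[j]) v) = (next^[j + r]) v := by
        rw [← iterate_add_apply, add_comm]
      congr 2
      rw [this]
    rw [e1, e2, PS.attachW_cons, PS.attachW_cons, PS.neck _ (KP hc W) _ _ _ hp hq hpq b g hg]
    have s2 := PS.Iso.comm_word (PS.attach (PS.attachW T (fingq next b ((next^[j]) v) r))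
      (PS.XL (Sum.inr true) (Sum.inl ((next^[j + r]) v)) hq b))
      (PS.XL (Sum.inr true) (Sum.inl ((next^[j + r]) v)) hq (!b)) (fing next b v (j + r)) (by
      intro a ha
      obtain ⟨h1, i, hi, h2⟩ := mem_fing ha
      refine ⟨?_, ?_, ?_, ?_⟩
      · rw [h1]; exact hpq
      · rw [h1]; exact hp
      · rw [h2]; exact Sum.inl_ne_inr
      · rw [h2]
        intro h3
        have h4 : (next^[i]) v = (next^[j + r]) v := Sum.inl_injective h3
        have h5 := (iterate_eq_iterate_iff_of_lt_minimalPeriod (f := next) (x := v)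
          (by omega) (by omega)).mp h4
        omega)
    rw [s2.EE]
    have s3 := PS.EE_under (A := PS.attach (PS.attach (PS.attachW T
      (fingq next b ((next^[j]) v) r)) (PS.XL (Sum.inr true) (Sum.inl ((next^[j + r]) v)) hq b))
      (PS.XL (Sum.inr true) (Sum.inl ((next^[j + r]) v)) hq (!b)))
      (A' := PS.attachW T (fingq next b ((next^[j]) v) r)) (n := n + r + 1) (m := n + r)
      (fun B => PS.R2X _ B _ _ hq b (n + r)) (fing next b v (j + r)) (KP hc W)
    rw [← s3]
    push_cast
    rw [add_assoc]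

/-- The pass lemma. -/
theorem pass_lemma (T : PS (N ⊕ Bool)) (W : List (AL N)) (v : N) (b : Bool) (j : ℕ)
    (h : j ≤ minimalPeriod next v) (n : ℤ) :
    PS.EE (PS.attachW T (fing next b v j)) (KP hc W) n ↔
    PS.EE (PS.attachW T (fingq next b ((next^[j]) v) (minimalPeriod next v - j))) (KP hc W)
      (n + ((minimalPeriod next v - j : ℕ) : ℤ) - (minimalPeriod next v / 2 : ℕ)) := by
  have h1 := pass_cancel hc T W v b j (minimalPeriod next v - j) (by omega) n
  have h2 := finger_lemma hc (PS.attachW T (fingq next b ((next^[j]) v)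
    (minimalPeriod next v - j))) W v b
    (n + ((minimalPeriod next v - j : ℕ) : ℤ) - (minimalPeriod next v / 2 : ℕ))
  rw [← h1, show j + (minimalPeriod next v - j) = minimalPeriod next v by omega, ← h2,
    sub_add_cancel]

end

/-- Cutting the arc from the other side. -/
theorem cut_glue {R : Type} [Fintype R] [DecidableEq R] (t : Tangle R) (a : t.End) :
    PS.Iso (t.cutPS (t.glue a)) (PS.relabel (swapE R) (t.cutPS a)) := by
  refine ⟨id, id, ?_⟩
  constructor
  · exact injective_id
  · intro x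
    exact ⟨fun hx => ⟨x, hx, rfl⟩, fun ⟨y, hy, h⟩ => h ▸ hy⟩
  · exact fun y hy => absurd (Finset.mem_univ y) hy
  · rintro s _ f ⟨h1, h2⟩
    exact ⟨fun d hd hd' => h1 d hd' (fun h => hd (h.trans (t.glue_glue a))), h2⟩
  · intro s _ f _ hz
    exact funext hz
  · rintro s _ g ⟨h1, h2⟩
    exact ⟨g, ⟨fun d hd hd' => h1 d (fun h => hd' (h.trans (t.glue_glue a).symm)) hd, h2⟩,
      fun _ => rfl⟩
  · exact fun _ _ _ _ _ _ => rfl
  · rintro s _ f _ (l | c)
    · rfl
    · cases c
      · rfl
      · exact congrArg f (t.glue_glue a)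

namespace Diagram

variable (G : Diagram)

/-- A diagram with a strand drawn across some ends, all nodes opened. -/
theorem EE_draw (a d : G.End) (b : Bool) (j : ℕ) {c : G.V → Bool}
    (hc : ∀ v, c (G.next v) = !c v) (W : List (AL G.V)) (n : ℤ) :
    PS.EE (G.draw a d b j).toPS (KK0 (next := G.next) hc W) n ↔
      PS.EE (PS.attachW (G.arcs.cutPS (Sum.inr a)) (fing (rotN G.next) b d j))
        (KP (colN_rot (X := G.X) (M := G.M) hc) (nodeW W Finset.univ.toList)) n := by
  have hF := G.FI_arcs.finger G.rotR b j (Sum.inr a) (Sum.inr d)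
    a d (G.fe_arcs a) (G.fe_arcs d)
  rw [G.hrot] at hF
  obtain ⟨e', he'⟩ := hF
  have h1 := G.EE_open _ _ e' he' hc W n
  obtain ⟨a', h2⟩ := cut_finger (rotN G.next : Equiv.Perm G.End) b j G.arcs (Sum.inr a) d
  have h3 := EE_cut (colN_rot (X := G.X) (M := G.M) hc) _ a' (nodeW W Finset.univ.toList) n
  have h4 := h2.EE (KP (colN_rot (X := G.X) (M := G.M) hc) (nodeW W Finset.univ.toList)) n
  exact h1.trans (h3.trans h4)

theorem EE_draw_glue (a d : G.End) (b : Bool) (j : ℕ) {c : G.V → Bool}
    (hc : ∀ v, c (G.next v) = !c v) (W : List (AL G.V)) (n : ℤ) :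
    PS.EE (G.draw (G.glue a) d b j).toPS (KK0 (next := G.next) hc W) n ↔
      PS.EE (PS.attachW (G.arcs.cutPS (Sum.inr a)) (fingq (rotN G.next) b d j))
        (KP (colN_rot (X := G.X) (M := G.M) hc) (nodeW W Finset.univ.toList)) n := by
  rw [EE_draw, ← EE_fing_swap]
  exact ((cut_glue G.arcs (Sum.inr a)).attachW _).EE _ n

theorem EE_pass (a d : G.End) (b : Bool) (j : ℕ) (hj : j ≤ minimalPeriod G.rot d)
    {c : G.V → Bool} (hc : ∀ v, c (G.next v) = !c v) (W : List (AL G.V)) (n : ℤ) :
    PS.EE (G.draw (G.glue a) ((G.rot^[j]) d) b (minimalPeriod G.rot d - j)).toPS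
      (KK0 (next := G.next) hc W) n ↔
    PS.EE (G.draw a d b j).toPS (KK0 (next := G.next) hc W)
      (n + (-((minimalPeriod G.rot d - j : ℕ) : ℤ) + (minimalPeriod G.rot d / 2 : ℕ))) := by
  have h1 := G.EE_draw_glue a ((G.rot^[j]) d) b (minimalPeriod G.rot d - j) hc W n
  have h2 := G.EE_draw a d b j hc W
    (n + (-((minimalPeriod G.rot d - j : ℕ) : ℤ) + (minimalPeriod G.rot d / 2 : ℕ)))
  have h3 := pass_lemma (colN_rot (X := G.X) (M := G.M) hc) (G.arcs.cutPS (Sum.inr a))
    (nodeW W Finset.univ.toList) d b j hj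
    (n + (-((minimalPeriod G.rot d - j : ℕ) : ℤ) + (minimalPeriod G.rot d / 2 : ℕ)))
  have e1 : n + (-((minimalPeriod G.rot d - j : ℕ) : ℤ) + (minimalPeriod G.rot d / 2 : ℕ)) +
      ((minimalPeriod (rotN G.next : Equiv.Perm G.End) d - j : ℕ) : ℤ) -
      (minimalPeriod (rotN G.next : Equiv.Perm G.End) d / 2 : ℕ) = n := by
    show n + (-((minimalPeriod G.rot d - j : ℕ) : ℤ) + (minimalPeriod G.rot d / 2 : ℕ)) +
      ((minimalPeriod G.rot d - j : ℕ) : ℤ) - (minimalPeriod G.rot d / 2 : ℕ) = n
    ring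
  rw [e1] at h3
  exact h1.trans (h3.symm.trans h2.symm)

theorem CP.of_pass (G : Diagram) (a d : G.End) (b : Bool) (j : ℕ)
    (hj : j ≤ minimalPeriod G.rot d) :
    CP (G.draw a d b j) (G.draw (G.glue a) ((G.rot^[j]) d) b (minimalPeriod G.rot d - j)) :=
  CP.mk_refl (G.draw a d b j)
    (G.draw (G.glue a) ((G.rot^[j]) d) b (minimalPeriod G.rot d - j)).tan [] (by simp)
    (-((minimalPeriod G.rot d - j : ℕ) : ℤ) + (minimalPeriod G.rot d / 2 : ℕ))
    (fun _ hc W n => G.EE_pass a d b j hj hc W n)

end Diagram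

end Spg
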