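import Pool.Agent.H85.SpgMain
import Pool.Agent.H85.SpgPass
import Pool.Agent.H50.SpgStep

/-!
# The chain property is an equivalence relation (layer M9a)
-/

set_option linter.unusedSectionVars false

open Function

namespace Spg

section

variable {N : Type} [Fintype N] [DecidableEq N] {next : Equiv.Perm N} {c : N → Bool}

theorem KK0_congr {c c' : N → Bool} (h : c = c') (hc : ∀ v, c (next v) = !c v)
    (hc' : ∀ v, c' (next v) = !c' v) (W : List (AL N)) : KK0 hc W = KK0 hc' W := by
  subst h; rfl

theorem toL_eq_YL (hc : ∀ v, c (next v) = !c v) (a : AL N) (h : a.fr = none) :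
    AL.toL hc a = PS.YL a.v (next a.v) (next_ne hc a.v) a.b := by
  cases a
  subst h
  rfl

/-- Replacing an open system inside a word. -/
theorem PS.EE_word {Λ : Type} [Fintype Λ] [DecidableEq Λ] (A B B' : PS Λ) (w : List (Letter Λ))
    (n m : ℤ) (h : ∀ C, PS.EE B C n ↔ PS.EE B' C m) :
    PS.EE A (PS.attachW B w) n ↔ PS.EE A (PS.attachW B' w) m := by
  have h1 := PS.EE_attachW A B w.reverse n
  have h2 := PS.EE_attachW A B' w.reverse m
  rw [List.reverse_reverse] at h1 h2
  rw [← h1, ← h2, PS.EE_symm, PS.EE_symm _ B']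
  exact h _

/-- Removal of an inverse pair inside a word. -/
theorem EE_pair (A : PS N) (hc : ∀ v, c (next v) = !c v) (β : List (AL N))
    (hβ : ∀ a ∈ β, a.fr = none) (W : List (AL N)) (n : ℤ) :
    PS.EE A (KK0 hc (β ++ (invW β ++ W))) (n + β.length) ↔ PS.EE A (KK0 hc W) n := by
  induction β using List.reverseRecOn with
  | nil => simp [invW]
  | append_singleton β l ih =>
    have hl : l.fr = none := hβ l (List.mem_append_right _ (List.mem_singleton_self l))
    have ih' := ih (fun a ha => hβ a (List.mem_append_left _ ha))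
    rw [KK0_pair, ← ih', KK0_append (W := β), List.length_append, List.length_singleton]
    refine PS.EE_word _ _ _ _ _ _ (fun C => ?_)
    have h1 := PS.R2Y (KK0 hc (invW β ++ W)) C l.v (next l.v) (next_ne hc l.v) (!l.b)
      (n + β.length)
    rw [Bool.not_not] at h1
    have e1 : AL.toL hc l.inv = PS.YL l.v (next l.v) (next_ne hc l.v) (!l.b) :=
      toL_eq_YL hc l.inv hl
    have e2 : AL.toL hc l = PS.YL l.v (next l.v) (next_ne hc l.v) l.b := toL_eq_YL hc l hl
    rw [e1, e2, ← h1]
    push_cast
    rw [add_assoc]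

end

namespace Diagram

theorem CP.refl' (G : Diagram) : CP G G := by
  refine ⟨Equiv.refl _, fun v => rfl, [], 0, fun a ha => absurd ha List.not_mem_nil, ?_⟩
  intro c hc hc' W n
  rw [add_zero]
  have : (W.map (fun a => (⟨(Equiv.refl G.V) a.v, a.b, a.fr⟩ : AL G.V))) = W := by
    conv_rhs => rw [← List.map_id W]
    rfl
  rw [this]
  exact Iff.rfl

theorem CP.trans' {G H K : Diagram} (h : CP G H) (h' : CP H K) : CP G K := by
  obtain ⟨e, he, β, k, hβ, hE⟩ := h
  obtain ⟨e', he', β', k', hβ', hE'⟩ := h'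
  refine ⟨e'.trans e, ?_, β ++ β'.map (fun a => ⟨e a.v, a.b, a.fr⟩), k + k', ?_, ?_⟩
  · intro v
    show e (e' (K.next v)) = G.next (e (e' v))
    rw [he', he]
  · intro a ha
    rcases List.mem_append.mp ha with ha | ha
    · exact hβ a ha
    · obtain ⟨a', ha', rfl⟩ := List.mem_map.mp ha
      exact hβ' a' ha'
  · intro c hc hc' W n
    have hcH : ∀ v, (c ∘ e) (H.next v) = !(c ∘ e) v := by
      intro v
      show c (e (H.next v)) = !c (e v)
      rw [he, hc]
    have h1 := hE' (c ∘ e) hcH hc' W n
    have h2 := hE c hc hcH (β' ++ W.map (fun a => ⟨e' a.v, a.b, a.fr⟩)) (n + k')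
    rw [List.map_append, List.map_map] at h2
    rw [List.append_assoc, show n + (k + k') = n + k' + k by ring]
    exact h1.trans h2

theorem CP.symm' {G H : Diagram} (h : CP G H) : CP H G := by
  obtain ⟨e, he, β, k, hβ, hE⟩ := h
  have he' : ∀ v, e.symm (G.next v) = H.next (e.symm v) := by
    intro v
    rw [Equiv.symm_apply_eq, he, Equiv.apply_symm_apply]
  refine ⟨e.symm, he', (invW β).map (fun a => ⟨e.symm a.v, a.b, a.fr⟩), β.length - k, ?_, ?_⟩
  · intro a ha
    obtain ⟨a', ha', rfl⟩ := List.mem_map.mp ha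
    unfold invW at ha'
    rw [List.mem_reverse] at ha'
    obtain ⟨a'', ha'', rfl⟩ := List.mem_map.mp ha'
    exact hβ a'' ha''
  · intro c hc hc' W n
    -- colouring c on H, c ∘ e.symm on G
    have hcc : (c ∘ e.symm) ∘ e = c := by
      funext v; simp
    have hcH : ∀ v, ((c ∘ e.symm) ∘ e) (H.next v) = !((c ∘ e.symm) ∘ e) v := by
      rw [hcc]; exact hc
    rw [← EE_pair G.toPS hc' β hβ W n]
    have h1 := hE (c ∘ e.symm) hc' hcH
      ((invW β ++ W).map (fun a => ⟨e.symm a.v, a.b, a.fr⟩)) (n + (β.length - k))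
    have h2 : ((invW β ++ W).map (fun a => (⟨e.symm a.v, a.b, a.fr⟩ : AL H.V))).map
        (fun a => (⟨e a.v, a.b, a.fr⟩ : AL G.V)) = invW β ++ W := by
      rw [List.map_map]
      conv_rhs => rw [← List.map_id (invW β ++ W)]
      congr 1
      funext a
      cases a
      simp
    rw [h2, show n + ((β.length : ℤ) - k) + k = n + β.length by ring] at h1
    rw [← h1, KK0_congr hcc hcH hc, List.map_append]

theorem CP.of_isotopic' {G H : Diagram} (h : Isotopic G H) : CP G H := by
  induction h with
  | rel G H h =>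
    cases h with
    | iso _ _ φ h => exact CP.of_iso _ _ φ h
    | marker _ a => exact CP.of_marker _ a
    | twist _ d b => exact CP.of_twist _ d b
    | pass G a d b j hj => exact CP.of_pass G a d b j hj
  | refl G => exact CP.refl' G
  | symm G H _ ih => exact CP.symm' ih
  | trans G H K _ _ ih1 ih2 => exact CP.trans' ih1 ih2

end Diagram

end Spg
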