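import Pool.Agent.H85.SpgSurgL

/-!
# Diagrams of even-valent spatial graphs, Reidemeister moves, adequacy

Statement layer of MP_5e61f3_gt.
-/

set_option linter.unusedSectionVars false

open Function

namespace Spg

/-! ### Tangles: crossings joined by arcs, with open ends -/

/-- A tangle with the set `R` of open ends: `X` is the set of crossings. A crossing `x` has the
four ends `(x, 0), (x, 1), (x, 2), (x, 3)` in counterclockwise order, and the strand through
`(x, 1), (x, 3)` lies over the strand through `(x, 0), (x, 2)`. The fixed-point free
involution `glue` describes the arcs which join the ends of the crossings and the open ends. -/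
structure Tangle (R : Type) where
  X : Type
  [finX : Fintype X]
  [decX : DecidableEq X]
  glue : (X × Fin 4 ⊕ R) → (X × Fin 4 ⊕ R)
  glue_glue : ∀ e, glue (glue e) = e
  glue_ne : ∀ e, glue e ≠ e

attribute [instance] Tangle.finX Tangle.decX

namespace Tangle

variable {R : Type}

/-- The ends of a tangle. -/
abbrev End (t : Tangle R) : Type := t.X × Fin 4 ⊕ R

variable [DecidableEq R]

/-- Insertion of a new crossing `none` on the arc at `a` and the arc at `v`: the end `σ 0` is joined
to `a` and the end `σ 1` to the old partner of `a`; then the end `σ 2` is joined to `v` and the
end `σ 3` to the partner of `v`. So the new crossing cuts the arc at `a` and the arc at `v`; if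
both are the same arc, then it is cut twice, near `v` by the ends `σ 2`, `σ 3`. -/
def ins (t : Tangle R) (a v : t.End) (σ : Equiv.Perm (Fin 4)) : Tangle R where
  X := Option t.X
  glue := rejoin (rejoin (addX t.glue σ) (emb a) (Sum.inl (none, σ 0))) (emb v)
    (Sum.inl (none, σ 2))
  glue_glue := (insX_aux t.glue a v σ t.glue_glue t.glue_ne).1
  glue_ne := (insX_aux t.glue a v σ t.glue_glue t.glue_ne).2

/-- The position of the ends of the new crossing when a strand (coming from `a`) is moved over
(`b = false`) or under (`b = true`) the arc at `v`: the ends are, in counterclockwise order, the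
outer end `σ 3` of `v`, the end `σ 1` where the strand leaves, the inner end `σ 2` joined to `v`
and the end `σ 0` where the strand arrives. For `b = false` these are the ends `0, 1, 2, 3` (so the
strand lies over the arc at `v`), and for `b = true` they are the ends `3, 0, 1, 2`. -/
def crossPos (b : Bool) : Equiv.Perm (Fin 4) :=
  (Equiv.swap 0 3).trans (Equiv.addRight (if b then 3 else 0))

/-- The finger: the strand which starts at `a` crosses the arcs at the `k` ends `v`, `rot v`,
`rot (rot v)`, ... one after the other, over them (`b = false`) or under them
(`b = true`), and then goes on to the old partner of `a`. Here `rot` is given by the rotation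
`(x, i) ↦ (x, i + 1)` at crossings and by `ρ` on the open ends. -/
def finger (ρ : R → R) (b : Bool) : ℕ → (t : Tangle R) → (a v : t.End) → Tangle R
  | 0, t, _, _ => t
  | k + 1, t, a, v => finger ρ b k (t.ins a v (crossPos b)) (Sum.inl (none, crossPos b 1))
      (emb (Sum.map (Prod.map id (· + 1)) ρ v))

/-- The position of the ends of the new crossing in a twist of the adjacent ends `d` and `rot d`
of a vertex or marker: in counterclockwise order, the end `σ 0` joined to `d`, the end `σ 1` joined
to the old partner of `d`, the end `σ 3` joined to the old partner of `rot d`
and the end `σ 2` joined to `rot d`. For `b = false` these are the ends `0, 1, 2, 3`, and for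
`b = true` they are the ends `1, 2, 3, 0`. -/
def twistPos (b : Bool) : Equiv.Perm (Fin 4) :=
  (Equiv.swap 2 3).trans (Equiv.addRight (if b then 1 else 0))

end Tangle

/-! ### Diagrams -/

/-- The smoothing of a crossing: the partner of an end in the `A`-smoothing (`b = false`) is given
by the pairs `01`, `23`, and in the `B`-smoothing (`b = true`) by the pairs `12`, `30`. -/
def sm : Bool → Fin 4 → Fin 4
  | false => ![1, 0, 3, 2]
  | true => ![3, 2, 1, 0]

/-- A diagram of an even-valent spatial graph, as a combinatorial code.
* `V` is the set of the half-edges at the vertices; `next` is the permutation which sends a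
  half-edge to the next one at the same vertex in counterclockwise order. So the vertices
  are the cycles of `next`, and the valence of a vertex is the length of the cycle;
* `M` is a set of markers (points in the interior of edges, needed for example on a component
  which is a circle without crossings); a marker `m` has the two ends `(m, 0), (m, 1)`;
* the crossings and the arcs are given by a tangle whose open ends are the ends at the markers and
  at the vertices;
* `isolated` is the number of isolated vertices, i.e. of vertices of valence `0`.
Planarity is not required, so these are the virtual (or abstract) diagrams; the diagrams on the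
sphere are among them. -/
structure Diagram where
  M : Type
  V : Type
  isolated : ℕ
  [finM : Fintype M]
  [decM : DecidableEq M]
  [finV : Fintype V]
  [decV : DecidableEq V]
  next : Equiv.Perm V
  even : ∀ v, Even (minimalPeriod next v)
  tan : Tangle (M × Fin 2 ⊕ V)

attribute [instance] Diagram.finM Diagram.decM Diagram.finV Diagram.decV

namespace Diagram

/-- The set of crossings. -/
abbrev X (G : Diagram) : Type := G.tan.X

/-- The ends at the crossings, markers and vertices. -/
abbrev End (G : Diagram) : Type := G.tan.X × Fin 4 ⊕ G.M × Fin 2 ⊕ G.V

/-- The partner of an end along the arcs of the diagram. -/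
abbrev glue (G : Diagram) : G.End → G.End := G.tan.glue

/-- The number of crossings. -/
def crossings (G : Diagram) : ℕ := Fintype.card G.X

/-- The rotation of the ends at the markers and vertices (one step counterclockwise). -/
def rotR (G : Diagram) : Equiv.Perm (G.M × Fin 2 ⊕ G.V) :=
  Equiv.sumCongr (Equiv.prodCongr (Equiv.refl G.M) (Equiv.addRight 1)) G.next

/-- The rotation of the ends around the crossings, markers and vertices
(one step counterclockwise). -/
def rot (G : Diagram) : Equiv.Perm G.End :=
  Equiv.sumCongr (Equiv.prodCongr (Equiv.refl G.X) (Equiv.addRight 1)) G.rotR

/-! ### Adequacy -/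

/-- `w` lies strictly between `v` and `u`, going around the vertex from `v` in the
counterclockwise direction. -/
def Between {V : Type} (next : Equiv.Perm V) (v w u : V) : Prop :=
  ∃ i j : ℕ, 0 < i ∧ i < j ∧ j < minimalPeriod next v ∧ (next^[i]) v = w ∧ (next^[j]) v = u

/-- A noncrossing perfect matching of the half-edges at each vertex. -/
structure Noncrossing {V : Type} (next : Equiv.Perm V) (a : V → V) : Prop where
  inv : ∀ v, a (a v) = v
  ne : ∀ v, a v ≠ v
  same : ∀ v, next.SameCycle v (a v)
  nc : ∀ v w, Between next v w (a v) → Between next v (a w) (a v)

/-- The partner of an end in the state of the link diagram obtained from `G` by the smoothing `a`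
of the vertices: all crossings are smoothed in the way given by `b` (`false` is the
`A`-smoothing). -/
def partner (G : Diagram) (a : G.V → G.V) (b : Bool) : G.End → G.End
  | Sum.inl (x, i) => Sum.inl (x, sm b i)
  | Sum.inr (Sum.inl (m, i)) => Sum.inr (Sum.inl (m, i + 1))
  | Sum.inr (Sum.inr v) => Sum.inr (Sum.inr (a v))

/-- Two ends lie on the same circle of the all-`A` or all-`B` state. -/
def SameCircle (G : Diagram) (a : G.V → G.V) (b : Bool) : G.End → G.End → Prop :=
  Relation.EqvGen (fun d e => e = G.glue d ∨ e = G.partner a b d)

/-- `G` is adequate: for every smoothing of the vertices by disjoint arcs, in the all-`A` state and in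
the all-`B` state, the two arcs at each crossing belong to different circles. -/
def Adequate (G : Diagram) : Prop :=
  ∀ a : G.V → G.V, Noncrossing G.next a → ∀ (b : Bool) (x : G.X),
    ¬ G.SameCircle a b (Sum.inl (x, 0)) (Sum.inl (x, 2))

/-! ### Moves -/

/-- Isomorphism of diagrams (this includes planar isotopy): a bijection of ends which is compatible
with the arcs, the rotation, the three kinds of nodes and the over strands. -/
structure IsIso (G H : Diagram) (φ : G.End ≃ H.End) : Prop where
  glue : ∀ d, φ (G.glue d) = H.glue (φ d)
  rot : ∀ d, φ (G.rot d) = H.rot (φ d)
  under : ∀ x, ∃ y, φ (Sum.inl (x, 0)) = Sum.inl (y, 0) ∨ φ (Sum.inl (x, 0)) = Sum.inl (y, 2)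
  marker : ∀ m, ∃ m' i, φ (Sum.inr (Sum.inl (m, 0))) = Sum.inr (Sum.inl (m', i))
  vertex : ∀ v, ∃ w, φ (Sum.inr (Sum.inr v)) = Sum.inr (Sum.inr w)
  isolated : G.isolated = H.isolated

/-- Insertion of a marker in the arc joining `a` and `glue a`. -/
def insertMarker (G : Diagram) (a : G.End) : Diagram where
  M := Option G.M
  V := G.V
  isolated := G.isolated
  next := G.next
  even := G.even
  tan :=
    { X := G.X
      glue := rejoin (addM G.glue) (embM a) (Sum.inr (Sum.inl (none, 0)))
      glue_glue := (insM_aux G.glue a G.tan.glue_glue G.tan.glue_ne).1
      glue_ne := (insM_aux G.glue a G.tan.glue_glue G.tan.glue_ne).2 }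

/-- Twisting the two adjacent ends `d` and `rot d` at a marker or vertex, by a crossing of
one of the two kinds. At a marker this is the first Reidemeister move, at a vertex it is the fifth
one. -/
def twist (G : Diagram) (d : G.M × Fin 2 ⊕ G.V) (b : Bool) : Diagram :=
  { G with tan := G.tan.ins (Sum.inr d) (Sum.inr (G.rotR d)) (Tangle.twistPos b) }

/-- The strand given by the arc which joins `a` and `glue a` is drawn across `j` ends of the node
(crossing, marker or vertex) with the end `d`: the strand, followed from `a` to `glue a`, starts
in the corner before `d` and crosses the ends `d`, `rot d`, `rot (rot d)`, ... (`j` ends) of the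
node in this (counterclockwise) order, over them (`b = false`) or under them (`b = true`). -/
def draw (G : Diagram) (a d : G.End) (b : Bool) (j : ℕ) : Diagram :=
  { G with tan := Tangle.finger G.rotR b j G.tan a d }

/-- One move.
* `iso`: isomorphism of diagrams, in particular planar isotopy;
* `marker`: insertion of a marker in an arc;
* `twist`: twisting two adjacent ends of a marker (first Reidemeister move) or of a vertex
  (fifth Reidemeister move);
* `pass`: let `k` be the number of ends of the node with the end `d`. If a strand crosses `j`
  consecutive ends of the node, all over them or all under them, then it is moved over or under the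
  node to the other side, where it crosses the other `k - j` ends of the node. For a crossing
  (`k = 4`) and `j = 2` this is the third Reidemeister move, for a vertex it is the
  fourth one (moving an arc over or under a vertex), and for a marker (`k = 2`) and `j = 2` or
  `j = 0` it is the second one. -/
inductive Step : Diagram → Diagram → Prop
  | iso (G H : Diagram) (φ : G.End ≃ H.End) (h : IsIso G H φ) : Step G H
  | marker (G : Diagram) (a : G.End) : Step G (G.insertMarker a)
  | twist (G : Diagram) (d : G.M × Fin 2 ⊕ G.V) (b : Bool) : Step G (G.twist d b)
  | pass (G : Diagram) (a d : G.End) (b : Bool) (j : ℕ) (hj : j ≤ minimalPeriod G.rot d) :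
      Step (G.draw a d b j)
        (G.draw (G.glue a) ((G.rot^[j]) d) b (minimalPeriod G.rot d - j))

/-- Two diagrams are related by a finite sequence of moves and inverse moves. -/
def Isotopic : Diagram → Diagram → Prop := Relation.EqvGen Step

end Diagram

end Spg
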