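import Pool.Agent.H85.SpgIso
import Pool.Agent.H73.SpgRD

/-!
# Open systems: Reidemeister moves for letters (layer M6p), statements
-/

set_option linter.unusedSectionVars false

open Function

namespace Spg

namespace PS

variable {Λ : Type} [Fintype Λ] [DecidableEq Λ]

/-- The crossing letter at the legs `i, j` with smoothings `I`, `E` (`b = false`) or `E`, `I`
(`b = true`). -/
def YL (i j : Λ) (h : i ≠ j) (b : Bool) : Letter Λ :=
  ⟨i, j, h, if b then Mt.E else Mt.I, if b then Mt.I else Mt.E, by cases b <;> simp, none⟩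

/-- The frozen letter `E` at the legs `i, j`. -/
def EL (i j : Λ) (h : i ≠ j) : Letter Λ := ⟨i, j, h, Mt.I, Mt.E, by simp, some true⟩

/-- The crossing letter in which the strand `p` crosses the leg `i`, with
smoothings `S`, `E` (`b = false`, over) or `E`, `S` (`b = true`, under). -/
def XL (p i : Λ) (h : p ≠ i) (b : Bool) : Letter Λ :=
  ⟨p, i, h, if b then Mt.E else Mt.S, if b then Mt.S else Mt.E, by cases b <;> simp, none⟩

/-- (P1) Second Reidemeister move for `Y` letters. -/
theorem R2Y (A B : PS Λ) (i j : Λ) (h : i ≠ j) (b : Bool) (n : ℤ) :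
    EE (attach (attach A (YL i j h b)) (YL i j h (!b))) B (n + 1) ↔ EE A B n :=
  R2Y' A B i j h b n

/-- (P1) Second Reidemeister move for `X` letters. -/
theorem R2X (A B : PS Λ) (i j : Λ) (h : i ≠ j) (b : Bool) (n : ℤ) :
    EE (attach (attach A (XL i j h b)) (XL i j h (!b))) B (n + 1) ↔ EE A B n :=
  R2X' A B i j h b n

/-- (P2) The strand `p` passing a cap. -/
theorem capX (A B : PS Λ) (p i j : Λ) (hi : p ≠ i) (hj : p ≠ j) (h : i ≠ j) (b : Bool) (n : ℤ) :
    EE (attach (attach (attach A (XL p i hi b)) (XL p j hj b)) (EL i j h)) B (n + 1) ↔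
      EE (attach A (EL i j h)) B n :=
  capX' A B p i j hi hj h b n

/-- `B` contains an arc joining the legs `i` and `j` which is not involved in any active
crossing; `g` is the indicator function of the arc. -/
structure FreeArc (B : PS Λ) (i j : Λ) (g : B.P → ZMod 2) : Prop where
  gi : g (B.leg i) = 1
  gj : g (B.leg j) = 1
  gl : ∀ l, l ≠ i → l ≠ j → g (B.leg l) = 0
  con : ∀ s, InCube B.act B.val s → g ∈ B.Con s
  u : ∀ x ∈ B.act, g (B.ua x) = 0 ∧ g (B.ub x) = 0
  eq : ∀ s, InCube B.act B.val s → ∀ f ∈ B.Con s, ∀ b, g b = 1 → f b = f (B.leg i)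

theorem FreeArc.symm {B : PS Λ} {i j : Λ} {g : B.P → ZMod 2} (h : FreeArc B i j g) :
    FreeArc B j i g where
  gi := h.gj
  gj := h.gi
  gl := fun l h1 h2 => h.gl l h2 h1
  con := h.con
  u := h.u
  eq := by
    intro s hs f hf b hb
    rw [h.eq s hs f hf b hb, h.eq s hs f hf _ h.gj]

/-- Attaching letters at other legs preserves a free arc. -/
theorem FreeArc.attach {B : PS Λ} {i j : Λ} {g : B.P → ZMod 2} (h : FreeArc B i j g)
    (l : Letter Λ) (h1 : l.i ≠ i) (h2 : l.i ≠ j) (h3 : l.j ≠ i) (h4 : l.j ≠ j) :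
    FreeArc (PS.attach B l) i j (fun b => Sum.elim g (fun _ => 0) b) where
  gi := by
    have e : (PS.attach B l).leg i = pS _ _ (B.leg i) := attach_leg_ne _ _ h1.symm h3.symm
    rw [e]
    exact h.gi
  gj := by
    have e : (PS.attach B l).leg j = pS _ _ (B.leg j) := attach_leg_ne _ _ h2.symm h4.symm
    rw [e]
    exact h.gj
  gl := by
    intro k hk1 hk2
    by_cases k1 : k = l.i
    · rw [k1, attach_leg_i]; rfl
    by_cases k2 : k = l.j
    · rw [k2, attach_leg_j]; rfl
    rw [attach_leg_ne _ _ k1 k2]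
    exact h.gl k hk1 hk2
  con := by
    intro s hs
    rw [mem_attach_Con]
    refine ⟨h.con _ (cube_S hs), ?_⟩
    show (l.mt (s (xN B l))).ok (g (B.leg l.i)) (g (B.leg l.j)) 0 0
    rw [h.gl _ h1 h2, h.gl _ h3 h4]
    cases l.mt (s (xN B l)) <;> exact ⟨rfl, rfl⟩
  u := by
    intro x hx
    rcases X_cases _ _ x with rfl | ⟨x, rfl⟩
    · rw [attach_ua_N, attach_ub_N]
      refine ⟨h.gl _ h1 h2, ?_⟩
      rcases pick_cases l.m0 l.m1 (pS B l (B.leg l.j)) (pN B l false) (pN B l true) with h5 | h5 | h5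
      · rw [h5]; exact h.gl _ h3 h4
      · rw [h5]; rfl
      · rw [h5]; rfl
    · exact h.u x ((mem_attach_act _ _ _).1 hx)
  eq := by
    intro s hs f hf b hb
    have e : (PS.attach B l).leg i = pS _ _ (B.leg i) := attach_leg_ne _ _ h1.symm h3.symm
    rw [e]
    match b with
    | Sum.inl b => exact h.eq _ (cube_S hs) _ ((mem_attach_Con _ _ _ _).1 hf).1 b hb
    | Sum.inr b => exact absurd (show (0 : ZMod 2) = 1 from hb) (by decide)

/-- the value of `f` changed along the arc -/
theorem FreeArc.change {B : PS Λ} {i j : Λ} {g : B.P → ZMod 2} (hg : FreeArc B i j g)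
    {s : B.X → Bool} (hs : InCube B.act B.val s) {f : B.P → ZMod 2} (hf : f ∈ B.Con s)
    (c : ZMod 2) : (fun b => if g b = 1 then c else f b) ∈ B.Con s := by
  have h1 := Submodule.add_mem _ hf (Submodule.smul_mem _ (c + f (B.leg i)) (hg.con s hs))
  have e : f + (c + f (B.leg i)) • g = fun b => if g b = 1 then c else f b := by
    funext b
    show f b + (c + f (B.leg i)) * g b = if g b = 1 then c else f b
    by_cases hb : g b = 1
    · rw [if_pos hb, hb, mul_one, hg.eq s hs f hf b hb, add_comm, add_assoc, add_self_Z2, add_zero]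
    · rw [if_neg hb, (Z2_cases (g b)).resolve_right hb, mul_zero, add_zero]
  rw [← e]
  exact h1

/-- the comparison for (P4) -/
theorem iso_arc (A B : PS Λ) (p i j : Λ) (hi : p ≠ i) (hj : p ≠ j) (h : i ≠ j) (b : Bool)
    (g : B.P → ZMod 2) (hg : FreeArc B i j g) :
    Iso (pair (XF A p i j hi hj b) B) (pair A B) := by
  let jj : (pair A B).P → (pair (XF A p i j hi hj b) B).P :=
    (Sum.elim (fun q => Sum.inl (pS _ _ (pS _ _ q)))
      (fun c => if g c = 1 then Sum.inl (pS _ _ (pS _ _ (A.leg i))) else Sum.inr c) :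
      A.P ⊕ B.P → (XF A p i j hi hj b).P ⊕ B.P)
  let ee : (pair A B).X → (pair (XF A p i j hi hj b) B).X :=
    (Sum.map (fun x => xS _ _ (xS _ _ x)) id : A.X ⊕ B.X → (XF A p i j hi hj b).X ⊕ B.X)
  have j1 : ∀ c, g c = 1 → jj (Sum.inr c) = Sum.inl (pS _ _ (pS _ _ (A.leg i))) :=
    fun c hc => if_pos hc
  have j0 : ∀ c, g c ≠ 1 → jj (Sum.inr c) = Sum.inr c := fun c hc => if_neg hc
  have gp : g (B.leg p) ≠ 1 := by
    rw [hg.gl p hi hj]; decide
  have gk : ∀ k, k ≠ i → k ≠ j → g (B.leg k) ≠ 1 := by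
    intro k h1 h2
    rw [hg.gl k h1 h2]; decide
  -- the constraints of the left side
  have key : ∀ s, InCube (pair (XF A p i j hi hj b) B).act (pair (XF A p i j hi hj b) B).val s →
      ∀ f, f ∈ (pair (XF A p i j hi hj b) B).Con s ↔
      (fun q => f (Sum.inl (pS _ _ (pS _ _ q)))) ∈ A.Con (fun x => s (ee (Sum.inl x))) ∧
      (fun c => f (Sum.inr c)) ∈ B.Con (fun x => s (Sum.inr x)) ∧
      (f (Sum.inl (pS _ _ (pS _ _ (A.leg p)))) = f (Sum.inl (pS _ _ (pN _ _ true))) ∧
        f (Sum.inl (pS _ _ (pS _ _ (A.leg i)))) = f (Sum.inl (pS _ _ (pN _ _ false)))) ∧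
      (f (Sum.inl (pS _ _ (pN _ _ false))) = f (Sum.inl (pS _ _ (pS _ _ (A.leg j)))) ∧
        f (Sum.inl (pN _ _ false)) = f (Sum.inl (pN _ _ true))) ∧
      f (Sum.inl (pN _ _ false)) = f (Sum.inr (B.leg p)) ∧
      f (Sum.inl (pS _ _ (pN _ _ true))) = f (Sum.inr (B.leg i)) ∧
      f (Sum.inl (pN _ _ true)) = f (Sum.inr (B.leg j)) ∧
      (∀ k, k ≠ p → k ≠ i → k ≠ j →
        f (Sum.inl (pS _ _ (pS _ _ (A.leg k)))) = f (Sum.inr (B.leg k))) := by
    intro s hs f
    have e1 : f ∈ (pair (XF A p i j hi hj b) B).Con s ↔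
      (fun q => f (Sum.inl q)) ∈ (XF A p i j hi hj b).Con (fun x => s (Sum.inl x)) ∧
      (fun c => f (Sum.inr c)) ∈ B.Con (fun x => s (Sum.inr x)) ∧
      ∀ l, f (Sum.inl ((XF A p i j hi hj b).leg l)) = f (Sum.inr (B.leg l)) := Iff.rfl
    rw [e1, XF_con A p i j hi hj b h (inCube_inl hs)]
    constructor
    · rintro ⟨⟨h1, h2, h3⟩, h4, h5⟩
      refine ⟨h1, h4, h2, h3, ?_, ?_, ?_, ?_⟩
      · have := h5 p
        rwa [XF_p A p i j hi hj b] at this
      · have := h5 i
        rwa [XF_i A p i j hi hj b h] at this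
      · have := h5 j
        rwa [XF_j A p i j hi hj b] at this
      · intro k k1 k2 k3
        have := h5 k
        rwa [XF_k A p i j hi hj b k1 k2 k3] at this
    · rintro ⟨h1, h4, h2, h3, h5, h6, h7, h8⟩
      refine ⟨⟨h1, h2, h3⟩, h4, ?_⟩
      intro k
      by_cases k1 : k = p
      · rw [k1, XF_p A p i j hi hj b]; exact h5
      by_cases k2 : k = i
      · rw [k2, XF_i A p i j hi hj b h]; exact h6
      by_cases k3 : k = j
      · rw [k3, XF_j A p i j hi hj b]; exact h7
      rw [XF_k A p i j hi hj b k1 k2 k3]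
      exact h8 k k1 k2 k3
  refine ⟨jj, ee, ?_⟩
  exact
    { inj := by
        rintro (x | x) (y | y) hxy
        · have : xS _ _ (xS _ _ x) = xS _ _ (xS _ _ y) := Sum.inl_injective hxy
          rw [xS_inj _ _ (xS_inj _ _ this)]
        · exact absurd hxy (by simp [ee])
        · exact absurd hxy (by simp [ee])
        · have : x = y := Sum.inr_injective hxy
          rw [this]
      act := by
        rintro (x | x)
        · have e1 : Sum.inl x ∈ (pair (XF A p i j hi hj b) B).act ↔
              x ∈ (XF A p i j hi hj b).act := Finset.inl_mem_disjSum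
          refine e1.trans ?_
          rw [XF_act]
          constructor
          · rintro ⟨y, hy, rfl⟩
            exact ⟨Sum.inl y, Finset.inl_mem_disjSum.2 hy, rfl⟩
          · rintro ⟨y | y, hy, hxy⟩
            · exact ⟨y, Finset.inl_mem_disjSum.1 hy, Sum.inl_injective hxy⟩
            · exact absurd hxy (by simp [ee])
        · have e1 : Sum.inr x ∈ (pair (XF A p i j hi hj b) B).act ↔
              x ∈ B.act := Finset.inr_mem_disjSum
          refine e1.trans ?_
          constructor
          · intro hx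
            exact ⟨Sum.inr x, Finset.inr_mem_disjSum.2 hx, rfl⟩
          · rintro ⟨y | y, hy, hxy⟩
            · exact absurd hxy (by simp [ee])
            · have : y = x := Sum.inr_injective hxy
              rw [← this]
              exact Finset.inr_mem_disjSum.1 hy
      val := by
        rintro (y | y) hy
        · rfl
        · rfl
      con := by
        intro s hs f hf
        obtain ⟨h1, h2, ⟨h3, h4⟩, ⟨h5, h6⟩, h7, h8, h9, h10⟩ := (key s hs f).1 hf
        refine ⟨h1, ?_, ?_⟩
        · have h11 := hg.change (inCube_inr hs) h2 (f (Sum.inl (pS _ _ (pS _ _ (A.leg i)))))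
          have e : (fun c => f (jj (Sum.inr c))) = fun c =>
              if g c = 1 then f (Sum.inl (pS _ _ (pS _ _ (A.leg i)))) else f (Sum.inr c) := by
            funext c
            by_cases hc : g c = 1
            · rw [j1 c hc, if_pos hc]
            · rw [j0 c hc, if_neg hc]
          show (fun c => f (jj (Sum.inr c))) ∈ B.Con (fun x => s (Sum.inr x))
          rw [e]
          exact h11
        · intro k
          show f (Sum.inl (pS _ _ (pS _ _ (A.leg k)))) = f (jj (Sum.inr (B.leg k)))
          by_cases k1 : k = p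
          · rw [k1, j0 _ gp]
            have h11 := hg.eq _ (inCube_inr hs) _ h2 _ hg.gj
            exact h3.trans (h8.trans (h11.symm.trans (h9.symm.trans (h6.symm.trans h7))))
          by_cases k2 : k = i
          · rw [k2, j1 _ hg.gi]
          by_cases k3 : k = j
          · rw [k3, j1 _ hg.gj]
            exact (h4.trans h5).symm
          rw [j0 _ (gk k k2 k3)]
          exact h10 k k1 k2 k3
      det := by
        intro s hs f hf h0
        obtain ⟨h1, h2, ⟨h3, h4⟩, ⟨h5, h6⟩, h7, h8, h9, h10⟩ := (key s hs f).1 hf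
        have z : ∀ q, f (Sum.inl (pS _ _ (pS _ _ q))) = 0 := fun q => h0 (Sum.inl q)
        have zp : f (Sum.inr (B.leg p)) = 0 := by
          have := h0 (Sum.inr (B.leg p))
          rwa [j0 _ gp] at this
        have zi : f (Sum.inr (B.leg i)) = 0 := h8.symm.trans (h3.symm.trans (z _))
        funext z'
        match z' with
        | Sum.inl (Sum.inl (Sum.inl q)) => exact z q
        | Sum.inl (Sum.inl (Sum.inr true)) => exact h3.symm.trans (z _)
        | Sum.inl (Sum.inl (Sum.inr false)) => exact h4.symm.trans (z _)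
        | Sum.inl (Sum.inr true) => exact h6.symm.trans (h7.trans zp)
        | Sum.inl (Sum.inr false) => exact h7.trans zp
        | Sum.inr c =>
          by_cases hc : g c = 1
          · exact (hg.eq _ (inCube_inr hs) _ h2 c hc).trans zi
          · have := h0 (Sum.inr c)
            rwa [j0 _ hc] at this
      ext := by
        rintro s hs f0 ⟨h1, h2, h3⟩
        have h2' : (fun c => f0 (Sum.inr c)) ∈ B.Con (fun x => s (Sum.inr x)) := h2
        let f : (pair (XF A p i j hi hj b) B).P → ZMod 2 :=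
          (Sum.elim (Sum.elim (Sum.elim (fun q => f0 (Sum.inl q))
              (fun c => if c then f0 (Sum.inl (A.leg p)) else f0 (Sum.inl (A.leg i))))
            (fun c => f0 (Sum.inl (A.leg p))))
            (fun c => if g c = 1 then f0 (Sum.inl (A.leg p)) else f0 (Sum.inr c)) :
            ((A.P ⊕ Bool) ⊕ Bool) ⊕ B.P → ZMod 2)
        have f1 : ∀ c, g c = 1 → f (Sum.inr c) = f0 (Sum.inl (A.leg p)) := fun c hc => if_pos hc
        have f2 : ∀ c, g c ≠ 1 → f (Sum.inr c) = f0 (Sum.inr c) := fun c hc => if_neg hc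
        have h4 := hg.eq _ (inCube_inr hs) _ h2'
        refine ⟨f, (key s hs f).2 ⟨h1, ?_, ⟨rfl, rfl⟩, ⟨?_, rfl⟩, ?_, ?_, ?_, ?_⟩, ?_⟩
        · exact hg.change (inCube_inr hs) h2' (f0 (Sum.inl (A.leg p)))
        · show f0 (Sum.inl (A.leg i)) = f0 (Sum.inl (A.leg j))
          rw [h3, h3]
          exact (h4 _ hg.gj).symm
        · rw [f2 _ gp]
          exact h3 p
        · rw [f1 _ hg.gi]
          rfl
        · rw [f1 _ hg.gj]
          rfl
        · intro k k1 k2 k3
          rw [f2 _ (gk k k2 k3)]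
          exact h3 k
        · rintro (q | c)
          · rfl
          · by_cases hc : g c = 1
            · rw [j1 _ hc]
              show f0 (Sum.inl (A.leg i)) = f0 (Sum.inr c)
              rw [h3]
              exact (h4 c hc).symm
            · rw [j0 _ hc, f2 _ hc]
      u := by
        rintro s hs (y | y) hy f hf
        · rfl
        · have hy' : y ∈ B.act := Finset.inr_mem_disjSum.1 hy
          obtain ⟨u1, u2⟩ := hg.u y hy'
          show f (Sum.inr (B.ua y)) + f (Sum.inr (B.ub y)) =
            f (jj (Sum.inr (B.ua y))) + f (jj (Sum.inr (B.ub y)))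
          rw [j0 _ (by rw [u1]; decide), j0 _ (by rw [u2]; decide)]
      leg := fun _ _ _ _ l => l.elim }

/-- (P4) The strand `p` passing over a free arc joining `i` and `j`. -/
theorem arcX (A B : PS Λ) (p i j : Λ) (hi : p ≠ i) (hj : p ≠ j) (h : i ≠ j) (b : Bool)
    (g : B.P → ZMod 2) (hg : FreeArc B i j g) (n : ℤ) :
    EE (attach (attach A (XL p i hi b)) (XL p j hj b)) B (n + 1) ↔ EE A B n := by
  have h1 : EE (XX A p i j hi hj b) B (n + 1) ↔
      EE (attach (attach A (frz (XL' p i hi b) (!(!b)))) (frz (XL' p j hj b) (!b))) B n := by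
    refine EE_R2w A B (XL' p j hj b) (XL' p i hi b) rfl rfl (!b) [] (gX A p i j hi hj b)
      g ?_ ?_ ?_ ?_ ?_ ?_ hg.con n
    · intro k
      show gX A p i j hi hj b ((XX A p i j hi hj b).leg k) = g (B.leg k)
      by_cases k1 : k = i
      · rw [k1, gX_i A p i j hi hj b h, hg.gi]
      by_cases k2 : k = j
      · rw [k2, gX_j A p i j hi hj b, hg.gj]
      rw [gX_k A p i j hi hj b h k k1 k2, hg.gl k k1 k2]
    · exact gX_u1 A p i j hi hj b
    · exact gX_u2 A p i j hi hj b
    · intro (y : (XX A p i j hi hj b).X) hy h2 h3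
      rcases X_cases _ _ y with rfl | ⟨y, rfl⟩
      · exact absurd rfl h2
      rcases X_cases _ _ y with rfl | ⟨y, rfl⟩
      · exact absurd rfl h3
      exact gX_uA A p i j hi hj b y
    · intro y hy
      rw [(hg.u y hy).1, (hg.u y hy).2, zero_add]
    · intro (s : (XX A p i j hi hj b).X → Bool) hs h2 h3
      have h2' : s (xN _ _) = b := h2.trans (Bool.not_not b)
      have h3' : s (xS _ _ (xN _ _)) = !b := h3
      exact gX_con A p i j hi hj b h s h2' h3'
  rw [Bool.not_not] at h1
  exact h1.trans (Iso.close (iso_arc A B p i j hi hj h b g hg) n)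

/-- the constraints of a single `X` letter in a pair -/
theorem X_pair_con (A B : PS Λ) (p v : Λ) (hp : p ≠ v) (b : Bool)
    (s : (pair (attach A (XL' p v hp b)) B).X → Bool)
    (f : (pair (attach A (XL' p v hp b)) B).P → ZMod 2) :
    f ∈ (pair (attach A (XL' p v hp b)) B).Con s ↔
      (fun q => f (Sum.inl (pS _ _ q))) ∈ A.Con (fun x => s (Sum.inl (xS _ _ x))) ∧
      (fun c => f (Sum.inr c)) ∈ B.Con (fun x => s (Sum.inr x)) ∧
      ((XL' p v hp b).mt (s (Sum.inl (xN _ _)))).ok (f (Sum.inl (pS _ _ (A.leg p))))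
        (f (Sum.inl (pS _ _ (A.leg v)))) (f (Sum.inl (pN _ _ false))) (f (Sum.inl (pN _ _ true))) ∧
      f (Sum.inl (pN _ _ false)) = f (Sum.inr (B.leg p)) ∧
      f (Sum.inl (pN _ _ true)) = f (Sum.inr (B.leg v)) ∧
      (∀ k, k ≠ p → k ≠ v → f (Sum.inl (pS _ _ (A.leg k))) = f (Sum.inr (B.leg k))) := by
  have e1 : f ∈ (pair (attach A (XL' p v hp b)) B).Con s ↔
    (fun q => f (Sum.inl q)) ∈ (attach A (XL' p v hp b)).Con (fun x => s (Sum.inl x)) ∧
    (fun c => f (Sum.inr c)) ∈ B.Con (fun x => s (Sum.inr x)) ∧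
    ∀ l, f (Sum.inl ((attach A (XL' p v hp b)).leg l)) = f (Sum.inr (B.leg l)) := Iff.rfl
  rw [e1, mem_attach_Con]
  have ep : (attach A (XL' p v hp b)).leg p = pN _ _ false := attach_leg_i _ (XL' p v hp b)
  have ev : (attach A (XL' p v hp b)).leg v = pN _ _ true := attach_leg_j _ (XL' p v hp b)
  constructor
  · rintro ⟨⟨h1, h2⟩, h3, h4⟩
    refine ⟨h1, h3, h2, ?_, ?_, ?_⟩
    · have := h4 p
      rwa [ep] at this
    · have := h4 v
      rwa [ev] at this
    · intro k k1 k2
      have := h4 k
      rwa [attach_leg_ne _ (XL' p v hp b) k1 k2] at this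
  · rintro ⟨h1, h3, h2, h4, h5, h6⟩
    refine ⟨⟨h1, h2⟩, h3, ?_⟩
    intro k
    by_cases k1 : k = p
    · rw [k1, ep]; exact h4
    by_cases k2 : k = v
    · rw [k2, ev]; exact h5
    rw [attach_leg_ne _ (XL' p v hp b) k1 k2]
    exact h6 k k1 k2

/-- the comparison for (P5) -/
theorem iso_neck (A B : PS Λ) (p q v : Λ) (hp : p ≠ v) (hq : q ≠ v) (hpq : p ≠ q) (b : Bool)
    (g : B.P → ZMod 2) (hg : FreeArc B p q g) :
    Iso (pair (attach A (XL' p v hp b)) B) (pair (attach A (XL' q v hq (!b))) B) := by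
  let jj : (pair (attach A (XL' q v hq (!b))) B).P → (pair (attach A (XL' p v hp b)) B).P :=
    (Sum.elim (Sum.elim (fun a => Sum.inl (pS _ _ a))
        (fun c => if c then Sum.inl (pN _ _ true) else Sum.inl (pS _ _ (A.leg p))))
      (fun c => if g c = 1 then Sum.inl (pS _ _ (A.leg p)) else Sum.inr c) :
      (A.P ⊕ Bool) ⊕ B.P → (attach A (XL' p v hp b)).P ⊕ B.P)
  let ee : (pair (attach A (XL' q v hq (!b))) B).X → (pair (attach A (XL' p v hp b)) B).X :=
    (id : Option A.X ⊕ B.X → Option A.X ⊕ B.X)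
  have j1 : ∀ c, g c = 1 → jj (Sum.inr c) = Sum.inl (pS _ _ (A.leg p)) :=
    fun c hc => if_pos hc
  have j0 : ∀ c, g c ≠ 1 → jj (Sum.inr c) = Sum.inr c := fun c hc => if_neg hc
  have gk : ∀ k, k ≠ p → k ≠ q → g (B.leg k) ≠ 1 := by
    intro k h1 h2
    rw [hg.gl k h1 h2]; decide
  have gv : g (B.leg v) ≠ 1 := gk v hp.symm hq.symm
  -- in the left system the new point of `p` has the value of the leg `q` of `A`
  have kq : ∀ s, InCube (pair (attach A (XL' p v hp b)) B).act
      (pair (attach A (XL' p v hp b)) B).val s →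
      ∀ f, f ∈ (pair (attach A (XL' p v hp b)) B).Con s →
      f (Sum.inl (pN _ _ false)) = f (Sum.inl (pS _ _ (A.leg q))) := by
    intro s hs f hf
    obtain ⟨h1, h2, h3, h4, h5, h6⟩ := (X_pair_con A B p v hp b s f).1 hf
    exact h4.trans ((hg.eq _ (inCube_inr hs) _ h2 _ hg.gj).symm.trans (h6 q hpq.symm hq).symm)
  refine ⟨jj, ee, ?_⟩
  exact
    { inj := fun x y h => h
      act := by
        intro x
        constructor
        · intro hx
          refine ⟨x, ?_, rfl⟩
          match x with
          | Sum.inl none =>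
            exact Finset.inl_mem_disjSum.2 ((mem_attach_act_N A (XL' q v hq (!b))).2 rfl)
          | Sum.inl (some x) =>
            exact Finset.inl_mem_disjSum.2 ((mem_attach_act A (XL' q v hq (!b)) x).2
              ((mem_attach_act A (XL' p v hp b) x).1 (Finset.inl_mem_disjSum.1 hx)))
          | Sum.inr x => exact Finset.inr_mem_disjSum.2 (Finset.inr_mem_disjSum.1 hx)
        · rintro ⟨x, hx, rfl⟩
          match x with
          | Sum.inl none =>
            exact Finset.inl_mem_disjSum.2 ((mem_attach_act_N A (XL' p v hp b)).2 rfl)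
          | Sum.inl (some x) =>
            exact Finset.inl_mem_disjSum.2 ((mem_attach_act A (XL' p v hp b) x).2
              ((mem_attach_act A (XL' q v hq (!b)) x).1 (Finset.inl_mem_disjSum.1 hx)))
          | Sum.inr x => exact Finset.inr_mem_disjSum.2 (Finset.inr_mem_disjSum.1 hx)
      val := by
        intro y hy
        match y with
        | Sum.inl none => rfl
        | Sum.inl (some x) => rfl
        | Sum.inr x => rfl
      con := by
        intro s hs f hf
        obtain ⟨h1, h2, h3, h4, h5, h6⟩ := (X_pair_con A B p v hp b s f).1 hf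
        have h7 := kq s hs f hf
        refine (X_pair_con A B q v hq (!b) _ _).2 ⟨h1, ?_, ?_, ?_, ?_, ?_⟩
        · have h11 := hg.change (inCube_inr hs) h2 (f (Sum.inl (pS _ _ (A.leg p))))
          have e : (fun c => f (jj (Sum.inr c))) = fun c =>
              if g c = 1 then f (Sum.inl (pS _ _ (A.leg p))) else f (Sum.inr c) := by
            funext c
            by_cases hc : g c = 1
            · rw [j1 c hc, if_pos hc]
            · rw [j0 c hc, if_neg hc]
          show (fun c => f (jj (Sum.inr c))) ∈ B.Con (fun x => s (Sum.inr x))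
          rw [e]
          exact h11
        · show ((XL' q v hq (!b)).mt (s (Sum.inl (xN _ _)))).ok
            (f (Sum.inl (pS _ _ (A.leg q)))) (f (Sum.inl (pS _ _ (A.leg v))))
            (f (Sum.inl (pS _ _ (A.leg p)))) (f (Sum.inl (pN _ _ true)))
          rw [← h7]
          revert h3
          cases b <;> cases s (Sum.inl (xN A _))
          · rintro ⟨k1, k2⟩
            exact ⟨k2.symm, k1⟩
          · rintro ⟨k1, k2⟩
            exact ⟨k2, k1.symm⟩
          · rintro ⟨k1, k2⟩
            exact ⟨k2, k1.symm⟩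
          · rintro ⟨k1, k2⟩
            exact ⟨k2.symm, k1⟩
        · show f (Sum.inl (pS _ _ (A.leg p))) = f (jj (Sum.inr (B.leg q)))
          rw [j1 _ hg.gj]
        · show f (Sum.inl (pN _ _ true)) = f (jj (Sum.inr (B.leg v)))
          rw [j0 _ gv]
          exact h5
        · intro k k1 k2
          show f (Sum.inl (pS _ _ (A.leg k))) = f (jj (Sum.inr (B.leg k)))
          by_cases k3 : k = p
          · rw [k3, j1 _ hg.gi]
          · rw [j0 _ (gk k k3 k1)]
            exact h6 k k3 k2
      det := by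
        intro s hs f hf h0
        obtain ⟨h1, h2, h3, h4, h5, h6⟩ := (X_pair_con A B p v hp b s f).1 hf
        have h7 := kq s hs f hf
        have z : ∀ a, f (Sum.inl (pS _ _ a)) = 0 := fun a => h0 (Sum.inl (Sum.inl a))
        have zv : f (Sum.inl (pN _ _ true)) = 0 := h0 (Sum.inl (Sum.inr true))
        funext z'
        match z' with
        | Sum.inl (Sum.inl a) => exact z a
        | Sum.inl (Sum.inr true) => exact zv
        | Sum.inl (Sum.inr false) => exact h7.trans (z _)
        | Sum.inr c =>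
          by_cases hc : g c = 1
          · exact (hg.eq _ (inCube_inr hs) _ h2 c hc).trans (h4.symm.trans (h7.trans (z _)))
          · have := h0 (Sum.inr c)
            rwa [j0 _ hc] at this
      ext := by
        intro s hs f0 hf0
        obtain ⟨h1, h2, h3, h4, h5, h6⟩ := (X_pair_con A B q v hq (!b) _ _).1 hf0
        have h2' : (fun c => f0 (Sum.inr c)) ∈ B.Con (fun x => s (Sum.inr x)) := h2
        have h7 := hg.eq _ (inCube_inr hs) _ h2'
        -- the value of the new point of `q` is that of the leg `p` of `A`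
        have h8 : f0 (Sum.inl (pN _ _ false)) = f0 (Sum.inl (pS _ _ (A.leg p))) :=
          h4.trans ((h7 _ hg.gj).trans (h6 p hpq hp).symm)
        let f : (pair (attach A (XL' p v hp b)) B).P → ZMod 2 :=
          (Sum.elim (Sum.elim (fun a => f0 (Sum.inl (pS _ _ a)))
              (fun c => if c then f0 (Sum.inl (pN _ _ true)) else f0 (Sum.inl (pS _ _ (A.leg q)))))
            (fun c => if g c = 1 then f0 (Sum.inl (pS _ _ (A.leg q))) else f0 (Sum.inr c)) :
            (A.P ⊕ Bool) ⊕ B.P → ZMod 2)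
        have f1 : ∀ c, g c = 1 → f (Sum.inr c) = f0 (Sum.inl (pS _ _ (A.leg q))) :=
          fun c hc => if_pos hc
        have f2 : ∀ c, g c ≠ 1 → f (Sum.inr c) = f0 (Sum.inr c) := fun c hc => if_neg hc
        refine ⟨f, (X_pair_con A B p v hp b s f).2 ⟨h1, ?_, ?_, ?_, ?_, ?_⟩, ?_⟩
        · exact hg.change (inCube_inr hs) h2' (f0 (Sum.inl (pS _ _ (A.leg q))))
        · show ((XL' p v hp b).mt (s (Sum.inl (xN _ _)))).ok
            (f0 (Sum.inl (pS _ _ (A.leg p)))) (f0 (Sum.inl (pS _ _ (A.leg v))))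
            (f0 (Sum.inl (pS _ _ (A.leg q)))) (f0 (Sum.inl (pN _ _ true)))
          rw [← h8]
          have h3' : ((XL' q v hq (!b)).mt (s (Sum.inl (xN A (XL' p v hp b))))).ok
              (f0 (Sum.inl (pS _ _ (A.leg q)))) (f0 (Sum.inl (pS _ _ (A.leg v))))
              (f0 (Sum.inl (pN _ _ false))) (f0 (Sum.inl (pN _ _ true))) := h3
          revert h3'
          cases b <;> cases s (Sum.inl (xN A _))
          · rintro ⟨k1, k2⟩
            exact ⟨k2, k1.symm⟩
          · rintro ⟨k1, k2⟩
            exact ⟨k2.symm, k1⟩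
          · rintro ⟨k1, k2⟩
            exact ⟨k2.symm, k1⟩
          · rintro ⟨k1, k2⟩
            exact ⟨k2, k1.symm⟩
        · show f0 (Sum.inl (pS _ _ (A.leg q))) = f (Sum.inr (B.leg p))
          rw [f1 _ hg.gi]
        · show f0 (Sum.inl (pN _ _ true)) = f (Sum.inr (B.leg v))
          rw [f2 _ gv]
          exact h5
        · intro k k1 k2
          show f0 (Sum.inl (pS _ _ (A.leg k))) = f (Sum.inr (B.leg k))
          by_cases k3 : k = q
          · rw [k3, f1 _ hg.gj]
          · rw [f2 _ (gk k k1 k3)]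
            exact h6 k k3 k2
        · intro z'
          match z' with
          | Sum.inl (Sum.inl a) => rfl
          | Sum.inl (Sum.inr true) => rfl
          | Sum.inl (Sum.inr false) => exact h8.symm
          | Sum.inr c =>
            by_cases hc : g c = 1
            · rw [j1 _ hc]
              show f0 (Sum.inl (pS _ _ (A.leg p))) = f0 (Sum.inr c)
              exact (h6 p hpq hp).trans (h7 c hc).symm
            · rw [j0 _ hc, f2 _ hc]
      u := by
        intro s hs y hy f hf
        have h7 := kq s hs f hf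
        match y with
        | Sum.inl none =>
          show f (Sum.inl (pS _ _ (A.leg p))) + f (Sum.inl (Mt.pick (XL' p v hp b).m0
              (XL' p v hp b).m1 (pS _ _ (A.leg v)) (pN _ _ false) (pN _ _ true))) =
            f (Sum.inl (pS _ _ (A.leg q))) + f (jj (Sum.inl (Mt.pick (XL' q v hq (!b)).m0
              (XL' q v hq (!b)).m1 (pS _ _ (A.leg v)) (pN _ _ false) (pN _ _ true))))
          rw [XL'_pick, XL'_pick, h7, add_comm]
          rfl
        | Sum.inl (some x) => rfl
        | Sum.inr y =>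
          have hy' : y ∈ B.act := Finset.inr_mem_disjSum.1 hy
          obtain ⟨u1, u2⟩ := hg.u y hy'
          show f (Sum.inr (B.ua y)) + f (Sum.inr (B.ub y)) =
            f (jj (Sum.inr (B.ua y))) + f (jj (Sum.inr (B.ub y)))
          rw [j0 _ (by rw [u1]; decide), j0 _ (by rw [u2]; decide)]
      leg := fun _ _ _ _ l => l.elim }

/-- (P5) If `p` and `q` are joined by a free arc, then `p` crossing the leg `v` last is the
same as `q` crossing the leg `v` last, with the smoothings exchanged. -/
theorem neck (A B : PS Λ) (p q v : Λ) (hp : p ≠ v) (hq : q ≠ v) (hpq : p ≠ q) (b : Bool)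
    (g : B.P → ZMod 2) (hg : FreeArc B p q g) (n : ℤ) :
    EE (attach A (XL p v hp b)) B n ↔ EE (attach A (XL q v hq (!b))) B n :=
  Iso.close (iso_neck A B p q v hp hq hpq b g hg) n

/-- (P7) First Reidemeister move. -/
theorem R1Y (A B : PS Λ) (i j : Λ) (h : i ≠ j) (b : Bool)
    (g : B.P → ZMod 2) (hg : FreeArc B i j g) (n : ℤ) :
    EE (attach A (YL i j h b)) B (n + if b then 0 else 1) ↔ EE A B n := by
  have hf : (YL i j h b).fr = none := rfl
  have hI : (YL i j h b).mt b = Mt.I := by cases b <;> rfl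
  have hE : (YL i j h b).mt (!b) = Mt.E := by cases b <;> rfl
  let gW : (attach A (YL i j h b)).P → ZMod 2 :=
    (Sum.elim (fun _ => 0) (fun _ => 1) : A.P ⊕ Bool → ZMod 2)
  have e0 : (if b then (0 : ℤ) else 1) = if !b then 1 else 0 := by cases b <;> rfl
  rw [e0, EE_R1 (attach A (YL i j h b)) B gW g (x := xN _ _) (!b)
    ((mem_attach_act_N _ _).2 hf) ?_ ?_ ?_ ?_ ?_ hg.con n]
  · rw [← attach_frozen A (YL i j h b) hf (!(!b))]
    refine Iso.EE (Iso.frozenI _ (frz (YL i j h b) (!(!b))) (!(!b)) rfl ?_) B n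
    show (YL i j h b).mt (!(!b)) = Mt.I
    rw [Bool.not_not, hI]
  · intro k
    by_cases k1 : k = i
    · have e : (attach A (YL i j h b)).leg k = pN _ _ false := by
        rw [k1]; exact attach_leg_i _ (YL i j h b)
      rw [e, k1, hg.gi]
      rfl
    by_cases k2 : k = j
    · have e : (attach A (YL i j h b)).leg k = pN _ _ true := by
        rw [k2]; exact attach_leg_j _ (YL i j h b)
      rw [e, k2, hg.gj]
      rfl
    have e : (attach A (YL i j h b)).leg k = pS _ _ (A.leg k) := attach_leg_ne _ _ k1 k2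
    rw [e, hg.gl k k1 k2]
    rfl
  · rw [attach_ua_N, attach_ub_N]
    cases b <;> exact zero_add 1
  · intro y hy hne
    rcases X_cases _ _ y with rfl | ⟨y, rfl⟩
    · exact absurd rfl hne
    · exact zero_add 0
  · intro y hy
    rw [(hg.u y hy).1, (hg.u y hy).2, zero_add]
  · intro s hs hx
    rw [mem_attach_Con, hx, hE]
    exact ⟨Submodule.zero_mem _, rfl, rfl⟩

/-- (P6) Third Reidemeister move, basic form. -/
theorem R3base (A B : PS Λ) (p i j : Λ) (hi : p ≠ i) (hj : p ≠ j) (h : i ≠ j) (n : ℤ) :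
    EE (attach (attach (attach A (XL p i hi false)) (XL p j hj false)) (YL i j h false)) B n ↔
    EE (attach (attach (attach A (YL i j h false)) (XL p i hi false)) (XL p j hj false)) B n :=
  R3raw A B p i j hi hj h n

end PS

end Spg
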