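import Pool.Agent.H85.SpgCap
import Pool.Agent.H85.SpgRel
import Pool.Agent.H85.SpgDiag

/-!
# Closings and their traces (layer M9)
-/

set_option linter.unusedSectionVars false

open Function

namespace Spg

/-! ### Closings -/

section Closing

variable {N : Type} [Fintype N] [DecidableEq N]

/-- The pairing of adjacent legs given by an alternating colouring. -/
def mu (next : Equiv.Perm N) (c : N → Bool) (v : N) : N :=
  if c v then next v else next.symm v

theorem mu_mu {next : Equiv.Perm N} {c : N → Bool} (hc : ∀ v, c (next v) = !c v) (v : N) :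
    mu next c (mu next c v) = v := by
  have h2 : c (next.symm v) = !c v := by
    have := hc (next.symm v)
    rw [Equiv.apply_symm_apply] at this
    rw [this, Bool.not_not]
  cases h : c v
  · rw [h] at h2
    have e : mu next c v = next.symm v := by simp [mu, h]
    rw [e]
    simp [mu, h2]
  · have e : mu next c v = next v := by simp [mu, h]
    have h3 := hc v
    rw [h] at h3
    rw [e]
    simp [mu, h3]

theorem next_ne {next : Equiv.Perm N} {c : N → Bool} (hc : ∀ v, c (next v) = !c v) (v : N) :
    v ≠ next v := by
  intro h
  have h1 := hc v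
  rw [← h] at h1
  cases h2 : c v <;> rw [h2] at h1 <;> exact absurd h1 (by decide)

theorem mu_ne {next : Equiv.Perm N} {c : N → Bool} (hc : ∀ v, c (next v) = !c v) (v : N) :
    mu next c v ≠ v := by
  intro h
  cases h2 : c v
  · have e : mu next c v = next.symm v := by simp [mu, h2]
    rw [e] at h
    exact next_ne hc v ((Equiv.symm_apply_eq next).mp h)
  · have e : mu next c v = next v := by simp [mu, h2]
    rw [e] at h
    exact next_ne hc v h.symm

/-- An adjacent letter: a letter at the legs `v`, `next v`, with smoothings `I, E` (`b = false`) or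
`E, I` (`b = true`), active (`fr = none`) or frozen. -/
structure AL (N : Type) where
  v : N
  b : Bool
  fr : Option Bool

/-- The letter of an adjacent letter. -/
def AL.toL {next : Equiv.Perm N} {c : N → Bool} (hc : ∀ v, c (next v) = !c v) (a : AL N) :
    Letter N :=
  ⟨a.v, next a.v, next_ne hc a.v, if a.b then Mt.E else Mt.I, if a.b then Mt.I else Mt.E,
    by cases a.b <;> simp, a.fr⟩

/-- The standard closing with a word of adjacent letters attached. -/
def KK0 {next : Equiv.Perm N} {c : N → Bool} (hc : ∀ v, c (next v) = !c v) (W : List (AL N)) :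
    PS N :=
  PS.attachW (PS.base (mu next c) (mu_mu hc) (mu_ne hc)) (W.map (AL.toL hc))

/-- The pairing of the two extra legs `p`, `q`. -/
theorem muP_muP {next : Equiv.Perm N} {c : N → Bool} (hc : ∀ v, c (next v) = !c v)
    (v : N ⊕ Bool) : Sum.map (mu next c) (!·) (Sum.map (mu next c) (!·) v) = v := by
  cases v with
  | inl v => simp [mu_mu hc]
  | inr b => simp

theorem muP_ne {next : Equiv.Perm N} {c : N → Bool} (hc : ∀ v, c (next v) = !c v)
    (v : N ⊕ Bool) : Sum.map (mu next c) (!·) v ≠ v := by
  cases v with
  | inl v =>
    intro h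
    exact mu_ne hc v (Sum.inl_injective h)
  | inr b =>
    intro h
    exact Bool.not_ne_self b (Sum.inr_injective h)

/-- The closing with an additional arc joining the two extra legs `p = inr false` and
`q = inr true`. -/
def KP {next : Equiv.Perm N} {c : N → Bool} (hc : ∀ v, c (next v) = !c v) (W : List (AL N)) :
    PS (N ⊕ Bool) :=
  PS.attachW (PS.base (Sum.map (mu next c) (!·)) (muP_muP hc) (muP_ne hc))
    (W.map (fun a => (AL.toL hc a).map Sum.inl Sum.inl_injective))

/-- The finger: the strand `p` crosses `v`, `next v`, ..., `k` legs. -/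
def fing (next : Equiv.Perm N) (b : Bool) (v : N) : ℕ → List (Letter (N ⊕ Bool))
  | 0 => []
  | k + 1 => PS.XL (Sum.inr false) (Sum.inl ((next^[k]) v)) (by simp) b :: fing next b v k

/-- Every permutation with even cycles has an alternating colouring. -/
theorem exists_colour (next : Equiv.Perm N) (h : ∀ v, Even (minimalPeriod next v)) :
    ∃ c : N → Bool, ∀ v, c (next v) = !c v := by
  classical
  let S := Equiv.Perm.SameCycle.setoid next
  let r : N → N := fun v => (Quotient.mk S v).out
  have hr : ∀ v, next.SameCycle (r v) v := fun v => Quotient.mk_out (s := S) v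
  choose i hi using hr
  refine ⟨fun v => decide (Even (i v)), fun v => ?_⟩
  have h1 : r (next v) = r v := by
    have : (Quotient.mk S (next v)) = Quotient.mk S v :=
      Quotient.sound ((Equiv.Perm.sameCycle_apply_left (f := next)).mpr
        (Equiv.Perm.SameCycle.refl next v))
    show (Quotient.mk S (next v)).out = (Quotient.mk S v).out
    rw [this]
  have h2 := hi (next v)
  rw [h1] at h2
  have h3 : (next ^ (i (next v) - i v - 1)) (r v) = r v := by
    have h4 : (next ^ (i (next v))) (r v) = (next ^ (1 + i v)) (r v) := by
      rw [h2, zpow_add, Equiv.Perm.mul_apply, hi v, zpow_one]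
    have h5 : i (next v) - i v - 1 = -(1 + i v) + i (next v) := by ring
    rw [h5, zpow_add, Equiv.Perm.mul_apply, h4, zpow_neg, ← Equiv.Perm.mul_apply,
      inv_mul_cancel, Equiv.Perm.one_apply]
  have h6 : ((minimalPeriod next (r v) : ℕ) : ℤ) ∣ i (next v) - i v - 1 :=
    (MulAction.zpow_smul_eq_iff_minimalPeriod_dvd (a := next) (b := r v)).mp h3
  have h7 : (2 : ℤ) ∣ i (next v) - i v - 1 := by
    refine dvd_trans ?_ h6
    exact_mod_cast (h (r v)).two_dvd
  rw [Bool.eq_iff_iff]
  simp only [decide_eq_true_eq, Bool.not_eq_true', decide_eq_false_iff_not]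
  rw [Int.even_iff, Int.even_iff]
  omega

/-- The matching of the legs defined by a flat closing (all letters frozen), by recursion:
a frozen `E` at `v, next v` joins `v` with `next v` and their old partners with each other. -/
def trace (next : Equiv.Perm N) (c : N → Bool) : List (AL N) → N → N
  | [] => mu next c
  | a :: W =>
    let m := trace next c W
    if a.fr = some (!a.b) then
      (fun x => if x = a.v then next a.v else if x = next a.v then a.v
        else if x = m a.v then m (next a.v)
        else if x = m (next a.v) then m a.v else m x)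
    else m

/-- A side function of the chord `(v, m v)`. -/
structure Side (next : Equiv.Perm N) (m : N → N) (F : N → ZMod 2) (v : N) : Prop where
  jump : ∀ w, F w + F (next.symm w) = (if w = v then 1 else 0) + (if w = m v then 1 else 0)
  con : ∀ w, w ≠ v → w ≠ m v → F (m w) = F w

/-- A matching with side functions. -/
structure Sided (next : Equiv.Perm N) (m : N → N) : Prop where
  inv : ∀ v, m (m v) = v
  ne : ∀ v, m v ≠ v
  same : ∀ v, next.SameCycle v (m v)
  side : ∀ v, ∃ F, Side next m F v

theorem Side.congr {next : Equiv.Perm N} {m : N → N} {F : N → ZMod 2} {v : N}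
    (h : Side next m F v) (hm : m (m v) = v) : Side next m F (m v) := by
  refine ⟨fun w => ?_, fun w h1 h2 => ?_⟩
  · rw [h.jump w, hm, add_comm]
  · rw [hm] at h2
    exact h.con w h2 h1

theorem zmod2_of_add {a b : ZMod 2} (h : a + b = 0) : a = b := by
  revert h; revert a b; decide

theorem zmod2_of_add_one {a b : ZMod 2} (h : a + b = 1) : a = b + 1 := by
  revert h; revert a b; decide

theorem Sided.noncrossing {next : Equiv.Perm N} {m : N → N} (h : Sided next m) :
    Diagram.Noncrossing next m := by
  refine ⟨h.inv, h.ne, h.same, ?_⟩
  rintro v w ⟨i, j, hi, hij, hj, hw, hv⟩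
  obtain ⟨F, hF⟩ := h.side v
  have hstep : ∀ k, next.symm ((next^[k + 1]) v) = (next^[k]) v := by
    intro k
    rw [Function.iterate_succ_apply', Equiv.symm_apply_apply]
  have hinj : ∀ a b, a < minimalPeriod next v → b < minimalPeriod next v →
      (next^[a]) v = (next^[b]) v → a = b := by
    intro a b ha hb hab
    exact Function.iterate_injOn_Iio_minimalPeriod ha hb hab
  have hp : 0 < minimalPeriod next v := by omega
  have h1 : ∀ k, k < j → F ((next^[k]) v) = F v := by
    intro k
    induction k with
    | zero => intro _; rfl
    | succ k ih =>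
      intro hk
      have e := hF.jump ((next^[k + 1]) v)
      rw [hstep, ih (by omega)] at e
      rw [if_neg, if_neg, add_zero] at e
      · exact zmod2_of_add e
      · intro h2
        rw [← hv] at h2
        have := hinj _ _ (by omega) hj h2
        omega
      · intro h2
        have := hinj (k + 1) 0 (by omega) hp h2
        omega
  have h2 : ∀ k, j + k < minimalPeriod next v → F ((next^[j + k]) v) = F v + 1 := by
    intro k
    induction k with
    | zero =>
      intro _
      obtain ⟨j', rfl⟩ : ∃ j', j = j' + 1 := ⟨j - 1, by omega⟩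
      have e := hF.jump ((next^[j' + 1]) v)
      rw [hstep, h1 j' (by omega)] at e
      rw [if_neg, if_pos hv, zero_add] at e
      · exact zmod2_of_add_one e
      · intro h2
        have := hinj (j' + 1) 0 (by omega) hp h2
        omega
    | succ k ih =>
      intro hk
      have e := hF.jump ((next^[j + k + 1]) v)
      rw [hstep, ih (by omega)] at e
      rw [if_neg, if_neg, add_zero] at e
      · exact zmod2_of_add e
      · intro h2
        rw [← hv] at h2
        have := hinj _ _ (by omega) hj h2
        omega
      · intro h2
        have := hinj (j + k + 1) 0 (by omega) hp h2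
        omega
  -- `m w` is in the cycle
  have hwv : w ≠ v := by
    intro h3
    rw [← hw] at h3
    have := hinj i 0 (by omega) hp h3
    omega
  have hwm : w ≠ m v := by
    intro h3
    rw [← hw, ← hv] at h3
    have := hinj i j (by omega) hj h3
    omega
  have hFw : F (m w) = F v := by
    rw [hF.con w hwv hwm, ← hw, h1 i hij]
  have hsame : next.SameCycle v (m w) := by
    refine Equiv.Perm.SameCycle.trans ?_ (h.same w)
    exact ⟨i, by rw [zpow_natCast, Equiv.Perm.coe_pow]; exact hw⟩
  obtain ⟨z, hz⟩ := hsame
  set p := minimalPeriod next v with hpdef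
  have hz2 : (next ^ (z % (p : ℤ))) v = m w := by
    have := MulAction.zpow_smul_mod_minimalPeriod (a := next) (b := v) z
    rw [← hz]
    exact this
  have hz0 : 0 ≤ z % (p : ℤ) := Int.emod_nonneg _ (by omega)
  have hz1 : z % (p : ℤ) < p := Int.emod_lt_of_pos _ (by omega)
  obtain ⟨k, hk⟩ := Int.eq_ofNat_of_zero_le hz0
  rw [hk] at hz2 hz1
  rw [zpow_natCast, Equiv.Perm.coe_pow] at hz2
  have hkp : k < p := by exact_mod_cast hz1
  have hkj : k < j := by
    by_contra hkj
    have h3 := h2 (k - j) (by omega)
    rw [show j + (k - j) = k by omega, hz2, hFw] at h3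
    exact absurd h3 (by generalize F v = t; revert t; decide)
  have hk0 : k ≠ 0 := by
    rintro rfl
    have h4 : v = m w := hz2
    apply hwm
    rw [h4, h.inv]
  exact ⟨k, j, by omega, hkj, hj, hz2, hv⟩

theorem sided_mu {next : Equiv.Perm N} {c : N → Bool} (hc : ∀ v, c (next v) = !c v) :
    Sided next (mu next c) := by
  have key : ∀ v, c v = true → Side next (mu next c) (fun w => if w = v then 1 else 0) v := by
    intro v hv
    have e : mu next c v = next v := by simp [mu, hv]
    refine ⟨fun w => ?_, fun w h1 h2 => ?_⟩
    · rw [e]
      simp only [Equiv.symm_apply_eq]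
    · rw [if_neg, if_neg h1]
      intro h3
      apply h2
      rw [← h3, mu_mu hc]
  refine ⟨mu_mu hc, mu_ne hc, fun v => ?_, fun v => ?_⟩
  · cases h : c v
    · have e : mu next c v = next.symm v := by simp [mu, h]
      rw [e, Equiv.Perm.sameCycle_symm_apply_right]
    · have e : mu next c v = next v := by simp [mu, h]
      rw [e, Equiv.Perm.sameCycle_apply_right]
  · cases h : c v
    · have h2 : c (mu next c v) = true := by
        have e : mu next c v = next.symm v := by simp [mu, h]
        rw [e]
        have := hc (next.symm v)
        rw [Equiv.apply_symm_apply, h] at this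
        simpa using this.symm
      have h3 := key _ h2
      have h4 := h3.congr (by rw [mu_mu hc])
      rw [mu_mu hc] at h4
      exact ⟨_, h4⟩
    · exact ⟨_, key v h⟩

/-- Surgery along adjacent legs. -/
def surg (next : Equiv.Perm N) (m : N → N) (l : N) : N → N :=
  fun x => if x = l then next l else if x = next l then l
        else if x = m l then m (next l)
        else if x = m (next l) then m l else m x

theorem surg_self {next : Equiv.Perm N} {m : N → N} (h : Sided next m) {l : N}
    (hl : m l = next l) : surg next m l = m := by
  have hl2 : m (next l) = l := by rw [← hl, h.inv]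
  funext x
  unfold surg
  split_ifs with h1 h2 h3 h4
  · rw [h1, hl]
  · rw [h2, hl2]
  · exact absurd (h3.trans hl) h2
  · exact absurd (h4.trans hl2) h1
  · rfl

theorem Sided.surg {next : Equiv.Perm N} {m : N → N} (h : Sided next m) {l : N}
    (hne : l ≠ next l) : Sided next (surg next m l) := by
  by_cases hl : m l = next l
  · rw [surg_self h hl]; exact h
  -- distinctness
  have hxl : m l ≠ l := h.ne l
  have hyl' : m (next l) ≠ next l := h.ne _
  have hyl : m (next l) ≠ l := by
    intro h1
    apply hl
    rw [← h1, h.inv, h1]
  have hxy : m l ≠ m (next l) := by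
    intro h1
    have := congrArg m h1
    rw [h.inv, h.inv] at this
    exact hne this
  have minj : ∀ a b, m a = m b → a = b := by
    intro a b hab
    have := congrArg m hab
    rwa [h.inv, h.inv] at this
  -- values of the new matching
  have e1 : Spg.surg next m l l = next l := by simp [Spg.surg]
  have e2 : Spg.surg next m l (next l) = l := by
    unfold Spg.surg; rw [if_neg (Ne.symm hne), if_pos rfl]
  have e3 : Spg.surg next m l (m l) = m (next l) := by
    unfold Spg.surg; rw [if_neg hxl, if_neg hl, if_pos rfl]
  have e4 : Spg.surg next m l (m (next l)) = m l := by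
    unfold Spg.surg; rw [if_neg hyl, if_neg hyl', if_neg (Ne.symm hxy), if_pos rfl]
  have e5 : ∀ w, w ≠ l → w ≠ next l → w ≠ m l → w ≠ m (next l) →
      Spg.surg next m l w = m w := by
    intro w h1 h2 h3 h4
    unfold Spg.surg; rw [if_neg h1, if_neg h2, if_neg h3, if_neg h4]
  have inv5 : ∀ w, w ≠ l → w ≠ next l → w ≠ m l → w ≠ m (next l) →
      (m w ≠ l ∧ m w ≠ next l ∧ m w ≠ m l ∧ m w ≠ m (next l)) := by
    intro w h1 h2 h3 h4
    refine ⟨fun h5 => h3 ?_, fun h5 => h4 ?_, fun h5 => h1 (minj _ _ h5),
      fun h5 => h2 (minj _ _ h5)⟩
    · rw [← h5, h.inv]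
    · rw [← h5, h.inv]
  have sll : next.SameCycle l (next l) := by
    rw [Equiv.Perm.sameCycle_apply_right]
  have cases5 : ∀ w, w = l ∨ w = next l ∨ w = m l ∨ w = m (next l) ∨
      (w ≠ l ∧ w ≠ next l ∧ w ≠ m l ∧ w ≠ m (next l)) := by
    intro w
    tauto
  have hsymm : next.symm (next l) = l := Equiv.symm_apply_apply _ _
  refine ⟨fun w => ?_, fun w => ?_, fun w => ?_, ?_⟩
  · rcases cases5 w with rfl | rfl | rfl | rfl | ⟨h1, h2, h3, h4⟩
    · rw [e1, e2]
    · rw [e2, e1]
    · rw [e3, e4]
    · rw [e4, e3]
    · obtain ⟨k1, k2, k3, k4⟩ := inv5 w h1 h2 h3 h4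
      rw [e5 w h1 h2 h3 h4, e5 _ k1 k2 k3 k4, h.inv]
  · rcases cases5 w with rfl | rfl | rfl | rfl | ⟨h1, h2, h3, h4⟩
    · rw [e1]; exact Ne.symm hne
    · rw [e2]; exact hne
    · rw [e3]; exact Ne.symm hxy
    · rw [e4]; exact hxy
    · rw [e5 w h1 h2 h3 h4]; exact h.ne w
  · rcases cases5 w with rfl | rfl | rfl | rfl | ⟨h1, h2, h3, h4⟩
    · rw [e1]; exact sll
    · rw [e2]; exact sll.symm
    · rw [e3]; exact ((h.same l).symm.trans sll).trans (h.same _)
    · rw [e4]; exact ((h.same _).symm.trans sll.symm).trans (h.same _)
    · rw [e5 w h1 h2 h3 h4]; exact h.same w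
  · -- side functions
    have s1 : Side next (Spg.surg next m l) (fun w => if w = l then 1 else 0) l := by
      refine ⟨fun w => ?_, fun w h1 h2 => ?_⟩
      · rw [e1]
        simp only [Equiv.symm_apply_eq]
      · rw [e1] at h2
        rw [if_neg h1, if_neg]
        rcases cases5 w with rfl | rfl | rfl | rfl | ⟨h3, h4, h5, h6⟩
        · exact absurd rfl h1
        · exact absurd rfl h2
        · rw [e3]; exact hyl
        · rw [e4]; exact hxl
        · rw [e5 w h3 h4 h5 h6]; exact (inv5 w h3 h4 h5 h6).1
    obtain ⟨F1, hF1⟩ := h.side l
    obtain ⟨F2, hF2⟩ := h.side (next l)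
    have s3 : Side next (Spg.surg next m l)
        (fun w => F1 w + F2 w + if w = l then 1 else 0) (m l) := by
      have jj : ∀ w, (F1 w + F2 w + if w = l then 1 else 0) +
          (F1 (next.symm w) + F2 (next.symm w) + if next.symm w = l then 1 else 0) =
          (if w = m l then 1 else 0) + (if w = m (next l) then 1 else 0) := by
        intro w
        have a1 := hF1.jump w
        have a2 := hF2.jump w
        simp only [Equiv.symm_apply_eq]
        have a3 : (F1 w + F2 w + if w = l then 1 else 0) +
          (F1 (next.symm w) + F2 (next.symm w) + if w = next l then 1 else 0) =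
          (F1 w + F1 (next.symm w)) + (F2 w + F2 (next.symm w)) +
          ((if w = l then 1 else 0) + (if w = next l then 1 else 0)) := by ring
        rw [a3, a1, a2]
        generalize (if w = l then (1 : ZMod 2) else 0) = x1
        generalize (if w = next l then (1 : ZMod 2) else 0) = x2
        generalize (if w = m l then (1 : ZMod 2) else 0) = x3
        generalize (if w = m (next l) then (1 : ZMod 2) else 0) = x4
        revert x1 x2 x3 x4
        decide
      have jl := jj (next l)
      rw [hsymm, if_neg (Ne.symm hl), if_neg (Ne.symm hyl'), add_zero] at jl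
      refine ⟨fun w => ?_, fun w h1 h2 => ?_⟩
      · rw [e3]; exact jj w
      · rw [e3] at h2
        rcases cases5 w with rfl | rfl | rfl | rfl | ⟨h3, h4, h5, h6⟩
        · rw [e1]; exact zmod2_of_add jl
        · rw [e2]; exact (zmod2_of_add jl).symm
        · exact absurd rfl h1
        · exact absurd rfl h2
        · rw [e5 w h3 h4 h5 h6]
          rw [hF1.con w h3 h5, hF2.con w h4 h6, if_neg h3, if_neg (inv5 w h3 h4 h5 h6).1]
    intro v
    rcases cases5 v with h0 | h0 | h0 | h0 | ⟨h3, h4, h5, h6⟩
    · rw [h0]; exact ⟨_, s1⟩
    · have := s1.congr (by rw [e1, e2])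
      rw [e1] at this
      rw [h0]; exact ⟨_, this⟩
    · rw [h0]; exact ⟨_, s3⟩
    · have := s3.congr (by rw [e3, e4])
      rw [e3] at this
      rw [h0]; exact ⟨_, this⟩
    · obtain ⟨F, hF⟩ := h.side v
      have ev := e5 v h3 h4 h5 h6
      obtain ⟨k1, k2, k3, k4⟩ := inv5 v h3 h4 h5 h6
      have f1 : F (next l) = F l := by
        have := hF.jump (next l)
        rw [hsymm, if_neg (Ne.symm h4), if_neg (Ne.symm k2), add_zero] at this
        exact zmod2_of_add this
      have f2 : F (m l) = F l := hF.con l (Ne.symm h3) (Ne.symm k1)
      have f3 : F (m (next l)) = F (next l) := hF.con (next l) (Ne.symm h4) (Ne.symm k2)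
      refine ⟨F, fun w => ?_, fun w h7 h8 => ?_⟩
      · rw [ev]; exact hF.jump w
      · rw [ev] at h8
        rcases cases5 w with rfl | rfl | rfl | rfl | ⟨g3, g4, g5, g6⟩
        · rw [e1, f1]
        · rw [e2, f1]
        · rw [e3, f3, f1, f2]
        · rw [e4, f3, f1, f2]
        · rw [e5 w g3 g4 g5 g6]; exact hF.con w h7 h8

theorem trace_cons (next : Equiv.Perm N) (c : N → Bool) (a : AL N) (W : List (AL N)) :
    trace next c (a :: W) = if a.fr = some (!a.b) then surg next (trace next c W) a.v
      else trace next c W := by
  rfl

theorem trace_sided {next : Equiv.Perm N} {c : N → Bool} (hc : ∀ v, c (next v) = !c v)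
    (W : List (AL N)) : Sided next (trace next c W) := by
  induction W with
  | nil => exact sided_mu hc
  | cons a W ih =>
    rw [trace_cons]
    split_ifs
    · exact ih.surg (next_ne hc a.v)
    · exact ih

/-- (M9b) Traces of flat closings are noncrossing. -/
theorem trace_noncrossing {next : Equiv.Perm N} {c : N → Bool} (hc : ∀ v, c (next v) = !c v)
    (W : List (AL N)) : Diagram.Noncrossing next (trace next c W) :=
  (trace_sided hc W).noncrossing

/-- Functions on the legs which are constant on the arcs of a flat closing extend to its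
points. -/
theorem flat_ext {next : Equiv.Perm N} {c : N → Bool} (hc : ∀ v, c (next v) = !c v)
    (W : List (AL N)) (hW : ∀ a ∈ W, ∃ b, a.fr = some b) (g : N → ZMod 2)
    (hg : ∀ v, g (trace next c W v) = g v) :
    ∃ f ∈ (KK0 hc W).Con (KK0 hc W).val, ∀ v, f ((KK0 hc W).leg v) = g v := by
  induction W generalizing g with
  | nil => exact ⟨g, hg, fun v => rfl⟩
  | cons a W ih =>
    have hS := trace_sided hc W
    obtain ⟨b, hb⟩ := hW a (List.mem_cons_self ..)
    have hW' : ∀ a ∈ W, ∃ b, a.fr = some b := fun a' h => hW a' (List.mem_cons_of_mem _ h)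
    set m := trace next c W with hm
    have hne := next_ne hc a.v
    rw [trace_cons] at hg
    -- it suffices to find the old function
    suffices H : ∃ g' : N → ZMod 2, (∀ v, g' (m v) = g' v) ∧
        (∀ v, v ≠ a.v → v ≠ next a.v → g' v = g v) ∧
        ((AL.toL hc a).mt b).ok (g' a.v) (g' (next a.v)) (g a.v) (g (next a.v)) by
      obtain ⟨g', h1, h2, h3⟩ := H
      obtain ⟨f', hf', hf2⟩ := ih hW' g' h1
      refine ⟨Sum.elim f' (fun t => if t = true then g (next a.v) else g a.v), ⟨?_, ?_⟩, ?_⟩
      · exact hf'
      · have e : (KK0 hc (a :: W)).val none = b := by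
          show (AL.toL hc a).fr.getD false = b
          show a.fr.getD false = b
          rw [hb]; rfl
        rw [e]
        show ((AL.toL hc a).mt b).ok (f' ((KK0 hc W).leg a.v)) (f' ((KK0 hc W).leg (next a.v)))
          (g a.v) (g (next a.v))
        rw [hf2, hf2]
        exact h3
      · intro v
        show Sum.elim f' (fun t => if t = true then g (next a.v) else g a.v)
          (if v = a.v then Sum.inr false else if v = next a.v then Sum.inr true
            else Sum.inl ((KK0 hc W).leg v)) = g v
        split_ifs with h4 h5
        · rw [h4]; rfl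
        · rw [h5]; rfl
        · show f' ((KK0 hc W).leg v) = g v
          rw [hf2, h2 v h4 h5]
    by_cases hE : a.fr = some (!a.b)
    · rw [if_pos hE] at hg
      have hb' : b = !a.b := by
        rw [hb] at hE; exact Option.some_injective _ hE
      have hmt : (AL.toL hc a).mt b = Mt.E := by
        rw [hb']
        show (if (!a.b) = true then (if a.b then Mt.I else Mt.E) else
          (if a.b then Mt.E else Mt.I)) = Mt.E
        cases a.b <;> rfl
      have gE : g (next a.v) = g a.v := by
        have := hg a.v
        unfold surg at this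
        rwa [if_pos rfl] at this
      refine ⟨fun v => if v = a.v ∨ v = next a.v then g (m a.v) else g v, ?_, ?_, ?_⟩
      · -- compatibility
        by_cases hl : m a.v = next a.v
        · have hg' := hg
          rw [surg_self hS hl] at hg'
          have gm : g (m a.v) = g a.v := hg' a.v
          have e0 : ∀ v, (if v = a.v ∨ v = next a.v then g (m a.v) else g v) = g v := by
            intro v
            split_ifs with h1
            · rcases h1 with h1 | h1
              · rw [h1, gm]
              · rw [h1, hl]
            · rfl
          intro v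
          simp only [e0]
          exact hg' v
        · have hxl : m a.v ≠ a.v := hS.ne _
          have hyl' : m (next a.v) ≠ next a.v := hS.ne _
          have hyl : m (next a.v) ≠ a.v := by
            intro h1
            apply hl
            rw [← h1, hS.inv, h1]
          have gxy : g (m (next a.v)) = g (m a.v) := by
            have := hg (m a.v)
            unfold surg at this
            rwa [if_neg hxl, if_neg hl, if_pos rfl] at this
          intro v
          beta_reduce
          by_cases h1 : v = a.v
          · subst h1
            rw [if_neg (by tauto), if_pos (Or.inl rfl)]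
          by_cases h2 : v = next a.v
          · subst h2
            rw [if_neg (by tauto), if_pos (Or.inr rfl), gxy]
          by_cases h3 : v = m a.v
          · rw [if_neg (by tauto : ¬ (v = a.v ∨ v = next a.v)), h3, hS.inv,
              if_pos (Or.inl rfl)]
          by_cases h4 : v = m (next a.v)
          · rw [if_neg (by tauto : ¬ (v = a.v ∨ v = next a.v)), h4, hS.inv,
              if_pos (Or.inr rfl), gxy]
          have k1 : m v ≠ a.v := by
            intro h5; apply h3; rw [← h5, hS.inv]
          have k2 : m v ≠ next a.v := by
            intro h5; apply h4; rw [← h5, hS.inv]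
          rw [if_neg (by tauto), if_neg (by tauto)]
          have := hg v
          unfold surg at this
          rwa [if_neg h1, if_neg h2, if_neg h3, if_neg h4] at this
      · intro v h1 h2
        show (if v = a.v ∨ v = next a.v then g (m a.v) else g v) = g v
        rw [if_neg (by tauto)]
      · rw [hmt]
        show (if a.v = a.v ∨ a.v = next a.v then g (m a.v) else g a.v) =
          (if next a.v = a.v ∨ next a.v = next a.v then g (m a.v) else g (next a.v)) ∧
          g a.v = g (next a.v)
        rw [if_pos (Or.inl rfl), if_pos (Or.inr rfl)]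
        exact ⟨rfl, gE.symm⟩
    · rw [if_neg hE] at hg
      have hb' : b = a.b := by
        rw [hb] at hE
        cases b <;> cases h : a.b <;> simp [h] at hE ⊢
      have hmt : (AL.toL hc a).mt b = Mt.I := by
        rw [hb']
        show (if a.b = true then (if a.b then Mt.I else Mt.E) else
          (if a.b then Mt.E else Mt.I)) = Mt.I
        cases a.b <;> rfl
      refine ⟨g, hg, fun _ _ _ => rfl, ?_⟩
      rw [hmt]
      exact ⟨rfl, rfl⟩

end Closing

end Spg
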