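import Pool.Agent.H85.SpgClos
import Pool.Agent.H27.SpgR3Y

/-!
# The finger lemma (layer M7)
-/

set_option linter.unusedSectionVars false

open Function

namespace Spg

/-! ### Free arcs of bases -/

section

variable {N : Type} [Fintype N] [DecidableEq N]

/-- The indicator function of a pair. -/
def ind2 (i j : N) (v : N) : ZMod 2 := if v = i then 1 else if v = j then 1 else 0

theorem ind2_eq_one {i j v : N} : ind2 i j v = 1 ↔ v = i ∨ v = j := by
  unfold ind2
  split_ifs with h1 h2
  · simp [h1]
  · simp [h2]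
  · simp [h1, h2]

theorem ind2_congr {i j v w : N} (h : v = i ∨ v = j ↔ w = i ∨ w = j) :
    ind2 i j v = ind2 i j w := by
  rw [← ind2_eq_one, ← ind2_eq_one] at h
  generalize ind2 i j v = x at h
  generalize ind2 i j w = y at h
  revert h
  revert x y
  decide

theorem freeArc_base (μ : N → N) (hμ : ∀ l, μ (μ l) = l) (hne : ∀ l, μ l ≠ l) (i j : N)
    (h : μ i = j) : PS.FreeArc (PS.base μ hμ hne) i j (ind2 i j) := by
  constructor
  · exact ind2_eq_one.mpr (Or.inl rfl)
  · exact ind2_eq_one.mpr (Or.inr rfl)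
  · intro l h1 h2
    exact (if_neg h1).trans (if_neg h2)
  · intro s _ l
    refine ind2_congr ?_
    subst h
    constructor
    · rintro (h1 | h1)
      · right; rw [← h1, hμ]
      · left; rw [← hμ l, h1, hμ]
    · rintro (h1 | h1)
      · right; rw [h1]
      · left; rw [h1, hμ]
  · exact fun x => Empty.elim x
  · intro s _ f hf v hv
    rcases ind2_eq_one.mp hv with h1 | h1
    · rw [h1]; rfl
    · rw [h1, ← h]; exact hf i

end

namespace PS

variable {Λ : Type} [Fintype Λ] [DecidableEq Λ]

/-- A letter commutes with a word of letters at other legs. -/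
theorem Iso.comm_word (T : PS Λ) (l : Letter Λ) (w : List (Letter Λ))
    (h : ∀ a ∈ w, a.i ≠ l.i ∧ a.i ≠ l.j ∧ a.j ≠ l.i ∧ a.j ≠ l.j) :
    Iso (PS.attach (PS.attachW T w) l) (PS.attachW (PS.attach T l) w) := by
  induction w with
  | nil => exact Iso.refl _
  | cons a w ih =>
    obtain ⟨h1, h2, h3, h4⟩ := h a List.mem_cons_self
    exact (Iso.comm (PS.attachW T w) a l h1 h2 h3 h4).trans
      ((ih (fun x hx => h x (List.mem_cons_of_mem _ hx))).attach a)

/-- Replacing the system under a word. -/
theorem EE_under {A A' : PS Λ} {n m : ℤ} (h : ∀ B, EE A B n ↔ EE A' B m)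
    (w : List (Letter Λ)) (B : PS Λ) :
    EE (PS.attachW A w) B n ↔ EE (PS.attachW A' w) B m := by
  rw [EE_attachW, EE_attachW]
  exact h _

end PS

variable {N : Type} [Fintype N] [DecidableEq N] {next : Equiv.Perm N} {c : N → Bool}
  (hc : ∀ v, c (next v) = !c v)

theorem fing_succ (next : Equiv.Perm N) (b : Bool) (v : N) (k : ℕ) :
    fing next b v (k + 1) = fing next b (next v) k ++
      [PS.XL (Sum.inr false) (Sum.inl v) (by simp) b] := by
  induction k generalizing v with
  | zero => rfl
  | succ k ih =>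
    have h : fing next b v (k + 1 + 1) =
      PS.XL (Sum.inr false) (Sum.inl ((next^[k + 1]) v)) (by simp) b :: fing next b v (k + 1) := rfl
    have h' : fing next b (next v) (k + 1) =
      PS.XL (Sum.inr false) (Sum.inl ((next^[k]) (next v))) (by simp) b ::
        fing next b (next v) k := rfl
    rw [h, h', ih]
    rfl

theorem mem_fing {b : Bool} {v : N} {k : ℕ} {a : Letter (N ⊕ Bool)} (h : a ∈ fing next b v k) :
    a.i = Sum.inr false ∧ ∃ i < k, a.j = Sum.inl ((next^[i]) v) := by
  induction k with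
  | zero => exact absurd h List.not_mem_nil
  | succ k ih =>
    rcases List.mem_cons.mp h with h | h
    · subst h
      exact ⟨rfl, k, Nat.lt_succ_self k, rfl⟩
    · obtain ⟨h1, i, hi, h2⟩ := ih h
      exact ⟨h1, i, Nat.lt_succ_of_lt hi, h2⟩

theorem freeArc_attachW {Λ : Type} [Fintype Λ] [DecidableEq Λ] (B : PS Λ) (i j : Λ)
    (h : ∃ g, PS.FreeArc B i j g) (w : List (Letter Λ))
    (hw : ∀ a ∈ w, a.i ≠ i ∧ a.i ≠ j ∧ a.j ≠ i ∧ a.j ≠ j) :
    ∃ g, PS.FreeArc (PS.attachW B w) i j g := by
  induction w with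
  | nil => exact h
  | cons a w ih =>
    obtain ⟨g, hg⟩ := ih (fun x hx => hw x (List.mem_cons_of_mem _ hx))
    obtain ⟨h1, h2, h3, h4⟩ := hw a List.mem_cons_self
    exact ⟨_, hg.attach a h1 h2 h3 h4⟩

/-- The free arc of the closing with the additional arc. -/
theorem freeArc_KP (W : List (AL N)) :
    ∃ g, PS.FreeArc (KP hc W) (Sum.inr false) (Sum.inr true) g := by
  refine freeArc_attachW _ _ _ ⟨_, freeArc_base _ _ _ _ _ rfl⟩ _ ?_
  intro a ha
  obtain ⟨x, _, rfl⟩ := List.mem_map.mp ha
  exact ⟨fun h => by simp [Letter.map] at h, fun h => by simp [Letter.map] at h,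
    fun h => by simp [Letter.map] at h, fun h => by simp [Letter.map] at h⟩

/-- The statement of the finger lemma for one word and one starting leg. -/
def FP (W : List (AL N)) (v : N) (b : Bool) : Prop :=
  ∀ (T : PS (N ⊕ Bool)) (n : ℤ),
    PS.EE (PS.attachW T (fing next b v (minimalPeriod next v))) (KP hc W)
      (n + (minimalPeriod next v / 2 : ℕ)) ↔ PS.EE T (KP hc W) n

theorem minimalPeriod_next (v : N) : minimalPeriod next (next v) = minimalPeriod next v :=
  minimalPeriod_apply (by
    have := next.injective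
    exact (this.mem_periodicPts v))

theorem FP_next (W : List (AL N)) (v : N) (b : Bool) (h : FP hc W v b) :
    FP hc W (next v) b := by
  intro T n
  have hpos : 0 < minimalPeriod next v :=
    minimalPeriod_pos_of_mem_periodicPts (next.injective.mem_periodicPts v)
  obtain ⟨k, hk⟩ : ∃ k, minimalPeriod next v = k + 1 := ⟨_, (Nat.succ_pred_eq_of_pos hpos).symm⟩
  rw [minimalPeriod_next]
  unfold FP at h
  rw [hk] at h ⊢
  set m := (k + 1) / 2
  obtain ⟨g, hg⟩ := freeArc_KP hc W
  have hv : (next^[k]) (next v) = v := by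
    have h1 := iterate_minimalPeriod (f := next) (x := v)
    rw [hk] at h1
    exact h1
  have e1 : fing next b (next v) (k + 1) =
      PS.XL (Sum.inr false) (Sum.inl v) (by simp) b :: fing next b (next v) k := by
    show PS.XL (Sum.inr false) (Sum.inl ((next^[k]) (next v))) (by simp) b ::
      fing next b (next v) k = _
    congr 2
    rw [hv]
  rw [e1, PS.attachW_cons]
  set G := fing next b (next v) k with hG
  have hp : (Sum.inr false : N ⊕ Bool) ≠ Sum.inl v := by simp
  have hq : (Sum.inr true : N ⊕ Bool) ≠ Sum.inl v := by simp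
  have hpq : (Sum.inr false : N ⊕ Bool) ≠ Sum.inr true := by simp
  -- s1
  rw [PS.neck (PS.attachW T G) (KP hc W) _ _ _ hp hq hpq b g hg]
  -- s2
  have s2 := PS.Iso.comm_word T (PS.XL (Sum.inr true) (Sum.inl v) hq (!b)) G (by
    intro a ha
    obtain ⟨h1, i, hi, h2⟩ := mem_fing ha
    refine ⟨?_, ?_, ?_, ?_⟩
    · rw [h1]; exact hpq
    · rw [h1]; exact hp
    · rw [h2]; exact Sum.inl_ne_inr
    · rw [h2]
      intro h3
      have h4 : (next^[i + 1]) v = v := Sum.inl_injective h3
      exact not_isPeriodicPt_of_pos_of_lt_minimalPeriod (f := next) (x := v) (Nat.succ_ne_zero i)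
        (by rw [hk]; omega) h4)
  rw [s2.EE]
  -- s3
  have s3 := PS.EE_under (A := PS.attach (PS.attach (PS.attach T
    (PS.XL (Sum.inr true) (Sum.inl v) hq (!b))) (PS.XL (Sum.inr false) (Sum.inl v) hp (!b)))
    (PS.XL (Sum.inr false) (Sum.inl v) hp b)) (A' := PS.attach T
    (PS.XL (Sum.inr true) (Sum.inl v) hq (!b))) (n := n + m + 1) (m := n + m) (fun B => by
      have := PS.R2X (PS.attach T (PS.XL (Sum.inr true) (Sum.inl v) hq (!b))) B _ _ hp (!b)
        (n + m)
      rwa [Bool.not_not] at this) G (KP hc W)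
  rw [← s3]
  -- s4
  have s4 := h (PS.attach (PS.attach T (PS.XL (Sum.inr true) (Sum.inl v) hq (!b)))
    (PS.XL (Sum.inr false) (Sum.inl v) hp (!b))) (n + 1)
  rw [fing_succ, PS.attachW_append, ← hG, show n + 1 + (m : ℤ) = n + m + 1 by ring] at s4
  refine s4.trans ?_
  rw [PS.neck _ (KP hc W) _ _ _ hp hq hpq (!b) g hg]
  exact PS.R2X T (KP hc W) _ _ hq (!b) n

theorem FP_iter (W : List (AL N)) (v : N) (b : Bool) (h : FP hc W v b) (j : ℕ) :
    FP hc W ((next^[j]) v) b := by
  induction j with
  | zero => exact h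
  | succ j ih =>
    rw [iterate_succ_apply']
    exact FP_next hc W _ b ih

theorem FP_cycle (W : List (AL N)) (v w : N) (b : Bool) (h : FP hc W v b)
    (hvw : next.SameCycle v w) : FP hc W w b := by
  obtain ⟨i, _, hi⟩ := hvw.exists_pow_eq'
  rw [← hi, ← Equiv.Perm.iterate_eq_pow]
  exact FP_iter hc W v b h i

include hc in
theorem col_iter (v : N) (j : ℕ) : c ((next^[j]) v) = xor (c v) (decide (j % 2 = 1)) := by
  induction j with
  | zero => simp
  | succ j ih =>
    rw [iterate_succ_apply', hc, ih]
    have : decide ((j + 1) % 2 = 1) = !decide (j % 2 = 1) := by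
      by_cases h : j % 2 = 1
      · have h2 : (j + 1) % 2 ≠ 1 := by omega
        simp [h, h2]
      · have h2 : (j + 1) % 2 = 1 := by omega
        simp [h, h2]
    rw [this]
    cases c v <;> cases decide (j % 2 = 1) <;> rfl

include hc in
theorem period_even (v : N) : minimalPeriod next v = 2 * (minimalPeriod next v / 2) := by
  have h1 := col_iter hc v (minimalPeriod next v)
  have h2 : (next^[minimalPeriod next v]) v = v := iterate_minimalPeriod
  rw [h2] at h1
  have h3 : ¬ (minimalPeriod next v % 2 = 1) := by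
    intro h
    rw [decide_eq_true h] at h1
    cases hv : c v <;> rw [hv] at h1 <;> exact absurd h1 (by decide)
  omega

theorem FP_nil_aux (v : N) (b : Bool) (hv : c v = true) (m : ℕ) :
    ∀ (T : PS (N ⊕ Bool)) (n : ℤ),
      PS.EE (PS.attachW T (fing next b v (2 * m))) (KP hc []) (n + m) ↔
        PS.EE T (KP hc []) n := by
  induction m with
  | zero => intro T n; simp [fing]
  | succ m ih =>
    intro T n
    have hv2 : c ((next^[2 * m]) v) = true := by
      rw [col_iter hc, hv, decide_eq_false (by omega)]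
      rfl
    have hmu : mu next c ((next^[2 * m]) v) = (next^[2 * m + 1]) v := by
      rw [iterate_succ_apply']
      unfold mu
      rw [if_pos hv2]
    have hne : (Sum.inl ((next^[2 * m]) v) : N ⊕ Bool) ≠ Sum.inl ((next^[2 * m + 1]) v) := by
      intro h
      have h2 := Sum.inl_injective h
      rw [← hmu] at h2
      exact mu_ne hc _ h2.symm
    have e1 : fing next b v (2 * (m + 1)) =
      PS.XL (Sum.inr false) (Sum.inl ((next^[2 * m + 1]) v)) (by simp) b ::
        PS.XL (Sum.inr false) (Sum.inl ((next^[2 * m]) v)) (by simp) b ::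
          fing next b v (2 * m) := rfl
    rw [e1, PS.attachW_cons, PS.attachW_cons]
    have hg : PS.FreeArc (KP hc []) (Sum.inl ((next^[2 * m]) v))
        (Sum.inl ((next^[2 * m + 1]) v)) (ind2 (Sum.inl ((next^[2 * m]) v) : N ⊕ Bool)
          (Sum.inl ((next^[2 * m + 1]) v))) :=
      freeArc_base (Sum.map (mu next c) (!·)) (muP_muP hc) (muP_ne hc) _ _
        (congrArg Sum.inl hmu)
    have h3 := PS.arcX (PS.attachW T (fing next b v (2 * m))) (KP hc []) (Sum.inr false) _ _
      (by simp) (by simp) hne b _ hg (n + m)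
    rw [← ih T n, ← h3]
    push_cast
    rw [add_assoc]

theorem FP_nil (v : N) (b : Bool) : FP hc [] v b := by
  have key : ∀ v, c v = true → FP hc [] v b := by
    intro v hv T n
    have h := FP_nil_aux hc v b hv (minimalPeriod next v / 2) T n
    rw [← period_even hc v] at h
    exact h
  cases hv : c v
  · exact FP_cycle hc [] (next v) v b (key (next v) (by rw [hc, hv]; rfl))
      (Equiv.Perm.SameCycle.symm (Equiv.Perm.sameCycle_apply_right.mpr
        (Equiv.Perm.SameCycle.refl _ _)))
  · exact key v hv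

theorem FP_cons_ne (l : AL N) (W : List (AL N)) (v : N) (b : Bool)
    (hv : ¬ next.SameCycle v l.v) (h : FP hc W v b) : FP hc (l :: W) v b := by
  intro T n
  set L := (AL.toL hc l).map Sum.inl Sum.inl_injective with hL
  have e1 : KP hc (l :: W) = PS.attach (KP hc W) L := rfl
  have h2 := PS.Iso.comm_word T L (fing next b v (minimalPeriod next v)) (by
    intro a ha
    obtain ⟨h1, i, hi, h2⟩ := mem_fing ha
    have h3 : next.SameCycle v ((next^[i]) v) :=
      ⟨i, by rw [zpow_natCast, Equiv.Perm.iterate_eq_pow]⟩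
    refine ⟨?_, ?_, ?_, ?_⟩
    · rw [h1]; exact Sum.inr_ne_inl
    · rw [h1]; exact Sum.inr_ne_inl
    · rw [h2]
      intro h4
      have h5 : (next^[i]) v = l.v := Sum.inl_injective h4
      rw [h5] at h3
      exact hv h3
    · rw [h2]
      intro h4
      have h5 : (next^[i]) v = next l.v := Sum.inl_injective h4
      rw [h5] at h3
      exact hv (Equiv.Perm.sameCycle_apply_right.mp h3))
  rw [e1, ← PS.EE_attach, ← PS.EE_attach, h2.EE]
  exact h (PS.attach T L) n

theorem FP_cons_eq (l : AL N) (W : List (AL N)) (b : Bool)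
    (h : FP hc W l.v b) : FP hc (l :: W) l.v b := by
  intro T n
  set L := (AL.toL hc l).map Sum.inl Sum.inl_injective with hL
  have e1 : KP hc (l :: W) = PS.attach (KP hc W) L := rfl
  have hpos : 0 < minimalPeriod next l.v :=
    minimalPeriod_pos_of_mem_periodicPts (next.injective.mem_periodicPts l.v)
  obtain ⟨k, hk⟩ : ∃ k, minimalPeriod next l.v = k + 2 := by
    have := period_even hc l.v
    exact ⟨minimalPeriod next l.v - 2, by omega⟩
  have e2 : ∀ T : PS (N ⊕ Bool), PS.attachW T (fing next b l.v (minimalPeriod next l.v)) =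
      PS.attachW (PS.attach (PS.attach T (PS.XL (Sum.inr false) (Sum.inl l.v) (by simp) b))
        (PS.XL (Sum.inr false) (Sum.inl (next l.v)) (by simp) b))
        (fing next b (next (next l.v)) k) := by
    intro T
    rw [hk, fing_succ, fing_succ, PS.attachW_append, PS.attachW_append]
    rfl
  have h3 := PS.Iso.comm_word
    (PS.attach (PS.attach T (PS.XL (Sum.inr false) (Sum.inl l.v) (by simp) b))
        (PS.XL (Sum.inr false) (Sum.inl (next l.v)) (by simp) b)) L
    (fing next b (next (next l.v)) k) (by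
    intro a ha
    obtain ⟨h1, i, hi, h2⟩ := mem_fing ha
    refine ⟨?_, ?_, ?_, ?_⟩
    · rw [h1]; exact Sum.inr_ne_inl
    · rw [h1]; exact Sum.inr_ne_inl
    · rw [h2]
      intro h4
      have h5 : (next^[i + 2]) l.v = l.v := Sum.inl_injective h4
      exact not_isPeriodicPt_of_pos_of_lt_minimalPeriod (f := next) (x := l.v)
        (Nat.succ_ne_zero (i + 1)) (by rw [hk]; omega) h5
    · rw [h2]
      intro h4
      have h5 : (next^[i + 2]) l.v = next l.v := Sum.inl_injective h4
      rw [iterate_succ_apply'] at h5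
      exact not_isPeriodicPt_of_pos_of_lt_minimalPeriod (f := next) (x := l.v)
        (Nat.succ_ne_zero i) (by rw [hk]; omega) (next.injective h5))
  have hij : (Sum.inl l.v : N ⊕ Bool) ≠ Sum.inl (next l.v) :=
    fun h => next_ne hc l.v (Sum.inl_injective h)
  have h4 : ∀ (n : ℤ) (B : PS (N ⊕ Bool)),
      PS.EE (PS.attach (PS.attach (PS.attach T
        (PS.XL (Sum.inr false) (Sum.inl l.v) (by simp) b))
        (PS.XL (Sum.inr false) (Sum.inl (next l.v)) (by simp) b)) L) B n ↔
      PS.EE (PS.attach (PS.attach (PS.attach T L)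
        (PS.XL (Sum.inr false) (Sum.inl l.v) (by simp) b))
        (PS.XL (Sum.inr false) (Sum.inl (next l.v)) (by simp) b)) B n := by
    intro n B
    obtain ⟨w, b', fr⟩ := l
    cases fr with
    | none =>
      exact PS.R3Y' T B (Sum.inr false) (Sum.inl w) (Sum.inl (next w)) (by simp)
        (by simp) hij b b' n
    | some c' =>
      refine PS.R3frozen' T B (Sum.inr false) (Sum.inl w) (Sum.inl (next w)) (by simp)
        (by simp) b L rfl rfl c' rfl ?_ n
      cases b' <;> cases c'
      · exact Or.inl rfl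
      · exact Or.inr rfl
      · exact Or.inr rfl
      · exact Or.inl rfl
  rw [e1, ← PS.EE_attach, ← PS.EE_attach, e2 T, h3.EE, PS.EE_under (h4 _), ← e2]
  exact h (PS.attach T L) n

theorem FP_all (W : List (AL N)) : ∀ (v : N) (b : Bool), FP hc W v b := by
  induction W with
  | nil => exact FP_nil hc
  | cons l W ih =>
    intro v b
    by_cases hv : next.SameCycle v l.v
    · exact FP_cycle hc _ _ _ b (FP_cons_eq hc l W b (ih l.v b)) hv.symm
    · exact FP_cons_ne hc l W v b hv (ih v b)

/-- (M7) The finger lemma. -/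
theorem finger_lemma (T : PS (N ⊕ Bool)) (W : List (AL N)) (v : N) (b : Bool) (n : ℤ) :
    PS.EE (PS.attachW T (fing next b v (minimalPeriod next v))) (KP hc W)
      (n + (minimalPeriod next v / 2 : ℕ)) ↔ PS.EE T (KP hc W) n :=
  FP_all hc W v b T n

end Spg
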