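import Pool.Agent.H85.SpgClos

/-!
# Freezing letters (layer M11, first part)
-/

set_option linter.unusedSectionVars false

open Function

namespace Spg

/-! ### Elementary facts on the vanishing predicate -/

section

variable {X U : Type} [DecidableEq X] [AddCommGroup U] [Module (ZMod 2) U]

theorem InCube_congr {A : Finset X} {c c' : X → Bool} (h : ∀ x, x ∉ A → c x = c' x)
    (s : X → Bool) : InCube A c s ↔ InCube A c' s := by
  constructor
  · intro hs x hx; rw [hs x hx, h x hx]
  · intro hs x hx; rw [hs x hx, h x hx]

theorem IsC_congr_val (S : CS X U) {A : Finset X} {c c' : X → Bool}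
    (h : ∀ x, x ∉ A → c x = c' x) (n : ℤ) (Φ : Co X U) : S.IsC A c n Φ ↔ S.IsC A c' n Φ := by
  constructor
  · intro hΦ
    exact ⟨hΦ.inv, fun s hs => ⟨(InCube_congr h s).mp (hΦ.supp s hs).1, (hΦ.supp s hs).2⟩⟩
  · intro hΦ
    exact ⟨hΦ.inv, fun s hs => ⟨(InCube_congr h s).mpr (hΦ.supp s hs).1, (hΦ.supp s hs).2⟩⟩

theorem E_congr_val (S : CS X U) {A : Finset X} {c c' : X → Bool}
    (h : ∀ x, x ∉ A → c x = c' x) (n : ℤ) : S.E A c n ↔ S.E A c' n := by
  unfold CS.E
  simp only [IsC_congr_val S h]

theorem E_triv (S : CS X U) (A : Finset X) (c : X → Bool) (n : ℤ)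
    (h : n < 0 ∨ (A.card : ℤ) < n) : S.E A c n := by
  intro Φ hΦ _
  have h0 : Φ = 0 := by
    funext s
    by_contra hs
    obtain ⟨_, h2⟩ := hΦ.supp s hs
    have h3 : (0 : ℤ) ≤ deg A s := by unfold deg; positivity
    have h4 : deg A s ≤ A.card := by
      unfold deg
      exact_mod_cast Finset.card_filter_le A _
    omega
  exact ⟨0, CS.IsC.zero S A c _, by rw [h0, map_zero]⟩

end

/-! ### Refreezing words -/

namespace PS

variable {Λ : Type} [Fintype Λ] [DecidableEq Λ]

/-- The old crossings inside the crossings of `attachW A w`. -/
def lift (A : PS Λ) : (w : List (Letter Λ)) → A.X → (attachW A w).X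
  | [], x => x
  | _ :: w, x => some (lift A w x)

theorem lift_injective (A : PS Λ) (w : List (Letter Λ)) : Injective (lift A w) := by
  induction w with
  | nil => exact fun _ _ h => h
  | cons l w ih =>
    intro x y h
    exact ih (Option.some_injective _ h)

/-- The active crossings after refreezing the crossings of `A`. -/
def actW (A : PS Λ) (a : Finset A.X) : (w : List (Letter Λ)) → Finset (attachW A w).X
  | [] => a
  | l :: w => match l.fr with
    | none => insert none ((actW A a w).map Function.Embedding.some)
    | some _ => (actW A a w).map Function.Embedding.some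

/-- The frozen values after refreezing the crossings of `A`. -/
def valW (A : PS Λ) (c : A.X → Bool) : (w : List (Letter Λ)) → (attachW A w).X → Bool
  | [] => c
  | l :: w => fun x => x.elim (l.fr.getD false) (valW A c w)

theorem refreeze_attachW (A : PS Λ) (a : Finset A.X) (c : A.X → Bool) (w : List (Letter Λ)) :
    attachW (refreeze A a c) w = refreeze (attachW A w) (actW A a w) (valW A c w) := by
  induction w with
  | nil => rfl
  | cons l w ih =>
    rw [attachW_cons, ih]
    rfl

theorem actW_self (A : PS Λ) (w : List (Letter Λ)) : actW A A.act w = (attachW A w).act := by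
  induction w with
  | nil => rfl
  | cons l w ih =>
    show (match l.fr with
      | none => insert none ((actW A A.act w).map Function.Embedding.some)
      | some _ => (actW A A.act w).map Function.Embedding.some) = _
    rw [ih]
    rfl

theorem valW_self (A : PS Λ) (w : List (Letter Λ)) : valW A A.val w = (attachW A w).val := by
  induction w with
  | nil => rfl
  | cons l w ih =>
    funext x
    cases x with
    | none => rfl
    | some y =>
      show valW A A.val w y = _
      rw [ih]
      rfl

theorem mem_actW_some (A : PS Λ) (a : Finset A.X) (l : Letter Λ) (w : List (Letter Λ))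
    (x : (attachW A w).X) :
    (some x : Option (attachW A w).X) ∈ (show Finset (Option (attachW A w).X) from
      actW A a (l :: w)) ↔ x ∈ actW A a w := by
  show (some x : Option (attachW A w).X) ∈ (show Finset (Option (attachW A w).X) from
    match l.fr with
    | none => insert none ((actW A a w).map Function.Embedding.some)
    | some _ => (actW A a w).map Function.Embedding.some) ↔ _
  cases l.fr with
  | none => simp
  | some b => simp

theorem mem_actW_none (A : PS Λ) (a : Finset A.X) (l : Letter Λ) (w : List (Letter Λ)) :
    (none : Option (attachW A w).X) ∈ (show Finset (Option (attachW A w).X) from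
      actW A a (l :: w)) ↔ l.fr = none := by
  show (none : Option (attachW A w).X) ∈ (show Finset (Option (attachW A w).X) from
    match l.fr with
    | none => insert none ((actW A a w).map Function.Embedding.some)
    | some _ => (actW A a w).map Function.Embedding.some) ↔ _
  cases l.fr with
  | none => simp
  | some b => simp

theorem mem_actW_empty (A : PS Λ) (w : List (Letter Λ)) (x : (attachW A w).X) :
    x ∈ actW A ∅ w ↔ x ∈ (attachW A w).act ∧ ∀ y ∈ A.act, lift A w y ≠ x := by
  rw [← actW_self]
  induction w with
  | nil =>
    constructor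
    · intro h; exact absurd h (Finset.notMem_empty _)
    · rintro ⟨h1, h2⟩
      exact absurd rfl (h2 x h1)
  | cons l w ih =>
    cases x with
    | none =>
      constructor
      · intro h
        refine ⟨(mem_actW_none A A.act l w).mpr ((mem_actW_none A ∅ l w).mp h), ?_⟩
        intro y _ h'
        exact absurd h' (by show (some (lift A w y) : Option (attachW A w).X) ≠ none; simp)
      · rintro ⟨h, _⟩
        exact (mem_actW_none A ∅ l w).mpr ((mem_actW_none A A.act l w).mp h)
    | some x =>
      constructor
      · intro h
        obtain ⟨h1, h2⟩ := (ih x).mp ((mem_actW_some A ∅ l w x).mp h)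
        refine ⟨(mem_actW_some A A.act l w x).mpr h1, ?_⟩
        exact fun y hy h => h2 y hy (Option.some_injective _ h)
      · rintro ⟨h1, h2⟩
        refine (mem_actW_some A ∅ l w x).mpr ((ih x).mpr ⟨?_, ?_⟩)
        · exact (mem_actW_some A A.act l w x).mp h1
        · exact fun y hy h => h2 y hy (congrArg some h)

theorem valW_lift (A : PS Λ) (c : A.X → Bool) (w : List (Letter Λ)) (y : A.X) :
    valW A c w (lift A w y) = c y := by
  induction w with
  | nil => rfl
  | cons l w ih => exact ih

theorem valW_eq (A : PS Λ) (c : A.X → Bool) (w : List (Letter Λ)) (x : (attachW A w).X)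
    (h : ∀ y, lift A w y ≠ x) : valW A c w x = (attachW A w).val x := by
  induction w with
  | nil => exact absurd rfl (h x)
  | cons l w ih =>
    cases x with
    | none => rfl
    | some x =>
      exact ih x (fun y hy => h y (congrArg some hy))

end PS

/-! ### Freezing words of adjacent letters -/

section

variable {N : Type} [Fintype N] [DecidableEq N] {next : Equiv.Perm N} {c : N → Bool}

/-- Freezing all letters of a word. -/
def frz (hc : ∀ v, c (next v) = !c v) : (W : List (AL N)) → ((KK0 hc W).X → Bool) → List (AL N)
  | [], _ => []
  | a :: W, s => ⟨a.v, a.b, some (s none)⟩ :: frz hc W (fun x => s (some x))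

theorem KK0_frz (hc : ∀ v, c (next v) = !c v) (W : List (AL N)) (s : (KK0 hc W).X → Bool) :
    KK0 hc (frz hc W s) = PS.refreeze (KK0 hc W) ∅ s := by
  induction W with
  | nil =>
    have : s = (KK0 hc ([] : List (AL N))).val := by
      funext x
      exact Empty.elim x
    rw [this]
    rfl
  | cons a W ih =>
    have h1 : KK0 hc (frz hc (a :: W) s) = PS.attach (KK0 hc (frz hc W (fun x => s (some x))))
        (AL.toL hc ⟨a.v, a.b, some (s none)⟩) := rfl
    rw [h1, ih]
    have h2 : KK0 hc (a :: W) = PS.attach (KK0 hc W) (AL.toL hc a) := rfl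
    have h3 : PS.attach (PS.refreeze (KK0 hc W) ∅ (fun x => s (some x)))
        (AL.toL hc ⟨a.v, a.b, some (s none)⟩) =
        PS.refreeze (PS.attach (KK0 hc W) (AL.toL hc a))
          (Finset.map Function.Embedding.some (∅ : Finset (KK0 hc W).X))
          (fun x => x.elim (s none) (fun y => s (some y))) := rfl
    rw [h3]
    have h4 : Finset.map Function.Embedding.some (∅ : Finset (KK0 hc W).X) = ∅ :=
      Finset.map_empty _
    have h5 : (fun x : Option (KK0 hc W).X => x.elim (s none) (fun y => s (some y))) = s := by
      funext x
      cases x <;> rfl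
    exact (congrArg (fun z => PS.refreeze (PS.attach (KK0 hc W) (AL.toL hc a)) z _) h4).trans
      (congrArg (PS.refreeze (PS.attach (KK0 hc W) (AL.toL hc a)) ∅) h5)

/-- All letters are frozen. -/
def Flat (W : List (AL N)) : Prop := ∀ a ∈ W, ∃ b, a.fr = some b

theorem flat_frz (hc : ∀ v, c (next v) = !c v) (W : List (AL N)) (s : (KK0 hc W).X → Bool) :
    Flat (frz hc W s) := by
  induction W with
  | nil => intro a ha; exact absurd ha List.not_mem_nil
  | cons a W ih =>
    intro a' ha'
    rcases List.mem_cons.mp ha' with h | h
    · exact ⟨s none, by rw [h]⟩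
    · exact ih _ a' h

theorem flat_act (hc : ∀ v, c (next v) = !c v) {W : List (AL N)} (hW : Flat W) :
    (KK0 hc W).act = ∅ := by
  induction W with
  | nil => rfl
  | cons a W ih =>
    obtain ⟨b, hb⟩ := hW a List.mem_cons_self
    have h1 : (KK0 hc (a :: W)).act = (match a.fr with
      | none => insert none ((KK0 hc W).act.map Function.Embedding.some)
      | some _ => (KK0 hc W).act.map Function.Embedding.some) := rfl
    rw [h1, hb, ih (fun a' ha' => hW a' (List.mem_cons_of_mem a ha'))]
    exact Finset.map_empty _

end

end Spg
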