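import Pool.Agent.H85.SpgPS
import Pool.Agent.H78.SpgT
import Pool.Agent.H78.SpgAnn

/-!
# Isomorphisms of closed and open systems (layers M4, M5)
-/

set_option linter.unusedSectionVars false
set_option linter.unusedVariables false

open Function

namespace Spg

/-- M4: comparison of closed systems along a linear map `J : U' → U`. -/
theorem CS.E_congr {X X' U U' : Type} [DecidableEq X] [DecidableEq X']
    [AddCommGroup U] [Module (ZMod 2) U] [AddCommGroup U'] [Module (ZMod 2) U']
    (S : CS X U) (S' : CS X' U') (e : X' → X) (he : Injective e) (J : U' →ₗ[ZMod 2] U)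
    (A : Finset X) (A' : Finset X') (hA : ∀ x, x ∈ A ↔ ∃ x' ∈ A', e x' = x)
    (c : X → Bool) (c' : X' → Bool) (hc : ∀ x', x' ∉ A' → c (e x') = c' x')
    (hL : ∀ s, InCube A c s → S'.L (s ∘ e) = (S.L s).comap J)
    (hJ : ∀ s, InCube A c s → LinearMap.range J ⊔ S.L s = ⊤)
    (hu : ∀ s, InCube A c s → ∀ x ∈ A', S.u (e x) + J (S'.u x) ∈ S.L s)
    (n : ℤ) : S.E A c n ↔ S'.E A' c' n :=
  CS.E_congr' S S' e he J A A' hA c c' hc hL hJ hu n

namespace PS

variable {Λ : Type} [Fintype Λ]

/-- `B` is another presentation of `A`, via a map of points and an injection of crossings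
(which hits all active crossings). -/
structure IsoData (A B : PS Λ) (j : B.P → A.P) (e : B.X → A.X) : Prop where
  inj : Injective e
  act : ∀ x, x ∈ A.act ↔ ∃ y ∈ B.act, e y = x
  val : ∀ y, y ∉ B.act → A.val (e y) = B.val y
  con : ∀ s, InCube A.act A.val s → ∀ f ∈ A.Con s, (fun p => f (j p)) ∈ B.Con (fun x => s (e x))
  det : ∀ s, InCube A.act A.val s → ∀ f ∈ A.Con s, (∀ p, f (j p) = 0) → f = 0
  ext : ∀ s, InCube A.act A.val s → ∀ g ∈ B.Con (fun x => s (e x)),
    ∃ f ∈ A.Con s, ∀ p, f (j p) = g p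
  u : ∀ s, InCube A.act A.val s → ∀ y ∈ B.act, ∀ f ∈ A.Con s,
    f (A.ua (e y)) + f (A.ub (e y)) = f (j (B.ua y)) + f (j (B.ub y))
  leg : ∀ s, InCube A.act A.val s → ∀ f ∈ A.Con s, ∀ l, f (A.leg l) = f (j (B.leg l))

/-- `B` is another presentation of `A`. -/
def Iso (A B : PS Λ) : Prop := ∃ j e, IsoData A B j e

theorem Iso.refl (A : PS Λ) : Iso A A :=
  ⟨id, id, {
    inj := injective_id
    act := fun x => ⟨fun h => ⟨x, h, rfl⟩, fun ⟨_, hy, h⟩ => h ▸ hy⟩
    val := fun _ _ => rfl
    con := fun _ _ _ hf => hf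
    det := fun _ _ _ _ h => funext h
    ext := fun _ _ g hg => ⟨g, hg, fun _ => rfl⟩
    u := fun _ _ _ _ _ _ => rfl
    leg := fun _ _ _ _ _ => rfl }⟩

theorem IsoData.cube {A B : PS Λ} {j : B.P → A.P} {e : B.X → A.X} (h : IsoData A B j e)
    {s : A.X → Bool} (hs : InCube A.act A.val s) : InCube B.act B.val (fun x => s (e x)) := by
  intro y hy
  have hy' : e y ∉ A.act := by
    intro h'
    obtain ⟨y', hy', hyy⟩ := (h.act _).1 h'
    exact hy (h.inj hyy ▸ hy')
  show s (e y) = B.val y
  rw [hs _ hy', h.val y hy]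

theorem Iso.trans {A B C : PS Λ} (h : Iso A B) (h' : Iso B C) : Iso A C := by
  obtain ⟨j, e, h⟩ := h
  obtain ⟨j', e', h'⟩ := h'
  exact ⟨j ∘ j', e ∘ e', {
    inj := h.inj.comp h'.inj
    act := fun x => by
      rw [h.act]
      constructor
      · rintro ⟨y, hy, rfl⟩
        obtain ⟨z, hz, rfl⟩ := (h'.act y).1 hy
        exact ⟨z, hz, rfl⟩
      · rintro ⟨z, hz, rfl⟩
        exact ⟨e' z, (h'.act _).2 ⟨z, hz, rfl⟩, rfl⟩
    val := fun y hy => by
      have hy' : e' y ∉ B.act := by
        intro h1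
        obtain ⟨y', hy', hyy⟩ := (h'.act _).1 h1
        exact hy (h'.inj hyy ▸ hy')
      show A.val (e (e' y)) = C.val y
      rw [h.val _ hy', h'.val y hy]
    con := fun s hs f hf => h'.con _ (h.cube hs) _ (h.con s hs f hf)
    det := fun s hs f hf h0 => h.det s hs f hf (fun p =>
      congrFun (h'.det _ (h.cube hs) _ (h.con s hs f hf) h0) p)
    ext := fun s hs g hg => by
      obtain ⟨f', hf', h1⟩ := h'.ext _ (h.cube hs) g hg
      obtain ⟨f, hf, h2⟩ := h.ext s hs f' hf'
      exact ⟨f, hf, fun p => (h2 _).trans (h1 p)⟩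
    u := fun s hs y hy f hf => by
      have hy' : e' y ∈ B.act := (h'.act _).2 ⟨y, hy, rfl⟩
      exact (h.u s hs _ hy' f hf).trans (h'.u _ (h.cube hs) y hy _ (h.con s hs f hf))
    leg := fun s hs f hf l =>
      (h.leg s hs f hf l).trans (h'.leg _ (h.cube hs) _ (h.con s hs f hf) l) }⟩

/-- another presentation of a closed system is a transport -/
theorem IsoData.trans_close {A B : PS Empty} {j : B.P → A.P} {e : B.X → A.X}
    (h : IsoData A B j e) :
    Trans A.close B.close e (push j) A.act B.act A.val B.val where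
  he := h.inj
  hA := h.act
  hc := h.val
  hL := fun s hs => by
    show ann (B.Con (s ∘ e)) = (ann (A.Con s)).comap (push j)
    ext v
    rw [Submodule.mem_comap, mem_ann, mem_ann]
    constructor
    · intro hv f hf
      rw [sum_push]
      exact hv _ (h.con s hs f hf)
    · intro hv g hg
      obtain ⟨f, hf, hfg⟩ := h.ext s hs g hg
      have := hv f hf
      rw [sum_push] at this
      rw [← this]
      exact Finset.sum_congr rfl (fun p _ => by rw [hfg])
  hJ := fun s hs => by
    show LinearMap.range (push j) ⊔ ann (A.Con s) = ⊤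
    rw [eq_top_iff]
    intro v _
    by_contra hv
    obtain ⟨f, h1, h2⟩ := exists_detect hv
    have hf : f ∈ A.Con s := mem_of_ann (fun w hw => h1 w (Submodule.mem_sup_right hw))
    have hf0 : f = 0 := by
      refine h.det s hs f hf (fun p => ?_)
      have := h1 _ (Submodule.mem_sup_left ⟨Pi.single p 1, rfl⟩)
      rw [sum_push] at this
      simpa [Pi.single_apply] using this
    apply h2
    rw [hf0]
    simp
  hu := fun s hs x hx => by
    show uvec (A.ua (e x)) (A.ub (e x)) + push j (uvec (B.ua x) (B.ub x)) ∈ ann (A.Con s)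
    intro f hf
    simp only [Pi.add_apply, mul_add, Finset.sum_add_distrib]
    rw [sum_mul_uvec, sum_push, sum_mul_uvec (fun p => f (j p)), h.u s hs x hx f hf]
    exact add_self_Z2 _

theorem Iso.close {A B : PS Empty} (h : Iso A B) (n : ℤ) :
    A.close.E A.act A.val n ↔ B.close.E B.act B.val n := by
  obtain ⟨j, e, h⟩ := h
  exact h.trans_close.E_iff n

/-- pairing on the left with a fixed open system -/
theorem IsoData.pairR {A B : PS Λ} {j : B.P → A.P} {e : B.X → A.X} (h : IsoData A B j e)
    (G : PS Λ) : IsoData (pair G A) (pair G B) (Sum.map id j) (Sum.map id e) where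
  inj := injective_id.sumMap h.inj
  act := by
    rintro (x | x)
    · show Sum.inl x ∈ G.act.disjSum A.act ↔ ∃ y ∈ G.act.disjSum B.act, Sum.map id e y = Sum.inl x
      rw [Finset.inl_mem_disjSum]
      constructor
      · intro hx
        exact ⟨Sum.inl x, Finset.inl_mem_disjSum.2 hx, rfl⟩
      · rintro ⟨y | y, hy, hxy⟩
        · have : y = x := Sum.inl_injective hxy
          rw [← this]; exact Finset.inl_mem_disjSum.1 hy
        · simp at hxy
    · show Sum.inr x ∈ G.act.disjSum A.act ↔ ∃ y ∈ G.act.disjSum B.act, Sum.map id e y = Sum.inr x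
      rw [Finset.inr_mem_disjSum, h.act]
      constructor
      · rintro ⟨y, hy, rfl⟩
        exact ⟨Sum.inr y, Finset.inr_mem_disjSum.2 hy, rfl⟩
      · rintro ⟨y | y, hy, hxy⟩
        · simp at hxy
        · have : e y = x := Sum.inr_injective hxy
          exact ⟨y, Finset.inr_mem_disjSum.1 hy, this⟩
  val := by
    rintro (y | y) hy
    · rfl
    · exact h.val y (fun h' => hy (Finset.inr_mem_disjSum.2 h'))
  con := by
    rintro s hs f ⟨h1, h2, h3⟩
    have hs' : InCube A.act A.val (fun x => s (Sum.inr x)) := fun x hx =>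
      hs (Sum.inr x) (fun h' => hx (Finset.inr_mem_disjSum.1 h'))
    refine ⟨h1, h.con _ hs' _ h2, fun l => ?_⟩
    show f (Sum.inl (G.leg l)) = f (Sum.inr (j (B.leg l)))
    rw [h3, h.leg _ hs' _ h2]
  det := by
    rintro s hs f ⟨h1, h2, h3⟩ h0
    have hs' : InCube A.act A.val (fun x => s (Sum.inr x)) := fun x hx =>
      hs (Sum.inr x) (fun h' => hx (Finset.inr_mem_disjSum.1 h'))
    have h4 := h.det _ hs' _ h2 (fun p => h0 (Sum.inr p))
    funext z
    cases z with
    | inl p => exact h0 (Sum.inl p)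
    | inr p => exact congrFun h4 p
  ext := by
    rintro s hs g ⟨h1, h2, h3⟩
    have hs' : InCube A.act A.val (fun x => s (Sum.inr x)) := fun x hx =>
      hs (Sum.inr x) (fun h' => hx (Finset.inr_mem_disjSum.1 h'))
    obtain ⟨f, hf, hfg⟩ := h.ext _ hs' _ h2
    refine ⟨Sum.elim (fun p => g (Sum.inl p)) f, ⟨h1, hf, fun l => ?_⟩, ?_⟩
    · show g (Sum.inl (G.leg l)) = f (A.leg l)
      rw [h3, h.leg _ hs' _ hf, hfg]
    · rintro (p | p)
      · rfl
      · exact hfg p
  u := by
    rintro s hs (y | y) hy f ⟨h1, h2, h3⟩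
    · rfl
    · have hs' : InCube A.act A.val (fun x => s (Sum.inr x)) := fun x hx =>
        hs (Sum.inr x) (fun h' => hx (Finset.inr_mem_disjSum.1 h'))
      exact h.u _ hs' y (Finset.inr_mem_disjSum.1 hy) _ h2
  leg := fun _ _ _ _ l => l.elim

/-- pairing on the right with a fixed open system -/
theorem IsoData.pairL {A B : PS Λ} {j : B.P → A.P} {e : B.X → A.X} (h : IsoData A B j e)
    (G : PS Λ) : IsoData (pair A G) (pair B G) (Sum.map j id) (Sum.map e id) where
  inj := h.inj.sumMap injective_id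
  act := by
    rintro (x | x)
    · refine Finset.inl_mem_disjSum.trans ((h.act x).trans ?_)
      constructor
      · rintro ⟨y, hy, rfl⟩
        exact ⟨Sum.inl y, Finset.inl_mem_disjSum.2 hy, rfl⟩
      · rintro ⟨y | y, hy, hxy⟩
        · exact ⟨y, Finset.inl_mem_disjSum.1 hy, Sum.inl_injective hxy⟩
        · cases hxy
    · refine Finset.inr_mem_disjSum.trans ?_
      constructor
      · intro hx
        exact ⟨Sum.inr x, Finset.inr_mem_disjSum.2 hx, rfl⟩
      · rintro ⟨y | y, hy, hxy⟩
        · cases hxy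
        · have : y = x := Sum.inr_injective hxy
          rw [← this]
          exact Finset.inr_mem_disjSum.1 hy
  val := by
    rintro (y | y) hy
    · exact h.val y (fun h' => hy (Finset.inl_mem_disjSum.2 h'))
    · rfl
  con := by
    rintro s hs f ⟨h1, h2, h3⟩
    have hs' : InCube A.act A.val (fun x => s (Sum.inl x)) := fun x hx =>
      hs (Sum.inl x) (fun h' => hx (Finset.inl_mem_disjSum.1 h'))
    exact ⟨h.con _ hs' _ h1, h2, fun l => (h.leg _ hs' _ h1 l).symm.trans (h3 l)⟩
  det := by
    rintro s hs f ⟨h1, h2, h3⟩ h0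
    have hs' : InCube A.act A.val (fun x => s (Sum.inl x)) := fun x hx =>
      hs (Sum.inl x) (fun h' => hx (Finset.inl_mem_disjSum.1 h'))
    have h4 := h.det _ hs' _ h1 (fun p => h0 (Sum.inl p))
    funext z
    cases z with
    | inl p => exact congrFun h4 p
    | inr p => exact h0 (Sum.inr p)
  ext := by
    rintro s hs g ⟨h1, h2, h3⟩
    have hs' : InCube A.act A.val (fun x => s (Sum.inl x)) := fun x hx =>
      hs (Sum.inl x) (fun h' => hx (Finset.inl_mem_disjSum.1 h'))
    obtain ⟨f, hf, hfg⟩ := h.ext _ hs' _ h1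
    refine ⟨Sum.elim f (fun p => g (Sum.inr p)), ⟨hf, h2, fun l => ?_⟩, ?_⟩
    · exact ((h.leg _ hs' _ hf l).trans (hfg _)).trans (h3 l)
    · rintro (p | p)
      · exact hfg p
      · rfl
  u := by
    rintro s hs (y | y) hy f ⟨h1, h2, h3⟩
    · have hs' : InCube A.act A.val (fun x => s (Sum.inl x)) := fun x hx =>
        hs (Sum.inl x) (fun h' => hx (Finset.inl_mem_disjSum.1 h'))
      exact h.u _ hs' y (Finset.inl_mem_disjSum.1 hy) _ h1
    · rfl
  leg := fun _ _ _ _ l => l.elim

theorem Iso.pair_left {A B : PS Λ} (h : Iso A B) (C : PS Λ) : Iso (pair A C) (pair B C) := by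
  obtain ⟨j, e, h⟩ := h
  exact ⟨_, _, h.pairL C⟩

theorem Iso.pair_right {A B : PS Λ} (h : Iso A B) (C : PS Λ) : Iso (pair C A) (pair C B) := by
  obtain ⟨j, e, h⟩ := h
  exact ⟨_, _, h.pairR C⟩

theorem Iso.EE {A B : PS Λ} (h : Iso A B) (C : PS Λ) (n : ℤ) : EE A C n ↔ EE B C n :=
  (h.pair_left C).close n

/-- an isomorphism of open systems given by bijections of points and crossings -/
theorem Iso.of_equiv {A B : PS Λ} (j : B.P ≃ A.P) (e : B.X ≃ A.X)
    (hcon : ∀ s f, f ∈ A.Con s ↔ (fun p => f (j p)) ∈ B.Con (fun x => s (e x)))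
    (hua : ∀ y, A.ua (e y) = j (B.ua y)) (hub : ∀ y, A.ub (e y) = j (B.ub y))
    (hleg : ∀ l, A.leg l = j (B.leg l)) (hact : ∀ y, e y ∈ A.act ↔ y ∈ B.act)
    (hval : ∀ y, A.val (e y) = B.val y) : Iso A B :=
  ⟨j, e, {
    inj := e.injective
    act := fun x => by
      constructor
      · intro hx
        refine ⟨e.symm x, ?_, e.apply_symm_apply x⟩
        rw [← hact, e.apply_symm_apply]
        exact hx
      · rintro ⟨y, hy, rfl⟩
        exact (hact y).2 hy
    val := fun y _ => hval y
    con := fun s _ f hf => (hcon s f).1 hf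
    det := fun s _ f _ h0 => by
      funext p
      have := h0 (j.symm p)
      rw [j.apply_symm_apply] at this
      exact this
    ext := fun s _ g hg => by
      refine ⟨fun p => g (j.symm p), ?_, fun p => congrArg g (j.symm_apply_apply p)⟩
      rw [hcon]
      have : (fun p => g (j.symm (j p))) = g := funext (fun p => by rw [j.symm_apply_apply])
      rw [this]
      exact hg
    u := fun s _ y _ f _ => by rw [hua, hub]
    leg := fun s _ f _ l => by rw [hleg] }⟩

theorem EE_symm (A B : PS Λ) (n : ℤ) : EE A B n ↔ EE B A n := by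
  have h : Iso (pair A B) (pair B A) := by
    refine Iso.of_equiv (A := pair A B) (B := pair B A) (Equiv.sumComm B.P A.P)
      (Equiv.sumComm B.X A.X) ?_ ?_ ?_ (fun l => l.elim) ?_ ?_
    · intro s f
      constructor
      · rintro ⟨h1, h2, h3⟩
        exact ⟨h2, h1, fun l => (h3 l).symm⟩
      · rintro ⟨h1, h2, h3⟩
        exact ⟨h2, h1, fun l => (h3 l).symm⟩
    · rintro (y | y) <;> rfl
    · rintro (y | y) <;> rfl
    · rintro (y | y)
      · exact Finset.inr_mem_disjSum.trans Finset.inl_mem_disjSum.symm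
      · exact Finset.inl_mem_disjSum.trans Finset.inr_mem_disjSum.symm
    · rintro (y | y) <;> rfl
  exact h.close n

variable [DecidableEq Λ]

theorem lega_i (A : PS Λ) (l : Letter Λ) {k : Λ} (h : k = l.i) :
    (PS.attach A l).leg k = Sum.inr false :=
  if_pos h

theorem lega_j (A : PS Λ) (l : Letter Λ) {k : Λ} (h : k = l.j) :
    (PS.attach A l).leg k = Sum.inr true :=
  (if_neg (fun h' => l.ne (h'.symm.trans h))).trans (if_pos h)

theorem lega_ne (A : PS Λ) (l : Letter Λ) {k : Λ} (h : k ≠ l.i) (h' : k ≠ l.j) :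
    (PS.attach A l).leg k = Sum.inl (A.leg k) :=
  (if_neg h).trans (if_neg h')

theorem none_mem_act (A : PS Λ) (l : Letter Λ) :
    (none : Option A.X) ∈ (PS.attach A l).act ↔ l.fr = none := by
  obtain ⟨i, j, ne, m0, m1, mne, fr⟩ := l
  cases fr with
  | none => exact ⟨fun _ => rfl, fun _ => Finset.mem_insert_self _ _⟩
  | some b =>
    constructor
    · intro h
      obtain ⟨y, _, hy⟩ := Finset.mem_map.mp h
      exact absurd hy (Option.some_ne_none y)
    · intro h
      exact absurd h (Option.some_ne_none b)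

theorem some_mem_act (A : PS Λ) (l : Letter Λ) (y : A.X) :
    (some y : Option A.X) ∈ (PS.attach A l).act ↔ y ∈ A.act := by
  obtain ⟨i, j, ne, m0, m1, mne, fr⟩ := l
  have key : (some y : Option A.X) ∈ A.act.map Function.Embedding.some ↔ y ∈ A.act := by
    constructor
    · intro h
      obtain ⟨z, hz, hy⟩ := Finset.mem_map.mp h
      exact Option.some_injective _ hy ▸ hz
    · intro h
      exact Finset.mem_map.mpr ⟨y, h, rfl⟩
  cases fr with
  | none =>
    constructor
    · intro h
      rcases Finset.mem_insert.mp h with h | h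
      · exact absurd h (Option.some_ne_none y)
      · exact key.mp h
    · exact fun h => Finset.mem_insert_of_mem (key.mpr h)
  | some b => exact key


theorem Iso.attach {A B : PS Λ} (h : Iso A B) (l : Letter Λ) :
    Iso (attach A l) (attach B l) := by
  obtain ⟨j, e, h⟩ := h
  refine ⟨(Sum.map j id : B.P ⊕ Bool → A.P ⊕ Bool), (Option.map e : Option B.X → Option A.X), ?_⟩
  have hsome : ∀ (C : PS Λ) (x : C.X), (some x : Option C.X) ∈ (PS.attach C l).act ↔ x ∈ C.act := by
    intro C x
    show some x ∈ (match l.fr with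
      | none => insert none (C.act.map Function.Embedding.some)
      | some _ => C.act.map Function.Embedding.some) ↔ _
    cases l.fr <;> simp
  have hnone : ∀ (C : PS Λ), (none : Option C.X) ∈ (PS.attach C l).act ↔ l.fr = none := by
    intro C
    show none ∈ (match l.fr with
      | none => insert none (C.act.map Function.Embedding.some)
      | some _ => C.act.map Function.Embedding.some) ↔ _
    cases l.fr <;> simp
  have cube : ∀ s : Option A.X → Bool, InCube (PS.attach A l).act (PS.attach A l).val s →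
      InCube A.act A.val (fun x => s (some x)) := fun s hs x hx =>
    hs (some x) (fun h' => hx ((hsome A x).1 h'))
  exact {
    inj := Option.map_injective h.inj
    act := by
      rintro (_ | x)
      · refine (hnone A).trans ((hnone B).symm.trans ?_)
        constructor
        · intro h'
          exact ⟨none, h', rfl⟩
        · rintro ⟨_ | y, hy, hxy⟩
          · exact hy
          · cases hxy
      · refine (hsome A x).trans ((h.act x).trans ?_)
        constructor
        · rintro ⟨y, hy, rfl⟩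
          exact ⟨some y, (hsome B y).2 hy, rfl⟩
        · rintro ⟨_ | y, hy, hxy⟩
          · cases hxy
          · exact ⟨y, (hsome B y).1 hy, Option.some_injective _ hxy⟩
    val := by
      rintro (_ | y) hy
      · rfl
      · exact h.val y (fun h' => hy ((hsome B y).2 h'))
    con := by
      rintro s hs f ⟨h1, h2⟩
      refine ⟨h.con _ (cube s hs) _ h1, ?_⟩
      have e1 := h.leg _ (cube s hs) _ h1 l.i
      have e2 := h.leg _ (cube s hs) _ h1 l.j
      change f (Sum.inl (A.leg l.i)) = f (Sum.inl (j (B.leg l.i))) at e1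
      change f (Sum.inl (A.leg l.j)) = f (Sum.inl (j (B.leg l.j))) at e2
      show (l.mt (s none)).ok (f (Sum.inl (j (B.leg l.i)))) (f (Sum.inl (j (B.leg l.j))))
        (f (Sum.inr false)) (f (Sum.inr true))
      rw [← e1, ← e2]
      exact h2
    det := by
      rintro s hs f ⟨h1, h2⟩ h0
      have h4 := h.det _ (cube s hs) _ h1 (fun p => h0 (Sum.inl p))
      funext z
      cases z with
      | inl p => exact congrFun h4 p
      | inr p => exact h0 (Sum.inr p)
    ext := by
      rintro s hs g ⟨h1, h2⟩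
      obtain ⟨f, hf, hfg⟩ := h.ext _ (cube s hs) _ h1
      refine ⟨Sum.elim f (fun p => g (Sum.inr p)), ⟨hf, ?_⟩, ?_⟩
      · have e1 := (h.leg _ (cube s hs) _ hf l.i).trans (hfg _)
        have e2 := (h.leg _ (cube s hs) _ hf l.j).trans (hfg _)
        show (l.mt (s none)).ok (f (A.leg l.i)) (f (A.leg l.j))
          (g (Sum.inr false)) (g (Sum.inr true))
        rw [e1, e2]
        exact h2
      · rintro (p | p)
        · exact hfg p
        · rfl
    u := by
      rintro s hs (_ | y) hy f ⟨h1, h2⟩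
      · have e1 := h.leg _ (cube s hs) _ h1 l.i
        have e2 := h.leg _ (cube s hs) _ h1 l.j
        change f (Sum.inl (A.leg l.i)) = f (Sum.inl (j (B.leg l.i))) at e1
        change f (Sum.inl (A.leg l.j)) = f (Sum.inl (j (B.leg l.j))) at e2
        show f (Sum.inl (A.leg l.i)) + f (Mt.pick l.m0 l.m1 (Sum.inl (A.leg l.j)) (Sum.inr false)
            (Sum.inr true)) = f (Sum.inl (j (B.leg l.i))) + f ((Sum.map j id : B.P ⊕ Bool →
              A.P ⊕ Bool) (Mt.pick l.m0 l.m1 (Sum.inl (B.leg l.j)) (Sum.inr false) (Sum.inr true)))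
        rw [← e1]
        congr 1
        generalize l.m0 = m0
        generalize l.m1 = m1
        cases m0 <;> cases m1 <;> first | exact e2 | rfl
      · exact h.u _ (cube s hs) y ((hsome B y).1 hy) _ h1
    leg := by
      rintro s hs f ⟨h1, h2⟩ k
      have e1 := h.leg _ (cube s hs) _ h1 k
      change f (Sum.inl (A.leg k)) = f (Sum.inl (j (B.leg k))) at e1
      by_cases k1 : k = l.i
      · exact (congrArg f (lega_i A l k1)).trans
          (congrArg (fun z => f ((Sum.map j id : B.P ⊕ Bool → A.P ⊕ Bool) z)) (lega_i B l k1)).symm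
      · by_cases k2 : k = l.j
        · exact (congrArg f (lega_j A l k2)).trans
            (congrArg (fun z => f ((Sum.map j id : B.P ⊕ Bool → A.P ⊕ Bool) z))
              (lega_j B l k2)).symm
        · exact (congrArg f (lega_ne A l k1 k2)).trans (e1.trans
            (congrArg (fun z => f ((Sum.map j id : B.P ⊕ Bool → A.P ⊕ Bool) z))
              (lega_ne B l k1 k2)).symm) }

theorem Iso.attachW {A B : PS Λ} (h : Iso A B) (w : List (Letter Λ)) :
    Iso (attachW A w) (attachW B w) := by
  induction w with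
  | nil => exact h
  | cons l w ih => exact ih.attach l

theorem Mt.ok_symm (m : Mt) (a b c d : ZMod 2) : m.ok a b c d ↔ m.ok c d a b := by
  revert a b c d
  cases m <;> decide

theorem Mt.symm_u (m m' : Mt) (a b c d : ZMod 2) (h : m.ok a b c d ∨ m'.ok a b c d)
    (hne : m ≠ m') : a + Mt.pick m m' b c d = c + Mt.pick m m' d a b := by
  revert h hne
  revert a b c d
  cases m <;> cases m' <;> decide

/-- Moving a letter to the other side. -/
theorem EE_attach (A B : PS Λ) (l : Letter Λ) (n : ℤ) :
    EE (attach A l) B n ↔ EE A (attach B l) n := by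
  let j : A.P ⊕ (B.P ⊕ Bool) → (A.P ⊕ Bool) ⊕ B.P := fun p => match p with
    | Sum.inl a => Sum.inl (Sum.inl a)
    | Sum.inr (Sum.inl b) => Sum.inr b
    | Sum.inr (Sum.inr c) => Sum.inl (Sum.inl (if c then A.leg l.j else A.leg l.i))
  let e : A.X ⊕ Option B.X → Option A.X ⊕ B.X := fun x => match x with
    | Sum.inl a => Sum.inl (some a)
    | Sum.inr none => Sum.inl none
    | Sum.inr (some b) => Sum.inr b
  let e' : Option A.X ⊕ B.X → A.X ⊕ Option B.X := fun x => match x with
    | Sum.inl (some a) => Sum.inl a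
    | Sum.inl none => Sum.inr none
    | Sum.inr b => Sum.inr (some b)
  have ee : ∀ x, e' (e x) = x := by rintro (a | _ | b) <;> rfl
  have ee' : ∀ x, e (e' x) = x := by rintro ((_ | a) | b) <;> rfl
  have act : ∀ x, e x ∈ (pair (PS.attach A l) B).act ↔ x ∈ (pair A (PS.attach B l)).act := by
    rintro (a | _ | b)
    · exact Finset.inl_mem_disjSum.trans ((some_mem_act A l a).trans Finset.inl_mem_disjSum.symm)
    · exact Finset.inl_mem_disjSum.trans ((none_mem_act A l).trans
        ((none_mem_act B l).symm.trans Finset.inr_mem_disjSum.symm))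
    · exact Finset.inr_mem_disjSum.trans ((some_mem_act B l b).symm.trans
        Finset.inr_mem_disjSum.symm)
  have key : IsoData (pair (PS.attach A l) B) (pair A (PS.attach B l)) j e := by
    have legs : ∀ s f, f ∈ (pair (PS.attach A l) B).Con s →
        f (Sum.inl (Sum.inr false)) = f (Sum.inr (B.leg l.i)) ∧
        f (Sum.inl (Sum.inr true)) = f (Sum.inr (B.leg l.j)) := by
      rintro s f ⟨h1, h2, h3⟩
      exact ⟨(congrArg (fun z => f (Sum.inl z)) (lega_i A l rfl)).symm.trans (h3 l.i),
        (congrArg (fun z => f (Sum.inl z)) (lega_j A l rfl)).symm.trans (h3 l.j)⟩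
    have oks : ∀ s f, f ∈ (pair (PS.attach A l) B).Con s →
        (l.mt (s (Sum.inl none))).ok (f (Sum.inl (Sum.inl (A.leg l.i))))
          (f (Sum.inl (Sum.inl (A.leg l.j)))) (f (Sum.inr (B.leg l.i)))
          (f (Sum.inr (B.leg l.j))) := by
      intro s f hf
      obtain ⟨e1, e2⟩ := legs s f hf
      rw [← e1, ← e2]
      exact hf.1.2
    constructor
    · exact LeftInverse.injective ee
    · intro x
      constructor
      · intro hx
        exact ⟨e' x, (act _).1 ((congrArg (· ∈ (pair (PS.attach A l) B).act) (ee' x)).mpr hx),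
          ee' x⟩
      · rintro ⟨y, hy, rfl⟩
        exact (act y).2 hy
    · rintro (a | _ | b) _ <;> rfl
    · intro s _ f hf
      refine ⟨hf.1.1, ⟨hf.2.1, (Mt.ok_symm _ _ _ _ _).1 (oks s f hf)⟩, fun k => ?_⟩
      show f (Sum.inl (Sum.inl (A.leg k))) = f (j (Sum.inr ((PS.attach B l).leg k)))
      by_cases k1 : k = l.i
      · rw [lega_i B l k1, k1]
        rfl
      · by_cases k2 : k = l.j
        · rw [lega_j B l k2, k2]
          rfl
        · rw [lega_ne B l k1 k2]
          exact (congrArg (fun z => f (Sum.inl z)) (lega_ne A l k1 k2)).symm.trans (hf.2.2 k)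
    · intro s _ f hf hz
      obtain ⟨e1, e2⟩ := legs s f hf
      funext p
      rcases p with (p | c) | p
      · exact hz (Sum.inl p)
      · cases c
        · exact e1.trans (hz (Sum.inr (Sum.inl _)))
        · exact e2.trans (hz (Sum.inr (Sum.inl _)))
      · exact hz (Sum.inr (Sum.inl p))
    · rintro s _ g ⟨h1, ⟨h2, h4⟩, h3⟩
      have e1 : g (Sum.inl (A.leg l.i)) = g (Sum.inr (Sum.inr false)) :=
        (h3 l.i).trans (congrArg (fun z => g (Sum.inr z)) (lega_i B l rfl))
      have e2 : g (Sum.inl (A.leg l.j)) = g (Sum.inr (Sum.inr true)) :=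
        (h3 l.j).trans (congrArg (fun z => g (Sum.inr z)) (lega_j B l rfl))
      refine ⟨fun p => match p with
        | Sum.inl (Sum.inl a) => g (Sum.inl a)
        | Sum.inl (Sum.inr c) => g (Sum.inr (Sum.inl (if c then B.leg l.j else B.leg l.i)))
        | Sum.inr b => g (Sum.inr (Sum.inl b)), ⟨⟨h1, ?_⟩, h2, ?_⟩, ?_⟩
      · show (l.mt (s (Sum.inl none))).ok (g (Sum.inl (A.leg l.i))) (g (Sum.inl (A.leg l.j)))
          (g (Sum.inr (Sum.inl (B.leg l.i)))) (g (Sum.inr (Sum.inl (B.leg l.j))))
        rw [e1, e2]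
        exact (Mt.ok_symm _ _ _ _ _).1 h4
      · intro k
        by_cases k1 : k = l.i
        · rw [lega_i A l k1, k1]
          rfl
        · by_cases k2 : k = l.j
          · rw [lega_j A l k2, k2]
            rfl
          · rw [lega_ne A l k1 k2]
            exact (h3 k).trans (congrArg (fun z => g (Sum.inr z)) (lega_ne B l k1 k2))
      · rintro (a | b | c)
        · rfl
        · rfl
        · cases c
          · exact e1
          · exact e2
    · rintro s _ (a | _ | b) _ f hf
      · rfl
      · obtain ⟨e1, e2⟩ := legs s f hf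
        have h := oks s f hf
        have h' : l.m0.ok (f (Sum.inl (Sum.inl (A.leg l.i))))
            (f (Sum.inl (Sum.inl (A.leg l.j)))) (f (Sum.inr (B.leg l.i)))
            (f (Sum.inr (B.leg l.j))) ∨ l.m1.ok (f (Sum.inl (Sum.inl (A.leg l.i))))
            (f (Sum.inl (Sum.inl (A.leg l.j)))) (f (Sum.inr (B.leg l.i)))
            (f (Sum.inr (B.leg l.j))) := by
          cases hs : s (Sum.inl none)
          · left; rw [hs] at h; exact h
          · right; rw [hs] at h; exact h
        have h2 := Mt.symm_u l.m0 l.m1 _ _ _ _ h' l.mne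
        show f (Sum.inl (Sum.inl (A.leg l.i))) + f (Sum.inl (Mt.pick l.m0 l.m1
          (Sum.inl (A.leg l.j)) (Sum.inr false) (Sum.inr true))) =
          f (Sum.inr (B.leg l.i)) + f (j (Sum.inr (Mt.pick l.m0 l.m1
          (Sum.inl (B.leg l.j)) (Sum.inr false) (Sum.inr true))))
        have p1 : f (Sum.inl (Mt.pick l.m0 l.m1 (Sum.inl (A.leg l.j)) (Sum.inr false)
            (Sum.inr true))) = Mt.pick l.m0 l.m1 (f (Sum.inl (Sum.inl (A.leg l.j))))
            (f (Sum.inr (B.leg l.i))) (f (Sum.inr (B.leg l.j))) := by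
          rw [← e1, ← e2]
          exact Mt.pick_map (fun z => f (Sum.inl z)) l.m0 l.m1 _ _ _
        have p2 : f (j (Sum.inr (Mt.pick l.m0 l.m1 (Sum.inl (B.leg l.j)) (Sum.inr false)
            (Sum.inr true)))) = Mt.pick l.m0 l.m1 (f (Sum.inr (B.leg l.j)))
            (f (Sum.inl (Sum.inl (A.leg l.i)))) (f (Sum.inl (Sum.inl (A.leg l.j)))) :=
          Mt.pick_map (fun z => f (j (Sum.inr z))) l.m0 l.m1 _ _ _
        rw [p1, p2]
        exact h2
      · rfl
    · exact fun _ _ _ _ k => k.elim
  exact Iso.close ⟨j, e, key⟩ n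

theorem EE_attachW (A B : PS Λ) (w : List (Letter Λ)) (n : ℤ) :
    EE (attachW A w) B n ↔ EE A (attachW B w.reverse) n := by
  induction w generalizing A B with
  | nil => exact Iff.rfl
  | cons l w ih =>
    rw [List.reverse_cons, attachW_append]
    exact (EE_attach (attachW A w) B l n).trans (ih A (PS.attach B l))

/-- `A` with a matching (without a crossing) attached. -/
def tie (A : PS Λ) (i j : Λ) (h : i ≠ j) (m : Mt) : PS Λ where
  P := A.P ⊕ Bool
  X := A.X
  Con s :=
    { carrier := {f | (fun p => f (Sum.inl p)) ∈ A.Con s ∧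
        m.ok (f (Sum.inl (A.leg i))) (f (Sum.inl (A.leg j)))
          (f (Sum.inr false)) (f (Sum.inr true))}
      add_mem' := by
        rintro f g ⟨h1, h2⟩ ⟨k1, k2⟩
        refine ⟨Submodule.add_mem _ h1 k1, ?_⟩
        revert h2 k2
        cases m <;>
        · rintro ⟨h1, h2⟩ ⟨k1, k2⟩
          exact ⟨by simp only [Pi.add_apply, h1, k1], by simp only [Pi.add_apply, h2, k2]⟩
      zero_mem' := by
        refine ⟨Submodule.zero_mem _, ?_⟩
        cases m <;> exact ⟨rfl, rfl⟩
      smul_mem' := by
        rintro c f ⟨h1, h2⟩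
        refine ⟨Submodule.smul_mem _ c h1, ?_⟩
        revert h2
        cases m <;>
        · rintro ⟨h1, h2⟩
          exact ⟨by simp only [Pi.smul_apply, h1], by simp only [Pi.smul_apply, h2]⟩ }
  ua x := Sum.inl (A.ua x)
  ub x := Sum.inl (A.ub x)
  leg k := if k = i then Sum.inr false else if k = j then Sum.inr true else Sum.inl (A.leg k)
  act := A.act
  val := A.val
  swap := fun s x b f hf h' => ⟨A.swap s x b _ hf.1 h', hf.2⟩
  star := by
    rintro s s' f f' ⟨h1, h2⟩ ⟨h1', h2'⟩
    have e1 := A.star _ _ _ _ h1 h1'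
    have e2 := Mt.star _ _ _ _ _ _ _ _ _ _ h2 h2'
    rw [if_pos rfl] at e2
    have e3 := attach_sum ⟨i, j, h, Mt.I, Mt.S, by simp, none⟩
      (fun k => f (Sum.inl (A.leg k)) * f' (Sum.inl (A.leg k)))
      (f (Sum.inr false) * f' (Sum.inr false)) (f (Sum.inr true) * f' (Sum.inr true))
    have e4 : ∀ k, f (if k = i then Sum.inr false else if k = j then Sum.inr true
        else Sum.inl (A.leg k)) * f' (if k = i then Sum.inr false
        else if k = j then Sum.inr true else Sum.inl (A.leg k)) =
        (if k = i then f (Sum.inr false) * f' (Sum.inr false) else if k = j then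
          f (Sum.inr true) * f' (Sum.inr true) else
          f (Sum.inl (A.leg k)) * f' (Sum.inl (A.leg k))) := by
      intro k
      split_ifs <;> rfl
    refine (Finset.sum_congr rfl (fun k _ => e4 k)).trans ?_
    refine e3.trans ?_
    rw [e1, e2, add_zero]

theorem Iso.frozen_tie (A : PS Λ) (l : Letter Λ) (b : Bool) (h : l.fr = some b) (m : Mt)
    (hm : l.mt b = m) : Iso (PS.attach A l) (PS.tie A l.i l.j l.ne m) := by
  subst hm
  obtain ⟨i, j, ne, m0, m1, mne, fr⟩ := l
  subst h
  have hs : ∀ s, InCube (PS.attach A ⟨i, j, ne, m0, m1, mne, some b⟩).act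
      (PS.attach A ⟨i, j, ne, m0, m1, mne, some b⟩).val s → s none = b := by
    intro s hs
    refine hs none ?_
    intro h
    obtain ⟨y, _, hy⟩ := Finset.mem_map.mp h
    exact Option.some_ne_none y hy
  refine ⟨id, some, ?_⟩
  constructor
  · exact Option.some_injective _
  · intro x
    constructor
    · intro hx
      obtain ⟨y, hy, rfl⟩ := Finset.mem_map.mp hx
      exact ⟨y, hy, rfl⟩
    · rintro ⟨y, hy, rfl⟩
      exact Finset.mem_map.mpr ⟨y, hy, rfl⟩
  · intro y _; rfl
  · rintro s h f ⟨h1, h2⟩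
    rw [hs s h] at h2
    exact ⟨h1, h2⟩
  · intro s _ f _ hz
    exact funext hz
  · rintro s h g ⟨h1, h2⟩
    refine ⟨g, ⟨h1, ?_⟩, fun _ => rfl⟩
    rw [hs s h]
    exact h2
  · intro s _ y _ f _; rfl
  · intro s _ f _ k; rfl

/-- A frozen letter only depends on its smoothing. -/
theorem EE_frozen (A : PS Λ) (l l' : Letter Λ) (b b' : Bool) (hi : l.i = l'.i)
    (hj : l.j = l'.j) (h : l.fr = some b) (h' : l'.fr = some b') (hm : l.mt b = l'.mt b')
    (B : PS Λ) (n : ℤ) : EE (PS.attach A l) B n ↔ EE (PS.attach A l') B n := by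
  have h1 := Iso.frozen_tie A l b h _ hm
  have h2 := Iso.frozen_tie A l' b' h' _ rfl
  obtain ⟨i, j, ne, m0, m1, mne, fr⟩ := l
  obtain ⟨i', j', ne', m0', m1', mne', fr'⟩ := l'
  subst hi hj
  exact (h1.EE B n).trans (h2.EE B n).symm

/-- A frozen letter with smoothing `I` can be removed. -/
theorem Iso.frozenI (A : PS Λ) (l : Letter Λ) (b : Bool) (h : l.fr = some b)
    (hm : l.mt b = Mt.I) : Iso (PS.attach A l) A := by
  obtain ⟨i, j, ne, m0, m1, mne, fr⟩ := l
  subst h
  have hs : ∀ s, InCube (PS.attach A ⟨i, j, ne, m0, m1, mne, some b⟩).act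
      (PS.attach A ⟨i, j, ne, m0, m1, mne, some b⟩).val s → s none = b := by
    intro s hs
    refine hs none ?_
    intro h
    obtain ⟨y, _, hy⟩ := Finset.mem_map.mp h
    exact Option.some_ne_none y hy
  have hok : ∀ s, InCube (PS.attach A ⟨i, j, ne, m0, m1, mne, some b⟩).act
      (PS.attach A ⟨i, j, ne, m0, m1, mne, some b⟩).val s → ∀ f ∈
      (PS.attach A ⟨i, j, ne, m0, m1, mne, some b⟩).Con s,
      f (Sum.inl (A.leg i)) = f (Sum.inr false) ∧ f (Sum.inl (A.leg j)) = f (Sum.inr true) := by
    rintro s h f ⟨h1, h2⟩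
    rw [hs s h, hm] at h2
    exact h2
  refine ⟨Sum.inl, some, ?_⟩
  constructor
  · exact Option.some_injective _
  · intro x
    constructor
    · intro hx
      obtain ⟨y, hy, rfl⟩ := Finset.mem_map.mp hx
      exact ⟨y, hy, rfl⟩
    · rintro ⟨y, hy, rfl⟩
      exact Finset.mem_map.mpr ⟨y, hy, rfl⟩
  · intro y _; rfl
  · rintro s _ f ⟨h1, h2⟩
    exact h1
  · intro s h f hf hz
    obtain ⟨h1, h2⟩ := hok s h f hf
    funext p
    rcases p with p | c
    · exact hz p
    · cases c
      · exact h1.symm.trans (hz _)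
      · exact h2.symm.trans (hz _)
  · intro s h g hg
    refine ⟨Sum.elim g (fun c => if c then g (A.leg j) else g (A.leg i)), ⟨hg, ?_⟩,
      fun _ => rfl⟩
    rw [hs s h, hm]
    exact ⟨rfl, rfl⟩
  · intro s _ y _ f _; rfl
  · intro s h f hf k
    obtain ⟨h1, h2⟩ := hok s h f hf
    by_cases hi : k = i
    · subst hi
      exact (congrArg f (lega_i A ⟨k, j, ne, m0, m1, mne, some b⟩ rfl)).trans h1.symm
    · by_cases hj : k = j
      · subst hj
        exact (congrArg f (lega_j A ⟨i, k, ne, m0, m1, mne, some b⟩ rfl)).trans h2.symm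
      · exact congrArg f (lega_ne A ⟨i, j, ne, m0, m1, mne, some b⟩ hi hj)

theorem Mt.ok_flip (m : Mt) (a b c d : ZMod 2) : m.ok a b c d ↔ m.ok b a d c := by
  cases m <;> constructor <;> rintro ⟨rfl, rfl⟩ <;> exact ⟨rfl, rfl⟩

theorem Mt.flip_u (m m' : Mt) (a b c d : ZMod 2) (h : m.ok a b c d ∨ m'.ok a b c d)
    (hne : m ≠ m') : a + Mt.pick m m' b c d = b + Mt.pick m m' a d c := by
  revert h hne
  revert a b c d
  cases m <;> cases m' <;> decide

/-- Exchanging the roles of the two legs of a letter. -/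
theorem Iso.flip (A : PS Λ) (l : Letter Λ) :
    Iso (PS.attach A l) (PS.attach A ⟨l.j, l.i, l.ne.symm, l.m0, l.m1, l.mne, l.fr⟩) := by
  obtain ⟨i, j, ne, m0, m1, mne, fr⟩ := l
  refine ⟨Sum.map id (!·), id, ?_⟩
  constructor
  · exact injective_id
  · intro x
    constructor
    · exact fun hx => ⟨x, hx, rfl⟩
    · rintro ⟨y, hy, rfl⟩
      exact hy
  · intro y _; rfl
  · rintro s _ f ⟨h1, h2⟩
    exact ⟨h1, (Mt.ok_flip _ _ _ _ _).mp h2⟩
  · intro s _ f _ hz
    funext p
    rcases p with p | c
    · exact hz (Sum.inl p)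
    · have := hz (Sum.inr (!c))
      cases c <;> exact this
  · rintro s _ g ⟨h1, h2⟩
    refine ⟨fun p => g (Sum.map id (!·) p), ⟨h1, (Mt.ok_flip _ _ _ _ _).mp h2⟩, ?_⟩
    rintro (p | c)
    · rfl
    · cases c <;> rfl
  · intro s _ y hy f hf
    cases y with
    | some y => rfl
    | none =>
      have h : m0.ok (f (Sum.inl (A.leg i))) (f (Sum.inl (A.leg j))) (f (Sum.inr false))
          (f (Sum.inr true)) ∨ m1.ok (f (Sum.inl (A.leg i))) (f (Sum.inl (A.leg j)))
          (f (Sum.inr false)) (f (Sum.inr true)) := by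
        have := hf.2
        cases hs : s none
        · left; rw [hs] at this; exact this
        · right; rw [hs] at this; exact this
      have h2 := Mt.flip_u m0 m1 _ _ _ _ h mne
      show f (Sum.inl (A.leg i)) + f (Mt.pick m0 m1 (Sum.inl (A.leg j)) (Sum.inr false)
        (Sum.inr true)) = f (Sum.inl (A.leg j)) + f (Sum.map id (!·) (Mt.pick m0 m1
        (Sum.inl (A.leg i)) (Sum.inr false) (Sum.inr true)))
      refine (congrArg (f (Sum.inl (A.leg i)) + ·) (Mt.pick_map f m0 m1 _ _ _)).trans
        (h2.trans (congrArg _ ?_))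
      cases m0 <;> cases m1 <;> rfl
  · intro s _ f _ k
    by_cases hi : k = i
    · subst hi
      refine (congrArg f (lega_i A ⟨k, j, ne, m0, m1, mne, fr⟩ rfl)).trans ?_
      exact (congrArg (fun z => f (Sum.map id (!·) z))
        (lega_j A ⟨j, k, ne.symm, m0, m1, mne, fr⟩ rfl)).symm
    · by_cases hj : k = j
      · subst hj
        refine (congrArg f (lega_j A ⟨i, k, ne, m0, m1, mne, fr⟩ rfl)).trans ?_
        exact (congrArg (fun z => f (Sum.map id (!·) z))
          (lega_i A ⟨k, i, ne.symm, m0, m1, mne, fr⟩ rfl)).symm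
      · refine (congrArg f (lega_ne A ⟨i, j, ne, m0, m1, mne, fr⟩ hi hj)).trans ?_
        exact (congrArg (fun z => f (Sum.map id (!·) z))
          (lega_ne A ⟨j, i, ne.symm, m0, m1, mne, fr⟩ hj hi)).symm

/-- Letters at disjoint pairs of legs commute. -/
theorem Iso.comm (A : PS Λ) (l l' : Letter Λ) (h1 : l.i ≠ l'.i) (h2 : l.i ≠ l'.j)
    (h3 : l.j ≠ l'.i) (h4 : l.j ≠ l'.j) :
    Iso (PS.attach (PS.attach A l) l') (PS.attach (PS.attach A l') l) := by
  let j : (A.P ⊕ Bool) ⊕ Bool → (A.P ⊕ Bool) ⊕ Bool := fun p => match p with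
    | Sum.inl (Sum.inl p) => Sum.inl (Sum.inl p)
    | Sum.inl (Sum.inr c) => Sum.inr c
    | Sum.inr c => Sum.inl (Sum.inr c)
  let e : Option (Option A.X) → Option (Option A.X) := fun x => match x with
    | none => some none
    | some none => none
    | some (some x) => some (some x)
  have jj : ∀ p, j (j p) = p := by rintro ((p | c) | c) <;> rfl
  have ee : ∀ x, e (e x) = x := by rintro (_ | _ | x) <;> rfl
  have act : ∀ (l l' : Letter Λ) x, x ∈ (PS.attach (PS.attach A l') l).act →
      e x ∈ (PS.attach (PS.attach A l) l').act := by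
    rintro l l' (_ | _ | x) h
    · exact (some_mem_act (PS.attach A l) l' none).mpr ((none_mem_act A l).mpr
        ((none_mem_act (PS.attach A l') l).mp h))
    · exact (none_mem_act (PS.attach A l) l').mpr ((none_mem_act A l').mp
        ((some_mem_act (PS.attach A l') l none).mp h))
    · exact (some_mem_act (PS.attach A l) l' (some x)).mpr ((some_mem_act A l x).mpr
        ((some_mem_act A l' x).mp ((some_mem_act (PS.attach A l') l (some x)).mp h)))
  have con : ∀ (l l' : Letter Λ) (h1 : l.i ≠ l'.i) (h2 : l.i ≠ l'.j)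
      (h3 : l.j ≠ l'.i) (h4 : l.j ≠ l'.j) s f, f ∈ (PS.attach (PS.attach A l) l').Con s →
      (fun p => f (j p)) ∈ (PS.attach (PS.attach A l') l).Con (fun x => s (e x)) := by
    rintro l l' h1 h2 h3 h4 s f ⟨⟨k1, k2⟩, k3⟩
    rw [lega_ne A l h1.symm h3.symm, lega_ne A l h2.symm h4.symm] at k3
    refine ⟨⟨k1, k3⟩, ?_⟩
    rw [lega_ne A l' h1 h2, lega_ne A l' h3 h4]
    exact k2
  refine ⟨j, e, ?_⟩
  constructor
  · exact LeftInverse.injective ee
  · intro x
    constructor
    · intro hx
      exact ⟨e x, act l' l x hx, ee x⟩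
    · rintro ⟨y, hy, rfl⟩
      exact act l l' y hy
  · rintro (_ | _ | y) _ <;> rfl
  · exact fun s _ f hf => con l l' h1 h2 h3 h4 s f hf
  · intro s _ f _ hz
    funext p
    exact (congrArg f (jj p)).symm.trans (hz (j p))
  · intro s _ g hg
    refine ⟨fun p => g (j p), ?_, fun p => congrArg g (jj p)⟩
    have := con l' l h1.symm h3.symm h2.symm h4.symm _ g hg
    have h5 : (fun x => s (e (e x))) = s := funext (fun x => congrArg s (ee x))
    rw [← h5]
    exact this
  · have pm : ∀ (m m' : Mt) (b c d : A.P ⊕ Bool), Mt.pick m m' (Sum.inl b) (Sum.inl c)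
        (Sum.inl d) = (Sum.inl (Mt.pick m m' b c d) : (A.P ⊕ Bool) ⊕ Bool) := by
      intro m m' b c d
      cases m <;> cases m' <;> rfl
    have pj : ∀ (m m' : Mt) (b c d : (A.P ⊕ Bool) ⊕ Bool), j (Mt.pick m m' b c d) =
        Mt.pick m m' (j b) (j c) (j d) := by
      intro m m' b c d
      cases m <;> cases m' <;> rfl
    rintro s _ (_ | _ | y) _ f _
    · have e1 : (PS.attach A l').leg l.i = Sum.inl (A.leg l.i) := lega_ne A l' h1 h2
      have e2 : (PS.attach A l').leg l.j = Sum.inl (A.leg l.j) := lega_ne A l' h3 h4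
      refine congrArg₂ (fun z w => f z + f w) ?_ ?_
      · exact (congrArg (fun z => j (Sum.inl z)) e1).symm
      · refine Eq.trans ?_ (pj _ _ _ _ _).symm
        refine Eq.trans ?_ (congrArg (fun z => Mt.pick l.m0 l.m1 (j (Sum.inl z))
          (j (Sum.inr false)) (j (Sum.inr true))) e2).symm
        exact (pm _ _ _ _ _).symm
    · have e1 : (PS.attach A l).leg l'.i = Sum.inl (A.leg l'.i) := lega_ne A l h1.symm h3.symm
      have e2 : (PS.attach A l).leg l'.j = Sum.inl (A.leg l'.j) := lega_ne A l h2.symm h4.symm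
      refine congrArg₂ (fun z w => f z + f w) ?_ ?_
      · exact congrArg Sum.inl e1
      · refine Eq.trans ?_ (congrArg j (pm _ _ _ _ _))
        refine Eq.trans ?_ (pj _ _ _ _ _).symm
        exact congrArg (fun z => Mt.pick l'.m0 l'.m1 (Sum.inl z) (Sum.inr false)
          (Sum.inr true)) e2
    · rfl
  · intro s _ f _ k
    refine congrArg f ?_
    by_cases k1 : k = l'.i
    · have c1 : k ≠ l.i := k1 ▸ h1.symm
      have c2 : k ≠ l.j := k1 ▸ h3.symm
      refine (lega_i (PS.attach A l) l' k1).trans ?_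
      refine Eq.trans ?_ (congrArg j (lega_ne (PS.attach A l') l c1 c2)).symm
      exact (congrArg (fun z => j (Sum.inl z)) (lega_i A l' k1)).symm
    · by_cases k2 : k = l'.j
      · have c1 : k ≠ l.i := k2 ▸ h2.symm
        have c2 : k ≠ l.j := k2 ▸ h4.symm
        refine (lega_j (PS.attach A l) l' k2).trans ?_
        refine Eq.trans ?_ (congrArg j (lega_ne (PS.attach A l') l c1 c2)).symm
        exact (congrArg (fun z => j (Sum.inl z)) (lega_j A l' k2)).symm
      · refine (lega_ne (PS.attach A l) l' k1 k2).trans ?_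
        by_cases k3 : k = l.i
        · refine (congrArg Sum.inl (lega_i A l k3)).trans ?_
          exact (congrArg j (lega_i (PS.attach A l') l k3)).symm
        · by_cases k4 : k = l.j
          · refine (congrArg Sum.inl (lega_j A l k4)).trans ?_
            exact (congrArg j (lega_j (PS.attach A l') l k4)).symm
          · refine (congrArg Sum.inl (lega_ne A l k3 k4)).trans ?_
            refine Eq.trans ?_ (congrArg j (lega_ne (PS.attach A l') l k3 k4)).symm
            exact (congrArg (fun z => j (Sum.inl z)) (lega_ne A l' k1 k2)).symm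

/-- Attaching a letter to a refrozen system. -/
theorem attach_refreeze (A : PS Λ) (a : Finset A.X) (c : A.X → Bool) (l : Letter Λ) :
    PS.attach (refreeze A a c) l = refreeze (PS.attach A l)
      (match l.fr with
        | none => insert none (a.map Function.Embedding.some)
        | some _ => a.map Function.Embedding.some)
      (fun x => x.elim (l.fr.getD false) c) := rfl

end PS

end Spg
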