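import Pool.Agent.H85.SpgFinger
import Pool.Agent.H50.SpgStar

/-!
# Diagrams as open systems, chain property: definitions (layer M10)
-/

set_option linter.unusedSectionVars false

open Function

namespace Spg

theorem sm_sm (b : Bool) (i : Fin 4) : sm b (sm b i) = i := by
  revert b i; decide

/-- The open system of a tangle: the legs are the open ends. -/
def Tangle.toPS {R : Type} [Fintype R] [DecidableEq R] (t : Tangle R) : PS R where
  P := t.End
  X := t.X
  Con s :=
    { carrier := {f | (∀ d, f (t.glue d) = f d) ∧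
        (∀ x i, f (Sum.inl (x, sm (s x) i)) = f (Sum.inl (x, i)))}
      add_mem' := by
        rintro f g ⟨h1, h2⟩ ⟨k1, k2⟩
        refine ⟨fun d => ?_, fun x i => ?_⟩
        · simp only [Pi.add_apply, h1, k1]
        · simp only [Pi.add_apply, h2, k2]
      zero_mem' := ⟨fun _ => rfl, fun _ _ => rfl⟩
      smul_mem' := by
        rintro c f ⟨h1, h2⟩
        refine ⟨fun d => ?_, fun x i => ?_⟩
        · simp only [Pi.smul_apply, h1]
        · simp only [Pi.smul_apply, h2] }
  ua x := Sum.inl (x, 0)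
  ub x := Sum.inl (x, 2)
  leg v := Sum.inr v
  act := Finset.univ
  val _ := false
  swap := fun s x b f hf h => ⟨hf.1, t.swap_aux s x b f hf.2 h⟩
  star := fun s s' f f' hf hf' => t.star_aux s s' f f' hf.1 hf.2 hf'.1 hf'.2

namespace Diagram

/-- The open system of a diagram: the legs are the ends at the vertices. -/
def toPS (G : Diagram) : PS G.V where
  P := G.End
  X := G.X
  Con s :=
    { carrier := {f | (∀ d, f (G.glue d) = f d) ∧
        (∀ x i, f (Sum.inl (x, sm (s x) i)) = f (Sum.inl (x, i))) ∧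
        (∀ m, f (Sum.inr (Sum.inl (m, 0))) = f (Sum.inr (Sum.inl (m, 1))))}
      add_mem' := by
        rintro f g ⟨h1, h2, h3⟩ ⟨k1, k2, k3⟩
        refine ⟨fun d => ?_, fun x i => ?_, fun m => ?_⟩
        · simp only [Pi.add_apply, h1, k1]
        · simp only [Pi.add_apply, h2, k2]
        · simp only [Pi.add_apply, h3, k3]
      zero_mem' := ⟨fun _ => rfl, fun _ _ => rfl, fun _ => rfl⟩
      smul_mem' := by
        rintro c f ⟨h1, h2, h3⟩
        refine ⟨fun d => ?_, fun x i => ?_, fun m => ?_⟩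
        · simp only [Pi.smul_apply, h1]
        · simp only [Pi.smul_apply, h2]
        · simp only [Pi.smul_apply, h3] }
  ua x := Sum.inl (x, 0)
  ub x := Sum.inl (x, 2)
  leg v := Sum.inr (Sum.inr v)
  act := Finset.univ
  val _ := false
  swap := fun s x b f hf h => ⟨hf.1, G.tan.swap_aux s x b f hf.2.1 h, hf.2.2⟩
  star := fun s s' f f' hf hf' => G.star_aux s s' f f' hf.1 hf.2.1 hf.2.2 hf'.1 hf'.2.1 hf'.2.2

/-- The chain property. -/
def CP (G H : Diagram) : Prop :=
  ∃ e : H.V ≃ G.V, (∀ v, e (H.next v) = G.next (e v)) ∧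
    ∃ (β : List (AL G.V)) (k : ℤ), (∀ a ∈ β, a.fr = none) ∧
      ∀ (c : G.V → Bool) (hc : ∀ v, c (G.next v) = !c v)
        (hc' : ∀ v, (c ∘ e) (H.next v) = !(c ∘ e) v) (W : List (AL H.V)) (n : ℤ),
        PS.EE H.toPS (KK0 hc' W) n ↔
          PS.EE G.toPS (KK0 hc (β ++ W.map (fun a => ⟨e a.v, a.b, a.fr⟩))) (n + k)

end Diagram

end Spg
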