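import Pool.Agent.H85.SpgIso
import Pool.Agent.H78.SpgZ
import Pool.Agent.H78.SpgG
import Pool.Agent.H78.SpgF2
import Pool.Agent.H78.SpgQ

/-!
# The property `ZZ` for a closing of an open system (definitions for F6 and M11)
-/

set_option linter.unusedSectionVars false

open Function

namespace Spg

/-- Extension by zero. -/
def extL (P Q : Type) : (P → ZMod 2) →ₗ[ZMod 2] (P ⊕ Q → ZMod 2) where
  toFun v := Sum.elim v 0
  map_add' v w := by
    funext x; cases x <;> simp
  map_smul' c v := by
    funext x; cases x <;> simp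

namespace PS

variable {Λ : Type} [Fintype Λ]

/-- The closed system of a pair, with its crossings displayed as a sum. -/
def pcs (G B : PS Λ) : CS (G.X ⊕ B.X) (G.P ⊕ B.P → ZMod 2) := (pair G B).close

/-- The active crossings of a pair. -/
def pact (G B : PS Λ) : Finset (G.X ⊕ B.X) := (pair G B).act

/-- The frozen values of a pair. -/
def pval (G B : PS Λ) : G.X ⊕ B.X → Bool := (pair G B).val

theorem EE_def (G B : PS Λ) (n : ℤ) : EE G B n ↔ (pcs G B).E (pact G B) (pval G B) n := Iff.rfl

/-- The `F`-endomorphism of level `m` kills the cohomology of `⟨G, B⟩`. -/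
def ZB (G B : PS Λ) (m : ℕ) : Prop :=
  ZZ (pcs G B) (extL G.P B.P) (pact G B) (pval G B) m

/-- The number `M` of a state of `B`. -/
noncomputable def MB (G B : PS Λ) (t : B.X → Bool) : ℕ := MM (pcs G B) (extL G.P B.P) t

/-- `G` is closed by `B` adequately and with `M ≥ m`, in all states of the cube of `B`. -/
structure Good (G B : PS Λ) (m : ℕ) : Prop where
  act : ∀ x, x ∈ G.act
  M : ∀ t, InCube B.act B.val t → m ≤ MB G B t
  ad : ∀ (b : Bool) (x : G.X) (t : B.X → Bool), InCube B.act B.val t →
    (pcs G B).u (Sum.inl x) ∉ (pcs G B).L (stt b t)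

theorem extL_uvec {P Q : Type} [DecidableEq P] [DecidableEq Q] (a b : P) :
    extL P Q (uvec a b) = uvec (Sum.inl a) (Sum.inl b) := by
  funext z
  cases z with
  | inl p =>
    show uvec a b p = uvec (Sum.inl a) (Sum.inl b) (Sum.inl p)
    simp only [uvec, Pi.add_apply, Pi.single_apply, Sum.inl.injEq]
  | inr p =>
    show (0 : ZMod 2) = uvec (Sum.inl a) (Sum.inl b) (Sum.inr p)
    simp [uvec, Pi.add_apply]

theorem pcs_hJ (G B : PS Λ) (x : G.X) :
    (pcs G B).u (Sum.inl x) ∈ LinearMap.range (extL G.P B.P) :=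
  ⟨uvec (G.ua x) (G.ub x), extL_uvec _ _⟩

theorem push_extL {P Q Q' : Type} [Fintype P] [Fintype Q] [DecidableEq P] [DecidableEq Q']
    (j : Q → Q') (g : P → ZMod 2) :
    push (Sum.map id j : P ⊕ Q → P ⊕ Q') (extL P Q g) = extL P Q' g := by
  funext z
  rw [push_apply, Fintype.sum_sum_type]
  cases z with
  | inl p =>
    show (∑ a, if Sum.map id j (Sum.inl a) = Sum.inl p then g a else 0) +
      (∑ b, if Sum.map id j (Sum.inr b) = (Sum.inl p : P ⊕ Q') then (0 : ZMod 2) else 0) = g p
    simp
  | inr q =>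
    show (∑ a, if Sum.map id j (Sum.inl a) = (Sum.inr q : P ⊕ Q') then g a else 0) +
      (∑ b, if Sum.map id j (Sum.inr b) = (Sum.inr q : P ⊕ Q') then (0 : ZMod 2) else 0) = 0
    simp

theorem ZB_iso (G : PS Λ) {B B' : PS Λ} (h : Iso B B') (hG : ∀ x, x ∈ G.act) (m : ℕ) :
    ZB G B m ↔ ZB G B' m := by
  obtain ⟨j, e, hd⟩ := h
  have ht := (hd.pairR G).trans_close
  exact ZZ_congr (X0 := G.X) (Y := B.X) (Y' := B'.X) (U := G.P ⊕ B.P → ZMod 2)
    (U' := G.P ⊕ B'.P → ZMod 2) (UG := G.P → ZMod 2) (S := pcs G B) (S' := pcs G B') (e' := e)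
    (J := push (Sum.map id j)) (JG := extL G.P B.P) (JG' := extL G.P B'.P) ht
    (fun x => Finset.inl_mem_disjSum.2 (hG x)) (push_extL j) (pcs_hJ G B) (pcs_hJ G B') m

/-- the functional on the vectors given by a function on the points of the closing -/
def lamG (P : Type) {Q : Type} [Fintype Q] (g : Q → ZMod 2) :
    (P ⊕ Q → ZMod 2) →ₗ[ZMod 2] ZMod 2 where
  toFun v := ∑ q, g q * v (Sum.inr q)
  map_add' v w := by
    simp only [Pi.add_apply, mul_add, Finset.sum_add_distrib]
  map_smul' a v := by
    simp only [Pi.smul_apply, smul_eq_mul, RingHom.id_apply, Finset.mul_sum]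
    exact Finset.sum_congr rfl (fun q _ => by ring)

theorem lamG_extL {P Q : Type} [Fintype Q] (g : Q → ZMod 2) (v : P → ZMod 2) :
    lamG P g (extL P Q v) = 0 := by
  show ∑ q, g q * 0 = 0
  simp

theorem lamG_eq {P Q : Type} [Fintype P] [Fintype Q] (g : Q → ZMod 2) (v : P ⊕ Q → ZMod 2) :
    lamG P g v = ∑ z, (Sum.elim (fun _ => 0) g : P ⊕ Q → ZMod 2) z * v z := by
  rw [Fintype.sum_sum_type]
  show _ = ∑ p, 0 * v (Sum.inl p) + ∑ q, g q * v (Sum.inr q)
  simp [lamG]

theorem lamG_uvec {P Q : Type} [Fintype P] [DecidableEq P] [Fintype Q] [DecidableEq Q]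
    (g : Q → ZMod 2) (a b : P ⊕ Q) : lamG P g (uvec a b) =
      (Sum.elim (fun _ => 0) g : P ⊕ Q → ZMod 2) a + (Sum.elim (fun _ => 0) g : P ⊕ Q → ZMod 2) b := by
  rw [lamG_eq, sum_mul_uvec]

variable [DecidableEq Λ]

theorem liftX_act (A : PS Λ) (w : List (Letter Λ)) {x : A.X} (hx : x ∈ A.act) :
    liftX A w x ∈ (attachW A w).act := by
  induction w with
  | nil => exact hx
  | cons l w ih =>
    show (some (liftX A w x) : Option (attachW A w).X) ∈ (match l.fr with
      | none => insert none ((attachW A w).act.map Function.Embedding.some)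
      | some _ => (attachW A w).act.map Function.Embedding.some)
    have h : some (liftX A w x) ∈ (attachW A w).act.map Function.Embedding.some :=
      Finset.mem_map.2 ⟨_, ih, rfl⟩
    cases l.fr with
    | none => exact Finset.mem_insert_of_mem h
    | some _ => exact h

/-- the second Reidemeister move inside a word -/
theorem R2H_word (G A : PS Λ) (w : List (Letter Λ)) {g : A.P → ZMod 2}
    (hg : ∀ k, g (A.leg k) = 0) {xa xb : A.X} (hne : xa ≠ xb) (ha : xa ∈ A.act)
    (hb : xb ∈ A.act) (la : g (A.ua xa) + g (A.ub xa) = 1) (lb : g (A.ua xb) + g (A.ub xb) = 1)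
    (ly : ∀ y, y ≠ xa → y ≠ xb → g (A.ua y) + g (A.ub y) = 0)
    (con : ∀ s, s xa = true → s xb = false → g ∈ A.Con s) :
    R2H (pcs G (attachW A w)) (pact G (attachW A w)) (pval G (attachW A w))
      (Sum.inr (liftX A w xa)) (Sum.inr (liftX A w xb)) (lamG G.P (liftG A g w)) where
  ma := Finset.inr_mem_disjSum.2 (liftX_act A w ha)
  mb := Finset.inr_mem_disjSum.2 (liftX_act A w hb)
  ne := fun h => hne (liftX_inj A w (Sum.inr_injective h))
  la := by
    refine (lamG_uvec _ _ _).trans ?_
    show liftG A g w ((attachW A w).ua (liftX A w xa)) +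
      liftG A g w ((attachW A w).ub (liftX A w xa)) = 1
    rw [liftG_ua, liftG_ub, la]
  lb := by
    refine (lamG_uvec _ _ _).trans ?_
    show liftG A g w ((attachW A w).ua (liftX A w xb)) +
      liftG A g w ((attachW A w).ub (liftX A w xb)) = 1
    rw [liftG_ua, liftG_ub, lb]
  ly := by
    rintro (y | y) _ h1 h2
    · refine (lamG_uvec _ _ _).trans ?_
      show (0 : ZMod 2) + 0 = 0
      rw [add_zero]
    · refine (lamG_uvec _ _ _).trans ?_
      show liftG A g w ((attachW A w).ua y) + liftG A g w ((attachW A w).ub y) = 0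
      by_cases h : ∃ x, liftX A w x = y
      · obtain ⟨x, rfl⟩ := h
        rw [liftG_ua, liftG_ub]
        exact ly x (fun e => h1 (by rw [e])) (fun e => h2 (by rw [e]))
      · have := liftG_other hg w y (fun x hx => h ⟨x, hx⟩)
        rw [this.1, this.2, add_zero]
  lL := by
    intro s hs h1 h2 l hl
    rw [lamG_eq]
    refine hl _ ⟨Submodule.zero_mem _, ?_, ?_⟩
    · exact liftG_con hg w _ (con _ h1 h2)
    · intro k
      exact (liftG_leg hg w k).symm

/-- the transfer to the reduced word -/
theorem ZB_R2_aux (G B : PS Λ) (w : List (Letter Λ)) (l l' : Letter Λ)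
    (hf : l.fr = none) (hf' : l'.fr = none) (b b' : Bool)
    (hb : l.mt b = Mt.I) (hb' : l'.mt b' = Mt.I) (m : ℕ) (hG : ∀ x, x ∈ G.act)
    (hZ : ZZ (pcs G (attachW (attach (attach B l') l) w))
      (extL G.P (attachW (attach (attach B l') l) w).P)
      (G.act.disjSum (((attachW (attach (attach B l') l) w).act.erase
        (liftX (attach (attach B l') l) w (xS _ l (xN B l')))).erase
        (liftX (attach (attach B l') l) w (xN _ l))))
      (Sum.elim G.val (update (update (attachW (attach (attach B l') l) w).val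
        (liftX (attach (attach B l') l) w (xS _ l (xN B l'))) b')
        (liftX (attach (attach B l') l) w (xN _ l)) b)) m) : ZB G (attachW B w) m := by
  have e1 := attachW_refreeze (attach (attach B l') l) w
    (((attach (attach B l') l).act.erase (xS _ l (xN B l'))).erase (xN _ l))
    (update (update (attach (attach B l') l).val (xS _ l (xN B l')) b') (xN _ l) b)
  rw [← attach2_frozen B l l' hf hf' b b', aW_erase, aW_erase, cW_update, cW_update, aW_act,
    cW_val] at e1
  have e2 : ZB G (attachW (attach (attach B ⟨l'.i, l'.j, l'.ne, l'.m0, l'.m1, l'.mne, some b'⟩)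
      ⟨l.i, l.j, l.ne, l.m0, l.m1, l.mne, some b⟩) w) m := by
    rw [e1]
    exact hZ
  refine (ZB_iso G ?_ hG m).1 e2
  refine Iso.attachW ?_ w
  refine Iso.trans (Iso.frozenI _ _ b rfl ?_) (Iso.frozenI _ _ b' rfl ?_)
  · exact hb
  · exact hb'

/-- (F6) Removal of an inverse pair of letters inside a word. -/
theorem ZB_R2 (G B : PS Λ) (w : List (Letter Λ)) (l l' : Letter Λ) (hi : l.i = l'.i)
    (hj : l.j = l'.j) (h0 : l.m0 = l'.m1) (h1 : l.m1 = l'.m0)
    (hm : (l.m0 = Mt.I ∧ l.m1 = Mt.E) ∨ (l.m0 = Mt.E ∧ l.m1 = Mt.I))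
    (hf : l.fr = none) (hf' : l'.fr = none) (m : ℕ)
    (hG : Good G (attachW (attach (attach B l') l) w) m)
    (hZ : ZB G (attachW (attach (attach B l') l) w) m) : ZB G (attachW B w) m := by
  let g : (attach (attach B l') l).P → ZMod 2 :=
    (Sum.elim (Sum.elim (fun _ => 0) (fun _ => 1)) (fun _ => 0) : (B.P ⊕ Bool) ⊕ Bool → ZMod 2)
  have g0 : ∀ p, g (pS _ l (pS B l' p)) = 0 := fun _ => rfl
  have g1 : ∀ b, g (pS _ l (pN B l' b)) = 1 := fun _ => rfl
  have g2 : ∀ b, g (pN _ l b) = 0 := fun _ => rfl
  have gi : g (pS _ l ((attach B l').leg l.i)) = 1 := by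
    rw [hi, attach_leg_i, g1]
  have gj : g (pS _ l ((attach B l').leg l.j)) = 1 := by
    rw [hj, attach_leg_j, g1]
  have hg : ∀ k, g ((attach (attach B l') l).leg k) = 0 := by
    intro k
    by_cases h2 : k = l.i
    · rw [h2, attach_leg_i, g2]
    by_cases h3 : k = l.j
    · rw [h3, attach_leg_j, g2]
    rw [attach_leg_ne _ _ h2 h3, attach_leg_ne _ _ (hi ▸ h2) (hj ▸ h3), g0]
  have hact : xN (attach B l') l ∈ (attach (attach B l') l).act :=
    (mem_attach_act_N _ _).2 hf
  have hact' : xS (attach B l') l (xN B l') ∈ (attach (attach B l') l).act :=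
    (mem_attach_act _ _ _).2 ((mem_attach_act_N _ _).2 hf')
  have hu : g ((attach (attach B l') l).ua (xN _ l)) + g ((attach (attach B l') l).ub (xN _ l)) = 1 := by
    rw [attach_ua_N, attach_ub_N, gi]
    have : Mt.pick l.m0 l.m1 (pS (attach B l') l ((attach B l').leg l.j)) (pN _ l false)
      (pN _ l true) = pN _ l true := by
      rcases hm with ⟨h2, h3⟩ | ⟨h2, h3⟩
      · rw [h2, h3]; rfl
      · rw [h2, h3]; rfl
    rw [this, g2, add_zero]
  have hu' : g ((attach (attach B l') l).ua (xS _ l (xN B l'))) +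
      g ((attach (attach B l') l).ub (xS _ l (xN B l'))) = 1 := by
    rw [attach_ua_S, attach_ub_S, attach_ua_N, attach_ub_N, g0]
    have : Mt.pick l'.m0 l'.m1 (pS B l' (B.leg l'.j)) (pN _ l' false)
      (pN _ l' true) = pN _ l' true := by
      rcases hm with ⟨h2, h3⟩ | ⟨h2, h3⟩
      · rw [← h0, ← h1, h2, h3]; rfl
      · rw [← h0, ← h1, h2, h3]; rfl
    rw [this, g1, zero_add]
  have hy : ∀ y, y ≠ xN _ l → y ≠ xS _ l (xN B l') →
      g ((attach (attach B l') l).ua y) + g ((attach (attach B l') l).ub y) = 0 := by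
    intro y h2 h3
    rcases X_cases _ l y with rfl | ⟨y, rfl⟩
    · exact absurd rfl h2
    rcases X_cases _ l' y with rfl | ⟨y, rfl⟩
    · exact absurd rfl h3
    rw [attach_ua_S, attach_ub_S, attach_ua_S, attach_ub_S, g0, g0, add_zero]
  have hcon : ∀ s : (attach (attach B l') l).X → Bool, l.mt (s (xN _ l)) = Mt.E →
      l'.mt (s (xS _ l (xN B l'))) = Mt.E → g ∈ (attach (attach B l') l).Con s := by
    intro s h2 h3
    rw [mem_attach_Con, mem_attach_Con, h2, h3, gi, gj, g2, g2]
    refine ⟨⟨?_, ?_⟩, ?_⟩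
    · exact Submodule.zero_mem _
    · exact ⟨rfl, rfl⟩
    · exact ⟨rfl, rfl⟩
  have hM : ∀ t, InCube (pact G (attachW (attach (attach B l') l) w))
      (pval G (attachW (attach (attach B l') l) w)) (stt true t) →
      m ≤ MM (pcs G (attachW (attach (attach B l') l) w)) (extL G.P _) t := by
    intro t ht
    exact hG.M t (fun y hy => ht (Sum.inr y) (fun h' => hy (Finset.inr_mem_disjSum.1 h')))
  have hl : ∀ x : G.X, Sum.inl x ∈ pact G (attachW (attach (attach B l') l) w) :=
    fun x => Finset.inl_mem_disjSum.2 (hG.act x)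
  have eA : ∀ (ya yb : (attachW (attach (attach B l') l) w).X) lam
      (H : R2H (pcs G (attachW (attach (attach B l') l) w))
      (pact G (attachW (attach (attach B l') l) w)) (pval G (attachW (attach (attach B l') l) w))
      (Sum.inr ya) (Sum.inr yb) lam), H.A' = G.act.disjSum
        (((attachW (attach (attach B l') l) w).act.erase ya).erase yb) ∧
      H.c' = Sum.elim G.val (update (update (attachW (attach (attach B l') l) w).val ya false)
        yb true) := by
    intro ya yb lam H
    constructor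
    · ext z
      rw [H.mem_A']
      cases z with
      | inl x =>
        rw [Finset.inl_mem_disjSum]
        constructor
        · exact fun h => Finset.inl_mem_disjSum.1 h.1
        · exact fun h => ⟨Finset.inl_mem_disjSum.2 h, by simp, by simp⟩
      | inr y =>
        rw [Finset.inr_mem_disjSum, Finset.mem_erase, Finset.mem_erase]
        constructor
        · rintro ⟨h2, h3, h4⟩
          exact ⟨fun h => h4 (by rw [h]), fun h => h3 (by rw [h]), Finset.inr_mem_disjSum.1 h2⟩
        · rintro ⟨h2, h3, h4⟩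
          exact ⟨Finset.inr_mem_disjSum.2 h4, fun h => h3 (Sum.inr_injective h),
            fun h => h2 (Sum.inr_injective h)⟩
    · unfold R2H.c'
      funext z
      cases z with
      | inl x =>
        rw [update_of_ne (by simp), update_of_ne (by simp)]
        rfl
      | inr y =>
        show _ = update (update (attachW (attach (attach B l') l) w).val ya false) yb true y
        by_cases h1 : y = yb
        · rw [h1, update_self, update_self]
        · rw [update_of_ne (fun h => h1 (Sum.inr_injective h)), update_of_ne h1]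
          by_cases h2 : y = ya
          · rw [h2, update_self, update_self]
          · rw [update_of_ne (fun h => h2 (Sum.inr_injective h)), update_of_ne h2]
            rfl
  rcases hm with hm' | hm'
  · have H := R2H_word G _ w hg (xa := xN _ l) (xb := xS _ l (xN B l')) (xS_ne _ _ _).symm hact
      hact' hu hu' hy
      (fun s h2 h3 => hcon s (by rw [h2]; exact hm'.2) (by rw [h3]; exact h1.symm.trans hm'.2))
    have hz := ZZ_R2 (X0 := G.X) (Y := (attachW (attach (attach B l') l) w).X) H
      (fun v => lamG_extL _ v) (pcs_hJ G (attachW (attach (attach B l') l) w)) m hl hM hZ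
    rw [(eA _ _ _ H).1, (eA _ _ _ H).2] at hz
    refine ZB_R2_aux G B w l l' hf hf' false true hm'.1 (h0.symm.trans hm'.1) m hG.act ?_
    rw [Finset.erase_right_comm, update_comm]
    · exact hz
    · exact fun h => xS_ne _ _ _ (liftX_inj _ _ h)
  · have H := R2H_word G _ w hg (xa := xS _ l (xN B l')) (xb := xN _ l) (xS_ne _ _ _)
      hact' hact hu' hu (fun y h2 h3 => hy y h3 h2)
      (fun s h2 h3 => hcon s (by rw [h3]; exact hm'.1) (by rw [h2]; exact h0.symm.trans hm'.1))
    have hz := ZZ_R2 (X0 := G.X) (Y := (attachW (attach (attach B l') l) w).X) H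
      (fun v => lamG_extL _ v) (pcs_hJ G (attachW (attach (attach B l') l) w)) m hl hM hZ
    rw [(eA _ _ _ H).1, (eA _ _ _ H).2] at hz
    exact ZB_R2_aux G B w l l' hf hf' true false hm'.2 (h1.symm.trans hm'.2) m hG.act hz

end PS

end Spg
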