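import Pool.Agent.H85.SpgFreeze
import Pool.Agent.H85.SpgZB
import Pool.Agent.H85.SpgTopDefs

/-!
# The chain property bounds the number of crossings (layer M11)
-/

set_option linter.unusedSectionVars false

open Function

namespace Spg

namespace PS

variable {Λ : Type} [Fintype Λ]

theorem inl_mem_pact (G B : PS Λ) (x : G.X) : Sum.inl x ∈ pact G B ↔ x ∈ G.act :=
  Finset.inl_mem_disjSum

theorem inr_mem_pact (G B : PS Λ) (y : B.X) : Sum.inr y ∈ pact G B ↔ y ∈ B.act :=
  Finset.inr_mem_disjSum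

theorem card_pact (G B : PS Λ) : (pact G B).card = G.act.card + B.act.card :=
  Finset.card_disjSum _ _

variable [DecidableEq Λ]

/-- Freezing an inner part of a word in the vanishing predicate. -/
theorem sub_E (G B : PS Λ) (w : List (Letter Λ)) (n : ℤ)
    (T : Finset (G.X ⊕ (attachW B w).X))
    (hT : ∀ z, z ∈ T ↔ ∃ y ∈ B.act, Sum.inr (lift B w y) = z)
    (c' : G.X ⊕ (attachW B w).X → Bool)
    (hc' : ∀ z, z ∉ pact G (attachW B w) → c' z = pval G (attachW B w) z)
    (hE : EE G (attachW (refreeze B ∅ (fun y => c' (Sum.inr (lift B w y)))) w) n) :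
    (pcs G (attachW B w)).E (pact G (attachW B w) \ T) c' n := by
  rw [refreeze_attachW] at hE
  set t : B.X → Bool := fun y => c' (Sum.inr (lift B w y)) with ht
  have h3 : (pcs G (attachW B w)).E (G.act.disjSum (actW B ∅ w))
      (Sum.elim G.val (valW B t w)) n := hE
  have h4 : pact G (attachW B w) \ T = G.act.disjSum (actW B ∅ w) := by
    ext z
    rw [Finset.mem_sdiff, hT]
    cases z with
    | inl x =>
      rw [inl_mem_pact, Finset.inl_mem_disjSum]
      simp
    | inr x =>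
      rw [inr_mem_pact, Finset.inr_mem_disjSum, mem_actW_empty]
      constructor
      · rintro ⟨h6, h7⟩
        exact ⟨h6, fun y hy h8 => h7 ⟨y, hy, congrArg Sum.inr h8⟩⟩
      · rintro ⟨h6, h7⟩
        exact ⟨h6, fun ⟨y, hy, h8⟩ => h7 y hy (Sum.inr_injective h8)⟩
  rw [h4]
  refine (E_congr_val _ ?_ n).mpr h3
  intro z hz
  cases z with
  | inl x =>
    refine hc' (Sum.inl x) ?_
    intro h
    rw [inl_mem_pact] at h
    exact hz (Finset.inl_mem_disjSum.mpr h)
  | inr x =>
    show c' (Sum.inr x) = valW B t w x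
    by_cases hx : ∃ y, lift B w y = x
    · obtain ⟨y, rfl⟩ := hx
      rw [valW_lift]
    · have hx' : ∀ y, lift B w y ≠ x := fun y h => hx ⟨y, h⟩
      rw [valW_eq B t w x hx']
      refine hc' (Sum.inr x) ?_
      intro h6
      rw [inr_mem_pact] at h6
      apply hz
      rw [Finset.inr_mem_disjSum, mem_actW_empty]
      exact ⟨h6, fun y _ => hx' y⟩

theorem lift_mem_act (B : PS Λ) (w : List (Letter Λ)) {y : B.X} (hy : y ∈ B.act) :
    lift B w y ∈ (attachW B w).act := by
  rw [← actW_self]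
  induction w with
  | nil => exact hy
  | cons l w ih => exact (mem_actW_some B B.act l w _).mpr ih

end PS

/-! ### Words -/

section

variable {N : Type} [Fintype N] [DecidableEq N] {next : Equiv.Perm N} {c : N → Bool}

/-- The inverse letter. -/
def AL.inv (a : AL N) : AL N := ⟨a.v, !a.b, a.fr⟩

/-- The inverse word. -/
def invW (β : List (AL N)) : List (AL N) := (β.map AL.inv).reverse

theorem invW_append_singleton (β : List (AL N)) (l : AL N) :
    invW (β ++ [l]) = l.inv :: invW β := by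
  simp [invW]

theorem KK0_append (hc : ∀ v, c (next v) = !c v) (W W' : List (AL N)) :
    KK0 hc (W ++ W') = PS.attachW (KK0 hc W') (W.map (AL.toL hc)) := by
  unfold KK0
  rw [List.map_append, PS.attachW_append]

theorem KK0_cons (hc : ∀ v, c (next v) = !c v) (a : AL N) (W : List (AL N)) :
    KK0 hc (a :: W) = PS.attach (KK0 hc W) (AL.toL hc a) := rfl

theorem KK0_pair (hc : ∀ v, c (next v) = !c v) (β W : List (AL N)) (l : AL N) :
    KK0 hc ((β ++ [l]) ++ (invW (β ++ [l]) ++ W)) =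
      PS.attachW (PS.attach (PS.attach (KK0 hc (invW β ++ W)) (AL.toL hc l.inv)) (AL.toL hc l))
        (β.map (AL.toL hc)) := by
  rw [invW_append_singleton]
  have : (β ++ [l]) ++ (l.inv :: invW β ++ W) = β ++ (l :: l.inv :: (invW β ++ W)) := by
    simp
  rw [this, KK0_append]
  rfl

end

namespace Diagram

variable (G : Diagram)

section

variable {G} {c : G.V → Bool} (hc : ∀ v, c (G.next v) = !c v)

/-- The values of `M` on flat closings. -/
def MS : Set ℕ := {m | ∃ W, Flat W ∧ PS.MB G.toPS (KK0 hc W) (KK0 hc W).val = m}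

/-- The minimal value of `M`. -/
noncomputable def mstar : ℕ := sInf (MS hc)

theorem MS_nonempty : (MS hc).Nonempty :=
  ⟨_, [], fun _ ha => absurd ha List.not_mem_nil, rfl⟩

theorem mstar_mem : mstar hc ∈ MS hc := Nat.sInf_mem (MS_nonempty hc)

theorem mstar_le (W : List (AL G.V)) (t : (KK0 hc W).X → Bool) :
    mstar hc ≤ PS.MB G.toPS (KK0 hc W) t := by
  refine Nat.sInf_le ⟨frz hc W t, flat_frz hc W t, ?_⟩
  rw [KK0_frz]
  rfl

/-- Functions on the ends which are constant on the circles of a state. -/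
theorem circle_fun (a : G.V → G.V) (b : Bool) (x : G.X)
    (h : ¬ G.SameCircle a b (Sum.inl (x, 0)) (Sum.inl (x, 2))) :
    ∃ f : G.End → ZMod 2, (∀ d, f (G.glue d) = f d) ∧ (∀ d, f (G.partner a b d) = f d) ∧
      f (Sum.inl (x, 0)) = 1 ∧ f (Sum.inl (x, 2)) = 0 := by
  classical
  refine ⟨fun d => if G.SameCircle a b (Sum.inl (x, 0)) d then 1 else 0, ?_, ?_, ?_, ?_⟩
  · intro d
    have h1 : G.SameCircle a b (Sum.inl (x, 0)) (G.glue d) ↔
        G.SameCircle a b (Sum.inl (x, 0)) d := by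
      have h2 : G.SameCircle a b d (G.glue d) := Relation.EqvGen.rel _ _ (Or.inl rfl)
      exact ⟨fun h => h.trans _ _ _ (h2.symm _ _), fun h => h.trans _ _ _ h2⟩
    simp only [h1]
  · intro d
    have h1 : G.SameCircle a b (Sum.inl (x, 0)) (G.partner a b d) ↔
        G.SameCircle a b (Sum.inl (x, 0)) d := by
      have h2 : G.SameCircle a b d (G.partner a b d) := Relation.EqvGen.rel _ _ (Or.inr rfl)
      exact ⟨fun h => h.trans _ _ _ (h2.symm _ _), fun h => h.trans _ _ _ h2⟩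
    simp only [h1]
  · exact if_pos (Relation.EqvGen.refl _)
  · exact if_neg h

theorem adequate_closing (hG : G.Adequate) (W : List (AL G.V)) (t : (KK0 hc W).X → Bool)
    (b : Bool) (x : G.X) :
    (PS.pcs G.toPS (KK0 hc W)).u (Sum.inl x) ∉ (PS.pcs G.toPS (KK0 hc W)).L (stt b t) := by
  intro hmem
  have hnc := trace_noncrossing hc (frz hc W t)
  obtain ⟨f, h1, h2, h3, h4⟩ := circle_fun _ b x (hG _ hnc b x)
  have hg : ∀ v, (fun v => f (Sum.inr (Sum.inr v))) (trace G.next c (frz hc W t) v)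
      = (fun v => f (Sum.inr (Sum.inr v))) v := fun v => h2 (Sum.inr (Sum.inr v))
  obtain ⟨f', h5, h6⟩ := flat_ext hc (frz hc W t) (flat_frz hc W t)
    (fun v => f (Sum.inr (Sum.inr v))) hg
  have hX : ∃ f' ∈ (KK0 hc W).Con t, ∀ v, f' ((KK0 hc W).leg v) = f (Sum.inr (Sum.inr v)) := by
    have e := KK0_frz hc W t
    have key : ∀ B : PS G.V, B = PS.refreeze (KK0 hc W) ∅ t →
        (∃ f' ∈ B.Con B.val, ∀ v, f' (B.leg v) = f (Sum.inr (Sum.inr v))) →
        ∃ f' ∈ (KK0 hc W).Con t, ∀ v, f' ((KK0 hc W).leg v) = f (Sum.inr (Sum.inr v)) := by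
      rintro B rfl h
      exact h
    exact key _ e ⟨f', h5, h6⟩
  obtain ⟨f', h5, h6⟩ := hX
  have hm : ∀ F ∈ (PS.pair G.toPS (KK0 hc W)).Con (stt b t),
      ∑ p, F p * PS.uvec (Sum.inl (Sum.inl (x, 0)) : G.End ⊕ (KK0 hc W).P)
        (Sum.inl (Sum.inl (x, 2))) p = 0 := hmem
  have hF : (Sum.elim f f' : G.End ⊕ (KK0 hc W).P → ZMod 2) ∈
      (PS.pair G.toPS (KK0 hc W)).Con (stt b t) := by
    refine ⟨⟨h1, ?_, ?_⟩, h5, ?_⟩
    · intro y i
      exact h2 (Sum.inl (y, i))
    · intro m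
      exact (h2 (Sum.inr (Sum.inl (m, 0)))).symm
    · intro v
      exact (h6 v).symm
  have := (PS.sum_mul_uvec (P := G.End ⊕ (KK0 hc W).P) _ _ _).symm.trans (hm _ hF)
  simp only [Sum.elim_inl] at this
  rw [h3, h4, add_zero] at this
  exact one_ne_zero_Z2 this

theorem good (hG : G.Adequate) (W : List (AL G.V)) :
    PS.Good G.toPS (KK0 hc W) (mstar hc) where
  act := fun x => Finset.mem_univ x
  M := fun t _ => mstar_le hc W t
  ad := fun b x t _ => adequate_closing hc hG W t b x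

theorem u_range (W : List (AL G.V)) (x : G.X) :
    (PS.pcs G.toPS (KK0 hc W)).u (Sum.inl x) ∈
      LinearMap.range (extL G.End (KK0 hc W).P) := by
  refine ⟨PS.uvec (Sum.inl (x, 0)) (Sum.inl (x, 2)), ?_⟩
  funext p
  cases p with
  | inl d =>
    show PS.uvec (Sum.inl (x, 0)) (Sum.inl (x, 2)) d =
      PS.uvec (Sum.inl (Sum.inl (x, 0)) : G.End ⊕ (KK0 hc W).P) (Sum.inl (Sum.inl (x, 2)))
        (Sum.inl d)
    simp [PS.uvec, Pi.single_apply]
  | inr d =>
    show (0 : ZMod 2) =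
      PS.uvec (Sum.inl (Sum.inl (x, 0)) : G.End ⊕ (KK0 hc W).P) (Sum.inl (Sum.inl (x, 2)))
        (Sum.inr d)
    simp [PS.uvec, Pi.single_apply]

/-- Nonvanishing for an extremal flat closing. -/
theorem not_ZB (W : List (AL G.V)) (hW : Flat W)
    (hm : PS.MB G.toPS (KK0 hc W) (KK0 hc W).val = mstar hc) :
    ¬ PS.ZB G.toPS (KK0 hc W) (mstar hc) := by
  refine not_ZZ ?_ ?_
  · intro z
    cases z with
    | inl x =>
      rw [PS.inl_mem_pact]
      exact ⟨fun _ => ⟨x, rfl⟩, fun _ => Finset.mem_univ _⟩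
    | inr y =>
      rw [PS.inr_mem_pact, flat_act hc hW]
      simp
  · exact hm

/-- Removal of `β β⁻¹`. -/
theorem ZB_remove (hG : G.Adequate) (β : List (AL G.V)) (hβ : ∀ a ∈ β, a.fr = none)
    (W : List (AL G.V)) (hZ : PS.ZB G.toPS (KK0 hc (β ++ (invW β ++ W))) (mstar hc)) :
    PS.ZB G.toPS (KK0 hc W) (mstar hc) := by
  induction β using List.reverseRecOn with
  | nil => exact hZ
  | append_singleton β l ih =>
    refine ih (fun a ha => hβ a (List.mem_append_left _ ha)) ?_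
    have hl : l.fr = none := hβ l (List.mem_append_right _ (List.mem_singleton_self l))
    have hgood := good hc hG ((β ++ [l]) ++ (invW (β ++ [l]) ++ W))
    rw [KK0_pair] at hZ hgood
    rw [KK0_append]
    refine PS.ZB_R2 _ _ _ (AL.toL hc l) (AL.toL hc l.inv) rfl rfl ?_ ?_ ?_ hl hl _ hgood hZ
    · cases hb : l.b <;> simp [AL.toL, AL.inv, hb]
    · cases hb : l.b <;> simp [AL.toL, AL.inv, hb]
    · cases hb : l.b <;> simp [AL.toL, hb]


/-- Vanishing for flat closings outside the range of degrees. -/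
theorem EE_flat (W : List (AL G.V)) (hW : Flat W) (n : ℤ) (h : n < 0 ∨ (G.crossings : ℤ) < n) :
    PS.EE G.toPS (KK0 hc W) n := by
  refine E_triv _ _ _ _ ?_
  have e2 : (PS.pact G.toPS (KK0 hc W)).card = G.crossings := by
    rw [PS.card_pact, flat_act hc hW]
    rfl
  have e3 : (PS.pair G.toPS (KK0 hc W)).act.card = G.crossings := e2
  rw [e3]
  exact h

/-- The filtration argument. -/
theorem ZB_of_vanishing (hG : G.Adequate) (β W : List (AL G.V)) (lo hi : ℤ)
    (hlo : hi - lo < G.crossings)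
    (hE : ∀ n, n < lo ∨ hi < n → ∀ W', Flat W' → PS.EE G.toPS (KK0 hc (β ++ W')) n) :
    PS.ZB G.toPS (KK0 hc (β ++ W)) (mstar hc) := by
  have hg := good hc hG (β ++ W)
  have hu := u_range hc (β ++ W)
  rw [KK0_append] at hg hu ⊢
  have hmem : ∀ x : G.toPS.X, Sum.inl x ∈ PS.pact G.toPS
      (PS.attachW (KK0 hc W) (β.map (AL.toL hc))) :=
    fun x => (PS.inl_mem_pact _ _ x).mpr (Finset.mem_univ _)
  have hcube : ∀ t : (PS.attachW (KK0 hc W) (β.map (AL.toL hc))).X → Bool,
      InCube (PS.pact G.toPS (PS.attachW (KK0 hc W) (β.map (AL.toL hc))))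
        (PS.pval G.toPS (PS.attachW (KK0 hc W) (β.map (AL.toL hc))))
        (stt (X0 := G.toPS.X) true t) →
      InCube (PS.attachW (KK0 hc W) (β.map (AL.toL hc))).act
        (PS.attachW (KK0 hc W) (β.map (AL.toL hc))).val t := by
    intro t ht y hy
    exact ht (Sum.inr y) (fun h => hy ((PS.inr_mem_pact _ _ y).mp h))
  have hTm : ∀ z, z ∈ (((KK0 hc W).act.map
      ⟨PS.lift (KK0 hc W) (β.map (AL.toL hc)), PS.lift_injective _ _⟩).map
      Function.Embedding.inr : Finset (G.toPS.X ⊕ (PS.attachW (KK0 hc W) (β.map (AL.toL hc))).X))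
      ↔ ∃ y ∈ (KK0 hc W).act, Sum.inr (PS.lift (KK0 hc W) (β.map (AL.toL hc)) y) = z := by
    intro z
    rw [Finset.mem_map]
    constructor
    · rintro ⟨x, hx, rfl⟩
      obtain ⟨y, hy, rfl⟩ := Finset.mem_map.mp hx
      exact ⟨y, hy, rfl⟩
    · rintro ⟨y, hy, rfl⟩
      exact ⟨_, Finset.mem_map.mpr ⟨y, hy, rfl⟩, rfl⟩
  refine filt (lo := lo) (hi := hi) hu (mstar hc) hmem
    (fun t ht => hg.M t (hcube t ht)) (fun b x t ht => hg.ad b x t (hcube t ht)) ?_ ?_ hlo ?_
    (T := (((KK0 hc W).act.map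
      ⟨PS.lift (KK0 hc W) (β.map (AL.toL hc)), PS.lift_injective _ _⟩).map
      Function.Embedding.inr))
  · intro z hz
    obtain ⟨y, hy, rfl⟩ := (hTm z).mp hz
    exact (PS.inr_mem_pact _ _ _).mpr (PS.lift_mem_act _ _ hy)
  · intro x hx
    obtain ⟨y, _, h⟩ := (hTm _).mp hx
    exact absurd h (by simp)
  · intro c' hc' n hn
    refine PS.sub_E G.toPS (KK0 hc W) (β.map (AL.toL hc)) n _ hTm c' hc' ?_
    rw [← KK0_frz, ← KK0_append]
    exact hE n hn _ (flat_frz hc W _)

end

/-- (M11) -/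
theorem main_of_CP' {G H : Diagram} (h : CP G H) (hG : G.Adequate) :
    G.crossings ≤ H.crossings := by
  by_contra hlt
  push Not at hlt
  obtain ⟨e, he, β, k, hβ, hE⟩ := h
  obtain ⟨c, hc⟩ := exists_colour G.next G.even
  have hc' : ∀ v, (c ∘ e) (H.next v) = !(c ∘ e) v := by
    intro v
    show c (e (H.next v)) = !c (e v)
    rw [he, hc]
  obtain ⟨w, hw, hwm⟩ := mstar_mem hc
  refine not_ZB hc w hw hwm (ZB_remove hc hG β hβ w ?_)
  refine ZB_of_vanishing hc hG β (invW β ++ w) k (k + H.crossings) (by omega) ?_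
  intro n hn W' hW'
  have h1 := hE c hc hc' (W'.map (fun a => ⟨e.symm a.v, a.b, a.fr⟩)) (n - k)
  rw [List.map_map] at h1
  have h2 : ((fun a : AL H.V => (⟨e a.v, a.b, a.fr⟩ : AL G.V)) ∘
      (fun a : AL G.V => (⟨e.symm a.v, a.b, a.fr⟩ : AL H.V))) = id := by
    funext a
    cases a
    simp
  rw [h2, List.map_id, sub_add_cancel] at h1
  refine h1.mp (EE_flat hc' _ ?_ _ (by omega))
  intro a ha
  obtain ⟨a', ha', rfl⟩ := List.mem_map.mp ha
  exact hW' a' ha'

end Diagram

end Spg
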