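import Pool.Agent.H85.SpgOpen

/-!
# Chain property of the twists and of the finger moves (layer M10c)
-/

set_option linter.unusedSectionVars false

open Function

namespace Spg

/-! ### The closing with an additional arc -/

section

variable {Λ Γ : Type} [Fintype Λ] [DecidableEq Λ] [Fintype Γ] [DecidableEq Γ]

theorem plus_attachW (A : PS Λ) (E : PS Γ) (w : List (Letter Λ)) :
    PS.Iso (PS.attachW (PS.plus A E) (w.map (fun l => l.map Sum.inl Sum.inl_injective)))
      (PS.plus (PS.attachW A w) E) := by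
  induction w with
  | nil => exact PS.Iso.refl _
  | cons l w ih =>
    exact (ih.attach (l.map Sum.inl Sum.inl_injective)).trans
      (PS.plus_attach_left (PS.attachW A w) E l)

end

section

variable {N : Type} [Fintype N] [DecidableEq N] {next : Equiv.Perm N} {c : N → Bool}
  (hc : ∀ v, c (next v) = !c v)

theorem base_plus_arc :
    PS.Iso (PS.plus (PS.base (mu next c) (mu_mu hc) (mu_ne hc)) Tangle.arc)
      (PS.base (Sum.map (mu next c) (!·)) (muP_muP hc) (muP_ne hc)) := by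
  refine ⟨id, Empty.elim, ?_⟩
  constructor
  · exact fun x => Empty.elim x
  · rintro (x | x) <;> exact Empty.elim x
  · exact fun y => Empty.elim y
  · rintro s _ f ⟨h1, h2⟩ (l | l)
    · exact h1 l
    · exact h2 l
  · intro s _ f _ hz
    exact funext hz
  · intro s _ g hg
    exact ⟨g, ⟨fun l => hg (Sum.inl l), fun l => hg (Sum.inr l)⟩, fun _ => rfl⟩
  · exact fun _ _ y => Empty.elim y
  · rintro s _ f _ (l | l) <;> rfl

/-- The closing with an additional arc. -/
theorem EE_KP (T : PS (N ⊕ Bool)) (W : List (AL N)) (n : ℤ) :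
    PS.EE T (PS.plus (KK0 hc W) Tangle.arc) n ↔ PS.EE T (KP hc W) n := by
  have h1 := plus_attachW (PS.base (mu next c) (mu_mu hc) (mu_ne hc)) Tangle.arc
    (W.map (AL.toL hc))
  have h2 := (base_plus_arc hc).attachW
    ((W.map (AL.toL hc)).map (fun l => l.map Sum.inl Sum.inl_injective))
  rw [PS.EE_symm, show KK0 hc W = PS.attachW (PS.base (mu next c) (mu_mu hc) (mu_ne hc))
    (W.map (AL.toL hc)) from rfl, ← h1.EE, h2.EE, PS.EE_symm, List.map_map]
  rfl

end

/-- The finger as a word of letters. -/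
theorem cut_finger {R : Type} [Fintype R] [DecidableEq R] (ρ : Equiv.Perm R) (b : Bool) (k : ℕ) :
    ∀ (t : Tangle R) (a : t.End) (r : R), ∃ a' : (Tangle.finger ρ b k t a (Sum.inr r)).End,
      PS.Iso ((Tangle.finger ρ b k t a (Sum.inr r)).cutPS a')
        (PS.attachW (t.cutPS a) (fing ρ b r k)) := by
  induction k with
  | zero => exact fun t a r => ⟨a, PS.Iso.refl _⟩
  | succ k ih =>
    intro t a r
    obtain ⟨a', h⟩ := ih (t.ins a (Sum.inr r) (Tangle.crossPos b))
      (Sum.inl (none, Tangle.crossPos b 1)) (ρ r)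
    refine ⟨a', ?_⟩
    rw [fing_succ, PS.attachW_append]
    exact h.trans ((Tangle.cut_ins t a r b).attachW (fing ρ b (ρ r) k))

/-! ### Free arcs of the closings -/

section

variable {N : Type} [Fintype N] [DecidableEq N] {next : Equiv.Perm N} {c : N → Bool}
  (hc : ∀ v, c (next v) = !c v)

theorem freeArc_KK0 (i j : N) (h : mu next c i = j) (W : List (AL N))
    (hW : ∀ a ∈ W, a.v ≠ i ∧ a.v ≠ j ∧ next a.v ≠ i ∧ next a.v ≠ j) :
    ∃ g, PS.FreeArc (KK0 hc W) i j g := by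
  induction W with
  | nil => exact ⟨_, freeArc_base (mu next c) (mu_mu hc) (mu_ne hc) i j h⟩
  | cons a W ih =>
    obtain ⟨g, hg⟩ := ih (fun x hx => hW x (List.mem_cons_of_mem _ hx))
    obtain ⟨h1, h2, h3, h4⟩ := hW a List.mem_cons_self
    exact ⟨_, hg.attach (AL.toL hc a) h1 h2 h3 h4⟩

end

namespace Diagram

variable (G : Diagram)

/-- The closed systems of a diagram with all nodes opened. -/
theorem EE_open (t : Tangle (G.X × Fin 4 ⊕ G.M × Fin 2 ⊕ G.V))
    (t' : Tangle (G.M × Fin 2 ⊕ G.V)) (e : t.X ⊕ G.X ≃ t'.X) (h : Tangle.FI t t' e)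
    {c : G.V → Bool} (hc : ∀ v, c (G.next v) = !c v) (W : List (AL G.V)) (n : ℤ) :
    PS.EE (G.withTan t').toPS (KK0 hc W) n ↔
      PS.EE t.toPS (KK0 (colN_rot (X := G.X) (M := G.M) hc) (nodeW W Finset.univ.toList)) n := by
  rw [← EE_capall hc _ (Finset.nodup_toList _) (fun x => by simp) W t.toPS n]
  exact (G.toPS_FI t t' e h).EE _ n

theorem EE_arcs {c : G.V → Bool} (hc : ∀ v, c (G.next v) = !c v) (W : List (AL G.V)) (n : ℤ) :
    PS.EE G.toPS (KK0 hc W) n ↔
      PS.EE G.arcs.toPS (KK0 (colN_rot (X := G.X) (M := G.M) hc)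
        (nodeW W Finset.univ.toList)) n :=
  G.EE_open G.arcs G.tan _ G.FI_arcs hc W n

theorem hrot : Tangle.rotX (X := G.X) G.rotR = (rotN G.next : Equiv.Perm G.End) := by
  funext x
  rcases x with ⟨x, i⟩ | ⟨m, i⟩ | v <;> rfl

/-- Closing the cut tangle. -/
theorem EE_cut {R : Type} [Fintype R] [DecidableEq R] {next : Equiv.Perm R} {c : R → Bool}
    (hc : ∀ v, c (next v) = !c v) (t : Tangle R) (a : t.End) (W : List (AL R)) (n : ℤ) :
    PS.EE t.toPS (KK0 hc W) n ↔ PS.EE (t.cutPS a) (KP hc W) n := by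
  rw [← EE_KP, PS.EE_plus]
  exact ((Tangle.cap_cut t a).EE _ n).symm

theorem map_refl {N : Type} (W : List (AL N)) :
    W.map (fun a => (⟨Equiv.refl N a.v, a.b, a.fr⟩ : AL N)) = W :=
  List.map_id W

theorem CP.mk_refl (G : Diagram) (t' : Tangle (G.M × Fin 2 ⊕ G.V)) (β : List (AL G.V))
    (hβ : ∀ a ∈ β, a.fr = none) (k : ℤ)
    (h : ∀ (c : G.V → Bool) (hc : ∀ v, c (G.next v) = !c v) (W : List (AL G.V)) (n : ℤ),
      PS.EE (G.withTan t').toPS (KK0 hc W) n ↔ PS.EE G.toPS (KK0 hc (β ++ W)) (n + k)) :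
    CP G (G.withTan t') := by
  refine ⟨Equiv.refl _, fun _ => rfl, β, k, hβ, ?_⟩
  intro c hc hc' W n
  have h1 := h c hc W n
  rw [← map_refl W] at h1
  conv_lhs at h1 => rw [map_refl W]
  exact h1

/-- The twisted arcs. -/
theorem EE_twist (d : G.M × Fin 2 ⊕ G.V) (h : (Sum.inr d : G.End) ≠ Sum.inr (G.rotR d)) (b : Bool)
    {c : G.V → Bool} (hc : ∀ v, c (G.next v) = !c v) (W : List (AL G.V)) (n : ℤ) :
    PS.EE (G.twist d b).toPS (KK0 (next := G.next) hc W) n ↔
      PS.EE (PS.attach G.arcs.toPS (PS.YL (Sum.inr d) (Sum.inr (G.rotR d)) h b))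
        (KK0 (colN_rot (X := G.X) (M := G.M) hc) (nodeW W Finset.univ.toList)) n := by
  have h1 := G.EE_open _ _ _ (G.FI_arcs.ins (Sum.inr (Sum.inr d)) (Sum.inr (Sum.inr (G.rotR d)))
    (Tangle.twistPos b)) hc W n
  refine h1.trans ?_
  exact (Tangle.ins_twist G.arcs (Sum.inr d) (Sum.inr (G.rotR d)) h b).EE _ n

theorem inr_ne_rotR {c : G.V → Bool} (hc : ∀ v, c (G.next v) = !c v) (d : G.M × Fin 2 ⊕ G.V) :
    (Sum.inr d : G.End) ≠ Sum.inr (G.rotR d) :=
  next_ne (colN_rot (X := G.X) (M := G.M) hc) (Sum.inr d)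

theorem mu_marker (c : G.V → Bool) (m : G.M) (i : Fin 2) :
    mu (rotN G.next) (colN (X := G.X) c) (Sum.inr (Sum.inl (m, i))) =
      Sum.inr (G.rotR (Sum.inl (m, i))) := by
  have h : ∀ i : Fin 2, i = 0 ∨ i = 1 := by decide
  rcases h i with rfl | rfl <;> rfl

theorem nodeW_ne (W : List (AL G.V)) (L : List G.X) (p : G.M × Fin 2)
    (a : AL (G.X × Fin 4 ⊕ G.M × Fin 2 ⊕ G.V)) (ha : a ∈ nodeW W L) :
    a.v ≠ Sum.inr (Sum.inl p) ∧ rotN G.next a.v ≠ Sum.inr (Sum.inl p) := by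
  rcases List.mem_append.mp ha with h | h
  · obtain ⟨x, _, rfl⟩ := List.mem_map.mp h
    exact ⟨fun h => by simp at h, fun h => by simp [rotN] at h⟩
  · obtain ⟨x, _, rfl⟩ := List.mem_map.mp h
    exact ⟨fun h => by simp at h, fun h => by simp [rotN] at h⟩

theorem CP.of_twist (G : Diagram) (d : G.M × Fin 2 ⊕ G.V) (b : Bool) :
    CP G (G.twist d b) := by
  rcases d with ⟨m, i⟩ | v
  · refine CP.mk_refl G _ [] (by simp) (-(if b then 0 else 1)) ?_
    intro c hc W n
    have h1 := G.EE_twist (Sum.inl (m, i)) (G.inr_ne_rotR hc _) b hc W n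
    obtain ⟨g, hg⟩ := freeArc_KK0 (colN_rot (X := G.X) (M := G.M) hc)
      (Sum.inr (Sum.inl (m, i))) (Sum.inr (G.rotR (Sum.inl (m, i)))) (G.mu_marker c m i)
      (nodeW W Finset.univ.toList) (fun a ha =>
        ⟨(G.nodeW_ne W _ (m, i) a ha).1, (G.nodeW_ne W _ (m, i + 1) a ha).1,
          (G.nodeW_ne W _ (m, i) a ha).2, (G.nodeW_ne W _ (m, i + 1) a ha).2⟩)
    have h2 := PS.R1Y G.arcs.toPS _ (Sum.inr (Sum.inl (m, i)))
      (Sum.inr (G.rotR (Sum.inl (m, i)))) (G.inr_ne_rotR hc _) b g hg (n - if b then 0 else 1)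
    have h7 := G.EE_arcs hc W (n - if b then 0 else 1)
    have e1 : n - (if b then 0 else 1) + (if b then 0 else 1) = n := by ring
    rw [e1] at h2
    rw [← sub_eq_add_neg]
    exact h1.trans (h2.trans h7.symm)
  · refine CP.mk_refl G _ [⟨v, b, none⟩] (by simp) 0 ?_
    intro c hc W n
    have h1 := G.EE_twist (Sum.inr v) (G.inr_ne_rotR hc _) b hc W n
    rw [PS.EE_attach] at h1
    have h7 := G.EE_arcs hc (⟨v, b, none⟩ :: W) n
    rw [add_zero]
    exact h1.trans h7.symm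

end Diagram

end Spg
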