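import Pool.Agent.H85.SpgTan
import Pool.Agent.H50.SpgN

/-!
# Opening all nodes: the system of the nodes and the open tangles (layer M10b)
-/

set_option linter.unusedSectionVars false

open Function

namespace Spg

/-! ### Insertion and bijections of ends -/

section raw2

variable {X R X' R' : Type} [DecidableEq X] [DecidableEq R] [DecidableEq X'] [DecidableEq R']

/-- Insertion is compatible with bijections of the ends. -/
theorem insGlue_congr (g : X × Fin 4 ⊕ R → X × Fin 4 ⊕ R)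
    (g' : X' × Fin 4 ⊕ R' → X' × Fin 4 ⊕ R') (φ : X × Fin 4 ⊕ R → X' × Fin 4 ⊕ R')
    (inj : Injective φ) (hg : ∀ d, φ (g d) = g' (φ d))
    (ψ : Option X × Fin 4 ⊕ R → Option X' × Fin 4 ⊕ R') (h0 : ∀ d, ψ (emb d) = emb (φ d))
    (h1 : ∀ i, ψ (Sum.inl (none, i)) = Sum.inl (none, i)) (a v : X × Fin 4 ⊕ R)
    (σ : Equiv.Perm (Fin 4)) (hne : ∀ e, g e ≠ e) (hne' : ∀ e, g' e ≠ e) (d) :
    ψ (insGlue g a v σ d) = insGlue g' (φ a) (φ v) σ (ψ d) := by
  have hout : ∀ e, ψ (outEnd v σ e) = outEnd (φ v) σ (φ e) := by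
    intro e
    by_cases h : e = v
    · rw [h, outEnd_self, outEnd_self, h1]
    · rw [outEnd_ne σ h, outEnd_ne σ (fun h' => h (inj h')), h0]
  rcases cases_end v σ d with ⟨e', rfl⟩ | rfl | rfl | rfl | rfl
  · rw [insGlue_outEnd, hout, insGlue_outEnd]
    by_cases h : e' = a
    · rw [h, newEnd_a, newEnd_a, h1]
    · by_cases h' : e' = g a
      · rw [h', newEnd_glue_a g a v σ hne, hg, newEnd_glue_a g' _ _ σ hne', h1]
      · rw [newEnd_other g a v σ h h', newEnd_other g' _ _ σ (fun h2 => h (inj h2))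
          (fun h2 => h' (inj (h2.trans (hg a).symm))), hout, hg]
  · rw [insGlue_emb, h0, insGlue_emb, h1]
  · rw [insGlue_0, h1, insGlue_0, hout]
  · rw [insGlue_1, h1, insGlue_1, hout, hg]
  · rw [insGlue_2, h1, insGlue_2, h0]

end raw2

namespace Tangle

variable {R : Type} [Fintype R] [DecidableEq R] {X : Type} [Fintype X] [DecidableEq X]

/-- The rotation of the open ends of the open tangle: `i ↦ i + 1` at the crossings. -/
def rotX (ρ : R → R) : X × Fin 4 ⊕ R → X × Fin 4 ⊕ R := Sum.map (Prod.map id (· + 1)) ρ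

/-- The map of ends from the open tangle to the tangle with all crossings. -/
def fe {Y Z : Type} (e : Y ⊕ X ≃ Z) : Y × Fin 4 ⊕ (X × Fin 4 ⊕ R) → Z × Fin 4 ⊕ R
  | Sum.inl (y, i) => Sum.inl (e (Sum.inl y), i)
  | Sum.inr (Sum.inl (x, i)) => Sum.inl (e (Sum.inr x), i)
  | Sum.inr (Sum.inr r) => Sum.inr r

theorem fe_injective {Y Z : Type} (e : Y ⊕ X ≃ Z) :
    Injective (fe e : Y × Fin 4 ⊕ (X × Fin 4 ⊕ R) → Z × Fin 4 ⊕ R) := by
  rintro (⟨y, i⟩ | ⟨x, i⟩ | r) (⟨y', i'⟩ | ⟨x', i'⟩ | r') h <;> simp_all [fe]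

theorem fe_surjective {Y Z : Type} (e : Y ⊕ X ≃ Z) :
    Surjective (fe e : Y × Fin 4 ⊕ (X × Fin 4 ⊕ R) → Z × Fin 4 ⊕ R) := by
  rintro (⟨z, i⟩ | r)
  · obtain ⟨y, rfl⟩ := e.surjective z
    rcases y with y | x
    · exact ⟨Sum.inl (y, i), rfl⟩
    · exact ⟨Sum.inr (Sum.inl (x, i)), rfl⟩
  · exact ⟨Sum.inr (Sum.inr r), rfl⟩

/-- `t'` is obtained from the open tangle `t` by filling the crossings `X` into the open
ends. -/
def FI (t : Tangle (X × Fin 4 ⊕ R)) (t' : Tangle R) (e : t.X ⊕ X ≃ t'.X) : Prop :=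
  ∀ d, fe e (t.glue d) = t'.glue (fe e d)

/-- The bijection of crossings after an insertion. -/
def eopt {Y Z : Type} (e : Y ⊕ X ≃ Z) : Option Y ⊕ X ≃ Option Z where
  toFun
    | Sum.inl none => none
    | Sum.inl (some y) => some (e (Sum.inl y))
    | Sum.inr x => some (e (Sum.inr x))
  invFun
    | none => Sum.inl none
    | some z => Sum.map some id (e.symm z)
  left_inv := by rintro (⟨_ | y⟩ | x) <;> simp
  right_inv := by
    rintro (_ | z)
    · rfl
    · obtain ⟨y, rfl⟩ := e.surjective z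
      rcases y with y | x <;> simp

theorem FI.ins {t : Tangle (X × Fin 4 ⊕ R)} {t' : Tangle R} {e : t.X ⊕ X ≃ t'.X}
    (h : FI t t' e) (a v : t.End) (σ : Equiv.Perm (Fin 4)) :
    FI (t.ins a v σ) (t'.ins (fe e a) (fe e v) σ) (eopt e) := by
  intro d
  refine (congrArg (fun g => fe (eopt e) (g d)) (t.ins_glue_eq a v σ)).trans (Eq.trans ?_
    (congrArg (fun g => g (fe (eopt e) d)) (t'.ins_glue_eq (fe e a) (fe e v) σ)).symm)
  refine insGlue_congr t.glue t'.glue (fe e) (fe_injective e) h (fe (eopt e)) ?_ ?_ a v σ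
    t.glue_ne t'.glue_ne d
  · rintro (⟨y, i⟩ | ⟨x, i⟩ | r) <;> rfl
  · intro i; rfl

theorem fe_rot (ρ : R → R) {Y Z : Type} (e : Y ⊕ X ≃ Z) (d : Y × Fin 4 ⊕ (X × Fin 4 ⊕ R)) :
    fe e (Sum.map (Prod.map id (· + 1)) (rotX ρ) d) =
      Sum.map (Prod.map id (· + 1)) ρ (fe e d) := by
  rcases d with ⟨y, i⟩ | ⟨x, i⟩ | r <;> rfl

theorem fe_emb {Y Z : Type} (e : Y ⊕ X ≃ Z) (d : Y × Fin 4 ⊕ (X × Fin 4 ⊕ R)) :
    fe (eopt e) (emb d) = emb (fe e d) := by
  rcases d with ⟨y, i⟩ | ⟨x, i⟩ | r <;> rfl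

theorem FI.finger (ρ : R → R) (b : Bool) (k : ℕ) : ∀ {t : Tangle (X × Fin 4 ⊕ R)}
    {t' : Tangle R} {e : t.X ⊕ X ≃ t'.X} (_ : FI t t' e) (a v : t.End) (a' v' : t'.End)
    (_ : fe e a = a') (_ : fe e v = v'),
    ∃ e', FI (Tangle.finger (rotX ρ) b k t a v) (Tangle.finger ρ b k t' a' v') e' := by
  induction k with
  | zero => exact fun {t t' e} h a v _ _ _ _ => ⟨e, h⟩
  | succ k ih =>
    intro t t' e h a v a' v' ha hv
    subst ha hv
    exact ih (h.ins a v (crossPos b)) (Sum.inl (none, crossPos b 1))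
      (emb (Sum.map (Prod.map id (· + 1)) (rotX ρ) v)) _ _ rfl
      ((fe_emb e _).trans (congrArg emb (fe_rot ρ e v)))

end Tangle

namespace Diagram

variable (G : Diagram)

/-- The ends of the diagram as open ends of the tangle which consists of the arcs only. -/
def arcs : Tangle (G.X × Fin 4 ⊕ G.M × Fin 2 ⊕ G.V) where
  X := Empty
  glue := Sum.elim (fun p => Empty.elim p.1) (fun n => Sum.inr (G.glue n))
  glue_glue := by
    rintro (⟨x, i⟩ | n)
    · exact Empty.elim x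
    · exact congrArg Sum.inr (G.tan.glue_glue n)
  glue_ne := by
    rintro (⟨x, i⟩ | n)
    · exact Empty.elim x
    · exact fun h => G.tan.glue_ne n (Sum.inr_injective h)

theorem fe_arcs (n : G.X × Fin 4 ⊕ G.M × Fin 2 ⊕ G.V) :
    Tangle.fe (Equiv.emptySum Empty G.X) (Sum.inr n : Empty × Fin 4 ⊕ _) = n := by
  rcases n with ⟨x, i⟩ | r <;> rfl

/-- Filling the arcs gives back the tangle. -/
theorem FI_arcs : Tangle.FI G.arcs G.tan (Equiv.emptySum Empty G.X) := by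
  rintro (⟨x, i⟩ | n)
  · exact Empty.elim x
  · exact (G.fe_arcs (G.glue n)).trans (congrArg G.glue (G.fe_arcs n).symm)

/-- The diagram with another tangle. -/
abbrev withTan (t : Tangle (G.M × Fin 2 ⊕ G.V)) : Diagram := { G with tan := t }

end Diagram


namespace Diagram

variable (G : Diagram)

/-- (I) The system of a diagram as the nodes glued to an open tangle. -/
theorem toPS_FI (t : Tangle (G.X × Fin 4 ⊕ G.M × Fin 2 ⊕ G.V))
    (t' : Tangle (G.M × Fin 2 ⊕ G.V)) (e : t.X ⊕ G.X ≃ t'.X) (h : Tangle.FI t t' e) :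
    PS.Iso (G.withTan t').toPS (capall t.toPS) := by
  let j : (t.X × Fin 4 ⊕ (G.X × Fin 4 ⊕ G.M × Fin 2 ⊕ G.V)) ⊕ (G.X × Fin 4 ⊕ G.M × Fin 2) →
      t'.X × Fin 4 ⊕ G.M × Fin 2 ⊕ G.V := Sum.elim (Tangle.fe e)
        (Sum.elim (fun p => Sum.inl (e (Sum.inr p.1), p.2)) (fun p => Sum.inr (Sum.inl p)))
  have surj := Tangle.fe_surjective (R := G.M × Fin 2 ⊕ G.V) e
  let E := Equiv.ofBijective _ ⟨Tangle.fe_injective (R := G.M × Fin 2 ⊕ G.V) e, surj⟩
  have hE : ∀ d, E.symm (Tangle.fe e d) = d := fun d => E.symm_apply_apply d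
  refine ⟨j, e, ?_⟩
  constructor
  · exact e.injective
  · intro x
    constructor
    · intro _
      refine ⟨e.symm x, ?_, e.apply_symm_apply x⟩
      rcases e.symm x with y | y
      · exact Finset.inl_mem_disjSum.mpr (Finset.mem_univ _)
      · exact Finset.inr_mem_disjSum.mpr (Finset.mem_univ _)
    · intro _
      exact Finset.mem_univ _
  · intro y hy
    exfalso
    apply hy
    rcases y with y | y
    · exact Finset.inl_mem_disjSum.mpr (Finset.mem_univ _)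
    · exact Finset.inr_mem_disjSum.mpr (Finset.mem_univ _)
  · -- con
    rintro s _ f ⟨h1, h2, h3⟩
    refine ⟨⟨fun d => ?_, fun y i => h2 (e (Sum.inl y)) i⟩, ⟨fun x i => h2 (e (Sum.inr x)) i, h3⟩,
      ?_⟩
    · exact (congrArg f (h d)).trans (h1 (Tangle.fe e d))
    · rintro (⟨x, i⟩ | ⟨m, i⟩) <;> rfl
  · -- det
    rintro s _ f _ hz
    funext a
    obtain ⟨d, rfl⟩ := surj a
    exact hz (Sum.inl d)
  · -- ext
    rintro s _ k ⟨⟨k1, k2⟩, ⟨k3, k4⟩, k5⟩
    have hx : ∀ x i, k (Sum.inl (Sum.inr (Sum.inl (x, i)))) = k (Sum.inr (Sum.inl (x, i))) :=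
      fun x i => k5 (Sum.inl (x, i))
    have hm : ∀ m i, k (Sum.inl (Sum.inr (Sum.inr (Sum.inl (m, i))))) =
      k (Sum.inr (Sum.inr (m, i))) := fun m i => k5 (Sum.inr (m, i))
    have hf : ∀ d, k (Sum.inl (E.symm (Tangle.fe e d))) = k (Sum.inl d) :=
      fun d => congrArg (fun z => k (Sum.inl z)) (hE d)
    refine ⟨fun a => k (Sum.inl (E.symm a)), ⟨fun a => ?_, fun z i => ?_, fun m => ?_⟩, ?_⟩
    · obtain ⟨d, rfl⟩ := surj a
      refine Eq.trans ?_ ((hf (t.glue d)).trans ((k1 d).trans (hf d).symm))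
      exact congrArg (fun z => k (Sum.inl (E.symm z))) (h d).symm
    · obtain ⟨y, rfl⟩ := e.surjective z
      rcases y with y | x
      · exact (hf (Sum.inl (y, _))).trans ((k2 y i).trans (hf (Sum.inl (y, i))).symm)
      · exact (hf (Sum.inr (Sum.inl (x, _)))).trans ((hx x _).trans ((k3 x i).trans
          ((hx x i).symm.trans (hf (Sum.inr (Sum.inl (x, i)))).symm)))
    · exact (hf (Sum.inr (Sum.inr (Sum.inl (m, 0))))).trans ((hm m 0).trans ((k4 m).trans
          ((hm m 1).symm.trans (hf (Sum.inr (Sum.inr (Sum.inl (m, 1))))).symm)))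
    · rintro (d | ⟨x, i⟩ | ⟨m, i⟩)
      · exact hf d
      · exact (hf (Sum.inr (Sum.inl (x, i)))).trans (hx x i)
      · exact (hf (Sum.inr (Sum.inr (Sum.inl (m, i))))).trans (hm m i)
  · -- u
    rintro s _ (y | x) _ f _ <;> rfl
  · -- leg
    rintro s _ f _ v
    rfl

end Diagram

end Spg
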