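import Pool.Agent.H85.SpgCS

/-!
# Open systems: points, legs, states; letters; pairing

Definitions of layer M5 of the proof of MP_5e61f3_gt.
-/

set_option linter.unusedSectionVars false

open Function

namespace Spg

/-- An open system with legs indexed by `Λ`: finitely many points, finitely many crossings, for
every state `s` of the crossings the space `Con s` of the functions on the points that are
constant on the components of the state, the two points `ua x`, `ub x` of every crossing, the
end points `leg l` of the legs, the finset `act` of active crossings and the frozen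
values `val` of the other ones. -/
structure PS (Λ : Type) [Fintype Λ] where
  P : Type
  X : Type
  [finP : Fintype P]
  [decP : DecidableEq P]
  [finX : Fintype X]
  [decX : DecidableEq X]
  Con : (X → Bool) → Submodule (ZMod 2) (P → ZMod 2)
  ua : X → P
  ub : X → P
  leg : Λ → P
  act : Finset X
  val : X → Bool
  swap : ∀ s x b f, f ∈ Con s → f (ua x) = f (ub x) → f ∈ Con (update s x b)
  star : ∀ s s' f f', f ∈ Con s → f' ∈ Con s' →
    ∑ l, f (leg l) * f' (leg l) = ∑ x, if s x = s' x then 0 else
      (f (ua x) + f (ub x)) * (f' (ua x) + f' (ub x))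

namespace PS

attribute [instance] PS.finP PS.decP PS.finX PS.decX

/-- The annihilator of a space of functions. -/
def ann {P : Type} [Fintype P] (C : Submodule (ZMod 2) (P → ZMod 2)) :
    Submodule (ZMod 2) (P → ZMod 2) where
  carrier := {v | ∀ f ∈ C, ∑ p, f p * v p = 0}
  add_mem' := by
    intro a b ha hb f hf
    simp only [Pi.add_apply, mul_add, Finset.sum_add_distrib, ha f hf, hb f hf, add_zero]
  zero_mem' := by intro f _; simp
  smul_mem' := by
    intro c a ha f hf
    have : ∑ p, f p * (c • a) p = c * ∑ p, f p * a p := by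
      rw [Finset.mul_sum]; refine Finset.sum_congr rfl (fun p _ => ?_)
      simp only [Pi.smul_apply, smul_eq_mul]; ring
    rw [this, ha f hf, mul_zero]

/-- The vector of a pair of points. -/
def uvec {P : Type} [DecidableEq P] (a b : P) : P → ZMod 2 := Pi.single a 1 + Pi.single b 1

theorem sum_mul_uvec {P : Type} [Fintype P] [DecidableEq P] (f : P → ZMod 2) (a b : P) :
    ∑ p, f p * uvec a b p = f a + f b := by
  simp [uvec, mul_add, Finset.sum_add_distrib, Pi.single_apply]

theorem two_mul_F2 (a : ZMod 2) : a + a = 0 := by revert a; decide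

theorem mem_ann_sup_span {P : Type} [Fintype P] (C : Submodule (ZMod 2) (P → ZMod 2))
    (u v : P → ZMod 2) : v ∈ ann C ⊔ Submodule.span (ZMod 2) {u} ↔
      ∀ f ∈ C, ∑ p, f p * u p = 0 → ∑ p, f p * v p = 0 := by
  rw [mem_sup_span]
  have hadd : ∀ f : P → ZMod 2, ∑ p, f p * (v + u) p = ∑ p, f p * v p + ∑ p, f p * u p := by
    intro f
    simp only [Pi.add_apply, mul_add, Finset.sum_add_distrib]
  constructor
  · rintro (h | h) f hf hu
    · exact h f hf
    · have := h f hf
      rwa [hadd, hu, add_zero] at this
  · intro h
    by_cases h0 : ∀ f ∈ C, ∑ p, f p * u p = 0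
    · exact Or.inl (fun f hf => h f hf (h0 f hf))
    · push Not at h0
      obtain ⟨f0, hf0, h1⟩ := h0
      have h1' : ∑ p, f0 p * u p = 1 := by
        revert h1
        generalize ∑ p, f0 p * u p = z
        revert z
        decide
      have key : ∀ f ∈ C, ∑ p, f p * u p = 1 → ∑ p, f p * v p = ∑ p, f0 p * v p := by
        intro f hf hu
        have h2 := h (f + f0) (Submodule.add_mem _ hf hf0)
          (by simp only [Pi.add_apply, add_mul, Finset.sum_add_distrib, hu, h1']; decide)
        simp only [Pi.add_apply, add_mul, Finset.sum_add_distrib] at h2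
        linear_combination h2 - two_mul_F2 (∑ p, f0 p * v p)
      have hc : ∀ z : ZMod 2, z = 0 ∨ z = 1 := by decide
      rcases hc (∑ p, f0 p * v p) with h3 | h3
      · left
        intro f hf
        rcases hc (∑ p, f p * u p) with h4 | h4
        · exact h f hf h4
        · rw [key f hf h4, h3]
      · right
        intro f hf
        rw [hadd]
        rcases hc (∑ p, f p * u p) with h4 | h4
        · rw [h f hf h4, h4, add_zero]
        · rw [key f hf h4, h3, h4]; decide

/-- An open system without legs gives a closed system. -/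
def close (A : PS Empty) : CS A.X (A.P → ZMod 2) where
  L s := ann (A.Con s)
  u x := uvec (A.ua x) (A.ub x)
  edge := by
    intro s x hx
    constructor
    · ext v
      rw [mem_ann_sup_span, mem_ann_sup_span]
      constructor
      · intro h f hf hu
        refine h f ?_ hu
        rw [sum_mul_uvec] at hu
        have h2 := A.swap _ x (s x) f hf
          (by linear_combination hu - two_mul_F2 (f (A.ub x)))
        rwa [update_idem, update_eq_self] at h2
      · intro h f hf hu
        refine h f ?_ hu
        rw [sum_mul_uvec] at hu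
        exact A.swap _ x true f hf (by linear_combination hu - two_mul_F2 (f (A.ub x)))
    · by_contra hcon
      push Not at hcon
      obtain ⟨h1, h2⟩ := hcon
      have g : ∀ C : Submodule (ZMod 2) (A.P → ZMod 2), uvec (A.ua x) (A.ub x) ∉ ann C →
          ∃ f ∈ C, f (A.ua x) + f (A.ub x) = 1 := by
        intro C hC
        have : ∃ f ∈ C, ∑ p, f p * uvec (A.ua x) (A.ub x) p ≠ 0 := by
          by_contra h
          push Not at h
          exact hC h
        obtain ⟨f, hf, h3⟩ := this
        refine ⟨f, hf, ?_⟩
        rw [sum_mul_uvec] at h3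
        revert h3
        generalize f (A.ua x) + f (A.ub x) = z
        revert z
        decide
      obtain ⟨f, hf, h3⟩ := g _ h1
      obtain ⟨f', hf', h4⟩ := g _ h2
      have h5 := A.star s (update s x true) f f' hf hf'
      rw [Finset.univ_eq_empty, Finset.sum_empty, Finset.sum_eq_single x] at h5
      · rw [update_self, if_neg (by simp [hx]), h3, h4] at h5
        exact absurd h5 (by decide)
      · intro y _ hy
        rw [update_of_ne hy, if_pos rfl]
      · intro h
        exact absurd (Finset.mem_univ x) h

section update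

variable {X Y : Type} [DecidableEq X] [DecidableEq Y] (s : X ⊕ Y → Bool) (b : Bool)

theorem update_inl_comp_inl (x : X) : (fun y => update s (Sum.inl x) b (Sum.inl y)) =
    update (fun y => s (Sum.inl y)) x b := by
  funext y
  by_cases h : y = x
  · subst h; simp
  · rw [update_of_ne h, update_of_ne (fun h' => h (Sum.inl_injective h'))]

theorem update_inl_comp_inr (x : X) : (fun y => update s (Sum.inl x) b (Sum.inr y)) =
    (fun y => s (Sum.inr y)) := by
  funext y
  rw [update_of_ne (by simp)]

theorem update_inr_comp_inl (x : Y) : (fun y => update s (Sum.inr x) b (Sum.inl y)) =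
    (fun y => s (Sum.inl y)) := by
  funext y
  rw [update_of_ne (by simp)]

theorem update_inr_comp_inr (x : Y) : (fun y => update s (Sum.inr x) b (Sum.inr y)) =
    update (fun y => s (Sum.inr y)) x b := by
  funext y
  by_cases h : y = x
  · subst h; simp
  · rw [update_of_ne h, update_of_ne (fun h' => h (Sum.inr_injective h'))]

end update

/-- Gluing two open systems along all their legs. -/
def pair {Λ : Type} [Fintype Λ] (A B : PS Λ) : PS Empty where
  P := A.P ⊕ B.P
  X := A.X ⊕ B.X
  Con s :=
    { carrier := {f | (fun p => f (Sum.inl p)) ∈ A.Con (fun x => s (Sum.inl x)) ∧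
        (fun p => f (Sum.inr p)) ∈ B.Con (fun x => s (Sum.inr x)) ∧
        ∀ l, f (Sum.inl (A.leg l)) = f (Sum.inr (B.leg l))}
      add_mem' := by
        rintro f g ⟨h1, h2, h3⟩ ⟨k1, k2, k3⟩
        refine ⟨Submodule.add_mem _ h1 k1, Submodule.add_mem _ h2 k2, fun l => ?_⟩
        simp only [Pi.add_apply, h3, k3]
      zero_mem' := ⟨Submodule.zero_mem _, Submodule.zero_mem _, fun _ => rfl⟩
      smul_mem' := by
        rintro c f ⟨h1, h2, h3⟩
        refine ⟨Submodule.smul_mem _ c h1, Submodule.smul_mem _ c h2, fun l => ?_⟩
        simp only [Pi.smul_apply, h3] }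
  ua := Sum.elim (fun x => Sum.inl (A.ua x)) (fun x => Sum.inr (B.ua x))
  ub := Sum.elim (fun x => Sum.inl (A.ub x)) (fun x => Sum.inr (B.ub x))
  leg := Empty.elim
  act := A.act.disjSum B.act
  val := Sum.elim A.val B.val
  swap := by
    rintro s (x | x) b f ⟨h1, h2, h3⟩ h
    · refine ⟨?_, ?_, h3⟩
      · rw [update_inl_comp_inl]
        exact A.swap _ x b _ h1 h
      · rw [update_inl_comp_inr]
        exact h2
    · refine ⟨?_, ?_, h3⟩
      · rw [update_inr_comp_inl]
        exact h1
      · rw [update_inr_comp_inr]
        exact B.swap _ x b _ h2 h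
  star := by
    rintro s s' f f' ⟨h1, h2, h3⟩ ⟨h1', h2', h3'⟩
    rw [Fintype.sum_sum_type, Finset.univ_eq_empty, Finset.sum_empty]
    have e1 := A.star _ _ _ _ h1 h1'
    have e2 := B.star _ _ _ _ h2 h2'
    have e3 : ∑ l, f (Sum.inl (A.leg l)) * f' (Sum.inl (A.leg l)) =
        ∑ l, f (Sum.inr (B.leg l)) * f' (Sum.inr (B.leg l)) :=
      Finset.sum_congr rfl (fun l _ => by rw [h3, h3'])
    refine (two_mul_F2 (∑ l, f (Sum.inr (B.leg l)) * f' (Sum.inr (B.leg l)))).symm.trans ?_
    exact congrArg₂ (· + ·) (e3.symm.trans e1) e2

/-- The vanishing predicate of the closed system `⟨A, B⟩`. -/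
def EE {Λ : Type} [Fintype Λ] (A B : PS Λ) (n : ℤ) : Prop :=
  (pair A B).close.E (pair A B).act (pair A B).val n

end PS

/-- The three matchings of four points `a b c d`: `I = {ac, bd}`, `S = {ad, bc}`,
`E = {ab, cd}`. -/
inductive Mt | I | S | E
  deriving DecidableEq

/-- `f` is constant on the pairs of the matching. -/
def Mt.ok : Mt → ZMod 2 → ZMod 2 → ZMod 2 → ZMod 2 → Prop
  | .I, a, b, c, d => a = c ∧ b = d
  | .S, a, b, c, d => a = d ∧ b = c
  | .E, a, b, c, d => a = b ∧ c = d

instance (m : Mt) (a b c d : ZMod 2) : Decidable (m.ok a b c d) := by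
  cases m <;> (unfold Mt.ok; infer_instance)

/-- The partner of `a` in the matching different from the two given ones. -/
def Mt.pick {T : Type} : Mt → Mt → T → T → T → T
  | .I, .S, b, _, _ => b
  | .S, .I, b, _, _ => b
  | .I, .E, _, _, d => d
  | .E, .I, _, _, d => d
  | .S, .E, _, c, _ => c
  | .E, .S, _, c, _ => c
  | .I, .I, b, _, _ => b
  | .S, .S, b, _, _ => b
  | .E, .E, b, _, _ => b

/-- A letter: a crossing attached to the legs `i`, `j`; its smoothings in the states `false` and
`true` are the matchings `m0` and `m1` of `(old i, old j, new i, new j)`.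
It is active if `fr = none`, and frozen with value `b` if `fr = some b`. -/
structure Letter (Λ : Type) where
  i : Λ
  j : Λ
  ne : i ≠ j
  m0 : Mt
  m1 : Mt
  mne : m0 ≠ m1
  fr : Option Bool

/-- The smoothing of a letter in a state. -/
def Letter.mt {Λ : Type} (l : Letter Λ) (b : Bool) : Mt := if b = true then l.m1 else l.m0

theorem Mt.pick_map {T : Type} (f : T → ZMod 2) (m m' : Mt) (b c d : T) :
    f (Mt.pick m m' b c d) = Mt.pick m m' (f b) (f c) (f d) := by
  cases m <;> cases m' <;> rfl

theorem Mt.ok_swap (m m' : Mt) (a b c d : ZMod 2) (h : m.ok a b c d)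
    (h' : a = Mt.pick m m' b c d ∨ a = Mt.pick m' m b c d) (hne : m ≠ m') : m'.ok a b c d := by
  revert h h' hne
  revert a b c d
  cases m <;> cases m' <;> decide

theorem Letter.swap_ok {Λ : Type} (l : Letter Λ) (β β' : Bool) (a b c d : ZMod 2)
    (h : (l.mt β).ok a b c d) (h' : a = Mt.pick l.m0 l.m1 b c d) : (l.mt β').ok a b c d := by
  cases β <;> cases β'
  · exact h
  · exact Mt.ok_swap _ _ _ _ _ _ h (Or.inl h') l.mne
  · exact Mt.ok_swap _ _ _ _ _ _ h (Or.inr h') l.mne.symm
  · exact h

theorem Mt.star (m m' : Mt) (a b c d a' b' c' d' : ZMod 2) (h : m.ok a b c d)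
    (h' : m'.ok a' b' c' d') :
    c * c' + d * d' + (a * a' + b * b') =
      if m = m' then 0 else (a + Mt.pick m m' b c d) * (a' + Mt.pick m m' b' c' d') := by
  cases m <;> cases m' <;> obtain ⟨rfl, rfl⟩ := h <;> obtain ⟨rfl, rfl⟩ := h' <;>
    first
      | (revert a b a' b'; decide)
      | (revert a b a' c'; decide)
      | (revert a c a' b'; decide)
      | (revert a c a' c'; decide)

theorem Letter.star_ok {Λ : Type} (l : Letter Λ) (β β' : Bool) (a b c d a' b' c' d' : ZMod 2)
    (h : (l.mt β).ok a b c d) (h' : (l.mt β').ok a' b' c' d') :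
    c * c' + d * d' + (a * a' + b * b') =
      if β = β' then 0 else
        (a + Mt.pick l.m0 l.m1 b c d) * (a' + Mt.pick l.m0 l.m1 b' c' d') := by
  have h1 := Mt.star _ _ _ _ _ _ _ _ _ _ h h'
  have hsym : ∀ m m' (b c d : ZMod 2), Mt.pick m m' b c d = Mt.pick m' m b c d := by
    intro m m' b c d
    cases m <;> cases m' <;> rfl
  cases β <;> cases β'
  · exact h1.trans (if_pos rfl)
  · exact h1.trans (if_neg l.mne)
  · refine (h1.trans (if_neg l.mne.symm)).trans ?_
    show (a + Mt.pick l.m1 l.m0 b c d) * (a' + Mt.pick l.m1 l.m0 b' c' d') = _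
    rw [hsym l.m1, hsym l.m1]
    rfl
  · exact h1.trans (if_pos rfl)

theorem attach_sum {Λ : Type} [Fintype Λ] [DecidableEq Λ] (l : Letter Λ) (F : Λ → ZMod 2)
    (x y : ZMod 2) : ∑ k, (if k = l.i then x else if k = l.j then y else F k) =
      ∑ k, F k + (x + y + (F l.i + F l.j)) := by
  have h : ∀ k, (if k = l.i then x else if k = l.j then y else F k) =
      F k + ((if k = l.i then x + F l.i else 0) + (if k = l.j then y + F l.j else 0)) := by
    intro k
    by_cases h1 : k = l.i
    · have h2 : k ≠ l.j := fun h2 => l.ne (h1.symm.trans h2)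
      rw [if_pos h1, if_pos h1, if_neg h2, h1, add_zero]
      have h3 : ∀ z : ZMod 2, z + z = 0 := by decide
      linear_combination -h3 (F l.i)
    · rw [if_neg h1, if_neg h1]
      by_cases h2 : k = l.j
      · rw [if_pos h2, if_pos h2, h2, zero_add]
        have h3 : ∀ z : ZMod 2, z + z = 0 := by decide
        linear_combination -h3 (F l.j)
      · rw [if_neg h2, if_neg h2, add_zero, add_zero]
  rw [Finset.sum_congr rfl (fun k _ => h k), Finset.sum_add_distrib, Finset.sum_add_distrib,
    Finset.sum_ite_eq', Finset.sum_ite_eq', if_pos (Finset.mem_univ _),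
    if_pos (Finset.mem_univ _)]
  ring

namespace PS

variable {Λ : Type} [Fintype Λ] [DecidableEq Λ]

/-- Attaching a letter to an open system; the new points are `inr false` (new end of leg `i`) and
`inr true` (new end of leg `j`). -/
def attach (A : PS Λ) (l : Letter Λ) : PS Λ where
  P := A.P ⊕ Bool
  X := Option A.X
  Con s :=
    { carrier := {f | (fun p => f (Sum.inl p)) ∈ A.Con (fun x => s (some x)) ∧
        (l.mt (s none)).ok (f (Sum.inl (A.leg l.i))) (f (Sum.inl (A.leg l.j)))
          (f (Sum.inr false)) (f (Sum.inr true))}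
      add_mem' := by
        rintro f g ⟨h1, h2⟩ ⟨k1, k2⟩
        refine ⟨Submodule.add_mem _ h1 k1, ?_⟩
        revert h2 k2
        cases (l.mt (s none)) <;>
        · rintro ⟨h1, h2⟩ ⟨k1, k2⟩
          exact ⟨by simp only [Pi.add_apply, h1, k1], by simp only [Pi.add_apply, h2, k2]⟩
      zero_mem' := by
        refine ⟨Submodule.zero_mem _, ?_⟩
        cases (l.mt (s none)) <;> exact ⟨rfl, rfl⟩
      smul_mem' := by
        rintro c f ⟨h1, h2⟩
        refine ⟨Submodule.smul_mem _ c h1, ?_⟩
        revert h2
        cases (l.mt (s none)) <;>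
        · rintro ⟨h1, h2⟩
          exact ⟨by simp only [Pi.smul_apply, h1], by simp only [Pi.smul_apply, h2]⟩ }
  ua x := x.elim (Sum.inl (A.leg l.i)) (fun y => Sum.inl (A.ua y))
  ub x := x.elim (Mt.pick l.m0 l.m1 (Sum.inl (A.leg l.j)) (Sum.inr false) (Sum.inr true))
    (fun y => Sum.inl (A.ub y))
  leg k := if k = l.i then Sum.inr false else if k = l.j then Sum.inr true else Sum.inl (A.leg k)
  act := match l.fr with
    | none => insert none (A.act.map Function.Embedding.some)
    | some _ => A.act.map Function.Embedding.some
  val x := x.elim (l.fr.getD false) A.val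
  swap := by
    rintro s x b f ⟨h1, h2⟩ h
    cases x with
    | none =>
      refine ⟨?_, ?_⟩
      · have : (fun x => update s none b (some x)) = fun x => s (some x) := by
          funext x
          rw [update_of_ne (by simp)]
        rw [this]
        exact h1
      · rw [update_self]
        have h3 : f (Sum.inl (A.leg l.i)) = Mt.pick l.m0 l.m1 (f (Sum.inl (A.leg l.j)))
            (f (Sum.inr false)) (f (Sum.inr true)) := h.trans (Mt.pick_map f _ _ _ _ _)
        exact l.swap_ok _ _ _ _ _ _ h2 h3
    | some y =>
      refine ⟨?_, ?_⟩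
      · have : (fun x => update s (some y) b (some x)) = update (fun x => s (some x)) y b := by
          funext x
          by_cases hx : x = y
          · subst hx; simp
          · rw [update_of_ne hx, update_of_ne (by simpa using hx)]
        rw [this]
        exact A.swap _ y b _ h1 h
      · rw [update_of_ne (by simp)]
        exact h2
  star := by
    rintro s s' f f' ⟨h1, h2⟩ ⟨h1', h2'⟩
    rw [Fintype.sum_option]
    have e1 := A.star _ _ _ _ h1 h1'
    have e2 := l.star_ok _ _ _ _ _ _ _ _ _ _ h2 h2'
    have e3 := attach_sum l (fun k => f (Sum.inl (A.leg k)) * f' (Sum.inl (A.leg k)))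
      (f (Sum.inr false) * f' (Sum.inr false)) (f (Sum.inr true) * f' (Sum.inr true))
    have e4 : ∀ k, f (if k = l.i then Sum.inr false else if k = l.j then Sum.inr true
        else Sum.inl (A.leg k)) * f' (if k = l.i then Sum.inr false
        else if k = l.j then Sum.inr true else Sum.inl (A.leg k)) =
        (if k = l.i then f (Sum.inr false) * f' (Sum.inr false) else if k = l.j then
          f (Sum.inr true) * f' (Sum.inr true) else
          f (Sum.inl (A.leg k)) * f' (Sum.inl (A.leg k))) := by
      intro k
      split_ifs <;> rfl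
    refine (Finset.sum_congr rfl (fun k _ => e4 k)).trans ?_
    refine e3.trans ?_
    rw [e1, e2, add_comm]
    refine congrArg₂ (· + ·) ?_ rfl
    refine congrArg (fun z => if s none = s' none then (0 : ZMod 2) else z) ?_
    exact congrArg₂ (fun z w => (f (Sum.inl (A.leg l.i)) + z) * (f' (Sum.inl (A.leg l.i)) + w))
      (Mt.pick_map f _ _ _ _ _).symm (Mt.pick_map f' _ _ _ _ _).symm

/-- Attaching a word; the LAST letter of the list is attached first, the head is attached last
(so the crossings of `attachW A (l :: w)` are `Option (attachW A w).X`). -/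
def attachW (A : PS Λ) : List (Letter Λ) → PS Λ
  | [] => A
  | l :: w => attach (attachW A w) l

@[simp] theorem attachW_nil (A : PS Λ) : attachW A [] = A := rfl

@[simp] theorem attachW_cons (A : PS Λ) (l : Letter Λ) (w : List (Letter Λ)) :
    attachW A (l :: w) = attach (attachW A w) l := rfl

theorem attachW_append (A : PS Λ) (w w' : List (Letter Λ)) :
    attachW A (w ++ w') = attachW (attachW A w') w := by
  induction w with
  | nil => rfl
  | cons l w ih => rw [List.cons_append, attachW_cons, attachW_cons, ih]

/-- The same system with other active crossings and frozen values. -/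
def refreeze (A : PS Λ) (a : Finset A.X) (c : A.X → Bool) : PS Λ :=
  { A with act := a, val := c }

/-- A base: points = legs, no crossings, the legs are joined by a fixed-point free involution. -/
def base (μ : Λ → Λ) (hμ : ∀ l, μ (μ l) = l) (hne : ∀ l, μ l ≠ l) : PS Λ where
  P := Λ
  X := Empty
  Con _ :=
    { carrier := {f | ∀ l, f (μ l) = f l}
      add_mem' := by
        intro f g hf hg l
        simp only [Pi.add_apply, hf l, hg l]
      zero_mem' := fun _ => rfl
      smul_mem' := by
        intro c f hf l
        simp only [Pi.smul_apply, hf l] }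
  ua := Empty.elim
  ub := Empty.elim
  leg := id
  act := ∅
  val := Empty.elim
  swap := fun _ x => Empty.elim x
  star := by
    intro s s' f f' hf hf'
    rw [Finset.univ_eq_empty (α := Empty), Finset.sum_empty]
    refine Finset.sum_involution (fun l _ => μ l) ?_ ?_ ?_ ?_
    · intro l _
      show f l * f' l + f (μ l) * f' (μ l) = 0
      rw [hf l, hf' l, two_mul_F2]
    · intro l _ _
      exact hne l
    · intro l _; exact Finset.mem_univ _
    · intro l _; exact hμ l

end PS

end Spg
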