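import Mathlib

/-!
# Surgery on the arcs of a diagram

Part of the statement layer of MP_5e61f3_gt. The arcs of a diagram are described by a fixed-point
free involution `g` on the set of the ends (every end is joined to its partner by an arc).
-/

open Function

namespace Spg

/-- Surgery: the arcs joining `p` to `g p` and `q` to `g q` are cut; then `p` gets joined to `q` and
`g p` gets joined to `g q`. -/
def rejoin {E : Type} [DecidableEq E] (g : E → E) (p q e : E) : E :=
  if e = p then q else if e = q then p else if e = g p then g q else if e = g q then g p else g e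

/-- The ends of a tangle with the set `X` of crossings and the set `R` of open ends, as ends of a
tangle with one more crossing `none`. -/
def emb {X R : Type} : (X × Fin 4 ⊕ R) → (Option X × Fin 4 ⊕ R) :=
  Sum.map (Prod.map some id) id

/-- A new crossing `none` is added, with an arc joining its ends `σ 0`, `σ 1` and an arc joining its
ends `σ 2`, `σ 3`. -/
def addX {X R : Type} (g : X × Fin 4 ⊕ R → X × Fin 4 ⊕ R) (σ : Equiv.Perm (Fin 4)) :
    Option X × Fin 4 ⊕ R → Option X × Fin 4 ⊕ R
  | Sum.inl (none, i) => Sum.inl (none, σ (![1, 0, 3, 2] (σ.symm i)))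
  | Sum.inl (some x, i) => emb (g (Sum.inl (x, i)))
  | Sum.inr r => emb (g (Sum.inr r))

/-- The ends of a diagram (at the crossings `X`, the markers `M` and the vertices), as ends of a
diagram with one more marker `none`. -/
def embM {X M V : Type} : (X × Fin 4 ⊕ M × Fin 2 ⊕ V) → (X × Fin 4 ⊕ Option M × Fin 2 ⊕ V) :=
  Sum.map id (Sum.map (Prod.map some id) id)

/-- A new marker `none` is added, with an arc joining its two ends. -/
def addM {X M V : Type} (g : X × Fin 4 ⊕ M × Fin 2 ⊕ V → X × Fin 4 ⊕ M × Fin 2 ⊕ V) :
    X × Fin 4 ⊕ Option M × Fin 2 ⊕ V → X × Fin 4 ⊕ Option M × Fin 2 ⊕ V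
  | Sum.inl p => embM (g (Sum.inl p))
  | Sum.inr (Sum.inl (some m, i)) => embM (g (Sum.inr (Sum.inl (m, i))))
  | Sum.inr (Sum.inl (none, i)) => Sum.inr (Sum.inl (none, i + 1))
  | Sum.inr (Sum.inr v) => embM (g (Sum.inr (Sum.inr v)))

end Spg
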