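import Pool.Agent.H85.SpgSurg
import Pool.Agent.H50.SpgAux

/-!
# Lemmas on surgery
-/

set_option linter.unusedSectionVars false

open Function

namespace Spg

section rejoin

variable {E : Type} [DecidableEq E] (g : E → E) (p q : E)

theorem rejoin_p : rejoin g p q p = q := if_pos rfl

theorem rejoin_q : rejoin g p q q = p := by
  unfold rejoin
  by_cases h : q = p
  · rw [if_pos h, h]
  · rw [if_neg h, if_pos rfl]

variable {g p q}

theorem rejoin_gp (hg : ∀ e, g e ≠ e) (h' : q ≠ g p) : rejoin g p q (g p) = g q := by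
  unfold rejoin
  rw [if_neg (hg p), if_neg (fun h => h' h.symm), if_pos rfl]

theorem rejoin_gq (hgg : ∀ e, g (g e) = e) (hg : ∀ e, g e ≠ e) (h : q ≠ p) (h' : q ≠ g p) :
    rejoin g p q (g q) = g p := by
  unfold rejoin
  rw [if_neg (fun h2 => h' (by rw [← h2, hgg])), if_neg (hg q),
    if_neg (fun h2 => h (by rw [← hgg q, h2, hgg])), if_pos rfl]

theorem rejoin_other {e : E} (h1 : e ≠ p) (h2 : e ≠ q) (h3 : e ≠ g p) (h4 : e ≠ g q) :
    rejoin g p q e = g e := by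
  unfold rejoin
  rw [if_neg h1, if_neg h2, if_neg h3, if_neg h4]

theorem rejoin_cases (g : E → E) (p q e : E) :
    e = p ∨ e = q ∨ e = g p ∨ e = g q ∨ (e ≠ p ∧ e ≠ q ∧ e ≠ g p ∧ e ≠ g q) := by
  tauto

theorem rejoin_surg (hgg : ∀ e, g (g e) = e) (hg : ∀ e, g e ≠ e) (h : q ≠ p) (h' : q ≠ g p)
    (e : E) : rejoin g p q (rejoin g p q e) = e := by
  rcases rejoin_cases g p q e with rfl | rfl | rfl | rfl | ⟨h1, h2, h3, h4⟩
  · rw [rejoin_p, rejoin_q]
  · rw [rejoin_q, rejoin_p]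
  · rw [rejoin_gp hg h', rejoin_gq hgg hg h h']
  · rw [rejoin_gq hgg hg h h', rejoin_gp hg h']
  · rw [rejoin_other h1 h2 h3 h4, rejoin_other, hgg]
    · exact fun h5 => h3 (by rw [← h5, hgg])
    · exact fun h5 => h4 (by rw [← h5, hgg])
    · exact fun h5 => h1 (by rw [← hgg e, h5, hgg])
    · exact fun h5 => h2 (by rw [← hgg e, h5, hgg])

theorem rejoin_ne (hgg : ∀ e, g (g e) = e) (hg : ∀ e, g e ≠ e) (h : q ≠ p) (h' : q ≠ g p)
    (e : E) : rejoin g p q e ≠ e := by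
  rcases rejoin_cases g p q e with rfl | rfl | rfl | rfl | ⟨h1, h2, h3, h4⟩
  · rw [rejoin_p]; exact h
  · rw [rejoin_q]; exact h.symm
  · rw [rejoin_gp hg h']
    exact fun h5 => h (by rw [← hgg q, h5, hgg])
  · rw [rejoin_gq hgg hg h h']
    exact fun h5 => h (by rw [← hgg p, h5, hgg])
  · rw [rejoin_other h1 h2 h3 h4]
    exact hg e

end rejoin

section addX

variable {X R : Type} (g : X × Fin 4 ⊕ R → X × Fin 4 ⊕ R) (σ : Equiv.Perm (Fin 4))

theorem emb_injective : Injective (emb : (X × Fin 4 ⊕ R) → (Option X × Fin 4 ⊕ R)) := by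
  rintro (⟨x, i⟩ | r) (⟨y, j⟩ | r') h
  · simp only [emb, Sum.map_inl, Prod.map_apply, id_eq, Sum.inl.injEq, Prod.mk.injEq,
      Option.some.injEq] at h
    rw [h.1, h.2]
  · simp [emb] at h
  · simp [emb] at h
  · simp only [emb, Sum.map_inr, id_eq, Sum.inr.injEq] at h
    rw [h]

theorem emb_ne_none (e : X × Fin 4 ⊕ R) (i : Fin 4) :
    emb e ≠ (Sum.inl (none, i) : Option X × Fin 4 ⊕ R) := by
  rcases e with ⟨x, j⟩ | r <;> simp [emb]

theorem emb_cases (e : Option X × Fin 4 ⊕ R) :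
    (∃ e', e = emb e') ∨ ∃ i, e = Sum.inl (none, σ i) := by
  rcases e with ⟨x, i⟩ | r
  · cases x with
    | some x => exact Or.inl ⟨Sum.inl (x, i), rfl⟩
    | none => exact Or.inr ⟨σ.symm i, by rw [Equiv.apply_symm_apply]⟩
  · exact Or.inl ⟨Sum.inr r, rfl⟩

theorem addX_emb (e : X × Fin 4 ⊕ R) : addX g σ (emb e) = emb (g e) := by
  rcases e with ⟨x, i⟩ | r <;> rfl

theorem addX_none (i : Fin 4) :
    addX g σ (Sum.inl (none, σ i)) = Sum.inl (none, σ (![1, 0, 3, 2] i)) := by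
  show Sum.inl (none, σ (![1, 0, 3, 2] (σ.symm (σ i)))) = _
  rw [Equiv.symm_apply_apply]

theorem addX_addX (hgg : ∀ e, g (g e) = e) (e : Option X × Fin 4 ⊕ R) :
    addX g σ (addX g σ e) = e := by
  rcases emb_cases σ e with ⟨e', rfl⟩ | ⟨i, rfl⟩
  · rw [addX_emb, addX_emb, hgg]
  · rw [addX_none, addX_none]
    have : (![1, 0, 3, 2] : Fin 4 → Fin 4) ((![1, 0, 3, 2] : Fin 4 → Fin 4) i) = i := by
      revert i; decide
    rw [this]

theorem addX_ne (hg : ∀ e, g e ≠ e) (e : Option X × Fin 4 ⊕ R) :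
    addX g σ e ≠ e := by
  rcases emb_cases σ e with ⟨e', rfl⟩ | ⟨i, rfl⟩
  · rw [addX_emb]
    exact fun h => hg _ (emb_injective h)
  · rw [addX_none]
    intro h
    have h2 : σ ((![1, 0, 3, 2] : Fin 4 → Fin 4) i) = σ i := by simpa using h
    have h4 : ∀ i : Fin 4, (![1, 0, 3, 2] : Fin 4 → Fin 4) i ≠ i := by decide
    exact h4 i (σ.injective h2)

end addX

section insX

variable {X R : Type} [DecidableEq X] [DecidableEq R] (g : X × Fin 4 ⊕ R → X × Fin 4 ⊕ R)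
  (a v : X × Fin 4 ⊕ R) (σ : Equiv.Perm (Fin 4))

theorem s1_emb_ne (hg : ∀ e, g e ≠ e) :
    (Sum.inl (none, σ 2) : Option X × Fin 4 ⊕ R) ≠
      rejoin (addX g σ) (emb a) (Sum.inl (none, σ 0)) (emb v) := by
  intro h
  have h2 : ∀ i : Fin 4, i ≠ 2 → (Sum.inl (none, σ 2) : Option X × Fin 4 ⊕ R) ≠
      Sum.inl (none, σ i) := by
    intro i hi h3
    have h4 : σ 2 = σ i := by simpa using h3
    exact hi (σ.injective h4).symm
  rcases rejoin_cases (addX g σ) (emb a) (Sum.inl (none, σ 0)) (emb v) with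
    h1 | h1 | h1 | h1 | ⟨k1, k2, k3, k4⟩
  · rw [h1, rejoin_p] at h
    exact h2 0 (by decide) h
  · exact emb_ne_none _ _ h1
  · rw [h1, rejoin_gp (addX_ne g σ hg), addX_none] at h
    · exact h2 1 (by decide) h
    · rw [addX_emb]; exact (emb_ne_none _ _).symm
  · rw [addX_none] at h1
    exact emb_ne_none _ _ h1
  · rw [rejoin_other k1 k2 k3 k4, addX_emb] at h
    exact emb_ne_none _ _ h.symm

theorem insX_aux (hgg : ∀ e, g (g e) = e) (hg : ∀ e, g e ≠ e) :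
    (∀ e, rejoin (rejoin (addX g σ) (emb a) (Sum.inl (none, σ 0))) (emb v) (Sum.inl (none, σ 2))
      (rejoin (rejoin (addX g σ) (emb a) (Sum.inl (none, σ 0))) (emb v) (Sum.inl (none, σ 2)) e) = e) ∧
    (∀ e, rejoin (rejoin (addX g σ) (emb a) (Sum.inl (none, σ 0))) (emb v) (Sum.inl (none, σ 2)) e
      ≠ e) := by
  have k0 : (Sum.inl (none, σ 0) : Option X × Fin 4 ⊕ R) ≠ addX g σ (emb a) := by
    rw [addX_emb]; exact (emb_ne_none _ _).symm
  have a1 := rejoin_surg (addX_addX g σ hgg) (addX_ne g σ hg)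
    (emb_ne_none a (σ 0)).symm k0
  have a2 := rejoin_ne (addX_addX g σ hgg) (addX_ne g σ hg)
    (emb_ne_none a (σ 0)).symm k0
  exact ⟨rejoin_surg a1 a2 (emb_ne_none v (σ 2)).symm (s1_emb_ne g a v σ hg),
    rejoin_ne a1 a2 (emb_ne_none v (σ 2)).symm (s1_emb_ne g a v σ hg)⟩

end insX

section addM

variable {X M V : Type} (g : X × Fin 4 ⊕ M × Fin 2 ⊕ V → X × Fin 4 ⊕ M × Fin 2 ⊕ V)

theorem embM_inj : Injective (embM : (X × Fin 4 ⊕ M × Fin 2 ⊕ V) → _) :=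
  Injective.sumMap injective_id (Injective.sumMap
    (Injective.prodMap (Option.some_injective _) injective_id) injective_id)

theorem embM_ne (i : Fin 2) (e : X × Fin 4 ⊕ M × Fin 2 ⊕ V) :
    embM e ≠ Sum.inr (Sum.inl (none, i)) := by
  rcases e with p | ⟨m, j⟩ | v <;> simp [embM]

theorem embM_cases (e' : X × Fin 4 ⊕ Option M × Fin 2 ⊕ V) :
    (∃ e : X × Fin 4 ⊕ M × Fin 2 ⊕ V, e' = embM e) ∨ ∃ i, e' = Sum.inr (Sum.inl (none, i)) := by
  rcases e' with p | ⟨m | m, i⟩ | v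
  · exact Or.inl ⟨Sum.inl p, rfl⟩
  · exact Or.inr ⟨i, rfl⟩
  · exact Or.inl ⟨Sum.inr (Sum.inl (m, i)), rfl⟩
  · exact Or.inl ⟨Sum.inr (Sum.inr v), rfl⟩

theorem addM_emb (e : X × Fin 4 ⊕ M × Fin 2 ⊕ V) : addM g (embM e) = embM (g e) := by
  rcases e with p | ⟨m, i⟩ | v <;> rfl

theorem addM_none (i : Fin 2) :
    addM g (Sum.inr (Sum.inl (none, i))) = Sum.inr (Sum.inl (none, i + 1)) := rfl

theorem addM_addM (hgg : ∀ e, g (g e) = e) (e : X × Fin 4 ⊕ Option M × Fin 2 ⊕ V) :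
    addM g (addM g e) = e := by
  rcases embM_cases e with ⟨e', rfl⟩ | ⟨i, rfl⟩
  · rw [addM_emb, addM_emb, hgg]
  · rw [addM_none, addM_none]
    have : i + 1 + 1 = i := by revert i; decide
    rw [this]

theorem addM_ne (hg : ∀ e, g e ≠ e) (e : X × Fin 4 ⊕ Option M × Fin 2 ⊕ V) :
    addM g e ≠ e := by
  rcases embM_cases e with ⟨e', rfl⟩ | ⟨i, rfl⟩
  · rw [addM_emb]
    exact fun h => hg _ (embM_inj h)
  · rw [addM_none]
    intro h
    have h2 : i + 1 = i := congrArg (fun z : X × Fin 4 ⊕ Option M × Fin 2 ⊕ V => match z with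
      | Sum.inr (Sum.inl (_, k)) => k
      | _ => 0) h
    have h4 : ∀ i : Fin 2, i + 1 ≠ i := by decide
    exact h4 i h2

variable [DecidableEq X] [DecidableEq M] [DecidableEq V]

theorem insM_aux (a : X × Fin 4 ⊕ M × Fin 2 ⊕ V)
    (hgg : ∀ e, g (g e) = e) (hg : ∀ e, g e ≠ e) :
    (∀ e, rejoin (addM g) (embM a) (Sum.inr (Sum.inl (none, 0)))
      (rejoin (addM g) (embM a) (Sum.inr (Sum.inl (none, 0))) e) = e) ∧
    (∀ e, rejoin (addM g) (embM a) (Sum.inr (Sum.inl (none, 0))) e ≠ e) := by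
  have k0 : (Sum.inr (Sum.inl (none, 0)) : X × Fin 4 ⊕ Option M × Fin 2 ⊕ V) ≠
      addM g (embM a) := by
    rw [addM_emb]; exact (embM_ne _ _).symm
  exact ⟨rejoin_surg (addM_addM g hgg) (addM_ne g hg) (embM_ne 0 a).symm k0,
    rejoin_ne (addM_addM g hgg) (addM_ne g hg) (embM_ne 0 a).symm k0⟩

end addM

end Spg
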