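import Pool.Agent.H85.SpgTopDefs
import Pool.Agent.H85.SpgIns

/-!
# Tangles as open systems: insertion of a crossing is attaching a letter
-/

set_option linter.unusedSectionVars false

open Function

namespace Spg

/-! ### Functions on the ends, raw versions -/

section raw

variable {X R : Type} [DecidableEq X] [DecidableEq R]

/-- `f` is compatible with the smoothings `s` and with the gluing `g` away from the arc at `a`. -/
def CutCon (g : X × Fin 4 ⊕ R → X × Fin 4 ⊕ R) (a : X × Fin 4 ⊕ R) (s : X → Bool)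
    (f : X × Fin 4 ⊕ R → ZMod 2) : Prop :=
  (∀ d, d ≠ a → d ≠ g a → f (g d) = f d) ∧
    (∀ x i, f (Sum.inl (x, sm (s x) i)) = f (Sum.inl (x, i)))

variable (g : X × Fin 4 ⊕ R → X × Fin 4 ⊕ R) (hg : ∀ e, g e ≠ e) (a v : X × Fin 4 ⊕ R)
  (σ : Equiv.Perm (Fin 4))

theorem none_inj {i j : Fin 4}
    (h : (Sum.inl (none, i) : Option X × Fin 4 ⊕ R) = Sum.inl (none, j)) : i = j := by
  simpa using h

variable {g a v σ}

theorem CutCon.out {s : Option X → Bool} {f : Option X × Fin 4 ⊕ R → ZMod 2}
    (h : CutCon (insGlue g a v σ) (Sum.inl (none, σ 1)) s f) (e : X × Fin 4 ⊕ R)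
    (he : e ≠ a) (he' : e ≠ g a) : f (outEnd v σ (g e)) = f (outEnd v σ e) := by
  have := h.1 (outEnd v σ e) (outEnd_ne_none _ _ _ 1 (by decide)) (by
    rw [insGlue_1]; exact fun h2 => he' (outEnd_injective _ _ h2))
  rwa [insGlue_outEnd, newEnd_other g a v σ he he'] at this

theorem CutCon.zero {s : Option X → Bool} {f : Option X × Fin 4 ⊕ R → ZMod 2}
    (h : CutCon (insGlue g a v σ) (Sum.inl (none, σ 1)) s f) :
    f (outEnd v σ a) = f (Sum.inl (none, σ 0)) := by
  have := h.1 (Sum.inl (none, σ 0)) (fun h => absurd (σ.injective (none_inj h)) (by decide)) (by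
      rw [insGlue_1]; exact (outEnd_ne_none _ _ _ 0 (by decide)).symm)
  rwa [insGlue_0] at this

theorem CutCon.two {s : Option X → Bool} {f : Option X × Fin 4 ⊕ R → ZMod 2}
    (h : CutCon (insGlue g a v σ) (Sum.inl (none, σ 1)) s f) :
    f (emb v) = f (Sum.inl (none, σ 2)) := by
  have := h.1 (Sum.inl (none, σ 2)) (fun h => absurd (σ.injective (none_inj h)) (by decide)) (by
      rw [insGlue_1]; exact (outEnd_ne_none _ _ _ 2 (by decide)).symm)
  rwa [insGlue_2] at this

variable (a v σ)

/-- The function on the ends of the new tangle given by values on the outer ends, on `emb v`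
and on the new crossing ends `σ 0`, `σ 1`, `σ 2`. -/
def extF (g : X × Fin 4 ⊕ R → ZMod 2) (x0 x1 x2 xv : ZMod 2)
    (e : Option X × Fin 4 ⊕ R) : ZMod 2 :=
  match e with
  | Sum.inl (some x, i) => if Sum.inl (x, i) = v then xv else g (Sum.inl (x, i))
  | Sum.inr r => if Sum.inr r = v then xv else g (Sum.inr r)
  | Sum.inl (none, i) => if i = σ 0 then x0 else if i = σ 1 then x1 else if i = σ 2 then x2
      else g v

theorem extF_0 (g : X × Fin 4 ⊕ R → ZMod 2) (x0 x1 x2 xv : ZMod 2) :
    extF v σ g x0 x1 x2 xv (Sum.inl (none, σ 0)) = x0 := by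
  simp [extF]

theorem extF_1 (g : X × Fin 4 ⊕ R → ZMod 2) (x0 x1 x2 xv : ZMod 2) :
    extF v σ g x0 x1 x2 xv (Sum.inl (none, σ 1)) = x1 := by
  simp [extF]

theorem extF_2 (g : X × Fin 4 ⊕ R → ZMod 2) (x0 x1 x2 xv : ZMod 2) :
    extF v σ g x0 x1 x2 xv (Sum.inl (none, σ 2)) = x2 := by
  simp [extF]

theorem extF_emb (g : X × Fin 4 ⊕ R → ZMod 2) (x0 x1 x2 xv : ZMod 2) :
    extF v σ g x0 x1 x2 xv (emb v) = xv := by
  rcases v with ⟨x, i⟩ | r
  · show (if (Sum.inl (x, i) : X × Fin 4 ⊕ R) = Sum.inl (x, i) then xv else _) = xv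
    rw [if_pos rfl]
  · show (if (Sum.inr r : X × Fin 4 ⊕ R) = Sum.inr r then xv else _) = xv
    rw [if_pos rfl]

theorem extF_out (g : X × Fin 4 ⊕ R → ZMod 2) (x0 x1 x2 xv : ZMod 2) (e : X × Fin 4 ⊕ R) :
    extF v σ g x0 x1 x2 xv (outEnd v σ e) = g e := by
  by_cases h : e = v
  · rw [h, outEnd_self]
    show (if σ 3 = σ 0 then x0 else if σ 3 = σ 1 then x1 else if σ 3 = σ 2 then x2
      else g v) = g v
    rw [if_neg (fun h => absurd (σ.injective h) (by decide)),
      if_neg (fun h => absurd (σ.injective h) (by decide)),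
      if_neg (fun h => absurd (σ.injective h) (by decide))]
  · rw [outEnd_ne σ h]
    rcases e with ⟨x, i⟩ | r
    · show (if (Sum.inl (x, i) : X × Fin 4 ⊕ R) = v then xv else g (Sum.inl (x, i))) = _
      rw [if_neg h]
    · show (if (Sum.inr r : X × Fin 4 ⊕ R) = v then xv else g (Sum.inr r)) = _
      rw [if_neg h]

/-- The outer end of an end of an old crossing, if `v` is an open end. -/
theorem outEnd_crossing (r : R) (x : X) (i : Fin 4) :
    outEnd (Sum.inr r) σ (Sum.inl (x, i) : X × Fin 4 ⊕ R) = Sum.inl (some x, i) := by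
  rw [outEnd_ne σ (by simp)]
  rfl

theorem outEnd_open {r r' : R} (h : r' ≠ r) :
    outEnd (Sum.inr r) σ (Sum.inr r' : X × Fin 4 ⊕ R) = Sum.inr r' := by
  rw [outEnd_ne σ (by simpa using h)]
  rfl

theorem cross_ok : ∀ (b β : Bool) (F : Fin 4 → ZMod 2), (∀ i, F (sm β i) = F i) ↔
    (if β = true then (if b then Mt.S else Mt.E) else (if b then Mt.E else Mt.S)).ok
      (F (Tangle.crossPos b 0)) (F (Tangle.crossPos b 3)) (F (Tangle.crossPos b 1))
      (F (Tangle.crossPos b 2)) := by
  decide

theorem cross_u : ∀ (b β : Bool) (F : Fin 4 → ZMod 2), (∀ i, F (sm β i) = F i) →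
    F 0 + F 2 = F (Tangle.crossPos b 0) + F (Tangle.crossPos b 1) := by
  decide

theorem twist_ok : ∀ (b β : Bool) (F : Fin 4 → ZMod 2), (∀ i, F (sm β i) = F i) ↔
    (if β = true then (if b then Mt.I else Mt.E) else (if b then Mt.E else Mt.I)).ok
      (F (Tangle.twistPos b 1)) (F (Tangle.twistPos b 3)) (F (Tangle.twistPos b 0))
      (F (Tangle.twistPos b 2)) := by
  decide

theorem twist_u : ∀ (b β : Bool) (F : Fin 4 → ZMod 2), (∀ i, F (sm β i) = F i) →
    F 0 + F 2 = F (Tangle.twistPos b 1) + F (Tangle.twistPos b 2) := by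
  decide

variable {a σ} (r : R) (b : Bool)

theorem cut_con {s : Option X → Bool} {f : Option X × Fin 4 ⊕ R → ZMod 2}
    (h : CutCon (insGlue g a (Sum.inr r) (Tangle.crossPos b))
      (Sum.inl (none, Tangle.crossPos b 1)) s f) :
    CutCon g a (fun x => s (some x)) (fun e => f (outEnd (Sum.inr r) (Tangle.crossPos b) e)) ∧
    (if s none = true then (if b then Mt.S else Mt.E) else (if b then Mt.E else Mt.S)).ok
      (f (outEnd (Sum.inr r) (Tangle.crossPos b) a))
      (f (outEnd (Sum.inr r) (Tangle.crossPos b) (Sum.inr r)))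
      (f (Sum.inl (none, Tangle.crossPos b 1))) (f (Sum.inl (none, Tangle.crossPos b 2))) := by
  refine ⟨⟨fun e he he' => h.out e he he', fun x i => ?_⟩, ?_⟩
  · show f (outEnd _ _ (Sum.inl (x, _))) = f (outEnd _ _ (Sum.inl (x, i)))
    rw [outEnd_crossing, outEnd_crossing]
    exact h.2 (some x) i
  · rw [h.zero, outEnd_self]
    exact (cross_ok b (s none) (fun i => f (Sum.inl (none, i)))).mp (h.2 none)

theorem cut_ext {s : Option X → Bool} {k : X × Fin 4 ⊕ R → ZMod 2} {x1 x2 : ZMod 2}
    (h : CutCon g a (fun x => s (some x)) k)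
    (h' : (if s none = true then (if b then Mt.S else Mt.E)
      else (if b then Mt.E else Mt.S)).ok (k a) (k (Sum.inr r)) x1 x2) :
    CutCon (insGlue g a (Sum.inr r) (Tangle.crossPos b)) (Sum.inl (none, Tangle.crossPos b 1)) s
      (extF (Sum.inr r) (Tangle.crossPos b) k (k a) x1 x2 x2) := by
  set σ := Tangle.crossPos b with hσ
  refine ⟨fun e he he' => ?_, fun x i => ?_⟩
  · rcases cases_end (Sum.inr r) σ e with ⟨e', rfl⟩ | rfl | rfl | rfl | rfl
    · rw [insGlue_outEnd]
      by_cases h1 : e' = a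
      · subst h1
        rw [newEnd_a, extF_0, extF_out]
      · by_cases h2 : e' = g a
        · subst h2
          exact absurd (insGlue_1 g a (Sum.inr r) σ).symm he'
        · rw [newEnd_other g a (Sum.inr r) σ h1 h2, extF_out, extF_out]
          exact h.1 e' h1 h2
    · rw [insGlue_emb, extF_2, extF_emb]
    · rw [insGlue_0, extF_out, extF_0]
    · exact absurd rfl he
    · rw [insGlue_2, extF_emb, extF_2]
  · cases x with
    | some x =>
      rw [← outEnd_crossing σ r x, ← outEnd_crossing σ r x, extF_out, extF_out]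
      exact h.2 x i
    | none =>
      refine (cross_ok b (s none) (fun i => extF (Sum.inr r) σ k (k a) x1 x2 x2
        (Sum.inl (none, i)))).mpr ?_ i
      have e3 : extF (Sum.inr r) σ k (k a) x1 x2 x2 (Sum.inl (none, Tangle.crossPos b 3))
          = k (Sum.inr r) := by
        rw [← hσ, ← outEnd_self (Sum.inr r) σ, extF_out]
      rw [e3, ← hσ, extF_0, extF_1, extF_2]
      exact h'

/-- `f` is compatible with the smoothings `s` and with the gluing `g`. -/
def GCon (g : X × Fin 4 ⊕ R → X × Fin 4 ⊕ R) (s : X → Bool)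
    (f : X × Fin 4 ⊕ R → ZMod 2) : Prop :=
  (∀ d, f (g d) = f d) ∧ (∀ x i, f (Sum.inl (x, sm (s x) i)) = f (Sum.inl (x, i)))

/-- The position of the old ends in the twisted tangle. -/
def twistEnd (d d' : R) (σ : Equiv.Perm (Fin 4)) (e : X × Fin 4 ⊕ R) :
    Option X × Fin 4 ⊕ R :=
  if e = Sum.inr d then Sum.inl (none, σ 1) else outEnd (Sum.inr d') σ e

theorem twistEnd_d (d d' : R) :
    twistEnd d d' σ (Sum.inr d : X × Fin 4 ⊕ R) = Sum.inl (none, σ 1) := if_pos rfl

theorem twistEnd_ne (d d' : R) {e : X × Fin 4 ⊕ R} (h : e ≠ Sum.inr d) :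
    twistEnd d d' σ e = outEnd (Sum.inr d') σ e := if_neg h

theorem twist_con (d d' : R) (hd : d' ≠ d) (hgg : ∀ e, g (g e) = e) (hg : ∀ e, g e ≠ e)
    {s : Option X → Bool} {f : Option X × Fin 4 ⊕ R → ZMod 2}
    (h : GCon (insGlue g (Sum.inr d) (Sum.inr d') (Tangle.twistPos b)) s f) :
    GCon g (fun x => s (some x)) (fun e => f (twistEnd d d' (Tangle.twistPos b) e)) ∧
    (if s none = true then (if b then Mt.I else Mt.E) else (if b then Mt.E else Mt.I)).ok
      (f (twistEnd d d' (Tangle.twistPos b) (Sum.inr d)))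
      (f (twistEnd d d' (Tangle.twistPos b) (Sum.inr d')))
      (f (Sum.inl (none, Tangle.twistPos b 0))) (f (Sum.inl (none, Tangle.twistPos b 2))) := by
  set σ := Tangle.twistPos b with hσ
  have h1 : f (outEnd (Sum.inr d') σ (g (Sum.inr d))) = f (Sum.inl (none, σ 1)) := by
    have := h.1 (Sum.inl (none, σ 1))
    rwa [insGlue_1] at this
  refine ⟨⟨fun e => ?_, fun x i => ?_⟩, ?_⟩
  · show f (twistEnd d d' σ (g e)) = f (twistEnd d d' σ e)
    by_cases h2 : e = Sum.inr d
    · rw [h2, twistEnd_d, twistEnd_ne _ _ (hg _), h1]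
    · rw [twistEnd_ne _ _ h2]
      by_cases h3 : g e = Sum.inr d
      · rw [h3, twistEnd_d, ← h1, ← h3, hgg]
      · rw [twistEnd_ne _ _ h3]
        have h4 := h.1 (outEnd (Sum.inr d') σ e)
        have h5 : e ≠ g (Sum.inr d) := fun h6 => h3 (by rw [h6, hgg])
        rwa [insGlue_outEnd, newEnd_other g _ _ σ h2 h5] at h4
  · show f (twistEnd d d' σ (Sum.inl (x, _))) = f (twistEnd d d' σ (Sum.inl (x, i)))
    rw [twistEnd_ne _ _ (by simp), twistEnd_ne _ _ (by simp), outEnd_crossing, outEnd_crossing]
    exact h.2 (some x) i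
  · rw [twistEnd_d, twistEnd_ne _ _ (by simpa using hd), outEnd_self]
    exact (twist_ok b (s none) (fun i => f (Sum.inl (none, i)))).mp (h.2 none)

theorem twist_ext (d d' : R) (hd : d' ≠ d) (hgg : ∀ e, g (g e) = e) (hg : ∀ e, g e ≠ e)
    {s : Option X → Bool} {k : X × Fin 4 ⊕ R → ZMod 2} {x0 x2 : ZMod 2}
    (h : GCon g (fun x => s (some x)) k)
    (h' : (if s none = true then (if b then Mt.I else Mt.E)
      else (if b then Mt.E else Mt.I)).ok (k (Sum.inr d)) (k (Sum.inr d')) x0 x2) :
    GCon (insGlue g (Sum.inr d) (Sum.inr d') (Tangle.twistPos b)) s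
      (extF (Sum.inr d') (Tangle.twistPos b) (update k (Sum.inr d) x0) x0 (k (Sum.inr d))
        x2 x2) := by
  set σ := Tangle.twistPos b with hσ
  refine ⟨fun e => ?_, fun x i => ?_⟩
  · rcases cases_end (Sum.inr d') σ e with ⟨e', rfl⟩ | rfl | rfl | rfl | rfl
    · rw [insGlue_outEnd]
      by_cases h1 : e' = Sum.inr d
      · rw [h1, newEnd_a, extF_0, extF_out, update_self]
      · by_cases h2 : e' = g (Sum.inr d)
        · rw [h2, newEnd_glue_a g _ _ σ hg, extF_1, extF_out, update_of_ne (hg _), h.1]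
        · rw [newEnd_other g _ _ σ h1 h2, extF_out, extF_out, update_of_ne h1,
            update_of_ne (fun h3 => h2 (by rw [← h3, hgg])), h.1]
    · rw [insGlue_emb, extF_2, extF_emb]
    · rw [insGlue_0, extF_out, extF_0, update_self]
    · rw [insGlue_1, extF_out, extF_1, update_of_ne (hg _), h.1]
    · rw [insGlue_2, extF_emb, extF_2]
  · cases x with
    | some x =>
      rw [← outEnd_crossing σ d' x, ← outEnd_crossing σ d' x, extF_out, extF_out,
        update_of_ne (by simp), update_of_ne (by simp)]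
      exact h.2 x i
    | none =>
      refine (twist_ok b (s none) (fun i => extF (Sum.inr d') σ (update k (Sum.inr d) x0) x0
        (k (Sum.inr d)) x2 x2 (Sum.inl (none, i)))).mpr ?_ i
      have e3 : extF (Sum.inr d') σ (update k (Sum.inr d) x0) x0 (k (Sum.inr d)) x2 x2
          (Sum.inl (none, Tangle.twistPos b 3)) = k (Sum.inr d') := by
        rw [← hσ, ← outEnd_self (Sum.inr d') σ, extF_out, update_of_ne (by simpa using hd)]
      rw [e3, ← hσ, extF_0, extF_1, extF_2]
      exact h'

theorem cut_star [Fintype X] [Fintype R] (g : X × Fin 4 ⊕ R → X × Fin 4 ⊕ R)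
    (hgg : ∀ e, g (g e) = e) (hg : ∀ e, g e ≠ e) (a : X × Fin 4 ⊕ R) (s s' : X → Bool)
    (f f' : X × Fin 4 ⊕ R → ZMod 2) (h : CutCon g a s f) (h' : CutCon g a s' f') :
    ∑ r : R, f (Sum.inr r) * f' (Sum.inr r) + (f a * f' a + f (g a) * f' (g a)) =
      ∑ x : X, if s x = s' x then 0 else
      (f (Sum.inl (x, 0)) + f (Sum.inl (x, 2))) * (f' (Sum.inl (x, 0)) + f' (Sum.inl (x, 2))) := by
  have two : ∀ a : ZMod 2, a + a = 0 := fun a => by revert a; decide
  have tot : ∑ e : X × Fin 4 ⊕ R, (f e * f' e + (if e = a then f a * f' a else 0) +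
      (if e = g a then f (g a) * f' (g a) else 0)) = 0 := by
    refine Finset.sum_involution (fun e _ => g e) ?_ ?_ ?_ ?_
    · intro e _
      by_cases h1 : e = a
      · subst h1
        rw [if_pos rfl, if_neg (hg e).symm, if_neg (hg e), if_pos rfl]
        linear_combination two (f e * f' e) + two (f (g e) * f' (g e))
      · by_cases h2 : e = g a
        · subst h2
          rw [if_neg (hg a), if_pos rfl, hgg, if_pos rfl, if_neg (hg a).symm]
          linear_combination two (f a * f' a) + two (f (g a) * f' (g a))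
        · rw [if_neg h1, if_neg h2, if_neg (fun h3 => h2 (by rw [← h3, hgg])),
            if_neg (fun h3 => h1 (by rw [← hgg e, h3, hgg])), h.1 e h1 h2, h'.1 e h1 h2]
          linear_combination two (f e * f' e)
    · intro e _ _
      exact hg e
    · intro e _; exact Finset.mem_univ _
    · intro e _; exact hgg e
  rw [Finset.sum_add_distrib, Finset.sum_add_distrib, Finset.sum_ite_eq' Finset.univ a,
    Finset.sum_ite_eq' Finset.univ (g a), if_pos (Finset.mem_univ _),
    if_pos (Finset.mem_univ _), Fintype.sum_sum_type, Fintype.sum_prod_type] at tot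
  have e : ∀ x : X, ∑ i : Fin 4, f (Sum.inl (x, i)) * f' (Sum.inl (x, i)) =
      if s x = s' x then 0 else
      (f (Sum.inl (x, 0)) + f (Sum.inl (x, 2))) * (f' (Sum.inl (x, 0)) + f' (Sum.inl (x, 2))) := by
    intro x
    rw [Fin.sum_univ_four]
    exact Tangle.star_local (fun i => f (Sum.inl (x, i))) (fun i => f' (Sum.inl (x, i))) (s x)
      (s' x) (h.2 x) (h'.2 x)
  rw [Finset.sum_congr rfl (fun x _ => e x)] at tot
  have h3 := two (∑ r : R, f (Sum.inr r) * f' (Sum.inr r))
  have h4 := two (f a * f' a + f (g a) * f' (g a))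
  linear_combination h3 + h4 - tot

end raw

namespace Tangle

variable {R : Type} [Fintype R] [DecidableEq R]

theorem leg_attach_i {Λ : Type} [Fintype Λ] [DecidableEq Λ] (A : PS Λ) (l : Letter Λ) {k : Λ}
    (h : k = l.i) : (PS.attach A l).leg k = Sum.inr false :=
  if_pos h

theorem leg_attach_j {Λ : Type} [Fintype Λ] [DecidableEq Λ] (A : PS Λ) (l : Letter Λ) {k : Λ}
    (h : k = l.j) : (PS.attach A l).leg k = Sum.inr true :=
  (if_neg (fun h' => l.ne (h'.symm.trans h))).trans (if_pos h)

theorem leg_attach_ne {Λ : Type} [Fintype Λ] [DecidableEq Λ] (A : PS Λ) (l : Letter Λ) {k : Λ}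
    (h : k ≠ l.i) (h' : k ≠ l.j) : (PS.attach A l).leg k = Sum.inl (A.leg k) :=
  (if_neg h).trans (if_neg h')

/-- The open system of a tangle in which the arc joining `a` and `glue a` has been cut; the new
legs are `inr false` (at `a`) and `inr true` (at `glue a`). -/
def cutPS (t : Tangle R) (a : t.End) : PS (R ⊕ Bool) where
  P := t.End
  X := t.X
  Con s :=
    { carrier := {f | CutCon t.glue a s f}
      add_mem' := by
        rintro f g ⟨h1, h2⟩ ⟨k1, k2⟩
        refine ⟨fun d h h' => ?_, fun x i => ?_⟩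
        · simp only [Pi.add_apply, h1 d h h', k1 d h h']
        · simp only [Pi.add_apply, h2, k2]
      zero_mem' := ⟨fun _ _ _ => rfl, fun _ _ => rfl⟩
      smul_mem' := by
        rintro c f ⟨h1, h2⟩
        refine ⟨fun d h h' => ?_, fun x i => ?_⟩
        · simp only [Pi.smul_apply, h1 d h h']
        · simp only [Pi.smul_apply, h2] }
  ua x := Sum.inl (x, 0)
  ub x := Sum.inl (x, 2)
  leg := Sum.elim Sum.inr (fun b => if b then t.glue a else a)
  act := Finset.univ
  val _ := false
  swap := fun s x b f hf h => ⟨hf.1, t.swap_aux s x b f hf.2 h⟩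
  star := by
    intro s s' f f' hf hf'
    rw [← cut_star t.glue t.glue_glue t.glue_ne a s s' f f' hf hf', Fintype.sum_sum_type,
      Fintype.sum_bool, add_comm (f a * f' a)]
    rfl

theorem bool_mu (b : Bool) : (!(!b)) = b := by cases b <;> rfl

theorem bool_ne (b : Bool) : (!b) ≠ b := by cases b <;> simp

/-- The arc joining the two extra legs. -/
def arc : PS Bool := PS.base (!·) bool_mu bool_ne

/-- Gluing back the cut arc. -/
theorem cap_cut (t : Tangle R) (a : t.End) : PS.Iso (PS.cap (cutPS t a) arc) t.toPS := by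
  refine ⟨Sum.inl, Sum.inl, Sum.inl_injective, ?_, ?_, ?_, ?_, ?_, ?_, ?_⟩
  · rintro (x | x)
    · exact ⟨fun _ => ⟨x, Finset.mem_univ _, rfl⟩,
        fun _ => Finset.inl_mem_disjSum.mpr (Finset.mem_univ _)⟩
    · exact Empty.elim x
  · exact fun y hy => absurd (Finset.mem_univ y) hy
  · rintro s _ f ⟨h1, h2, h3⟩
    have e0 : f (Sum.inl a) = f (Sum.inr false) := h3 false
    have e1 : f (Sum.inl (t.glue a)) = f (Sum.inr true) := h3 true
    have e2 : f (Sum.inr true) = f (Sum.inr false) := h2 false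
    refine ⟨fun d => ?_, h1.2⟩
    by_cases ha : d = a
    · subst ha
      exact e1.trans (e2.trans e0.symm)
    · by_cases hb : d = t.glue a
      · subst hb
        refine (congrArg (fun z => f (Sum.inl z)) (t.glue_glue a)).trans ?_
        exact (e1.trans (e2.trans e0.symm)).symm
      · exact h1.1 d ha hb
  · rintro s _ f ⟨h1, h2, h3⟩ hz
    funext p
    rcases p with p | c
    · exact hz p
    · exact (h3 c).symm.trans (hz _)
  · rintro s _ k ⟨h1, h2⟩
    refine ⟨Sum.elim k (fun _ => k a), ⟨⟨fun d _ _ => h1 d, h2⟩, fun _ => rfl, fun c => ?_⟩,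
      fun _ => rfl⟩
    cases c
    · rfl
    · exact h1 a
  · exact fun _ _ _ _ _ _ => rfl
  · exact fun _ _ _ _ _ => rfl

theorem mem_insert_none {X : Type} [DecidableEq X] [Fintype X] (x : Option X) :
    x ∈ insert none ((Finset.univ : Finset X).map Function.Embedding.some) := by
  cases x with
  | none => exact Finset.mem_insert_self _ _
  | some x => exact Finset.mem_insert_of_mem (Finset.mem_map.mpr ⟨x, Finset.mem_univ x, rfl⟩)

/-- Crossing an arc at an open end. -/
theorem cut_ins (t : Tangle R) (a : t.End) (r : R) (b : Bool) :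
    PS.Iso (cutPS (t.ins a (Sum.inr r) (crossPos b)) (Sum.inl (none, crossPos b 1)))
      (PS.attach (cutPS t a) (PS.XL (Sum.inr false) (Sum.inl r) (by simp) b)) := by
  let j : t.End ⊕ Bool → Option t.X × Fin 4 ⊕ R := Sum.elim (outEnd (Sum.inr r) (crossPos b))
    (fun c => if c then Sum.inl (none, crossPos b 2) else Sum.inl (none, crossPos b 1))
  have geq := t.ins_glue_eq a (Sum.inr r) (crossPos b)
  have conv : ∀ {s : Option t.X → Bool} {f : Option t.X × Fin 4 ⊕ R → ZMod 2},
      CutCon (X := Option t.X) (t.ins a (Sum.inr r) (crossPos b)).glue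
        (Sum.inl (none, crossPos b 1)) s f →
      CutCon (insGlue t.glue a (Sum.inr r) (crossPos b)) (Sum.inl (none, crossPos b 1)) s f := by
    intro s f hf
    rw [← geq]
    exact hf
  have conv' : ∀ {s : Option t.X → Bool} {f : Option t.X × Fin 4 ⊕ R → ZMod 2},
      CutCon (insGlue t.glue a (Sum.inr r) (crossPos b)) (Sum.inl (none, crossPos b 1)) s f →
      CutCon (X := Option t.X) (t.ins a (Sum.inr r) (crossPos b)).glue
        (Sum.inl (none, crossPos b 1)) s f := by
    intro s f hf
    rw [geq]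
    exact hf
  refine ⟨j, id, ?_⟩
  constructor
  · exact injective_id
  · exact fun x => ⟨fun _ => ⟨x, mem_insert_none x, rfl⟩, fun _ => Finset.mem_univ _⟩
  · exact fun y hy => absurd (mem_insert_none y) hy
  · -- con
    intro s _ f hf
    exact cut_con (g := t.glue) (a := a) r b (conv hf)
  · -- det
    intro s _ f hf hz
    have hf' : CutCon (insGlue t.glue a (Sum.inr r) (crossPos b)) (Sum.inl (none, crossPos b 1))
      s f := conv hf
    have z0 : ∀ e, f (outEnd (Sum.inr r) (crossPos b) e) = 0 := fun e => hz (Sum.inl e)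
    funext e
    rcases cases_end (Sum.inr r) (crossPos b) e with ⟨e', rfl⟩ | rfl | rfl | rfl | rfl
    · exact z0 e'
    · exact hf'.two.trans (hz (Sum.inr true))
    · exact hf'.zero.symm.trans (z0 a)
    · exact hz (Sum.inr false)
    · exact hz (Sum.inr true)
  · -- ext
    intro s _ k hk
    refine ⟨extF (Sum.inr r) (crossPos b) (fun e => k (Sum.inl e)) (k (Sum.inl a))
      (k (Sum.inr false)) (k (Sum.inr true)) (k (Sum.inr true)),
      conv' (cut_ext (k := fun e => k (Sum.inl e)) r b hk.1 hk.2), ?_⟩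
    rintro (e | c)
    · exact extF_out (Sum.inr r) (crossPos b) _ _ _ _ _ e
    · cases c
      · exact extF_1 (Sum.inr r) (crossPos b) _ _ _ _ _
      · exact extF_2 (Sum.inr r) (crossPos b) _ _ _ _ _
  · -- u
    intro s _ y _ f hf
    have hf' : CutCon (insGlue t.glue a (Sum.inr r) (crossPos b)) (Sum.inl (none, crossPos b 1))
      s f := conv hf
    cases y with
    | none =>
      have h1 := cross_u b (s none) (fun i => f (Sum.inl (none, i))) (fun i => hf.2 none i)
      refine h1.trans ?_
      refine congrArg₂ (· + ·) hf'.zero.symm ?_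
      cases b <;> rfl
    | some x =>
      exact (congrArg₂ (fun z w => f z + f w) (outEnd_crossing (crossPos b) r x 0)
        (outEnd_crossing (crossPos b) r x 2)).symm
  · -- leg
    intro s _ f hf l
    have hf' : CutCon (insGlue t.glue a (Sum.inr r) (crossPos b)) (Sum.inl (none, crossPos b 1))
      s f := conv hf
    rcases l with r' | c
    · by_cases h : r' = r
      · refine Eq.trans ?_ (congrArg (fun z => f (j z)) (leg_attach_j (cutPS t a)
          (PS.XL (Sum.inr false) (Sum.inl r) (by simp) b) (congrArg Sum.inl h))).symm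
        subst h
        exact hf'.two
      · refine Eq.trans ?_ (congrArg (fun z => f (j z)) (leg_attach_ne (cutPS t a)
          (PS.XL (Sum.inr false) (Sum.inl r) (by simp) b) (k := Sum.inl r') (by simp [PS.XL])
          (by simpa [PS.XL] using h))).symm
        exact (congrArg f (outEnd_open (crossPos b) h)).symm
    · cases c
      · rfl
      · exact (congrArg (fun g => f (g (Sum.inl (none, crossPos b 1)))) geq).trans
          (congrArg f (insGlue_1 t.glue a (Sum.inr r) (crossPos b)))

/-- Twisting two open ends. -/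
theorem ins_twist (t : Tangle R) (d d' : R) (h : d ≠ d') (b : Bool) :
    PS.Iso (t.ins (Sum.inr d) (Sum.inr d') (twistPos b)).toPS
      (PS.attach t.toPS (PS.YL d d' h b)) := by
  let j : t.End ⊕ Bool → Option t.X × Fin 4 ⊕ R := Sum.elim (twistEnd d d' (twistPos b))
    (fun c => if c then Sum.inl (none, twistPos b 2) else Sum.inl (none, twistPos b 0))
  have geq := t.ins_glue_eq (Sum.inr d) (Sum.inr d') (twistPos b)
  have conv : ∀ {s : Option t.X → Bool} {f : Option t.X × Fin 4 ⊕ R → ZMod 2},
      GCon (X := Option t.X) (t.ins (Sum.inr d) (Sum.inr d') (twistPos b)).glue s f →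
      GCon (insGlue t.glue (Sum.inr d) (Sum.inr d') (twistPos b)) s f := by
    intro s f hf
    rw [← geq]
    exact hf
  have conv' : ∀ {s : Option t.X → Bool} {f : Option t.X × Fin 4 ⊕ R → ZMod 2},
      GCon (insGlue t.glue (Sum.inr d) (Sum.inr d') (twistPos b)) s f →
      GCon (X := Option t.X) (t.ins (Sum.inr d) (Sum.inr d') (twistPos b)).glue s f := by
    intro s f hf
    rw [geq]
    exact hf
  have c0 : ∀ {s : Option t.X → Bool} {f : Option t.X × Fin 4 ⊕ R → ZMod 2},
      GCon (insGlue t.glue (Sum.inr d) (Sum.inr d') (twistPos b)) s f →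
      f (outEnd (Sum.inr d') (twistPos b) (Sum.inr d)) = f (Sum.inl (none, twistPos b 0)) := by
    intro s f hf
    have := hf.1 (Sum.inl (none, twistPos b 0))
    rwa [insGlue_0] at this
  have c2 : ∀ {s : Option t.X → Bool} {f : Option t.X × Fin 4 ⊕ R → ZMod 2},
      GCon (insGlue t.glue (Sum.inr d) (Sum.inr d') (twistPos b)) s f →
      f (emb (Sum.inr d')) = f (Sum.inl (none, twistPos b 2)) := by
    intro s f hf
    have := hf.1 (Sum.inl (none, twistPos b 2))
    rwa [insGlue_2] at this
  refine ⟨j, id, ?_⟩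
  constructor
  · exact injective_id
  · exact fun x => ⟨fun _ => ⟨x, mem_insert_none x, rfl⟩, fun _ => Finset.mem_univ _⟩
  · exact fun y hy => absurd (mem_insert_none y) hy
  · -- con
    intro s _ f hf
    exact twist_con (g := t.glue) b d d' h.symm t.glue_glue t.glue_ne (conv hf)
  · -- det
    intro s _ f hf hz
    have hf' : GCon (insGlue t.glue (Sum.inr d) (Sum.inr d') (twistPos b)) s f := conv hf
    have z0 : ∀ e, f (outEnd (Sum.inr d') (twistPos b) e) = 0 := by
      intro e
      by_cases h1 : e = Sum.inr d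
      · subst h1
        exact (c0 hf').trans (hz (Sum.inr false))
      · exact (congrArg f (twistEnd_ne d d' h1)).symm.trans (hz (Sum.inl e))
    funext e
    rcases cases_end (Sum.inr d') (twistPos b) e with ⟨e', rfl⟩ | rfl | rfl | rfl | rfl
    · exact z0 e'
    · exact (c2 hf').trans (hz (Sum.inr true))
    · exact hz (Sum.inr false)
    · exact (congrArg f (twistEnd_d d d')).symm.trans (hz (Sum.inl (Sum.inr d)))
    · exact hz (Sum.inr true)
  · -- ext
    intro s _ k hk
    refine ⟨extF (Sum.inr d') (twistPos b)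
      (update (fun e => k (Sum.inl e)) (Sum.inr d) (k (Sum.inr false))) (k (Sum.inr false))
      (k (Sum.inl (Sum.inr d))) (k (Sum.inr true)) (k (Sum.inr true)),
      conv' (twist_ext (k := fun e => k (Sum.inl e)) b d d' h.symm t.glue_glue t.glue_ne hk.1
        hk.2), ?_⟩
    rintro (e | c)
    · by_cases h1 : e = Sum.inr d
      · subst h1
        exact (congrArg _ (twistEnd_d d d')).trans
          (extF_1 (Sum.inr d') (twistPos b) _ _ _ _ _)
      · exact (congrArg _ (twistEnd_ne d d' h1)).trans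
          ((extF_out (Sum.inr d') (twistPos b) _ _ _ _ _ e).trans (update_of_ne h1 _ _))
    · cases c
      · exact extF_0 (Sum.inr d') (twistPos b) _ _ _ _ _
      · exact extF_2 (Sum.inr d') (twistPos b) _ _ _ _ _
  · -- u
    intro s _ y _ f hf
    cases y with
    | none =>
      have h1 := twist_u b (s none) (fun i => f (Sum.inl (none, i))) (fun i => hf.2 none i)
      refine h1.trans ?_
      refine congrArg₂ (· + ·) (congrArg f (twistEnd_d d d')).symm ?_
      cases b <;> rfl
    | some x =>
      refine (congrArg₂ (fun z w => f z + f w) ?_ ?_).symm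
      · exact (twistEnd_ne d d' Sum.inl_ne_inr).trans (outEnd_crossing (twistPos b) d' x 0)
      · exact (twistEnd_ne d d' Sum.inl_ne_inr).trans (outEnd_crossing (twistPos b) d' x 2)
  · -- leg
    intro s _ f hf r'
    have hf' : GCon (insGlue t.glue (Sum.inr d) (Sum.inr d') (twistPos b)) s f := conv hf
    by_cases h1 : r' = d
    · refine Eq.trans ?_ (congrArg (fun z => f (j z)) (leg_attach_i t.toPS
        (PS.YL d d' h b) h1)).symm
      subst h1
      exact (congrArg f (outEnd_open (twistPos b) h)).symm.trans (c0 hf')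
    · by_cases h2 : r' = d'
      · refine Eq.trans ?_ (congrArg (fun z => f (j z)) (leg_attach_j t.toPS
          (PS.YL d d' h b) h2)).symm
        subst h2
        exact c2 hf'
      · refine Eq.trans ?_ (congrArg (fun z => f (j z)) (leg_attach_ne t.toPS
          (PS.YL d d' h b) h1 h2)).symm
        refine (congrArg f ?_).symm
        exact (twistEnd_ne d d' (fun h3 => h1 (Sum.inr_injective h3))).trans (outEnd_open (twistPos b) h2)

end Tangle

end Spg
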