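import Pool.Agent.H85.SpgChain

/-!
# The main theorem
-/

namespace Spg

/-- Adequate diagrams are crossing-minimal. -/
theorem main (G H : Diagram) (h : Diagram.Isotopic G H) (hG : G.Adequate) :
    G.crossings ≤ H.crossings :=
  Diagram.main_of_CP' (Diagram.CP.of_isotopic' h) hG

end Spg
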